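import Mathlib
import Pool.Agent.H772R2.NSR.Gal
import Pool.Agent.H772R2.NSR.Conc

set_option autoImplicit false

/-!
Project DD: the Navier-Stokes equations in an arbitrary bounded open set of `ℝ³` with zero boundary
values and a small random skew-adjoint term which rotates planes spanned by pairs of Stokes
eigenfunctions. Statements of the packages.
-/

open MeasureTheory ProbabilityTheory Set Filter Topology
open scoped InnerProductSpace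

namespace Pool.Agent.U401.DD

open H772R2.NSR

/-! ### The data -/

/-- energy weight of the plane `j`, spanned by the modes `2 j` and `2 j + 1` -/
noncomputable def gg (lam : ℕ → ℝ) (j : ℕ) : ℝ := lam (2 * j) + lam (2 * j + 1)

/-- `1 + gg` -/
noncomputable def GG (lam : ℕ → ℝ) (j : ℕ) : ℝ := 1 + gg lam j

/-- the scale of the plane `j`; it is at least `j + 1` and at least `GG lam j` -/
noncomputable def mu (lam : ℕ → ℝ) (j : ℕ) : ℝ := ((j : ℝ) + 1) * (1 + gg lam j)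

/-- the rotation: `(a_{2j}, a_{2j+1}) ↦ (ω_j a_{2j+1}, -ω_j a_{2j})` -/
noncomputable def rot (om : ℕ → ℝ) (a : ℕ → ℝ) (n : ℕ) : ℝ :=
  if n % 2 = 0 then om (n / 2) * a (n + 1) else -(om (n / 2) * a (n - 1))

/-- the quadratic term, cut off at `2 N` modes -/
noncomputable def quad (bet : ℕ → ℕ → ℕ → ℝ) (N : ℕ) (a : ℕ → ℝ) (n : ℕ) : ℝ :=
  ∑ k ∈ Finset.range (2 * N), ∑ l ∈ Finset.range (2 * N), bet k l n * a k * a l

/-- the part of the right hand side without the rotation -/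
noncomputable def Nn (bet : ℕ → ℕ → ℕ → ℝ) (lam : ℕ → ℝ) (ν : ℝ) (N : ℕ) (a f : ℕ → ℝ) (n : ℕ) :
    ℝ := -ν * lam n * a n + quad bet N a n + f n

/-- `∑ a_n²` -/
noncomputable def Mm (N : ℕ) (a : ℕ → ℝ) : ℝ := ∑ n ∈ Finset.range (2 * N), a n ^ 2

/-- `∑ λ_n a_n²` -/
noncomputable def Dd (lam : ℕ → ℝ) (N : ℕ) (a : ℕ → ℝ) : ℝ :=
  ∑ n ∈ Finset.range (2 * N), lam n * a n ^ 2

/-- `∑ g_j (a_{2j}² + a_{2j+1}²)`, the rotation invariant energy -/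
noncomputable def En (lam : ℕ → ℝ) (N : ℕ) (a : ℕ → ℝ) : ℝ :=
  ∑ n ∈ Finset.range (2 * N), gg lam (n / 2) * a n ^ 2

/-- properties of the coefficients -/
structure Dat (bet : ℕ → ℕ → ℕ → ℝ) (lam : ℕ → ℝ) (K : ℝ) : Prop where
  K1 : 1 ≤ K
  sym : ∀ k l n, bet k l n = bet l k n
  cyc : ∀ k l n, bet k l n + bet l n k + bet n k l = 0
  pos : ∀ n, 0 < lam n
  low : ∀ n, 1 ≤ K * lam n
  cmp : ∀ n, gg lam (n / 2) ≤ K * lam n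
  bd : ∀ k l n, |bet k l n| ≤ K * (GG lam (k / 2) * GG lam (l / 2) * GG lam (n / 2))
  bd2 : ∀ k l n, k / 2 = l / 2 → bet k l n ^ 4 ≤ K * (GG lam (k / 2) ^ 3 * GG lam (n / 2) ^ 2)
  bes : ∀ N a, (∑ n ∈ Finset.range (2 * N), quad bet N a n ^ 2 / lam n) ^ 2 ≤
    K * (Mm N a * Dd lam N a ^ 3)

/-- a solution of the truncated system on `[0, T]` -/
def Gal (bet : ℕ → ℕ → ℕ → ℝ) (lam om : ℕ → ℝ) (ν ε : ℝ) (N : ℕ) (T : ℝ) (f : ℕ → ℝ → ℝ)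
    (a : ℕ → ℝ → ℝ) : Prop :=
  ∀ n < 2 * N, ∀ t ∈ Icc 0 T, HasDerivWithinAt (a n)
    (Nn bet lam ν N (fun k => a k t) (fun k => f k t) n + ε * rot om (fun k => a k t) n)
    (Icc 0 T) t

/-! ### Complex coordinates -/

/-- complex modes: a plane and an orientation -/
abbrev Ix := ℕ × Bool

/-- the conjugate mode -/
def bar (κ : Ix) : Ix := (κ.1, !κ.2)

/-- the sign of the orientation -/
def sg (b : Bool) : ℝ := if b then 1 else -1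

/-- the frequency of a complex mode -/
noncomputable def fr (om : ℕ → ℝ) (κ : Ix) : ℝ := sg κ.2 * om κ.1

/-- the divisor -/
noncomputable def Lm (om : ℕ → ℝ) (κ l m : Ix) : ℝ := fr om κ + fr om l + fr om m

/-- coefficients of the inverse transformation -/
noncomputable def qq (b : Bool) (i : ℕ) : ℂ :=
  if i = 0 then 1 else (if b then -Complex.I else Complex.I)

/-- the complex form of a real trilinear array -/
noncomputable def cx (s : ℕ → ℕ → ℕ → ℝ) (κ l m : Ix) : ℂ :=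
  (1 / 8) * ∑ a ∈ Finset.range 2, ∑ b ∈ Finset.range 2, ∑ c ∈ Finset.range 2,
    (s (2 * κ.1 + a) (2 * l.1 + b) (2 * m.1 + c) : ℂ) * qq κ.2 a * qq l.2 b * qq m.2 c

/-- the complex coordinates `a_{2j} ± i a_{2j+1}` -/
noncomputable def uu (a : ℕ → ℝ) (κ : Ix) : ℂ :=
  (a (2 * κ.1) : ℂ) + sg κ.2 * a (2 * κ.1 + 1) * Complex.I

/-- the complex modes of the first `N` planes -/
def IxN (N : ℕ) : Finset Ix := Finset.range N ×ˢ Finset.univ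

/-- a cubic form -/
noncomputable def form (N : ℕ) (h : Ix → Ix → Ix → ℂ) (u : Ix → ℂ) : ℂ :=
  ∑ κ ∈ IxN N, ∑ l ∈ IxN N, ∑ m ∈ IxN N, h κ l m * (u κ * u l * u m)

/-- its derivative in the direction `r` -/
noncomputable def dform (N : ℕ) (h : Ix → Ix → Ix → ℂ) (u r : Ix → ℂ) : ℂ :=
  ∑ κ ∈ IxN N, ∑ l ∈ IxN N, ∑ m ∈ IxN N,
    h κ l m * (r κ * u l * u m + u κ * r l * u m + u κ * u l * r m)

/-- the symmetric array of the production of energy -/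
noncomputable def sig (bet : ℕ → ℕ → ℕ → ℝ) (lam : ℕ → ℝ) (k l n : ℕ) : ℝ :=
  2 / 3 * (gg lam (n / 2) * bet k l n + gg lam (k / 2) * bet l n k + gg lam (l / 2) * bet n k l)

/-! ### Resonances -/

/-- all three modes in the same plane -/
def same (κ l m : Ix) : Prop := κ.1 = l.1 ∧ l.1 = m.1

/-- trivially resonant triples: two of the modes are conjugate -/
def res (κ l m : Ix) : Prop := l = bar κ ∨ m = bar κ ∨ m = bar l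

/-- the largest scale -/
noncomputable def mx (lam : ℕ → ℝ) (κ l m : Ix) : ℝ :=
  max (mu lam κ.1) (max (mu lam l.1) (mu lam m.1))

/-- triples removed by the normal form -/
def far (lam om : ℕ → ℝ) (κ l m : Ix) : Prop :=
  ¬ same κ l m ∧ ((¬ res κ l m ∧ mx lam κ l m ^ 20 ≤ |Lm om κ l m|) ∨
    (l = bar κ ∧ GG lam κ.1 ≤ mu lam m.1 ^ 8) ∨ (m = bar κ ∧ GG lam κ.1 ≤ mu lam l.1 ^ 8) ∨
    (m = bar l ∧ GG lam l.1 ≤ mu lam κ.1 ^ 8))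

/-- near-resonant triples which are not trivially resonant -/
def near (lam om : ℕ → ℝ) (κ l m : Ix) : Prop :=
  ¬ same κ l m ∧ ¬ res κ l m ∧ |Lm om κ l m| < mx lam κ l m ^ 20

/-- good frequencies -/
structure Good (lam om : ℕ → ℝ) (c : ℝ) : Prop where
  pos : 0 < c
  low : ∀ j, c * mu lam j ^ 20 ≤ |om j|
  fin : {t : Ix × Ix × Ix | near lam om t.1 t.2.1 t.2.2}.Finite

open Classical in
/-- the coefficients of the normal form -/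
noncomputable def hnf (bet : ℕ → ℕ → ℕ → ℝ) (lam om : ℕ → ℝ) (ε : ℝ) (κ l m : Ix) : ℂ :=
  if far lam om κ l m then cx (sig bet lam) κ l m * (Complex.I / (ε * Lm om κ l m)) else 0

open Classical in
/-- the part of the energy production which is not removed -/
noncomputable def rest (bet : ℕ → ℕ → ℕ → ℝ) (lam om : ℕ → ℝ) (κ l m : Ix) : ℂ :=
  if far lam om κ l m then 0 else cx (sig bet lam) κ l m

open Classical in
/-- the weights which bound the coefficients of the normal form -/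
noncomputable def wt (lam : ℕ → ℝ) (κ l m : Ix) : ℝ :=
  (mu lam κ.1 ^ 3)⁻¹ * (mu lam l.1 ^ 3)⁻¹ * (mu lam m.1 ^ 3)⁻¹ +
    (if l = bar κ then (mu lam m.1 ^ 3)⁻¹ else 0) +
    (if m = bar κ then (mu lam l.1 ^ 3)⁻¹ else 0) +
    (if m = bar l then (mu lam κ.1 ^ 3)⁻¹ else 0)

/-! ### Packages: the truncated system -/

/-- (CPX) real and complex form of a trilinear array -/
def S_CPX : Prop := ∀ (s : ℕ → ℕ → ℕ → ℝ) (N : ℕ) (a : ℕ → ℝ),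
  ((∑ k ∈ Finset.range (2 * N), ∑ l ∈ Finset.range (2 * N), ∑ n ∈ Finset.range (2 * N),
    s k l n * (a k * a l * a n) : ℝ) : ℂ) = form N (cx s) (uu a)

/-- (SIG) the energy production -/
def S_SIG : Prop := ∀ (bet : ℕ → ℕ → ℕ → ℝ) (lam : ℕ → ℝ) (K : ℝ), Dat bet lam K →
  ∀ (N : ℕ) (a : ℕ → ℝ),
    ∑ n ∈ Finset.range (2 * N), 2 * gg lam (n / 2) * a n * quad bet N a n =
      ∑ k ∈ Finset.range (2 * N), ∑ l ∈ Finset.range (2 * N), ∑ n ∈ Finset.range (2 * N),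
        sig bet lam k l n * (a k * a l * a n)

/-- (BDC) bounds of the complex coefficients -/
def S_BDC : Prop := ∀ (bet : ℕ → ℕ → ℕ → ℝ) (lam : ℕ → ℝ) (K : ℝ), Dat bet lam K →
  (∀ κ l m : Ix, same κ l m → cx (sig bet lam) κ l m = 0) ∧
  (∀ κ l m : Ix, ‖cx (sig bet lam) κ l m‖ ≤
    2 * K * (GG lam κ.1 * GG lam l.1 * GG lam m.1) ^ 2) ∧
  ∃ K' : ℝ, 0 ≤ K' ∧ ∀ κ m : Ix,
    ‖cx (sig bet lam) κ (bar κ) m‖ ^ 4 ≤
      K' * ((GG lam κ.1 + GG lam m.1) ^ 4 * (GG lam κ.1 ^ 3 * GG lam m.1 ^ 2)) ∧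
    ‖cx (sig bet lam) κ m (bar κ)‖ ^ 4 ≤
      K' * ((GG lam κ.1 + GG lam m.1) ^ 4 * (GG lam κ.1 ^ 3 * GG lam m.1 ^ 2)) ∧
    ‖cx (sig bet lam) m κ (bar κ)‖ ^ 4 ≤
      K' * ((GG lam κ.1 + GG lam m.1) ^ 4 * (GG lam κ.1 ^ 3 * GG lam m.1 ^ 2))

/-- (HB) the coefficients of the normal form -/
def S_HB : Prop := S_BDC → ∀ (bet : ℕ → ℕ → ℕ → ℝ) (lam om : ℕ → ℝ) (K c ε : ℝ), Dat bet lam K →
  Good lam om c → ε ≠ 0 →
    (∀ κ l m : Ix, far lam om κ l m → Lm om κ l m ≠ 0) ∧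
    ∃ B : ℝ, 0 ≤ B ∧ ∀ κ l m : Ix, ‖hnf bet lam om ε κ l m‖ ≤ B * wt lam κ l m

/-- (ETA) sums with the weights -/
def S_ETA : Prop := ∀ (lam : ℕ → ℝ), (∀ n, 0 < lam n) → ∃ B : ℝ, 0 ≤ B ∧
  ∀ (N : ℕ) (x r : Ix → ℝ) (X Y Z : ℝ), (∀ κ, 0 ≤ x κ) → (∀ κ, 0 ≤ r κ) → (∀ κ, x (bar κ) = x κ) →
    0 ≤ Z → ∑ κ ∈ IxN N, x κ ^ 2 ≤ X → ∑ κ ∈ IxN N, x κ * r κ ≤ Y →
    (∀ κ ∈ IxN N, r κ ≤ Z * mu lam κ.1) →
    ∑ κ ∈ IxN N, ∑ l ∈ IxN N, ∑ m ∈ IxN N, wt lam κ l m * (x κ * x l * x m) ≤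
      B * (X * Real.sqrt X) ∧
    ∑ κ ∈ IxN N, ∑ l ∈ IxN N, ∑ m ∈ IxN N,
      wt lam κ l m * (r κ * x l * x m + x κ * r l * x m + x κ * x l * r m) ≤
      B * (X * Z + Real.sqrt X * Y)

/-- (KEP) the part which is not removed is absorbed by the viscosity -/
def S_KEP : Prop := S_BDC → ∀ (bet : ℕ → ℕ → ℕ → ℝ) (lam om : ℕ → ℝ) (K c : ℝ), Dat bet lam K →
  Good lam om c → ∀ δ X : ℝ, 0 < δ → ∃ B : ℝ, ∀ (N : ℕ) (a : ℕ → ℝ), Mm N a ≤ X →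
    ‖form N (rest bet lam om) (uu a)‖ ≤
      δ * (∑ n ∈ Finset.range (2 * N), gg lam (n / 2) ^ 2 * a n ^ 2) + B

/-- (RHS) bounds of the right hand side -/
def S_RHS : Prop := ∀ (bet : ℕ → ℕ → ℕ → ℝ) (lam : ℕ → ℝ) (K : ℝ), Dat bet lam K →
  ∀ ν X F : ℝ, 0 ≤ ν → ∃ B : ℝ, 0 ≤ B ∧ ∀ (N : ℕ) (a f : ℕ → ℝ), Mm N a ≤ X → Mm N f ≤ F →
    (∀ κ ∈ IxN N, ‖uu (Nn bet lam ν N a f) κ‖ ≤ B * (1 + En lam N a) * mu lam κ.1) ∧
    ∑ κ ∈ IxN N, ‖uu a κ‖ * ‖uu (Nn bet lam ν N a f) κ‖ ≤ B * (1 + En lam N a) ^ 2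

/-- (DER) the derivative of the correction: `b` is the derivative of `a` without the rotation -/
def S_DER : Prop := ∀ (h : Ix → Ix → Ix → ℂ) (om : ℕ → ℝ) (ε : ℝ) (N : ℕ) (T t : ℝ)
  (a : ℕ → ℝ → ℝ) (b : ℕ → ℝ), (∀ n < 2 * N, HasDerivWithinAt (a n)
    (b n + ε * rot om (fun k => a k t) n) (Icc 0 T) t) →
    HasDerivWithinAt (fun s => form N h (uu fun k => a k s))
      (form N (fun κ l m => h κ l m * (-Complex.I * (ε * Lm om κ l m))) (uu fun k => a k t) +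
        dform N h (uu fun k => a k t) (uu b)) (Icc 0 T) t

/-- (DRV) the corrected energy -/
def S_DRV : Prop := ∀ (bet : ℕ → ℕ → ℕ → ℝ) (lam om : ℕ → ℝ) (K c ε ν : ℝ), Dat bet lam K →
  Good lam om c → ε ≠ 0 → 0 < ν → ∀ X F : ℝ, ∃ B : ℝ, 0 ≤ B ∧ ∀ (N : ℕ) (T : ℝ) (f a : ℕ → ℝ → ℝ),
    Gal bet lam om ν ε N T f a → ∀ t ∈ Icc 0 T, Mm N (fun k => a k t) ≤ X →
      Mm N (fun k => f k t) ≤ F →
      |(form N (hnf bet lam om ε) (uu fun k => a k t)).re| ≤ B ∧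
      ∃ y' : ℝ, HasDerivWithinAt (fun s => En lam N (fun k => a k s) -
        (form N (hnf bet lam om ε) (uu fun k => a k s)).re) y' (Icc 0 T) t ∧
        y' ≤ B * (1 + En lam N (fun k => a k t)) ^ 2

/-- (DRA) assembly of (DRV) -/
def S_DRA : Prop := S_CPX → S_SIG → S_BDC → S_HB → S_ETA → S_KEP → S_RHS → S_DER → S_DRV

/-- (ENG) the energy inequality -/
def S_ENG : Prop := ∀ (bet : ℕ → ℕ → ℕ → ℝ) (lam : ℕ → ℝ) (K : ℝ), Dat bet lam K →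
  ∀ ν T A F : ℝ, 0 < ν → 0 ≤ T → ∃ R : ℝ, 0 ≤ R ∧ ∀ (om : ℕ → ℝ) (ε : ℝ) (N : ℕ)
    (f a : ℕ → ℝ → ℝ), (∀ n, ContinuousOn (f n) (Icc 0 T)) → Gal bet lam om ν ε N T f a →
    Mm N (fun k => a k 0) ≤ A → (∀ t ∈ Icc 0 T, Mm N (fun k => f k t) ≤ F) →
      (∀ t ∈ Icc 0 T, Mm N (fun k => a k t) ≤ R) ∧
      ∫ t in (0 : ℝ)..T, En lam N (fun k => a k t) ≤ R

/-- (GRW) the inequality of Gronwall for the corrected energy -/
def S_GRW : Prop := ∀ T B A : ℝ, 0 ≤ T → 0 ≤ B → ∃ R : ℝ, ∀ e p y' : ℝ → ℝ,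
  ContinuousOn e (Icc 0 T) → (∀ t ∈ Icc 0 T, 0 ≤ e t) → e 0 ≤ A →
  (∀ t ∈ Icc 0 T, |p t| ≤ B) → ∫ t in (0 : ℝ)..T, e t ≤ B →
  (∀ t ∈ Icc 0 T, HasDerivWithinAt (fun s => e s - p s) (y' t) (Icc 0 T) t) →
  (∀ t ∈ Icc 0 T, y' t ≤ B * (1 + e t) ^ 2) → ∀ t ∈ Icc 0 T, e t ≤ R

/-- (APR) a priori bound of the energy, uniform in `N` -/
def S_APR : Prop := ∀ (bet : ℕ → ℕ → ℕ → ℝ) (lam om : ℕ → ℝ) (K c ε ν : ℝ), Dat bet lam K →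
  Good lam om c → ε ≠ 0 → 0 < ν → ∀ T A F : ℝ, 0 ≤ T → ∃ R : ℝ, ∀ (N : ℕ) (f a : ℕ → ℝ → ℝ),
    (∀ n, ContinuousOn (f n) (Icc 0 T)) → Gal bet lam om ν ε N T f a →
    Dd lam N (fun k => a k 0) ≤ A → (∀ t ∈ Icc 0 T, Mm N (fun k => f k t) ≤ F) →
      ∀ t ∈ Icc 0 T, Dd lam N (fun k => a k t) ≤ R

/-- (APA) assembly of (APR) -/
def S_APA : Prop := S_DRV → S_ENG → S_GRW → S_APR

/-- (ODE) the truncated systems are solvable -/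
def S_ODE : Prop := ∀ (bet : ℕ → ℕ → ℕ → ℝ) (lam om : ℕ → ℝ) (K ε ν : ℝ), Dat bet lam K →
  0 < ν → ∀ (N : ℕ) (T : ℝ) (f : ℕ → ℝ → ℝ) (a₀ : ℕ → ℝ), 0 ≤ T →
    (∀ n, ContinuousOn (f n) (Icc 0 T)) →
    ∃ a : ℕ → ℝ → ℝ, Gal bet lam om ν ε N T f a ∧ (∀ n < 2 * N, a n 0 = a₀ n)

/-! ### Packages: the equations -/

section abs

variable {H K : Type} [NormedAddCommGroup H] [InnerProductSpace ℝ H] [CompleteSpace H]
  [NormedAddCommGroup K] [InnerProductSpace ℝ K] [CompleteSpace K]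

/-- eigenbasis of the abstract Stokes operator -/
structure Bas (W : Submodule ℝ (H × K)) (w : ℕ → H) (g : ℕ → K) (lam : ℕ → ℝ) : Prop where
  mem : ∀ n, (w n, g n) ∈ W
  orth : Orthonormal ℝ w
  eig : ∀ n, ∀ p ∈ W, ⟪g n, p.2⟫_ℝ = lam n * ⟪w n, p.1⟫_ℝ
  dens : ∀ p ∈ W, p.1 ∈ closure (Submodule.span ℝ (range w) : Set H)
  cmp : ∃ κ : ℝ, ∀ j, lam (2 * j + 1) ≤ κ * lam (2 * j) ∧ lam (2 * j) ≤ κ * lam (2 * j + 1)

/-- `m` is a quadratic map -/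
structure Quad (W : Submodule ℝ (H × K)) (m : H → K) : Prop where
  bil : ∀ (s t : ℝ), ∀ p ∈ W, ∀ q ∈ W, m (s • p.1 + t • q.1) =
    s ^ 2 • m p.1 + t ^ 2 • m q.1 + (s * t) • (m (p.1 + q.1) - m p.1 - m q.1)
  add : ∀ p ∈ W, ∀ q ∈ W, ∀ r ∈ W, m (p.1 + q.1 + r.1) =
    m (p.1 + q.1) + m (q.1 + r.1) + m (p.1 + r.1) - m p.1 - m q.1 - m r.1

/-- the coefficients of the quadratic term -/
noncomputable def betf (m : H → K) (w : ℕ → H) (g : ℕ → K) (k l n : ℕ) : ℝ :=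
  (⟪m (w k + w l), g n⟫_ℝ - ⟪m (w k), g n⟫_ℝ - ⟪m (w l), g n⟫_ℝ) / 2

/-- solutions -/
structure IsSolA (W : Submodule ℝ (H × K)) (m : H → K) (w : ℕ → H) (g : ℕ → K) (lam om : ℕ → ℝ)
    (ν ε : ℝ) (f : ℝ → H) (u₀ : H) (x : ℝ → H) (z : ℝ → K) : Prop where
  mem : ∀ t, 0 ≤ t → (x t, z t) ∈ W
  init : x 0 = u₀
  cont : ContinuousOn x (Ici 0)
  bdd : ∀ T : ℝ, ∃ R : ℝ, ∀ t ∈ Icc 0 T, ‖z t‖ ≤ R
  eqn : ∀ n t, 0 ≤ t → HasDerivWithinAt (fun s => ⟪w n, x s⟫_ℝ)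
    (-ν * lam n * ⟪w n, x t⟫_ℝ + ⟪m (x t), g n⟫_ℝ + ⟪w n, f t⟫_ℝ +
      ε * rot om (fun k => ⟪w k, x t⟫_ℝ) n) (Ici 0) t

/-- (EXP) expansion of the quadratic term -/
def S_EXP : Prop := ∀ {H K : Type} [NormedAddCommGroup H] [InnerProductSpace ℝ H]
  [CompleteSpace H] [NormedAddCommGroup K] [InnerProductSpace ℝ K] [CompleteSpace K]
  (W : Submodule ℝ (H × K)) (m : H → K) (C : ℝ) (w : ℕ → H) (g : ℕ → K) (lam : ℕ → ℝ),
  Frame W m C → Quad W m → Bas W w g lam →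
    (∀ (N : ℕ) (a : ℕ → ℝ) (n : ℕ),
      ⟪m (∑ k ∈ Finset.range (2 * N), a k • w k), g n⟫_ℝ = quad (betf m w g) N a n) ∧
    (∀ k l n, betf m w g k l n = betf m w g l k n) ∧
    (∀ k l n, betf m w g k l n + betf m w g l n k + betf m w g n k l = 0)

/-- (DAT) the coefficients -/
def S_DAT : Prop := S_EXP → ∀ {H K : Type} [NormedAddCommGroup H] [InnerProductSpace ℝ H]
  [CompleteSpace H] [NormedAddCommGroup K] [InnerProductSpace ℝ K] [CompleteSpace K]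
  (W : Submodule ℝ (H × K)) (m : H → K) (C : ℝ) (w : ℕ → H) (g : ℕ → K) (lam : ℕ → ℝ),
  Frame W m C → Quad W m → Bas W w g lam → ∃ K' : ℝ, Dat (betf m w g) lam K'

/-- (LMI) the eigenvalues tend to infinity -/
def S_LMI : Prop := ∀ {H K : Type} [NormedAddCommGroup H] [InnerProductSpace ℝ H]
  [CompleteSpace H] [NormedAddCommGroup K] [InnerProductSpace ℝ K] [CompleteSpace K]
  (W : Submodule ℝ (H × K)) (m : H → K) (C : ℝ) (w : ℕ → H) (g : ℕ → K) (lam : ℕ → ℝ),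
  Frame W m C → Bas W w g lam →
    (∀ R : ℝ, TotallyBounded {v : H | ∃ z : K, (v, z) ∈ W ∧ ‖z‖ ≤ R}) →
      Tendsto lam atTop atTop

/-- (SEQ) diagonal sequences of equicontinuous functions -/
def S_SEQ : Prop := ∀ (A : ℕ → ℕ → ℝ → ℝ), (∀ (n : ℕ) (T : ℝ), ∃ L : ℝ, ∃ N₀ : ℕ, ∀ N, N₀ ≤ N →
    (∀ t ∈ Icc 0 T, |A N n t| ≤ L) ∧ ∀ s ∈ Icc 0 T, ∀ t ∈ Icc 0 T, |A N n s - A N n t| ≤ L * |s - t|) →
  ∃ (φ : ℕ → ℕ) (α : ℕ → ℝ → ℝ), StrictMono φ ∧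
    ∀ n t, 0 ≤ t → Tendsto (fun N => A (φ N) n t) atTop (𝓝 (α n t))

/-- (CNV) strong convergence -/
def S_CNV : Prop := ∀ {H K : Type} [NormedAddCommGroup H] [InnerProductSpace ℝ H]
  [CompleteSpace H] [NormedAddCommGroup K] [InnerProductSpace ℝ K] [CompleteSpace K]
  (W : Submodule ℝ (H × K)) (m : H → K) (C : ℝ) (w : ℕ → H) (g : ℕ → K) (lam : ℕ → ℝ),
  Frame W m C → Bas W w g lam → Tendsto lam atTop atTop → ∀ (R : ℝ) (X : ℕ → H) (Z : ℕ → K)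
    (α : ℕ → ℝ), (∀ N, (X N, Z N) ∈ W) → (∀ N, ‖Z N‖ ≤ R) →
    (∀ n, Tendsto (fun N => ⟪w n, X N⟫_ℝ) atTop (𝓝 (α n))) →
    ∃ x z, (x, z) ∈ W ∧ ‖z‖ ≤ R ∧ (∀ n, ⟪w n, x⟫_ℝ = α n) ∧ Tendsto X atTop (𝓝 x) ∧
      Tendsto (fun N => m (X N)) atTop (𝓝 (m x))

/-- (LIM) existence from uniform bounds: `A N` solves the truncated system on `[0, N]` -/
def S_LIM : Prop := S_SEQ → S_CNV → S_EXP → ∀ {H K : Type} [NormedAddCommGroup H]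
  [InnerProductSpace ℝ H] [CompleteSpace H] [NormedAddCommGroup K] [InnerProductSpace ℝ K]
  [CompleteSpace K]
  (W : Submodule ℝ (H × K)) (m : H → K) (C : ℝ) (w : ℕ → H) (g : ℕ → K) (lam : ℕ → ℝ),
  Frame W m C → Quad W m → Bas W w g lam → Tendsto lam atTop atTop →
  ∀ (om : ℕ → ℝ) (ν ε : ℝ) (f : ℝ → H), ContinuousOn f (Ici 0) → ∀ u₀ z₀, (u₀, z₀) ∈ W →
  ∀ A : ℕ → ℕ → ℝ → ℝ,
    (∀ N, Gal (betf m w g) lam om ν ε N (N : ℝ) (fun n t => ⟪w n, f t⟫_ℝ) (A N)) →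
    (∀ N, ∀ n < 2 * N, A N n 0 = ⟪w n, u₀⟫_ℝ) →
    (∀ T : ℝ, ∃ R : ℝ, ∀ N : ℕ, T ≤ (N : ℝ) → ∀ t ∈ Icc 0 T, Dd lam N (fun k => A N k t) ≤ R) →
    ∃ x z, IsSolA W m w g lam om ν ε f u₀ x z

/-- (UNQ) uniqueness -/
def S_UNQ : Prop := ∀ {H K : Type} [NormedAddCommGroup H]
  [InnerProductSpace ℝ H] [CompleteSpace H] [NormedAddCommGroup K] [InnerProductSpace ℝ K]
  [CompleteSpace K]
  (W : Submodule ℝ (H × K)) (m : H → K) (C : ℝ) (w : ℕ → H) (g : ℕ → K) (lam : ℕ → ℝ),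
  Frame W m C → Bas W w g lam → ∀ (om : ℕ → ℝ) (ν ε : ℝ) (f : ℝ → H) (u₀ : H), 0 < ν →
  ∀ x z x' z', IsSolA W m w g lam om ν ε f u₀ x z → IsSolA W m w g lam om ν ε f u₀ x' z' →
    ∀ t, 0 ≤ t → x t = x' t

/-- (BES) the norm of the gradient in terms of the coefficients -/
def S_BES : Prop := ∀ {H K : Type} [NormedAddCommGroup H]
  [InnerProductSpace ℝ H] [CompleteSpace H] [NormedAddCommGroup K] [InnerProductSpace ℝ K]
  [CompleteSpace K]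
  (W : Submodule ℝ (H × K)) (m : H → K) (C : ℝ) (w : ℕ → H) (g : ℕ → K) (lam : ℕ → ℝ),
  Frame W m C → Bas W w g lam → (∀ n, 0 < lam n) ∧
    (∀ p ∈ W, ∀ N : ℕ, Dd lam N (fun n => ⟪w n, p.1⟫_ℝ) ≤ ‖p.2‖ ^ 2) ∧
    (∀ (v : H) (N : ℕ), Mm N (fun n => ⟪w n, v⟫_ℝ) ≤ ‖v‖ ^ 2)

end abs

/-! ### Packages: probability -/

/-- bounded densities -/
def DensB {Ω : Type} [MeasurableSpace Ω] (μ : Measure Ω) (Z : ℕ → Ω → ℝ) (D : ℝ) : Prop :=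
  ∀ (j : ℕ) (r s : ℝ), r ≤ s → μ {ω | Z j ω ∈ Icc r s} ≤ ENNReal.ofReal (D * (s - r))

/-- (PRN) almost surely finitely many near-resonant triples -/
def S_PRN : Prop := ∀ (lam : ℕ → ℝ), (∀ n, 0 < lam n) → ∀ σ D : ℝ, 23 < σ → 0 ≤ D →
  ∀ (Ω : Type) [MeasurableSpace Ω] (μ : Measure Ω) [IsProbabilityMeasure μ] (Z : ℕ → Ω → ℝ),
  (∀ j, Measurable (Z j)) → iIndepFun Z μ → DensB μ Z D →
    ∀ᵐ ω ∂μ, {t : Ix × Ix × Ix |
      near lam (fun j => mu lam j ^ σ * Z j ω) t.1 t.2.1 t.2.2}.Finite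

/-- (PRL) almost surely a lower bound of the frequencies -/
def S_PRL : Prop := ∀ (lam : ℕ → ℝ), (∀ n, 0 < lam n) → ∀ σ D : ℝ, 23 < σ → 0 ≤ D →
  ∀ (Ω : Type) [MeasurableSpace Ω] (μ : Measure Ω) [IsProbabilityMeasure μ] (Z : ℕ → Ω → ℝ),
  (∀ j, Measurable (Z j)) → DensB μ Z D →
    ∀ᵐ ω ∂μ, ∃ c : ℝ, 0 < c ∧ ∀ j, c * mu lam j ^ 20 ≤ |mu lam j ^ σ * Z j ω|

/-! ### Package: the concrete equations -/

/-- (QUA) the tensor square is a quadratic map -/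
def S_QUA : Prop := ∀ (Ω : Set H772R2.NS.E3), IsOpen Ω →
  Quad (H772R2.NS.graphW Ω) (H772R2.NS.tensL : H772R2.NS.L2V Ω → H772R2.NS.L2M Ω)

end Pool.Agent.U401.DD
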