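import Mathlib
import Pool.Agent.U401.DD.Stm
import Pool.Agent.H772R2.NSR.Rell

set_option autoImplicit false

/-!
Project DD: assembly.
-/

open MeasureTheory ProbabilityTheory Set Filter Topology
open scoped InnerProductSpace

namespace Pool.Agent.U401.DD

open H772R2.NSR

theorem abs_gwp (hODE : S_ODE) (hAPR : S_APR) (hEXP : S_EXP) (hDAT : S_DAT) (hLMI : S_LMI)
    (hSEQ : S_SEQ) (hCNV : S_CNV) (hLIM : S_LIM) (hUNQ : S_UNQ) (hBES : S_BES)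
    {H K : Type} [NormedAddCommGroup H] [InnerProductSpace ℝ H]
    [CompleteSpace H] [NormedAddCommGroup K] [InnerProductSpace ℝ K] [CompleteSpace K]
    (W : Submodule ℝ (H × K)) (m : H → K) (C : ℝ) (w : ℕ → H) (g : ℕ → K) (lam : ℕ → ℝ)
    (Fr : Frame W m C) (hQ : Quad W m) (hB : Bas W w g lam)
    (hR : ∀ R : ℝ, TotallyBounded {v : H | ∃ z : K, (v, z) ∈ W ∧ ‖z‖ ≤ R})
    (om : ℕ → ℝ) (c : ℝ) (hG : Good lam om c) (ν ε : ℝ) (hν : 0 < ν) (hε : ε ≠ 0)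
    (f : ℝ → H) (hf : ContinuousOn f (Ici 0)) (u₀ : H) (z₀ : K) (h0 : (u₀, z₀) ∈ W) :
    ∃ x z, IsSolA W m w g lam om ν ε f u₀ x z ∧
      ∀ x' z', IsSolA W m w g lam om ν ε f u₀ x' z' → ∀ t, 0 ≤ t → x' t = x t := by
  obtain ⟨K', hD⟩ := hDAT hEXP W m C w g lam Fr hQ hB
  obtain ⟨-, hbes, hbm⟩ := hBES W m C w g lam Fr hB
  have hlam : Tendsto lam atTop atTop := hLMI W m C w g lam Fr hB hR
  have hfn : ∀ (n : ℕ) (T : ℝ), ContinuousOn (fun t => ⟪w n, f t⟫_ℝ) (Icc 0 T) := fun n T =>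
    continuousOn_const.inner (hf.mono Icc_subset_Ici_self)
  have hex : ∀ N : ℕ, ∃ a : ℕ → ℝ → ℝ,
      Gal (betf m w g) lam om ν ε N (N : ℝ) (fun n t => ⟪w n, f t⟫_ℝ) a ∧
        ∀ n < 2 * N, a n 0 = ⟪w n, u₀⟫_ℝ := fun N =>
    hODE (betf m w g) lam om K' ε ν hD hν N (N : ℝ) (fun n t => ⟪w n, f t⟫_ℝ)
      (fun n => ⟪w n, u₀⟫_ℝ) (Nat.cast_nonneg N) (fun n => hfn n _)
  choose A hA1 hA2 using hex
  have hbound : ∀ T : ℝ, ∃ R : ℝ, ∀ N : ℕ, T ≤ (N : ℝ) → ∀ t ∈ Icc 0 T,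
      Dd lam N (fun k => A N k t) ≤ R := by
    intro T
    rcases lt_or_ge T 0 with hT | hT
    · exact ⟨0, fun N _ t ht => absurd (ht.1.trans ht.2) (not_le.mpr hT)⟩
    obtain ⟨Fb, hFb⟩ : ∃ Fb : ℝ, ∀ t ∈ Icc 0 T, ‖f t‖ ≤ Fb := by
      obtain ⟨B0, h⟩ := (isCompact_Icc.image_of_continuousOn
        (hf.mono (Icc_subset_Ici_self : Icc 0 T ⊆ Ici 0))).isBounded.exists_norm_le
      exact ⟨B0, fun t ht => h _ ⟨t, ht, rfl⟩⟩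
    obtain ⟨R, hR'⟩ := hAPR (betf m w g) lam om K' c ε ν hD hG hε hν T (‖z₀‖ ^ 2) (Fb ^ 2) hT
    refine ⟨R, fun N hN t ht => ?_⟩
    refine hR' N (fun n t => ⟪w n, f t⟫_ℝ) (A N) (fun n => hfn n T) ?_ ?_ ?_ t ht
    · intro n hn s hs
      exact (hA1 N n hn s ⟨hs.1, hs.2.trans hN⟩).mono (Icc_subset_Icc_right hN)
    · have e1 : Dd lam N (fun k => A N k 0) = Dd lam N (fun k => ⟪w k, u₀⟫_ℝ) := by
        unfold Dd
        refine Finset.sum_congr rfl fun n hn => ?_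
        show lam n * A N n 0 ^ 2 = lam n * ⟪w n, u₀⟫_ℝ ^ 2
        rw [hA2 N n (Finset.mem_range.mp hn)]
      rw [e1]
      exact hbes (u₀, z₀) h0 N
    · intro s hs
      refine (hbm (f s) N).trans ?_
      exact pow_le_pow_left₀ (norm_nonneg _) (hFb s hs) 2
  obtain ⟨x, z, hx⟩ := hLIM hSEQ hCNV hEXP W m C w g lam Fr hQ hB hlam om ν ε f hf u₀ z₀ h0 A hA1
    hA2 hbound
  exact ⟨x, z, hx, fun x' z' hx' t ht =>
    hUNQ W m C w g lam Fr hB om ν ε f u₀ hν x' z' x z hx' hx t ht⟩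

/-- almost surely the frequencies are good -/
theorem good_ae (h1 : S_PRN) (h2 : S_PRL) (lam : ℕ → ℝ) (hlam : ∀ n, 0 < lam n) (σ D : ℝ)
    (hσ : 23 < σ) (hD0 : 0 ≤ D) (Ω : Type) [MeasurableSpace Ω] (μ : Measure Ω)
    [IsProbabilityMeasure μ] (Z : ℕ → Ω → ℝ) (hZ : ∀ j, Measurable (Z j)) (hi : iIndepFun Z μ)
    (hD : DensB μ Z D) : ∀ᵐ ω ∂μ, ∃ c : ℝ, Good lam (fun j => mu lam j ^ σ * Z j ω) c := by
  filter_upwards [h1 lam hlam σ D hσ hD0 Ω μ Z hZ hi hD, h2 lam hlam σ D hσ hD0 Ω μ Z hZ hD]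
    with ω a1 a2
  obtain ⟨c, hc, hc2⟩ := a2
  exact ⟨c, ⟨hc, hc2, a1⟩⟩

/-! ### The concrete equations -/

open H772R2.NS

/-- `w n` is an orthonormal basis of eigenfunctions of the Stokes operator in `Ω` with zero boundary
values, `g n = ∇ (w n)`, with eigenvalues `lam n`; the eigenvalues of the pairs `2 j`, `2 j + 1` are
comparable. -/
structure StokesBasis (Ω : Set E3) (w : ℕ → L2V Ω) (g : ℕ → L2M Ω) (lam : ℕ → ℝ) : Prop where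
  mem : ∀ n, (w n, g n) ∈ H1graph Ω
  orth : Orthonormal ℝ w
  eig : ∀ n, ∀ p ∈ H1graph Ω, ⟪g n, p.2⟫_ℝ = lam n * ⟪w n, p.1⟫_ℝ
  dens : ∀ p ∈ H1graph Ω, p.1 ∈ closure (Submodule.span ℝ (range w) : Set (L2V Ω))
  cmp : ∃ κ : ℝ, ∀ j, lam (2 * j + 1) ≤ κ * lam (2 * j) ∧ lam (2 * j) ≤ κ * lam (2 * j + 1)

/-- `u` with gradient `G` is a strong solution on `[0, ∞)` -/
structure IsSol (Ω : Set E3) (w : ℕ → L2V Ω) (g : ℕ → L2M Ω) (om : ℕ → ℝ) (ν ε : ℝ)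
    (f : ℝ → L2V Ω) (u₀ : L2V Ω) (u : ℝ → L2V Ω) (G : ℝ → L2M Ω) : Prop where
  mem : ∀ t, 0 ≤ t → (u t, G t) ∈ H1graph Ω
  init : u 0 = u₀
  cont : ContinuousOn u (Ici 0)
  bdd : ∀ T : ℝ, ∃ R : ℝ, ∀ t ∈ Icc 0 T, ‖G t‖ ≤ R
  eqn : ∀ n t, 0 ≤ t → HasDerivWithinAt (fun s => ⟪w n, u s⟫_ℝ)
    (-ν * ⟪g n, G t⟫_ℝ + (∫ x in Ω, ∑ i, ∑ j, u t x i * u t x j * g n x (i, j)) + ⟪w n, f t⟫_ℝ +
      ε * rot om (fun k => ⟪w k, u t⟫_ℝ) n) (Ici 0) t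

theorem StokesBasis.bas {Ω : Set E3} {w : ℕ → L2V Ω} {g : ℕ → L2M Ω} {lam : ℕ → ℝ}
    (h : StokesBasis Ω w g lam) : Bas (graphW Ω) w g lam where
  mem n := mem_graphW.mpr (h.mem n)
  orth := h.orth
  eig n p hp := h.eig n p (mem_graphW.mp hp)
  dens p hp := h.dens p (mem_graphW.mp hp)
  cmp := h.cmp

theorem inner_tens_eq {Ω : Set E3} (hΩ : MeasurableSet Ω) {p : L2V Ω × L2M Ω}
    (hp : p ∈ graphW Ω) (z : L2M Ω) :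
    ⟪tensL p.1, z⟫_ℝ = ∫ x in Ω, ∑ i, ∑ j, p.1 x i * p.1 x j * z x (i, j) := by
  rw [L2.inner_def]
  refine integral_congr_ae ?_
  filter_upwards [tensL_coe hΩ hp] with x hx
  have hx' : (tensL p.1) x = tens (p.1 x) := hx
  rw [hx', inner_M3]
  rfl

theorem isSol_iff {Ω : Set E3} (hΩ : MeasurableSet Ω) {w : ℕ → L2V Ω} {g : ℕ → L2M Ω}
    {lam : ℕ → ℝ} (h : StokesBasis Ω w g lam) (om : ℕ → ℝ) (ν ε : ℝ) (f : ℝ → L2V Ω)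
    (u₀ : L2V Ω) (u : ℝ → L2V Ω) (G : ℝ → L2M Ω) :
    IsSol Ω w g om ν ε f u₀ u G ↔ IsSolA (graphW Ω) tensL w g lam om ν ε f u₀ u G := by
  constructor
  · intro hs
    refine ⟨fun t ht => mem_graphW.mpr (hs.mem t ht), hs.init, hs.cont, hs.bdd, ?_⟩
    intro n t ht
    have h1 := hs.eqn n t ht
    have e1 := h.eig n (u t, G t) (hs.mem t ht)
    have e2 := inner_tens_eq hΩ (p := (u t, G t)) (mem_graphW.mpr (hs.mem t ht)) (g n)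
    simp only at e1 e2
    rw [e1, ← e2] at h1
    convert h1 using 1
    ring
  · intro hs
    refine ⟨fun t ht => mem_graphW.mp (hs.mem t ht), hs.init, hs.cont, hs.bdd, ?_⟩
    intro n t ht
    have h1 := hs.eqn n t ht
    have e1 := h.eig n (u t, G t) (mem_graphW.mp (hs.mem t ht))
    have e2 := inner_tens_eq hΩ (p := (u t, G t)) (hs.mem t ht) (g n)
    simp only at e1 e2
    rw [e1, ← e2]
    convert h1 using 1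
    ring

/-- global well-posedness for all data -/
def GWP (Ω : Set E3) (w : ℕ → L2V Ω) (g : ℕ → L2M Ω) (om : ℕ → ℝ) (ν ε : ℝ) : Prop :=
  ∀ f : ℝ → L2V Ω, ContinuousOn f (Ici 0) → ∀ p ∈ H1graph Ω,
    ∃ u G, IsSol Ω w g om ν ε f p.1 u G ∧
      ∀ v Y, IsSol Ω w g om ν ε f p.1 v Y → ∀ t, 0 ≤ t → v t = u t

theorem gwp_of_good (hODE : S_ODE) (hAPR : S_APR) (hEXP : S_EXP) (hDAT : S_DAT) (hLMI : S_LMI)
    (hSEQ : S_SEQ) (hCNV : S_CNV) (hLIM : S_LIM) (hUNQ : S_UNQ) (hBES : S_BES) (hQUA : S_QUA)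
    (Ω : Set E3) (hΩ : IsOpen Ω) (hb : Bornology.IsBounded Ω) (w : ℕ → L2V Ω) (g : ℕ → L2M Ω)
    (lam : ℕ → ℝ) (hB : StokesBasis Ω w g lam) (om : ℕ → ℝ) (c : ℝ) (hG : Good lam om c)
    (ν ε : ℝ) (hν : 0 < ν) (hε : ε ≠ 0) : GWP Ω w g om ν ε := by
  intro f hf p hp
  obtain ⟨C, Fr⟩ := exists_frame hΩ hb
  obtain ⟨x, z, h1, h2⟩ := abs_gwp hODE hAPR hEXP hDAT hLMI hSEQ hCNV hLIM hUNQ hBES (graphW Ω)
    tensL C w g lam Fr (hQUA Ω hΩ) hB.bas (rellich_W hΩ hb) om c hG ν ε hν hε f hf p.1 p.2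
    (mem_graphW.mpr hp)
  refine ⟨x, z, (isSol_iff hΩ.measurableSet hB om ν ε f p.1 x z).mpr h1, fun v Y hv => ?_⟩
  exact h2 v Y ((isSol_iff hΩ.measurableSet hB om ν ε f p.1 v Y).mp hv)

theorem main (hCPX : S_CPX) (hSIG : S_SIG) (hBDC : S_BDC) (hHB : S_HB) (hETA : S_ETA)
    (hKEP : S_KEP) (hRHS : S_RHS) (hDER : S_DER) (hDRA : S_DRA) (hENG : S_ENG) (hGRW : S_GRW)
    (hAPA : S_APA)
    (hODE : S_ODE) (hEXP : S_EXP) (hDAT : S_DAT) (hLMI : S_LMI)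
    (hSEQ : S_SEQ) (hCNV : S_CNV) (hLIM : S_LIM) (hUNQ : S_UNQ) (hBES : S_BES) (hQUA : S_QUA)
    (hPRN : S_PRN) (hPRL : S_PRL)
    (Ω : Set E3) (hΩ : IsOpen Ω) (hb : Bornology.IsBounded Ω) (w : ℕ → L2V Ω) (g : ℕ → L2M Ω)
    (lam : ℕ → ℝ) (hB : StokesBasis Ω w g lam) :
    (∀ (om : ℕ → ℝ) (c : ℝ), Good lam om c → ∀ ν ε : ℝ, 0 < ν → ε ≠ 0 → GWP Ω w g om ν ε) ∧
    ∀ σ D : ℝ, 23 < σ → 0 ≤ D → ∀ (Θ : Type) [MeasurableSpace Θ] (P : Measure Θ)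
      [IsProbabilityMeasure P] (Z : ℕ → Θ → ℝ), (∀ j, Measurable (Z j)) → iIndepFun Z P →
      DensB P Z D → ∀ᵐ θ ∂P, ∀ ν ε : ℝ, 0 < ν → ε ≠ 0 →
        GWP Ω w g (fun j => mu lam j ^ σ * Z j θ) ν ε := by
  have hAPR : S_APR := hAPA (hDRA hCPX hSIG hBDC hHB hETA hKEP hRHS hDER) hENG hGRW
  have hdet : ∀ (om : ℕ → ℝ) (c : ℝ), Good lam om c → ∀ ν ε : ℝ, 0 < ν → ε ≠ 0 →
      GWP Ω w g om ν ε := fun om c hG ν ε hν hε =>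
    gwp_of_good hODE hAPR hEXP hDAT hLMI hSEQ hCNV hLIM hUNQ hBES hQUA Ω hΩ hb w g lam hB om c hG
      ν ε hν hε
  refine ⟨hdet, ?_⟩
  intro σ D hσ hD0 Θ _ P _ Z hZ hi hD
  obtain ⟨C, Fr⟩ := exists_frame hΩ hb
  have hpos : ∀ n, 0 < lam n := (hBES (graphW Ω) tensL C w g lam Fr hB.bas).1
  filter_upwards [good_ae hPRN hPRL lam hpos σ D hσ hD0 Θ P Z hZ hi hD] with θ hθ ν ε hν hε
  obtain ⟨c, hc⟩ := hθ
  exact hdet _ c hc ν ε hν hε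

end Pool.Agent.U401.DD
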