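import Mathlib
import Pool.Agent.U401.DD.Stm
import Pool.Agent.H772R2.NSR.Rell

set_option autoImplicit false

/-!
Project DD, second part: existence of the basis of Stokes eigenfunctions of a bounded open set, and
comparability of consecutive eigenvalues.
-/

open MeasureTheory ProbabilityTheory Set Filter Topology
open scoped InnerProductSpace

namespace Pool.Agent.U401.DD

open H772R2.NSR H772R2.NS

/-- eigenbasis with increasing eigenvalues -/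
structure BasM {H K : Type} [NormedAddCommGroup H] [InnerProductSpace ℝ H]
    [NormedAddCommGroup K] [InnerProductSpace ℝ K]
    (W : Submodule ℝ (H × K)) (w : ℕ → H) (g : ℕ → K) (lam : ℕ → ℝ) : Prop where
  mem : ∀ n, (w n, g n) ∈ W
  orth : Orthonormal ℝ w
  eig : ∀ n, ∀ p ∈ W, ⟪g n, p.2⟫_ℝ = lam n * ⟪w n, p.1⟫_ℝ
  dens : ∀ p ∈ W, p.1 ∈ closure (Submodule.span ℝ (range w) : Set H)
  mono : Monotone lam

/-- (MIN) a minimizer of the Rayleigh quotient in a closed subspace -/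
def S_MIN : Prop := ∀ {H K : Type} [NormedAddCommGroup H] [InnerProductSpace ℝ H]
  [CompleteSpace H] [NormedAddCommGroup K] [InnerProductSpace ℝ K] [CompleteSpace K]
  (W : Submodule ℝ (H × K)) (m : H → K) (C : ℝ), Frame W m C →
  (∀ R : ℝ, TotallyBounded {v : H | ∃ z : K, (v, z) ∈ W ∧ ‖z‖ ≤ R}) →
  ∀ W' : Submodule ℝ (H × K), W' ≤ W → IsClosed (W' : Set (H × K)) → (∃ p ∈ W', p.1 ≠ 0) →
    ∃ p ∈ W', ∃ l : ℝ, ‖p.1‖ = 1 ∧ (∀ q ∈ W', ⟪p.2, q.2⟫_ℝ = l * ⟪p.1, q.1⟫_ℝ) ∧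
      ∀ q ∈ W', l * ‖q.1‖ ^ 2 ≤ ‖q.2‖ ^ 2

/-- (BAS) existence of an eigenbasis -/
def S_BAS : Prop := S_MIN → ∀ {H K : Type} [NormedAddCommGroup H] [InnerProductSpace ℝ H]
  [CompleteSpace H] [NormedAddCommGroup K] [InnerProductSpace ℝ K] [CompleteSpace K]
  (W : Submodule ℝ (H × K)) (m : H → K) (C : ℝ), Frame W m C →
  (∀ R : ℝ, TotallyBounded {v : H | ∃ z : K, (v, z) ∈ W ∧ ‖z‖ ≤ R}) →
  (∀ (n : ℕ) (w : Fin n → H), ∃ p ∈ W, p.1 ≠ 0 ∧ ∀ i, ⟪w i, p.1⟫_ℝ = 0) →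
    ∃ (w : ℕ → H) (g : ℕ → K) (lam : ℕ → ℝ), BasM W w g lam

/-- (MMX) an upper bound of the eigenvalues -/
def S_MMX : Prop := ∀ {H K : Type} [NormedAddCommGroup H] [InnerProductSpace ℝ H]
  [CompleteSpace H] [NormedAddCommGroup K] [InnerProductSpace ℝ K] [CompleteSpace K]
  (W : Submodule ℝ (H × K)) (m : H → K) (C : ℝ) (w : ℕ → H) (g : ℕ → K) (lam : ℕ → ℝ),
  Frame W m C → BasM W w g lam → ∀ (n : ℕ) (R : ℝ) (p : Fin (n + 1) → H × K),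
    (∀ i, p i ∈ W) → (∀ i, (p i).1 ≠ 0) →
    (∀ i j, i ≠ j → ⟪(p i).1, (p j).1⟫_ℝ = 0 ∧ ⟪(p i).2, (p j).2⟫_ℝ = 0) →
    (∀ i, ‖(p i).2‖ ^ 2 ≤ R * ‖(p i).1‖ ^ 2) → lam n ≤ R

/-- (TST) many test fields with disjoint supports -/
def S_TST : Prop := ∀ (Ω : Set E3), IsOpen Ω → Ω.Nonempty → ∃ C : ℝ, 0 < C ∧ ∀ n : ℕ,
  ∃ p : Fin (n + 1) → L2V Ω × L2M Ω, (∀ i, p i ∈ graphW Ω) ∧ (∀ i, (p i).1 ≠ 0) ∧
    (∀ i j, i ≠ j → ⟪(p i).1, (p j).1⟫_ℝ = 0 ∧ ⟪(p i).2, (p j).2⟫_ℝ = 0) ∧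
    ∀ i, ‖(p i).2‖ ^ 2 ≤ C * ((n : ℝ) + 1) ^ (2 / 3 : ℝ) * ‖(p i).1‖ ^ 2

/-- (PWC) finitely many averages control the norm -/
def S_PWC : Prop := ∀ (Ω : Set E3), IsOpen Ω → Bornology.IsBounded Ω → ∃ C : ℝ, 0 < C ∧
  ∀ h : ℝ, 0 < h → h ≤ 1 → ∃ (M : ℕ) (e : Fin M → L2V Ω), (M : ℝ) ≤ C * (h ^ 3)⁻¹ ∧
    ∀ p ∈ graphW Ω, (∀ i, ⟪e i, p.1⟫_ℝ = 0) → ‖p.1‖ ≤ C * h * ‖p.2‖

/-- (CNT) a lower bound of the eigenvalues -/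
def S_CNT : Prop := S_PWC → ∀ (Ω : Set E3), IsOpen Ω → Bornology.IsBounded Ω → ∃ C : ℝ, 0 < C ∧
  ∀ (w : ℕ → L2V Ω) (g : ℕ → L2M Ω) (lam : ℕ → ℝ), BasM (graphW Ω) w g lam →
    ∀ n : ℕ, (n : ℝ) + 1 ≤ C * (1 + lam n) ^ (3 / 2 : ℝ)

/-- (CMP) consecutive eigenvalues are comparable, and there are eigenbases -/
def S_CMP : Prop := S_MIN → S_BAS → S_MMX → S_TST → S_PWC → S_CNT →
  ∀ (Ω : Set E3), IsOpen Ω → Bornology.IsBounded Ω → Ω.Nonempty →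
    (∃ (w : ℕ → L2V Ω) (g : ℕ → L2M Ω) (lam : ℕ → ℝ), BasM (graphW Ω) w g lam) ∧
    ∀ (w : ℕ → L2V Ω) (g : ℕ → L2M Ω) (lam : ℕ → ℝ), BasM (graphW Ω) w g lam →
      Bas (graphW Ω) w g lam

end Pool.Agent.U401.DD
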