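import Mathlib
import Pool.Agent.U401.DD.Stm
import Pool.Agent.H772R2.NSR.Deriv

set_option autoImplicit false

/-!
Project DD, third part: for data in the domain of the generator the solution has a time derivative
in `L^∞(0, T; H) ∩ L²(0, T; V)`.
-/

open MeasureTheory ProbabilityTheory Set Filter Topology
open scoped InnerProductSpace

namespace Pool.Agent.U401.DD

open H772R2.NSR H772R2.NS

section abs3

variable {H K : Type} [NormedAddCommGroup H] [InnerProductSpace ℝ H] [CompleteSpace H]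
  [NormedAddCommGroup K] [InnerProductSpace ℝ K] [CompleteSpace K]

/-- the right hand side at time `0` is in `H` -/
def Comp (m : H → K) (w : ℕ → H) (g : ℕ → K) (lam om : ℕ → ℝ) (ν ε : ℝ) (f : ℝ → H) (u₀ : H) :
    Prop := ∃ h : H, ∀ n, -ν * lam n * ⟪w n, u₀⟫_ℝ + ⟪m u₀, g n⟫_ℝ + ⟪w n, f 0⟫_ℝ +
      ε * rot om (fun k => ⟪w k, u₀⟫_ℝ) n = ⟪w n, h⟫_ℝ

/-- Lipschitz on bounded time intervals -/
def Lips (f : ℝ → H) : Prop :=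
  ∀ T : ℝ, ∃ L : ℝ, ∀ s ∈ Icc 0 T, ∀ t ∈ Icc 0 T, ‖f s - f t‖ ≤ L * |s - t|

/-- (TDA) the solution is Lipschitz at time `0` -/
def S_TDA : Prop := ∀ {H K : Type} [NormedAddCommGroup H]
  [InnerProductSpace ℝ H] [CompleteSpace H] [NormedAddCommGroup K] [InnerProductSpace ℝ K]
  [CompleteSpace K]
  (W : Submodule ℝ (H × K)) (m : H → K) (C : ℝ) (w : ℕ → H) (g : ℕ → K) (lam : ℕ → ℝ),
  Frame W m C → Bas W w g lam → ∀ (om : ℕ → ℝ) (ν ε : ℝ) (f : ℝ → H) (u₀ : H) (x : ℝ → H)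
    (z : ℝ → K), 0 < ν → ContinuousOn f (Ici 0) → IsSolA W m w g lam om ν ε f u₀ x z →
    Comp m w g lam om ν ε f u₀ → ∀ T : ℝ, ∃ B : ℝ, ∀ t ∈ Icc 0 T, ‖x t - u₀‖ ≤ B * t

/-- (TDB) two solutions with different data -/
def S_TDB : Prop := ∀ {H K : Type} [NormedAddCommGroup H]
  [InnerProductSpace ℝ H] [CompleteSpace H] [NormedAddCommGroup K] [InnerProductSpace ℝ K]
  [CompleteSpace K]
  (W : Submodule ℝ (H × K)) (m : H → K) (C : ℝ) (w : ℕ → H) (g : ℕ → K) (lam : ℕ → ℝ),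
  Frame W m C → Bas W w g lam → ∀ (om : ℕ → ℝ) (ν ε : ℝ), 0 < ν → ∀ T R : ℝ, ∃ B : ℝ, 0 ≤ B ∧
  ∀ (f f' : ℝ → H) (u₀ u₀' : H) (x x' : ℝ → H) (z z' : ℝ → K) (T' δ : ℝ), 0 ≤ T' → T' ≤ T →
    0 ≤ δ → ContinuousOn f (Ici 0) → ContinuousOn f' (Ici 0) →
    IsSolA W m w g lam om ν ε f u₀ x z → IsSolA W m w g lam om ν ε f' u₀' x' z' →
    (∀ t ∈ Icc 0 T', ‖z t‖ ≤ R ∧ ‖z' t‖ ≤ R ∧ ‖f t - f' t‖ ≤ δ) → ‖u₀ - u₀'‖ ≤ δ →
    (∀ t ∈ Icc 0 T', ‖x t - x' t‖ ≤ B * δ) ∧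
      IntervalIntegrable (fun t => ‖z t - z' t‖ ^ 2) volume 0 T' ∧
      ∫ t in (0 : ℝ)..T', ‖z t - z' t‖ ^ 2 ≤ B * δ ^ 2

/-- (TDC) difference quotients of a solution -/
def S_TDC : Prop := S_TDA → S_TDB → ∀ {H K : Type} [NormedAddCommGroup H]
  [InnerProductSpace ℝ H] [CompleteSpace H] [NormedAddCommGroup K] [InnerProductSpace ℝ K]
  [CompleteSpace K]
  (W : Submodule ℝ (H × K)) (m : H → K) (C : ℝ) (w : ℕ → H) (g : ℕ → K) (lam : ℕ → ℝ),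
  Frame W m C → Bas W w g lam → ∀ (om : ℕ → ℝ) (ν ε : ℝ) (f : ℝ → H) (u₀ : H) (x : ℝ → H)
    (z : ℝ → K), 0 < ν → ContinuousOn f (Ici 0) → Lips f → IsSolA W m w g lam om ν ε f u₀ x z →
    Comp m w g lam om ν ε f u₀ → ∀ T : ℝ, 0 < T → ∃ B : ℝ, ∀ h, 0 < h → h < T →
      (∀ t ∈ Icc 0 (T - h), ‖x (t + h) - x t‖ ≤ B * h) ∧
      IntervalIntegrable (fun t => ‖z (t + h) - z t‖ ^ 2) volume 0 (T - h) ∧
      ∫ t in (0 : ℝ)..(T - h), ‖z (t + h) - z t‖ ^ 2 ≤ B * h ^ 2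

/-- (TDW) weakly continuous functions with bounded difference quotients are in `H¹` -/
def S_TDW : Prop := ∀ {Y : Type} [NormedAddCommGroup Y] [InnerProductSpace ℝ Y] [CompleteSpace Y]
  (T B : ℝ) (z : ℝ → Y), 0 < T → (∀ k : Y, ContinuousOn (fun t => ⟪z t, k⟫_ℝ) (Icc 0 T)) →
  (∀ h, 0 < h → h < T → IntervalIntegrable (fun t => ‖z (t + h) - z t‖ ^ 2) volume 0 (T - h) ∧
    ∫ t in (0 : ℝ)..(T - h), ‖z (t + h) - z t‖ ^ 2 ≤ B * h ^ 2) →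
  ∃ D : ℝ → Y, MemLp D 2 (volume.restrict (Ioc 0 T)) ∧ ∀ a b, 0 ≤ a → a ≤ b → b ≤ T →
    z b - z a = ∫ s in a..b, D s

/-- the time derivatives: `x, z ∈ H¹(0, T)`, `x' ∈ L^∞(0, T; H) ∩ L²(0, T; V)`, `z' = ∇ x'` -/
def TimeReg (W : Submodule ℝ (H × K)) (T : ℝ) (x : ℝ → H) (z : ℝ → K) : Prop :=
  ∃ (x' : ℝ → H) (z' : ℝ → K) (B : ℝ), MemLp x' 2 (volume.restrict (Ioc 0 T)) ∧
    MemLp z' 2 (volume.restrict (Ioc 0 T)) ∧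
    (∀ a b, 0 ≤ a → a ≤ b → b ≤ T → x b - x a = ∫ s in a..b, x' s) ∧
    (∀ a b, 0 ≤ a → a ≤ b → b ≤ T → z b - z a = ∫ s in a..b, z' s) ∧
    ∀ᵐ s ∂(volume.restrict (Ioc 0 T)), (x' s, z' s) ∈ W ∧ ‖x' s‖ ≤ B

/-- (TDF) time regularity -/
def S_TDF : Prop := S_TDA → S_TDB → S_TDC → S_TDW → ∀ {H K : Type} [NormedAddCommGroup H]
  [InnerProductSpace ℝ H] [CompleteSpace H] [NormedAddCommGroup K] [InnerProductSpace ℝ K]
  [CompleteSpace K]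
  (W : Submodule ℝ (H × K)) (m : H → K) (C : ℝ) (w : ℕ → H) (g : ℕ → K) (lam : ℕ → ℝ),
  Frame W m C → Bas W w g lam → ∀ (om : ℕ → ℝ) (ν ε : ℝ) (f : ℝ → H) (u₀ : H) (x : ℝ → H)
    (z : ℝ → K), 0 < ν → ContinuousOn f (Ici 0) → Lips f → IsSolA W m w g lam om ν ε f u₀ x z →
    Comp m w g lam om ν ε f u₀ → ∀ T : ℝ, 0 < T → TimeReg W T x z

end abs3

end Pool.Agent.U401.DD
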