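import Mathlib
import Pool.Agent.U401.DD.Stm

set_option autoImplicit false

/-!
Project DD, fourth part: the same theorem with frequencies of much lower order,
`ω_j = (1 + λ_{2j} + λ_{2j+1}) ^ σ Z_j`, `σ > 21 / 2`.
-/

open MeasureTheory ProbabilityTheory Set Filter Topology
open scoped InnerProductSpace

namespace Pool.Agent.U401.DD

open H772R2.NSR

/-- the largest scale -/
noncomputable def mxG (lam : ℕ → ℝ) (κ l m : Ix) : ℝ :=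
  max (GG lam κ.1) (max (GG lam l.1) (GG lam m.1))

/-- triples removed by the normal form -/
def far2 (lam om : ℕ → ℝ) (κ l m : Ix) : Prop :=
  ¬ same κ l m ∧ ((¬ res κ l m ∧ mxG lam κ l m ^ 6 ≤ |Lm om κ l m|) ∨
    (l = bar κ ∧ GG lam κ.1 ≤ GG lam m.1 ^ 3) ∨ (m = bar κ ∧ GG lam κ.1 ≤ GG lam l.1 ^ 3) ∨
    (m = bar l ∧ GG lam l.1 ≤ GG lam κ.1 ^ 3))

/-- near-resonant triples which are not trivially resonant -/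
def near2 (lam om : ℕ → ℝ) (κ l m : Ix) : Prop :=
  ¬ same κ l m ∧ ¬ res κ l m ∧ |Lm om κ l m| < mxG lam κ l m ^ 6

/-- good frequencies -/
structure Good2 (lam om : ℕ → ℝ) (c : ℝ) : Prop where
  pos : 0 < c
  low : ∀ j, c * GG lam j ^ 8 ≤ |om j|
  fin : {t : Ix × Ix × Ix | near2 lam om t.1 t.2.1 t.2.2}.Finite

/-- more properties of the coefficients -/
structure Dat2 (bet : ℕ → ℕ → ℕ → ℝ) (lam : ℕ → ℝ) (K : ℝ) : Prop where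
  dat : Dat bet lam K
  bd4 : ∀ k l n, bet k l n ^ 4 ≤
    K * (max (GG lam (k / 2)) (max (GG lam (l / 2)) (GG lam (n / 2)))) ^ 5
  dual : ∀ k l, k / 2 = l / 2 → ∀ (S : Finset ℕ) (b : ℕ → ℝ),
    (∑ n ∈ S, bet k l n * b n) ^ 4 ≤ K * (GG lam (k / 2) ^ 3 * (∑ n ∈ S, lam n * b n ^ 2) ^ 2)
  cnt : ∀ j : ℕ, (j : ℝ) + 1 ≤ K * GG lam j ^ (3 / 2 : ℝ)

open Classical in
/-- the coefficients of the normal form -/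
noncomputable def hnf2 (bet : ℕ → ℕ → ℕ → ℝ) (lam om : ℕ → ℝ) (ε : ℝ) (κ l m : Ix) : ℂ :=
  if far2 lam om κ l m then cx (sig bet lam) κ l m * (Complex.I / (ε * Lm om κ l m)) else 0

open Classical in
/-- the part of the energy production which is not removed -/
noncomputable def rest2 (bet : ℕ → ℕ → ℕ → ℝ) (lam om : ℕ → ℝ) (κ l m : Ix) : ℂ :=
  if far2 lam om κ l m then 0 else cx (sig bet lam) κ l m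

open Classical in
/-- the weights which bound the coefficients of the normal form -/
noncomputable def wt2 (lam : ℕ → ℝ) (κ l m : Ix) : ℝ :=
  mxG lam κ l m ^ (-(15 / 4) : ℝ) +
    (if l = bar κ then GG lam m.1 ^ (-(9 / 4) : ℝ) else 0) +
    (if m = bar κ then GG lam l.1 ^ (-(9 / 4) : ℝ) else 0) +
    (if m = bar l then GG lam κ.1 ^ (-(9 / 4) : ℝ) else 0)

/-- (DAT2) the coefficients -/
def S_DAT2 : Prop := S_EXP → ∀ {H K : Type} [NormedAddCommGroup H] [InnerProductSpace ℝ H]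
  [CompleteSpace H] [NormedAddCommGroup K] [InnerProductSpace ℝ K] [CompleteSpace K]
  (W : Submodule ℝ (H × K)) (m : H → K) (C : ℝ) (w : ℕ → H) (g : ℕ → K) (lam : ℕ → ℝ) (K₀ : ℝ),
  Frame W m C → Quad W m → Bas W w g lam → Dat (betf m w g) lam K₀ →
  (∃ K₁ : ℝ, ∀ j : ℕ, (j : ℝ) + 1 ≤ K₁ * GG lam j ^ (3 / 2 : ℝ)) →
    ∃ K' : ℝ, Dat2 (betf m w g) lam K'

/-- (BDC2) bounds of the complex coefficients -/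
def S_BDC2 : Prop := S_BDC → ∀ (bet : ℕ → ℕ → ℕ → ℝ) (lam : ℕ → ℝ) (K : ℝ), Dat2 bet lam K →
  ∃ K' : ℝ, 0 ≤ K' ∧ ∀ κ l m : Ix, ‖cx (sig bet lam) κ l m‖ ^ 4 ≤ K' * mxG lam κ l m ^ 9

/-- (HB2) the coefficients of the normal form -/
def S_HB2 : Prop := S_BDC → S_BDC2 → ∀ (bet : ℕ → ℕ → ℕ → ℝ) (lam om : ℕ → ℝ) (K c ε : ℝ),
  Dat2 bet lam K → Good2 lam om c → ε ≠ 0 →
    (∀ κ l m : Ix, far2 lam om κ l m → Lm om κ l m ≠ 0) ∧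
    ∃ B : ℝ, 0 ≤ B ∧ ∀ κ l m : Ix, ‖hnf2 bet lam om ε κ l m‖ ≤ B * wt2 lam κ l m

/-- (ETA2) sums with the weights -/
def S_ETA2 : Prop := ∀ (lam : ℕ → ℝ) (K : ℝ), (∀ n, 0 < lam n) →
  (∀ j : ℕ, (j : ℝ) + 1 ≤ K * GG lam j ^ (3 / 2 : ℝ)) → ∃ B : ℝ, 0 ≤ B ∧
  ∀ (N : ℕ) (x r y : Ix → ℝ) (X Y Z : ℝ), (∀ κ, 0 ≤ x κ) → (∀ κ, 0 ≤ r κ) → (∀ κ, 0 ≤ y κ) →
    (∀ κ, x (bar κ) = x κ) → 0 ≤ Z → ∑ κ ∈ IxN N, x κ ^ 2 ≤ X → ∑ κ ∈ IxN N, x κ * r κ ≤ Y →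
    (∀ κ ∈ IxN N, r κ ≤ GG lam κ.1 * y κ) → ∑ κ ∈ IxN N, y κ ^ 2 ≤ Z ^ 2 →
    ∑ κ ∈ IxN N, ∑ l ∈ IxN N, ∑ m ∈ IxN N, wt2 lam κ l m * (x κ * x l * x m) ≤
      B * (X * Real.sqrt X) ∧
    ∑ κ ∈ IxN N, ∑ l ∈ IxN N, ∑ m ∈ IxN N,
      wt2 lam κ l m * (r κ * x l * x m + x κ * r l * x m + x κ * x l * r m) ≤
      B * (X * Z + Real.sqrt X * Y)

/-- (KEP2) the part which is not removed is absorbed by the viscosity -/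
def S_KEP2 : Prop := S_BDC → S_BDC2 → ∀ (bet : ℕ → ℕ → ℕ → ℝ) (lam om : ℕ → ℝ) (K c : ℝ),
  Dat2 bet lam K → Good2 lam om c → ∀ δ X : ℝ, 0 < δ → ∃ B : ℝ, ∀ (N : ℕ) (a : ℕ → ℝ), Mm N a ≤ X →
    ‖form N (rest2 bet lam om) (uu a)‖ ≤
      δ * (∑ n ∈ Finset.range (2 * N), gg lam (n / 2) ^ 2 * a n ^ 2) + B

/-- (RHS2) bounds of the right hand side -/
def S_RHS2 : Prop := ∀ (bet : ℕ → ℕ → ℕ → ℝ) (lam : ℕ → ℝ) (K : ℝ), Dat bet lam K →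
  ∀ ν X F : ℝ, 0 ≤ ν → ∃ B : ℝ, 0 ≤ B ∧ ∀ (N : ℕ) (a f : ℕ → ℝ), Mm N a ≤ X → Mm N f ≤ F →
    ∃ y : Ix → ℝ, (∀ κ, 0 ≤ y κ) ∧
      (∀ κ ∈ IxN N, ‖uu (Nn bet lam ν N a f) κ‖ ≤ GG lam κ.1 * y κ) ∧
      ∑ κ ∈ IxN N, y κ ^ 2 ≤ (B * (1 + En lam N a)) ^ 2

/-- (DRV2) the corrected energy -/
def S_DRV2 : Prop := ∀ (bet : ℕ → ℕ → ℕ → ℝ) (lam om : ℕ → ℝ) (K c ε ν : ℝ), Dat2 bet lam K →
  Good2 lam om c → ε ≠ 0 → 0 < ν → ∀ X F : ℝ, ∃ B : ℝ, 0 ≤ B ∧ ∀ (N : ℕ) (T : ℝ) (f a : ℕ → ℝ → ℝ),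
    Gal bet lam om ν ε N T f a → ∀ t ∈ Icc 0 T, Mm N (fun k => a k t) ≤ X →
      Mm N (fun k => f k t) ≤ F →
      |(form N (hnf2 bet lam om ε) (uu fun k => a k t)).re| ≤ B ∧
      ∃ y' : ℝ, HasDerivWithinAt (fun s => En lam N (fun k => a k s) -
        (form N (hnf2 bet lam om ε) (uu fun k => a k s)).re) y' (Icc 0 T) t ∧
        y' ≤ B * (1 + En lam N (fun k => a k t)) ^ 2

/-- (DRA2) assembly of (DRV2) -/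
def S_DRA2 : Prop := S_CPX → S_SIG → S_BDC → S_BDC2 → S_HB2 → S_ETA2 → S_KEP2 → S_RHS → S_RHS2 →
  S_DER → S_DRV2

/-- (APR2) a priori bound of the energy, uniform in `N` -/
def S_APR2 : Prop := ∀ (bet : ℕ → ℕ → ℕ → ℝ) (lam om : ℕ → ℝ) (K c ε ν : ℝ), Dat2 bet lam K →
  Good2 lam om c → ε ≠ 0 → 0 < ν → ∀ T A F : ℝ, 0 ≤ T → ∃ R : ℝ, ∀ (N : ℕ) (f a : ℕ → ℝ → ℝ),
    (∀ n, ContinuousOn (f n) (Icc 0 T)) → Gal bet lam om ν ε N T f a →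
    Dd lam N (fun k => a k 0) ≤ A → (∀ t ∈ Icc 0 T, Mm N (fun k => f k t) ≤ F) →
      ∀ t ∈ Icc 0 T, Dd lam N (fun k => a k t) ≤ R

/-- (APA2) assembly of (APR2) -/
def S_APA2 : Prop := S_DRV2 → S_ENG → S_GRW → S_APR2

/-- (PRN2) almost surely finitely many near-resonant triples -/
def S_PRN2 : Prop := ∀ (lam : ℕ → ℝ) (K : ℝ), (∀ n, 0 < lam n) →
  (∀ j : ℕ, (j : ℝ) + 1 ≤ K * GG lam j ^ (3 / 2 : ℝ)) → ∀ σ D : ℝ, 21 / 2 < σ → 0 ≤ D →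
  ∀ (Ω : Type) [MeasurableSpace Ω] (μ : Measure Ω) [IsProbabilityMeasure μ] (Z : ℕ → Ω → ℝ),
  (∀ j, Measurable (Z j)) → iIndepFun Z μ → DensB μ Z D →
    ∀ᵐ ω ∂μ, {t : Ix × Ix × Ix |
      near2 lam (fun j => GG lam j ^ σ * Z j ω) t.1 t.2.1 t.2.2}.Finite

/-- (PRL2) almost surely a lower bound of the frequencies -/
def S_PRL2 : Prop := ∀ (lam : ℕ → ℝ) (K : ℝ), (∀ n, 0 < lam n) →
  (∀ j : ℕ, (j : ℝ) + 1 ≤ K * GG lam j ^ (3 / 2 : ℝ)) → ∀ σ D : ℝ, 21 / 2 < σ → 0 ≤ D →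
  ∀ (Ω : Type) [MeasurableSpace Ω] (μ : Measure Ω) [IsProbabilityMeasure μ] (Z : ℕ → Ω → ℝ),
  (∀ j, Measurable (Z j)) → DensB μ Z D →
    ∀ᵐ ω ∂μ, ∃ c : ℝ, 0 < c ∧ ∀ j, c * GG lam j ^ 8 ≤ |GG lam j ^ σ * Z j ω|

end Pool.Agent.U401.DD
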