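import Mathlib
import Pool.Agent.U401.DD.Asm
import Pool.Agent.U401.DD.Stm2
import Pool.Agent.U401.DD.Stm3
import Pool.Agent.U401.DD.Stm4

set_option autoImplicit false

/-!
Project DD: second assembly (time regularity, lower order of the frequencies).
-/

open MeasureTheory ProbabilityTheory Set Filter Topology
open scoped InnerProductSpace

namespace Pool.Agent.U401.DD

open H772R2.NSR

theorem abs_gwp2 (hODE : S_ODE) (hAPR : S_APR2) (hEXP : S_EXP) (hDAT : S_DAT) (hDAT2 : S_DAT2)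
    (hLMI : S_LMI) (hSEQ : S_SEQ) (hCNV : S_CNV) (hLIM : S_LIM) (hTDA : S_TDA) (hTDB : S_TDB)
    (hTDC : S_TDC) (hTDW : S_TDW) (hTDF : S_TDF) (hBES : S_BES)
    {H K : Type} [NormedAddCommGroup H] [InnerProductSpace ℝ H]
    [CompleteSpace H] [NormedAddCommGroup K] [InnerProductSpace ℝ K] [CompleteSpace K]
    (W : Submodule ℝ (H × K)) (m : H → K) (C : ℝ) (w : ℕ → H) (g : ℕ → K) (lam : ℕ → ℝ)
    (Fr : Frame W m C) (hQ : Quad W m) (hB : Bas W w g lam)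
    (hR : ∀ R : ℝ, TotallyBounded {v : H | ∃ z : K, (v, z) ∈ W ∧ ‖z‖ ≤ R})
    (hcnt : ∃ K₁ : ℝ, ∀ j : ℕ, (j : ℝ) + 1 ≤ K₁ * GG lam j ^ (3 / 2 : ℝ))
    (om : ℕ → ℝ) (c : ℝ) (hG : Good2 lam om c) (ν ε : ℝ) (hν : 0 < ν) (hε : ε ≠ 0)
    (f : ℝ → H) (hf : ContinuousOn f (Ici 0)) (u₀ : H) (z₀ : K) (h0 : (u₀, z₀) ∈ W) :
    ∃ x z, IsSolA W m w g lam om ν ε f u₀ x z ∧
      (∀ x' z', IsSolA W m w g lam om ν ε f u₀ x' z' → ∀ t, 0 ≤ t → x' t = x t) ∧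
      (Lips f → Comp m w g lam om ν ε f u₀ → ∀ T : ℝ, 0 < T → TimeReg W T x z) := by
  obtain ⟨K₀, hD0⟩ := hDAT hEXP W m C w g lam Fr hQ hB
  obtain ⟨K', hD⟩ := hDAT2 hEXP W m C w g lam K₀ Fr hQ hB hD0 hcnt
  obtain ⟨-, hbes, hbm⟩ := hBES W m C w g lam Fr hB
  have hlam : Tendsto lam atTop atTop := hLMI W m C w g lam Fr hB hR
  have hfn : ∀ (n : ℕ) (T : ℝ), ContinuousOn (fun t => ⟪w n, f t⟫_ℝ) (Icc 0 T) := fun n T =>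
    continuousOn_const.inner (hf.mono Icc_subset_Ici_self)
  have hex : ∀ N : ℕ, ∃ a : ℕ → ℝ → ℝ,
      Gal (betf m w g) lam om ν ε N (N : ℝ) (fun n t => ⟪w n, f t⟫_ℝ) a ∧
        ∀ n < 2 * N, a n 0 = ⟪w n, u₀⟫_ℝ := fun N =>
    hODE (betf m w g) lam om K' ε ν hD.dat hν N (N : ℝ) (fun n t => ⟪w n, f t⟫_ℝ)
      (fun n => ⟪w n, u₀⟫_ℝ) (Nat.cast_nonneg N) (fun n => hfn n _)
  choose A hA1 hA2 using hex
  have hbound : ∀ T : ℝ, ∃ R : ℝ, ∀ N : ℕ, T ≤ (N : ℝ) → ∀ t ∈ Icc 0 T,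
      Dd lam N (fun k => A N k t) ≤ R := by
    intro T
    rcases lt_or_ge T 0 with hT | hT
    · exact ⟨0, fun N _ t ht => absurd (ht.1.trans ht.2) (not_le.mpr hT)⟩
    obtain ⟨Fb, hFb⟩ : ∃ Fb : ℝ, ∀ t ∈ Icc 0 T, ‖f t‖ ≤ Fb := by
      obtain ⟨B0, h⟩ := (isCompact_Icc.image_of_continuousOn
        (hf.mono (Icc_subset_Ici_self : Icc 0 T ⊆ Ici 0))).isBounded.exists_norm_le
      exact ⟨B0, fun t ht => h _ ⟨t, ht, rfl⟩⟩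
    obtain ⟨R, hR'⟩ := hAPR (betf m w g) lam om K' c ε ν hD hG hε hν T (‖z₀‖ ^ 2) (Fb ^ 2) hT
    refine ⟨R, fun N hN t ht => ?_⟩
    refine hR' N (fun n t => ⟪w n, f t⟫_ℝ) (A N) (fun n => hfn n T) ?_ ?_ ?_ t ht
    · intro n hn s hs
      exact (hA1 N n hn s ⟨hs.1, hs.2.trans hN⟩).mono (Icc_subset_Icc_right hN)
    · have e1 : Dd lam N (fun k => A N k 0) = Dd lam N (fun k => ⟪w k, u₀⟫_ℝ) := by
        unfold Dd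
        refine Finset.sum_congr rfl fun n hn => ?_
        show lam n * A N n 0 ^ 2 = lam n * ⟪w n, u₀⟫_ℝ ^ 2
        rw [hA2 N n (Finset.mem_range.mp hn)]
      rw [e1]
      exact hbes (u₀, z₀) h0 N
    · intro s hs
      refine (hbm (f s) N).trans ?_
      exact pow_le_pow_left₀ (norm_nonneg _) (hFb s hs) 2
  obtain ⟨x, z, hx⟩ := hLIM hSEQ hCNV hEXP W m C w g lam Fr hQ hB hlam om ν ε f hf u₀ z₀ h0 A hA1
    hA2 hbound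
  refine ⟨x, z, hx, ?_, fun hL hC T hT =>
    hTDF hTDA hTDB hTDC hTDW W m C w g lam Fr hB om ν ε f u₀ x z hν hf hL hx hC T hT⟩
  intro x' z' hx' t ht
  obtain ⟨R1, hR1⟩ := hx.bdd t
  obtain ⟨R2, hR2⟩ := hx'.bdd t
  obtain ⟨B, hB0, hB1⟩ := hTDB W m C w g lam Fr hB om ν ε hν t (max R1 R2)
  have h1 := (hB1 f f u₀ u₀ x' x z' z t 0 ht le_rfl le_rfl hf hf hx' hx (fun s hs =>
    ⟨(hR2 s hs).trans (le_max_right _ _), (hR1 s hs).trans (le_max_left _ _), by simp⟩)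
    (by simp)).1 t ⟨ht, le_rfl⟩
  have h2 : ‖x' t - x t‖ ≤ 0 := by simpa using h1
  exact sub_eq_zero.mp (norm_le_zero_iff.mp h2)

/-- almost surely the frequencies are good -/
theorem good2_ae (h1 : S_PRN2) (h2 : S_PRL2) (lam : ℕ → ℝ) (hlam : ∀ n, 0 < lam n) (K₁ : ℝ)
    (hcnt : ∀ j : ℕ, (j : ℝ) + 1 ≤ K₁ * GG lam j ^ (3 / 2 : ℝ)) (σ D : ℝ)
    (hσ : 21 / 2 < σ) (hD0 : 0 ≤ D) (Ω : Type) [MeasurableSpace Ω] (μ : Measure Ω)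
    [IsProbabilityMeasure μ] (Z : ℕ → Ω → ℝ) (hZ : ∀ j, Measurable (Z j)) (hi : iIndepFun Z μ)
    (hD : DensB μ Z D) : ∀ᵐ ω ∂μ, ∃ c : ℝ, Good2 lam (fun j => GG lam j ^ σ * Z j ω) c := by
  filter_upwards [h1 lam K₁ hlam hcnt σ D hσ hD0 Ω μ Z hZ hi hD,
    h2 lam K₁ hlam hcnt σ D hσ hD0 Ω μ Z hZ hD] with ω a1 a2
  obtain ⟨c, hc, hc2⟩ := a2
  exact ⟨c, ⟨hc, hc2, a1⟩⟩

/-! ### The concrete equations -/

open H772R2.NS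

/-- `w n` is an orthonormal basis of eigenfunctions of the Stokes operator in `Ω` with zero boundary
values, `g n = ∇ (w n)`, with increasing eigenvalues `lam n`. -/
structure EigBasis (Ω : Set E3) (w : ℕ → L2V Ω) (g : ℕ → L2M Ω) (lam : ℕ → ℝ) : Prop where
  mem : ∀ n, (w n, g n) ∈ H1graph Ω
  orth : Orthonormal ℝ w
  eig : ∀ n, ∀ p ∈ H1graph Ω, ⟪g n, p.2⟫_ℝ = lam n * ⟪w n, p.1⟫_ℝ
  dens : ∀ p ∈ H1graph Ω, p.1 ∈ closure (Submodule.span ℝ (range w) : Set (L2V Ω))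
  mono : Monotone lam

theorem EigBasis.basM {Ω : Set E3} {w : ℕ → L2V Ω} {g : ℕ → L2M Ω} {lam : ℕ → ℝ}
    (h : EigBasis Ω w g lam) : BasM (graphW Ω) w g lam where
  mem n := mem_graphW.mpr (h.mem n)
  orth := h.orth
  eig n p hp := h.eig n p (mem_graphW.mp hp)
  dens p hp := h.dens p (mem_graphW.mp hp)
  mono := h.mono

theorem eigBasis_of {Ω : Set E3} {w : ℕ → L2V Ω} {g : ℕ → L2M Ω} {lam : ℕ → ℝ}
    (h : BasM (graphW Ω) w g lam) : EigBasis Ω w g lam where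
  mem n := mem_graphW.mp (h.mem n)
  orth := h.orth
  eig n p hp := h.eig n p (mem_graphW.mpr hp)
  dens p hp := h.dens p (mem_graphW.mpr hp)
  mono := h.mono

/-- the right hand side of the equation at time `0` is in `L²`: for the velocity `p.1` with gradient
`p.2` -/
def Compat (Ω : Set E3) (w : ℕ → L2V Ω) (g : ℕ → L2M Ω) (om : ℕ → ℝ) (ν ε : ℝ) (f : ℝ → L2V Ω)
    (p : L2V Ω × L2M Ω) : Prop :=
  ∃ h : L2V Ω, ∀ n, -ν * ⟪g n, p.2⟫_ℝ + (∫ x in Ω, ∑ i, ∑ j, p.1 x i * p.1 x j * g n x (i, j)) +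
    ⟪w n, f 0⟫_ℝ + ε * rot om (fun k => ⟪w k, p.1⟫_ℝ) n = ⟪w n, h⟫_ℝ

/-- `u` and its gradient `G` are in `H¹(0, T; L²)`, and the time derivative `u'` of `u` is in
`L^∞(0, T; H) ∩ L²(0, T; V)` -/
def TimeDer (Ω : Set E3) (T : ℝ) (u : ℝ → L2V Ω) (G : ℝ → L2M Ω) : Prop :=
  ∃ (u' : ℝ → L2V Ω) (G' : ℝ → L2M Ω) (B : ℝ), MemLp u' 2 (volume.restrict (Ioc 0 T)) ∧
    MemLp G' 2 (volume.restrict (Ioc 0 T)) ∧
    (∀ a b, 0 ≤ a → a ≤ b → b ≤ T → u b - u a = ∫ s in a..b, u' s) ∧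
    (∀ a b, 0 ≤ a → a ≤ b → b ≤ T → G b - G a = ∫ s in a..b, G' s) ∧
    ∀ᵐ s ∂(volume.restrict (Ioc 0 T)), (u' s, G' s) ∈ H1graph Ω ∧ ‖u' s‖ ≤ B

/-- global well-posedness for all data -/
def WellPosed (Ω : Set E3) (w : ℕ → L2V Ω) (g : ℕ → L2M Ω) (om : ℕ → ℝ) (ν ε : ℝ) : Prop :=
  ∀ f : ℝ → L2V Ω, ContinuousOn f (Ici 0) → ∀ p ∈ H1graph Ω,
    ∃ u G, IsSol Ω w g om ν ε f p.1 u G ∧
      (∀ v Y, IsSol Ω w g om ν ε f p.1 v Y → ∀ t, 0 ≤ t → v t = u t) ∧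
      ((∀ T : ℝ, ∃ L : ℝ, ∀ s ∈ Icc 0 T, ∀ t ∈ Icc 0 T, ‖f s - f t‖ ≤ L * |s - t|) →
        Compat Ω w g om ν ε f p → ∀ T : ℝ, 0 < T → TimeDer Ω T u G)

theorem main2 (hCPX : S_CPX) (hSIG : S_SIG) (hBDC : S_BDC) (hBDC2 : S_BDC2) (hHB2 : S_HB2)
    (hETA2 : S_ETA2) (hKEP2 : S_KEP2) (hRHS : S_RHS) (hRHS2 : S_RHS2) (hDER : S_DER)
    (hDRA2 : S_DRA2) (hENG : S_ENG) (hGRW : S_GRW) (hAPA2 : S_APA2)
    (hODE : S_ODE) (hEXP : S_EXP) (hDAT : S_DAT) (hDAT2 : S_DAT2) (hLMI : S_LMI)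
    (hSEQ : S_SEQ) (hCNV : S_CNV) (hLIM : S_LIM) (hBES : S_BES) (hQUA : S_QUA)
    (hTDA : S_TDA) (hTDB : S_TDB) (hTDC : S_TDC) (hTDW : S_TDW) (hTDF : S_TDF)
    (hPRN2 : S_PRN2) (hPRL2 : S_PRL2)
    (hMIN : S_MIN) (hBAS : S_BAS) (hMMX : S_MMX) (hTST : S_TST) (hPWC : S_PWC) (hCNT : S_CNT)
    (hCMP : S_CMP)
    (Ω : Set E3) (hΩ : IsOpen Ω) (hb : Bornology.IsBounded Ω) (hne : Ω.Nonempty) :
    (∃ (w : ℕ → L2V Ω) (g : ℕ → L2M Ω) (lam : ℕ → ℝ), EigBasis Ω w g lam) ∧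
    ∀ (w : ℕ → L2V Ω) (g : ℕ → L2M Ω) (lam : ℕ → ℝ), EigBasis Ω w g lam →
      (∀ (om : ℕ → ℝ) (c : ℝ), Good2 lam om c → ∀ ν ε : ℝ, 0 < ν → ε ≠ 0 →
        WellPosed Ω w g om ν ε) ∧
      ∀ σ D : ℝ, 21 / 2 < σ → 0 ≤ D → ∀ (Θ : Type) [MeasurableSpace Θ] (P : Measure Θ)
        [IsProbabilityMeasure P] (Z : ℕ → Θ → ℝ), (∀ j, Measurable (Z j)) → iIndepFun Z P →
        DensB P Z D → ∀ᵐ θ ∂P, ∀ ν ε : ℝ, 0 < ν → ε ≠ 0 →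
          WellPosed Ω w g (fun j => GG lam j ^ σ * Z j θ) ν ε := by
  have hAPR : S_APR2 := hAPA2 (hDRA2 hCPX hSIG hBDC hBDC2 hHB2 hETA2 hKEP2 hRHS hRHS2 hDER)
    hENG hGRW
  obtain ⟨h1, h2⟩ := hCMP hMIN hBAS hMMX hTST hPWC hCNT Ω hΩ hb hne
  refine ⟨?_, ?_⟩
  · obtain ⟨w, g, lam, h⟩ := h1
    exact ⟨w, g, lam, eigBasis_of h⟩
  intro w g lam h
  have hB : Bas (graphW Ω) w g lam := h2 w g lam h.basM
  have hS : StokesBasis Ω w g lam := ⟨h.mem, h.orth, h.eig, h.dens, hB.cmp⟩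
  obtain ⟨C, Fr⟩ := exists_frame hΩ hb
  have hpos : ∀ n, 0 < lam n := (hBES (graphW Ω) tensL C w g lam Fr hB).1
  have hcnt : ∃ K₁ : ℝ, ∀ j : ℕ, (j : ℝ) + 1 ≤ K₁ * GG lam j ^ (3 / 2 : ℝ) := by
    obtain ⟨C₁, hC₁, hc⟩ := hCNT hPWC Ω hΩ hb
    refine ⟨C₁, fun j => ?_⟩
    have h3 := hc w g lam h.basM (2 * j)
    have h4 : (j : ℝ) + 1 ≤ ((2 * j : ℕ) : ℝ) + 1 := by
      push_cast
      have : (0 : ℝ) ≤ j := Nat.cast_nonneg j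
      linarith
    refine h4.trans (h3.trans ?_)
    refine mul_le_mul_of_nonneg_left ?_ hC₁.le
    refine Real.rpow_le_rpow ?_ ?_ (by norm_num)
    · have := hpos (2 * j)
      linarith
    · have := hpos (2 * j + 1)
      unfold GG gg
      linarith
  have hdet : ∀ (om : ℕ → ℝ) (c : ℝ), Good2 lam om c → ∀ ν ε : ℝ, 0 < ν → ε ≠ 0 →
      WellPosed Ω w g om ν ε := by
    intro om c hG ν ε hν hε f hf p hp
    obtain ⟨x, z, k1, k2, k3⟩ := abs_gwp2 hODE hAPR hEXP hDAT hDAT2 hLMI hSEQ hCNV hLIM hTDA hTDB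
      hTDC hTDW hTDF hBES (graphW Ω) tensL C w g lam Fr (hQUA Ω hΩ) hB (rellich_W hΩ hb) hcnt om c
      hG ν ε hν hε f hf p.1 p.2 (mem_graphW.mpr hp)
    refine ⟨x, z, (isSol_iff hΩ.measurableSet hS om ν ε f p.1 x z).mpr k1, fun v Y hv => ?_, ?_⟩
    · exact k2 v Y ((isSol_iff hΩ.measurableSet hS om ν ε f p.1 v Y).mp hv)
    · intro hL hC T hT
      have hC' : Comp tensL w g lam om ν ε f p.1 := by
        obtain ⟨q, hq⟩ := hC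
        refine ⟨q, fun n => ?_⟩
        rw [← hq n, h.eig n p hp, ← inner_tens_eq hΩ.measurableSet (mem_graphW.mpr hp) (g n)]
        ring
      obtain ⟨x', z', B, m1, m2, m3, m4, m5⟩ := k3 hL hC' T hT
      refine ⟨x', z', B, m1, m2, m3, m4, ?_⟩
      filter_upwards [m5] with s hs
      exact ⟨mem_graphW.mp hs.1, hs.2⟩
  refine ⟨hdet, ?_⟩
  intro σ D hσ hD0 Θ _ P _ Z hZ hi hD
  obtain ⟨K₁, hK₁⟩ := hcnt
  filter_upwards [good2_ae hPRN2 hPRL2 lam hpos K₁ hK₁ σ D hσ hD0 Θ P Z hZ hi hD] with θ hθ ν ε hν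
    hε
  obtain ⟨c, hc⟩ := hθ
  exact hdet _ c hc ν ε hν hε

end Pool.Agent.U401.DD
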