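import Mathlib
import Pool.Agent.U401.DD.Asm2
import Pool.Agent.H772R2.NS.PubBridge
import Pool.Agent.H772R2.NSR.PubR

set_option autoImplicit false

/-!
Project DD: public definitions and the theorem in terms of them.
-/

open MeasureTheory ProbabilityTheory Set Filter Topology
open scoped InnerProductSpace

namespace Pool.Agent.U401.DD.P

open H772R2.NS H772R2.NS.Pub H772R2.NSR Pool.Agent.U401.DD

/-- the tensor square `v ⊗ v` -/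
noncomputable def tn (v : R3) : Mat :=
  WithLp.toLp 2 fun p : Fin 3 × Fin 3 => ⟪e p.1, v⟫_ℝ * ⟪e p.2, v⟫_ℝ

/-- the nonlinear term `∫ v ⊗ v : z`, tested with a field with gradient `z` -/
noncomputable def nl {Ω : Set R3} (v : L2 Ω R3) (z : L2 Ω Mat) : ℝ := ∫ x in Ω, ⟪tn (v.fn x), z.fn x⟫_ℝ

/-- `w n` is an orthonormal basis of `V` consisting of eigenfunctions of the Stokes operator in `Ω`
with zero boundary values, `g n = ∇ (w n)`, with increasing eigenvalues `lam n`. -/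
structure Eig (Ω : Set R3) (w : ℕ → L2 Ω R3) (g : ℕ → L2 Ω Mat) (lam : ℕ → ℝ) : Prop where
  mem : ∀ n, (w n, g n) ∈ Pub.H1graph Ω
  orth : ∀ n k, ⟪w n, w k⟫_ℝ = if n = k then 1 else 0
  eig : ∀ n, ∀ p ∈ Pub.H1graph Ω, ⟪g n, p.2⟫_ℝ = lam n * ⟪w n, p.1⟫_ℝ
  dens : ∀ p ∈ Pub.H1graph Ω, p.1 ∈ closure (Submodule.span ℝ (range w) : Set (L2 Ω R3))
  mono : Monotone lam

/-- the right hand side of the equation, tested with `w n`, at the state `v` with gradient `z` -/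
noncomputable def rhsD {Ω : Set R3} (w : ℕ → L2 Ω R3) (g : ℕ → L2 Ω Mat) (om : ℕ → ℝ) (ν ε : ℝ)
    (v : L2 Ω R3) (z : L2 Ω Mat) (f : L2 Ω R3) (n : ℕ) : ℝ :=
  -ν * ⟪g n, z⟫_ℝ + nl v (g n) + ⟪w n, f⟫_ℝ + ε * rot om (fun k => ⟪w k, v⟫_ℝ) n

/-- `u` with gradient `G` is a strong solution on `[0, ∞)` with initial value `u₀` -/
structure Sol (Ω : Set R3) (w : ℕ → L2 Ω R3) (g : ℕ → L2 Ω Mat) (om : ℕ → ℝ) (ν ε : ℝ)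
    (f : ℝ → L2 Ω R3) (u₀ : L2 Ω R3) (u : ℝ → L2 Ω R3) (G : ℝ → L2 Ω Mat) : Prop where
  mem : ∀ t, 0 ≤ t → (u t, G t) ∈ Pub.H1graph Ω
  init : u 0 = u₀
  cont : ContinuousOn u (Ici 0)
  bdd : ∀ T : ℝ, ∃ R : ℝ, ∀ t ∈ Icc 0 T, ‖G t‖ ≤ R
  eqn : ∀ n t, 0 ≤ t → HasDerivWithinAt (fun s => ⟪w n, u s⟫_ℝ)
    (rhsD w g om ν ε (u t) (G t) (f t) n) (Ici 0) t

/-- the right hand side of the equation at time `0` is in `L²` -/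
def Compa (Ω : Set R3) (w : ℕ → L2 Ω R3) (g : ℕ → L2 Ω Mat) (om : ℕ → ℝ) (ν ε : ℝ)
    (f : L2 Ω R3) (p : L2 Ω R3 × L2 Ω Mat) : Prop :=
  ∃ h : L2 Ω R3, ∀ n, rhsD w g om ν ε p.1 p.2 f n = ⟪w n, h⟫_ℝ

/-- `u` and its gradient `G` are in `H¹(0, T; L²)` with derivatives `u'`, `G'`; `u'(t)` is in `V`
with gradient `G'(t)` for almost all `t`; `u'` is bounded in `L²`. So
`∂_t u ∈ L^∞(0, T; H) ∩ L²(0, T; V)`. -/
def TimeD (Ω : Set R3) (T : ℝ) (u : ℝ → L2 Ω R3) (G : ℝ → L2 Ω Mat) : Prop :=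
  ∃ (u' : ℝ → L2 Ω R3) (G' : ℝ → L2 Ω Mat) (B : ℝ), IsH1 T u u' ∧ IsH1 T G G' ∧
    ∀ᵐ s ∂(volume.restrict (Ioc 0 T)), (u' s, G' s) ∈ Pub.H1graph Ω ∧ ‖u' s‖ ≤ B

/-- locally Lipschitz in time -/
def LipT {Ω : Set R3} (f : ℝ → L2 Ω R3) : Prop :=
  ∀ T : ℝ, ∃ L : ℝ, ∀ s ∈ Icc 0 T, ∀ t ∈ Icc 0 T, ‖f s - f t‖ ≤ L * |s - t|

/-- global well-posedness for all data -/
def WellP (Ω : Set R3) (w : ℕ → L2 Ω R3) (g : ℕ → L2 Ω Mat) (om : ℕ → ℝ) (ν ε : ℝ) : Prop :=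
  ∀ f : ℝ → L2 Ω R3, ContinuousOn f (Ici 0) → ∀ p ∈ Pub.H1graph Ω,
    ∃ u G, Sol Ω w g om ν ε f p.1 u G ∧
      (∀ v Y, Sol Ω w g om ν ε f p.1 v Y → ∀ t, 0 ≤ t → v t = u t) ∧
      (LipT f → Compa Ω w g om ν ε (f 0) p → ∀ T : ℝ, 0 < T → TimeD Ω T u G)

theorem tn_eq (v : E3) : (tn (v : R3) : M3) = tens v := by
  have h : ∀ p : Fin 3 × Fin 3, ⟪(e p.1 : E3), v⟫_ℝ * ⟪(e p.2 : E3), v⟫_ℝ = v p.1 * v p.2 := by
    intro p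
    rw [inner_e, inner_e]
  show WithLp.toLp 2 (fun p : Fin 3 × Fin 3 => ⟪(e p.1 : E3), v⟫_ℝ * ⟪(e p.2 : E3), v⟫_ℝ) = _
  rw [funext h]
  rfl

theorem nl_eq {Ω : Set E3} (hΩ : MeasurableSet Ω) {p : L2V Ω × L2M Ω} (hp : p ∈ graphW Ω)
    (z : L2M Ω) : nl (Ω := (Ω : Set R3)) p.1 z = ⟪tensL p.1, z⟫_ℝ := by
  rw [L2.inner_def]
  refine integral_congr_ae (μ := (volume : Measure E3).restrict Ω) ?_
  filter_upwards [tensL_coe hΩ hp] with x hx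
  have hx' : (tensL p.1) x = tens (p.1 x) := hx
  rw [hx']
  have h1 := tn_eq (p.1 x)
  exact congrArg (fun y : M3 => ⟪y, z x⟫_ℝ) h1

theorem mem_pub' {Ω : Set E3} {p : L2V Ω × L2M Ω} :
    p ∈ graphW Ω ↔ p ∈ (Pub.H1graph (Ω : Set R3) : Set (L2V Ω × L2M Ω)) := by
  obtain ⟨v, z⟩ := p
  exact mem_pub

theorem eig_basM {Ω : Set E3} {w : ℕ → L2V Ω} {g : ℕ → L2M Ω} {lam : ℕ → ℝ}
    (h : Eig (Ω : Set R3) w g lam) : BasM (graphW Ω) w g lam where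
  mem n := mem_pub'.mpr (h.mem n)
  orth := orthonormal_iff_ite.mpr h.orth
  eig n p hp := h.eig n p (mem_pub'.mp hp)
  dens p hp := h.dens p (mem_pub'.mp hp)
  mono := h.mono

theorem basM_eig {Ω : Set E3} {w : ℕ → L2V Ω} {g : ℕ → L2M Ω} {lam : ℕ → ℝ}
    (h : BasM (graphW Ω) w g lam) : Eig (Ω : Set R3) w g lam where
  mem n := mem_pub'.mp (h.mem n)
  orth := orthonormal_iff_ite.mp h.orth
  eig n p hp := h.eig n p (mem_pub'.mpr hp)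
  dens p hp := h.dens p (mem_pub'.mpr hp)
  mono := h.mono

theorem rhsD_eq {Ω : Set E3} (hΩ : MeasurableSet Ω) {w : ℕ → L2V Ω} {g : ℕ → L2M Ω} {lam : ℕ → ℝ}
    (h : BasM (graphW Ω) w g lam) (om : ℕ → ℝ) (ν ε : ℝ) {p : L2V Ω × L2M Ω}
    (hp : p ∈ graphW Ω) (f : L2V Ω) (n : ℕ) :
    rhsD (Ω := (Ω : Set R3)) w g om ν ε p.1 p.2 f n =
      -ν * lam n * ⟪w n, p.1⟫_ℝ + ⟪tensL p.1, g n⟫_ℝ + ⟪w n, f⟫_ℝ +
        ε * rot om (fun k => ⟪w k, p.1⟫_ℝ) n := by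
  have e1 := h.eig n p hp
  have e2 := nl_eq hΩ hp (g n)
  have e3 : rhsD (Ω := (Ω : Set R3)) w g om ν ε p.1 p.2 f n =
      -ν * ⟪g n, p.2⟫_ℝ + nl (Ω := (Ω : Set R3)) p.1 (g n) + ⟪w n, f⟫_ℝ +
        ε * rot om (fun k => ⟪w k, p.1⟫_ℝ) n := rfl
  rw [e3, e1, e2]
  ring

theorem sol_iff {Ω : Set E3} (hΩ : MeasurableSet Ω) {w : ℕ → L2V Ω} {g : ℕ → L2M Ω}
    {lam : ℕ → ℝ} (h : BasM (graphW Ω) w g lam) (om : ℕ → ℝ) (ν ε : ℝ) (f : ℝ → L2V Ω)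
    (u₀ : L2V Ω) (u : ℝ → L2V Ω) (G : ℝ → L2M Ω) :
    Sol (Ω : Set R3) w g om ν ε f u₀ u G ↔ IsSolA (graphW Ω) tensL w g lam om ν ε f u₀ u G := by
  constructor
  · intro hs
    refine ⟨fun t ht => mem_pub'.mpr (hs.mem t ht), hs.init, hs.cont, hs.bdd, ?_⟩
    intro n t ht
    have h1 := hs.eqn n t ht
    rw [rhsD_eq hΩ h om ν ε (p := (u t, G t)) (mem_pub'.mpr (hs.mem t ht)) (f t) n] at h1
    exact h1
  · intro hs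
    refine ⟨fun t ht => mem_pub'.mp (hs.mem t ht), hs.init, hs.cont, hs.bdd, ?_⟩
    intro n t ht
    have h1 := hs.eqn n t ht
    rw [rhsD_eq hΩ h om ν ε (p := (u t, G t)) (hs.mem t ht) (f t) n]
    exact h1

theorem main3 (hCPX : S_CPX) (hSIG : S_SIG) (hBDC : S_BDC) (hBDC2 : S_BDC2) (hHB2 : S_HB2)
    (hETA2 : S_ETA2) (hKEP2 : S_KEP2) (hRHS : S_RHS) (hRHS2 : S_RHS2) (hDER : S_DER)
    (hDRA2 : S_DRA2) (hENG : S_ENG) (hGRW : S_GRW) (hAPA2 : S_APA2)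
    (hODE : S_ODE) (hEXP : S_EXP) (hDAT : S_DAT) (hDAT2 : S_DAT2) (hLMI : S_LMI)
    (hSEQ : S_SEQ) (hCNV : S_CNV) (hLIM : S_LIM) (hBES : S_BES) (hQUA : S_QUA)
    (hTDA : S_TDA) (hTDB : S_TDB) (hTDC : S_TDC) (hTDW : S_TDW) (hTDF : S_TDF)
    (hPRN2 : S_PRN2) (hPRL2 : S_PRL2)
    (hMIN : S_MIN) (hBAS : S_BAS) (hMMX : S_MMX) (hTST : S_TST) (hPWC : S_PWC) (hCNT : S_CNT)
    (hCMP : S_CMP)
    (Ω : Set E3) (hΩ : IsOpen Ω) (hb : Bornology.IsBounded Ω) (hne : Ω.Nonempty) :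
    (∃ (w : ℕ → L2V Ω) (g : ℕ → L2M Ω) (lam : ℕ → ℝ), Eig (Ω : Set R3) w g lam) ∧
    ∀ (w : ℕ → L2V Ω) (g : ℕ → L2M Ω) (lam : ℕ → ℝ), Eig (Ω : Set R3) w g lam →
      (∀ (om : ℕ → ℝ) (c : ℝ), Good2 lam om c → ∀ ν ε : ℝ, 0 < ν → ε ≠ 0 →
        WellP (Ω : Set R3) w g om ν ε) ∧
      ∀ σ D : ℝ, 21 / 2 < σ → 0 ≤ D → ∀ (Θ : Type) [MeasurableSpace Θ] (P : Measure Θ)
        [IsProbabilityMeasure P] (Z : ℕ → Θ → ℝ), (∀ j, Measurable (Z j)) → iIndepFun Z P →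
        DensB P Z D → ∀ᵐ θ ∂P, ∀ ν ε : ℝ, 0 < ν → ε ≠ 0 →
          WellP (Ω : Set R3) w g (fun j => GG lam j ^ σ * Z j θ) ν ε := by
  have hAPR : S_APR2 := hAPA2 (hDRA2 hCPX hSIG hBDC hBDC2 hHB2 hETA2 hKEP2 hRHS hRHS2 hDER)
    hENG hGRW
  obtain ⟨h1, h2⟩ := hCMP hMIN hBAS hMMX hTST hPWC hCNT Ω hΩ hb hne
  refine ⟨?_, ?_⟩
  · obtain ⟨w, g, lam, h⟩ := h1
    exact ⟨w, g, lam, basM_eig h⟩
  intro w g lam h
  have hM : BasM (graphW Ω) w g lam := eig_basM h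
  have hB : Bas (graphW Ω) w g lam := h2 w g lam hM
  obtain ⟨C, Fr⟩ := exists_frame hΩ hb
  have hpos : ∀ n, 0 < lam n := (hBES (graphW Ω) tensL C w g lam Fr hB).1
  have hcnt : ∃ K₁ : ℝ, ∀ j : ℕ, (j : ℝ) + 1 ≤ K₁ * GG lam j ^ (3 / 2 : ℝ) := by
    obtain ⟨C₁, hC₁, hc⟩ := hCNT hPWC Ω hΩ hb
    refine ⟨C₁, fun j => ?_⟩
    have h3 := hc w g lam hM (2 * j)
    have h4 : (j : ℝ) + 1 ≤ ((2 * j : ℕ) : ℝ) + 1 := by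
      push_cast
      have : (0 : ℝ) ≤ j := Nat.cast_nonneg j
      linarith
    refine h4.trans (h3.trans ?_)
    refine mul_le_mul_of_nonneg_left ?_ hC₁.le
    refine Real.rpow_le_rpow ?_ ?_ (by norm_num)
    · have := hpos (2 * j)
      linarith
    · have := hpos (2 * j + 1)
      unfold GG gg
      linarith
  have hdet : ∀ (om : ℕ → ℝ) (c : ℝ), Good2 lam om c → ∀ ν ε : ℝ, 0 < ν → ε ≠ 0 →
      WellP (Ω : Set R3) w g om ν ε := by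
    intro om c hG ν ε hν hε f hf p hp
    obtain ⟨x, z, k1, k2, k3⟩ := abs_gwp2 hODE hAPR hEXP hDAT hDAT2 hLMI hSEQ hCNV hLIM hTDA hTDB
      hTDC hTDW hTDF hBES (graphW Ω) tensL C w g lam Fr (hQUA Ω hΩ) hB (rellich_W hΩ hb) hcnt om c
      hG ν ε hν hε f hf p.1 p.2 (mem_pub'.mpr hp)
    refine ⟨x, z, (sol_iff hΩ.measurableSet hM om ν ε f p.1 x z).mpr k1, fun v Y hv => ?_, ?_⟩
    · exact k2 v Y ((sol_iff hΩ.measurableSet hM om ν ε f p.1 v Y).mp hv)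
    · intro hL hC T hT
      have hC' : Comp tensL w g lam om ν ε f p.1 := by
        obtain ⟨q, hq⟩ := hC
        refine ⟨q, fun n => ?_⟩
        have h5 := hq n
        rw [rhsD_eq hΩ.measurableSet hM om ν ε (mem_pub'.mpr hp) (f 0) n] at h5
        exact h5
      obtain ⟨x', z', B, m1, m2, m3, m4, m5⟩ := k3 hL hC' T hT
      refine ⟨x', z', B, ⟨m1, m3⟩, ⟨m2, m4⟩, ?_⟩
      filter_upwards [m5] with s hs
      exact ⟨mem_pub'.mp hs.1, hs.2⟩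
  refine ⟨hdet, ?_⟩
  intro σ D hσ hD0 Θ _ P _ Z hZ hi hD
  obtain ⟨K₁, hK₁⟩ := hcnt
  filter_upwards [good2_ae hPRN2 hPRL2 lam hpos K₁ hK₁ σ D hσ hD0 Θ P Z hZ hi hD] with θ hθ ν ε hν
    hε
  obtain ⟨c, hc⟩ := hθ
  exact hdet _ c hc ν ε hν hε

end Pool.Agent.U401.DD.P
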