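import Mathlib
import Pool.Agent.U401.DD.Stm4

set_option autoImplicit false

/-!
Project DE: energy equality for all weak solutions of the perturbed equations (statements).
-/

open MeasureTheory ProbabilityTheory Set Filter Topology
open scoped InnerProductSpace

namespace Pool.Agent.U401.DD

open H772R2.NSR

/-- the symmetric array with plane weights `φ` -/
noncomputable def sigw (bet : ℕ → ℕ → ℕ → ℝ) (φ : ℕ → ℝ) (k l n : ℕ) : ℝ :=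
  2 / 3 * (φ (n / 2) * bet k l n + φ (k / 2) * bet l n k + φ (l / 2) * bet n k l)

/-- half the indicator function of the first `N` planes -/
noncomputable def cut (N j : ℕ) : ℝ := if j < N then 1 / 2 else 0

open Classical in
/-- the coefficients of the normal form -/
noncomputable def hw (bet : ℕ → ℕ → ℕ → ℝ) (lam om : ℕ → ℝ) (ε : ℝ) (N : ℕ) (κ l m : Ix) : ℂ :=
  if far2 lam om κ l m then cx (sigw bet (cut N)) κ l m * (Complex.I / (ε * Lm om κ l m)) else 0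

open Classical in
/-- the part which is not removed -/
noncomputable def restw (bet : ℕ → ℕ → ℕ → ℝ) (lam om : ℕ → ℝ) (N : ℕ) (κ l m : Ix) : ℂ :=
  if far2 lam om κ l m then 0 else cx (sigw bet (cut N)) κ l m

open Classical in
/-- weights -/
noncomputable def wt4 (lam : ℕ → ℝ) (κ l m : Ix) : ℝ :=
  mxG lam κ l m ^ (-(11 / 4) : ℝ) +
    (if l = bar κ then GG lam m.1 ^ (-(5 / 4) : ℝ) else 0) +
    (if m = bar κ then GG lam l.1 ^ (-(5 / 4) : ℝ) else 0) +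
    (if m = bar l then GG lam κ.1 ^ (-(5 / 4) : ℝ) else 0)

/-- (BW) bounds of the complex coefficients -/
def S_BW : Prop := ∀ (bet : ℕ → ℕ → ℕ → ℝ) (lam : ℕ → ℝ) (K : ℝ), Dat2 bet lam K →
  ∃ K' : ℝ, 0 ≤ K' ∧ ∀ (N : ℕ) (κ l m : Ix),
    ((κ.1 < N ∧ l.1 < N ∧ m.1 < N) ∨ (N ≤ κ.1 ∧ N ≤ l.1 ∧ N ≤ m.1) →
      cx (sigw bet (cut N)) κ l m = 0) ∧
    ‖cx (sigw bet (cut N)) κ l m‖ ^ 4 ≤ K' * mxG lam κ l m ^ 5 ∧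
    ‖cx (sigw bet (cut N)) κ (bar κ) m‖ ^ 4 ≤ K' * (GG lam κ.1 ^ 3 * GG lam m.1 ^ 2) ∧
    ‖cx (sigw bet (cut N)) κ m (bar κ)‖ ^ 4 ≤ K' * (GG lam κ.1 ^ 3 * GG lam m.1 ^ 2) ∧
    ‖cx (sigw bet (cut N)) m κ (bar κ)‖ ^ 4 ≤ K' * (GG lam κ.1 ^ 3 * GG lam m.1 ^ 2)

/-- (HN) the coefficients of the normal form -/
def S_HN : Prop := S_BW → ∀ (bet : ℕ → ℕ → ℕ → ℝ) (lam om : ℕ → ℝ) (K c ε : ℝ),
  Dat2 bet lam K → Good2 lam om c → ε ≠ 0 →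
    (∀ κ l m : Ix, far2 lam om κ l m → Lm om κ l m ≠ 0) ∧
    ∃ B : ℝ, 0 ≤ B ∧ ∀ (N : ℕ) (Γ : ℝ), 1 ≤ Γ → (∀ j, N ≤ j → Γ ≤ GG lam j) → ∀ κ l m : Ix,
      ‖hw bet lam om ε N κ l m‖ * mxG lam κ l m ≤ B * Γ ^ (-(1 / 3) : ℝ) * wt4 lam κ l m

/-- (ETA4) sums with the weights -/
def S_ETA4 : Prop := ∀ (lam : ℕ → ℝ) (K : ℝ), (∀ n, 0 < lam n) →
  (∀ j : ℕ, (j : ℝ) + 1 ≤ K * GG lam j ^ (3 / 2 : ℝ)) → ∃ B : ℝ, 0 ≤ B ∧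
  ∀ (N : ℕ) (x y : Ix → ℝ) (X Z : ℝ), (∀ κ, 0 ≤ x κ) → (∀ κ, 0 ≤ y κ) →
    (∀ κ, x (bar κ) = x κ) → 0 ≤ Z → ∑ κ ∈ IxN N, x κ ^ 2 ≤ X → ∑ κ ∈ IxN N, y κ ^ 2 ≤ Z ^ 2 →
    ∑ κ ∈ IxN N, ∑ l ∈ IxN N, ∑ m ∈ IxN N, wt4 lam κ l m * (x κ * x l * x m) ≤
      B * (X * Real.sqrt X) ∧
    ∑ κ ∈ IxN N, ∑ l ∈ IxN N, ∑ m ∈ IxN N,
      wt4 lam κ l m * (y κ * x l * x m + x κ * y l * x m + x κ * x l * y m) ≤ B * (X * Z)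

/-- (KN) the part which is not removed -/
def S_KN : Prop := S_BW → ∀ (bet : ℕ → ℕ → ℕ → ℝ) (lam om : ℕ → ℝ) (K c : ℝ),
  Dat2 bet lam K → Good2 lam om c → ∃ (B : ℝ) (N₀ : ℕ), 0 ≤ B ∧ ∀ N : ℕ, N₀ ≤ N → ∀ Γ : ℝ, 1 ≤ Γ →
    (∀ j, N ≤ j → Γ ≤ GG lam j) → ∀ (M : ℕ) (a : ℕ → ℝ) (X : ℝ), Mm M a ≤ X →
      ‖form M (restw bet lam om N) (uu a)‖ ≤
        B * Real.sqrt X * Γ ^ (-(1 / 12) : ℝ) * ∑ n ∈ Finset.range (2 * M), GG lam (n / 2) * a n ^ 2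

/-- (SIGW) the symmetric form of the flux -/
def S_SIGW : Prop := ∀ (bet : ℕ → ℕ → ℕ → ℝ) (φ : ℕ → ℝ) (M : ℕ) (a : ℕ → ℝ),
    ∑ n ∈ Finset.range (2 * M), 2 * φ (n / 2) * a n * quad bet M a n =
      ∑ k ∈ Finset.range (2 * M), ∑ l ∈ Finset.range (2 * M), ∑ n ∈ Finset.range (2 * M),
        sigw bet φ k l n * (a k * a l * a n)

/-- the functions `a n` are primitives on `[0, T]` of `b n + ε rot` -/
def Prim (om : ℕ → ℝ) (ε : ℝ) (M : ℕ) (T : ℝ) (a b : ℕ → ℝ → ℝ) : Prop :=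
  ∀ n < 2 * M, IntervalIntegrable (b n) volume 0 T ∧ ∀ t ∈ Icc 0 T,
    a n t = a n 0 + ∫ s in (0 : ℝ)..t, (b n s + ε * rot om (fun k => a k s) n)

/-- (DRI) the integrated derivative of the correction -/
def S_DRI : Prop := ∀ (h : Ix → Ix → Ix → ℂ) (om : ℕ → ℝ) (ε : ℝ) (M : ℕ) (T : ℝ)
  (a b : ℕ → ℝ → ℝ), 0 ≤ T → Prim om ε M T a b →
    IntervalIntegrable (fun s => dform M h (uu fun k => a k s) (uu fun k => b k s)) volume 0 T ∧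
    form M h (uu fun k => a k T) - form M h (uu fun k => a k 0) =
      ∫ s in (0 : ℝ)..T,
        (form M (fun κ l m => h κ l m * (-Complex.I * (ε * Lm om κ l m))) (uu fun k => a k s) +
          dform M h (uu fun k => a k s) (uu fun k => b k s))

/-- (FLX) the flux through the frequency `N` is small -/
def S_FLX : Prop := S_CPX → S_SIGW → S_BW → S_HN → S_ETA4 → S_KN → S_DRI →
  ∀ (bet : ℕ → ℕ → ℕ → ℝ) (lam om : ℕ → ℝ) (K c ε : ℝ), Dat2 bet lam K → Good2 lam om c → ε ≠ 0 →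
  ∀ X Y : ℝ, ∃ (B : ℝ) (N₀ : ℕ), ∀ N : ℕ, N₀ ≤ N → ∀ Γ : ℝ, 1 ≤ Γ → (∀ j, N ≤ j → Γ ≤ GG lam j) →
    ∀ (M : ℕ) (T : ℝ) (a b : ℕ → ℝ → ℝ) (ζ : ℝ → ℝ), N ≤ M → 0 ≤ T → Prim om ε M T a b →
      (∀ t ∈ Icc 0 T, Mm M (fun k => a k t) ≤ X) → IntervalIntegrable ζ volume 0 T →
      (∀ s, 0 ≤ ζ s) → ∫ s in (0 : ℝ)..T, ζ s ≤ Y →
      (∀ᵐ s ∂(volume.restrict (Ioc 0 T)),
        ∑ κ ∈ IxN M, (‖uu (fun k => b k s) κ‖ / GG lam κ.1) ^ 2 ≤ ζ s ^ 2) →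
      (∫ s in (0 : ℝ)..T, ∑ n ∈ Finset.range (2 * M), GG lam (n / 2) * a n s ^ 2) ≤ Y →
      |∫ s in (0 : ℝ)..T, ∑ n ∈ Finset.range (2 * N), a n s * quad bet M (fun k => a k s) n| ≤
        B * Γ ^ (-(1 / 12) : ℝ)

section weak

variable {H K : Type} [NormedAddCommGroup H] [InnerProductSpace ℝ H] [CompleteSpace H]
  [NormedAddCommGroup K] [InnerProductSpace ℝ K] [CompleteSpace K]

/-- weak solutions on `[0, T]`; no energy inequality -/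
structure WeakA (W : Submodule ℝ (H × K)) (m : H → K) (w : ℕ → H) (g : ℕ → K) (lam om : ℕ → ℝ)
    (ν ε T : ℝ) (f : ℝ → H) (x : ℝ → H) (z : ℝ → K) : Prop where
  bdd : ∃ B : ℝ, ∀ t ∈ Icc 0 T, ‖x t‖ ≤ B
  cls : ∀ t ∈ Icc 0 T, x t ∈ closure (Submodule.span ℝ (range w) : Set H)
  wcont : ∀ v : H, ContinuousOn (fun t => ⟪v, x t⟫_ℝ) (Icc 0 T)
  grad : ∀ᵐ t ∂(volume.restrict (Ioc 0 T)), (x t, z t) ∈ W
  gradL2 : MemLp z 2 (volume.restrict (Ioc 0 T))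
  eqn : ∀ n, ∀ t ∈ Icc 0 T, ⟪w n, x t⟫_ℝ - ⟪w n, x 0⟫_ℝ = ∫ s in (0 : ℝ)..t,
    (-ν * lam n * ⟪w n, x s⟫_ℝ + ⟪m (x s), g n⟫_ℝ + ⟪w n, f s⟫_ℝ +
      ε * rot om (fun k => ⟪w k, x s⟫_ℝ) n)

/-- (WFA) basic facts on weak solutions -/
def S_WFA : Prop := S_EXP → ∀ {H K : Type} [NormedAddCommGroup H]
  [InnerProductSpace ℝ H] [CompleteSpace H] [NormedAddCommGroup K] [InnerProductSpace ℝ K]
  [CompleteSpace K]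
  (W : Submodule ℝ (H × K)) (m : H → K) (C : ℝ) (w : ℕ → H) (g : ℕ → K) (lam : ℕ → ℝ),
  Frame W m C → Quad W m → Bas W w g lam → ∀ (om : ℕ → ℝ) (ν ε T : ℝ) (f : ℝ → H) (x : ℝ → H)
    (z : ℝ → K), 0 ≤ T → MemLp f 2 (volume.restrict (Ioc 0 T)) →
    WeakA W m w g lam om ν ε T f x z →
    -- the right hand side is integrable
    (∀ M : ℕ, Prim om ε M T (fun n t => ⟪w n, x t⟫_ℝ)
      (fun n s => -ν * lam n * ⟪w n, x s⟫_ℝ + ⟪m (x s), g n⟫_ℝ + ⟪w n, f s⟫_ℝ)) ∧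
    -- the square sum of the right hand side
    (∃ ζ : ℝ → ℝ, (∀ s, 0 ≤ ζ s) ∧ IntervalIntegrable ζ volume 0 T ∧
      ∀ᵐ s ∂(volume.restrict (Ioc 0 T)), ∀ M : ℕ, ∑ κ ∈ IxN M, (‖uu (fun n =>
        -ν * lam n * ⟪w n, x s⟫_ℝ + ⟪m (x s), g n⟫_ℝ + ⟪w n, f s⟫_ℝ) κ‖ / GG lam κ.1) ^ 2 ≤
          ζ s ^ 2) ∧
    -- the energy
    (∃ Y : ℝ, ∀ M : ℕ, ∀ t ∈ Icc 0 T,
      (∫ s in (0 : ℝ)..t, ∑ n ∈ Finset.range (2 * M), GG lam (n / 2) * ⟪w n, x s⟫_ℝ ^ 2) ≤ Y) ∧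
    -- convergence of the cut-off flux
    ∀ N : ℕ, ∀ t ∈ Icc 0 T, Tendsto (fun M : ℕ => ∫ s in (0 : ℝ)..t,
      ∑ n ∈ Finset.range (2 * N), ⟪w n, x s⟫_ℝ * quad (betf m w g) M (fun k => ⟪w k, x s⟫_ℝ) n)
      atTop (𝓝 (∫ s in (0 : ℝ)..t, ∑ n ∈ Finset.range (2 * N), ⟪w n, x s⟫_ℝ * ⟪m (x s), g n⟫_ℝ))

/-- (WEQ) energy equality from a small flux -/
def S_WEQ : Prop := S_WFA → S_EXP → ∀ {H K : Type} [NormedAddCommGroup H]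
  [InnerProductSpace ℝ H] [CompleteSpace H] [NormedAddCommGroup K] [InnerProductSpace ℝ K]
  [CompleteSpace K]
  (W : Submodule ℝ (H × K)) (m : H → K) (C : ℝ) (w : ℕ → H) (g : ℕ → K) (lam : ℕ → ℝ),
  Frame W m C → Quad W m → Bas W w g lam → ∀ (om : ℕ → ℝ) (ν ε T : ℝ) (f : ℝ → H) (x : ℝ → H)
    (z : ℝ → K), 0 ≤ T → MemLp f 2 (volume.restrict (Ioc 0 T)) →
    WeakA W m w g lam om ν ε T f x z → ∀ t ∈ Icc 0 T,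
    Tendsto (fun N : ℕ => ∫ s in (0 : ℝ)..t,
      ∑ n ∈ Finset.range (2 * N), ⟪w n, x s⟫_ℝ * ⟪m (x s), g n⟫_ℝ) atTop (𝓝 0) →
      ‖x t‖ ^ 2 / 2 + ν * (∫ s in (0 : ℝ)..t, ‖z s‖ ^ 2) =
        ‖x 0‖ ^ 2 / 2 + ∫ s in (0 : ℝ)..t, ⟪f s, x s⟫_ℝ

end weak

end Pool.Agent.U401.DD
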