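import Mathlib
import Pool.Agent.U401.DD.Stm5
import Pool.Agent.U401.DD.PubD

set_option autoImplicit false

/-!
Project EE: energy equality for all weak solutions of the perturbed equations; assembly.
-/

open MeasureTheory ProbabilityTheory Set Filter Topology
open scoped InnerProductSpace

namespace Pool.Agent.U401.DD

open H772R2.NSR

theorem abs_eeq (hCPX : S_CPX) (hSIGW : S_SIGW) (hBW : S_BW) (hHN : S_HN) (hETA4 : S_ETA4)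
    (hKN : S_KN) (hDRI : S_DRI) (hFLX : S_FLX) (hWFA : S_WFA) (hWEQ : S_WEQ) (hEXP : S_EXP)
    (hDAT : S_DAT) (hDAT2 : S_DAT2) (hLMI : S_LMI) (hBES : S_BES)
    {H K : Type} [NormedAddCommGroup H] [InnerProductSpace ℝ H]
    [CompleteSpace H] [NormedAddCommGroup K] [InnerProductSpace ℝ K] [CompleteSpace K]
    (W : Submodule ℝ (H × K)) (m : H → K) (C : ℝ) (w : ℕ → H) (g : ℕ → K) (lam : ℕ → ℝ)
    (Fr : Frame W m C) (hQ : Quad W m) (hB : Bas W w g lam)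
    (hR : ∀ R : ℝ, TotallyBounded {v : H | ∃ z : K, (v, z) ∈ W ∧ ‖z‖ ≤ R})
    (hcnt : ∃ K₁ : ℝ, ∀ j : ℕ, (j : ℝ) + 1 ≤ K₁ * GG lam j ^ (3 / 2 : ℝ))
    (om : ℕ → ℝ) (c : ℝ) (hG : Good2 lam om c) (ν ε : ℝ) (hε : ε ≠ 0) (T : ℝ) (hT : 0 ≤ T)
    (f : ℝ → H) (hf : MemLp f 2 (volume.restrict (Ioc 0 T))) (x : ℝ → H) (z : ℝ → K)
    (hx : WeakA W m w g lam om ν ε T f x z) (t : ℝ) (ht : t ∈ Icc 0 T) :
    ‖x t‖ ^ 2 / 2 + ν * (∫ s in (0 : ℝ)..t, ‖z s‖ ^ 2) =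
      ‖x 0‖ ^ 2 / 2 + ∫ s in (0 : ℝ)..t, ⟪f s, x s⟫_ℝ := by
  obtain ⟨K₀, hD0⟩ := hDAT hEXP W m C w g lam Fr hQ hB
  obtain ⟨K', hD⟩ := hDAT2 hEXP W m C w g lam K₀ Fr hQ hB hD0 hcnt
  obtain ⟨hpos, -, hbm⟩ := hBES W m C w g lam Fr hB
  have hlam : Tendsto lam atTop atTop := hLMI W m C w g lam Fr hB hR
  refine hWEQ hWFA hEXP W m C w g lam Fr hQ hB om ν ε T f x z hT hf hx t ht ?_
  obtain ⟨hP, ⟨ζ, hζ0, hζi, hζ⟩, ⟨Y, hY⟩, hconv⟩ :=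
    hWFA hEXP W m C w g lam Fr hQ hB om ν ε T f x z hT hf hx
  obtain ⟨Bx, hBx⟩ := hx.bdd
  obtain ⟨B, N₀, hF⟩ := hFLX hCPX hSIGW hBW hHN hETA4 hKN hDRI (betf m w g) lam om K' c ε hD hG hε
    (Bx ^ 2) (max Y (∫ s in (0 : ℝ)..T, ζ s))
  have hGG : Tendsto (fun j => GG lam j) atTop atTop := by
    refine tendsto_atTop_mono (f := fun j : ℕ => lam (2 * j)) (fun j => ?_)
      (hlam.comp (tendsto_id.const_mul_atTop' (by norm_num)))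
    have := hpos (2 * j + 1)
    unfold GG gg
    linarith
  rw [Metric.tendsto_atTop]
  intro η hη
  obtain ⟨Γ, hΓ1, hΓ⟩ : ∃ Γ : ℝ, 1 ≤ Γ ∧ B * Γ ^ (-(1 / 12) : ℝ) < η := by
    have h1 : Tendsto (fun Γ : ℝ => B * Γ ^ (-(1 / 12) : ℝ)) atTop (𝓝 (B * 0)) :=
      (tendsto_rpow_neg_atTop (by norm_num : (0 : ℝ) < 1 / 12)).const_mul B
    rw [mul_zero] at h1
    obtain ⟨Γ, h2, h3⟩ := ((h1.eventually_lt_const hη).and (eventually_ge_atTop (1 : ℝ))).exists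
    exact ⟨Γ, h3, h2⟩
  obtain ⟨N₁, hN₁⟩ := eventually_atTop.mp (hGG.eventually_ge_atTop Γ)
  refine ⟨max N₀ N₁, fun N hN => ?_⟩
  have key : |∫ s in (0 : ℝ)..t, ∑ n ∈ Finset.range (2 * N), ⟪w n, x s⟫_ℝ * ⟪m (x s), g n⟫_ℝ| ≤
      B * Γ ^ (-(1 / 12) : ℝ) := by
    refine le_of_tendsto ((hconv N t ht).abs) ?_
    filter_upwards [eventually_ge_atTop N] with M hM
    refine hF N ((le_max_left _ _).trans hN) Γ hΓ1
      (fun j hj => hN₁ j (((le_max_right _ _).trans hN).trans hj)) M t (fun n s => ⟪w n, x s⟫_ℝ)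
      (fun n s => -ν * lam n * ⟪w n, x s⟫_ℝ + ⟪m (x s), g n⟫_ℝ + ⟪w n, f s⟫_ℝ) ζ hM ht.1 ?_ ?_ ?_
      hζ0 ?_ ?_ ?_
    · intro n hn
      obtain ⟨q1, q2⟩ := hP M n hn
      refine ⟨q1.mono_set ?_, fun s hs => q2 s ⟨hs.1, hs.2.trans ht.2⟩⟩
      rw [uIcc_of_le ht.1, uIcc_of_le hT]
      exact Icc_subset_Icc_right ht.2
    · intro s hs
      refine (hbm (x s) M).trans ?_
      exact pow_le_pow_left₀ (norm_nonneg _) (hBx s ⟨hs.1, hs.2.trans ht.2⟩) 2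
    · refine hζi.mono_set ?_
      rw [uIcc_of_le ht.1, uIcc_of_le hT]
      exact Icc_subset_Icc_right ht.2
    · refine le_trans ?_ (le_max_right _ _)
      exact intervalIntegral.integral_mono_interval le_rfl ht.1 ht.2
        (Eventually.of_forall fun s => hζ0 s) hζi
    · have h5 : ∀ᵐ s ∂(volume.restrict (Ioc 0 t)), ∀ M : ℕ, ∑ κ ∈ IxN M, (‖uu (fun n =>
          -ν * lam n * ⟪w n, x s⟫_ℝ + ⟪m (x s), g n⟫_ℝ + ⟪w n, f s⟫_ℝ) κ‖ / GG lam κ.1) ^ 2 ≤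
            ζ s ^ 2 := ae_restrict_of_ae_restrict_of_subset (Ioc_subset_Ioc_right ht.2) hζ
      filter_upwards [h5] with s hs
      exact hs M
    · exact (hY M t ht).trans (le_max_left _ _)
  rw [Real.dist_eq, sub_zero]
  exact key.trans_lt hΓ

end Pool.Agent.U401.DD

namespace Pool.Agent.U401.DD.P

open H772R2.NS H772R2.NS.Pub H772R2.NSR Pool.Agent.U401.DD

/-- `u` with gradient `G` is a weak solution on `[0, T]`: bounded in `H` and weakly continuous,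
in `L²(0, T; V)`, the equation tested with every `w n` and integrated in time. No energy inequality
is assumed. -/
structure WeakSol (Ω : Set R3) (w : ℕ → L2 Ω R3) (g : ℕ → L2 Ω Mat) (om : ℕ → ℝ) (ν ε T : ℝ)
    (f : ℝ → L2 Ω R3) (u : ℝ → L2 Ω R3) (G : ℝ → L2 Ω Mat) : Prop where
  bdd : ∃ B : ℝ, ∀ t ∈ Icc 0 T, ‖u t‖ ≤ B
  sol : ∀ t ∈ Icc 0 T, u t ∈ Pub.L2sigma Ω
  wcont : ∀ v : L2 Ω R3, ContinuousOn (fun t => ⟪v, u t⟫_ℝ) (Icc 0 T)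
  grad : ∀ᵐ t ∂(volume.restrict (Ioc 0 T)), (u t, G t) ∈ Pub.H1graph Ω
  gradL2 : MemLp G 2 (volume.restrict (Ioc 0 T))
  eqn : ∀ n, ∀ t ∈ Icc 0 T, ⟪w n, u t⟫_ℝ - ⟪w n, u 0⟫_ℝ =
    ∫ s in (0 : ℝ)..t, rhsD w g om ν ε (u s) (G s) (f s) n

/-- every weak solution satisfies the energy equality -/
def EnergyEq (Ω : Set R3) (w : ℕ → L2 Ω R3) (g : ℕ → L2 Ω Mat) (om : ℕ → ℝ) (ν ε : ℝ) : Prop :=
  ∀ (T : ℝ) (f : ℝ → L2 Ω R3), 0 ≤ T → MemLp f 2 (volume.restrict (Ioc 0 T)) →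
    ∀ u G, WeakSol Ω w g om ν ε T f u G → ∀ t ∈ Icc 0 T,
      ‖u t‖ ^ 2 / 2 + ν * (∫ s in (0 : ℝ)..t, ‖G s‖ ^ 2) =
        ‖u 0‖ ^ 2 / 2 + ∫ s in (0 : ℝ)..t, ⟪f s, u s⟫_ℝ

theorem sigma_cls {Ω : Set E3} (hΩ : MeasurableSet Ω) {w : ℕ → L2V Ω} {g : ℕ → L2M Ω}
    {lam : ℕ → ℝ} (h : BasM (graphW Ω) w g lam) {v : L2V Ω}
    (hv : v ∈ (Pub.L2sigma (Ω : Set R3) : Set (L2V Ω))) :
    v ∈ closure (Submodule.span ℝ (range w) : Set (L2V Ω)) := by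
  have hv' : v ∈ H772R2.NS.L2sigma (Ω : Set E3) := by
    have h0 := Set.ext_iff.mp (L2sigma_eq (Ω := Ω)) v
    exact h0.mp hv
  refine closure_minimal ?_ isClosed_closure hv'
  rintro q ⟨φ, hφ, hq⟩
  have h1 : MemLp φ 2 (volume.restrict (Ω : Set E3)) := (hφ.memLp 2).restrict _
  have h2 : MemLp (H772R2.NS.jac φ) 2 (volume.restrict (Ω : Set E3)) := (hφ.jac_memLp 2).restrict _
  have h3 : (q, h2.toLp _) ∈ graphW Ω := by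
    refine Submodule.le_topologicalClosure _ ?_
    exact ⟨φ, hφ, hq, h2.coeFn_toLp⟩
  exact h.dens _ h3

theorem weak_abs {Ω : Set E3} (hΩ : MeasurableSet Ω) {w : ℕ → L2V Ω} {g : ℕ → L2M Ω}
    {lam : ℕ → ℝ} (h : BasM (graphW Ω) w g lam) (om : ℕ → ℝ) (ν ε T : ℝ) (f : ℝ → L2V Ω)
    (u : ℝ → L2V Ω) (G : ℝ → L2M Ω) (hs : WeakSol (Ω : Set R3) w g om ν ε T f u G) :
    WeakA (graphW Ω) tensL w g lam om ν ε T f u G where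
  bdd := hs.bdd
  cls t ht := sigma_cls hΩ h (hs.sol t ht)
  wcont := hs.wcont
  grad := by
    filter_upwards [hs.grad] with t ht
    exact mem_pub'.mpr ht
  gradL2 := hs.gradL2
  eqn n t ht := by
    refine (hs.eqn n t ht).trans ?_
    refine intervalIntegral.integral_congr_ae ?_
    have h1 : ∀ᵐ s ∂(volume.restrict (Ioc 0 T)), (u s, G s) ∈ Pub.H1graph (Ω : Set R3) := hs.grad
    rw [ae_restrict_iff' measurableSet_Ioc] at h1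
    filter_upwards [h1] with s hs1 hs2
    rw [uIoc_of_le ht.1] at hs2
    exact rhsD_eq hΩ h om ν ε (p := (u s, G s)) (mem_pub'.mpr (hs1 ⟨hs2.1, hs2.2.trans ht.2⟩))
      (f s) n

theorem main5 (hCPX : S_CPX) (hSIGW : S_SIGW) (hBW : S_BW) (hHN : S_HN) (hETA4 : S_ETA4)
    (hKN : S_KN) (hDRI : S_DRI) (hFLX : S_FLX) (hWFA : S_WFA) (hWEQ : S_WEQ) (hEXP : S_EXP)
    (hDAT : S_DAT) (hDAT2 : S_DAT2) (hLMI : S_LMI) (hBES : S_BES) (hQUA : S_QUA)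
    (hPRN2 : S_PRN2) (hPRL2 : S_PRL2)
    (hMIN : S_MIN) (hBAS : S_BAS) (hMMX : S_MMX) (hTST : S_TST) (hPWC : S_PWC) (hCNT : S_CNT)
    (hCMP : S_CMP)
    (Ω : Set E3) (hΩ : IsOpen Ω) (hb : Bornology.IsBounded Ω) (hne : Ω.Nonempty) :
    (∃ (w : ℕ → L2V Ω) (g : ℕ → L2M Ω) (lam : ℕ → ℝ), Eig (Ω : Set R3) w g lam) ∧
    ∀ (w : ℕ → L2V Ω) (g : ℕ → L2M Ω) (lam : ℕ → ℝ), Eig (Ω : Set R3) w g lam →
      (∀ (om : ℕ → ℝ) (c : ℝ), Good2 lam om c → ∀ ν ε : ℝ, 0 < ν → ε ≠ 0 →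
        EnergyEq (Ω : Set R3) w g om ν ε) ∧
      ∀ σ D : ℝ, 21 / 2 < σ → 0 ≤ D → ∀ (Θ : Type) [MeasurableSpace Θ] (P : Measure Θ)
        [IsProbabilityMeasure P] (Z : ℕ → Θ → ℝ), (∀ j, Measurable (Z j)) → iIndepFun Z P →
        DensB P Z D → ∀ᵐ θ ∂P, ∀ ν ε : ℝ, 0 < ν → ε ≠ 0 →
          EnergyEq (Ω : Set R3) w g (fun j => GG lam j ^ σ * Z j θ) ν ε := by
  obtain ⟨h1, h2⟩ := hCMP hMIN hBAS hMMX hTST hPWC hCNT Ω hΩ hb hne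
  refine ⟨?_, ?_⟩
  · obtain ⟨w, g, lam, h⟩ := h1
    exact ⟨w, g, lam, basM_eig h⟩
  intro w g lam h
  have hM : BasM (graphW Ω) w g lam := eig_basM h
  have hB : Bas (graphW Ω) w g lam := h2 w g lam hM
  obtain ⟨C, Fr⟩ := exists_frame hΩ hb
  have hpos : ∀ n, 0 < lam n := (hBES (graphW Ω) tensL C w g lam Fr hB).1
  have hcnt : ∃ K₁ : ℝ, ∀ j : ℕ, (j : ℝ) + 1 ≤ K₁ * GG lam j ^ (3 / 2 : ℝ) := by
    obtain ⟨C₁, hC₁, hc⟩ := hCNT hPWC Ω hΩ hb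
    refine ⟨C₁, fun j => ?_⟩
    have h3 := hc w g lam hM (2 * j)
    have h4 : (j : ℝ) + 1 ≤ ((2 * j : ℕ) : ℝ) + 1 := by
      push_cast
      have : (0 : ℝ) ≤ j := Nat.cast_nonneg j
      linarith
    refine h4.trans (h3.trans ?_)
    refine mul_le_mul_of_nonneg_left ?_ hC₁.le
    refine Real.rpow_le_rpow ?_ ?_ (by norm_num)
    · have := hpos (2 * j)
      linarith
    · have := hpos (2 * j + 1)
      unfold GG gg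
      linarith
  have hdet : ∀ (om : ℕ → ℝ) (c : ℝ), Good2 lam om c → ∀ ν ε : ℝ, 0 < ν → ε ≠ 0 →
      EnergyEq (Ω : Set R3) w g om ν ε := by
    intro om c hG ν ε hν hε T f hT hf u G hu t ht
    exact abs_eeq hCPX hSIGW hBW hHN hETA4 hKN hDRI hFLX hWFA hWEQ hEXP hDAT hDAT2 hLMI hBES
      (graphW Ω) tensL C w g lam Fr (hQUA Ω hΩ) hB (rellich_W hΩ hb) hcnt om c hG ν ε hε T hT f hf
      u G (weak_abs hΩ.measurableSet hM om ν ε T f u G hu) t ht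
  refine ⟨hdet, ?_⟩
  intro σ D hσ hD0 Θ _ P _ Z hZ hi hD
  obtain ⟨K₁, hK₁⟩ := hcnt
  filter_upwards [good2_ae hPRN2 hPRL2 lam hpos K₁ hK₁ σ D hσ hD0 Θ P Z hZ hi hD] with θ hθ ν ε hν
    hε
  obtain ⟨c, hc⟩ := hθ
  exact hdet _ c hc ν ε hν hε

end Pool.Agent.U401.DD.P
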