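import Mathlib
import Pool.Agent.U401.DD.Stm2
import Pool.Agent.U875.DD.BasCore

set_option autoImplicit false

/-! Project DD (helper401), package BAS (helper875): existence of an eigenbasis with increasing
eigenvalues. -/

open MeasureTheory ProbabilityTheory Set Filter Topology
open scoped InnerProductSpace

namespace Pool.Agent.U401.DD

open H772R2.NSR

theorem t_BAS : S_BAS := by
  intro hMIN H K _ _ _ _ _ _ W m C hF tb hinf
  obtain ⟨w, g, lam, h1, h2, h3, h4, h5⟩ := Pool.Agent.U875.DD.core W hF.closedW tb
    (hMIN W m C hF tb) hinf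
  exact ⟨w, g, lam, h1, h2, h3, h4, h5⟩

end Pool.Agent.U401.DD
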