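import Mathlib
import Pool.Agent.U401.DD.Stm

set_option autoImplicit false

/-!
Project DD, package BES (helper122): Bessel inequalities for the frame.
-/

open MeasureTheory ProbabilityTheory Set Filter Topology
open scoped InnerProductSpace

namespace Pool.Agent.U401.DD

open H772R2.NSR

/-- package BES -/
theorem t_BES : S_BES := by
  intro H K _ _ _ _ _ _ W m C w g lam hF hB
  have e0 : ∀ n k, ⟪g n, g k⟫_ℝ = lam n * ⟪w n, w k⟫_ℝ := fun n k => hB.eig n _ (hB.mem k)
  have e1 : ∀ n, ‖g n‖ ^ 2 = lam n := by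
    intro n
    have h := e0 n n
    rw [real_inner_self_eq_norm_sq, real_inner_self_eq_norm_sq, hB.orth.1 n] at h
    linarith
  have hpos : ∀ n, 0 < lam n := by
    intro n
    have h1 : ‖w n‖ ≤ C * ‖g n‖ := hF.poinc (w n, g n) (hB.mem n)
    rw [hB.orth.1 n] at h1
    have h2 : 0 < ‖g n‖ := by
      rcases (norm_nonneg (g n)).lt_or_eq with h | h
      · exact h
      · rw [← h, mul_zero] at h1
        linarith
    rw [← e1 n]
    positivity
  refine ⟨hpos, ?_, ?_⟩
  · intro p hp N
    have hs : ∀ n, 0 < Real.sqrt (lam n) := fun n => Real.sqrt_pos.2 (hpos n)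
    have horth : Orthonormal ℝ (fun n => (Real.sqrt (lam n))⁻¹ • g n) := by
      constructor
      · intro n
        rw [norm_smul, Real.norm_eq_abs, abs_of_pos (inv_pos.2 (hs n))]
        have h2 : ‖g n‖ = Real.sqrt (lam n) := by
          rw [← e1 n, Real.sqrt_sq (norm_nonneg _)]
        rw [h2]
        exact inv_mul_cancel₀ (hs n).ne'
      · intro n k hnk
        show ⟪(Real.sqrt (lam n))⁻¹ • g n, (Real.sqrt (lam k))⁻¹ • g k⟫_ℝ = 0
        rw [real_inner_smul_left, real_inner_smul_right, e0 n k, hB.orth.2 hnk]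
        ring
    have h := horth.sum_inner_products_le p.2 (s := Finset.range (2 * N))
    refine le_trans (le_of_eq ?_) h
    unfold Dd
    refine Finset.sum_congr rfl fun n _ => ?_
    rw [real_inner_smul_left, hB.eig n p hp, Real.norm_eq_abs, sq_abs]
    have h3 : (Real.sqrt (lam n)) ^ 2 = lam n := Real.sq_sqrt (hpos n).le
    have h4 : (Real.sqrt (lam n))⁻¹ * (lam n * ⟪w n, p.1⟫_ℝ) =
        Real.sqrt (lam n) * ⟪w n, p.1⟫_ℝ := by
      have h5 : (Real.sqrt (lam n))⁻¹ * lam n = Real.sqrt (lam n) := by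
        nth_rewrite 2 [← h3]
        rw [pow_two, ← mul_assoc, inv_mul_cancel₀ (hs n).ne', one_mul]
      rw [← mul_assoc, h5]
    rw [h4, mul_pow, h3]
  · intro v N
    have h := hB.orth.sum_inner_products_le v (s := Finset.range (2 * N))
    refine le_trans (le_of_eq ?_) h
    unfold Mm
    refine Finset.sum_congr rfl fun n _ => ?_
    rw [Real.norm_eq_abs, sq_abs]

end Pool.Agent.U401.DD
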