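import Mathlib
import Pool.Agent.U401.DD.Stm2

set_option autoImplicit false

/-!
Project DD, package CMP: consecutive eigenvalues are comparable, and there are eigenbases (helper312).
-/

open MeasureTheory ProbabilityTheory Set Filter Topology
open scoped InnerProductSpace

namespace Pool.Agent.U401.DD

open H772R2.NSR H772R2.NS

theorem cmp_comb {H K : Type} [NormedAddCommGroup H] [InnerProductSpace ℝ H]
    [NormedAddCommGroup K] [InnerProductSpace ℝ K] (W : Submodule ℝ (H × K)) {n : ℕ}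
    (p : Fin (n + 1) → H × K) (h1 : ∀ i, p i ∈ W) (h2 : ∀ i, (p i).1 ≠ 0)
    (h3 : ∀ i j, i ≠ j → ⟪(p i).1, (p j).1⟫_ℝ = 0) (w : Fin n → H) :
    ∃ q ∈ W, q.1 ≠ 0 ∧ ∀ i, ⟪w i, q.1⟫_ℝ = 0 := by
  obtain ⟨L, hL⟩ : ∃ L : (Fin (n + 1) → ℝ) →ₗ[ℝ] (Fin n → ℝ),
      ∀ c i, L c i = ∑ j, c j * ⟪w i, (p j).1⟫_ℝ := by
    refine ⟨{ toFun := fun c i => ∑ j, c j * ⟪w i, (p j).1⟫_ℝ, map_add' := ?_, map_smul' := ?_ },
      fun _ _ => rfl⟩
    · intro c d
      funext i
      simp only [Pi.add_apply, add_mul, Finset.sum_add_distrib]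
    · intro a c
      funext i
      simp only [Pi.smul_apply, smul_eq_mul, RingHom.id_apply, Finset.mul_sum, mul_assoc]
  have hker : LinearMap.ker L ≠ ⊥ := LinearMap.ker_ne_bot_of_finrank_lt (by simp)
  obtain ⟨c, hc, hc0⟩ := Submodule.exists_mem_ne_zero_of_ne_bot hker
  have hc' : L c = 0 := hc
  obtain ⟨k, hk⟩ := Function.ne_iff.1 hc0
  have hq1 : (∑ j, c j • p j).1 = ∑ j, c j • (p j).1 := by
    rw [Prod.fst_sum]
    rfl
  refine ⟨∑ j, c j • p j, Submodule.sum_mem _ fun j _ => W.smul_mem _ (h1 j), ?_, ?_⟩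
  · intro h0
    have h4 : ⟪(p k).1, (∑ j, c j • p j).1⟫_ℝ = c k * ‖(p k).1‖ ^ 2 := by
      rw [hq1, inner_sum, Finset.sum_eq_single k]
      · rw [real_inner_smul_right, real_inner_self_eq_norm_sq]
      · intro j _ hj
        rw [real_inner_smul_right, h3 k j (Ne.symm hj), mul_zero]
      · intro h
        exact absurd (Finset.mem_univ _) h
    rw [h0, inner_zero_right] at h4
    have h5 : ‖(p k).1‖ ≠ 0 := norm_ne_zero_iff.2 (h2 k)
    have h6 : c k ≠ 0 := hk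
    exact (mul_ne_zero h6 (pow_ne_zero 2 h5)) h4.symm
  · intro i
    rw [hq1, inner_sum]
    have h4 := congrFun hc' i
    rw [hL] at h4
    rw [Pi.zero_apply] at h4
    rw [← h4]
    exact Finset.sum_congr rfl fun j _ => real_inner_smul_right _ _ _

theorem t_CMP : S_CMP := by
  intro hMIN hBAS hMMX hTST hPWC hCNT Ω hΩ hb hne
  obtain ⟨C, hfr⟩ := exists_frame hΩ hb
  obtain ⟨C0, hC0, htst⟩ := hTST Ω hΩ hne
  obtain ⟨C2, hC2, hcnt⟩ := hCNT hPWC Ω hΩ hb
  constructor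
  · refine hBAS hMIN (graphW Ω) _ C hfr (rellich_W hΩ hb) ?_
    intro n w
    obtain ⟨p, h1, h2, h3, _⟩ := htst n
    exact cmp_comb (graphW Ω) p h1 h2 (fun i j hij => (h3 i j hij).1) w
  · intro w g lam hB
    refine ⟨hB.mem, hB.orth, hB.eig, hB.dens, ?_⟩
    have hup : ∀ n : ℕ, lam n ≤ C0 * ((n : ℝ) + 1) ^ (2 / 3 : ℝ) := by
      intro n
      obtain ⟨p, h1, h2, h3, h4⟩ := htst n
      exact hMMX (graphW Ω) _ C w g lam hfr hB n _ p h1 h2 h3 h4
    have hlow := hcnt w g lam hB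
    have h0 : 0 < lam 0 := by
      have e1 := hB.eig 0 (w 0, g 0) (hB.mem 0)
      simp only [real_inner_self_eq_norm_sq] at e1
      have e2 : ‖w 0‖ = 1 := hB.orth.1 0
      have e3 := hfr.poinc (w 0, g 0) (hB.mem 0)
      simp only at e3
      rw [e2] at e1 e3
      rw [one_pow, mul_one] at e1
      rw [← e1]
      have e4 : ‖g 0‖ ≠ 0 := by
        intro h
        rw [h, mul_zero] at e3
        linarith
      positivity
    have hpos : ∀ n, 0 < lam n := fun n => h0.trans_le (hB.mono (Nat.zero_le n))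
    obtain ⟨C3, hC3⟩ : ∃ C3, C3 = C2 ^ (2 / 3 : ℝ) * (1 + 1 / lam 0) := ⟨_, rfl⟩
    have hC30 : 0 < C3 := by rw [hC3]; positivity
    have hlow2 : ∀ n : ℕ, ((n : ℝ) + 1) ^ (2 / 3 : ℝ) ≤ C3 * lam n := by
      intro n
      have hp := hpos n
      have h1l : 0 < 1 + lam n := by linarith
      calc ((n : ℝ) + 1) ^ (2 / 3 : ℝ) ≤ (C2 * (1 + lam n) ^ (3 / 2 : ℝ)) ^ (2 / 3 : ℝ) :=
            Real.rpow_le_rpow (by positivity) (hlow n) (by norm_num)
        _ = C2 ^ (2 / 3 : ℝ) * (1 + lam n) := by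
            rw [Real.mul_rpow hC2.le (by positivity), ← Real.rpow_mul h1l.le]
            norm_num
        _ ≤ C2 ^ (2 / 3 : ℝ) * ((1 + 1 / lam 0) * lam n) := by
            refine mul_le_mul_of_nonneg_left ?_ (by positivity)
            have h5 : lam 0 ≤ lam n := hB.mono (Nat.zero_le n)
            have h6 : 1 ≤ 1 / lam 0 * lam n := by
              rw [one_div_mul_eq_div, one_le_div h0]
              exact h5
            linarith
        _ = C3 * lam n := by rw [hC3]; ring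
    refine ⟨max 1 (2 * C0 * C3), fun j => ⟨?_, ?_⟩⟩
    · have hp := hpos (2 * j)
      have e1 : (((2 * j + 1 : ℕ) : ℝ) + 1) ≤ 2 * (((2 * j : ℕ) : ℝ) + 1) := by
        push_cast
        have : (0 : ℝ) ≤ j := Nat.cast_nonneg j
        linarith
      have e2 : (((2 * j + 1 : ℕ) : ℝ) + 1) ^ (2 / 3 : ℝ) ≤
          2 * (((2 * j : ℕ) : ℝ) + 1) ^ (2 / 3 : ℝ) := by
        calc (((2 * j + 1 : ℕ) : ℝ) + 1) ^ (2 / 3 : ℝ) ≤
            (2 * (((2 * j : ℕ) : ℝ) + 1)) ^ (2 / 3 : ℝ) :=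
              Real.rpow_le_rpow (by positivity) e1 (by norm_num)
          _ = (2 : ℝ) ^ (2 / 3 : ℝ) * (((2 * j : ℕ) : ℝ) + 1) ^ (2 / 3 : ℝ) :=
              Real.mul_rpow (by norm_num) (by positivity)
          _ ≤ 2 * (((2 * j : ℕ) : ℝ) + 1) ^ (2 / 3 : ℝ) := by
              refine mul_le_mul_of_nonneg_right ?_ (by positivity)
              calc (2 : ℝ) ^ (2 / 3 : ℝ) ≤ (2 : ℝ) ^ (1 : ℝ) :=
                    Real.rpow_le_rpow_of_exponent_le (by norm_num) (by norm_num)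
                _ = 2 := Real.rpow_one 2
      calc lam (2 * j + 1) ≤ C0 * (((2 * j + 1 : ℕ) : ℝ) + 1) ^ (2 / 3 : ℝ) := hup _
        _ ≤ C0 * (2 * (((2 * j : ℕ) : ℝ) + 1) ^ (2 / 3 : ℝ)) :=
            mul_le_mul_of_nonneg_left e2 hC0.le
        _ ≤ C0 * (2 * (C3 * lam (2 * j))) := by
            refine mul_le_mul_of_nonneg_left ?_ hC0.le
            linarith [hlow2 (2 * j)]
        _ = 2 * C0 * C3 * lam (2 * j) := by ring
        _ ≤ max 1 (2 * C0 * C3) * lam (2 * j) :=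
            mul_le_mul_of_nonneg_right (le_max_right _ _) hp.le
    · have hp := hpos (2 * j + 1)
      calc lam (2 * j) ≤ lam (2 * j + 1) := hB.mono (Nat.le_succ _)
        _ = 1 * lam (2 * j + 1) := (one_mul _).symm
        _ ≤ max 1 (2 * C0 * C3) * lam (2 * j + 1) :=
            mul_le_mul_of_nonneg_right (le_max_left _ _) hp.le

end Pool.Agent.U401.DD
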