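import Mathlib
import Pool.Agent.U401.DD.Stm2

set_option autoImplicit false

/-!
Project DD, package CNT (helper461): a lower bound of the eigenvalues.
-/

open MeasureTheory ProbabilityTheory Set Filter Topology
open scoped InnerProductSpace

namespace Pool.Agent.U401.DD

open H772R2.NSR H772R2.NS

theorem cnt_nsq {H : Type} [NormedAddCommGroup H] [InnerProductSpace ℝ H] {N : ℕ}
    (x : Fin N → H) (μ c : Fin N → ℝ) (h : ∀ k l, ⟪x k, x l⟫_ℝ = if k = l then μ k else 0) :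
    ‖∑ k, c k • x k‖ ^ 2 = ∑ k, c k ^ 2 * μ k := by
  rw [← real_inner_self_eq_norm_sq, sum_inner]
  apply Finset.sum_congr rfl
  intro k _
  rw [inner_sum, Finset.sum_eq_single k]
  · rw [real_inner_smul_left, real_inner_smul_right, h, if_pos rfl]
    ring
  · intro l _ hl
    rw [real_inner_smul_left, real_inner_smul_right, h, if_neg (Ne.symm hl)]
    simp
  · simp

theorem cnt_core {H K : Type} [NormedAddCommGroup H] [InnerProductSpace ℝ H]
    [NormedAddCommGroup K] [InnerProductSpace ℝ K]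
    (W : Submodule ℝ (H × K)) (w : ℕ → H) (g : ℕ → K) (lam : ℕ → ℝ) (hB : BasM W w g lam)
    (n M : ℕ) (e : Fin M → H) (D : ℝ) (hD : 0 ≤ D) (hDl : D ^ 2 * lam n < 1)
    (he : ∀ p ∈ W, (∀ i, ⟪e i, p.1⟫_ℝ = 0) → ‖p.1‖ ≤ D * ‖p.2‖) : n + 1 ≤ M := by
  by_contra hcon
  push Not at hcon
  let L : (Fin (n + 1) → ℝ) →ₗ[ℝ] (Fin M → ℝ) :=
    { toFun := fun c i => ⟪e i, ∑ k : Fin (n + 1), c k • w k⟫_ℝ
      map_add' := by
        intro c d
        funext i
        simp only [Pi.add_apply, add_smul, Finset.sum_add_distrib, inner_add_right]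
      map_smul' := by
        intro r c
        funext i
        simp only [Pi.smul_apply, smul_eq_mul, mul_smul, RingHom.id_apply]
        rw [← Finset.smul_sum, real_inner_smul_right] }
  have hker : LinearMap.ker L ≠ ⊥ := by
    apply LinearMap.ker_ne_bot_of_finrank_lt
    rw [Module.finrank_fin_fun, Module.finrank_fin_fun]
    exact hcon
  obtain ⟨c, hc, hc0⟩ := (Submodule.ne_bot_iff _).1 hker
  have hLc : ∀ i, ⟪e i, ∑ k : Fin (n + 1), c k • w k⟫_ℝ = 0 := by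
    intro i
    have h1 : L c = 0 := hc
    exact congrFun h1 i
  obtain ⟨p, hp⟩ : ∃ p : H × K, p = ∑ k : Fin (n + 1), c k • (w k, g k) := ⟨_, rfl⟩
  have hpW : p ∈ W := by
    rw [hp]
    exact Submodule.sum_mem _ fun k _ => Submodule.smul_mem _ _ (hB.mem k)
  have hp1 : p.1 = ∑ k : Fin (n + 1), c k • w k := by
    rw [hp, Prod.fst_sum]
    rfl
  have hp2 : p.2 = ∑ k : Fin (n + 1), c k • g k := by
    rw [hp, Prod.snd_sum]
    rfl
  have hww : ∀ k l : ℕ, ⟪w k, w l⟫_ℝ = if k = l then 1 else 0 := by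
    intro k l
    exact (orthonormal_iff_ite.1 hB.orth) k l
  have hgg : ∀ k l : ℕ, ⟪g k, g l⟫_ℝ = if k = l then lam k else 0 := by
    intro k l
    have h1 := hB.eig k _ (hB.mem l)
    simp only at h1
    rw [h1, hww]
    split_ifs <;> simp
  have n1 : ‖p.1‖ ^ 2 = ∑ k : Fin (n + 1), c k ^ 2 := by
    rw [hp1, cnt_nsq (fun k : Fin (n + 1) => w k) (fun _ => 1) c]
    · simp
    · intro k l
      rw [hww]
      simp [Fin.ext_iff]
  have n2 : ‖p.2‖ ^ 2 = ∑ k : Fin (n + 1), c k ^ 2 * lam k := by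
    rw [hp2, cnt_nsq (fun k : Fin (n + 1) => g k) (fun k => lam k) c]
    intro k l
    rw [hgg]
    simp [Fin.ext_iff]
  have n3 : ‖p.2‖ ^ 2 ≤ lam n * ‖p.1‖ ^ 2 := by
    rw [n1, n2, Finset.mul_sum]
    apply Finset.sum_le_sum
    intro k _
    have h1 : lam k ≤ lam n := hB.mono (Nat.lt_succ_iff.1 k.2)
    nlinarith [sq_nonneg (c k)]
  have n4 : 0 < ‖p.1‖ ^ 2 := by
    rw [n1]
    obtain ⟨k, hk⟩ : ∃ k, c k ≠ 0 := by
      by_contra h
      push Not at h
      exact hc0 (funext h)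
    exact Finset.sum_pos' (fun i _ => sq_nonneg _) ⟨k, Finset.mem_univ k, by positivity⟩
  have n5 : ‖p.1‖ ≤ D * ‖p.2‖ := he p hpW (by rw [hp1]; exact hLc)
  have n6 : ‖p.1‖ ^ 2 ≤ (D * ‖p.2‖) ^ 2 := by
    apply pow_le_pow_left₀ (norm_nonneg _) n5
  have n7 : (D * ‖p.2‖) ^ 2 ≤ (D ^ 2 * lam n) * ‖p.1‖ ^ 2 := by
    rw [mul_pow, mul_assoc]
    exact mul_le_mul_of_nonneg_left n3 (sq_nonneg D)
  nlinarith

theorem t_CNT : S_CNT := by
  intro hP Ω hO hb
  obtain ⟨C1, hC1, H⟩ := hP Ω hO hb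
  refine ⟨C1 * (2 * (1 + C1)) ^ 3, by positivity, ?_⟩
  intro w g lam hB n
  have hl0 : 0 ≤ lam n := by
    have h1 := hB.eig n _ (hB.mem n)
    simp only at h1
    rw [real_inner_self_eq_norm_sq, real_inner_self_eq_norm_sq, hB.orth.1 n] at h1
    have := sq_nonneg ‖g n‖
    linarith
  obtain ⟨s, hs⟩ : ∃ s, s = √(1 + lam n) := ⟨_, rfl⟩
  have hs1 : 1 ≤ s := by
    rw [hs]
    exact Real.one_le_sqrt.2 (by linarith)
  have hs2 : s ^ 2 = 1 + lam n := by
    rw [hs]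
    exact Real.sq_sqrt (by linarith)
  have hQ : 1 ≤ 2 * (1 + C1) * s := by nlinarith
  obtain ⟨M, e, hM, he⟩ := H (2 * (1 + C1) * s)⁻¹ (by positivity) (inv_le_one_of_one_le₀ hQ)
  have hnM : n + 1 ≤ M := by
    refine cnt_core (graphW Ω) w g lam hB n M e (C1 * (2 * (1 + C1) * s)⁻¹) (by positivity) ?_ he
    rw [mul_pow, inv_pow]
    have h1 : C1 ^ 2 * ((2 * (1 + C1) * s) ^ 2)⁻¹ * lam n
        = (C1 ^ 2 * lam n) / ((2 * (1 + C1) * s) ^ 2) := by
      rw [div_eq_mul_inv]; ring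
    rw [h1, div_lt_one (by positivity), mul_pow, mul_pow, hs2]
    nlinarith [mul_nonneg hC1.le hl0, mul_nonneg (sq_nonneg C1) hl0, sq_nonneg C1]
  have h2 : ((n : ℝ) + 1) ≤ M := by exact_mod_cast hnM
  refine h2.trans (hM.trans (le_of_eq ?_))
  have h3 : (1 + lam n) ^ (3 / 2 : ℝ) = s ^ 3 := by
    rw [hs, Real.sqrt_eq_rpow, ← Real.rpow_natCast, ← Real.rpow_mul (by linarith)]
    norm_num
  rw [h3, ← inv_pow, inv_inv]
  ring

end Pool.Agent.U401.DD
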