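import Mathlib
import Pool.Agent.U401.DD.Stm

/-!
# Project DD, package CPX: real and complex form of a trilinear array
-/

set_option autoImplicit false

namespace Pool.Agent.U401.DD

theorem CPX_sum_two_mul (N : ℕ) (F : ℕ → ℂ) :
    ∑ k ∈ Finset.range (2 * N), F k = ∑ j ∈ Finset.range N, (F (2 * j) + F (2 * j + 1)) := by
  induction N with
  | zero => simp
  | succ n ih =>
    rw [Nat.mul_succ, Finset.sum_range_succ, Finset.sum_range_succ, Finset.sum_range_succ, ih,
      add_assoc]

theorem CPX_a0 (a : ℕ → ℝ) (j : ℕ) :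
    (a (2 * j) : ℂ) = 1 / 2 * (uu a (j, true) + uu a (j, false)) := by
  simp only [uu, sg]
  push_cast
  simp
  ring

theorem CPX_a1 (a : ℕ → ℝ) (j : ℕ) :
    (a (2 * j + 1) : ℂ) = 1 / 2 * (-Complex.I * uu a (j, true) + Complex.I * uu a (j, false)) := by
  simp only [uu, sg]
  push_cast
  simp
  ring_nf
  simp

theorem CPX_term (s : ℕ → ℕ → ℕ → ℝ) (a : ℕ → ℝ) (i j k : ℕ) :
    (s (2 * i) (2 * j) (2 * k) : ℂ) * (a (2 * i) * a (2 * j) * a (2 * k)) +
      s (2 * i) (2 * j) (2 * k + 1) * (a (2 * i) * a (2 * j) * a (2 * k + 1)) +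
      (s (2 * i) (2 * j + 1) (2 * k) * (a (2 * i) * a (2 * j + 1) * a (2 * k)) +
      s (2 * i) (2 * j + 1) (2 * k + 1) * (a (2 * i) * a (2 * j + 1) * a (2 * k + 1))) +
      (s (2 * i + 1) (2 * j) (2 * k) * (a (2 * i + 1) * a (2 * j) * a (2 * k)) +
      s (2 * i + 1) (2 * j) (2 * k + 1) * (a (2 * i + 1) * a (2 * j) * a (2 * k + 1)) +
      (s (2 * i + 1) (2 * j + 1) (2 * k) * (a (2 * i + 1) * a (2 * j + 1) * a (2 * k)) +
      s (2 * i + 1) (2 * j + 1) (2 * k + 1) * (a (2 * i + 1) * a (2 * j + 1) * a (2 * k + 1)))) =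
    cx s (i, true) (j, true) (k, true) * (uu a (i, true) * uu a (j, true) * uu a (k, true)) +
      cx s (i, true) (j, true) (k, false) * (uu a (i, true) * uu a (j, true) * uu a (k, false)) +
      (cx s (i, true) (j, false) (k, true) * (uu a (i, true) * uu a (j, false) * uu a (k, true)) +
      cx s (i, true) (j, false) (k, false) * (uu a (i, true) * uu a (j, false) * uu a (k, false))) +
      (cx s (i, false) (j, true) (k, true) * (uu a (i, false) * uu a (j, true) * uu a (k, true)) +
      cx s (i, false) (j, true) (k, false) * (uu a (i, false) * uu a (j, true) * uu a (k, false)) +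
      (cx s (i, false) (j, false) (k, true) * (uu a (i, false) * uu a (j, false) * uu a (k, true)) +
      cx s (i, false) (j, false) (k, false) *
        (uu a (i, false) * uu a (j, false) * uu a (k, false)))) := by
  rw [CPX_a0 a i, CPX_a0 a j, CPX_a0 a k, CPX_a1 a i, CPX_a1 a j, CPX_a1 a k]
  generalize uu a (i, true) = x1
  generalize uu a (i, false) = x2
  generalize uu a (j, true) = y1
  generalize uu a (j, false) = y2
  generalize uu a (k, true) = z1
  generalize uu a (k, false) = z2
  simp only [cx, qq, Finset.sum_range_succ, Finset.sum_range_zero, zero_add, add_zero, if_true,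
    one_ne_zero, if_false, Bool.false_eq_true]
  ring

theorem t_CPX : S_CPX := by
  intro s N a
  unfold form IxN
  push_cast
  simp only [CPX_sum_two_mul, Finset.sum_product, Fintype.sum_bool, ← Finset.sum_add_distrib]
  refine Finset.sum_congr rfl fun i _ => Finset.sum_congr rfl fun j _ =>
    Finset.sum_congr rfl fun k _ => ?_
  exact CPX_term s a i j k

end Pool.Agent.U401.DD
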