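import Mathlib
import Pool.Agent.U401.DD.Stm

set_option autoImplicit false

/-!
Project DD, package DAT: the coefficients of the Navier-Stokes equations satisfy `Dat`.
-/

open MeasureTheory ProbabilityTheory Set Filter Topology
open scoped InnerProductSpace

namespace Pool.Agent.U401.DD

open H772R2.NSR

namespace DATaux

variable {H K : Type} [NormedAddCommGroup H] [InnerProductSpace ℝ H]
  [NormedAddCommGroup K] [InnerProductSpace ℝ K]

theorem inner_gg {W : Submodule ℝ (H × K)} {w : ℕ → H} {g : ℕ → K} {lam : ℕ → ℝ}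
    (hB : Bas W w g lam) (k l : ℕ) : ⟪g k, g l⟫_ℝ = if k = l then lam k else 0 := by
  have h := hB.eig k (w l, g l) (hB.mem l)
  simp only at h
  rw [h, orthonormal_iff_ite.mp hB.orth k l]
  split_ifs <;> simp

theorem norm_gg {W : Submodule ℝ (H × K)} {w : ℕ → H} {g : ℕ → K} {lam : ℕ → ℝ}
    (hB : Bas W w g lam) (n : ℕ) : ‖g n‖ ^ 2 = lam n := by
  have := inner_gg hB n n
  rw [real_inner_self_eq_norm_sq] at this
  simpa using this

theorem betf_le (m : H → K) (w : ℕ → H) (g : ℕ → K) (k l n : ℕ) :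
    |betf m w g k l n| ≤ (‖m (w k + w l)‖ + ‖m (w k)‖ + ‖m (w l)‖) * ‖g n‖ / 2 := by
  unfold betf
  rw [abs_div, abs_of_pos (by norm_num : (0 : ℝ) < 2)]
  have h1 := abs_real_inner_le_norm (m (w k + w l)) (g n)
  have h2 := abs_real_inner_le_norm (m (w k)) (g n)
  have h3 := abs_real_inner_le_norm (m (w l)) (g n)
  have h4 : |⟪m (w k + w l), g n⟫_ℝ - ⟪m (w k), g n⟫_ℝ - ⟪m (w l), g n⟫_ℝ| ≤
      |⟪m (w k + w l), g n⟫_ℝ| + |⟪m (w k), g n⟫_ℝ| + |⟪m (w l), g n⟫_ℝ| := by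
    have a1 := abs_sub (⟪m (w k + w l), g n⟫_ℝ - ⟪m (w k), g n⟫_ℝ) (⟪m (w l), g n⟫_ℝ)
    have a2 := abs_sub (⟪m (w k + w l), g n⟫_ℝ) (⟪m (w k), g n⟫_ℝ)
    linarith
  have : (‖m (w k + w l)‖ + ‖m (w k)‖ + ‖m (w l)‖) * ‖g n‖ =
      ‖m (w k + w l)‖ * ‖g n‖ + ‖m (w k)‖ * ‖g n‖ + ‖m (w l)‖ * ‖g n‖ := by ring
  rw [this]
  linarith

/-- the quantity `(a + b + c)⁴` -/
theorem four (a b c : ℝ) (ha : 0 ≤ a) (hb : 0 ≤ b) (hc : 0 ≤ c) :
    (a + b + c) ^ 4 ≤ 27 * (a ^ 4 + b ^ 4 + c ^ 4) := by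
  have h1 : (a + b + c) ^ 2 ≤ 3 * (a ^ 2 + b ^ 2 + c ^ 2) := by
    nlinarith [sq_nonneg (a - b), sq_nonneg (b - c), sq_nonneg (a - c)]
  have h2 : (a ^ 2 + b ^ 2 + c ^ 2) ^ 2 ≤ 3 * (a ^ 4 + b ^ 4 + c ^ 4) := by
    nlinarith [sq_nonneg (a ^ 2 - b ^ 2), sq_nonneg (b ^ 2 - c ^ 2), sq_nonneg (a ^ 2 - c ^ 2)]
  calc (a + b + c) ^ 4 = ((a + b + c) ^ 2) ^ 2 := by ring
    _ ≤ (3 * (a ^ 2 + b ^ 2 + c ^ 2)) ^ 2 := pow_le_pow_left₀ (sq_nonneg _) h1 2
    _ = 9 * (a ^ 2 + b ^ 2 + c ^ 2) ^ 2 := by ring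
    _ ≤ 9 * (3 * (a ^ 4 + b ^ 4 + c ^ 4)) := by gcongr
    _ = 27 * (a ^ 4 + b ^ 4 + c ^ 4) := by ring

end DATaux

open DATaux in
/-- (DAT) the coefficients -/
theorem t_DAT : S_DAT := by
  intro hexp H K _ _ _ _ _ _ W m C w g lam hF hQ hB
  obtain ⟨e1, e2, e3⟩ := hexp W m C w g lam hF hQ hB
  have hC := hF.C0
  have hn : ∀ n, ‖g n‖ ^ 2 = lam n := norm_gg hB
  have hw1 : ∀ n, ‖w n‖ = 1 := hB.orth.1
  have hp : ∀ n, 1 ≤ C * ‖g n‖ := by
    intro n
    have := hF.poinc _ (hB.mem n)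
    simpa [hw1] using this
  have hg0 : ∀ n, 0 < ‖g n‖ := by
    intro n
    have h1 := hp n
    by_contra h
    have h2 : ‖g n‖ ≤ 0 := le_of_not_gt h
    have h3 : C * ‖g n‖ ≤ 0 := mul_nonpos_of_nonneg_of_nonpos hC.le h2
    linarith
  have hlam : ∀ n, 0 < lam n := by
    intro n
    rw [← hn n]
    have := hg0 n
    positivity
  have hlow : ∀ n, 1 ≤ C ^ 2 * lam n := by
    intro n
    rw [← hn n, ← mul_pow]
    exact one_le_pow₀ (hp n)
  obtain ⟨κ, hκ⟩ := hB.cmp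
  have hκa := le_abs_self κ
  have hκ0 := abs_nonneg κ
  have hcmp : ∀ n, gg lam (n / 2) ≤ (1 + |κ|) * lam n := by
    intro n
    unfold gg
    rcases Nat.even_or_odd' n with ⟨j, rfl | rfl⟩
    · have h0 : 2 * j / 2 = j := by omega
      rw [h0]
      have h1 := (hκ j).1
      have h2 := mul_le_mul_of_nonneg_right hκa (hlam (2 * j)).le
      linarith
    · have h0 : (2 * j + 1) / 2 = j := by omega
      rw [h0]
      have h1 := (hκ j).2
      have h2 := mul_le_mul_of_nonneg_right hκa (hlam (2 * j + 1)).le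
      linarith
  have hlG : ∀ n, lam n ≤ GG lam (n / 2) := by
    intro n
    unfold GG gg
    rcases Nat.even_or_odd' n with ⟨j, rfl | rfl⟩
    · have h0 : 2 * j / 2 = j := by omega
      rw [h0]
      have := hlam (2 * j + 1)
      linarith
    · have h0 : (2 * j + 1) / 2 = j := by omega
      rw [h0]
      have := hlam (2 * j)
      linarith
  have hG1 : ∀ j, 1 ≤ GG lam j := by
    intro j
    unfold GG gg
    have := hlam (2 * j)
    have := hlam (2 * j + 1)
    linarith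
  have hgG : ∀ n, ‖g n‖ ≤ GG lam (n / 2) := by
    intro n
    have h1 := hn n
    have h2 := hlG n
    have h3 := hG1 (n / 2)
    nlinarith [hg0 n]
  have hm1 : ∀ k, ‖m (w k)‖ ^ 2 ≤ C * ‖g k‖ ^ 3 := by
    intro k
    have := hF.quart _ (hB.mem k)
    simpa [hw1] using this
  have hm2 : ∀ k l, ‖m (w k + w l)‖ ^ 2 ≤ 2 * C * (‖g k‖ + ‖g l‖) ^ 3 := by
    intro k l
    have h := hF.quart (w k + w l, g k + g l) (W.add_mem (hB.mem k) (hB.mem l))
    simp only at h
    refine h.trans ?_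
    have h1 : ‖w k + w l‖ ≤ 2 := by
      have := norm_add_le (w k) (w l)
      rw [hw1, hw1] at this
      linarith
    have h2 : ‖g k + g l‖ ≤ ‖g k‖ + ‖g l‖ := norm_add_le _ _
    calc C * (‖w k + w l‖ * ‖g k + g l‖ ^ 3) ≤ C * (2 * (‖g k‖ + ‖g l‖) ^ 3) := by gcongr
      _ = 2 * C * (‖g k‖ + ‖g l‖) ^ 3 := by ring
  have hs2 : ∀ k l, (‖g k‖ + ‖g l‖) ^ 2 ≤ 2 * (lam k + lam l) := by
    intro k l
    rw [← hn k, ← hn l]
    nlinarith [sq_nonneg (‖g k‖ - ‖g l‖)]
  refine ⟨2 + |κ| + 3 * (1 + C) + 500 * C ^ 2, ?_⟩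
  have hK1 : C ^ 2 ≤ 2 + |κ| + 3 * (1 + C) + 500 * C ^ 2 := by nlinarith [sq_nonneg C]
  have hC2 : 0 < C ^ 2 := by positivity
  refine ⟨by nlinarith, e2, e3, hlam, ?_, ?_, ?_, ?_, ?_⟩
  · intro n
    exact (hlow n).trans (mul_le_mul_of_nonneg_right hK1 (hlam n).le)
  · intro n
    refine (hcmp n).trans (mul_le_mul_of_nonneg_right ?_ (hlam n).le)
    nlinarith
  · intro k l n
    refine (betf_le m w g k l n).trans ?_
    have gk := hG1 (k / 2)
    have gl := hG1 (l / 2)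
    have gn := hG1 (n / 2)
    have b1 : ∀ j, ‖m (w j)‖ ≤ (1 + C) * GG lam (j / 2) := by
      intro j
      have gj := hG1 (j / 2)
      refine abs_le_of_sq_le_sq' ?_ (by positivity) |>.2
      calc ‖m (w j)‖ ^ 2 ≤ C * ‖g j‖ ^ 3 := hm1 j
        _ = C * (lam j * ‖g j‖) := by rw [← hn j]; ring
        _ ≤ C * (GG lam (j / 2) * GG lam (j / 2)) := by
            have := hlG j
            have := hgG j
            have := hlam j
            gcongr
        _ ≤ ((1 + C) * GG lam (j / 2)) ^ 2 := by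
            have : C ≤ (1 + C) ^ 2 := by nlinarith
            calc C * (GG lam (j / 2) * GG lam (j / 2)) = C * GG lam (j / 2) ^ 2 := by ring
              _ ≤ (1 + C) ^ 2 * GG lam (j / 2) ^ 2 := by gcongr
              _ = _ := by ring
    have b2 : ‖m (w k + w l)‖ ≤ 4 * (1 + C) * (GG lam (k / 2) * GG lam (l / 2)) := by
      refine abs_le_of_sq_le_sq' ?_ (by positivity) |>.2
      set S := ‖g k‖ + ‖g l‖ with hS
      set P := GG lam (k / 2) * GG lam (l / 2) with hP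
      have hP1 : 1 ≤ P := one_le_mul_of_one_le_of_one_le gk gl
      have hS0 : 0 ≤ S := by positivity
      have hSS : S ^ 2 ≤ 4 * P := by
        have h1 := hs2 k l
        have h2 := hlG k
        have h3 := hlG l
        have h4 : GG lam (k / 2) + GG lam (l / 2) ≤ 2 * P := by
          rw [hP]
          nlinarith
        linarith
      have hS2P : S ≤ 2 * P := by nlinarith
      calc ‖m (w k + w l)‖ ^ 2 ≤ 2 * C * S ^ 3 := hm2 k l
        _ = 2 * C * (S ^ 2 * S) := by ring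
        _ ≤ 2 * C * (4 * P * (2 * P)) := by gcongr
        _ = 16 * C * P ^ 2 := by ring
        _ ≤ 16 * (1 + C) ^ 2 * P ^ 2 := by
            gcongr
            nlinarith
        _ = _ := by ring
    have b3 := hgG n
    have b4 := b1 k
    have b5 := b1 l
    have hC1 : 0 < 1 + C := by linarith
    have hP0 : GG lam (k / 2) ≤ GG lam (k / 2) * GG lam (l / 2) := by nlinarith
    have hP0' : GG lam (l / 2) ≤ GG lam (k / 2) * GG lam (l / 2) := by nlinarith
    have hsum : ‖m (w k + w l)‖ + ‖m (w k)‖ + ‖m (w l)‖ ≤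
        6 * (1 + C) * (GG lam (k / 2) * GG lam (l / 2)) := by
      have c1 : (1 + C) * GG lam (k / 2) ≤ (1 + C) * (GG lam (k / 2) * GG lam (l / 2)) := by
        gcongr
      have c2 : (1 + C) * GG lam (l / 2) ≤ (1 + C) * (GG lam (k / 2) * GG lam (l / 2)) := by
        gcongr
      linarith
    calc (‖m (w k + w l)‖ + ‖m (w k)‖ + ‖m (w l)‖) * ‖g n‖ / 2
        ≤ 6 * (1 + C) * (GG lam (k / 2) * GG lam (l / 2)) * GG lam (n / 2) / 2 := by
          gcongr
      _ = 3 * (1 + C) * (GG lam (k / 2) * GG lam (l / 2) * GG lam (n / 2)) := by ring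
      _ ≤ _ := by
          gcongr
          nlinarith
  · intro k l n hkl
    have h1 := betf_le m w g k l n
    have gk := hG1 (k / 2)
    have gn := hG1 (n / 2)
    set G := GG lam (k / 2) with hGdef
    have lk : lam k ≤ G := hlG k
    have ll : lam l ≤ G := by rw [hGdef, hkl]; exact hlG l
    have hlk := hlam k
    have hll := hlam l
    have q1 : ∀ j, lam j ≤ G → ‖m (w j)‖ ^ 4 ≤ C ^ 2 * G ^ 3 := by
      intro j hj
      calc ‖m (w j)‖ ^ 4 = (‖m (w j)‖ ^ 2) ^ 2 := by ring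
        _ ≤ (C * ‖g j‖ ^ 3) ^ 2 := pow_le_pow_left₀ (sq_nonneg _) (hm1 j) 2
        _ = C ^ 2 * lam j ^ 3 := by rw [← hn j]; ring
        _ ≤ C ^ 2 * G ^ 3 := by
            have := (hlam j).le
            gcongr
    have q2 : ‖m (w k + w l)‖ ^ 4 ≤ 256 * (C ^ 2 * G ^ 3) := by
      have hSS : (‖g k‖ + ‖g l‖) ^ 2 ≤ 4 * G := by
        have := hs2 k l
        linarith
      calc ‖m (w k + w l)‖ ^ 4 = (‖m (w k + w l)‖ ^ 2) ^ 2 := by ring
        _ ≤ (2 * C * (‖g k‖ + ‖g l‖) ^ 3) ^ 2 := pow_le_pow_left₀ (sq_nonneg _) (hm2 k l) 2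
        _ = 4 * C ^ 2 * ((‖g k‖ + ‖g l‖) ^ 2) ^ 3 := by ring
        _ ≤ 4 * C ^ 2 * (4 * G) ^ 3 := by gcongr
        _ = 256 * (C ^ 2 * G ^ 3) := by ring
    have q3 := q1 k lk
    have q4 := q1 l ll
    have hX0 : 0 ≤ ‖m (w k + w l)‖ + ‖m (w k)‖ + ‖m (w l)‖ := by positivity
    calc betf m w g k l n ^ 4 = |betf m w g k l n| ^ 4 := (Even.pow_abs (by decide) _).symm
      _ ≤ ((‖m (w k + w l)‖ + ‖m (w k)‖ + ‖m (w l)‖) * ‖g n‖ / 2) ^ 4 :=
          pow_le_pow_left₀ (abs_nonneg _) h1 4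
      _ = (‖m (w k + w l)‖ + ‖m (w k)‖ + ‖m (w l)‖) ^ 4 * lam n ^ 2 / 16 := by
          rw [← hn n]; ring
      _ ≤ 27 * (‖m (w k + w l)‖ ^ 4 + ‖m (w k)‖ ^ 4 + ‖m (w l)‖ ^ 4) * GG lam (n / 2) ^ 2 / 16 := by
          have f := four _ _ _ (norm_nonneg (m (w k + w l))) (norm_nonneg (m (w k)))
            (norm_nonneg (m (w l)))
          have := hlG n
          have := (hlam n).le
          gcongr
      _ ≤ 27 * (258 * (C ^ 2 * G ^ 3)) * GG lam (n / 2) ^ 2 / 16 := by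
          gcongr
          linarith
      _ ≤ 500 * C ^ 2 * (G ^ 3 * GG lam (n / 2) ^ 2) := by
          have : 0 ≤ C ^ 2 * G ^ 3 * GG lam (n / 2) ^ 2 := by positivity
          nlinarith
      _ ≤ _ := by
          gcongr
          nlinarith
  · intro N a
    set x := ∑ k ∈ Finset.range (2 * N), a k • w k with hx
    set z := ∑ k ∈ Finset.range (2 * N), a k • g k with hz
    have hmem : (x, z) ∈ W := by
      have h1 : ∑ k ∈ Finset.range (2 * N), a k • ((w k, g k) : H × K) ∈ W :=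
        W.sum_mem fun k _ => W.smul_mem _ (hB.mem k)
      have h2 : ∑ k ∈ Finset.range (2 * N), a k • ((w k, g k) : H × K) = (x, z) := by
        refine Prod.ext ?_ ?_
        · rw [Prod.fst_sum]; simp [hx]
        · rw [Prod.snd_sum]; simp [hz]
      rw [h2] at h1
      exact h1
    have hxn : ‖x‖ ^ 2 = Mm N a := by
      rw [← real_inner_self_eq_norm_sq, hx, hB.orth.inner_sum]
      unfold Mm
      refine Finset.sum_congr rfl fun k _ => ?_
      simp [sq]
    have hzn : ‖z‖ ^ 2 = Dd lam N a := by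
      rw [← real_inner_self_eq_norm_sq, hz, sum_inner]
      unfold Dd
      refine Finset.sum_congr rfl fun k hk => ?_
      rw [inner_sum, Finset.sum_eq_single k]
      · rw [real_inner_smul_left, real_inner_smul_right, inner_gg hB, if_pos rfl]
        ring
      · intro l _ hl
        rw [real_inner_smul_left, real_inner_smul_right, inner_gg hB, if_neg (Ne.symm hl)]
        ring
      · intro h
        exact absurd hk h
    have hquart := hF.quart (x, z) hmem
    simp only at hquart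
    have hon : Orthonormal ℝ fun n => (‖g n‖)⁻¹ • g n := by
      rw [orthonormal_iff_ite]
      intro i j
      rw [real_inner_smul_left, real_inner_smul_right, inner_gg hB]
      by_cases hij : i = j
      · subst hij
        rw [if_pos rfl, if_pos rfl, ← hn i]
        have := (hg0 i).ne'
        field_simp
      · rw [if_neg hij, if_neg hij]
        ring
    have hbes : ∑ n ∈ Finset.range (2 * N), quad (betf m w g) N a n ^ 2 / lam n ≤ ‖m x‖ ^ 2 := by
      have h := hon.sum_inner_products_le (m x) (s := Finset.range (2 * N))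
      refine le_trans (le_of_eq ?_) h
      refine Finset.sum_congr rfl fun n _ => ?_
      rw [← e1 N a n, ← hx, real_inner_smul_left, Real.norm_eq_abs, sq_abs, ← hn n,
        real_inner_comm]
      have := (hg0 n).ne'
      field_simp
    have hs0 : 0 ≤ ∑ n ∈ Finset.range (2 * N), quad (betf m w g) N a n ^ 2 / lam n :=
      Finset.sum_nonneg fun n _ => div_nonneg (sq_nonneg _) (hlam n).le
    have hM0 : 0 ≤ Mm N a := by rw [← hxn]; positivity
    have hD0 : 0 ≤ Dd lam N a := by rw [← hzn]; positivity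
    calc (∑ n ∈ Finset.range (2 * N), quad (betf m w g) N a n ^ 2 / lam n) ^ 2
        ≤ (C * (‖x‖ * ‖z‖ ^ 3)) ^ 2 := pow_le_pow_left₀ hs0 (hbes.trans hquart) 2
      _ = C ^ 2 * (‖x‖ ^ 2 * (‖z‖ ^ 2) ^ 3) := by ring
      _ = C ^ 2 * (Mm N a * Dd lam N a ^ 3) := by rw [hxn, hzn]
      _ ≤ _ := by gcongr

end Pool.Agent.U401.DD
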