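import Mathlib
import Pool.Agent.U401.DD.Stm4

set_option autoImplicit false

/-!
Project DD, package DAT2 (helper95): more properties of the coefficients.
-/

open MeasureTheory ProbabilityTheory Set Filter Topology
open scoped InnerProductSpace

namespace Pool.Agent.U401.DD

open H772R2.NSR

namespace DAT2aux

variable {H K : Type} [NormedAddCommGroup H] [InnerProductSpace ℝ H]
  [NormedAddCommGroup K] [InnerProductSpace ℝ K]

theorem inner_gg {W : Submodule ℝ (H × K)} {w : ℕ → H} {g : ℕ → K} {lam : ℕ → ℝ}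
    (hB : Bas W w g lam) (k l : ℕ) : ⟪g k, g l⟫_ℝ = if k = l then lam k else 0 := by
  have h := hB.eig k (w l, g l) (hB.mem l)
  simp only at h
  rw [h, orthonormal_iff_ite.mp hB.orth k l]
  split_ifs <;> simp

theorem norm_gg {W : Submodule ℝ (H × K)} {w : ℕ → H} {g : ℕ → K} {lam : ℕ → ℝ}
    (hB : Bas W w g lam) (n : ℕ) : ‖g n‖ ^ 2 = lam n := by
  have := inner_gg hB n n
  rw [real_inner_self_eq_norm_sq] at this
  simpa using this

/-- a sum of the coefficients is an inner product -/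
theorem sum_le (m : H → K) (w : ℕ → H) (g : ℕ → K) (k l : ℕ) (S : Finset ℕ) (b : ℕ → ℝ) :
    |∑ n ∈ S, betf m w g k l n * b n| ≤
      (‖m (w k + w l)‖ + ‖m (w k)‖ + ‖m (w l)‖) * ‖∑ n ∈ S, b n • g n‖ / 2 := by
  have e : ∑ n ∈ S, betf m w g k l n * b n =
      ⟪m (w k + w l) - m (w k) - m (w l), ∑ n ∈ S, b n • g n⟫_ℝ / 2 := by
    rw [inner_sum, Finset.sum_div]
    refine Finset.sum_congr rfl fun n _ => ?_
    rw [real_inner_smul_right, inner_sub_left, inner_sub_left]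
    unfold betf
    ring
  rw [e, abs_div, abs_of_pos (by norm_num : (0 : ℝ) < 2)]
  have h1 := abs_real_inner_le_norm (m (w k + w l) - m (w k) - m (w l)) (∑ n ∈ S, b n • g n)
  have h2 : ‖m (w k + w l) - m (w k) - m (w l)‖ ≤ ‖m (w k + w l)‖ + ‖m (w k)‖ + ‖m (w l)‖ := by
    have a1 := norm_sub_le (m (w k + w l) - m (w k)) (m (w l))
    have a2 := norm_sub_le (m (w k + w l)) (m (w k))
    linarith
  have h3 := mul_le_mul_of_nonneg_right h2 (norm_nonneg (∑ n ∈ S, b n • g n))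
  linarith

/-- the quantity `(a + b + c)⁴` -/
theorem four (a b c : ℝ) : (a + b + c) ^ 4 ≤ 27 * (a ^ 4 + b ^ 4 + c ^ 4) := by
  have h1 : (a + b + c) ^ 2 ≤ 3 * (a ^ 2 + b ^ 2 + c ^ 2) := by
    nlinarith [sq_nonneg (a - b), sq_nonneg (b - c), sq_nonneg (a - c)]
  have h2 : (a ^ 2 + b ^ 2 + c ^ 2) ^ 2 ≤ 3 * (a ^ 4 + b ^ 4 + c ^ 4) := by
    nlinarith [sq_nonneg (a ^ 2 - b ^ 2), sq_nonneg (b ^ 2 - c ^ 2), sq_nonneg (a ^ 2 - c ^ 2)]
  calc (a + b + c) ^ 4 = ((a + b + c) ^ 2) ^ 2 := by ring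
    _ ≤ (3 * (a ^ 2 + b ^ 2 + c ^ 2)) ^ 2 := pow_le_pow_left₀ (sq_nonneg _) h1 2
    _ = 9 * (a ^ 2 + b ^ 2 + c ^ 2) ^ 2 := by ring
    _ ≤ 9 * (3 * (a ^ 4 + b ^ 4 + c ^ 4)) := by gcongr
    _ = 27 * (a ^ 4 + b ^ 4 + c ^ 4) := by ring

/-- the norms of the quadratic map -/
theorem quart {W : Submodule ℝ (H × K)} {m : H → K} {C : ℝ} {w : ℕ → H} {g : ℕ → K}
    {lam : ℕ → ℝ} (hF : Frame W m C) (hB : Bas W w g lam) (hlam : ∀ n, 0 < lam n) {k l : ℕ} {G : ℝ}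
    (lk : lam k ≤ G) (ll : lam l ≤ G) :
    (‖m (w k + w l)‖ + ‖m (w k)‖ + ‖m (w l)‖) ^ 4 ≤ 27 * (258 * (C ^ 2 * G ^ 3)) := by
  have hC := hF.C0
  have hn : ∀ n, ‖g n‖ ^ 2 = lam n := norm_gg hB
  have hw1 : ∀ n, ‖w n‖ = 1 := hB.orth.1
  have hm1 : ∀ k, ‖m (w k)‖ ^ 2 ≤ C * ‖g k‖ ^ 3 := by
    intro k
    have := hF.quart _ (hB.mem k)
    simpa [hw1] using this
  have hm2 : ∀ k l, ‖m (w k + w l)‖ ^ 2 ≤ 2 * C * (‖g k‖ + ‖g l‖) ^ 3 := by
    intro k l
    have h := hF.quart (w k + w l, g k + g l) (W.add_mem (hB.mem k) (hB.mem l))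
    simp only at h
    refine h.trans ?_
    have h1 : ‖w k + w l‖ ≤ 2 := by
      have := norm_add_le (w k) (w l)
      rw [hw1, hw1] at this
      linarith
    have h2 : ‖g k + g l‖ ≤ ‖g k‖ + ‖g l‖ := norm_add_le _ _
    calc C * (‖w k + w l‖ * ‖g k + g l‖ ^ 3) ≤ C * (2 * (‖g k‖ + ‖g l‖) ^ 3) := by gcongr
      _ = 2 * C * (‖g k‖ + ‖g l‖) ^ 3 := by ring
  have hs2 : ∀ k l, (‖g k‖ + ‖g l‖) ^ 2 ≤ 2 * (lam k + lam l) := by
    intro k l
    rw [← hn k, ← hn l]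
    nlinarith [sq_nonneg (‖g k‖ - ‖g l‖)]
  have q1 : ∀ j, lam j ≤ G → ‖m (w j)‖ ^ 4 ≤ C ^ 2 * G ^ 3 := by
    intro j hj
    calc ‖m (w j)‖ ^ 4 = (‖m (w j)‖ ^ 2) ^ 2 := by ring
      _ ≤ (C * ‖g j‖ ^ 3) ^ 2 := pow_le_pow_left₀ (sq_nonneg _) (hm1 j) 2
      _ = C ^ 2 * lam j ^ 3 := by rw [← hn j]; ring
      _ ≤ C ^ 2 * G ^ 3 := by
          have := (hlam j).le
          gcongr
  have hG0 : 0 ≤ G := (hlam k).le.trans lk
  have q2 : ‖m (w k + w l)‖ ^ 4 ≤ 256 * (C ^ 2 * G ^ 3) := by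
    have hSS : (‖g k‖ + ‖g l‖) ^ 2 ≤ 4 * G := by
      have := hs2 k l
      linarith
    calc ‖m (w k + w l)‖ ^ 4 = (‖m (w k + w l)‖ ^ 2) ^ 2 := by ring
      _ ≤ (2 * C * (‖g k‖ + ‖g l‖) ^ 3) ^ 2 := pow_le_pow_left₀ (sq_nonneg _) (hm2 k l) 2
      _ = 4 * C ^ 2 * ((‖g k‖ + ‖g l‖) ^ 2) ^ 3 := by ring
      _ ≤ 4 * C ^ 2 * (4 * G) ^ 3 := by gcongr
      _ = 256 * (C ^ 2 * G ^ 3) := by ring
  have q3 := q1 k lk
  have q4 := q1 l ll
  refine (four _ _ _).trans ?_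
  linarith

/-- the constant may be enlarged -/
theorem mono {bet : ℕ → ℕ → ℕ → ℝ} {lam : ℕ → ℝ} {K K' : ℝ} (h : Dat bet lam K) (hK : K ≤ K') :
    Dat bet lam K' := by
  have hlam := h.pos
  have hG1 : ∀ j, 1 ≤ GG lam j := by
    intro j
    unfold GG gg
    have := hlam (2 * j)
    have := hlam (2 * j + 1)
    linarith
  refine ⟨h.K1.trans hK, h.sym, h.cyc, hlam, fun n => ?_, fun n => ?_, fun k l n => ?_,
    fun k l n hkl => ?_, fun N a => ?_⟩
  · exact (h.low n).trans (mul_le_mul_of_nonneg_right hK (hlam n).le)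
  · exact (h.cmp n).trans (mul_le_mul_of_nonneg_right hK (hlam n).le)
  · refine (h.bd k l n).trans (mul_le_mul_of_nonneg_right hK ?_)
    have := hG1 (k / 2)
    have := hG1 (l / 2)
    have := hG1 (n / 2)
    positivity
  · refine (h.bd2 k l n hkl).trans (mul_le_mul_of_nonneg_right hK ?_)
    have := hG1 (k / 2)
    have := hG1 (n / 2)
    positivity
  · refine (h.bes N a).trans (mul_le_mul_of_nonneg_right hK ?_)
    have h1 : 0 ≤ Mm N a := by
      unfold Mm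
      exact Finset.sum_nonneg fun _ _ => sq_nonneg _
    have h2 : 0 ≤ Dd lam N a := by
      unfold Dd
      exact Finset.sum_nonneg fun n _ => mul_nonneg (hlam n).le (sq_nonneg _)
    positivity

end DAT2aux

open DAT2aux in
/-- (DAT2) the coefficients -/
theorem t_DAT2 : S_DAT2 := by
  intro hexp H K _ _ _ _ _ _ W m C w g lam K₀ hF hQ hB hD hcnt
  obtain ⟨K₁, hK₁⟩ := hcnt
  have hlam := hD.pos
  have hn : ∀ n, ‖g n‖ ^ 2 = lam n := norm_gg hB
  have hG1 : ∀ j, 1 ≤ GG lam j := by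
    intro j
    unfold GG gg
    have := hlam (2 * j)
    have := hlam (2 * j + 1)
    linarith
  have hlG : ∀ n, lam n ≤ GG lam (n / 2) := by
    intro n
    unfold GG gg
    rcases Nat.even_or_odd' n with ⟨j, rfl | rfl⟩
    · have h0 : 2 * j / 2 = j := by omega
      rw [h0]
      have := hlam (2 * j + 1)
      linarith
    · have h0 : (2 * j + 1) / 2 = j := by omega
      rw [h0]
      have := hlam (2 * j)
      linarith
  have hK0 : 1 ≤ K₀ := hD.K1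
  have hC2 : 0 ≤ C ^ 2 := sq_nonneg C
  have hK1a := le_abs_self K₁
  have hK1b := abs_nonneg K₁
  refine ⟨K₀ + |K₁| + 500 * C ^ 2, mono hD (by linarith), fun k l n => ?_, fun k l hkl S b => ?_,
    fun j => ?_⟩
  · set G := max (GG lam (k / 2)) (max (GG lam (l / 2)) (GG lam (n / 2))) with hG
    have gk : GG lam (k / 2) ≤ G := le_max_left _ _
    have gl : GG lam (l / 2) ≤ G := (le_max_left _ _).trans (le_max_right _ _)
    have gn : GG lam (n / 2) ≤ G := (le_max_right _ _).trans (le_max_right _ _)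
    have hGpos : 1 ≤ G := (hG1 _).trans gk
    have q := quart hF hB hlam ((hlG k).trans gk) ((hlG l).trans gl)
    have h1 := sum_le m w g k l {n} (fun _ => 1)
    rw [Finset.sum_singleton, Finset.sum_singleton, one_smul, mul_one] at h1
    have hln : lam n ≤ G := (hlG n).trans gn
    have hln0 := (hlam n).le
    calc betf m w g k l n ^ 4 = |betf m w g k l n| ^ 4 := (Even.pow_abs (by decide) _).symm
      _ ≤ ((‖m (w k + w l)‖ + ‖m (w k)‖ + ‖m (w l)‖) * ‖g n‖ / 2) ^ 4 :=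
          pow_le_pow_left₀ (abs_nonneg _) h1 4
      _ = (‖m (w k + w l)‖ + ‖m (w k)‖ + ‖m (w l)‖) ^ 4 * lam n ^ 2 / 16 := by
          rw [← hn n]; ring
      _ ≤ (27 * (258 * (C ^ 2 * G ^ 3))) * G ^ 2 / 16 := by gcongr
      _ ≤ 500 * C ^ 2 * G ^ 5 := by
          have : 0 ≤ C ^ 2 * G ^ 5 := by positivity
          nlinarith
      _ ≤ _ := by
          gcongr
          linarith
  · set G := GG lam (k / 2) with hG
    have hGpos : 1 ≤ G := hG1 _
    have q := quart hF hB hlam (hlG k) (by rw [hkl]; exact hlG l)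
    have h1 := sum_le m w g k l S b
    set z := ∑ n ∈ S, b n • g n with hz
    have hzn : ‖z‖ ^ 2 = ∑ n ∈ S, lam n * b n ^ 2 := by
      rw [← real_inner_self_eq_norm_sq, hz, sum_inner]
      refine Finset.sum_congr rfl fun k hk => ?_
      rw [inner_sum, Finset.sum_eq_single k]
      · rw [real_inner_smul_left, real_inner_smul_right, inner_gg hB, if_pos rfl]
        ring
      · intro l _ hl
        rw [real_inner_smul_left, real_inner_smul_right, inner_gg hB, if_neg (Ne.symm hl)]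
        ring
      · intro h
        exact absurd hk h
    rw [← hzn]
    calc (∑ n ∈ S, betf m w g k l n * b n) ^ 4 = |∑ n ∈ S, betf m w g k l n * b n| ^ 4 :=
          (Even.pow_abs (by decide) _).symm
      _ ≤ ((‖m (w k + w l)‖ + ‖m (w k)‖ + ‖m (w l)‖) * ‖z‖ / 2) ^ 4 :=
          pow_le_pow_left₀ (abs_nonneg _) h1 4
      _ = (‖m (w k + w l)‖ + ‖m (w k)‖ + ‖m (w l)‖) ^ 4 * (‖z‖ ^ 2) ^ 2 / 16 := by ring
      _ ≤ (27 * (258 * (C ^ 2 * G ^ 3))) * (‖z‖ ^ 2) ^ 2 / 16 := by gcongr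
      _ ≤ 500 * C ^ 2 * (G ^ 3 * (‖z‖ ^ 2) ^ 2) := by
          have : 0 ≤ C ^ 2 * (G ^ 3 * (‖z‖ ^ 2) ^ 2) := by positivity
          nlinarith
      _ ≤ _ := by
          gcongr
          linarith
  · refine (hK₁ j).trans (mul_le_mul_of_nonneg_right (by linarith) ?_)
    exact Real.rpow_nonneg (by linarith [hG1 j]) _

end Pool.Agent.U401.DD
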