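import Mathlib
import Pool.Agent.U401.DD.Stm

/-! Project DD, package DER: the derivative of the correction. -/

set_option autoImplicit false

open Set

namespace Pool.Agent.U401.DD

theorem rot_even (om a : ℕ → ℝ) (j : ℕ) : rot om a (2 * j) = om j * a (2 * j + 1) := by
  unfold rot
  rw [if_pos (by omega), show 2 * j / 2 = j by omega]

theorem rot_odd (om a : ℕ → ℝ) (j : ℕ) : rot om a (2 * j + 1) = -(om j * a (2 * j)) := by
  unfold rot
  rw [if_neg (by omega), show (2 * j + 1) / 2 = j by omega, show 2 * j + 1 - 1 = 2 * j by omega]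

theorem sg_sq (b : Bool) : (sg b : ℂ) * (sg b : ℂ) = 1 := by
  cases b <;> simp [sg]

theorem der_uu (om : ℕ → ℝ) (ε : ℝ) (N : ℕ) (T t : ℝ) (a : ℕ → ℝ → ℝ) (b : ℕ → ℝ)
    (hab : ∀ n < 2 * N, HasDerivWithinAt (a n) (b n + ε * rot om (fun k => a k t) n) (Icc 0 T) t)
    (κ : Ix) (hκ : κ ∈ IxN N) :
    HasDerivWithinAt (fun s => uu (fun k => a k s) κ)
      (uu b κ + (-Complex.I * (ε * fr om κ)) * uu (fun k => a k t) κ) (Icc 0 T) t := by
  obtain ⟨j, β⟩ := κ
  have hj : j < N := by
    unfold IxN at hκ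
    exact Finset.mem_range.1 (Finset.mem_product.1 hκ).1
  have h0 := (hab (2 * j) (by omega)).ofReal_comp
  have h1 := (hab (2 * j + 1) (by omega)).ofReal_comp
  have h2 := h0.add ((h1.const_mul ((sg β : ℝ) : ℂ)).mul_const Complex.I)
  refine HasDerivWithinAt.congr_deriv (f' := _) h2 ?_
  rw [rot_even, rot_odd]
  simp only [uu, fr]
  push_cast
  have h3 := sg_sq β
  have h4 : Complex.I * Complex.I = -1 := Complex.I_mul_I
  linear_combination ((ε : ℂ) * om j * a (2 * j + 1) t * Complex.I * Complex.I) * h3 +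
    ((ε : ℂ) * om j * a (2 * j + 1) t) * h4

theorem t_DER : S_DER := by
  intro h om ε N T t a b hab
  have hu := der_uu om ε N T t a b hab
  have h3 : HasDerivWithinAt (fun s => form N h (uu fun k => a k s))
      (∑ κ ∈ IxN N, ∑ l ∈ IxN N, ∑ m ∈ IxN N, h κ l m *
        (((uu b κ + (-Complex.I * (ε * fr om κ)) * uu (fun k => a k t) κ) * uu (fun k => a k t) l +
          uu (fun k => a k t) κ * (uu b l + (-Complex.I * (ε * fr om l)) * uu (fun k => a k t) l)) *
            uu (fun k => a k t) m +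
          uu (fun k => a k t) κ * uu (fun k => a k t) l *
            (uu b m + (-Complex.I * (ε * fr om m)) * uu (fun k => a k t) m))) (Icc 0 T) t := by
    unfold form
    refine HasDerivWithinAt.fun_sum fun κ hκ => HasDerivWithinAt.fun_sum fun l hl =>
      HasDerivWithinAt.fun_sum fun m hm => ?_
    exact (((hu κ hκ).mul (hu l hl)).mul (hu m hm)).const_mul (h κ l m)
  refine h3.congr_deriv ?_
  unfold form dform
  rw [← Finset.sum_add_distrib]
  refine Finset.sum_congr rfl fun κ _ => ?_
  rw [← Finset.sum_add_distrib]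
  refine Finset.sum_congr rfl fun l _ => ?_
  rw [← Finset.sum_add_distrib]
  refine Finset.sum_congr rfl fun m _ => ?_
  unfold Lm
  push_cast
  ring

end Pool.Agent.U401.DD
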