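import Mathlib
import Pool.Agent.U401.DD.Stm5
import Pool.Agent.U401.DD.DER

/-! Project EE, package DRI (helper645): the integrated derivative of the correction. -/

set_option autoImplicit false

open MeasureTheory Set Filter Topology

namespace Pool.Agent.U401.DD.DRIp

/-- the primitive from the real and the imaginary part -/
noncomputable def P (f : ℝ → ℂ) (t : ℝ) : ℂ :=
  (∫ s in (0 : ℝ)..t, (f s).re) • (1 : ℂ) + (∫ s in (0 : ℝ)..t, (f s).im) • Complex.I

lemma ii_re {f : ℝ → ℂ} {a b : ℝ} (h : IntervalIntegrable f volume a b) :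
    IntervalIntegrable (fun s => (f s).re) volume a b := ⟨h.1.re, h.2.re⟩

lemma ii_im {f : ℝ → ℂ} {a b : ℝ} (h : IntervalIntegrable f volume a b) :
    IntervalIntegrable (fun s => (f s).im) volume a b := ⟨h.1.im, h.2.im⟩

lemma ii_mono {f : ℝ → ℂ} {T t : ℝ} (h : IntervalIntegrable f volume 0 T) (ht : t ∈ Icc 0 T) :
    IntervalIntegrable f volume 0 t := by
  apply h.mono_set
  rw [uIcc_of_le ht.1, uIcc_of_le (ht.1.trans ht.2)]
  exact Icc_subset_Icc le_rfl ht.2

lemma P_eq {f : ℝ → ℂ} {T t : ℝ} (h : IntervalIntegrable f volume 0 T) (ht : t ∈ Icc 0 T) :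
    P f t = ∫ s in (0 : ℝ)..t, f s := by
  have h1 := ii_mono h ht
  unfold P
  rw [intervalIntegral.integral_of_le ht.1, intervalIntegral.integral_of_le ht.1,
    intervalIntegral.integral_of_le ht.1]
  have h2 := integral_re_add_im (𝕜 := ℂ) h1.1
  rw [← h2]
  simp [Complex.real_smul]

lemma P_zero (f : ℝ → ℂ) : P f 0 = 0 := by
  unfold P
  simp

lemma ac_const (c : ℂ) (T : ℝ) : AbsolutelyContinuousOnInterval (fun _ : ℝ => c) 0 T :=
  (LipschitzWith.const c).lipschitzOnWith.absolutelyContinuousOnInterval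

lemma P_ac {f : ℝ → ℂ} {T : ℝ} (h : IntervalIntegrable f volume 0 T) :
    AbsolutelyContinuousOnInterval (P f) 0 T := by
  have h1 := ((ii_re h).absolutelyContinuousOnInterval_intervalIntegral (c := 0) (by simp)).smul
    (ac_const 1 T)
  have h2 := ((ii_im h).absolutelyContinuousOnInterval_intervalIntegral (c := 0) (by simp)).smul
    (ac_const Complex.I T)
  exact h1.add h2

lemma P_der {f : ℝ → ℂ} {T : ℝ} (h : IntervalIntegrable f volume 0 T) :
    ∀ᵐ t, t ∈ uIcc 0 T → HasDerivAt (P f) (f t) t := by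
  filter_upwards [(ii_re h).ae_hasDerivAt_integral, (ii_im h).ae_hasDerivAt_integral] with t h1 h2 ht
  have h3 := ((h1 ht 0 (by simp)).smul_const (1 : ℂ)).add
    ((h2 ht 0 (by simp)).smul_const Complex.I)
  refine HasDerivAt.congr_deriv (f' := _) h3 ?_
  simp [Complex.real_smul, Complex.re_add_im]

/-- `x` is a primitive of `x'` on `[0, T]` -/
def PR (T : ℝ) (x x' : ℝ → ℂ) : Prop :=
  IntervalIntegrable x' volume 0 T ∧ ∀ t ∈ Icc 0 T, x t = x 0 + ∫ s in (0 : ℝ)..t, x' s

lemma PR.ext {T : ℝ} {x x' : ℝ → ℂ} (h : PR T x x') {t : ℝ} (ht : t ∈ Icc 0 T) :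
    x t = x 0 + P x' t := by rw [P_eq h.1 ht, ← h.2 t ht]

lemma X_ac {T : ℝ} (c : ℂ) {f : ℝ → ℂ} (h : IntervalIntegrable f volume 0 T) :
    AbsolutelyContinuousOnInterval (fun t => c + P f t) 0 T := (ac_const c T).add (P_ac h)

lemma PR.cont {T : ℝ} {x x' : ℝ → ℂ} (h : PR T x x') : ContinuousOn x (Icc 0 T) := by
  rcases lt_or_ge T 0 with hT | hT
  · rw [Icc_eq_empty (not_le.2 hT)]
    exact continuousOn_empty _
  · have h1 := (X_ac (x 0) h.1).continuousOn
    rw [uIcc_of_le hT] at h1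
    exact h1.congr fun t ht => h.ext ht

lemma PR.mul {T : ℝ} (hT : 0 ≤ T) {x x' y y' : ℝ → ℂ} (hx : PR T x x') (hy : PR T y y') :
    PR T (fun t => x t * y t) (fun t => x' t * y t + x t * y' t) := by
  have cx := hx.cont
  have cy := hy.cont
  rw [← uIcc_of_le hT] at cx cy
  have hI : IntervalIntegrable (fun t => x' t * y t + x t * y' t) volume 0 T :=
    (hx.1.mul_continuousOn cy).add (hy.1.continuousOn_mul cx)
  refine ⟨hI, ?_⟩
  have g_ac : AbsolutelyContinuousOnInterval (fun t => ((x 0 + P x' t) * (y 0 + P y' t)) -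
      P (fun t => x' t * y t + x t * y' t) t) 0 T :=
    ((X_ac (x 0) hx.1).smul (X_ac (y 0) hy.1)).sub (P_ac hI)
  have g_der : ∀ᵐ t, t ∈ uIcc 0 T → HasDerivAt (fun t => ((x 0 + P x' t) * (y 0 + P y' t)) -
      P (fun t => x' t * y t + x t * y' t) t) 0 t := by
    filter_upwards [P_der hx.1, P_der hy.1, P_der hI] with t h1 h2 h3 ht
    have ht' : t ∈ Icc 0 T := by rwa [uIcc_of_le hT] at ht
    have h4 := (((h1 ht).const_add (x 0)).mul ((h2 ht).const_add (y 0))).sub (h3 ht)
    refine HasDerivAt.congr_deriv (f' := _) h4 ?_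
    rw [← hx.ext ht', ← hy.ext ht']
    ring
  obtain ⟨C, hC⟩ := g_ac.const_of_ae_hasDerivAt_zero g_der
  intro t ht
  have e0 := hC 0 (by simp)
  have e1 := hC t (by rwa [uIcc_of_le hT])
  simp only [P_zero, add_zero, sub_zero] at e0
  rw [← hx.ext ht, ← hy.ext ht, P_eq hI ht, ← e0] at e1
  linear_combination e1

lemma ir_mono {f : ℝ → ℝ} {T t : ℝ} (h : IntervalIntegrable f volume 0 T) (ht : t ∈ Icc 0 T) :
    IntervalIntegrable f volume 0 t := by
  apply h.mono_set
  rw [uIcc_of_le ht.1, uIcc_of_le (ht.1.trans ht.2)]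
  exact Icc_subset_Icc le_rfl ht.2

/-- primitives are integrable -/
lemma prim_int {T : ℝ} (hT : 0 ≤ T) {x x' : ℝ → ℝ} (h1 : IntervalIntegrable x' volume 0 T)
    (h2 : ∀ t ∈ Icc 0 T, x t = x 0 + ∫ s in (0 : ℝ)..t, x' s) : IntervalIntegrable x volume 0 T := by
  have h3 := intervalIntegral.continuousOn_primitive_interval' h1 (a := 0) (by simp)
  have h4 : ContinuousOn x (uIcc 0 T) := by
    refine (h3.const_add (x 0)).congr fun t ht => ?_
    rw [uIcc_of_le hT] at ht
    exact h2 t ht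
  exact h4.intervalIntegrable

/-- the bound by the rotation -/
lemma rot_bound {T c : ℝ} (hT : 0 ≤ T) {p q f g : ℝ → ℝ} (hf : IntervalIntegrable f volume 0 T)
    (hg : IntervalIntegrable g volume 0 T) (hp : IntervalIntegrable p volume 0 T)
    (hq : IntervalIntegrable q volume 0 T)
    (ep : ∀ t ∈ Icc 0 T, p t = p 0 + ∫ s in (0 : ℝ)..t, (f s + c * q s))
    (eq : ∀ t ∈ Icc 0 T, q t = q 0 + ∫ s in (0 : ℝ)..t, (g s + -(c * p s))) :
    ∀ t ∈ Icc 0 T, |p t| ≤ |p 0| + |q 0| + ∫ s in (0 : ℝ)..T, (|f s| + |g s|) ∧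
      |q t| ≤ |p 0| + |q 0| + ∫ s in (0 : ℝ)..T, (|f s| + |g s|) := by
  have hpc : IntervalIntegrable (fun s => (p s : ℂ)) volume 0 T := ⟨hp.1.ofReal, hp.2.ofReal⟩
  have hqc : IntervalIntegrable (fun s => (q s : ℂ)) volume 0 T := ⟨hq.1.ofReal, hq.2.ofReal⟩
  have hfc : IntervalIntegrable (fun s => (f s : ℂ)) volume 0 T := ⟨hf.1.ofReal, hf.2.ofReal⟩
  have hgc : IntervalIntegrable (fun s => (g s : ℂ)) volume 0 T := ⟨hg.1.ofReal, hg.2.ofReal⟩
  have hF : IntervalIntegrable (fun s => (f s : ℂ) + g s * Complex.I) volume 0 T :=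
    hfc.add (hgc.mul_const _)
  have hz : PR T (fun t => (p t : ℂ) + q t * Complex.I)
      (fun s => ((f s : ℂ) + g s * Complex.I) + -Complex.I * c * ((p s : ℂ) + q s * Complex.I)) := by
    refine ⟨hF.add ((hpc.add (hqc.mul_const _)).const_mul _), fun t ht => ?_⟩
    have i1 : ((∫ s in (0 : ℝ)..t, (f s + c * q s) : ℝ) : ℂ) =
        ∫ s in (0 : ℝ)..t, ((f s : ℂ) + c * q s) := by
      rw [← intervalIntegral.integral_ofReal]
      simp
    have i2 : ((∫ s in (0 : ℝ)..t, (g s + -(c * p s)) : ℝ) : ℂ) =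
        ∫ s in (0 : ℝ)..t, ((g s : ℂ) + -(c * p s)) := by
      rw [← intervalIntegral.integral_ofReal]
      simp
    have j1 : IntervalIntegrable (fun s => (f s : ℂ) + c * q s) volume 0 t :=
      ii_mono (hfc.add (hqc.const_mul _)) ht
    have j2 : IntervalIntegrable (fun s => (g s : ℂ) + -(c * p s)) volume 0 t :=
      ii_mono (hgc.add (hpc.const_mul _).neg) ht
    have i3 : (∫ s in (0 : ℝ)..t, (((f s : ℂ) + g s * Complex.I) +
        -Complex.I * c * ((p s : ℂ) + q s * Complex.I))) =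
        (∫ s in (0 : ℝ)..t, ((f s : ℂ) + c * q s)) +
          (∫ s in (0 : ℝ)..t, ((g s : ℂ) + -(c * p s))) * Complex.I := by
      rw [← intervalIntegral.integral_mul_const, ← intervalIntegral.integral_add j1
        (j2.mul_const _)]
      refine intervalIntegral.integral_congr fun s _ => ?_
      linear_combination (-(c : ℂ) * q s) * Complex.I_mul_I
    rw [i3, ← i1, ← i2]
    show (p t : ℂ) + q t * Complex.I = (p 0 : ℂ) + q 0 * Complex.I + _
    rw [ep t ht, eq t ht]
    push_cast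
    ring
  have he : PR T (fun t => Complex.exp (Complex.I * c * t))
      (fun s => Complex.exp (Complex.I * c * s) * (Complex.I * c)) := by
    have hd : ∀ s : ℝ, HasDerivAt (fun t : ℝ => Complex.exp (Complex.I * c * t))
        (Complex.exp (Complex.I * c * s) * (Complex.I * c)) s := by
      intro s
      have h1 : HasDerivAt (fun t : ℝ => Complex.I * c * (t : ℂ)) (Complex.I * c) s := by
        simpa using (Complex.ofRealCLM.hasDerivAt (x := s)).const_mul (Complex.I * (c : ℂ))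
      exact h1.cexp
    have hc : Continuous (fun s : ℝ => Complex.exp (Complex.I * c * s) * (Complex.I * c)) := by
      fun_prop
    refine ⟨hc.intervalIntegrable _ _, fun t _ => ?_⟩
    rw [intervalIntegral.integral_eq_sub_of_hasDerivAt (fun s _ => hd s) (hc.intervalIntegrable _ _)]
    ring
  have hm := PR.mul hT he hz
  have key : ∀ t ∈ Icc 0 T, ‖(p t : ℂ) + q t * Complex.I‖ ≤
      |p 0| + |q 0| + ∫ s in (0 : ℝ)..T, (|f s| + |g s|) := by
    intro t ht
    have h1 := hm.2 t ht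
    have n1 : ∀ s : ℝ, ‖Complex.exp (Complex.I * c * s)‖ = 1 := by
      intro s
      rw [show Complex.I * (c : ℂ) * (s : ℂ) = ((c * s : ℝ) : ℂ) * Complex.I by push_cast; ring]
      exact Complex.norm_exp_ofReal_mul_I _
    have e1 : (∫ s in (0 : ℝ)..t, (Complex.exp (Complex.I * c * s) * (Complex.I * c) *
        ((p s : ℂ) + q s * Complex.I) + Complex.exp (Complex.I * c * s) *
        (((f s : ℂ) + g s * Complex.I) + -Complex.I * c * ((p s : ℂ) + q s * Complex.I)))) =
        ∫ s in (0 : ℝ)..t, Complex.exp (Complex.I * c * s) * ((f s : ℂ) + g s * Complex.I) := by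
      refine intervalIntegral.integral_congr fun s _ => ?_
      ring
    simp only at h1
    rw [e1] at h1
    have hfg : IntervalIntegrable (fun s => |f s| + |g s|) volume 0 T := hf.abs.add hg.abs
    have e2 : ‖∫ s in (0 : ℝ)..t, Complex.exp (Complex.I * c * s) * ((f s : ℂ) + g s * Complex.I)‖
        ≤ ∫ s in (0 : ℝ)..T, (|f s| + |g s|) := by
      refine (intervalIntegral.norm_integral_le_of_norm_le (g := fun s => |f s| + |g s|) ht.1
        (ae_of_all _ fun s _ => ?_) (ir_mono hfg ht)).trans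
        (intervalIntegral.integral_mono_interval le_rfl ht.1 ht.2
          (ae_of_all _ fun s => by positivity) hfg)
      rw [norm_mul, n1, one_mul]
      refine (norm_add_le _ _).trans (le_of_eq ?_)
      rw [norm_mul, Complex.norm_I, mul_one, Complex.norm_real, Complex.norm_real]
      rfl
    have e3 : ‖(p t : ℂ) + q t * Complex.I‖ =
        ‖Complex.exp (Complex.I * c * t) * ((p t : ℂ) + q t * Complex.I)‖ := by
      rw [norm_mul, n1, one_mul]
    have e4 : ‖Complex.exp (Complex.I * c * (0 : ℝ)) * ((p 0 : ℂ) + q 0 * Complex.I)‖ ≤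
        |p 0| + |q 0| := by
      rw [norm_mul, n1, one_mul]
      refine (norm_add_le _ _).trans (le_of_eq ?_)
      rw [norm_mul, Complex.norm_I, mul_one, Complex.norm_real, Complex.norm_real]
      rfl
    rw [e3, h1]
    exact (norm_add_le _ _).trans (add_le_add e4 e2)
  intro t ht
  constructor
  · refine le_trans ?_ (key t ht)
    have := Complex.abs_re_le_norm ((p t : ℂ) + q t * Complex.I)
    simpa using this
  · refine le_trans ?_ (key t ht)
    have := Complex.abs_im_le_norm ((p t : ℂ) + q t * Complex.I)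
    simpa using this

lemma undef_const {t c x0 : ℝ} (hc : c ≠ 0) {f q : ℝ → ℝ} (hf : IntervalIntegrable f volume 0 t)
    (hq : ¬ IntervalIntegrable q volume 0 t) : x0 + ∫ s in (0 : ℝ)..t, (f s + c * q s) = x0 := by
  rw [intervalIntegral.integral_undef, add_zero]
  intro h
  apply hq
  have h1 := (h.sub hf).const_mul c⁻¹
  refine h1.congr fun s _ => ?_
  field_simp
  ring

/-- both functions are integrable -/
lemma sys_int {T c : ℝ} (hT : 0 ≤ T) {p q f g : ℝ → ℝ} (hf : IntervalIntegrable f volume 0 T)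
    (hg : IntervalIntegrable g volume 0 T)
    (ep : ∀ t ∈ Icc 0 T, p t = p 0 + ∫ s in (0 : ℝ)..t, (f s + c * q s))
    (eq : ∀ t ∈ Icc 0 T, q t = q 0 + ∫ s in (0 : ℝ)..t, (g s + -(c * p s))) :
    IntervalIntegrable p volume 0 T ∧ IntervalIntegrable q volume 0 T := by
  rcases eq_or_ne c 0 with hc | hc
  · subst hc
    exact ⟨prim_int hT hf fun t ht => by simpa using ep t ht,
      prim_int hT hg fun t ht => by simpa using eq t ht⟩
  have A : ∀ t ∈ Icc 0 T, IntervalIntegrable q volume 0 t → IntervalIntegrable p volume 0 t :=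
    fun t ht h => prim_int ht.1 ((ir_mono hf ht).add (h.const_mul c))
      (fun s hs => ep s ⟨hs.1, hs.2.trans ht.2⟩)
  have B : ∀ t ∈ Icc 0 T, IntervalIntegrable p volume 0 t → IntervalIntegrable q volume 0 t :=
    fun t ht h => prim_int ht.1 ((ir_mono hg ht).add (h.const_mul c).neg)
      (fun s hs => eq s ⟨hs.1, hs.2.trans ht.2⟩)
  have hTT : T ∈ Icc 0 T := ⟨hT, le_rfl⟩
  suffices hp : IntervalIntegrable p volume 0 T from ⟨hp, B T hTT hp⟩
  by_contra hcon
  obtain ⟨S, hS⟩ : ∃ S : Set ℝ, S = {t | t ∈ Icc 0 T ∧ IntervalIntegrable q volume 0 t} := ⟨_, rfl⟩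
  have h0S : (0 : ℝ) ∈ S := by
    rw [hS]
    exact ⟨⟨le_rfl, hT⟩, IntervalIntegrable.refl⟩
  have hbd : BddAbove S := ⟨T, fun t ht => by rw [hS] at ht; exact ht.1.2⟩
  obtain ⟨σ, hσ⟩ : ∃ σ : ℝ, σ = sSup S := ⟨_, rfl⟩
  have hσ0 : 0 ≤ σ := by rw [hσ]; exact le_csSup hbd h0S
  have hσT : σ ≤ T := by
    rw [hσ]
    exact csSup_le ⟨0, h0S⟩ fun t ht => by rw [hS] at ht; exact ht.1.2
  have C : ∀ t ∈ Ioc σ T, p t = p 0 := by
    intro t ht
    have ht' : t ∈ Icc 0 T := ⟨hσ0.trans ht.1.le, ht.2⟩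
    rw [ep t ht']
    refine undef_const hc (ir_mono hf ht') fun h => ?_
    have h1 : t ∈ S := by rw [hS]; exact ⟨ht', h⟩
    have h2 := le_csSup hbd h1
    rw [← hσ] at h2
    exact absurd ht.1 (not_lt.2 h2)
  have D1 : IntegrableOn p (Ioc σ T) := by
    have h1 : IntegrableOn (fun _ : ℝ => p 0) (Ioc σ T) := integrableOn_const (by simp) (by simp)
    exact h1.congr_fun (fun t ht => (C t ht).symm) measurableSet_Ioc
  have D2 : IntegrableOn p (Ioc 0 σ) := by
    rcases hσ0.eq_or_lt with h | hpos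
    · rw [← h, Ioc_self]
      exact integrableOn_empty
    · obtain ⟨b, hb⟩ : ∃ b : ℕ → ℝ, b = fun n : ℕ => σ - σ * (1 / ((n : ℝ) + 1)) := ⟨_, rfl⟩
      have hb1 : Tendsto b atTop (𝓝 σ) := by
        have h1 := (tendsto_one_div_add_atTop_nhds_zero_nat (𝕜 := ℝ)).const_mul σ
        have h2 := tendsto_const_nhds (x := σ) (f := (atTop : Filter ℕ)) |>.sub h1
        rw [mul_zero, sub_zero] at h2
        rw [hb]
        exact h2
      have hb2 : ∀ n, b n < σ := by
        intro n
        rw [hb]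
        have : 0 < σ * (1 / ((n : ℝ) + 1)) := by positivity
        simp only
        linarith
      have hb3 : ∀ n, 0 ≤ b n := by
        intro n
        rw [hb]
        have h1 : 1 / ((n : ℝ) + 1) ≤ 1 := by
          rw [div_le_one (by positivity)]
          have : (0 : ℝ) ≤ n := Nat.cast_nonneg n
          linarith
        have h2 : σ * (1 / ((n : ℝ) + 1)) ≤ σ * 1 := mul_le_mul_of_nonneg_left h1 hσ0
        simp only
        linarith
      have hbT : ∀ n, b n ∈ Icc 0 T := fun n => ⟨hb3 n, (hb2 n).le.trans hσT⟩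
      have hq : ∀ n, IntervalIntegrable q volume 0 (b n) := by
        intro n
        have h1 : b n < sSup S := by rw [← hσ]; exact hb2 n
        obtain ⟨t', ht', h2⟩ := exists_lt_of_lt_csSup ⟨0, h0S⟩ h1
        rw [hS] at ht'
        exact ir_mono ht'.2 ⟨hb3 n, h2.le⟩
      have hp : ∀ n, IntervalIntegrable p volume 0 (b n) := fun n => A _ (hbT n) (hq n)
      have hfg : IntervalIntegrable (fun s => |f s| + |g s|) volume 0 T := hf.abs.add hg.abs
      obtain ⟨K, hK⟩ : ∃ K : ℝ, K = |p 0| + |q 0| + ∫ s in (0 : ℝ)..T, (|f s| + |g s|) := ⟨_, rfl⟩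
      have hK0 : 0 ≤ K := by
        have h1 : 0 ≤ ∫ s in (0 : ℝ)..T, (|f s| + |g s|) :=
          intervalIntegral.integral_nonneg hT fun s _ => by positivity
        rw [hK]
        positivity
      have hbnd : ∀ n, ∀ t ∈ Icc 0 (b n), |p t| ≤ K := by
        intro n t ht
        have h1 := (rot_bound (hb3 n) (ir_mono hf (hbT n)) (ir_mono hg (hbT n)) (hp n) (hq n)
          (fun s hs => ep s ⟨hs.1, hs.2.trans (hbT n).2⟩)
          (fun s hs => eq s ⟨hs.1, hs.2.trans (hbT n).2⟩) t ht).1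
        refine h1.trans ?_
        rw [hK]
        have h2 : (∫ s in (0 : ℝ)..(b n), (|f s| + |g s|)) ≤ ∫ s in (0 : ℝ)..T, (|f s| + |g s|) :=
          intervalIntegral.integral_mono_interval le_rfl (hb3 n) (hbT n).2
            (ae_of_all _ fun s => by positivity) hfg
        linarith
      refine integrableOn_Ioc_of_intervalIntegral_norm_bounded_right (I := K * T) (l := atTop)
        (fun n => (hp n).1) hb1 (Eventually.of_forall fun n => ?_)
      have h1 : ∫ x in Ioc 0 (b n), ‖p x‖ ≤ ∫ x in Ioc 0 (b n), K :=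
        setIntegral_mono_on (hp n).1.norm (integrableOn_const (by simp) (by simp)) measurableSet_Ioc
          fun x hx => hbnd n x ⟨hx.1.le, hx.2⟩
      refine h1.trans ?_
      have h3 : ∫ _ in Ioc 0 (b n), K = b n * K := by
        rw [setIntegral_const]
        simp [Measure.real, hb3 n]
      rw [h3, mul_comm]
      exact mul_le_mul_of_nonneg_left (hbT n).2 hK0
  apply hcon
  rw [intervalIntegrable_iff_integrableOn_Ioc_of_le hT, ← Ioc_union_Ioc_eq_Ioc hσ0 hσT]
  exact D2.union D1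

lemma PR.const_mul {T : ℝ} (c : ℂ) {x x' : ℝ → ℂ} (hx : PR T x x') :
    PR T (fun t => c * x t) (fun t => c * x' t) := by
  refine ⟨hx.1.const_mul c, fun t ht => ?_⟩
  rw [intervalIntegral.integral_const_mul]
  show c * x t = c * x 0 + _
  rw [hx.2 t ht]
  ring

lemma PR.congr' {T : ℝ} {x x' x'' : ℝ → ℂ} (h : PR T x x') (e : ∀ s, x'' s = x' s) :
    PR T x x'' := by
  rwa [show x'' = x' from funext e]

lemma PR.sum {T : ℝ} {ι : Type} (S : Finset ι) {x x' : ι → ℝ → ℂ}
    (hx : ∀ i ∈ S, PR T (x i) (x' i)) :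
    PR T (fun t => ∑ i ∈ S, x i t) (fun t => ∑ i ∈ S, x' i t) := by
  have h1 : IntervalIntegrable (fun t => ∑ i ∈ S, x' i t) volume 0 T := by
    have e : (fun t => ∑ i ∈ S, x' i t) = ∑ i ∈ S, x' i := by
      funext t
      rw [Finset.sum_apply]
    rw [e]
    exact IntervalIntegrable.sum S (fun i hi => (hx i hi).1)
  refine ⟨h1, fun t ht => ?_⟩
  rw [intervalIntegral.integral_finsetSum (fun i hi => ii_mono (hx i hi).1 ht),
    ← Finset.sum_add_distrib]
  exact Finset.sum_congr rfl fun i hi => (hx i hi).2 t ht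

end Pool.Agent.U401.DD.DRIp

namespace Pool.Agent.U401.DD

open DRIp

lemma dri_int {om : ℕ → ℝ} {ε : ℝ} {M : ℕ} {T : ℝ} {a b : ℕ → ℝ → ℝ} (hT : 0 ≤ T)
    (hp : Prim om ε M T a b) (j : ℕ) (hj : j < M) :
    IntervalIntegrable (a (2 * j)) volume 0 T ∧ IntervalIntegrable (a (2 * j + 1)) volume 0 T := by
  obtain ⟨f1, e1⟩ := hp (2 * j) (by omega)
  obtain ⟨f2, e2⟩ := hp (2 * j + 1) (by omega)
  refine sys_int (c := ε * om j) hT f1 f2 (fun t ht => ?_) (fun t ht => ?_)
  · rw [e1 t ht]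
    congr 1
    refine intervalIntegral.integral_congr fun s _ => ?_
    simp only [rot_even]
    ring
  · rw [e2 t ht]
    congr 1
    refine intervalIntegral.integral_congr fun s _ => ?_
    simp only [rot_odd]
    ring

lemma dri_uu {om : ℕ → ℝ} {ε : ℝ} {M : ℕ} {T : ℝ} {a b : ℕ → ℝ → ℝ} (hT : 0 ≤ T)
    (hp : Prim om ε M T a b) (κ : Ix) (hκ : κ ∈ IxN M) :
    PR T (fun s => uu (fun k => a k s) κ)
      (fun s => uu (fun k => b k s) κ + (-Complex.I * (ε * fr om κ)) * uu (fun k => a k s) κ) := by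
  obtain ⟨j, β⟩ := κ
  have hj : j < M := by
    unfold IxN at hκ
    exact Finset.mem_range.1 (Finset.mem_product.1 hκ).1
  obtain ⟨i1, i2⟩ := dri_int hT hp j hj
  obtain ⟨f1, e1⟩ := hp (2 * j) (by omega)
  obtain ⟨f2, e2⟩ := hp (2 * j + 1) (by omega)
  have c1 : IntervalIntegrable (fun s => (a (2 * j) s : ℂ)) volume 0 T := ⟨i1.1.ofReal, i1.2.ofReal⟩
  have c2 : IntervalIntegrable (fun s => (a (2 * j + 1) s : ℂ)) volume 0 T :=
    ⟨i2.1.ofReal, i2.2.ofReal⟩
  have c3 : IntervalIntegrable (fun s => (b (2 * j) s : ℂ)) volume 0 T := ⟨f1.1.ofReal, f1.2.ofReal⟩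
  have c4 : IntervalIntegrable (fun s => (b (2 * j + 1) s : ℂ)) volume 0 T :=
    ⟨f2.1.ofReal, f2.2.ofReal⟩
  have hu : ∀ x y : ℝ → ℝ, (∀ s, ((x s : ℂ) + sg β * y s * Complex.I) = x s + sg β * y s * Complex.I) :=
    fun _ _ _ => rfl
  have I1 : IntervalIntegrable (fun s => uu (fun k => a k s) (j, β)) volume 0 T :=
    c1.add ((c2.const_mul ((sg β : ℝ) : ℂ)).mul_const Complex.I)
  have I2 : IntervalIntegrable (fun s => uu (fun k => b k s) (j, β)) volume 0 T :=
    c3.add ((c4.const_mul ((sg β : ℝ) : ℂ)).mul_const Complex.I)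
  refine ⟨I2.add (I1.const_mul _), fun t ht => ?_⟩
  have g1 : ((∫ s in (0 : ℝ)..t, (b (2 * j) s + ε * rot om (fun k => a k s) (2 * j)) : ℝ) : ℂ) =
      ∫ s in (0 : ℝ)..t, ((b (2 * j) s : ℂ) + ε * om j * a (2 * j + 1) s) := by
    rw [← intervalIntegral.integral_ofReal]
    refine intervalIntegral.integral_congr fun s _ => ?_
    simp only [rot_even]
    push_cast
    ring
  have g2 : ((∫ s in (0 : ℝ)..t, (b (2 * j + 1) s + ε * rot om (fun k => a k s) (2 * j + 1)) : ℝ) : ℂ) =
      ∫ s in (0 : ℝ)..t, ((b (2 * j + 1) s : ℂ) + -(ε * om j) * a (2 * j) s) := by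
    rw [← intervalIntegral.integral_ofReal]
    refine intervalIntegral.integral_congr fun s _ => ?_
    simp only [rot_odd]
    push_cast
    ring
  have j1 : IntervalIntegrable (fun s => (b (2 * j) s : ℂ) + ε * om j * a (2 * j + 1) s) volume 0 t :=
    ii_mono (c3.add (c2.const_mul _)) ht
  have j2 : IntervalIntegrable (fun s => (b (2 * j + 1) s : ℂ) + -(ε * om j) * a (2 * j) s)
      volume 0 t := ii_mono (c4.add (c1.const_mul _)) ht
  have g3 : (∫ s in (0 : ℝ)..t, (uu (fun k => b k s) (j, β) +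
      (-Complex.I * (ε * fr om (j, β))) * uu (fun k => a k s) (j, β))) =
      (∫ s in (0 : ℝ)..t, ((b (2 * j) s : ℂ) + ε * om j * a (2 * j + 1) s)) +
        (sg β : ℂ) * (∫ s in (0 : ℝ)..t, ((b (2 * j + 1) s : ℂ) + -(ε * om j) * a (2 * j) s)) *
          Complex.I := by
    rw [← intervalIntegral.integral_const_mul, ← intervalIntegral.integral_mul_const,
      ← intervalIntegral.integral_add j1 ((j2.const_mul _).mul_const _)]
    refine intervalIntegral.integral_congr fun s _ => ?_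
    simp only [uu, fr]
    push_cast
    have h3 := sg_sq β
    have h4 : Complex.I * Complex.I = -1 := Complex.I_mul_I
    linear_combination (-(ε : ℂ) * om j * a (2 * j + 1) s * Complex.I * Complex.I) * h3 -
      ((ε : ℂ) * om j * a (2 * j + 1) s) * h4
  rw [g3, ← g1, ← g2]
  show (a (2 * j) t : ℂ) + sg β * a (2 * j + 1) t * Complex.I =
    (a (2 * j) 0 : ℂ) + sg β * a (2 * j + 1) 0 * Complex.I + _
  rw [e1 t ht, e2 t ht]
  push_cast
  ring

lemma dri_form {om : ℕ → ℝ} {ε : ℝ} {M : ℕ} {T : ℝ} {a b : ℕ → ℝ → ℝ} (hT : 0 ≤ T)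
    (hp : Prim om ε M T a b) (h : Ix → Ix → Ix → ℂ) :
    PR T (fun s => form M h (uu fun k => a k s)) (fun s =>
      form M (fun κ l m => h κ l m * (-Complex.I * (ε * Lm om κ l m))) (uu fun k => a k s) +
        dform M h (uu fun k => a k s) (uu fun k => b k s)) := by
  have h1 := PR.sum (IxN M) (fun κ hκ => PR.sum (IxN M) (fun l hl => PR.sum (IxN M)
    (fun m hm => PR.const_mul (h κ l m) (PR.mul hT (PR.mul hT (dri_uu hT hp κ hκ)
      (dri_uu hT hp l hl)) (dri_uu hT hp m hm)))))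
  refine PR.congr' h1 fun s => ?_
  unfold form dform
  rw [← Finset.sum_add_distrib]
  refine Finset.sum_congr rfl fun κ _ => ?_
  rw [← Finset.sum_add_distrib]
  refine Finset.sum_congr rfl fun l _ => ?_
  rw [← Finset.sum_add_distrib]
  refine Finset.sum_congr rfl fun m _ => ?_
  unfold Lm
  push_cast
  ring

theorem t_DRI : S_DRI := by
  intro h om ε M T a b hT hp
  have h1 := dri_form hT hp h
  have h2 := (dri_form hT hp (fun κ l m => h κ l m * (-Complex.I * (ε * Lm om κ l m)))).cont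
  rw [← uIcc_of_le hT] at h2
  constructor
  · have h3 := h1.1.sub h2.intervalIntegrable
    refine h3.congr fun s _ => ?_
    ring
  · have h4 : form M h (uu fun k => a k T) = form M h (uu fun k => a k 0) + _ :=
      h1.2 T ⟨hT, le_rfl⟩
    rw [h4]
    ring

end Pool.Agent.U401.DD
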