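import Mathlib
import Pool.Agent.U401.DD.Stm

set_option autoImplicit false

open MeasureTheory ProbabilityTheory Set Filter Topology
open scoped InnerProductSpace

namespace Pool.Agent.U401.DD

open H772R2.NSR

section

variable {H K : Type} [NormedAddCommGroup H] [InnerProductSpace ℝ H]
  [NormedAddCommGroup K] [InnerProductSpace ℝ K]

theorem expm_smul {W : Submodule ℝ (H × K)} {m : H → K} (hq : Quad W m) (s : ℝ) (p : H × K)
    (hp : p ∈ W) : m (s • p.1) = s ^ 2 • m p.1 := by
  have h := hq.bil s 0 p hp 0 W.zero_mem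
  simpa using h

theorem expm_zero {W : Submodule ℝ (H × K)} {m : H → K} (hq : Quad W m) : m 0 = 0 := by
  have h := hq.bil 0 0 0 W.zero_mem 0 W.zero_mem
  simpa using h

/-- additivity of the polar form -/
theorem expB_add {W : Submodule ℝ (H × K)} {m : H → K} (hq : Quad W m) (p q r : H × K)
    (hp : p ∈ W) (hq' : q ∈ W) (hr : r ∈ W) :
    m (p.1 + q.1 + r.1) - m (p.1 + q.1) - m r.1 =
      (m (p.1 + r.1) - m p.1 - m r.1) + (m (q.1 + r.1) - m q.1 - m r.1) := by
  rw [hq.add p hp q hq' r hr]
  abel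

theorem expB_smul {W : Submodule ℝ (H × K)} {m : H → K} (hq : Quad W m) (s t : ℝ) (p q : H × K)
    (hp : p ∈ W) (hq' : q ∈ W) :
    m (s • p.1 + t • q.1) - m (s • p.1) - m (t • q.1) =
      (s * t) • (m (p.1 + q.1) - m p.1 - m q.1) := by
  rw [hq.bil s t p hp q hq', expm_smul hq s p hp, expm_smul hq t q hq']
  abel

theorem exp_mem {W : Submodule ℝ (H × K)} {w : ℕ → H} {g : ℕ → K}
    (hmem : ∀ n, (w n, g n) ∈ W) (a : ℕ → ℝ) (M : ℕ) :
    (∑ k ∈ Finset.range M, a k • w k, ∑ k ∈ Finset.range M, a k • g k) ∈ W := by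
  have h : ∑ k ∈ Finset.range M, a k • ((w k, g k) : H × K) ∈ W :=
    W.sum_mem fun k _ => W.smul_mem _ (hmem k)
  have e : (∑ k ∈ Finset.range M, a k • w k, ∑ k ∈ Finset.range M, a k • g k) =
      ∑ k ∈ Finset.range M, a k • ((w k, g k) : H × K) := by
    induction M with
    | zero => simp
    | succ M ih =>
      rw [Finset.sum_range_succ, Finset.sum_range_succ, Finset.sum_range_succ, ← ih
        (W.sum_mem fun k _ => W.smul_mem _ (hmem k))]
      rfl
  rw [e]
  exact h

theorem exp_pol {W : Submodule ℝ (H × K)} {m : H → K} {w : ℕ → H} {g : ℕ → K} (hq : Quad W m)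
    (hmem : ∀ n, (w n, g n) ∈ W) (a : ℕ → ℝ) (M l n : ℕ) :
    ⟪m ((∑ k ∈ Finset.range M, a k • w k) + w l) - m (∑ k ∈ Finset.range M, a k • w k) - m (w l),
      g n⟫_ℝ = ∑ k ∈ Finset.range M, 2 * betf m w g k l n * a k := by
  induction M with
  | zero => simp [expm_zero hq]
  | succ M ih =>
    have h1 := expB_add hq (∑ k ∈ Finset.range M, a k • w k, ∑ k ∈ Finset.range M, a k • g k)
      (a M • ((w M, g M) : H × K)) (w l, g l) (exp_mem hmem a M) (W.smul_mem _ (hmem M)) (hmem l)
    have h2 := expB_smul hq (a M) 1 (w M, g M) (w l, g l) (hmem M) (hmem l)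
    simp only [one_smul, mul_one, Prod.smul_fst] at h1 h2
    rw [Finset.sum_range_succ, Finset.sum_range_succ, h1, h2, inner_add_left, ih]
    congr 1
    rw [inner_smul_left]
    simp only [inner_sub_left, betf]
    simp
    ring

theorem exp_sq {W : Submodule ℝ (H × K)} {m : H → K} {w : ℕ → H} {g : ℕ → K} (hq : Quad W m)
    (hmem : ∀ n, (w n, g n) ∈ W) (k n : ℕ) :
    ⟪m (w k), g n⟫_ℝ = betf m w g k k n := by
  have h := expm_smul hq 2 (w k, g k) (hmem k)
  simp only at h
  unfold betf
  rw [← two_smul ℝ (w k), h, inner_smul_left]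
  simp
  ring

omit [InnerProductSpace ℝ H] in
theorem exp_symm (m : H → K) (w : ℕ → H) (g : ℕ → K) (k l n : ℕ) :
    betf m w g k l n = betf m w g l k n := by
  unfold betf
  rw [add_comm (w k) (w l)]
  ring

theorem exp_main {W : Submodule ℝ (H × K)} {m : H → K} {w : ℕ → H} {g : ℕ → K} (hq : Quad W m)
    (hmem : ∀ n, (w n, g n) ∈ W) (a : ℕ → ℝ) (M n : ℕ) :
    ⟪m (∑ k ∈ Finset.range M, a k • w k), g n⟫_ℝ =
      ∑ k ∈ Finset.range M, ∑ l ∈ Finset.range M, betf m w g k l n * a k * a l := by
  induction M with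
  | zero => simp [expm_zero hq]
  | succ M ih =>
    have h1 := expB_smul hq 1 (a M) (∑ k ∈ Finset.range M, a k • w k,
      ∑ k ∈ Finset.range M, a k • g k) (w M, g M) (exp_mem hmem a M) (hmem M)
    have h2 := expm_smul hq (a M) (w M, g M) (hmem M)
    simp only [one_smul, one_mul] at h1 h2
    have h3 := exp_pol hq hmem a M M n
    have h4 : m (∑ k ∈ Finset.range M, a k • w k + a M • w M) =
        m (∑ k ∈ Finset.range M, a k • w k) + a M ^ 2 • m (w M) +
        a M • (m ((∑ k ∈ Finset.range M, a k • w k) + w M) -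
          m (∑ k ∈ Finset.range M, a k • w k) - m (w M)) := by
      rw [← h1, h2]; abel
    rw [Finset.sum_range_succ, h4, inner_add_left, inner_add_left, inner_smul_left,
      inner_smul_left, h3, ih, exp_sq hq hmem M n]
    simp only [Finset.sum_range_succ, Finset.sum_add_distrib, conj_trivial]
    have h5 : ∑ l ∈ Finset.range M, betf m w g M l n * a M * a l =
        ∑ l ∈ Finset.range M, betf m w g l M n * a l * a M := by
      refine Finset.sum_congr rfl fun l _ => ?_
      rw [exp_symm m w g M l n]; ring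
    have h6 : a M * ∑ k ∈ Finset.range M, 2 * betf m w g k M n * a k =
        2 * ∑ l ∈ Finset.range M, betf m w g l M n * a l * a M := by
      rw [Finset.mul_sum, Finset.mul_sum]
      refine Finset.sum_congr rfl fun l _ => ?_
      ring
    rw [h5, h6]
    ring

end

/-- (EXP) expansion of the quadratic term -/
theorem t_EXP : S_EXP := by
  intro H K _ _ _ _ _ _ W m C w g lam hF hq hB
  refine ⟨fun N a n => ?_, fun k l n => exp_symm m w g k l n, fun k l n => ?_⟩
  · rw [exp_main hq hB.mem a (2 * N) n]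
    rfl
  · have hx := hB.mem k
    have hy := hB.mem l
    have hz := hB.mem n
    have f1 := hF.ortho _ hx
    have f2 := hF.ortho _ hy
    have f3 := hF.ortho _ hz
    have f4 := hF.ortho _ (W.add_mem hx hy)
    have f5 := hF.ortho _ (W.add_mem hy hz)
    have f6 := hF.ortho _ (W.add_mem hx hz)
    have f7 := hF.ortho _ (W.add_mem (W.add_mem hx hy) hz)
    have e := hq.add _ hx _ hy _ hz
    simp only [Prod.mk_add_mk] at f1 f2 f3 f4 f5 f6 f7 e
    rw [e] at f7
    unfold betf
    rw [add_comm (w n) (w k)]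
    simp only [inner_add_left, inner_sub_left, inner_add_right] at f1 f2 f3 f4 f5 f6 f7 ⊢
    linarith

end Pool.Agent.U401.DD
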