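import Mathlib
import Pool.Agent.U401.DD.Stm5
import Pool.Agent.U401.DD.DRA2

/-!
# Project EE, package FLX (helper461): the flux through the frequency `N` is small
-/

set_option autoImplicit false

open MeasureTheory Set Filter Topology

namespace Pool.Agent.U401.DD.FLX461

open Pool.Agent.U401.DD Pool.Agent.U401.DD.DRA705

/-- primitives of arbitrary functions are measurable -/
lemma meas_prim (g : ℝ → ℝ) (T : ℝ) :
    AEStronglyMeasurable (fun t : ℝ => ∫ s in (0 : ℝ)..t, g s) (volume.restrict (Icc 0 T)) := by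
  set F : ℝ → ℝ := fun t => ∫ s in (0 : ℝ)..t, g s with hF
  set I : Set ℝ := {t | 0 ≤ t ∧ IntervalIntegrable g volume 0 t} with hI
  have hoc : I.OrdConnected := by
    refine ⟨fun x hx y hy z hz => ⟨hx.1.trans hz.1, ?_⟩⟩
    refine hy.2.mono_set ?_
    rw [uIcc_of_le (hx.1.trans hz.1), uIcc_of_le hy.1]
    exact Icc_subset_Icc_right hz.2
  have hIm : MeasurableSet I := hoc.measurableSet
  have hcI : ∀ t ∈ I, ContinuousOn F (Icc 0 t) := by
    intro t ht
    have h1 := intervalIntegral.continuousOn_primitive_interval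
      (μ := volume) (f := g) (a := 0) (b := t) (by
        rw [uIcc_of_le ht.1, integrableOn_Icc_iff_integrableOn_Ioc]
        exact (intervalIntegrable_iff_integrableOn_Ioc_of_le ht.1).1 ht.2)
    rwa [uIcc_of_le ht.1] at h1
  have hc : ContinuousOn F I := by
    intro t ht
    by_cases h : ∃ t₁ ∈ I, t < t₁
    · obtain ⟨t₁, ht₁, hlt⟩ := h
      have h1 := hcI t₁ ht₁ t ⟨ht.1, hlt.le⟩
      refine h1.mono_of_mem_nhdsWithin ?_
      have h2 : Iio t₁ ∈ 𝓝[I] t := mem_nhdsWithin_of_mem_nhds (Iio_mem_nhds hlt)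
      filter_upwards [h2, self_mem_nhdsWithin] with x hx1 hx2
      exact ⟨hx2.1, le_of_lt hx1⟩
    · push Not at h
      have h1 := hcI t ht t ⟨ht.1, le_refl t⟩
      exact h1.mono fun x hx => ⟨hx.1, h x hx⟩
  have h1 : AEStronglyMeasurable (I.indicator F) volume :=
    (aestronglyMeasurable_indicator_iff hIm).2 (hc.aestronglyMeasurable hIm)
  refine (h1.restrict (s := Icc 0 T)).congr ?_
  filter_upwards [ae_restrict_mem measurableSet_Icc] with t ht
  by_cases h : t ∈ I
  · rw [indicator_of_mem h]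
  · rw [indicator_of_notMem h, hF]
    have h2 : ¬ IntervalIntegrable g volume 0 t := fun h3 => h ⟨ht.1, h3⟩
    exact (intervalIntegral.integral_undef h2).symm

lemma sq_le_Mm {M n : ℕ} (a : ℕ → ℝ) (hn : n < 2 * M) : a n ^ 2 ≤ Mm M a :=
  Finset.single_le_sum (f := fun n => a n ^ 2) (fun _ _ => sq_nonneg _) (Finset.mem_range.2 hn)

/-- the functions `a n` are continuous -/
lemma cont_a {om : ℕ → ℝ} {ε : ℝ} {M : ℕ} {T X : ℝ} {a b : ℕ → ℝ → ℝ} (hT : 0 ≤ T)
    (hP : Prim om ε M T a b) (hX : ∀ t ∈ Icc 0 T, Mm M (fun k => a k t) ≤ X) :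
    ∀ n < 2 * M, ContinuousOn (a n) (Icc 0 T) := by
  have hint : ∀ n < 2 * M, IntervalIntegrable (a n) volume 0 T := by
    intro n hn
    have h1 : AEStronglyMeasurable (a n) (volume.restrict (Icc 0 T)) := by
      have h2 := (meas_prim (fun s => b n s + ε * rot om (fun k => a k s) n) T).const_add (a n 0)
      refine h2.congr ?_
      filter_upwards [ae_restrict_mem measurableSet_Icc] with t ht
      exact ((hP n hn).2 t ht).symm
    have h3 : IntegrableOn (a n) (Icc 0 T) volume := by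
      refine Integrable.of_bound h1 (√X) ?_
      filter_upwards [ae_restrict_mem measurableSet_Icc] with t ht
      rw [Real.norm_eq_abs]
      exact Real.abs_le_sqrt ((sq_le_Mm (fun k => a k t) hn).trans (hX t ht))
    rw [intervalIntegrable_iff_integrableOn_Ioc_of_le hT]
    exact h3.mono_set Ioc_subset_Icc_self
  intro n hn
  have hg : IntervalIntegrable (fun s => b n s + ε * rot om (fun k => a k s) n) volume 0 T := by
    refine (hP n hn).1.add ?_
    by_cases h : n % 2 = 0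
    · have e : (fun s => ε * rot om (fun k => a k s) n) =
          fun s => ε * (om (n / 2) * a (n + 1) s) := by
        funext s
        rw [rot, if_pos h]
      rw [e]
      exact ((hint (n + 1) (by omega)).const_mul _).const_mul _
    · have e : (fun s => ε * rot om (fun k => a k s) n) =
          fun s => ε * (-om (n / 2) * a (n - 1) s) := by
        funext s
        rw [rot, if_neg h]
        ring
      rw [e]
      exact ((hint (n - 1) (by omega)).const_mul _).const_mul _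
  have h1 := intervalIntegral.continuousOn_primitive_interval
    (μ := volume) (f := fun s => b n s + ε * rot om (fun k => a k s) n) (a := 0) (b := T) (by
      rw [uIcc_of_le hT, integrableOn_Icc_iff_integrableOn_Ioc]
      exact (intervalIntegrable_iff_integrableOn_Ioc_of_le hT).1 hg)
  rw [uIcc_of_le hT] at h1
  have h2 : ContinuousOn (fun t => a n 0 + ∫ s in (0 : ℝ)..t,
      (b n s + ε * rot om (fun k => a k s) n)) (Icc 0 T) := continuousOn_const.add h1
  exact h2.congr fun t ht => (hP n hn).2 t ht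

lemma cont_uu {M : ℕ} {T : ℝ} {a : ℕ → ℝ → ℝ} (hc : ∀ n < 2 * M, ContinuousOn (a n) (Icc 0 T))
    {κ : Ix} (hκ : κ ∈ IxN M) : ContinuousOn (fun s => uu (fun k => a k s) κ) (Icc 0 T) := by
  have h : κ.1 < M := by
    unfold IxN at hκ
    rw [Finset.mem_product, Finset.mem_range] at hκ
    exact hκ.1
  have h1 := Complex.continuous_ofReal.comp_continuousOn (hc (2 * κ.1) (by omega))
  have h2 := Complex.continuous_ofReal.comp_continuousOn (hc (2 * κ.1 + 1) (by omega))
  unfold uu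
  exact h1.add ((continuousOn_const.mul h2).mul continuousOn_const)

lemma cont_form {M : ℕ} {T : ℝ} {a : ℕ → ℝ → ℝ} (hc : ∀ n < 2 * M, ContinuousOn (a n) (Icc 0 T))
    (h : Ix → Ix → Ix → ℂ) : ContinuousOn (fun s => form M h (uu fun k => a k s)) (Icc 0 T) := by
  unfold form
  refine continuousOn_finsetSum _ fun κ hκ => continuousOn_finsetSum _ fun l hl =>
    continuousOn_finsetSum _ fun m hm => ?_
  exact continuousOn_const.mul (((cont_uu hc hκ).mul (cont_uu hc hl)).mul (cont_uu hc hm))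

/-- splitting of the flux -/
lemma splitw (bet : ℕ → ℕ → ℕ → ℝ) (lam om : ℕ → ℝ) (ε : ℝ) (hε : ε ≠ 0)
    (hL : ∀ κ l m : Ix, far2 lam om κ l m → Lm om κ l m ≠ 0) (N M : ℕ) (u : Ix → ℂ) :
    form M (cx (sigw bet (cut N))) u =
      form M (fun κ l m => hw bet lam om ε N κ l m * (-Complex.I * (ε * Lm om κ l m))) u +
        form M (restw bet lam om N) u := by
  rw [form_add]
  congr 1
  funext κ l m
  by_cases hf : far2 lam om κ l m
  · rw [hw, restw, if_pos hf, if_pos hf, add_zero]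
    have h1 : (ε : ℂ) ≠ 0 := by exact_mod_cast hε
    have h2 : (Lm om κ l m : ℂ) ≠ 0 := by exact_mod_cast hL κ l m hf
    field_simp
    rw [Complex.I_sq]
    ring
  · rw [hw, restw, if_neg hf, if_neg hf, zero_mul, zero_add]

lemma flux_eq (hCPX : S_CPX) (hSIGW : S_SIGW) (bet : ℕ → ℕ → ℕ → ℝ) {N M : ℕ} (h : N ≤ M)
    (a : ℕ → ℝ) : ((∑ n ∈ Finset.range (2 * N), a n * quad bet M a n : ℝ) : ℂ) =
      form M (cx (sigw bet (cut N))) (uu a) := by
  rw [← hCPX, ← hSIGW]
  congr 1
  have hs : Finset.range (2 * N) ⊆ Finset.range (2 * M) :=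
    Finset.range_subset_range.2 (by omega)
  rw [← Finset.sum_subset hs]
  · refine Finset.sum_congr rfl fun n hn => ?_
    have h1 : n / 2 < N := by
      have := Finset.mem_range.1 hn
      omega
    rw [cut, if_pos h1]
    ring
  · intro n _ hn
    have h1 : ¬ n / 2 < N := by
      rw [Finset.mem_range] at hn
      omega
    rw [cut, if_neg h1]
    ring

lemma GG_one {lam : ℕ → ℝ} (h : ∀ n, 0 < lam n) (j : ℕ) : 1 ≤ GG lam j := by
  have h1 := h (2 * j)
  have h2 := h (2 * j + 1)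
  unfold GG gg
  linarith

theorem main : S_FLX := by
  intro hCPX hSIGW hBW hHN hETA hKN hDRI bet lam om K c ε hD2 hG hε X Y
  have hD := hD2.dat
  obtain ⟨hL, B1, hB1, hh⟩ := hHN hBW bet lam om K c ε hD2 hG hε
  obtain ⟨B2, hB2, hEta⟩ := hETA lam K hD.pos hD2.cnt
  obtain ⟨B3, N₀, hB3, hKn⟩ := hKN hBW bet lam om K c hD2 hG
  obtain ⟨X₁, hX₁⟩ : ∃ X₁ : ℝ, X₁ = 2 * |X| := ⟨_, rfl⟩
  have hX₁0 : 0 ≤ X₁ := by rw [hX₁]; positivity
  refine ⟨2 * (B1 * (B2 * (X₁ * √X₁))) + B1 * (B2 * (X₁ * |Y|)) + B3 * √X * |Y|, N₀, ?_⟩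
  intro N hN Γ hΓ hΓ2 M T a b ζ hNM hT hP hX hζi hζ0 hζY hrhs hEY
  have hΓ0 : 0 < Γ := one_pos.trans_le hΓ
  obtain ⟨G, hGd⟩ : ∃ G : ℝ, G = Γ ^ (-(1 / 3) : ℝ) := ⟨_, rfl⟩
  obtain ⟨G', hGd'⟩ : ∃ G' : ℝ, G' = Γ ^ (-(1 / 12) : ℝ) := ⟨_, rfl⟩
  have hG0 : 0 ≤ G := by rw [hGd]; positivity
  have hG0' : 0 ≤ G' := by rw [hGd']; positivity
  have hGG' : G ≤ G' := by
    rw [hGd, hGd']
    exact Real.rpow_le_rpow_of_exponent_le hΓ (by norm_num)
  have hhw : ∀ κ l m : Ix, ‖hw bet lam om ε N κ l m‖ * mxG lam κ l m ≤ B1 * G * wt4 lam κ l m := by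
    rw [hGd]
    exact hh N Γ hΓ hΓ2
  have hmx1 : ∀ κ l m : Ix, GG lam κ.1 ≤ mxG lam κ l m := fun κ l m => le_max_left _ _
  have hmx2 : ∀ κ l m : Ix, GG lam l.1 ≤ mxG lam κ l m := fun κ l m =>
    (le_max_left _ _).trans (le_max_right _ _)
  have hmx3 : ∀ κ l m : Ix, GG lam m.1 ≤ mxG lam κ l m := fun κ l m =>
    (le_max_right _ _).trans (le_max_right _ _)
  have hhw1 : ∀ κ l m : Ix, ‖hw bet lam om ε N κ l m‖ ≤ B1 * G * wt4 lam κ l m := fun κ l m => by
    refine le_trans ?_ (hhw κ l m)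
    have h1 : 1 ≤ mxG lam κ l m := (GG_one hD.pos κ.1).trans (hmx1 κ l m)
    exact le_mul_of_one_le_right (norm_nonneg _) h1
  have hS : ∀ s ∈ Icc 0 T, ∑ κ ∈ IxN M, ‖uu (fun k => a k s) κ‖ ^ 2 ≤ X₁ := by
    intro s hs
    rw [sum_sq_uu, hX₁]
    have h1 := hX s hs
    have h2 := le_abs_self X
    linarith
  have hBG : 0 ≤ B1 * G := mul_nonneg hB1 hG0
  -- the correction
  have hform : ∀ s ∈ Icc 0 T, ‖form M (hw bet lam om ε N) (uu fun k => a k s)‖ ≤
      B1 * G * (B2 * (X₁ * √X₁)) := by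
    intro s hs
    obtain ⟨hEt1, -⟩ := hEta M (fun κ => ‖uu (fun k => a k s) κ‖) (fun _ => 0) X₁ 0
      (fun κ => norm_nonneg _) (fun _ => le_refl 0) (norm_uu_bar _) (le_refl 0) (hS s hs)
      (by simp)
    refine (norm_form_le _ _ _).trans ?_
    refine le_trans ?_ (mul_le_mul_of_nonneg_left hEt1 hBG)
    rw [Finset.mul_sum]
    refine Finset.sum_le_sum fun κ _ => ?_
    rw [Finset.mul_sum]
    refine Finset.sum_le_sum fun l _ => ?_
    rw [Finset.mul_sum]
    refine Finset.sum_le_sum fun m _ => ?_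
    have h0 : 0 ≤ ‖uu (fun k => a k s) κ‖ * ‖uu (fun k => a k s) l‖ * ‖uu (fun k => a k s) m‖ := by
      positivity
    exact (mul_le_mul_of_nonneg_right (hhw1 κ l m) h0).trans_eq (mul_assoc _ _ _)
  have hdform : ∀ᵐ s ∂(volume.restrict (Ioc 0 T)),
      ‖dform M (hw bet lam om ε N) (uu fun k => a k s) (uu fun k => b k s)‖ ≤
        B1 * G * (B2 * (X₁ * ζ s)) := by
    filter_upwards [hrhs, ae_restrict_mem measurableSet_Ioc] with s hs hsI
    have hsI' : s ∈ Icc 0 T := Ioc_subset_Icc_self hsI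
    obtain ⟨-, hEt2⟩ := hEta M (fun κ => ‖uu (fun k => a k s) κ‖)
      (fun κ => ‖uu (fun k => b k s) κ‖ / GG lam κ.1) X₁ (ζ s)
      (fun κ => norm_nonneg _)
      (fun κ => div_nonneg (norm_nonneg _) (zero_le_one.trans (GG_one hD.pos κ.1)))
      (norm_uu_bar _) (hζ0 s) (hS s hsI') hs
    refine (norm_dform_le _ _ _ _).trans ?_
    refine le_trans ?_ (mul_le_mul_of_nonneg_left hEt2 hBG)
    rw [Finset.mul_sum]
    refine Finset.sum_le_sum fun κ _ => ?_
    rw [Finset.mul_sum]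
    refine Finset.sum_le_sum fun l _ => ?_
    rw [Finset.mul_sum]
    refine Finset.sum_le_sum fun m _ => ?_
    have hy : ∀ ι : Ix, ‖uu (fun k => b k s) ι‖ = GG lam ι.1 * (‖uu (fun k => b k s) ι‖ / GG lam ι.1) := by
      intro ι
      have : GG lam ι.1 ≠ 0 := (one_pos.trans_le (GG_one hD.pos ι.1)).ne'
      field_simp
    have hy0 : ∀ ι : Ix, 0 ≤ ‖uu (fun k => b k s) ι‖ / GG lam ι.1 := fun ι =>
      div_nonneg (norm_nonneg _) (zero_le_one.trans (GG_one hD.pos ι.1))
    have h1 : ∀ ι : Ix, GG lam ι.1 ≤ mxG lam κ l m → ‖uu (fun k => b k s) ι‖ ≤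
        mxG lam κ l m * (‖uu (fun k => b k s) ι‖ / GG lam ι.1) := by
      intro ι hι
      conv_lhs => rw [hy ι]
      exact mul_le_mul_of_nonneg_right hι (hy0 ι)
    have k1 := h1 κ (hmx1 κ l m)
    have k2 := h1 l (hmx2 κ l m)
    have k3 := h1 m (hmx3 κ l m)
    have hmx0 : 0 ≤ mxG lam κ l m := zero_le_one.trans ((GG_one hD.pos κ.1).trans (hmx1 κ l m))
    have hP0 : 0 ≤ ‖uu (fun k => b k s) κ‖ / GG lam κ.1 * ‖uu (fun k => a k s) l‖ * ‖uu (fun k => a k s) m‖ +
        ‖uu (fun k => a k s) κ‖ * (‖uu (fun k => b k s) l‖ / GG lam l.1) * ‖uu (fun k => a k s) m‖ +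
        ‖uu (fun k => a k s) κ‖ * ‖uu (fun k => a k s) l‖ * (‖uu (fun k => b k s) m‖ / GG lam m.1) := by
      have := hy0 κ
      have := hy0 l
      have := hy0 m
      positivity
    calc ‖hw bet lam om ε N κ l m‖ *
          (‖uu (fun k => b k s) κ‖ * ‖uu (fun k => a k s) l‖ * ‖uu (fun k => a k s) m‖ +
            ‖uu (fun k => a k s) κ‖ * ‖uu (fun k => b k s) l‖ * ‖uu (fun k => a k s) m‖ +
            ‖uu (fun k => a k s) κ‖ * ‖uu (fun k => a k s) l‖ * ‖uu (fun k => b k s) m‖)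
        ≤ ‖hw bet lam om ε N κ l m‖ *
          ((mxG lam κ l m * (‖uu (fun k => b k s) κ‖ / GG lam κ.1)) * ‖uu (fun k => a k s) l‖ * ‖uu (fun k => a k s) m‖ +
            ‖uu (fun k => a k s) κ‖ * (mxG lam κ l m * (‖uu (fun k => b k s) l‖ / GG lam l.1)) * ‖uu (fun k => a k s) m‖ +
            ‖uu (fun k => a k s) κ‖ * ‖uu (fun k => a k s) l‖ * (mxG lam κ l m * (‖uu (fun k => b k s) m‖ / GG lam m.1))) := by
          gcongr
      _ = ‖hw bet lam om ε N κ l m‖ * mxG lam κ l m *
          (‖uu (fun k => b k s) κ‖ / GG lam κ.1 * ‖uu (fun k => a k s) l‖ * ‖uu (fun k => a k s) m‖ +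
        ‖uu (fun k => a k s) κ‖ * (‖uu (fun k => b k s) l‖ / GG lam l.1) * ‖uu (fun k => a k s) m‖ +
        ‖uu (fun k => a k s) κ‖ * ‖uu (fun k => a k s) l‖ * (‖uu (fun k => b k s) m‖ / GG lam m.1)) := by
          ring
      _ ≤ B1 * G * wt4 lam κ l m * _ := mul_le_mul_of_nonneg_right (hhw κ l m) hP0
      _ = _ := by rw [mul_assoc (B1 * G)]
  -- the integrals
  have hca := cont_a hT hP hX
  obtain ⟨hDi, hDe⟩ := hDRI (hw bet lam om ε N) om ε M T a b hT hP
  have hA : IntervalIntegrable (fun s => form M (fun κ l m => hw bet lam om ε N κ l m *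
      (-Complex.I * (ε * Lm om κ l m))) (uu fun k => a k s)) volume 0 T :=
    ContinuousOn.intervalIntegrable (by rw [uIcc_of_le hT]; exact cont_form hca _)
  have hR : IntervalIntegrable (fun s => form M (restw bet lam om N) (uu fun k => a k s)) volume 0 T :=
    ContinuousOn.intervalIntegrable (by rw [uIcc_of_le hT]; exact cont_form hca _)
  rw [intervalIntegral.integral_add hA hDi] at hDe
  have hflux : ((∫ s in (0 : ℝ)..T, ∑ n ∈ Finset.range (2 * N), a n s * quad bet M (fun k => a k s) n : ℝ) : ℂ) =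
      (∫ s in (0 : ℝ)..T, form M (fun κ l m => hw bet lam om ε N κ l m *
      (-Complex.I * (ε * Lm om κ l m))) (uu fun k => a k s)) +
      ∫ s in (0 : ℝ)..T, form M (restw bet lam om N) (uu fun k => a k s) := by
    rw [← intervalIntegral.integral_add hA hR, ← intervalIntegral.integral_ofReal]
    refine intervalIntegral.integral_congr fun s _ => ?_
    show ((∑ n ∈ Finset.range (2 * N), a n s * quad bet M (fun k => a k s) n : ℝ) : ℂ) = _
    rw [flux_eq hCPX hSIGW bet hNM (fun k => a k s), splitw bet lam om ε hε hL]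
  have hR1 : ‖∫ s in (0 : ℝ)..T, form M (restw bet lam om N) (uu fun k => a k s)‖ ≤
      B3 * √X * G' * |Y| := by
    have hi : IntervalIntegrable (fun s => B3 * √X * G' *
        ∑ n ∈ Finset.range (2 * M), GG lam (n / 2) * a n s ^ 2) volume 0 T := by
      refine ContinuousOn.intervalIntegrable ?_
      rw [uIcc_of_le hT]
      refine continuousOn_const.mul (continuousOn_finsetSum _ fun n hn => ?_)
      exact continuousOn_const.mul ((hca n (Finset.mem_range.1 hn)).pow 2)
    have h1 := intervalIntegral.norm_integral_le_of_norm_le hT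
      (f := fun s => form M (restw bet lam om N) (uu fun k => a k s))
      (Filter.Eventually.of_forall fun s hs => by
        have h2 := hKn N hN Γ hΓ hΓ2 M (fun k => a k s) X (hX s (Ioc_subset_Icc_self hs))
        rw [← hGd'] at h2
        exact h2) hi
    refine h1.trans ?_
    rw [intervalIntegral.integral_const_mul]
    exact mul_le_mul_of_nonneg_left (hEY.trans (le_abs_self Y)) (by positivity)
  have hD1 : ‖∫ s in (0 : ℝ)..T, dform M (hw bet lam om ε N) (uu fun k => a k s) (uu fun k => b k s)‖ ≤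
      B1 * G * (B2 * (X₁ * |Y|)) := by
    have hi : IntervalIntegrable (fun s => B1 * G * (B2 * (X₁ * ζ s))) volume 0 T :=
      ((hζi.const_mul _).const_mul _).const_mul _
    have h1 := intervalIntegral.norm_integral_le_of_norm_le hT
      (f := fun s => dform M (hw bet lam om ε N) (uu fun k => a k s) (uu fun k => b k s))
      (by
        rw [ae_restrict_iff' measurableSet_Ioc] at hdform
        exact hdform) hi
    refine h1.trans ?_
    rw [intervalIntegral.integral_const_mul, intervalIntegral.integral_const_mul,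
      intervalIntegral.integral_const_mul]
    have h2 := hζY.trans (le_abs_self Y)
    gcongr
  have hfT := hform T ⟨hT, le_refl T⟩
  have hf0 := hform 0 ⟨le_refl 0, hT⟩
  have hfin : |∫ s in (0 : ℝ)..T, ∑ n ∈ Finset.range (2 * N), a n s * quad bet M (fun k => a k s) n| ≤
      2 * (B1 * G * (B2 * (X₁ * √X₁))) + B1 * G * (B2 * (X₁ * |Y|)) + B3 * √X * G' * |Y| := by
    rw [← Real.norm_eq_abs, ← Complex.norm_real, hflux]
    have e : (∫ s in (0 : ℝ)..T, form M (fun κ l m => hw bet lam om ε N κ l m *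
        (-Complex.I * (ε * Lm om κ l m))) (uu fun k => a k s)) =
        form M (hw bet lam om ε N) (uu fun k => a k T) - form M (hw bet lam om ε N) (uu fun k => a k 0) -
          ∫ s in (0 : ℝ)..T, dform M (hw bet lam om ε N) (uu fun k => a k s) (uu fun k => b k s) := by
      rw [hDe]
      ring
    rw [e]
    refine (norm_add_le _ _).trans ?_
    have h1 := norm_sub_le (form M (hw bet lam om ε N) (uu fun k => a k T) -
      form M (hw bet lam om ε N) (uu fun k => a k 0))
      (∫ s in (0 : ℝ)..T, dform M (hw bet lam om ε N) (uu fun k => a k s) (uu fun k => b k s))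
    have h2 := norm_sub_le (form M (hw bet lam om ε N) (uu fun k => a k T))
      (form M (hw bet lam om ε N) (uu fun k => a k 0))
    linarith
  rw [← hGd']
  refine hfin.trans ?_
  have h1 : B1 * G * (B2 * (X₁ * √X₁)) ≤ B1 * G' * (B2 * (X₁ * √X₁)) := by gcongr
  have h2 : B1 * G * (B2 * (X₁ * |Y|)) ≤ B1 * G' * (B2 * (X₁ * |Y|)) := by gcongr
  calc 2 * (B1 * G * (B2 * (X₁ * √X₁))) + B1 * G * (B2 * (X₁ * |Y|)) + B3 * √X * G' * |Y|
      ≤ 2 * (B1 * G' * (B2 * (X₁ * √X₁))) + B1 * G' * (B2 * (X₁ * |Y|)) + B3 * √X * G' * |Y| := by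
        linarith
    _ = _ := by ring

end Pool.Agent.U401.DD.FLX461

theorem Pool.Agent.U401.DD.t_FLX : Pool.Agent.U401.DD.S_FLX := Pool.Agent.U401.DD.FLX461.main
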