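import Mathlib
import Pool.Agent.U401.DD.Stm4

set_option autoImplicit false

/-!
Project DD, package HB2: the coefficients of the normal form (after package HB by helper129).
-/

namespace Pool.Agent.U401.DD

open Set

namespace HB2

lemma root {n A y : ℝ} {m : ℕ} (hA : 0 ≤ A) (hy : 0 < y) (h : n ^ 4 ≤ A ^ 4 * y ^ m) :
    n ≤ A * y ^ ((m : ℝ) / 4) := by
  refine le_of_pow_le_pow_left₀ (n := 4) (by norm_num) (by positivity) ?_
  rw [mul_pow, ← Real.rpow_natCast (y ^ ((m : ℝ) / 4)) 4, ← Real.rpow_mul hy.le]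
  have h1 : (m : ℝ) / 4 * ((4 : ℕ) : ℝ) = m := by push_cast; ring
  rw [h1, Real.rpow_natCast]
  exact h

lemma le_four {K : ℝ} (hK : 0 ≤ K) : K ≤ (K + 1) ^ 4 := by
  calc K ≤ K + 1 := by linarith
    _ = (K + 1) ^ 1 := (pow_one _).symm
    _ ≤ (K + 1) ^ 4 := pow_le_pow_right₀ (by linarith) (by norm_num)

lemma triv {K' c e y x g n L : ℝ} (hK : 0 ≤ K') (hc : 0 < c) (he : 0 < e) (hy : 1 ≤ y)
    (hx0 : 0 ≤ x) (hx : x ≤ y ^ 3) (hg0 : 0 ≤ g) (hg : g ≤ y)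
    (hn : n ^ 4 ≤ K' * ((x + g) ^ 4 * (x ^ 3 * g ^ 2))) (hL : c * y ^ 8 ≤ L) :
    n * (1 / (e * L)) ≤ 2 * (K' + 1) / (e * c) * y ^ (-(9 / 4) : ℝ) := by
  have hy0 : 0 < y := by linarith
  have hy3 : y ≤ y ^ 3 := by
    calc y = y ^ 1 := (pow_one y).symm
      _ ≤ y ^ 3 := pow_le_pow_right₀ hy (by norm_num)
  have h1 : (x + g) ^ 4 ≤ (2 * y ^ 3) ^ 4 := pow_le_pow_left₀ (by positivity) (by linarith) 4
  have h2 : x ^ 3 ≤ (y ^ 3) ^ 3 := pow_le_pow_left₀ hx0 hx 3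
  have h3 : g ^ 2 ≤ y ^ 2 := pow_le_pow_left₀ hg0 hg 2
  have h4 : (x + g) ^ 4 * (x ^ 3 * g ^ 2) ≤ (2 * y ^ 3) ^ 4 * ((y ^ 3) ^ 3 * y ^ 2) :=
    mul_le_mul h1 (mul_le_mul h2 h3 (by positivity) (by positivity)) (by positivity)
      (by positivity)
  have h5 : n ^ 4 ≤ (2 * (K' + 1)) ^ 4 * y ^ 23 := by
    have e1 : (2 * y ^ 3) ^ 4 * ((y ^ 3) ^ 3 * y ^ 2) = 16 * y ^ 23 := by ring
    calc n ^ 4 ≤ K' * (16 * y ^ 23) := by
          rw [← e1]; exact hn.trans (mul_le_mul_of_nonneg_left h4 hK)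
      _ ≤ (K' + 1) ^ 4 * (16 * y ^ 23) :=
          mul_le_mul_of_nonneg_right (le_four hK) (by positivity)
      _ = (2 * (K' + 1)) ^ 4 * y ^ 23 := by ring
  have h6 : n ≤ 2 * (K' + 1) * y ^ (((23 : ℕ) : ℝ) / 4) := root (by positivity) hy0 h5
  have hL0 : 0 < c * y ^ 8 := by positivity
  have h7 : 1 / (e * L) ≤ 1 / (e * (c * y ^ 8)) :=
    one_div_le_one_div_of_le (by positivity) (mul_le_mul_of_nonneg_left hL he.le)
  have hLe : 0 ≤ 1 / (e * L) := by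
    have : 0 < L := lt_of_lt_of_le hL0 hL
    positivity
  have h8 : y ^ (((23 : ℕ) : ℝ) / 4) = y ^ (-(9 / 4) : ℝ) * y ^ 8 := by
    rw [← Real.rpow_natCast y 8, ← Real.rpow_add hy0]
    congr 1
    norm_num
  calc n * (1 / (e * L)) ≤ (2 * (K' + 1) * y ^ (((23 : ℕ) : ℝ) / 4)) * (1 / (e * (c * y ^ 8))) :=
        mul_le_mul h6 h7 hLe (by positivity)
    _ = 2 * (K' + 1) / (e * c) * y ^ (-(9 / 4) : ℝ) := by
        rw [h8]
        field_simp

lemma gen {K e M n L : ℝ} (hK : 0 ≤ K) (he : 0 < e) (hM : 1 ≤ M) (hn : n ^ 4 ≤ K * M ^ 9)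
    (hL : M ^ 6 ≤ L) :
    n * (1 / (e * L)) ≤ (K + 1) / e * M ^ (-(15 / 4) : ℝ) := by
  have hM0 : 0 < M := by linarith
  have h1 : n ^ 4 ≤ (K + 1) ^ 4 * M ^ 9 :=
    hn.trans (mul_le_mul_of_nonneg_right (le_four hK) (by positivity))
  have h2 : n ≤ (K + 1) * M ^ (((9 : ℕ) : ℝ) / 4) := root (by positivity) hM0 h1
  have hL0 : 0 < M ^ 6 := by positivity
  have h7 : 1 / (e * L) ≤ 1 / (e * M ^ 6) :=
    one_div_le_one_div_of_le (by positivity) (mul_le_mul_of_nonneg_left hL he.le)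
  have hLe : 0 ≤ 1 / (e * L) := by
    have : 0 < L := lt_of_lt_of_le hL0 hL
    positivity
  have h8 : M ^ (((9 : ℕ) : ℝ) / 4) = M ^ (-(15 / 4) : ℝ) * M ^ 6 := by
    rw [← Real.rpow_natCast M 6, ← Real.rpow_add hM0]
    congr 1
    norm_num
  calc n * (1 / (e * L)) ≤ ((K + 1) * M ^ (((9 : ℕ) : ℝ) / 4)) * (1 / (e * M ^ 6)) :=
        mul_le_mul h2 h7 hLe (by positivity)
    _ = (K + 1) / e * M ^ (-(15 / 4) : ℝ) := by
        rw [h8]
        field_simp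

lemma fr_bar (om : ℕ → ℝ) (κ : Ix) : fr om κ + fr om (bar κ) = 0 := by
  obtain ⟨j, b⟩ := κ
  cases b <;> simp [fr, bar, sg]

lemma abs_fr (om : ℕ → ℝ) (κ : Ix) : |fr om κ| = |om κ.1| := by
  obtain ⟨j, b⟩ := κ
  cases b <;> simp [fr, sg]

lemma Lm_1 (om : ℕ → ℝ) (κ m : Ix) : |Lm om κ (bar κ) m| = |om m.1| := by
  rw [← abs_fr]
  congr 1
  have := fr_bar om κ
  unfold Lm
  linarith

lemma Lm_2 (om : ℕ → ℝ) (κ m : Ix) : |Lm om κ m (bar κ)| = |om m.1| := by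
  rw [← abs_fr]
  congr 1
  have := fr_bar om κ
  unfold Lm
  linarith

lemma Lm_3 (om : ℕ → ℝ) (κ m : Ix) : |Lm om m κ (bar κ)| = |om m.1| := by
  rw [← abs_fr]
  congr 1
  have := fr_bar om κ
  unfold Lm
  linarith

end HB2

theorem t_HB2 : S_HB2 := by
  intro hB hB2 bet lam om K c ε hD2 hG hε
  have hD := hD2.dat
  obtain ⟨-, -, K', hK', hb2⟩ := hB bet lam K hD
  obtain ⟨K'', hK'', hb4⟩ := hB2 hB bet lam K hD2
  have hgg : ∀ j, 0 < gg lam j := fun j => add_pos (hD.pos _) (hD.pos _)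
  have hGG1 : ∀ j, 1 ≤ GG lam j := fun j => by
    have := hgg j
    unfold GG
    linarith
  have hGG0 : ∀ j, 0 ≤ GG lam j := fun j => zero_le_one.trans (hGG1 j)
  have hGGp : ∀ j, 0 < GG lam j := fun j => zero_lt_one.trans_le (hGG1 j)
  have hom : ∀ j, 0 < |om j| := fun j =>
    lt_of_lt_of_le (mul_pos hG.pos (pow_pos (hGGp j) 8)) (hG.low j)
  have hmx1 : ∀ κ l m : Ix, 1 ≤ mxG lam κ l m := fun κ l m => (hGG1 κ.1).trans (le_max_left _ _)
  have he : 0 < |ε| := abs_pos.mpr hε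
  have hc := hG.pos
  have hwt : ∀ κ l m : Ix, 0 ≤ mxG lam κ l m ^ (-(15 / 4) : ℝ) := fun κ l m =>
    Real.rpow_nonneg (zero_le_one.trans (hmx1 κ l m)) _
  have hi0 : ∀ j, 0 ≤ GG lam j ^ (-(9 / 4) : ℝ) := fun j => Real.rpow_nonneg (hGG0 j) _
  refine ⟨?_, ?_⟩
  · rintro κ l m ⟨-, ⟨-, h⟩ | ⟨rfl, -⟩ | ⟨rfl, -⟩ | ⟨rfl, -⟩⟩
    · have h1 : 1 ≤ mxG lam κ l m ^ 6 := one_le_pow₀ (hmx1 κ l m)
      exact abs_pos.mp (lt_of_lt_of_le zero_lt_one (h1.trans h))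
    · exact abs_pos.mp (by rw [HB2.Lm_1]; exact hom _)
    · exact abs_pos.mp (by rw [HB2.Lm_2]; exact hom _)
    · exact abs_pos.mp (by rw [HB2.Lm_3]; exact hom _)
  · refine ⟨(K'' + 1) / |ε| + 2 * (K' + 1) / (|ε| * c), by positivity, ?_⟩
    intro κ l m
    have hKe : 0 ≤ (K'' + 1) / |ε| := by positivity
    have hKc : 0 ≤ 2 * (K' + 1) / (|ε| * c) := by positivity
    have hs1 : 0 ≤ (if l = bar κ then GG lam m.1 ^ (-(9 / 4) : ℝ) else 0) := by
      split_ifs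
      · exact hi0 _
      · exact le_refl _
    have hs2 : 0 ≤ (if m = bar κ then GG lam l.1 ^ (-(9 / 4) : ℝ) else 0) := by
      split_ifs
      · exact hi0 _
      · exact le_refl _
    have hs3 : 0 ≤ (if m = bar l then GG lam κ.1 ^ (-(9 / 4) : ℝ) else 0) := by
      split_ifs
      · exact hi0 _
      · exact le_refl _
    have hw0 : 0 ≤ wt2 lam κ l m := by
      unfold wt2
      have := hwt κ l m
      convert add_nonneg (add_nonneg (add_nonneg this hs1) hs2) hs3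
    have hBig : ∀ w q : ℝ, 0 ≤ q → q ≤ (K'' + 1) / |ε| + 2 * (K' + 1) / (|ε| * c) →
        w ≤ wt2 lam κ l m →
        q * w ≤ ((K'' + 1) / |ε| + 2 * (K' + 1) / (|ε| * c)) * wt2 lam κ l m := by
      intro w q hq hq2 hw
      exact (mul_le_mul_of_nonneg_left hw hq).trans (mul_le_mul_of_nonneg_right hq2 hw0)
    unfold hnf2
    split_ifs with hfar
    · have hnorm : ‖cx (sig bet lam) κ l m * (Complex.I / (ε * Lm om κ l m))‖ =
          ‖cx (sig bet lam) κ l m‖ * (1 / (|ε| * |Lm om κ l m|)) := by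
        rw [norm_mul, norm_div, Complex.norm_I, norm_mul, Complex.norm_real, Complex.norm_real,
          Real.norm_eq_abs, Real.norm_eq_abs]
      rw [hnorm]
      obtain ⟨-, ⟨-, h⟩ | ⟨rfl, h⟩ | ⟨rfl, h⟩ | ⟨rfl, h⟩⟩ := hfar
      · refine (HB2.gen hK'' he (hmx1 κ l m) (hb4 κ l m) h).trans ?_
        apply hBig _ _ hKe (by linarith)
        unfold wt2
        have e1 := hs1
        have e2 := hs2
        have e3 := hs3
        convert (show mxG lam κ l m ^ (-(15 / 4) : ℝ) ≤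
          mxG lam κ l m ^ (-(15 / 4) : ℝ) +
          (if l = bar κ then GG lam m.1 ^ (-(9 / 4) : ℝ) else 0) +
          (if m = bar κ then GG lam l.1 ^ (-(9 / 4) : ℝ) else 0) +
          (if m = bar l then GG lam κ.1 ^ (-(9 / 4) : ℝ) else 0) by linarith)
      · refine (HB2.triv hK' hc he (hGG1 m.1) (hGG0 κ.1) h (hGG0 m.1) le_rfl
          (hb2 κ m).1 (by rw [HB2.Lm_1]; exact hG.low m.1)).trans ?_
        apply hBig _ _ hKc (by linarith)
        have e0 := hwt κ (bar κ) m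
        have e2 := hs2
        have e3 := hs3
        unfold wt2
        rw [if_pos rfl]
        convert (show GG lam m.1 ^ (-(9 / 4) : ℝ) ≤
          mxG lam κ (bar κ) m ^ (-(15 / 4) : ℝ) +
          GG lam m.1 ^ (-(9 / 4) : ℝ) +
          (if m = bar κ then GG lam (bar κ).1 ^ (-(9 / 4) : ℝ) else 0) +
          (if m = bar (bar κ) then GG lam κ.1 ^ (-(9 / 4) : ℝ) else 0) by linarith)
      · refine (HB2.triv hK' hc he (hGG1 l.1) (hGG0 κ.1) h (hGG0 l.1) le_rfl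
          (hb2 κ l).2.1 (by rw [HB2.Lm_2]; exact hG.low l.1)).trans ?_
        apply hBig _ _ hKc (by linarith)
        have e0 := hwt κ l (bar κ)
        have e1 := hs1
        have e3 := hs3
        unfold wt2
        rw [if_pos (rfl : bar κ = bar κ)]
        convert (show GG lam l.1 ^ (-(9 / 4) : ℝ) ≤
          mxG lam κ l (bar κ) ^ (-(15 / 4) : ℝ) +
          (if l = bar κ then GG lam (bar κ).1 ^ (-(9 / 4) : ℝ) else 0) +
          GG lam l.1 ^ (-(9 / 4) : ℝ) +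
          (if bar κ = bar l then GG lam κ.1 ^ (-(9 / 4) : ℝ) else 0) by linarith)
      · refine (HB2.triv hK' hc he (hGG1 κ.1) (hGG0 l.1) h (hGG0 κ.1) le_rfl
          (hb2 l κ).2.2 (by rw [HB2.Lm_3]; exact hG.low κ.1)).trans ?_
        apply hBig _ _ hKc (by linarith)
        have e0 := hwt κ l (bar l)
        have e1 := hs1
        have e2 := hs2
        unfold wt2
        rw [if_pos (rfl : bar l = bar l)]
        convert (show GG lam κ.1 ^ (-(9 / 4) : ℝ) ≤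
          mxG lam κ l (bar l) ^ (-(15 / 4) : ℝ) +
          (if l = bar κ then GG lam (bar l).1 ^ (-(9 / 4) : ℝ) else 0) +
          (if bar l = bar κ then GG lam l.1 ^ (-(9 / 4) : ℝ) else 0) +
          GG lam κ.1 ^ (-(9 / 4) : ℝ) by linarith)
    · rw [norm_zero]
      exact mul_nonneg (by positivity) hw0

end Pool.Agent.U401.DD

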