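import Mathlib
import Pool.Agent.U401.DD.Stm5
import Pool.Agent.U401.DD.HB2

set_option autoImplicit false

/-!
Project EE, package HN: the coefficients of the normal form (helper208, after HB2).
-/

namespace Pool.Agent.U401.DD

open Set

namespace HN

lemma inv_le {G y : ℝ} (hG : 1 ≤ G) (hy : 0 < y) (h : G ≤ y ^ 3) :
    y ^ (-1 : ℝ) ≤ G ^ (-(1 / 3) : ℝ) := by
  have hG0 : 0 < G := by linarith
  have h1 : G ^ (1 / 3 : ℝ) ≤ y := by
    calc G ^ (1 / 3 : ℝ) ≤ (y ^ 3) ^ (1 / 3 : ℝ) := Real.rpow_le_rpow hG0.le h (by norm_num)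
      _ = y := by
        rw [← Real.rpow_natCast y 3, ← Real.rpow_mul hy.le]
        norm_num
  rw [Real.rpow_neg hG0.le, Real.rpow_neg_one]
  exact inv_anti₀ (Real.rpow_pos_of_pos hG0 _) h1

lemma gen {K e M n L G : ℝ} (hK : 0 ≤ K) (he : 0 < e) (hG : 1 ≤ G) (hGM : G ≤ M)
    (hn : n ^ 4 ≤ K * M ^ 5) (hL : M ^ 6 ≤ L) :
    n * (1 / (e * L)) * M ≤ (K + 1) / e * (G ^ (-(1 / 3) : ℝ) * M ^ (-(11 / 4) : ℝ)) := by
  have hM : 1 ≤ M := hG.trans hGM
  have hM0 : 0 < M := by linarith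
  have h1 : n ^ 4 ≤ (K + 1) ^ 4 * M ^ 5 :=
    hn.trans (mul_le_mul_of_nonneg_right (HB2.le_four hK) (by positivity))
  have h2 : n ≤ (K + 1) * M ^ (((5 : ℕ) : ℝ) / 4) := HB2.root (by positivity) hM0 h1
  have hL0 : 0 < M ^ 6 := by positivity
  have h7 : 1 / (e * L) ≤ 1 / (e * M ^ 6) :=
    one_div_le_one_div_of_le (by positivity) (mul_le_mul_of_nonneg_left hL he.le)
  have hLe : 0 ≤ 1 / (e * L) := by
    have : 0 < L := lt_of_lt_of_le hL0 hL
    positivity
  have h8 : M ^ (((5 : ℕ) : ℝ) / 4) * M = M ^ (-1 : ℝ) * M ^ (-(11 / 4) : ℝ) * M ^ 6 := by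
    rw [← Real.rpow_natCast M 6, ← Real.rpow_add hM0, ← Real.rpow_add hM0,
      ← Real.rpow_add_one hM0.ne']
    congr 1
    norm_num
  have h9 : M ^ (-1 : ℝ) ≤ G ^ (-(1 / 3) : ℝ) := by
    refine inv_le hG hM0 (hGM.trans ?_)
    calc M = M ^ 1 := (pow_one M).symm
      _ ≤ M ^ 3 := pow_le_pow_right₀ hM (by norm_num)
  have h10 : 0 < M ^ (-(11 / 4) : ℝ) := Real.rpow_pos_of_pos hM0 _
  calc n * (1 / (e * L)) * M ≤ ((K + 1) * M ^ (((5 : ℕ) : ℝ) / 4)) * (1 / (e * M ^ 6)) * M :=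
        mul_le_mul_of_nonneg_right (mul_le_mul h2 h7 hLe (by positivity)) hM0.le
    _ = (K + 1) / (e * M ^ 6) * (M ^ (((5 : ℕ) : ℝ) / 4) * M) := by ring
    _ = (K + 1) / e * (M ^ (-1 : ℝ) * M ^ (-(11 / 4) : ℝ)) := by
        rw [h8]
        field_simp
    _ ≤ _ := by gcongr

lemma triv {K c e y x n L M G : ℝ} (hK : 0 ≤ K) (hc : 0 < c) (he : 0 < e) (hy : 1 ≤ y)
    (hx0 : 0 ≤ x) (hx : x ≤ y ^ 3) (hM0 : 0 ≤ M) (hM : M ≤ y ^ 3)
    (hn : n ^ 4 ≤ K * (x ^ 3 * y ^ 2)) (hL : c * y ^ 8 ≤ L) (hG : 1 ≤ G) (hGy : G ≤ y ^ 3) :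
    n * (1 / (e * L)) * M ≤ (K + 1) / (e * c) * (G ^ (-(1 / 3) : ℝ) * y ^ (-(5 / 4) : ℝ)) := by
  have hy0 : 0 < y := by linarith
  have h2 : x ^ 3 ≤ (y ^ 3) ^ 3 := pow_le_pow_left₀ hx0 hx 3
  have h5 : n ^ 4 ≤ (K + 1) ^ 4 * y ^ 11 := by
    calc n ^ 4 ≤ K * (x ^ 3 * y ^ 2) := hn
      _ ≤ K * ((y ^ 3) ^ 3 * y ^ 2) := by gcongr
      _ = K * y ^ 11 := by ring
      _ ≤ (K + 1) ^ 4 * y ^ 11 := mul_le_mul_of_nonneg_right (HB2.le_four hK) (by positivity)
  have h6 : n ≤ (K + 1) * y ^ (((11 : ℕ) : ℝ) / 4) := HB2.root (by positivity) hy0 h5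
  have hL0 : 0 < c * y ^ 8 := by positivity
  have h7 : 1 / (e * L) ≤ 1 / (e * (c * y ^ 8)) :=
    one_div_le_one_div_of_le (by positivity) (mul_le_mul_of_nonneg_left hL he.le)
  have hLe : 0 ≤ 1 / (e * L) := by
    have : 0 < L := lt_of_lt_of_le hL0 hL
    positivity
  have h8 : y ^ (((11 : ℕ) : ℝ) / 4) * y ^ 3 = y ^ (-1 : ℝ) * y ^ (-(5 / 4) : ℝ) * y ^ 8 := by
    rw [← Real.rpow_natCast y 8, ← Real.rpow_natCast y 3, ← Real.rpow_add hy0,
      ← Real.rpow_add hy0, ← Real.rpow_add hy0]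
    congr 1
    norm_num
  have h9 : y ^ (-1 : ℝ) ≤ G ^ (-(1 / 3) : ℝ) := inv_le hG hy0 hGy
  have h10 : 0 < y ^ (-(5 / 4) : ℝ) := Real.rpow_pos_of_pos hy0 _
  calc n * (1 / (e * L)) * M
      ≤ ((K + 1) * y ^ (((11 : ℕ) : ℝ) / 4)) * (1 / (e * (c * y ^ 8))) * y ^ 3 :=
        mul_le_mul (mul_le_mul h6 h7 hLe (by positivity)) hM hM0 (by positivity)
    _ = (K + 1) / (e * (c * y ^ 8)) * (y ^ (((11 : ℕ) : ℝ) / 4) * y ^ 3) := by ring
    _ = (K + 1) / (e * c) * (y ^ (-1 : ℝ) * y ^ (-(5 / 4) : ℝ)) := by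
        rw [h8]
        field_simp
    _ ≤ _ := by gcongr

lemma max3 {a b y : ℝ} (hy : 1 ≤ y) (ha : a ≤ y ^ 3) (hb : b = y) : max a b ≤ y ^ 3 := by
  rw [hb]
  refine max_le ha ?_
  calc y = y ^ 1 := (pow_one y).symm
    _ ≤ y ^ 3 := pow_le_pow_right₀ hy (by norm_num)

lemma le_cube {y : ℝ} (hy : 1 ≤ y) : y ≤ y ^ 3 := by
  calc y = y ^ 1 := (pow_one y).symm
    _ ≤ y ^ 3 := pow_le_pow_right₀ hy (by norm_num)

end HN

theorem t_HN : S_HN := by
  intro hB bet lam om K c ε hD2 hG hε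
  have hD := hD2.dat
  obtain ⟨K', hK', hb⟩ := hB bet lam K hD2
  have hgg : ∀ j, 0 < gg lam j := fun j => add_pos (hD.pos _) (hD.pos _)
  have hGG1 : ∀ j, 1 ≤ GG lam j := fun j => by
    have := hgg j
    unfold GG
    linarith
  have hGG0 : ∀ j, 0 ≤ GG lam j := fun j => zero_le_one.trans (hGG1 j)
  have hGGp : ∀ j, 0 < GG lam j := fun j => zero_lt_one.trans_le (hGG1 j)
  have hom : ∀ j, 0 < |om j| := fun j =>
    lt_of_lt_of_le (mul_pos hG.pos (pow_pos (hGGp j) 8)) (hG.low j)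
  have hmx1 : ∀ κ l m : Ix, 1 ≤ mxG lam κ l m := fun κ l m => (hGG1 κ.1).trans (le_max_left _ _)
  have he : 0 < |ε| := abs_pos.mpr hε
  have hc := hG.pos
  have hwt : ∀ κ l m : Ix, 0 ≤ mxG lam κ l m ^ (-(11 / 4) : ℝ) := fun κ l m =>
    Real.rpow_nonneg (zero_le_one.trans (hmx1 κ l m)) _
  have hi0 : ∀ j, 0 ≤ GG lam j ^ (-(5 / 4) : ℝ) := fun j => Real.rpow_nonneg (hGG0 j) _
  have hbar : ∀ κ : Ix, (bar κ).1 = κ.1 := fun κ => rfl
  refine ⟨?_, ?_⟩
  · rintro κ l m ⟨-, ⟨-, h⟩ | ⟨rfl, -⟩ | ⟨rfl, -⟩ | ⟨rfl, -⟩⟩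
    · have h1 : 1 ≤ mxG lam κ l m ^ 6 := one_le_pow₀ (hmx1 κ l m)
      exact abs_pos.mp (lt_of_lt_of_le zero_lt_one (h1.trans h))
    · exact abs_pos.mp (by rw [HB2.Lm_1]; exact hom _)
    · exact abs_pos.mp (by rw [HB2.Lm_2]; exact hom _)
    · exact abs_pos.mp (by rw [HB2.Lm_3]; exact hom _)
  · refine ⟨(K' + 1) / |ε| + (K' + 1) / (|ε| * c), by positivity, ?_⟩
    intro N Γ hΓ hN κ l m
    have hKe : 0 ≤ (K' + 1) / |ε| := by positivity
    have hKc : 0 ≤ (K' + 1) / (|ε| * c) := by positivity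
    have hΓ0 : 0 ≤ Γ ^ (-(1 / 3) : ℝ) := Real.rpow_nonneg (by linarith) _
    have hs1 : 0 ≤ (if l = bar κ then GG lam m.1 ^ (-(5 / 4) : ℝ) else 0) := by
      split_ifs
      · exact hi0 _
      · exact le_refl _
    have hs2 : 0 ≤ (if m = bar κ then GG lam l.1 ^ (-(5 / 4) : ℝ) else 0) := by
      split_ifs
      · exact hi0 _
      · exact le_refl _
    have hs3 : 0 ≤ (if m = bar l then GG lam κ.1 ^ (-(5 / 4) : ℝ) else 0) := by
      split_ifs
      · exact hi0 _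
      · exact le_refl _
    have hw0 : 0 ≤ wt4 lam κ l m := by
      unfold wt4
      have := hwt κ l m
      convert add_nonneg (add_nonneg (add_nonneg this hs1) hs2) hs3
    have hBig : ∀ w q : ℝ, 0 ≤ q → q ≤ (K' + 1) / |ε| + (K' + 1) / (|ε| * c) →
        w ≤ wt4 lam κ l m →
        q * (Γ ^ (-(1 / 3) : ℝ) * w) ≤
          ((K' + 1) / |ε| + (K' + 1) / (|ε| * c)) * Γ ^ (-(1 / 3) : ℝ) * wt4 lam κ l m := by
      intro w q hq hq2 hw
      rw [mul_assoc]
      exact (mul_le_mul_of_nonneg_left (mul_le_mul_of_nonneg_left hw hΓ0) hq).trans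
        (mul_le_mul_of_nonneg_right hq2 (mul_nonneg hΓ0 hw0))
    have hRHS : 0 ≤ ((K' + 1) / |ε| + (K' + 1) / (|ε| * c)) * Γ ^ (-(1 / 3) : ℝ) *
        wt4 lam κ l m := mul_nonneg (mul_nonneg (by positivity) hΓ0) hw0
    by_cases hall : κ.1 < N ∧ l.1 < N ∧ m.1 < N
    · have h0 : hw bet lam om ε N κ l m = 0 := by
        unfold hw
        rw [(hb N κ l m).1 (Or.inl hall)]
        simp
      rw [h0, norm_zero, zero_mul]
      exact hRHS
    have hex : N ≤ κ.1 ∨ N ≤ l.1 ∨ N ≤ m.1 := by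
      by_contra hno
      push Not at hno
      exact hall hno
    unfold hw
    split_ifs with hfar
    · have hnorm : ‖cx (sigw bet (cut N)) κ l m * (Complex.I / (ε * Lm om κ l m))‖ =
          ‖cx (sigw bet (cut N)) κ l m‖ * (1 / (|ε| * |Lm om κ l m|)) := by
        rw [norm_mul, norm_div, Complex.norm_I, norm_mul, Complex.norm_real, Complex.norm_real,
          Real.norm_eq_abs, Real.norm_eq_abs]
      rw [hnorm]
      obtain ⟨-, ⟨-, h⟩ | ⟨rfl, h⟩ | ⟨rfl, h⟩ | ⟨rfl, h⟩⟩ := hfar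
      · have hGM : Γ ≤ mxG lam κ l m := by
          rcases hex with h' | h' | h'
          · exact (hN _ h').trans (le_max_left _ _)
          · exact (hN _ h').trans ((le_max_left _ _).trans (le_max_right _ _))
          · exact (hN _ h').trans ((le_max_right _ _).trans (le_max_right _ _))
        refine (HN.gen hK' he hΓ hGM (hb N κ l m).2.1 h).trans ?_
        apply hBig _ _ hKe (by linarith)
        unfold wt4
        have e1 := hs1
        have e2 := hs2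
        have e3 := hs3
        convert (show mxG lam κ l m ^ (-(11 / 4) : ℝ) ≤
          mxG lam κ l m ^ (-(11 / 4) : ℝ) +
          (if l = bar κ then GG lam m.1 ^ (-(5 / 4) : ℝ) else 0) +
          (if m = bar κ then GG lam l.1 ^ (-(5 / 4) : ℝ) else 0) +
          (if m = bar l then GG lam κ.1 ^ (-(5 / 4) : ℝ) else 0) by linarith)
      · have hy := hGG1 m.1
        have hGy : Γ ≤ GG lam m.1 ^ 3 := by
          rcases hex with h' | h' | h'
          · exact (hN _ h').trans h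
          · rw [hbar] at h'; exact (hN _ h').trans h
          · exact (hN _ h').trans (HN.le_cube hy)
        have hM : mxG lam κ (bar κ) m ≤ GG lam m.1 ^ 3 := by
          unfold mxG
          rw [hbar]
          exact max_le h (max_le h (HN.le_cube hy))
        refine (HN.triv hK' hc he hy (hGG0 κ.1) h (zero_le_one.trans (hmx1 _ _ _)) hM
          (hb N κ m m).2.2.1 (by rw [HB2.Lm_1]; exact hG.low m.1) hΓ hGy).trans ?_
        apply hBig _ _ hKc (by linarith)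
        have e0 := hwt κ (bar κ) m
        have e2 := hs2
        have e3 := hs3
        unfold wt4
        rw [if_pos rfl]
        convert (show GG lam m.1 ^ (-(5 / 4) : ℝ) ≤
          mxG lam κ (bar κ) m ^ (-(11 / 4) : ℝ) +
          GG lam m.1 ^ (-(5 / 4) : ℝ) +
          (if m = bar κ then GG lam (bar κ).1 ^ (-(5 / 4) : ℝ) else 0) +
          (if m = bar (bar κ) then GG lam κ.1 ^ (-(5 / 4) : ℝ) else 0) by linarith)
      · have hy := hGG1 l.1
        have hGy : Γ ≤ GG lam l.1 ^ 3 := by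
          rcases hex with h' | h' | h'
          · exact (hN _ h').trans h
          · exact (hN _ h').trans (HN.le_cube hy)
          · rw [hbar] at h'; exact (hN _ h').trans h
        have hM : mxG lam κ l (bar κ) ≤ GG lam l.1 ^ 3 := by
          unfold mxG
          rw [hbar]
          exact max_le h (max_le (HN.le_cube hy) h)
        refine (HN.triv hK' hc he hy (hGG0 κ.1) h (zero_le_one.trans (hmx1 _ _ _)) hM
          (hb N κ l l).2.2.2.1 (by rw [HB2.Lm_2]; exact hG.low l.1) hΓ hGy).trans ?_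
        apply hBig _ _ hKc (by linarith)
        have e0 := hwt κ l (bar κ)
        have e1 := hs1
        have e3 := hs3
        unfold wt4
        rw [if_pos (rfl : bar κ = bar κ)]
        convert (show GG lam l.1 ^ (-(5 / 4) : ℝ) ≤
          mxG lam κ l (bar κ) ^ (-(11 / 4) : ℝ) +
          (if l = bar κ then GG lam (bar κ).1 ^ (-(5 / 4) : ℝ) else 0) +
          GG lam l.1 ^ (-(5 / 4) : ℝ) +
          (if bar κ = bar l then GG lam κ.1 ^ (-(5 / 4) : ℝ) else 0) by linarith)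
      · have hy := hGG1 κ.1
        have hGy : Γ ≤ GG lam κ.1 ^ 3 := by
          rcases hex with h' | h' | h'
          · exact (hN _ h').trans (HN.le_cube hy)
          · exact (hN _ h').trans h
          · rw [hbar] at h'; exact (hN _ h').trans h
        have hM : mxG lam κ l (bar l) ≤ GG lam κ.1 ^ 3 := by
          unfold mxG
          rw [hbar]
          exact max_le (HN.le_cube hy) (max_le h h)
        refine (HN.triv hK' hc he hy (hGG0 l.1) h (zero_le_one.trans (hmx1 _ _ _)) hM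
          (hb N l κ κ).2.2.2.2 (by rw [HB2.Lm_3]; exact hG.low κ.1) hΓ hGy).trans ?_
        apply hBig _ _ hKc (by linarith)
        have e0 := hwt κ l (bar l)
        have e1 := hs1
        have e2 := hs2
        unfold wt4
        rw [if_pos (rfl : bar l = bar l)]
        convert (show GG lam κ.1 ^ (-(5 / 4) : ℝ) ≤
          mxG lam κ l (bar l) ^ (-(11 / 4) : ℝ) +
          (if l = bar κ then GG lam (bar l).1 ^ (-(5 / 4) : ℝ) else 0) +
          (if bar l = bar κ then GG lam l.1 ^ (-(5 / 4) : ℝ) else 0) +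
          GG lam κ.1 ^ (-(5 / 4) : ℝ) by linarith)
    · rw [norm_zero, zero_mul]
      exact hRHS

end Pool.Agent.U401.DD

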