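import Mathlib
import Pool.Agent.U401.DD.Stm

/-!
Project DD, package KEP (helper603): the part of the energy production which is not removed by the normal
form is absorbed by the viscosity.
-/

set_option autoImplicit false

namespace Pool.Agent.U401.DD

namespace KEPh

open Finset

variable {lam om : ℕ → ℝ}

theorem gg_nonneg (h : ∀ n, 0 < lam n) (j : ℕ) : 0 ≤ gg lam j := (add_pos (h _) (h _)).le

theorem GG_one (h : ∀ n, 0 < lam n) (j : ℕ) : 1 ≤ GG lam j := by
  unfold GG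
  have := gg_nonneg h j
  linarith

theorem mu_ge (h : ∀ n, 0 < lam n) (j : ℕ) : (j : ℝ) + 1 ≤ mu lam j ∧ GG lam j ≤ mu lam j := by
  have h1 := GG_one h j
  have h2 : (0 : ℝ) ≤ j := Nat.cast_nonneg j
  unfold GG at h1
  unfold mu GG
  constructor <;> nlinarith

/-- the sixteenth root of `GG` -/
noncomputable def rt (lam : ℕ → ℝ) (i : ℕ) : ℝ := GG lam i ^ (((16 : ℕ) : ℝ)⁻¹)

theorem rt_pow (h : ∀ n, 0 < lam n) (i : ℕ) : rt lam i ^ 16 = GG lam i :=
  Real.rpow_inv_natCast_pow (zero_le_one.trans (GG_one h i)) (by norm_num)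

theorem rt_one (h : ∀ n, 0 < lam n) (i : ℕ) : 1 ≤ rt lam i :=
  Real.one_le_rpow (GG_one h i) (by positivity)

theorem mu_lt (h : ∀ n, 0 < lam n) {i j : ℕ} (hij : mu lam j ^ 8 < GG lam i) :
    mu lam j < rt lam i ^ 2 := by
  rw [← rt_pow h i, show rt lam i ^ 16 = (rt lam i ^ 2) ^ 8 by ring] at hij
  exact lt_of_pow_lt_pow_left₀ 8 (by positivity) hij

/-- the bound for the coefficients -/
theorem coef (h : ∀ n, 0 < lam n) {i j : ℕ} (hij : mu lam j ^ 8 < GG lam i) {K' y : ℝ} (hK : 0 ≤ K')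
    (hy0 : 0 ≤ y) (hy : y ^ 4 ≤ K' * ((GG lam i + GG lam j) ^ 4 * (GG lam i ^ 3 * GG lam j ^ 2))) :
    y ≤ (1 + 16 * K') * rt lam i ^ 29 := by
  have h1 := mu_lt h hij
  have h2 := (mu_ge h j).2
  have h3 := rt_one h i
  have h4 := GG_one h j
  have h5 := GG_one h i
  have h6 := rt_pow h i
  set s := rt lam i with hs
  have h7 : GG lam j ≤ s ^ 2 := by linarith
  have h8 : s ^ 2 ≤ s ^ 16 := pow_le_pow_right₀ h3 (by norm_num)
  have h9 : GG lam i + GG lam j ≤ 2 * s ^ 16 := by linarith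
  have h10 : (GG lam i + GG lam j) ^ 4 ≤ (2 * s ^ 16) ^ 4 := pow_le_pow_left₀ (by linarith) h9 4
  have h11 : GG lam j ^ 2 ≤ (s ^ 2) ^ 2 := pow_le_pow_left₀ (by linarith) h7 2
  have h12 : y ^ 4 ≤ 16 * K' * s ^ 116 := by
    refine hy.trans ?_
    have e : 16 * K' * s ^ 116 = K' * ((2 * s ^ 16) ^ 4 * ((s ^ 16) ^ 3 * (s ^ 2) ^ 2)) := by ring
    rw [e, ← h6]
    rw [← h6] at h10
    exact mul_le_mul_of_nonneg_left (mul_le_mul h10 (mul_le_mul_of_nonneg_left h11 (by positivity))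
      (by positivity) (by positivity)) hK
  have h13 : (16 * K' : ℝ) ≤ (1 + 16 * K') ^ 4 := by
    have := pow_le_pow_right₀ (show (1 : ℝ) ≤ 1 + 16 * K' by linarith) (show 1 ≤ 4 by norm_num)
    rw [pow_one] at this
    linarith
  refine (pow_le_pow_iff_left₀ hy0 (by positivity) (show (4 : ℕ) ≠ 0 by norm_num)).1 ?_
  refine h12.trans ?_
  rw [mul_pow, ← pow_mul]
  exact mul_le_mul_of_nonneg_right h13 (by positivity)

open Classical in
/-- the weight of a kept coefficient -/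
noncomputable def bb (lam : ℕ → ℝ) (C : ℝ) (i j : ℕ) : ℝ :=
  if mu lam j ^ 8 < GG lam i then C * rt lam i ^ 29 else 0

theorem bb_nonneg (h : ∀ n, 0 < lam n) {C : ℝ} (hC : 0 ≤ C) (i j : ℕ) : 0 ≤ bb lam C i j := by
  unfold bb
  split_ifs
  · have := rt_one h i
    positivity
  · exact le_refl _

/-- the sum of the weights -/
theorem bb_sum (h : ∀ n, 0 < lam n) {C : ℝ} (hC : 0 ≤ C) (N i : ℕ) :
    ∑ m ∈ IxN N, bb lam C i m.1 ≤ 2 * C * rt lam i ^ 31 := by
  classical
  have h3 := rt_one h i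
  have h1 : ∑ m ∈ IxN N, bb lam C i m.1 = 2 * ∑ j ∈ range N, bb lam C i j := by
    unfold IxN
    rw [sum_product, mul_sum]
    refine sum_congr rfl fun j _ => ?_
    simp
  have h2 : ∑ j ∈ range N, bb lam C i j ≤ rt lam i ^ 2 * (C * rt lam i ^ 29) := by
    unfold bb
    rw [← sum_filter, sum_const, nsmul_eq_mul]
    refine mul_le_mul_of_nonneg_right ?_ (by positivity)
    have h4 : (range N).filter (fun j => mu lam j ^ 8 < GG lam i) ⊆ range ⌊rt lam i ^ 2⌋₊ := by
      intro j hj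
      rw [mem_filter] at hj
      rw [Finset.mem_range]
      have h5 := mu_lt h hj.2
      have h6 := (mu_ge h j).1
      have h7 : ((j + 1 : ℕ) : ℝ) ≤ rt lam i ^ 2 := by push_cast; linarith
      exact Nat.lt_of_succ_le (Nat.le_floor h7)
    have h5 := Finset.card_le_card h4
    rw [Finset.card_range] at h5
    calc (((range N).filter (fun j => mu lam j ^ 8 < GG lam i)).card : ℝ) ≤ (⌊rt lam i ^ 2⌋₊ : ℝ) := by
          exact_mod_cast h5
      _ ≤ rt lam i ^ 2 := Nat.floor_le (by positivity)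
  rw [h1]
  calc 2 * ∑ j ∈ range N, bb lam C i j ≤ 2 * (rt lam i ^ 2 * (C * rt lam i ^ 29)) := by linarith
    _ = 2 * C * rt lam i ^ 31 := by ring

/-- absorption -/
theorem absorb {s A d : ℝ} (hs : 0 ≤ s) (hA : 0 ≤ A) (hd : 0 < d) :
    A * s ^ 31 ≤ d * s ^ 32 + A * (A / d) ^ 31 := by
  have hq : 0 ≤ A / d := div_nonneg hA hd.le
  rcases le_total (A / d) s with h | h
  · have h1 : A ≤ s * d := (div_le_iff₀ hd).1 h
    have h2 : A * s ^ 31 ≤ (s * d) * s ^ 31 := mul_le_mul_of_nonneg_right h1 (by positivity)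
    have h3 : (s * d) * s ^ 31 = d * s ^ 32 := by ring
    have h4 : 0 ≤ A * (A / d) ^ 31 := by positivity
    linarith
  · have h1 : s ^ 31 ≤ (A / d) ^ 31 := pow_le_pow_left₀ hs h 31
    have h2 : A * s ^ 31 ≤ A * (A / d) ^ 31 := mul_le_mul_of_nonneg_left h1 hA
    have h4 : 0 ≤ d * s ^ 32 := by positivity
    linarith

theorem uu_sq (a : ℕ → ℝ) (k : Ix) : ‖uu a k‖ ^ 2 = a (2 * k.1) ^ 2 + a (2 * k.1 + 1) ^ 2 := by
  rw [← Complex.normSq_eq_norm_sq, Complex.normSq_apply]
  have h1 : (uu a k).re = a (2 * k.1) := by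
    unfold uu
    simp
  have h2 : (uu a k).im = sg k.2 * a (2 * k.1 + 1) := by
    unfold uu
    simp
  have h3 : sg k.2 ^ 2 = 1 := by
    unfold sg
    split_ifs <;> norm_num
  rw [h1, h2]
  linear_combination (a (2 * k.1 + 1)) ^ 2 * h3

theorem uu_bar (a : ℕ → ℝ) (k : Ix) : ‖uu a (bar k)‖ = ‖uu a k‖ := by
  have h := uu_sq a (bar k)
  have h' := uu_sq a k
  have h2 : (bar k).1 = k.1 := rfl
  rw [h2, ← h'] at h
  exact (pow_left_inj₀ (norm_nonneg _) (norm_nonneg _) (by norm_num)).1 h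

theorem sum_even (f : ℕ → ℝ) (N : ℕ) :
    ∑ n ∈ range (2 * N), f n = ∑ j ∈ range N, (f (2 * j) + f (2 * j + 1)) := by
  induction N with
  | zero => simp
  | succ N ih =>
    rw [show 2 * (N + 1) = 2 * N + 1 + 1 by ring, sum_range_succ, sum_range_succ, ih, sum_range_succ]
    ring

theorem sum_uu (a : ℕ → ℝ) (f : ℕ → ℝ) (N : ℕ) :
    ∑ k ∈ IxN N, ‖uu a k‖ ^ 2 * f k.1 = 2 * ∑ n ∈ range (2 * N), f (n / 2) * a n ^ 2 := by
  rw [sum_even]
  unfold IxN
  rw [sum_product, mul_sum]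
  refine sum_congr rfl fun j _ => ?_
  have e1 : (2 * j) / 2 = j := by omega
  have e2 : (2 * j + 1) / 2 = j := by omega
  rw [e1, e2]
  simp only [uu_sq, Fintype.sum_bool]
  ring

theorem mem_bar {N : ℕ} {k : Ix} (hk : k ∈ IxN N) : bar k ∈ IxN N := by
  unfold IxN at hk ⊢
  rw [mem_product] at hk ⊢
  exact ⟨hk.1, mem_univ _⟩

theorem uu_le {a : ℕ → ℝ} {N : ℕ} {X : ℝ} (h : Mm N a ≤ X) {k : Ix} (hk : k ∈ IxN N) :
    ‖uu a k‖ ≤ Real.sqrt X := by
  apply Real.le_sqrt_of_sq_le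
  rw [uu_sq]
  refine le_trans ?_ h
  unfold Mm
  rw [sum_even]
  unfold IxN at hk
  rw [mem_product] at hk
  exact single_le_sum (f := fun j => a (2 * j) ^ 2 + a (2 * j + 1) ^ 2) (fun j _ => by positivity) hk.1

end KEPh

open KEPh Finset in
theorem t_KEP : S_KEP := by
  classical
  intro hBDC bet lam om K c hD hG δ X hδ
  obtain ⟨hsame, -, K', hK', hcx⟩ := hBDC bet lam K hD
  have hpos := hD.pos
  set C : ℝ := 1 + 16 * K' with hC
  have hC0 : 0 ≤ C := by positivity
  set F := hG.fin.toFinset with hF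
  set Y : ℝ := Real.sqrt X with hY
  have hY0 : 0 ≤ Y := Real.sqrt_nonneg _
  set d : ℝ := δ / 12 with hd
  have hd0 : 0 < d := by positivity
  set A : ℝ := 2 * C * Y with hA
  have hA0 : 0 ≤ A := by positivity
  set B' : ℝ := A * (A / d) ^ 31 with hB'
  have hB0 : 0 ≤ B' := by positivity
  set cc : Ix → Ix → Ix → ℂ := cx (sig bet lam) with hcc
  refine ⟨(∑ t ∈ F, ‖cc t.1 t.2.1 t.2.2‖ * (Y * Y * Y)) + 3 * (4 * d * X + 2 * B' * X), ?_⟩
  intro N a hM
  have hX0 : 0 ≤ X := le_trans (sum_nonneg fun n _ => sq_nonneg _) hM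
  set x : Ix → ℝ := fun k => ‖uu a k‖ with hx
  have hx0 : ∀ k, 0 ≤ x k := fun k => norm_nonneg _
  have hxb : ∀ k, x (bar k) = x k := fun k => uu_bar a k
  have hxY : ∀ k ∈ IxN N, x k ≤ Y := fun k hk => uu_le hM hk
  -- the bound of the coefficients
  have hrest : ∀ k l m : Ix, ‖rest bet lam om k l m‖ ≤
      (if near lam om k l m then ‖cc k l m‖ else 0) + (if l = bar k then bb lam C k.1 m.1 else 0) +
      (if m = bar k then bb lam C k.1 l.1 else 0) + (if m = bar l then bb lam C l.1 k.1 else 0) := by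
    intro k l m
    have p1 : 0 ≤ (if near lam om k l m then ‖cc k l m‖ else 0) := by
      split_ifs
      · exact norm_nonneg _
      · exact le_refl _
    have p2 : 0 ≤ (if l = bar k then bb lam C k.1 m.1 else 0) := by
      split_ifs
      · exact bb_nonneg hpos hC0 _ _
      · exact le_refl _
    have p3 : 0 ≤ (if m = bar k then bb lam C k.1 l.1 else 0) := by
      split_ifs
      · exact bb_nonneg hpos hC0 _ _
      · exact le_refl _
    have p4 : 0 ≤ (if m = bar l then bb lam C l.1 k.1 else 0) := by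
      split_ifs
      · exact bb_nonneg hpos hC0 _ _
      · exact le_refl _
    unfold rest
    by_cases hf : far lam om k l m
    · rw [if_pos hf, norm_zero]
      linarith
    rw [if_neg hf]
    by_cases hs : same k l m
    · have h0 : ‖cx (sig bet lam) k l m‖ = 0 := by
        have h00 : cx (sig bet lam) k l m = 0 := hsame k l m hs
        rw [h00, norm_zero]
      exact h0.le.trans (add_nonneg (add_nonneg (add_nonneg p1 p2) p3) p4)
    by_cases hr : res k l m
    · rcases hr with hr | hr | hr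
      · have h1 : mu lam m.1 ^ 8 < GG lam k.1 := by
          by_contra h
          exact hf ⟨hs, Or.inr (Or.inl ⟨hr, not_lt.1 h⟩)⟩
        have h2 : ‖cx (sig bet lam) k l m‖ ≤ (if l = bar k then bb lam C k.1 m.1 else 0) := by
          rw [if_pos hr]
          unfold bb
          rw [if_pos h1, hr]
          exact coef hpos h1 hK' (norm_nonneg _) (hcx k m).1
        linarith
      · have h1 : mu lam l.1 ^ 8 < GG lam k.1 := by
          by_contra h
          exact hf ⟨hs, Or.inr (Or.inr (Or.inl ⟨hr, not_lt.1 h⟩))⟩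
        have h2 : ‖cx (sig bet lam) k l m‖ ≤ (if m = bar k then bb lam C k.1 l.1 else 0) := by
          rw [if_pos hr]
          unfold bb
          rw [if_pos h1, hr]
          exact coef hpos h1 hK' (norm_nonneg _) (hcx k l).2.1
        linarith
      · have h1 : mu lam k.1 ^ 8 < GG lam l.1 := by
          by_contra h
          exact hf ⟨hs, Or.inr (Or.inr (Or.inr ⟨hr, not_lt.1 h⟩))⟩
        have h2 : ‖cx (sig bet lam) k l m‖ ≤ (if m = bar l then bb lam C l.1 k.1 else 0) := by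
          rw [if_pos hr]
          unfold bb
          rw [if_pos h1, hr]
          exact coef hpos h1 hK' (norm_nonneg _) (hcx l k).2.2
        linarith
    · have h1 : near lam om k l m := by
        refine ⟨hs, hr, ?_⟩
        by_contra h
        exact hf ⟨hs, Or.inl ⟨hr, not_lt.1 h⟩⟩
      rw [if_pos h1]
      have : ‖cx (sig bet lam) k l m‖ = ‖cc k l m‖ := rfl
      linarith
  -- the weighted sum over `m`
  have hW : ∀ k : Ix, ∑ m ∈ IxN N, bb lam C k.1 m.1 * x m ≤ d * GG lam k.1 ^ 2 + B' := by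
    intro k
    have h1 : ∑ m ∈ IxN N, bb lam C k.1 m.1 * x m ≤ (∑ m ∈ IxN N, bb lam C k.1 m.1) * Y := by
      rw [sum_mul]
      exact sum_le_sum fun m hm => mul_le_mul_of_nonneg_left (hxY m hm) (bb_nonneg hpos hC0 _ _)
    have h2 := mul_le_mul_of_nonneg_right (bb_sum hpos hC0 N k.1) hY0
    have h3 := absorb (zero_le_one.trans (rt_one hpos k.1)) hA0 hd0
    have h4 : rt lam k.1 ^ 32 = GG lam k.1 ^ 2 := by
      rw [← rt_pow hpos k.1]; ring
    rw [h4] at h3
    have h5 : 2 * C * rt lam k.1 ^ 31 * Y = A * rt lam k.1 ^ 31 := by rw [hA]; ring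
    linarith
  set S : ℝ := ∑ k ∈ IxN N, x k ^ 2 * ∑ m ∈ IxN N, bb lam C k.1 m.1 * x m with hS
  set E : ℝ := ∑ n ∈ range (2 * N), gg lam (n / 2) ^ 2 * a n ^ 2 with hE
  have hSle : S ≤ d * (4 * E + 4 * X) + 2 * B' * X := by
    have h1 : S ≤ ∑ k ∈ IxN N, x k ^ 2 * (d * GG lam k.1 ^ 2 + B') :=
      sum_le_sum fun k _ => mul_le_mul_of_nonneg_left (hW k) (sq_nonneg _)
    have h2 : ∑ k ∈ IxN N, x k ^ 2 * (d * GG lam k.1 ^ 2 + B') =
        2 * ∑ n ∈ range (2 * N), (d * GG lam (n / 2) ^ 2 + B') * a n ^ 2 :=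
      sum_uu a (fun j => d * GG lam j ^ 2 + B') N
    have h3 : ∑ n ∈ range (2 * N), (d * GG lam (n / 2) ^ 2 + B') * a n ^ 2 ≤
        ∑ n ∈ range (2 * N), (2 * d * (gg lam (n / 2) ^ 2 * a n ^ 2) + (2 * d + B') * a n ^ 2) := by
      refine sum_le_sum fun n _ => ?_
      have h4 : GG lam (n / 2) ^ 2 ≤ 2 * gg lam (n / 2) ^ 2 + 2 := by
        unfold GG
        nlinarith [sq_nonneg (gg lam (n / 2) - 1)]
      have h5 : d * GG lam (n / 2) ^ 2 ≤ d * (2 * gg lam (n / 2) ^ 2 + 2) :=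
        mul_le_mul_of_nonneg_left h4 hd0.le
      have h6 : (d * GG lam (n / 2) ^ 2 + B') * a n ^ 2 ≤
          (d * (2 * gg lam (n / 2) ^ 2 + 2) + B') * a n ^ 2 :=
        mul_le_mul_of_nonneg_right (by linarith) (sq_nonneg _)
      linarith
    rw [sum_add_distrib, ← mul_sum, ← mul_sum] at h3
    have h7 : ∑ n ∈ range (2 * N), a n ^ 2 ≤ X := hM
    have h8 : (2 * d + B') * ∑ n ∈ range (2 * N), a n ^ 2 ≤ (2 * d + B') * X :=
      mul_le_mul_of_nonneg_left h7 (by positivity)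
    linarith
  -- the three parts
  have T1 : ∑ k ∈ IxN N, ∑ l ∈ IxN N, ∑ m ∈ IxN N,
      (if l = bar k then bb lam C k.1 m.1 else 0) * (x k * x l * x m) = S := by
    refine sum_congr rfl fun k hk => ?_
    rw [sum_eq_single (bar k)]
    · rw [mul_sum]
      refine sum_congr rfl fun m _ => ?_
      rw [if_pos rfl, hxb]
      ring
    · intro l _ hl
      exact sum_eq_zero fun m _ => by rw [if_neg hl, zero_mul]
    · intro h
      exact absurd (mem_bar hk) h
  have T2 : ∑ k ∈ IxN N, ∑ l ∈ IxN N, ∑ m ∈ IxN N,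
      (if m = bar k then bb lam C k.1 l.1 else 0) * (x k * x l * x m) = S := by
    refine sum_congr rfl fun k hk => ?_
    rw [mul_sum]
    refine sum_congr rfl fun l _ => ?_
    rw [sum_eq_single (bar k)]
    · rw [if_pos rfl, hxb]
      ring
    · intro m _ hm
      rw [if_neg hm, zero_mul]
    · intro h
      exact absurd (mem_bar hk) h
  have T3 : ∑ k ∈ IxN N, ∑ l ∈ IxN N, ∑ m ∈ IxN N,
      (if m = bar l then bb lam C l.1 k.1 else 0) * (x k * x l * x m) = S := by
    rw [sum_comm]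
    refine sum_congr rfl fun l hl => ?_
    rw [mul_sum]
    refine sum_congr rfl fun k _ => ?_
    rw [sum_eq_single (bar l)]
    · rw [if_pos rfl, hxb]
      ring
    · intro m _ hm
      rw [if_neg hm, zero_mul]
    · intro h
      exact absurd (mem_bar hl) h
  have T0 : ∑ k ∈ IxN N, ∑ l ∈ IxN N, ∑ m ∈ IxN N,
      (if near lam om k l m then ‖cc k l m‖ else 0) * (x k * x l * x m) ≤
      ∑ t ∈ F, ‖cc t.1 t.2.1 t.2.2‖ * (Y * Y * Y) := by
    have e1 : ∑ k ∈ IxN N, ∑ l ∈ IxN N, ∑ m ∈ IxN N,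
        (if near lam om k l m then ‖cc k l m‖ else 0) * (x k * x l * x m) =
        ∑ t ∈ IxN N ×ˢ (IxN N ×ˢ IxN N), (if near lam om t.1 t.2.1 t.2.2 then
          ‖cc t.1 t.2.1 t.2.2‖ * (x t.1 * x t.2.1 * x t.2.2) else 0) := by
      rw [sum_product]
      refine sum_congr rfl fun k _ => ?_
      rw [sum_product]
      refine sum_congr rfl fun l _ => sum_congr rfl fun m _ => ?_
      simp only [ite_mul, zero_mul]
    rw [e1, ← sum_filter]
    have hsub : (IxN N ×ˢ (IxN N ×ˢ IxN N)).filter (fun t => near lam om t.1 t.2.1 t.2.2) ⊆ F := by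
      intro t ht
      rw [mem_filter] at ht
      rw [hF, Set.Finite.mem_toFinset]
      exact ht.2
    refine le_trans ?_ (sum_le_sum_of_subset_of_nonneg hsub fun t _ _ => by positivity)
    refine sum_le_sum fun t ht => ?_
    rw [mem_filter, mem_product, mem_product] at ht
    refine mul_le_mul_of_nonneg_left ?_ (norm_nonneg _)
    have q1 := hxY _ ht.1.1
    have q2 := hxY _ ht.1.2.1
    have q3 := hxY _ ht.1.2.2
    exact mul_le_mul (mul_le_mul q1 q2 (hx0 _) hY0) q3 (hx0 _) (by positivity)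
  have hform : ‖form N (rest bet lam om) (uu a)‖ ≤ ∑ k ∈ IxN N, ∑ l ∈ IxN N, ∑ m ∈ IxN N,
      ((if near lam om k l m then ‖cc k l m‖ else 0) + (if l = bar k then bb lam C k.1 m.1 else 0) +
      (if m = bar k then bb lam C k.1 l.1 else 0) + (if m = bar l then bb lam C l.1 k.1 else 0)) *
        (x k * x l * x m) := by
    unfold form
    refine (norm_sum_le _ _).trans (sum_le_sum fun k _ => ?_)
    refine (norm_sum_le _ _).trans (sum_le_sum fun l _ => ?_)
    refine (norm_sum_le _ _).trans (sum_le_sum fun m _ => ?_)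
    rw [norm_mul, norm_mul, norm_mul]
    exact mul_le_mul_of_nonneg_right (hrest k l m) (by positivity)
  have hsplit : ∑ k ∈ IxN N, ∑ l ∈ IxN N, ∑ m ∈ IxN N,
      ((if near lam om k l m then ‖cc k l m‖ else 0) + (if l = bar k then bb lam C k.1 m.1 else 0) +
      (if m = bar k then bb lam C k.1 l.1 else 0) + (if m = bar l then bb lam C l.1 k.1 else 0)) *
        (x k * x l * x m) =
      (∑ k ∈ IxN N, ∑ l ∈ IxN N, ∑ m ∈ IxN N,
        (if near lam om k l m then ‖cc k l m‖ else 0) * (x k * x l * x m)) + S + S + S := by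
    simp only [add_mul, sum_add_distrib]
    rw [T1, T2, T3]
  rw [hsplit] at hform
  have hfin : d * 12 = δ := by rw [hd]; ring
  have : 3 * (d * (4 * E + 4 * X) + 2 * B' * X) = δ * E + 3 * (4 * d * X + 2 * B' * X) := by
    rw [← hfin]; ring
  linarith

end Pool.Agent.U401.DD
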