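import Mathlib
import Pool.Agent.U401.DD.Stm4
import Pool.Agent.U401.DD.KEP

/-!
Project DD, package KEP2 (helper278): the part of the energy production which is not removed by the
normal form is absorbed by the viscosity (modelled on KEP by helper603).
-/

set_option autoImplicit false

namespace Pool.Agent.U401.DD

namespace KEP2h

open Finset KEPh

variable {lam om : ℕ → ℝ} {bet : ℕ → ℕ → ℕ → ℝ} {K : ℝ}

/-- the twelfth root of `GG` -/
noncomputable def rw12 (lam : ℕ → ℝ) (i : ℕ) : ℝ := GG lam i ^ (((12 : ℕ) : ℝ)⁻¹)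

theorem rw12_pow (h : ∀ n, 0 < lam n) (i : ℕ) : rw12 lam i ^ 12 = GG lam i :=
  Real.rpow_inv_natCast_pow (zero_le_one.trans (GG_one h i)) (by norm_num)

theorem rw12_one (h : ∀ n, 0 < lam n) (i : ℕ) : 1 ≤ rw12 lam i :=
  Real.one_le_rpow (GG_one h i) (by positivity)

/-- absorption -/
theorem absorb2 {s A d : ℝ} (hs : 0 ≤ s) (hA : 0 ≤ A) (hd : 0 < d) :
    A * s ^ 23 ≤ d * s ^ 24 + A * (A / d) ^ 23 := by
  have hq : 0 ≤ A / d := div_nonneg hA hd.le
  rcases le_total (A / d) s with h | h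
  · have h1 : A ≤ s * d := (div_le_iff₀ hd).1 h
    have h2 : A * s ^ 23 ≤ (s * d) * s ^ 23 := mul_le_mul_of_nonneg_right h1 (by positivity)
    have h3 : (s * d) * s ^ 23 = d * s ^ 24 := by ring
    have h4 : 0 ≤ A * (A / d) ^ 23 := by positivity
    linarith
  · have h1 : s ^ 23 ≤ (A / d) ^ 23 := pow_le_pow_left₀ hs h 23
    have h2 : A * s ^ 23 ≤ A * (A / d) ^ 23 := mul_le_mul_of_nonneg_left h1 hA
    have h4 : 0 ≤ d * s ^ 24 := by positivity
    linarith

theorem sig_12 (hD : Dat bet lam K) (k l n : ℕ) : sig bet lam k l n = sig bet lam l k n := by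
  unfold sig
  rw [hD.sym k l n, hD.sym l n k, hD.sym n k l]
  ring

theorem sig_23 (hD : Dat bet lam K) (k l n : ℕ) : sig bet lam k l n = sig bet lam k n l := by
  unfold sig
  rw [hD.sym k l n, hD.sym l n k, hD.sym n k l]
  ring

theorem cx_23 (hD : Dat bet lam K) (k l m : Ix) :
    cx (sig bet lam) k l m = cx (sig bet lam) k m l := by
  unfold cx
  congr 1
  refine sum_congr rfl fun a _ => ?_
  rw [sum_comm]
  refine sum_congr rfl fun b _ => sum_congr rfl fun c _ => ?_
  rw [sig_23 hD]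
  ring

theorem cx_12 (hD : Dat bet lam K) (k l m : Ix) :
    cx (sig bet lam) k l m = cx (sig bet lam) l k m := by
  unfold cx
  congr 1
  rw [sum_comm]
  refine sum_congr rfl fun a _ => sum_congr rfl fun b _ => sum_congr rfl fun c _ => ?_
  rw [sig_12 hD]
  ring

theorem qq_norm (b : Bool) (i : ℕ) : ‖qq b i‖ = 1 := by
  unfold qq
  split_ifs <;> simp

theorem plane (s : ℕ → ℕ → ℕ → ℝ) (k l : Ix) (j : ℕ) (a : ℕ → ℝ) :
    cx s k l (j, true) * uu a (j, true) + cx s k l (j, false) * uu a (j, false) =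
      (1 / 4) * ∑ i ∈ range 2, ∑ i' ∈ range 2, qq k.2 i * qq l.2 i' *
        ((s (2 * k.1 + i) (2 * l.1 + i') (2 * j) * a (2 * j) +
          s (2 * k.1 + i) (2 * l.1 + i') (2 * j + 1) * a (2 * j + 1) : ℝ) : ℂ) := by
  have q1 : qq true 0 = 1 := by simp [qq]
  have q2 : qq true 1 = -Complex.I := by simp [qq]
  have q3 : qq false 0 = 1 := by simp [qq]
  have q4 : qq false 1 = Complex.I := by simp [qq]
  have u1 : uu a (j, true) = (a (2 * j) : ℂ) + a (2 * j + 1) * Complex.I := by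
    simp [uu, sg]
  have u2 : uu a (j, false) = (a (2 * j) : ℂ) - a (2 * j + 1) * Complex.I := by
    simp [uu, sg]
    ring
  unfold cx
  simp only [sum_range_succ, sum_range_zero, zero_add, add_zero]
  rw [u1, u2, q1, q2, q3, q4]
  push_cast
  linear_combination (-(1 / 4) * (a (2 * j + 1) : ℂ) *
    (qq k.2 0 * qq l.2 0 * (s (2 * k.1) (2 * l.1) (2 * j + 1) : ℂ) +
      qq k.2 0 * qq l.2 1 * (s (2 * k.1) (2 * l.1 + 1) (2 * j + 1) : ℂ) +
      qq k.2 1 * qq l.2 0 * (s (2 * k.1 + 1) (2 * l.1) (2 * j + 1) : ℂ) +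
      qq k.2 1 * qq l.2 1 * (s (2 * k.1 + 1) (2 * l.1 + 1) (2 * j + 1) : ℂ))) * Complex.I_sq

open Classical in
theorem inner_eq (s : ℕ → ℕ → ℕ → ℝ) (N : ℕ) (a : ℕ → ℝ) (k l : Ix) (p : ℕ → Prop) :
    ∑ m ∈ IxN N, (if p m.1 then cx s k l m else 0) * uu a m =
      (1 / 4) * ∑ i ∈ range 2, ∑ i' ∈ range 2, qq k.2 i * qq l.2 i' *
        ((∑ n ∈ (range (2 * N)).filter (fun n => p (n / 2)),
          s (2 * k.1 + i) (2 * l.1 + i') n * a n : ℝ) : ℂ) := by
  have h1 : ∑ m ∈ IxN N, (if p m.1 then cx s k l m else 0) * uu a m =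
      ∑ j ∈ range N, if p j then (cx s k l (j, true) * uu a (j, true) +
        cx s k l (j, false) * uu a (j, false)) else 0 := by
    unfold IxN
    rw [sum_product]
    refine sum_congr rfl fun j _ => ?_
    rw [Fintype.sum_bool]
    by_cases hp : p j
    · simp [hp]
    · simp [hp]
  have h2 : ∀ i i' : ℕ, ∑ n ∈ (range (2 * N)).filter (fun n => p (n / 2)),
      s (2 * k.1 + i) (2 * l.1 + i') n * a n = ∑ j ∈ range N, if p j then
        (s (2 * k.1 + i) (2 * l.1 + i') (2 * j) * a (2 * j) +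
          s (2 * k.1 + i) (2 * l.1 + i') (2 * j + 1) * a (2 * j + 1)) else 0 := by
    intro i i'
    rw [sum_filter, sum_even]
    refine sum_congr rfl fun j _ => ?_
    have e1 : (2 * j) / 2 = j := by omega
    have e2 : (2 * j + 1) / 2 = j := by omega
    rw [e1, e2]
    by_cases hp : p j
    · simp [hp]
    · simp [hp]
  have h4 : ∀ j ∈ range N, (if p j then (cx s k l (j, true) * uu a (j, true) +
      cx s k l (j, false) * uu a (j, false)) else 0) =
      (1 / 4) * ∑ i ∈ range 2, ∑ i' ∈ range 2, qq k.2 i * qq l.2 i' *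
        ((if p j then (s (2 * k.1 + i) (2 * l.1 + i') (2 * j) * a (2 * j) +
          s (2 * k.1 + i) (2 * l.1 + i') (2 * j + 1) * a (2 * j + 1)) else 0 : ℝ) : ℂ) := by
    intro j _
    by_cases hp : p j
    · simp only [hp, if_true]
      exact plane s k l j a
    · simp only [hp, if_false]
      simp
  rw [h1, sum_congr rfl h4, ← mul_sum]
  congr 1
  rw [sum_comm]
  refine sum_congr rfl fun i _ => ?_
  rw [sum_comm]
  refine sum_congr rfl fun i' _ => ?_
  rw [← mul_sum, h2, Complex.ofReal_sum]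

theorem lam_le (h : ∀ n, 0 < lam n) (n : ℕ) : lam n ≤ gg lam (n / 2) := by
  unfold gg
  have h1 := h (2 * (n / 2))
  have h2 := h (2 * (n / 2) + 1)
  have h3 : n = 2 * (n / 2) ∨ n = 2 * (n / 2) + 1 := by omega
  rcases h3 with h3 | h3
  · have : lam n = lam (2 * (n / 2)) := congrArg lam h3
    linarith
  · have : lam n = lam (2 * (n / 2) + 1) := congrArg lam h3
    linarith

open Classical in
theorem inner_bd (hD2 : Dat2 bet lam K) {X : ℝ} {N : ℕ} {a : ℕ → ℝ} (hM : Mm N a ≤ X)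
    {j k l : ℕ} (hk : k / 2 = j) (hl : l / 2 = j) :
    |∑ n ∈ (range (2 * N)).filter (fun n => GG lam (n / 2) ^ 3 < GG lam j),
      sig bet lam k l n * a n| ≤ (1 + K * X ^ 2) * rw12 lam j ^ 23 := by
  have hD := hD2.dat
  have hpos := hD.pos
  have hX0 : 0 ≤ X := le_trans (sum_nonneg fun n _ => sq_nonneg _) hM
  have hK0 : 0 ≤ K := zero_le_one.trans hD.K1
  set S := (range (2 * N)).filter (fun n => GG lam (n / 2) ^ 3 < GG lam j) with hS
  have e1 : ∑ n ∈ S, sig bet lam k l n * a n =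
      2 / 3 * ∑ n ∈ S, bet k l n * ((gg lam (n / 2) - gg lam j) * a n) := by
    rw [mul_sum]
    refine sum_congr rfl fun n _ => ?_
    have hc := hD.cyc k l n
    unfold sig
    rw [hk, hl]
    linear_combination (2 / 3 * gg lam j * a n) * hc
  have hdual := hD2.dual k l (hk.trans hl.symm) S (fun n => (gg lam (n / 2) - gg lam j) * a n)
  set s := rw12 lam j with hs
  have hs1 : 1 ≤ s := rw12_one hpos j
  have hs12 : s ^ 12 = GG lam j := rw12_pow hpos j
  have hsum : ∑ n ∈ S, lam n * ((gg lam (n / 2) - gg lam j) * a n) ^ 2 ≤ s ^ 28 * X := by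
    have h1 : ∀ n ∈ S, lam n * ((gg lam (n / 2) - gg lam j) * a n) ^ 2 ≤ s ^ 28 * a n ^ 2 := by
      intro n hn
      have hn' := (mem_filter.1 hn).2
      have g1 := GG_one hpos (n / 2)
      have g0 := gg_nonneg hpos (n / 2)
      have g0' := gg_nonneg hpos j
      have g2 : GG lam (n / 2) < s ^ 4 := by
        rw [← hs12, show s ^ 12 = (s ^ 4) ^ 3 by ring] at hn'
        exact lt_of_pow_lt_pow_left₀ 3 (by positivity) hn'
      have g3 : lam n ≤ s ^ 4 := by
        have := lam_le hpos n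
        unfold GG at g2
        linarith
      have g4 : GG lam (n / 2) ≤ GG lam j := by
        have h5 : GG lam (n / 2) ≤ GG lam (n / 2) ^ 3 := le_self_pow₀ g1 (by norm_num)
        linarith
      have g5 : (gg lam (n / 2) - gg lam j) ^ 2 ≤ s ^ 24 := by
        have h6 : s ^ 24 = GG lam j ^ 2 := by rw [← hs12]; ring
        rw [h6]
        apply sq_le_sq'
        · unfold GG
          linarith
        · unfold GG at g4 ⊢
          linarith
      calc lam n * ((gg lam (n / 2) - gg lam j) * a n) ^ 2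
          = lam n * ((gg lam (n / 2) - gg lam j) ^ 2 * a n ^ 2) := by ring
        _ ≤ s ^ 4 * (s ^ 24 * a n ^ 2) := by
            refine mul_le_mul g3 ?_ (by positivity) (by positivity)
            exact mul_le_mul_of_nonneg_right g5 (sq_nonneg _)
        _ = s ^ 28 * a n ^ 2 := by ring
    refine (sum_le_sum h1).trans ?_
    rw [← mul_sum]
    refine mul_le_mul_of_nonneg_left ?_ (by positivity)
    refine le_trans ?_ hM
    unfold Mm
    exact sum_le_sum_of_subset_of_nonneg (filter_subset _ _) fun n _ _ => sq_nonneg _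
  have hsum0 : 0 ≤ ∑ n ∈ S, lam n * ((gg lam (n / 2) - gg lam j) * a n) ^ 2 :=
    sum_nonneg fun n _ => mul_nonneg (hpos n).le (sq_nonneg _)
  set y := ∑ n ∈ S, bet k l n * ((gg lam (n / 2) - gg lam j) * a n) with hy
  have hy4 : y ^ 4 ≤ (K * X ^ 2) * s ^ 92 := by
    refine hdual.trans ?_
    rw [hk, ← hs12]
    have h2 : (∑ n ∈ S, lam n * ((gg lam (n / 2) - gg lam j) * a n) ^ 2) ^ 2 ≤
        (s ^ 28 * X) ^ 2 := pow_le_pow_left₀ hsum0 hsum 2
    calc K * ((s ^ 12) ^ 3 * (∑ n ∈ S, lam n * ((gg lam (n / 2) - gg lam j) * a n) ^ 2) ^ 2)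
        ≤ K * ((s ^ 12) ^ 3 * (s ^ 28 * X) ^ 2) :=
          mul_le_mul_of_nonneg_left (mul_le_mul_of_nonneg_left h2 (by positivity)) hK0
      _ = (K * X ^ 2) * s ^ 92 := by ring
  have hC : 0 ≤ K * X ^ 2 := by positivity
  have hy1 : |y| ≤ (1 + K * X ^ 2) * s ^ 23 := by
    refine (pow_le_pow_iff_left₀ (abs_nonneg y) (by positivity) (show (4 : ℕ) ≠ 0 by norm_num)).1 ?_
    have h3 : |y| ^ 4 = y ^ 4 := by
      rw [show (4 : ℕ) = 2 * 2 by norm_num, pow_mul, pow_mul, sq_abs]
    rw [h3]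
    refine hy4.trans ?_
    rw [mul_pow, ← pow_mul]
    refine mul_le_mul_of_nonneg_right ?_ (by positivity)
    have := pow_le_pow_right₀ (show (1 : ℝ) ≤ 1 + K * X ^ 2 by linarith) (show 1 ≤ 4 by norm_num)
    rw [pow_one] at this
    linarith
  rw [e1, abs_mul]
  have h4 : |(2 / 3 : ℝ)| = 2 / 3 := abs_of_pos (by norm_num)
  rw [h4]
  have := abs_nonneg y
  linarith

open Classical in
theorem inner_norm (hD2 : Dat2 bet lam K) {X : ℝ} {N : ℕ} {a : ℕ → ℝ} (hM : Mm N a ≤ X) (k : Ix) :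
    ‖∑ m ∈ IxN N, (if GG lam m.1 ^ 3 < GG lam k.1 then cx (sig bet lam) k (bar k) m else 0) *
      uu a m‖ ≤ (1 + K * X ^ 2) * rw12 lam k.1 ^ 23 := by
  rw [inner_eq (sig bet lam) N a k (bar k) (fun j => GG lam j ^ 3 < GG lam k.1)]
  have hb : ∀ i ∈ range 2, ∀ i' ∈ range 2, ‖qq k.2 i * qq (bar k).2 i' *
      ((∑ n ∈ (range (2 * N)).filter (fun n => GG lam (n / 2) ^ 3 < GG lam k.1),
          sig bet lam (2 * k.1 + i) (2 * (bar k).1 + i') n * a n : ℝ) : ℂ)‖ ≤
      (1 + K * X ^ 2) * rw12 lam k.1 ^ 23 := by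
    intro i hi i' hi'
    rw [Finset.mem_range] at hi hi'
    rw [norm_mul, norm_mul, qq_norm, qq_norm, one_mul, one_mul, Complex.norm_real, Real.norm_eq_abs]
    refine inner_bd hD2 hM (by omega) ?_
    have : (bar k).1 = k.1 := rfl
    rw [this]
    omega
  rw [norm_mul]
  have h1 : ‖∑ i ∈ range 2, ∑ i' ∈ range 2, qq k.2 i * qq (bar k).2 i' *
      ((∑ n ∈ (range (2 * N)).filter (fun n => GG lam (n / 2) ^ 3 < GG lam k.1),
          sig bet lam (2 * k.1 + i) (2 * (bar k).1 + i') n * a n : ℝ) : ℂ)‖ ≤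
      ∑ i ∈ range 2, ∑ i' ∈ range 2, (1 + K * X ^ 2) * rw12 lam k.1 ^ 23 :=
    (norm_sum_le _ _).trans (sum_le_sum fun i hi =>
      (norm_sum_le _ _).trans (sum_le_sum fun i' hi' => hb i hi i' hi'))
  have h2 : ∑ i ∈ range 2, ∑ i' ∈ range 2, (1 + K * X ^ 2) * rw12 lam k.1 ^ 23 =
      4 * ((1 + K * X ^ 2) * rw12 lam k.1 ^ 23) := by
    simp only [sum_const, card_range]
    ring
  rw [h2] at h1
  have h3 : ‖(1 / 4 : ℂ)‖ = 1 / 4 := by
    rw [norm_div, norm_one]
    norm_num
  rw [h3]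
  linarith

end KEP2h

open KEPh KEP2h Finset in
theorem t_KEP2 : S_KEP2 := by
  classical
  intro hBDC _ bet lam om K c hD2 hG δ X hδ
  have hD := hD2.dat
  obtain ⟨hsame, -⟩ := hBDC bet lam K hD
  have hpos := hD.pos
  have hK0 : 0 ≤ K := zero_le_one.trans hD.K1
  set F := hG.fin.toFinset with hF
  set Y : ℝ := Real.sqrt X with hY
  have hY0 : 0 ≤ Y := Real.sqrt_nonneg _
  set d : ℝ := δ / 12 with hd
  have hd0 : 0 < d := by positivity
  set A : ℝ := 1 + K * X ^ 2 with hA
  have hA0 : 0 ≤ A := by positivity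
  set B' : ℝ := A * (A / d) ^ 23 with hB'
  have hB0 : 0 ≤ B' := by positivity
  set cc : Ix → Ix → Ix → ℂ := cx (sig bet lam) with hcc
  refine ⟨(∑ t ∈ F, ‖cc t.1 t.2.1 t.2.2‖ * (Y * Y * Y)) + 3 * (4 * d * X + 2 * B' * X), ?_⟩
  intro N a hM
  have hX0 : 0 ≤ X := le_trans (sum_nonneg fun n _ => sq_nonneg _) hM
  set x : Ix → ℝ := fun k => ‖uu a k‖ with hx
  have hx0 : ∀ k, 0 ≤ x k := fun k => norm_nonneg _
  have hxb : ∀ k, x (bar k) = x k := fun k => uu_bar a k
  have hxY : ∀ k ∈ IxN N, x k ≤ Y := fun k hk => uu_le hM hk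
  -- the kept coefficients
  have hlt : ∀ i j : ℕ, GG lam i ^ 3 < GG lam j → j ≠ i := by
    rintro i j h rfl
    have h1 : GG lam j ≤ GG lam j ^ 3 := le_self_pow₀ (GG_one hpos j) (by norm_num)
    linarith
  have hrest : ∀ k l m : Ix, rest2 bet lam om k l m =
      (if near2 lam om k l m then cc k l m else 0) +
      (if l = bar k ∧ GG lam m.1 ^ 3 < GG lam k.1 then cc k l m else 0) +
      (if m = bar k ∧ GG lam l.1 ^ 3 < GG lam k.1 then cc k l m else 0) +
      (if m = bar l ∧ GG lam k.1 ^ 3 < GG lam l.1 then cc k l m else 0) := by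
    intro k l m
    have hb : ∀ z : Ix, (bar z).1 = z.1 := fun z => rfl
    by_cases hs : same k l m
    · have h0 : cc k l m = 0 := hsame k l m hs
      unfold rest2
      have h0' : cx (sig bet lam) k l m = 0 := h0
      rw [h0', h0]
      simp
    by_cases hr : res k l m
    · have hn : ¬ near2 lam om k l m := fun h => h.2.1 hr
      rw [if_neg hn]
      unfold rest2
      rcases hr with hr | hr | hr
      · have n1 : ¬ m = bar k := fun h => hs ⟨by rw [hr, hb], by rw [hr, h]⟩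
        have n2 : ¬ m = bar l := fun h => hs ⟨by rw [hr, hb], by rw [h, hb]⟩
        by_cases h1 : GG lam m.1 ^ 3 < GG lam k.1
        · have hf : ¬ far2 lam om k l m := by
            rintro ⟨-, h | h | h | h⟩
            · exact h.1 (Or.inl hr)
            · exact absurd h.2 (not_le.2 h1)
            · exact n1 h.1
            · exact n2 h.1
          rw [if_neg hf, if_pos ⟨hr, h1⟩, if_neg (fun h => n1 h.1), if_neg (fun h => n2 h.1)]
          simp [hcc]
        · have hf : far2 lam om k l m := ⟨hs, Or.inr (Or.inl ⟨hr, not_lt.1 h1⟩)⟩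
          rw [if_pos hf, if_neg (fun h => h1 h.2), if_neg (fun h => n1 h.1),
            if_neg (fun h => n2 h.1)]
          simp
      · have n1 : ¬ l = bar k := fun h => hs ⟨by rw [h, hb], by rw [hr, h]⟩
        have n2 : ¬ m = bar l := fun h => hs ⟨by
          have := congrArg Prod.fst (hr.symm.trans h)
          simpa [hb] using this, by rw [h, hb]⟩
        by_cases h1 : GG lam l.1 ^ 3 < GG lam k.1
        · have hf : ¬ far2 lam om k l m := by
            rintro ⟨-, h | h | h | h⟩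
            · exact h.1 (Or.inr (Or.inl hr))
            · exact n1 h.1
            · exact absurd h.2 (not_le.2 h1)
            · exact n2 h.1
          rw [if_neg hf, if_neg (fun h => n1 h.1), if_pos ⟨hr, h1⟩, if_neg (fun h => n2 h.1)]
          simp [hcc]
        · have hf : far2 lam om k l m := ⟨hs, Or.inr (Or.inr (Or.inl ⟨hr, not_lt.1 h1⟩))⟩
          rw [if_pos hf, if_neg (fun h => n1 h.1), if_neg (fun h => h1 h.2),
            if_neg (fun h => n2 h.1)]
          simp
      · have n1 : ¬ l = bar k := fun h => hs ⟨by rw [h, hb], by rw [hr, hb]⟩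
        have n2 : ¬ m = bar k := fun h => hs ⟨by
          have := congrArg Prod.fst (h.symm.trans hr)
          simpa [hb] using this, by rw [hr, hb]⟩
        by_cases h1 : GG lam k.1 ^ 3 < GG lam l.1
        · have hf : ¬ far2 lam om k l m := by
            rintro ⟨-, h | h | h | h⟩
            · exact h.1 (Or.inr (Or.inr hr))
            · exact n1 h.1
            · exact n2 h.1
            · exact absurd h.2 (not_le.2 h1)
          rw [if_neg hf, if_neg (fun h => n1 h.1), if_neg (fun h => n2 h.1), if_pos ⟨hr, h1⟩]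
          simp [hcc]
        · have hf : far2 lam om k l m := ⟨hs, Or.inr (Or.inr (Or.inr ⟨hr, not_lt.1 h1⟩))⟩
          rw [if_pos hf, if_neg (fun h => n1 h.1), if_neg (fun h => n2 h.1),
            if_neg (fun h => h1 h.2)]
          simp
    · have n1 : ¬ l = bar k := fun h => hr (Or.inl h)
      have n2 : ¬ m = bar k := fun h => hr (Or.inr (Or.inl h))
      have n3 : ¬ m = bar l := fun h => hr (Or.inr (Or.inr h))
      rw [if_neg (fun h => n1 h.1 : ¬ (l = bar k ∧ _)),
        if_neg (fun h => n2 h.1 : ¬ (m = bar k ∧ _)), if_neg (fun h => n3 h.1 : ¬ (m = bar l ∧ _))]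
      unfold rest2
      by_cases h1 : mxG lam k l m ^ 6 ≤ |Lm om k l m|
      · have hf : far2 lam om k l m := ⟨hs, Or.inl ⟨hr, h1⟩⟩
        have hn : ¬ near2 lam om k l m := fun h => absurd h.2.2 (not_lt.2 h1)
        rw [if_pos hf, if_neg hn]
        simp
      · have hf : ¬ far2 lam om k l m := by
          rintro ⟨-, h | h | h | h⟩
          · exact h1 h.2
          · exact n1 h.1
          · exact n2 h.1
          · exact n3 h.1
        have hn : near2 lam om k l m := ⟨hs, hr, not_le.1 h1⟩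
        rw [if_neg hf, if_pos hn]
        simp [hcc]
  -- the resonant part
  set P : ℂ := ∑ k ∈ IxN N, (uu a k * uu a (bar k)) *
    ∑ m ∈ IxN N, (if GG lam m.1 ^ 3 < GG lam k.1 then cc k (bar k) m else 0) * uu a m with hP
  set E : ℝ := ∑ n ∈ range (2 * N), gg lam (n / 2) ^ 2 * a n ^ 2 with hE
  have hPle : ‖P‖ ≤ d * (4 * E + 4 * X) + 2 * B' * X := by
    have h1 : ‖P‖ ≤ ∑ k ∈ IxN N, x k ^ 2 * (d * GG lam k.1 ^ 2 + B') := by
      refine (norm_sum_le _ _).trans (sum_le_sum fun k _ => ?_)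
      rw [norm_mul, norm_mul]
      have h2 : ‖uu a k‖ * ‖uu a (bar k)‖ = x k ^ 2 := by
        have := hxb k
        rw [show ‖uu a (bar k)‖ = x (bar k) from rfl, this]
        ring
      rw [h2]
      refine mul_le_mul_of_nonneg_left ?_ (sq_nonneg _)
      refine (inner_norm hD2 hM k).trans ?_
      have h3 := absorb2 (zero_le_one.trans (rw12_one hpos k.1)) hA0 hd0
      have h4 : rw12 lam k.1 ^ 24 = GG lam k.1 ^ 2 := by
        rw [← rw12_pow hpos k.1]; ring
      rw [h4] at h3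
      exact h3
    have h2 : ∑ k ∈ IxN N, x k ^ 2 * (d * GG lam k.1 ^ 2 + B') =
        2 * ∑ n ∈ range (2 * N), (d * GG lam (n / 2) ^ 2 + B') * a n ^ 2 :=
      sum_uu a (fun j => d * GG lam j ^ 2 + B') N
    have h3 : ∑ n ∈ range (2 * N), (d * GG lam (n / 2) ^ 2 + B') * a n ^ 2 ≤
        ∑ n ∈ range (2 * N), (2 * d * (gg lam (n / 2) ^ 2 * a n ^ 2) + (2 * d + B') * a n ^ 2) := by
      refine sum_le_sum fun n _ => ?_
      have h4 : GG lam (n / 2) ^ 2 ≤ 2 * gg lam (n / 2) ^ 2 + 2 := by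
        unfold GG
        nlinarith [sq_nonneg (gg lam (n / 2) - 1)]
      have h5 : d * GG lam (n / 2) ^ 2 ≤ d * (2 * gg lam (n / 2) ^ 2 + 2) :=
        mul_le_mul_of_nonneg_left h4 hd0.le
      have h6 : (d * GG lam (n / 2) ^ 2 + B') * a n ^ 2 ≤
          (d * (2 * gg lam (n / 2) ^ 2 + 2) + B') * a n ^ 2 :=
        mul_le_mul_of_nonneg_right (by linarith) (sq_nonneg _)
      linarith
    rw [sum_add_distrib, ← mul_sum, ← mul_sum] at h3
    have h7 : ∑ n ∈ range (2 * N), a n ^ 2 ≤ X := hM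
    have h8 : (2 * d + B') * ∑ n ∈ range (2 * N), a n ^ 2 ≤ (2 * d + B') * X :=
      mul_le_mul_of_nonneg_left h7 (by positivity)
    linarith
  -- the three parts
  have T1 : ∑ k ∈ IxN N, ∑ l ∈ IxN N, ∑ m ∈ IxN N,
      (if l = bar k ∧ GG lam m.1 ^ 3 < GG lam k.1 then cc k l m else 0) *
        (uu a k * uu a l * uu a m) = P := by
    refine sum_congr rfl fun k hk => ?_
    rw [sum_eq_single (bar k)]
    · rw [mul_sum]
      refine sum_congr rfl fun m _ => ?_
      by_cases h1 : GG lam m.1 ^ 3 < GG lam k.1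
      · rw [if_pos ⟨rfl, h1⟩, if_pos h1]
        ring
      · rw [if_neg (fun h => h1 h.2), if_neg h1]
        ring
    · intro l _ hl
      exact sum_eq_zero fun m _ => by rw [if_neg (fun h => hl h.1), zero_mul]
    · intro h
      exact absurd (mem_bar hk) h
  have T2 : ∑ k ∈ IxN N, ∑ l ∈ IxN N, ∑ m ∈ IxN N,
      (if m = bar k ∧ GG lam l.1 ^ 3 < GG lam k.1 then cc k l m else 0) *
        (uu a k * uu a l * uu a m) = P := by
    refine sum_congr rfl fun k hk => ?_
    rw [mul_sum]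
    refine sum_congr rfl fun l _ => ?_
    rw [sum_eq_single (bar k)]
    · by_cases h1 : GG lam l.1 ^ 3 < GG lam k.1
      · rw [if_pos ⟨rfl, h1⟩, if_pos h1]
        have h2 : cc k l (bar k) = cc k (bar k) l := cx_23 hD k l (bar k)
        rw [h2]
        ring
      · rw [if_neg (fun h => h1 h.2), if_neg h1]
        ring
    · intro m _ hm
      rw [if_neg (fun h => hm h.1), zero_mul]
    · intro h
      exact absurd (mem_bar hk) h
  have T3 : ∑ k ∈ IxN N, ∑ l ∈ IxN N, ∑ m ∈ IxN N,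
      (if m = bar l ∧ GG lam k.1 ^ 3 < GG lam l.1 then cc k l m else 0) *
        (uu a k * uu a l * uu a m) = P := by
    rw [sum_comm]
    refine sum_congr rfl fun l hl => ?_
    rw [mul_sum]
    refine sum_congr rfl fun k _ => ?_
    rw [sum_eq_single (bar l)]
    · by_cases h1 : GG lam k.1 ^ 3 < GG lam l.1
      · rw [if_pos ⟨rfl, h1⟩, if_pos h1]
        have h2 : cc k l (bar l) = cc l (bar l) k :=
          (cx_12 hD k l (bar l)).trans (cx_23 hD l k (bar l))
        rw [h2]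
        ring
      · rw [if_neg (fun h => h1 h.2), if_neg h1]
        ring
    · intro m _ hm
      rw [if_neg (fun h => hm h.1), zero_mul]
    · intro h
      exact absurd (mem_bar hl) h
  have T0 : ‖∑ k ∈ IxN N, ∑ l ∈ IxN N, ∑ m ∈ IxN N,
      (if near2 lam om k l m then cc k l m else 0) * (uu a k * uu a l * uu a m)‖ ≤
      ∑ t ∈ F, ‖cc t.1 t.2.1 t.2.2‖ * (Y * Y * Y) := by
    have e1 : ∑ k ∈ IxN N, ∑ l ∈ IxN N, ∑ m ∈ IxN N,
        (if near2 lam om k l m then cc k l m else 0) * (uu a k * uu a l * uu a m) =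
        ∑ t ∈ IxN N ×ˢ (IxN N ×ˢ IxN N), (if near2 lam om t.1 t.2.1 t.2.2 then
          cc t.1 t.2.1 t.2.2 * (uu a t.1 * uu a t.2.1 * uu a t.2.2) else 0) := by
      rw [sum_product]
      refine sum_congr rfl fun k _ => ?_
      rw [sum_product]
      refine sum_congr rfl fun l _ => sum_congr rfl fun m _ => ?_
      simp only [ite_mul, zero_mul]
    rw [e1, ← sum_filter]
    have hsub : (IxN N ×ˢ (IxN N ×ˢ IxN N)).filter (fun t => near2 lam om t.1 t.2.1 t.2.2) ⊆ F := by
      intro t ht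
      rw [mem_filter] at ht
      rw [hF, Set.Finite.mem_toFinset]
      exact ht.2
    refine (norm_sum_le _ _).trans ?_
    refine le_trans ?_ (sum_le_sum_of_subset_of_nonneg hsub fun t _ _ => by positivity)
    refine sum_le_sum fun t ht => ?_
    rw [mem_filter, mem_product, mem_product] at ht
    rw [norm_mul, norm_mul, norm_mul]
    refine mul_le_mul_of_nonneg_left ?_ (norm_nonneg _)
    have q1 := hxY _ ht.1.1
    have q2 := hxY _ ht.1.2.1
    have q3 := hxY _ ht.1.2.2
    exact mul_le_mul (mul_le_mul q1 q2 (hx0 _) hY0) q3 (hx0 _) (by positivity)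
  have hform : form N (rest2 bet lam om) (uu a) =
      (∑ k ∈ IxN N, ∑ l ∈ IxN N, ∑ m ∈ IxN N,
        (if near2 lam om k l m then cc k l m else 0) * (uu a k * uu a l * uu a m)) +
        P + P + P := by
    unfold form
    conv_rhs => rw [← T1]
    simp only [hrest, add_mul, sum_add_distrib]
    rw [T1, T2, T3]
  rw [hform]
  have hn : ‖(∑ k ∈ IxN N, ∑ l ∈ IxN N, ∑ m ∈ IxN N,
      (if near2 lam om k l m then cc k l m else 0) * (uu a k * uu a l * uu a m)) +
        P + P + P‖ ≤ ‖∑ k ∈ IxN N, ∑ l ∈ IxN N, ∑ m ∈ IxN N,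
      (if near2 lam om k l m then cc k l m else 0) * (uu a k * uu a l * uu a m)‖ +
        ‖P‖ + ‖P‖ + ‖P‖ :=
    (norm_add_le _ _).trans (add_le_add_left ((norm_add_le _ _).trans
      (add_le_add_left (norm_add_le _ _) _)) _)
  have hfin : d * 12 = δ := by rw [hd]; ring
  have : 3 * (d * (4 * E + 4 * X) + 2 * B' * X) = δ * E + 3 * (4 * d * X + 2 * B' * X) := by
    rw [← hfin]; ring
  linarith

end Pool.Agent.U401.DD
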