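import Mathlib
import Pool.Agent.U401.DD.Stm5
import Pool.Agent.U401.DD.KEP2

/-!
Project EE, package KN (helper618): the part of the flux which is not removed by the normal form
(modelled on KEP2 by helper278).
-/

set_option autoImplicit false

namespace Pool.Agent.U401.DD

namespace KNh

open Finset KEPh KEP2h

variable {lam om : ℕ → ℝ} {bet : ℕ → ℕ → ℕ → ℝ} {K : ℝ}

theorem sigw_12 (hD : Dat bet lam K) (φ : ℕ → ℝ) (k l n : ℕ) :
    sigw bet φ k l n = sigw bet φ l k n := by
  unfold sigw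
  rw [hD.sym k l n, hD.sym l n k, hD.sym n k l]
  ring

theorem sigw_23 (hD : Dat bet lam K) (φ : ℕ → ℝ) (k l n : ℕ) :
    sigw bet φ k l n = sigw bet φ k n l := by
  unfold sigw
  rw [hD.sym k l n, hD.sym l n k, hD.sym n k l]
  ring

theorem cxw_23 (hD : Dat bet lam K) (φ : ℕ → ℝ) (k l m : Ix) :
    cx (sigw bet φ) k l m = cx (sigw bet φ) k m l := by
  unfold cx
  congr 1
  refine sum_congr rfl fun a _ => ?_
  rw [sum_comm]
  refine sum_congr rfl fun b _ => sum_congr rfl fun c _ => ?_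
  rw [sigw_23 hD]
  ring

theorem cxw_12 (hD : Dat bet lam K) (φ : ℕ → ℝ) (k l m : Ix) :
    cx (sigw bet φ) k l m = cx (sigw bet φ) l k m := by
  unfold cx
  congr 1
  rw [sum_comm]
  refine sum_congr rfl fun a _ => sum_congr rfl fun b _ => sum_congr rfl fun c _ => ?_
  rw [sigw_12 hD]
  ring

open Classical in
theorem innerw_bd (hD2 : Dat2 bet lam K) {X Γ : ℝ} {M N : ℕ} {a : ℕ → ℝ} (hM : Mm M a ≤ X)
    (hΓ : 1 ≤ Γ) (hN : ∀ j, N ≤ j → Γ ≤ GG lam j) {j k l : ℕ} (hk : k / 2 = j) (hl : l / 2 = j) :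
    |∑ n ∈ (range (2 * M)).filter (fun n => GG lam (n / 2) ^ 3 < GG lam j),
      sigw bet (cut N) k l n * a n| ≤ K * Real.sqrt X * Γ ^ (-(1 / 12) : ℝ) * GG lam j := by
  have hD := hD2.dat
  have hpos := hD.pos
  have hX0 : 0 ≤ X := le_trans (sum_nonneg fun n _ => sq_nonneg _) hM
  have hK0 : 0 ≤ K := zero_le_one.trans hD.K1
  have hΓ0 : 0 < Γ := by linarith
  have hΓp : 0 < Γ ^ (-(1 / 12) : ℝ) := Real.rpow_pos_of_pos hΓ0 _
  have hGj := GG_one hpos j
  have hR : 0 ≤ K * Real.sqrt X * Γ ^ (-(1 / 12) : ℝ) * GG lam j := by positivity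
  set S := (range (2 * M)).filter (fun n => GG lam (n / 2) ^ 3 < GG lam j) with hS
  have e1 : ∑ n ∈ S, sigw bet (cut N) k l n * a n =
      2 / 3 * ∑ n ∈ S, bet k l n * ((cut N (n / 2) - cut N j) * a n) := by
    rw [mul_sum]
    refine sum_congr rfl fun n _ => ?_
    have hc := hD.cyc k l n
    unfold sigw
    rw [hk, hl]
    linear_combination (2 / 3 * cut N j * a n) * hc
  by_cases hz : j < N ∧ ∀ n ∈ S, n / 2 < N
  · have h0 : ∑ n ∈ S, bet k l n * ((cut N (n / 2) - cut N j) * a n) = 0 := by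
      refine sum_eq_zero fun n hn => ?_
      unfold cut
      rw [if_pos hz.1, if_pos (hz.2 n hn)]
      ring
    rw [e1, h0, mul_zero, abs_zero]
    exact hR
  have hΓG : Γ ≤ GG lam j := by
    by_cases hj : j < N
    · have : ∃ n ∈ S, ¬ n / 2 < N := by
        by_contra hcon
        push Not at hcon
        exact hz ⟨hj, hcon⟩
      obtain ⟨n, hn, hnN⟩ := this
      have h1 := hN (n / 2) (not_lt.1 hnN)
      have h2 := (mem_filter.1 hn).2
      have h3 : GG lam (n / 2) ≤ GG lam (n / 2) ^ 3 := le_self_pow₀ (GG_one hpos _) (by norm_num)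
      linarith
    · exact hN j (not_lt.1 hj)
  have hdual := hD2.dual k l (hk.trans hl.symm) S (fun n => (cut N (n / 2) - cut N j) * a n)
  set s := rw12 lam j with hs
  have hs1 : 1 ≤ s := rw12_one hpos j
  have hs12 : s ^ 12 = GG lam j := rw12_pow hpos j
  have hsum : ∑ n ∈ S, lam n * ((cut N (n / 2) - cut N j) * a n) ^ 2 ≤ s ^ 4 * X := by
    have h1 : ∀ n ∈ S, lam n * ((cut N (n / 2) - cut N j) * a n) ^ 2 ≤ s ^ 4 * a n ^ 2 := by
      intro n hn
      have hn' := (mem_filter.1 hn).2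
      have g1 := GG_one hpos (n / 2)
      have g2 : GG lam (n / 2) < s ^ 4 := by
        rw [← hs12, show s ^ 12 = (s ^ 4) ^ 3 by ring] at hn'
        exact lt_of_pow_lt_pow_left₀ 3 (by positivity) hn'
      have g3 : lam n ≤ s ^ 4 := by
        have := lam_le hpos n
        unfold GG at g2
        linarith
      have g5 : (cut N (n / 2) - cut N j) ^ 2 ≤ 1 := by
        unfold cut
        split_ifs <;> norm_num
      calc lam n * ((cut N (n / 2) - cut N j) * a n) ^ 2
          = lam n * ((cut N (n / 2) - cut N j) ^ 2 * a n ^ 2) := by ring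
        _ ≤ s ^ 4 * (1 * a n ^ 2) := by
            refine mul_le_mul g3 ?_ (by positivity) (by positivity)
            exact mul_le_mul_of_nonneg_right g5 (sq_nonneg _)
        _ = s ^ 4 * a n ^ 2 := by ring
    refine (sum_le_sum h1).trans ?_
    rw [← mul_sum]
    refine mul_le_mul_of_nonneg_left ?_ (by positivity)
    refine le_trans ?_ hM
    unfold Mm
    exact sum_le_sum_of_subset_of_nonneg (filter_subset _ _) fun n _ _ => sq_nonneg _
  have hsum0 : 0 ≤ ∑ n ∈ S, lam n * ((cut N (n / 2) - cut N j) * a n) ^ 2 :=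
    sum_nonneg fun n _ => mul_nonneg (hpos n).le (sq_nonneg _)
  set y := ∑ n ∈ S, bet k l n * ((cut N (n / 2) - cut N j) * a n) with hy
  have hy4 : y ^ 4 ≤ K * X ^ 2 * s ^ 44 := by
    refine hdual.trans ?_
    rw [hk, ← hs12]
    have h2 : (∑ n ∈ S, lam n * ((cut N (n / 2) - cut N j) * a n) ^ 2) ^ 2 ≤
        (s ^ 4 * X) ^ 2 := pow_le_pow_left₀ hsum0 hsum 2
    calc K * ((s ^ 12) ^ 3 * (∑ n ∈ S, lam n * ((cut N (n / 2) - cut N j) * a n) ^ 2) ^ 2)
        ≤ K * ((s ^ 12) ^ 3 * (s ^ 4 * X) ^ 2) :=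
          mul_le_mul_of_nonneg_left (mul_le_mul_of_nonneg_left h2 (by positivity)) hK0
      _ = K * X ^ 2 * s ^ 44 := by ring
  have hsX := Real.sq_sqrt hX0
  have hsX0 := Real.sqrt_nonneg X
  have hy1 : |y| ≤ K * Real.sqrt X * s ^ 11 := by
    refine (pow_le_pow_iff_left₀ (abs_nonneg y) (by positivity) (show (4 : ℕ) ≠ 0 by norm_num)).1 ?_
    have h3 : |y| ^ 4 = y ^ 4 := by
      rw [show (4 : ℕ) = 2 * 2 by norm_num, pow_mul, pow_mul, sq_abs]
    rw [h3]
    refine hy4.trans ?_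
    have h4 : (K * Real.sqrt X * s ^ 11) ^ 4 = K ^ 4 * (Real.sqrt X ^ 2) ^ 2 * s ^ 44 := by ring
    rw [h4, hsX]
    have h5 : K ≤ K ^ 4 := le_self_pow₀ hD.K1 (by norm_num)
    have h6 : 0 ≤ X ^ 2 * s ^ 44 := by positivity
    nlinarith
  have hs11 : s ^ 11 ≤ Γ ^ (-(1 / 12) : ℝ) * GG lam j := by
    have h1 : Γ ^ (1 / 12 : ℝ) ≤ s := by
      rw [hs]
      unfold rw12
      have h2 : (((12 : ℕ) : ℝ)⁻¹) = (1 / 12 : ℝ) := by norm_num
      rw [h2]
      exact Real.rpow_le_rpow hΓ0.le hΓG (by norm_num)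
    have h3 : Γ ^ (-(1 / 12) : ℝ) * Γ ^ (1 / 12 : ℝ) = 1 := by
      rw [← Real.rpow_add hΓ0]
      norm_num
    rw [← hs12]
    have h4 : 1 ≤ Γ ^ (-(1 / 12) : ℝ) * s := by
      have h6 := mul_le_mul_of_nonneg_left h1 hΓp.le
      rw [h3] at h6
      exact h6
    have h5 : 0 ≤ s ^ 11 := by positivity
    calc s ^ 11 = s ^ 11 * 1 := (mul_one _).symm
      _ ≤ s ^ 11 * (Γ ^ (-(1 / 12) : ℝ) * s) := mul_le_mul_of_nonneg_left h4 h5
      _ = Γ ^ (-(1 / 12) : ℝ) * s ^ 12 := by ring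
  rw [e1, abs_mul]
  have h4 : |(2 / 3 : ℝ)| = 2 / 3 := abs_of_pos (by norm_num)
  rw [h4]
  have h5 : |y| ≤ K * Real.sqrt X * Γ ^ (-(1 / 12) : ℝ) * GG lam j := by
    refine hy1.trans ?_
    have := mul_le_mul_of_nonneg_left hs11 (show 0 ≤ K * Real.sqrt X by positivity)
    linarith
  have := abs_nonneg y
  linarith

open Classical in
theorem innerw_norm (hD2 : Dat2 bet lam K) {X Γ : ℝ} {M N : ℕ} {a : ℕ → ℝ} (hM : Mm M a ≤ X)
    (hΓ : 1 ≤ Γ) (hN : ∀ j, N ≤ j → Γ ≤ GG lam j) (k : Ix) :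
    ‖∑ m ∈ IxN M, (if GG lam m.1 ^ 3 < GG lam k.1 then cx (sigw bet (cut N)) k (bar k) m else 0) *
      uu a m‖ ≤ K * Real.sqrt X * Γ ^ (-(1 / 12) : ℝ) * GG lam k.1 := by
  rw [inner_eq (sigw bet (cut N)) M a k (bar k) (fun j => GG lam j ^ 3 < GG lam k.1)]
  set R := K * Real.sqrt X * Γ ^ (-(1 / 12) : ℝ) * GG lam k.1 with hR
  have hb : ∀ i ∈ range 2, ∀ i' ∈ range 2, ‖qq k.2 i * qq (bar k).2 i' *
      ((∑ n ∈ (range (2 * M)).filter (fun n => GG lam (n / 2) ^ 3 < GG lam k.1),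
          sigw bet (cut N) (2 * k.1 + i) (2 * (bar k).1 + i') n * a n : ℝ) : ℂ)‖ ≤ R := by
    intro i hi i' hi'
    rw [Finset.mem_range] at hi hi'
    rw [norm_mul, norm_mul, qq_norm, qq_norm, one_mul, one_mul, Complex.norm_real, Real.norm_eq_abs]
    refine innerw_bd hD2 hM hΓ hN (by omega) ?_
    have : (bar k).1 = k.1 := rfl
    rw [this]
    omega
  rw [norm_mul]
  have h1 : ‖∑ i ∈ range 2, ∑ i' ∈ range 2, qq k.2 i * qq (bar k).2 i' *
      ((∑ n ∈ (range (2 * M)).filter (fun n => GG lam (n / 2) ^ 3 < GG lam k.1),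
          sigw bet (cut N) (2 * k.1 + i) (2 * (bar k).1 + i') n * a n : ℝ) : ℂ)‖ ≤
      ∑ i ∈ range 2, ∑ i' ∈ range 2, R :=
    (norm_sum_le _ _).trans (sum_le_sum fun i hi =>
      (norm_sum_le _ _).trans (sum_le_sum fun i' hi' => hb i hi i' hi'))
  have h2 : ∑ i ∈ range 2, ∑ i' ∈ range 2, R = 4 * R := by
    simp only [sum_const, card_range]
    ring
  rw [h2] at h1
  have h3 : ‖(1 / 4 : ℂ)‖ = 1 / 4 := by
    rw [norm_div, norm_one]
    norm_num
  rw [h3]
  linarith

end KNh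

open KEPh KEP2h KNh Finset in
theorem t_KN : S_KN := by
  classical
  intro hBW bet lam om K c hD2 hG
  have hD := hD2.dat
  obtain ⟨K', hK', hbw⟩ := hBW bet lam K hD2
  have hpos := hD.pos
  have hK0 : 0 ≤ K := zero_le_one.trans hD.K1
  set F := hG.fin.toFinset with hF
  set N₀ : ℕ := F.sup (fun t => max t.1.1 (max t.2.1.1 t.2.2.1)) + 1 with hN₀
  refine ⟨6 * K, N₀, by positivity, ?_⟩
  intro N hNN Γ hΓ hΓN M a X hM
  have hX0 : 0 ≤ X := le_trans (sum_nonneg fun n _ => sq_nonneg _) hM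
  set x : Ix → ℝ := fun k => ‖uu a k‖ with hx
  have hxb : ∀ k, x (bar k) = x k := fun k => uu_bar a k
  set cc : Ix → Ix → Ix → ℂ := cx (sigw bet (cut N)) with hcc
  have hnear : ∀ k l m : Ix, near2 lam om k l m → cc k l m = 0 := by
    intro k l m h
    have hmem : ((k, l, m) : Ix × Ix × Ix) ∈ F := by
      rw [hF, Set.Finite.mem_toFinset]
      exact h
    have h1 : max k.1 (max l.1 m.1) ≤ F.sup (fun t => max t.1.1 (max t.2.1.1 t.2.2.1)) :=
      Finset.le_sup (f := fun t : Ix × Ix × Ix => max t.1.1 (max t.2.1.1 t.2.2.1)) hmem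
    have h2 : max k.1 (max l.1 m.1) < N := by omega
    refine (hbw N k l m).1 (Or.inl ⟨?_, ?_, ?_⟩)
    · exact lt_of_le_of_lt (le_max_left _ _) h2
    · exact lt_of_le_of_lt ((le_max_left _ _).trans (le_max_right _ _)) h2
    · exact lt_of_le_of_lt ((le_max_right _ _).trans (le_max_right _ _)) h2
  have hsame : ∀ k l m : Ix, same k l m → cc k l m = 0 := by
    rintro k l m ⟨h1, h2⟩
    refine (hbw N k l m).1 ?_
    by_cases h : k.1 < N
    · exact Or.inl ⟨h, by rw [← h1]; exact h, by rw [← h2, ← h1]; exact h⟩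
    · rw [not_lt] at h
      exact Or.inr ⟨h, by rw [← h1]; exact h, by rw [← h2, ← h1]; exact h⟩
  have hrest : ∀ k l m : Ix, restw bet lam om N k l m =
      (if l = bar k ∧ GG lam m.1 ^ 3 < GG lam k.1 then cc k l m else 0) +
      (if m = bar k ∧ GG lam l.1 ^ 3 < GG lam k.1 then cc k l m else 0) +
      (if m = bar l ∧ GG lam k.1 ^ 3 < GG lam l.1 then cc k l m else 0) := by
    intro k l m
    have hb : ∀ z : Ix, (bar z).1 = z.1 := fun z => rfl
    by_cases hs : same k l m
    · have h0 : cc k l m = 0 := hsame k l m hs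
      unfold restw
      have h0' : cx (sigw bet (cut N)) k l m = 0 := h0
      rw [h0', h0]
      simp
    by_cases hr : res k l m
    · unfold restw
      rcases hr with hr | hr | hr
      · have n1 : ¬ m = bar k := fun h => hs ⟨by rw [hr, hb], by rw [hr, h]⟩
        have n2 : ¬ m = bar l := fun h => hs ⟨by rw [hr, hb], by rw [h, hb]⟩
        by_cases h1 : GG lam m.1 ^ 3 < GG lam k.1
        · have hf : ¬ far2 lam om k l m := by
            rintro ⟨-, h | h | h | h⟩
            · exact h.1 (Or.inl hr)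
            · exact absurd h.2 (not_le.2 h1)
            · exact n1 h.1
            · exact n2 h.1
          rw [if_neg hf, if_pos ⟨hr, h1⟩, if_neg (fun h => n1 h.1), if_neg (fun h => n2 h.1)]
          simp [hcc]
        · have hf : far2 lam om k l m := ⟨hs, Or.inr (Or.inl ⟨hr, not_lt.1 h1⟩)⟩
          rw [if_pos hf, if_neg (fun h => h1 h.2), if_neg (fun h => n1 h.1),
            if_neg (fun h => n2 h.1)]
          simp
      · have n1 : ¬ l = bar k := fun h => hs ⟨by rw [h, hb], by rw [hr, h]⟩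
        have n2 : ¬ m = bar l := fun h => hs ⟨by
          have := congrArg Prod.fst (hr.symm.trans h)
          simpa [hb] using this, by rw [h, hb]⟩
        by_cases h1 : GG lam l.1 ^ 3 < GG lam k.1
        · have hf : ¬ far2 lam om k l m := by
            rintro ⟨-, h | h | h | h⟩
            · exact h.1 (Or.inr (Or.inl hr))
            · exact n1 h.1
            · exact absurd h.2 (not_le.2 h1)
            · exact n2 h.1
          rw [if_neg hf, if_neg (fun h => n1 h.1), if_pos ⟨hr, h1⟩, if_neg (fun h => n2 h.1)]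
          simp [hcc]
        · have hf : far2 lam om k l m := ⟨hs, Or.inr (Or.inr (Or.inl ⟨hr, not_lt.1 h1⟩))⟩
          rw [if_pos hf, if_neg (fun h => n1 h.1), if_neg (fun h => h1 h.2),
            if_neg (fun h => n2 h.1)]
          simp
      · have n1 : ¬ l = bar k := fun h => hs ⟨by rw [h, hb], by rw [hr, hb]⟩
        have n2 : ¬ m = bar k := fun h => hs ⟨by
          have := congrArg Prod.fst (h.symm.trans hr)
          simpa [hb] using this, by rw [hr, hb]⟩
        by_cases h1 : GG lam k.1 ^ 3 < GG lam l.1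
        · have hf : ¬ far2 lam om k l m := by
            rintro ⟨-, h | h | h | h⟩
            · exact h.1 (Or.inr (Or.inr hr))
            · exact n1 h.1
            · exact n2 h.1
            · exact absurd h.2 (not_le.2 h1)
          rw [if_neg hf, if_neg (fun h => n1 h.1), if_neg (fun h => n2 h.1), if_pos ⟨hr, h1⟩]
          simp [hcc]
        · have hf : far2 lam om k l m := ⟨hs, Or.inr (Or.inr (Or.inr ⟨hr, not_lt.1 h1⟩))⟩
          rw [if_pos hf, if_neg (fun h => n1 h.1), if_neg (fun h => n2 h.1),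
            if_neg (fun h => h1 h.2)]
          simp
    · have n1 : ¬ l = bar k := fun h => hr (Or.inl h)
      have n2 : ¬ m = bar k := fun h => hr (Or.inr (Or.inl h))
      have n3 : ¬ m = bar l := fun h => hr (Or.inr (Or.inr h))
      rw [if_neg (fun h => n1 h.1 : ¬ (l = bar k ∧ _)),
        if_neg (fun h => n2 h.1 : ¬ (m = bar k ∧ _)), if_neg (fun h => n3 h.1 : ¬ (m = bar l ∧ _))]
      unfold restw
      by_cases h1 : mxG lam k l m ^ 6 ≤ |Lm om k l m|
      · have hf : far2 lam om k l m := ⟨hs, Or.inl ⟨hr, h1⟩⟩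
        rw [if_pos hf]
        simp
      · have hf : ¬ far2 lam om k l m := by
          rintro ⟨-, h | h | h | h⟩
          · exact h1 h.2
          · exact n1 h.1
          · exact n2 h.1
          · exact n3 h.1
        have h0 : cx (sigw bet (cut N)) k l m = 0 := hnear k l m ⟨hs, hr, not_le.1 h1⟩
        rw [if_neg hf, h0]
        simp
  -- the resonant part
  set P : ℂ := ∑ k ∈ IxN M, (uu a k * uu a (bar k)) *
    ∑ m ∈ IxN M, (if GG lam m.1 ^ 3 < GG lam k.1 then cc k (bar k) m else 0) * uu a m with hP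
  set R : ℝ := K * Real.sqrt X * Γ ^ (-(1 / 12) : ℝ) with hR
  have hPle : ‖P‖ ≤ R * (2 * ∑ n ∈ range (2 * M), GG lam (n / 2) * a n ^ 2) := by
    have h1 : ‖P‖ ≤ ∑ k ∈ IxN M, x k ^ 2 * (R * GG lam k.1) := by
      refine (norm_sum_le _ _).trans (sum_le_sum fun k _ => ?_)
      rw [norm_mul, norm_mul]
      have h2 : ‖uu a k‖ * ‖uu a (bar k)‖ = x k ^ 2 := by
        have := hxb k
        rw [show ‖uu a (bar k)‖ = x (bar k) from rfl, this]
        ring
      rw [h2]
      exact mul_le_mul_of_nonneg_left (innerw_norm hD2 hM hΓ hΓN k) (sq_nonneg _)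
    have h2 : ∑ k ∈ IxN M, x k ^ 2 * (R * GG lam k.1) =
        2 * ∑ n ∈ range (2 * M), (R * GG lam (n / 2)) * a n ^ 2 :=
      sum_uu a (fun j => R * GG lam j) M
    have h3 : ∑ n ∈ range (2 * M), (R * GG lam (n / 2)) * a n ^ 2 =
        R * ∑ n ∈ range (2 * M), GG lam (n / 2) * a n ^ 2 := by
      rw [mul_sum]
      exact sum_congr rfl fun n _ => by ring
    rw [h2, h3] at h1
    linarith
  -- the three parts
  have T1 : ∑ k ∈ IxN M, ∑ l ∈ IxN M, ∑ m ∈ IxN M,
      (if l = bar k ∧ GG lam m.1 ^ 3 < GG lam k.1 then cc k l m else 0) *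
        (uu a k * uu a l * uu a m) = P := by
    refine sum_congr rfl fun k hk => ?_
    rw [sum_eq_single (bar k)]
    · rw [mul_sum]
      refine sum_congr rfl fun m _ => ?_
      by_cases h1 : GG lam m.1 ^ 3 < GG lam k.1
      · rw [if_pos ⟨rfl, h1⟩, if_pos h1]
        ring
      · rw [if_neg (fun h => h1 h.2), if_neg h1]
        ring
    · intro l _ hl
      exact sum_eq_zero fun m _ => by rw [if_neg (fun h => hl h.1), zero_mul]
    · intro h
      exact absurd (mem_bar hk) h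
  have T2 : ∑ k ∈ IxN M, ∑ l ∈ IxN M, ∑ m ∈ IxN M,
      (if m = bar k ∧ GG lam l.1 ^ 3 < GG lam k.1 then cc k l m else 0) *
        (uu a k * uu a l * uu a m) = P := by
    refine sum_congr rfl fun k hk => ?_
    rw [mul_sum]
    refine sum_congr rfl fun l _ => ?_
    rw [sum_eq_single (bar k)]
    · by_cases h1 : GG lam l.1 ^ 3 < GG lam k.1
      · rw [if_pos ⟨rfl, h1⟩, if_pos h1]
        have h2 : cc k l (bar k) = cc k (bar k) l := cxw_23 hD (cut N) k l (bar k)
        rw [h2]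
        ring
      · rw [if_neg (fun h => h1 h.2), if_neg h1]
        ring
    · intro m _ hm
      rw [if_neg (fun h => hm h.1), zero_mul]
    · intro h
      exact absurd (mem_bar hk) h
  have T3 : ∑ k ∈ IxN M, ∑ l ∈ IxN M, ∑ m ∈ IxN M,
      (if m = bar l ∧ GG lam k.1 ^ 3 < GG lam l.1 then cc k l m else 0) *
        (uu a k * uu a l * uu a m) = P := by
    rw [sum_comm]
    refine sum_congr rfl fun l hl => ?_
    rw [mul_sum]
    refine sum_congr rfl fun k _ => ?_
    rw [sum_eq_single (bar l)]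
    · by_cases h1 : GG lam k.1 ^ 3 < GG lam l.1
      · rw [if_pos ⟨rfl, h1⟩, if_pos h1]
        have h2 : cc k l (bar l) = cc l (bar l) k :=
          (cxw_12 hD (cut N) k l (bar l)).trans (cxw_23 hD (cut N) l k (bar l))
        rw [h2]
        ring
      · rw [if_neg (fun h => h1 h.2), if_neg h1]
        ring
    · intro m _ hm
      rw [if_neg (fun h => hm h.1), zero_mul]
    · intro h
      exact absurd (mem_bar hl) h
  have hform : form M (restw bet lam om N) (uu a) = P + P + P := by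
    unfold form
    conv_rhs => rw [← T1]
    simp only [hrest, add_mul, sum_add_distrib]
    rw [T1, T2, T3]
  rw [hform]
  have hn : ‖P + P + P‖ ≤ ‖P‖ + ‖P‖ + ‖P‖ :=
    (norm_add_le _ _).trans (add_le_add_left (norm_add_le _ _) _)
  have hfin : 6 * K * Real.sqrt X * Γ ^ (-(1 / 12) : ℝ) *
      ∑ n ∈ range (2 * M), GG lam (n / 2) * a n ^ 2 =
      3 * (R * (2 * ∑ n ∈ range (2 * M), GG lam (n / 2) * a n ^ 2)) := by
    rw [hR]; ring
  rw [hfin]
  linarith

end Pool.Agent.U401.DD
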