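import Mathlib
import Pool.Agent.U401.DD.Stm
import Pool.Agent.U446.DD.LMIcore

set_option autoImplicit false

/-! Project DD (helper401), package LMI (helper446): the eigenvalues tend to infinity. -/

open MeasureTheory ProbabilityTheory Set Filter Topology
open scoped InnerProductSpace

namespace Pool.Agent.U401.DD

open H772R2.NSR

theorem t_LMI : S_LMI := by
  intro H K _ _ _ _ _ _ W m C w g lam _ hB tb
  exact Pool.Agent.U446.DD.core W w g lam hB.mem hB.orth hB.eig tb

end Pool.Agent.U401.DD
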