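import Mathlib
import Pool.Agent.U401.DD.Stm2

set_option autoImplicit false

/-!
Project DD, package MIN: a minimizer of the Rayleigh quotient in a closed subspace (helper843).
-/

open Set Filter Topology
open scoped InnerProductSpace

namespace Pool.Agent.U401.DD

open H772R2.NSR

theorem t_MIN : S_MIN := by
  intro H K _ _ _ _ _ _ W m C hF hTB W' hW hcl hne
  obtain ⟨p0, hp0, hp01⟩ := hne
  -- normalization
  have hscale : ∀ q ∈ W', q.1 ≠ 0 → ∃ q' ∈ W', ‖q'.1‖ = 1 ∧ ‖q'.2‖ ^ 2 * ‖q.1‖ ^ 2 = ‖q.2‖ ^ 2 := by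
    intro q hq hq1
    have h0 : ‖q.1‖ ≠ 0 := norm_ne_zero_iff.mpr hq1
    refine ⟨‖q.1‖⁻¹ • q, W'.smul_mem _ hq, ?_, ?_⟩
    · rw [Prod.smul_fst, norm_smul, norm_inv, norm_norm, inv_mul_cancel₀ h0]
    · rw [Prod.smul_snd, norm_smul, norm_inv, norm_norm]
      field_simp
  let S : Set ℝ := {s | ∃ q ∈ W', ‖q.1‖ = 1 ∧ ‖q.2‖ ^ 2 = s}
  have hSne : S.Nonempty := by
    obtain ⟨q', hq', h1, -⟩ := hscale p0 hp0 hp01
    exact ⟨_, q', hq', h1, rfl⟩
  have hSbd : BddBelow S := ⟨0, by rintro s ⟨q, -, -, rfl⟩; positivity⟩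
  set l : ℝ := sInf S with hl
  have hl0 : 0 ≤ l := le_csInf hSne (by rintro s ⟨q, -, -, rfl⟩; positivity)
  -- the lower bound
  have hlow : ∀ q ∈ W', l * ‖q.1‖ ^ 2 ≤ ‖q.2‖ ^ 2 := by
    intro q hq
    by_cases hq1 : q.1 = 0
    · rw [hq1, norm_zero]; simp
    · obtain ⟨q', hq', h1, h2⟩ := hscale q hq hq1
      rw [← h2]
      exact mul_le_mul_of_nonneg_right (csInf_le hSbd ⟨q', hq', h1, rfl⟩) (by positivity)
  -- a minimizing sequence
  have hseq : ∀ k : ℕ, ∃ q ∈ W', ‖q.1‖ = 1 ∧ ‖q.2‖ ^ 2 < l + 1 / ((k : ℝ) + 1) := by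
    intro k
    have h1 : l < l + 1 / ((k : ℝ) + 1) := by
      have : (0 : ℝ) < 1 / ((k : ℝ) + 1) := Nat.one_div_pos_of_nat
      linarith
    obtain ⟨s, ⟨q, hq, h2, rfl⟩, h3⟩ := exists_lt_of_csInf_lt hSne h1
    exact ⟨q, hq, h2, h3⟩
  choose q hq hq1 hq2 using hseq
  have hone : ∀ k : ℕ, 1 / ((k : ℝ) + 1) ≤ 1 := by
    intro k
    rw [div_le_one (by positivity)]
    have : (0 : ℝ) ≤ k := Nat.cast_nonneg k
    linarith
  have hR : ∀ k, ‖(q k).2‖ ≤ l + 2 := by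
    intro k
    by_contra hcon
    push Not at hcon
    have h1 := hq2 k
    have h2 := hone k
    nlinarith [norm_nonneg (q k).2]
  have hcomp : IsCompact (closure {v : H | ∃ z : K, (v, z) ∈ W ∧ ‖z‖ ≤ l + 2}) :=
    (hTB (l + 2)).closure.isCompact_of_isClosed isClosed_closure
  obtain ⟨v, -, φ, hφ, hV⟩ := hcomp.tendsto_subseq (x := fun k => (q k).1)
    (fun k => subset_closure ⟨(q k).2, hW (hq k), hR k⟩)
  have hV' : Tendsto (fun k => (q (φ k)).1) atTop (𝓝 v) := hV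
  have hZ2 : ∀ k, ‖(q (φ k)).2‖ ^ 2 ≤ l + 1 / ((k : ℝ) + 1) := by
    intro k
    refine (hq2 (φ k)).le.trans ?_
    have h1 : (k : ℝ) ≤ φ k := by exact_mod_cast hφ.id_le k
    have h2 : 1 / ((φ k : ℝ) + 1) ≤ 1 / ((k : ℝ) + 1) :=
      one_div_le_one_div_of_le (by positivity) (by linarith)
    linarith
  -- the parallelogram law
  have hpar : ∀ k j : ℕ, ‖(q (φ k)).2 - (q (φ j)).2‖ ^ 2
      ≤ 2 * (1 / ((k : ℝ) + 1)) + 2 * (1 / ((j : ℝ) + 1))
        + l * ‖(q (φ k)).1 - (q (φ j)).1‖ ^ 2 := by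
    intro k j
    have h1 := parallelogram_law_with_norm ℝ (q (φ k)).2 (q (φ j)).2
    have h2 := parallelogram_law_with_norm ℝ (q (φ k)).1 (q (φ j)).1
    have h3 := hlow _ (W'.add_mem (hq (φ k)) (hq (φ j)))
    rw [Prod.fst_add, Prod.snd_add] at h3
    rw [hq1, hq1] at h2
    have h4 := hZ2 k
    have h5 := hZ2 j
    nlinarith
  have hcV : CauchySeq (fun k => (q (φ k)).1) := hV'.cauchySeq
  have hcZ : CauchySeq (fun k => (q (φ k)).2) := by
    rw [cauchySeq_iff_tendsto_dist_atTop_0] at hcV ⊢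
    have h1 : Tendsto (fun n : ℕ × ℕ => 2 * (1 / ((n.1 : ℝ) + 1)) + 2 * (1 / ((n.2 : ℝ) + 1))
        + l * dist (q (φ n.1)).1 (q (φ n.2)).1 ^ 2) atTop (𝓝 0) := by
      have h2 : Tendsto (fun n : ℕ × ℕ => 1 / ((n.1 : ℝ) + 1)) atTop (𝓝 0) := by
        rw [← prod_atTop_atTop_eq]
        exact (tendsto_one_div_add_atTop_nhds_zero_nat (𝕜 := ℝ)).comp tendsto_fst
      have h3 : Tendsto (fun n : ℕ × ℕ => 1 / ((n.2 : ℝ) + 1)) atTop (𝓝 0) := by
        rw [← prod_atTop_atTop_eq]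
        exact (tendsto_one_div_add_atTop_nhds_zero_nat (𝕜 := ℝ)).comp tendsto_snd
      have h4 := ((h2.const_mul 2).add (h3.const_mul 2)).add ((hcV.pow 2).const_mul l)
      simpa using h4
    have h5 : Tendsto (fun n : ℕ × ℕ => dist (q (φ n.1)).2 (q (φ n.2)).2 ^ 2) atTop (𝓝 0) := by
      refine squeeze_zero (fun n => by positivity) (fun n => ?_) h1
      rw [dist_eq_norm, dist_eq_norm]
      exact hpar n.1 n.2
    have h6 := (Real.continuous_sqrt.tendsto 0).comp h5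
    rw [Real.sqrt_zero] at h6
    refine h6.congr fun n => ?_
    simp only [Function.comp_apply]
    rw [Real.sqrt_sq dist_nonneg]
  obtain ⟨z, hZ⟩ := cauchySeq_tendsto_of_complete hcZ
  have hmem : (v, z) ∈ W' := by
    have h1 : Tendsto (fun k => q (φ k)) atTop (𝓝 (v, z)) := by
      have := hV'.prodMk_nhds hZ
      exact this
    exact hcl.mem_of_tendsto h1 (Eventually.of_forall fun k => hq (φ k))
  have hv1 : ‖v‖ = 1 := by
    have h1 : Tendsto (fun k => ‖(q (φ k)).1‖) atTop (𝓝 ‖v‖) := hV'.norm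
    simp only [hq1] at h1
    exact (tendsto_nhds_unique h1 tendsto_const_nhds)
  have hz2 : ‖z‖ ^ 2 = l := by
    refine le_antisymm ?_ ?_
    · have h1 : Tendsto (fun k => ‖(q (φ k)).2‖ ^ 2) atTop (𝓝 (‖z‖ ^ 2)) := hZ.norm.pow 2
      have h2 : Tendsto (fun k : ℕ => l + 1 / ((k : ℝ) + 1)) atTop (𝓝 (l + 0)) :=
        tendsto_const_nhds.add (tendsto_one_div_add_atTop_nhds_zero_nat (𝕜 := ℝ))
      rw [add_zero] at h2
      exact le_of_tendsto_of_tendsto' h1 h2 hZ2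
    · have h1 := hlow _ hmem
      simp only [hv1] at h1
      linarith
  refine ⟨(v, z), hmem, l, hv1, fun q' hq' => ?_, hlow⟩
  -- variation
  set B : ℝ := ⟪z, q'.2⟫_ℝ - l * ⟪v, q'.1⟫_ℝ with hB
  set D : ℝ := ‖q'.2‖ ^ 2 - l * ‖q'.1‖ ^ 2 with hD
  have hD0 : 0 ≤ D := sub_nonneg.mpr (hlow q' hq')
  have hvar : ∀ t : ℝ, 0 ≤ 2 * t * B + t ^ 2 * D := by
    intro t
    have h1 := hlow _ (W'.add_mem hmem (W'.smul_mem t hq'))
    rw [Prod.fst_add, Prod.snd_add, Prod.smul_fst, Prod.smul_snd] at h1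
    simp only at h1
    rw [norm_add_sq_real, norm_add_sq_real, inner_smul_right, inner_smul_right, norm_smul,
      norm_smul, Real.norm_eq_abs, mul_pow, mul_pow, sq_abs, hv1, hz2] at h1
    rw [hB, hD]
    nlinarith
  have hB0 : B = 0 := by
    have h1 := hvar (-B / (D + 1))
    have hD1 : 0 < D + 1 := by linarith
    have h2 : 2 * (-B / (D + 1)) * B + (-B / (D + 1)) ^ 2 * D
        = -(B ^ 2 * (D + 2)) / (D + 1) ^ 2 := by
      field_simp
      ring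
    rw [h2] at h1
    have h3 : 0 < (D + 1) ^ 2 := by positivity
    rw [le_div_iff₀ h3, zero_mul] at h1
    have h4 : B ^ 2 * (D + 2) ≤ 0 := by linarith
    have h5 : B ^ 2 ≤ 0 := by nlinarith [sq_nonneg B]
    exact pow_eq_zero_iff (two_ne_zero) |>.mp (le_antisymm h5 (sq_nonneg B))
  change ⟪z, q'.2⟫_ℝ = l * ⟪v, q'.1⟫_ℝ
  linarith

end Pool.Agent.U401.DD
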