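import Mathlib
import Pool.Agent.U401.DD.Stm2

set_option autoImplicit false

/-!
Project DD, package MMX (helper55): an upper bound of the eigenvalues (min-max principle).
-/

open MeasureTheory ProbabilityTheory Set Filter Topology
open scoped InnerProductSpace

namespace Pool.Agent.U401.DD

open H772R2.NSR

theorem MMX_norm_sq {H : Type} [NormedAddCommGroup H] [InnerProductSpace ℝ H] {n : ℕ}
    (a : Fin (n + 1) → H) (c : Fin (n + 1) → ℝ) (h : ∀ i j, i ≠ j → ⟪a i, a j⟫_ℝ = 0) :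
    ‖∑ i, c i • a i‖ ^ 2 = ∑ i, c i ^ 2 * ‖a i‖ ^ 2 := by
  rw [← real_inner_self_eq_norm_sq, sum_inner]
  refine Finset.sum_congr rfl fun i _ => ?_
  rw [inner_sum, Finset.sum_eq_single i]
  · rw [real_inner_smul_left, real_inner_smul_right, real_inner_self_eq_norm_sq]
    ring
  · intro j _ hj
    rw [real_inner_smul_left, real_inner_smul_right, h i j (Ne.symm hj)]
    ring
  · intro h
    exact absurd (Finset.mem_univ i) h

/-- package MMX -/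
theorem t_MMX : S_MMX := by
  intro H K _ _ _ _ _ _ W m C w g lam hF hB n R p hpW hp0 hort hR
  classical
  have e0 : ∀ n k, ⟪g n, g k⟫_ℝ = lam n * ⟪w n, w k⟫_ℝ := fun n k => hB.eig n _ (hB.mem k)
  have e1 : ∀ n, ‖g n‖ ^ 2 = lam n := by
    intro n
    have h := e0 n n
    rw [real_inner_self_eq_norm_sq, real_inner_self_eq_norm_sq, hB.orth.1 n] at h
    linarith
  have hpos : ∀ n, 0 < lam n := by
    intro n
    have h1 : ‖w n‖ ≤ C * ‖g n‖ := hF.poinc (w n, g n) (hB.mem n)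
    rw [hB.orth.1 n] at h1
    have h2 : 0 < ‖g n‖ := by
      rcases (norm_nonneg (g n)).lt_or_eq with h | h
      · exact h
      · rw [← h, mul_zero] at h1
        linarith
    rw [← e1 n]
    positivity
  have hbes : ∀ q ∈ W, ∀ s : Finset ℕ, ∑ k ∈ s, lam k * ⟪w k, q.1⟫_ℝ ^ 2 ≤ ‖q.2‖ ^ 2 := by
    intro p hp s
    have hs : ∀ n, 0 < Real.sqrt (lam n) := fun n => Real.sqrt_pos.2 (hpos n)
    have horth : Orthonormal ℝ (fun n => (Real.sqrt (lam n))⁻¹ • g n) := by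
      constructor
      · intro n
        rw [norm_smul, Real.norm_eq_abs, abs_of_pos (inv_pos.2 (hs n))]
        have h2 : ‖g n‖ = Real.sqrt (lam n) := by
          rw [← e1 n, Real.sqrt_sq (norm_nonneg _)]
        rw [h2]
        exact inv_mul_cancel₀ (hs n).ne'
      · intro n k hnk
        show ⟪(Real.sqrt (lam n))⁻¹ • g n, (Real.sqrt (lam k))⁻¹ • g k⟫_ℝ = 0
        rw [real_inner_smul_left, real_inner_smul_right, e0 n k, hB.orth.2 hnk]
        ring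
    have h := horth.sum_inner_products_le p.2 (s := s)
    refine le_trans (le_of_eq ?_) h
    refine Finset.sum_congr rfl fun n _ => ?_
    rw [real_inner_smul_left, hB.eig n p hp, Real.norm_eq_abs, sq_abs]
    have h3 : (Real.sqrt (lam n)) ^ 2 = lam n := Real.sq_sqrt (hpos n).le
    have h4 : (Real.sqrt (lam n))⁻¹ * (lam n * ⟪w n, p.1⟫_ℝ) =
        Real.sqrt (lam n) * ⟪w n, p.1⟫_ℝ := by
      have h5 : (Real.sqrt (lam n))⁻¹ * lam n = Real.sqrt (lam n) := by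
        nth_rewrite 2 [← h3]
        rw [pow_two, ← mul_assoc, inv_mul_cancel₀ (hs n).ne', one_mul]
      rw [← mul_assoc, h5]
    rw [h4, mul_pow, h3]
  obtain ⟨c, hc0, hc⟩ : ∃ c : Fin (n + 1) → ℝ, c ≠ 0 ∧
      ∀ k : Fin n, ∑ i, c i * ⟪w k, (p i).1⟫_ℝ = 0 := by
    let M : Matrix (Fin n) (Fin (n + 1)) ℝ := fun k i => ⟪w k, (p i).1⟫_ℝ
    have hk : LinearMap.ker (Matrix.mulVecLin M) ≠ ⊥ :=
      LinearMap.ker_ne_bot_of_finrank_lt (by simp)
    obtain ⟨c, hc, hc0⟩ := Submodule.exists_mem_ne_zero_of_ne_bot hk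
    refine ⟨c, hc0, fun k => ?_⟩
    have h1 := congrFun (LinearMap.mem_ker.1 hc) k
    rw [Matrix.mulVecLin_apply] at h1
    have h2 : ∑ i, M k i * c i = 0 := h1
    rw [← h2]
    exact Finset.sum_congr rfl fun i _ => mul_comm _ _
  obtain ⟨v, hv⟩ : ∃ v, v = ∑ i, c i • (p i).1 := ⟨_, rfl⟩
  obtain ⟨z, hz⟩ : ∃ z, z = ∑ i, c i • (p i).2 := ⟨_, rfl⟩
  have hW : (v, z) ∈ W := by
    have h1 : (v, z) = ∑ i, c i • p i := by
      rw [hv, hz]
      ext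
      · simp [Prod.fst_sum]
      · simp [Prod.snd_sum]
    rw [h1]
    exact W.sum_mem fun i _ => W.smul_mem _ (hpW i)
  have hvn : ‖v‖ ^ 2 = ∑ i, c i ^ 2 * ‖(p i).1‖ ^ 2 := by
    rw [hv]
    exact MMX_norm_sq (fun i => (p i).1) c fun i j hij => (hort i j hij).1
  have hzn : ‖z‖ ^ 2 = ∑ i, c i ^ 2 * ‖(p i).2‖ ^ 2 := by
    rw [hz]
    exact MMX_norm_sq (fun i => (p i).2) c fun i j hij => (hort i j hij).2
  have hzR : ‖z‖ ^ 2 ≤ R * ‖v‖ ^ 2 := by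
    rw [hzn, hvn, Finset.mul_sum]
    refine Finset.sum_le_sum fun i _ => ?_
    calc c i ^ 2 * ‖(p i).2‖ ^ 2 ≤ c i ^ 2 * (R * ‖(p i).1‖ ^ 2) :=
          mul_le_mul_of_nonneg_left (hR i) (sq_nonneg _)
      _ = R * (c i ^ 2 * ‖(p i).1‖ ^ 2) := by ring
  have hv0 : 0 < ‖v‖ ^ 2 := by
    obtain ⟨i, hi⟩ := Function.ne_iff.1 hc0
    rw [hvn]
    refine Finset.sum_pos' (fun j _ => by positivity) ⟨i, Finset.mem_univ i, ?_⟩
    have h1 : c i ≠ 0 := hi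
    have h2 : 0 < ‖(p i).1‖ := norm_pos_iff.2 (hp0 i)
    positivity
  have hwv : ∀ k, k < n → ⟪w k, v⟫_ℝ = 0 := by
    intro k hk
    rw [hv, inner_sum]
    rw [← hc ⟨k, hk⟩]
    refine Finset.sum_congr rfl fun i _ => ?_
    rw [real_inner_smul_right]
  have hlow : ∀ s : Finset ℕ, lam n * ∑ k ∈ s, ⟪w k, v⟫_ℝ ^ 2 ≤ ‖z‖ ^ 2 := by
    intro s
    refine le_trans ?_ (hbes (v, z) hW s)
    rw [Finset.mul_sum]
    refine Finset.sum_le_sum fun k _ => ?_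
    by_cases hk : k < n
    · change lam n * ⟪w k, v⟫_ℝ ^ 2 ≤ lam k * ⟪w k, v⟫_ℝ ^ 2
      rw [hwv k hk]
      simp
    · exact mul_le_mul_of_nonneg_right (hB.mono (not_lt.1 hk)) (sq_nonneg _)
  have hS : v ∈ {u : H | lam n * (‖v‖ ^ 2 - ‖v - u‖ ^ 2) ≤ ‖z‖ ^ 2} := by
    have hcl : IsClosed {u : H | lam n * (‖v‖ ^ 2 - ‖v - u‖ ^ 2) ≤ ‖z‖ ^ 2} :=
      isClosed_le (by fun_prop) continuous_const
    refine closure_minimal ?_ hcl (hB.dens (v, z) hW)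
    intro u hu
    obtain ⟨a, ha⟩ := (Finsupp.mem_span_range_iff_exists_finsupp).1 hu
    change lam n * (‖v‖ ^ 2 - ‖v - u‖ ^ 2) ≤ ‖z‖ ^ 2
    refine le_trans ?_ (hlow a.support)
    refine mul_le_mul_of_nonneg_left ?_ (hpos n).le
    have h1 : ‖v - u‖ ^ 2 = ‖v‖ ^ 2 - 2 * ⟪v, u⟫_ℝ + ‖u‖ ^ 2 := norm_sub_sq_real v u
    have h2 : ⟪v, u⟫_ℝ = ∑ k ∈ a.support, a k * ⟪w k, v⟫_ℝ := by
      rw [← ha, Finsupp.sum, inner_sum]
      refine Finset.sum_congr rfl fun k _ => ?_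
      rw [real_inner_smul_right, real_inner_comm]
    have h3 : ‖u‖ ^ 2 = ∑ k ∈ a.support, a k ^ 2 := by
      rw [← real_inner_self_eq_norm_sq, ← ha, Finsupp.sum, hB.orth.inner_sum]
      refine Finset.sum_congr rfl fun k _ => ?_
      rw [conj_trivial]
      ring
    have h4 : 0 ≤ ∑ k ∈ a.support, (a k - ⟪w k, v⟫_ℝ) ^ 2 :=
      Finset.sum_nonneg fun k _ => sq_nonneg _
    have h5 : ∑ k ∈ a.support, (a k - ⟪w k, v⟫_ℝ) ^ 2 = ∑ k ∈ a.support, a k ^ 2 -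
        2 * ∑ k ∈ a.support, a k * ⟪w k, v⟫_ℝ + ∑ k ∈ a.support, ⟪w k, v⟫_ℝ ^ 2 := by
      rw [Finset.mul_sum, ← Finset.sum_sub_distrib, ← Finset.sum_add_distrib]
      exact Finset.sum_congr rfl fun k _ => by ring
    rw [h1, h2, h3]
    linarith
  have hfin : lam n * ‖v‖ ^ 2 ≤ ‖z‖ ^ 2 := by
    have h1 : lam n * (‖v‖ ^ 2 - ‖v - v‖ ^ 2) ≤ ‖z‖ ^ 2 := hS
    rw [sub_self, norm_zero] at h1
    simpa using h1
  exact le_of_mul_le_mul_right (hfin.trans hzR) hv0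

end Pool.Agent.U401.DD
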