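import Mathlib
import Pool.Agent.U401.DD.Stm4

/-!
Project DD (helper401), package PRL2 (helper908, after PRL of helper88): almost surely a lower bound of
the frequencies.
-/

set_option autoImplicit false

open MeasureTheory ProbabilityTheory Set Filter Topology

namespace Pool.Agent.U401.DD

namespace PRL2

lemma GG_pos {lam : ℕ → ℝ} (hl : ∀ n, 0 < lam n) (j : ℕ) : 0 < GG lam j := by
  unfold GG gg
  have h1 := hl (2 * j)
  have h2 := hl (2 * j + 1)
  positivity

end PRL2

open PRL2 in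
theorem t_PRL2 : S_PRL2 := by
  intro lam K hl hK σ D hσ hD Ω _ μ _ Z hZ hdens
  have hK0 : 0 < K := by
    by_contra hcon
    push Not at hcon
    have h1 := hK 0
    have h2 : K * GG lam 0 ^ (3 / 2 : ℝ) ≤ 0 :=
      mul_nonpos_of_nonpos_of_nonneg hcon (Real.rpow_nonneg (GG_pos hl 0).le _)
    simp only [Nat.cast_zero, zero_add] at h1
    linarith
  -- the exceptional events
  set r : ℕ → ℝ := fun j => GG lam j ^ (8 - σ) with hr
  have hrpos : ∀ j, 0 < r j := fun j => Real.rpow_pos_of_pos (GG_pos hl j) _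
  obtain ⟨e, he⟩ : ∃ e : ℝ, e = 2 / 3 * (8 - σ) := ⟨_, rfl⟩
  have he1 : e < -1 := by rw [he]; linarith
  have hrle : ∀ j : ℕ, r j ≤ ((j : ℝ) + 1) ^ e / K ^ e := by
    intro j
    have h1 : r j = (GG lam j ^ (3 / 2 : ℝ)) ^ e := by
      have h4 : (3 / 2 : ℝ) * e = 8 - σ := by rw [he]; ring
      rw [hr, ← Real.rpow_mul (GG_pos hl j).le, h4]
    have h2 : ((j : ℝ) + 1) / K ≤ GG lam j ^ (3 / 2 : ℝ) := by
      rw [div_le_iff₀ hK0, mul_comm]
      exact hK j
    have h3 : (0 : ℝ) < ((j : ℝ) + 1) / K := by positivity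
    rw [h1, ← Real.div_rpow (by positivity) hK0.le]
    exact Real.rpow_le_rpow_of_nonpos h3 h2 (by linarith)
  have hsum : Summable (fun j : ℕ => D * (2 * (((j : ℝ) + 1) ^ e / K ^ e))) := by
    apply Summable.mul_left
    apply Summable.mul_left
    apply Summable.div_const
    have h1 : Summable (fun j : ℕ => ((j : ℕ) : ℝ) ^ e) :=
      Real.summable_nat_rpow.2 he1
    have h2 := (summable_nat_add_iff 1).2 h1
    refine h2.congr ?_
    intro j
    push_cast
    rfl
  have hfin : ∑' j, μ {ω | Z j ω ∈ Icc (-(r j)) (r j)} ≠ ⊤ := by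
    refine ne_top_of_le_ne_top hsum.tsum_ofReal_ne_top ?_
    refine ENNReal.tsum_le_tsum fun j => ?_
    refine (hdens j (-(r j)) (r j) (by linarith [hrpos j])).trans ?_
    apply ENNReal.ofReal_le_ofReal
    have := hrle j
    apply mul_le_mul_of_nonneg_left _ hD
    linarith
  have h1 := ae_finite_setOf_mem hfin
  have h2 : ∀ᵐ ω ∂μ, ∀ j, Z j ω ≠ 0 := by
    rw [ae_all_iff]
    intro j
    have h3 := hdens j 0 0 le_rfl
    simp only [sub_self, mul_zero, ENNReal.ofReal_zero, nonpos_iff_eq_zero, Icc_self,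
      mem_singleton_iff] at h3
    rw [ae_iff]
    simpa using h3
  filter_upwards [h1, h2] with ω hω1 hω2
  set F : Set ℕ := {i | ω ∈ {ω | Z i ω ∈ Icc (-(r i)) (r i)}} with hF
  have hpos : ∀ j, 0 < |GG lam j ^ σ * Z j ω| := by
    intro j
    rw [abs_pos]
    exact mul_ne_zero (Real.rpow_pos_of_pos (GG_pos hl j) _).ne' (hω2 j)
  set S : ℝ := ∑ j ∈ hω1.toFinset, GG lam j ^ 8 / |GG lam j ^ σ * Z j ω| with hS
  have hS0 : 0 ≤ S := Finset.sum_nonneg fun j _ =>
    div_nonneg (pow_nonneg (GG_pos hl j).le _) (abs_nonneg _)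
  refine ⟨(1 + S)⁻¹, by positivity, fun j => ?_⟩
  by_cases hj : j ∈ F
  · have h3 : GG lam j ^ 8 / |GG lam j ^ σ * Z j ω| ≤ S := by
      apply Finset.single_le_sum (f := fun j => GG lam j ^ 8 / |GG lam j ^ σ * Z j ω|)
        (fun j _ => div_nonneg (pow_nonneg (GG_pos hl j).le _) (abs_nonneg _))
      exact hω1.mem_toFinset.2 hj
    rw [div_le_iff₀ (hpos j)] at h3
    rw [inv_mul_le_iff₀ (by positivity)]
    nlinarith [hpos j]
  · have h3 : r j < |Z j ω| := by
      by_contra hcon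
      exact hj (abs_le.1 (not_lt.1 hcon))
    have h4 : GG lam j ^ 8 ≤ |GG lam j ^ σ * Z j ω| := by
      rw [abs_mul, abs_of_pos (Real.rpow_pos_of_pos (GG_pos hl j) σ)]
      have h5 : GG lam j ^ 8 = GG lam j ^ σ * r j := by
        rw [hr]
        simp only
        rw [← Real.rpow_add (GG_pos hl j), ← Real.rpow_natCast]
        congr 1
        push_cast
        ring
      rw [h5]
      exact mul_le_mul_of_nonneg_left h3.le (Real.rpow_pos_of_pos (GG_pos hl j) σ).le
    refine le_trans ?_ h4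
    have h6 : (1 + S)⁻¹ ≤ 1 := inv_le_one_of_one_le₀ (by linarith)
    have h7 : 0 ≤ GG lam j ^ 8 := pow_nonneg (GG_pos hl j).le _
    nlinarith

end Pool.Agent.U401.DD
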