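import Mathlib
import Pool.Agent.U401.DD.Stm2

set_option autoImplicit false

/-!
Project DD, second part, package PWC: finitely many averages control the norm (Poincare on a grid).
-/

open MeasureTheory Set Filter Topology
open scoped InnerProductSpace ENNReal ContDiff NNReal

namespace Pool.Agent.U401.DD.PWCaux

open H772R2.NSR H772R2.NS

theorem trans_pt {φ : E3 → E3} (hφ : ContDiff ℝ 1 φ) (w x : E3) :
    ‖φ (x + w) - φ x‖ₑ ^ 2 ≤
      ‖w‖ₑ ^ 2 * ∫⁻ t in Ioc (0:ℝ) 1, ‖fderiv ℝ φ (x + t • w)‖ₑ ^ 2 := by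
  have hd : Continuous (fderiv ℝ φ) := hφ.continuous_fderiv (by simp)
  have hc : Continuous (fun t : ℝ => fderiv ℝ φ (x + t • w) w) := by fun_prop
  have h1 : φ (x + w) - φ x = ∫ t in (0:ℝ)..1, fderiv ℝ φ (x + t • w) w := by
    have h2 : ∀ t ∈ uIcc (0:ℝ) 1, HasDerivAt (fun t : ℝ => φ (x + t • w))
        (fderiv ℝ φ (x + t • w) w) t := by
      intro t _
      have h3 : HasDerivAt (fun t : ℝ => x + t • w) w t := by
        simpa using ((hasDerivAt_id t).smul_const w).const_add x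
      exact ((hφ.differentiable (by simp)) (x + t • w)).hasFDerivAt.comp_hasDerivAt t h3
    rw [intervalIntegral.integral_eq_sub_of_hasDerivAt h2 (hc.intervalIntegrable _ _)]
    simp
  rw [h1, intervalIntegral.integral_of_le (by norm_num)]
  have h4 : ‖∫ t in Ioc (0:ℝ) 1, fderiv ℝ φ (x + t • w) w‖ₑ ≤
      ‖w‖ₑ * ∫⁻ t in Ioc (0:ℝ) 1, ‖fderiv ℝ φ (x + t • w)‖ₑ := by
    refine (enorm_integral_le_lintegral_enorm _).trans ?_
    rw [← lintegral_const_mul _ (by fun_prop)]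
    gcongr with t
    rw [mul_comm]
    exact ContinuousLinearMap.le_opENorm _ _
  have : IsProbabilityMeasure (volume.restrict (Ioc (0:ℝ) 1)) := by
    constructor
    simp
  calc _ ≤ (‖w‖ₑ * ∫⁻ t in Ioc (0:ℝ) 1, ‖fderiv ℝ φ (x + t • w)‖ₑ) ^ 2 := by gcongr
    _ = ‖w‖ₑ ^ 2 * (∫⁻ t in Ioc (0:ℝ) 1, ‖fderiv ℝ φ (x + t • w)‖ₑ) ^ 2 := by rw [mul_pow]
    _ ≤ _ := by
      gcongr
      exact Pool.Agent.Helper793.Sob.lintegral_sq_le (by fun_prop)

theorem trans_int {φ : E3 → E3} (hφ : ContDiff ℝ 1 φ) (w : E3) :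
    ∫⁻ x, ‖φ (x + w) - φ x‖ₑ ^ 2 ≤ ‖w‖ₑ ^ 2 * ∫⁻ x, ‖fderiv ℝ φ x‖ₑ ^ 2 := by
  have hd : Continuous (fderiv ℝ φ) := hφ.continuous_fderiv (by simp)
  calc ∫⁻ x, ‖φ (x + w) - φ x‖ₑ ^ 2
      ≤ ∫⁻ x, ‖w‖ₑ ^ 2 * ∫⁻ t in Ioc (0:ℝ) 1, ‖fderiv ℝ φ (x + t • w)‖ₑ ^ 2 := by
        gcongr with x
        exact trans_pt hφ w x
    _ = ‖w‖ₑ ^ 2 * ∫⁻ x, ∫⁻ t in Ioc (0:ℝ) 1, ‖fderiv ℝ φ (x + t • w)‖ₑ ^ 2 := by
        rw [lintegral_const_mul]
        exact Measurable.lintegral_prod_right' (f := fun p : E3 × ℝ =>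
          ‖fderiv ℝ φ (p.1 + p.2 • w)‖ₑ ^ 2) (by fun_prop)
    _ = ‖w‖ₑ ^ 2 * ∫⁻ t in Ioc (0:ℝ) 1, ∫⁻ x, ‖fderiv ℝ φ (x + t • w)‖ₑ ^ 2 := by
        rw [lintegral_lintegral_swap]
        exact Continuous.aemeasurable (by fun_prop)
    _ = ‖w‖ₑ ^ 2 * ∫⁻ t in Ioc (0:ℝ) 1, ∫⁻ x, ‖fderiv ℝ φ x‖ₑ ^ 2 := by
        congr 1
        apply lintegral_congr
        intro t
        exact lintegral_add_right_eq_self (fun x => ‖fderiv ℝ φ x‖ₑ ^ 2) (t • w)
    _ = _ := by simp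

/-- the half-open cube -/
def cub (h : ℝ) (k : Fin 3 → ℤ) : Set E3 := {x | ∀ i, x i ∈ Ico (h * k i) (h * k i + h)}

theorem cub_meas (h : ℝ) (k : Fin 3 → ℤ) : MeasurableSet (cub h k) := by
  unfold cub
  rw [Set.ofPred_forall]
  refine MeasurableSet.iInter (fun i => ?_)
  have hm : Measurable (fun x : E3 => x i) := by fun_prop
  exact hm measurableSet_Ico

theorem cub_vol (h : ℝ) (k : Fin 3 → ℤ) : volume (cub h k) = ENNReal.ofReal h ^ 3 := by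
  have h1 : cub h k = (WithLp.ofLp : E3 → (Fin 3 → ℝ)) ⁻¹'
      (Set.pi univ fun i => Ico (h * k i) (h * k i + h)) := by
    ext x
    simp [cub, Set.mem_pi]
  have hm : MeasurableSet (Set.pi univ fun i : Fin 3 => Ico (h * k i) (h * k i + h)) :=
    MeasurableSet.univ_pi (fun i => measurableSet_Ico)
  rw [h1, (PiLp.volume_preserving_ofLp (Fin 3)).measure_preimage hm.nullMeasurableSet,
    Real.volume_pi_Ico]
  simp

theorem cub_disj {h : ℝ} (hh : 0 < h) {k l : Fin 3 → ℤ} (hkl : k ≠ l) :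
    Disjoint (cub h k) (cub h l) := by
  rw [Set.disjoint_left]
  intro x hx hy
  apply hkl
  funext i
  have a := hx i
  have b := hy i
  rw [mem_Ico] at a b
  have h1 : (k i : ℝ) < l i + 1 := by
    have : h * k i < h * (l i + 1) := by linarith [a.1, b.2]
    exact lt_of_mul_lt_mul_left this hh.le
  have h2 : (l i : ℝ) < k i + 1 := by
    have : h * l i < h * (k i + 1) := by linarith [b.1, a.2]
    exact lt_of_mul_lt_mul_left this hh.le
  have h3 : k i < l i + 1 := by exact_mod_cast h1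
  have h4 : l i < k i + 1 := by exact_mod_cast h2
  omega

theorem cub_diff {h : ℝ} (hh : 0 < h) {k : Fin 3 → ℤ} {x y : E3} (hx : x ∈ cub h k)
    (hy : y ∈ cub h k) : ‖y - x‖ ≤ 2 * h := by
  have h1 : ‖y - x‖ ^ 2 ≤ (2 * h) ^ 2 := by
    rw [norm_sq_E3]
    have h2 : ∀ i, (y - x) i ^ 2 ≤ h ^ 2 := by
      intro i
      have a := hx i
      have b := hy i
      rw [mem_Ico] at a b
      rw [PiLp.sub_apply]
      apply sq_le_sq'
      · linarith [a.2, b.1]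
      · linarith [a.1, b.2]
    rw [Fin.sum_univ_three]
    nlinarith [h2 0, h2 1, h2 2]
  exact (pow_le_pow_iff_left₀ (norm_nonneg _) (by positivity) (by norm_num)).mp h1

theorem mem_cub {h : ℝ} (hh : 0 < h) (x : E3) : x ∈ cub h (fun i => ⌊x i / h⌋) := by
  intro i
  rw [mem_Ico]
  have h1 := Int.floor_le (x i / h)
  have h2 := Int.lt_floor_add_one (x i / h)
  constructor
  · rw [mul_comm]
    exact (le_div_iff₀ hh).mp h1
  · have := (div_lt_iff₀ hh).mp h2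
    linarith

/-- the sum over the cubes of the double integrals -/
theorem sum_dbl {φ : E3 → E3} (hφ : ContDiff ℝ 1 φ) {h : ℝ} (hh : 0 < h)
    (K : Finset (Fin 3 → ℤ)) :
    ∑ k ∈ K, ∫⁻ x in cub h k, ∫⁻ y in cub h k, ‖φ y - φ x‖ₑ ^ 2 ≤
      volume (Metric.closedBall (0 : E3) (2 * h)) * (ENNReal.ofReal (2 * h) ^ 2 *
        ∫⁻ x, ‖fderiv ℝ φ x‖ₑ ^ 2) := by
  have hcont : Continuous φ := hφ.continuous
  set Z : Set E3 := Metric.closedBall (0 : E3) (2 * h) with hZ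
  have hZm : MeasurableSet Z := Metric.isClosed_closedBall.measurableSet
  have h1 : ∀ k, ∫⁻ x in cub h k, ∫⁻ y in cub h k, ‖φ y - φ x‖ₑ ^ 2 ≤
      ∫⁻ x in cub h k, ∫⁻ z in Z, ‖φ (x + z) - φ x‖ₑ ^ 2 := by
    intro k
    refine setLIntegral_mono' (cub_meas h k) (fun x hx => ?_)
    rw [← lintegral_indicator (cub_meas h k), ← lintegral_indicator hZm,
      ← lintegral_add_left_eq_self _ x]
    refine lintegral_mono (fun z => ?_)
    by_cases hz : x + z ∈ cub h k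
    · have hzZ : z ∈ Z := by
        rw [hZ, mem_closedBall_zero_iff]
        have := cub_diff hh hx hz
        rwa [add_sub_cancel_left] at this
      simp only [indicator_of_mem hz, indicator_of_mem hzZ, le_refl]
    · simp only [indicator_of_notMem hz, zero_le]
  have hmeas : Measurable (fun x : E3 => ∫⁻ z in Z, ‖φ (x + z) - φ x‖ₑ ^ 2) :=
    Measurable.lintegral_prod_right' (f := fun p : E3 × E3 => ‖φ (p.1 + p.2) - φ p.1‖ₑ ^ 2)
      (by fun_prop)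
  calc ∑ k ∈ K, ∫⁻ x in cub h k, ∫⁻ y in cub h k, ‖φ y - φ x‖ₑ ^ 2
      ≤ ∑ k ∈ K, ∫⁻ x in cub h k, ∫⁻ z in Z, ‖φ (x + z) - φ x‖ₑ ^ 2 :=
        Finset.sum_le_sum (fun k _ => h1 k)
    _ = ∫⁻ x in ⋃ k ∈ K, cub h k, ∫⁻ z in Z, ‖φ (x + z) - φ x‖ₑ ^ 2 := by
        rw [lintegral_biUnion_finset]
        · intro k _ l _ hkl
          exact cub_disj hh hkl
        · intro k _
          exact cub_meas h k
    _ ≤ ∫⁻ x, ∫⁻ z in Z, ‖φ (x + z) - φ x‖ₑ ^ 2 := setLIntegral_le_lintegral _ _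
    _ = ∫⁻ z in Z, ∫⁻ x, ‖φ (x + z) - φ x‖ₑ ^ 2 := by
        rw [lintegral_lintegral_swap]
        exact Continuous.aemeasurable (by fun_prop)
    _ ≤ ∫⁻ z in Z, ENNReal.ofReal (2 * h) ^ 2 * ∫⁻ x, ‖fderiv ℝ φ x‖ₑ ^ 2 := by
        refine setLIntegral_mono' hZm (fun z hz => ?_)
        refine (trans_int hφ z).trans ?_
        gcongr
        rw [← ofReal_norm]
        refine ENNReal.ofReal_le_ofReal ?_
        rwa [hZ, mem_closedBall_zero_iff] at hz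
    _ = _ := by
        rw [setLIntegral_const, mul_comm]

/-- variance identity -/
theorem var_eq {ν : Measure E3} [IsFiniteMeasure ν] {φ : E3 → E3} (h1 : Integrable φ ν)
    (h2 : Integrable (fun x => ‖φ x‖ ^ 2) ν) :
    0 ≤ 2 * (ν.real univ * ∫ x, ‖φ x‖ ^ 2 ∂ν) - 2 * ‖∫ x, φ x ∂ν‖ ^ 2 ∧
    ∫⁻ x, ∫⁻ y, ‖φ y - φ x‖ₑ ^ 2 ∂ν ∂ν =
      ENNReal.ofReal (2 * (ν.real univ * ∫ x, ‖φ x‖ ^ 2 ∂ν) - 2 * ‖∫ x, φ x ∂ν‖ ^ 2) := by
  have e1 : ∀ x y : E3, ‖φ y - φ x‖ ^ 2 = ‖φ y‖ ^ 2 - 2 * ⟪φ y, φ x⟫_ℝ + ‖φ x‖ ^ 2 := by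
    intro x y
    rw [@norm_sub_sq_real]
  have i1 : ∀ x : E3, Integrable (fun y => ‖φ y - φ x‖ ^ 2) ν := by
    intro x
    simp only [e1]
    exact (h2.sub ((h1.inner_const (φ x)).const_mul 2)).add (integrable_const _)
  have e2 : ∀ x : E3, ∫ y, ‖φ y - φ x‖ ^ 2 ∂ν =
      (∫ y, ‖φ y‖ ^ 2 ∂ν) - 2 * ⟪∫ y, φ y ∂ν, φ x⟫_ℝ + ν.real univ * ‖φ x‖ ^ 2 := by
    intro x
    simp only [e1]
    have a2 : Integrable (fun y => 2 * ⟪φ y, φ x⟫_ℝ) ν := (h1.inner_const (φ x)).const_mul 2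
    have a1 : Integrable (fun y => ‖φ y‖ ^ 2 - 2 * ⟪φ y, φ x⟫_ℝ) ν := h2.sub a2
    have a3 : ∫ y, ⟪φ y, φ x⟫_ℝ ∂ν = ⟪∫ y, φ y ∂ν, φ x⟫_ℝ := by
      rw [real_inner_comm, ← integral_inner h1 (φ x)]
      exact integral_congr_ae (Eventually.of_forall (fun y => real_inner_comm _ _))
    rw [integral_add a1 (integrable_const _), integral_sub h2 a2, integral_const_mul,
      integral_const, smul_eq_mul, a3]
  have i2 : Integrable (fun x => ∫ y, ‖φ y - φ x‖ ^ 2 ∂ν) ν := by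
    simp only [e2]
    exact ((integrable_const _).sub ((h1.const_inner _).const_mul 2)).add (h2.const_mul _)
  have e3 : ∫ x, ∫ y, ‖φ y - φ x‖ ^ 2 ∂ν ∂ν =
      2 * (ν.real univ * ∫ x, ‖φ x‖ ^ 2 ∂ν) - 2 * ‖∫ x, φ x ∂ν‖ ^ 2 := by
    simp only [e2]
    have a2 : Integrable (fun x => 2 * ⟪∫ y, φ y ∂ν, φ x⟫_ℝ) ν :=
      (h1.const_inner _).const_mul 2
    have a1 : Integrable (fun x => (∫ y, ‖φ y‖ ^ 2 ∂ν) - 2 * ⟪∫ y, φ y ∂ν, φ x⟫_ℝ) ν :=
      (integrable_const _).sub a2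
    rw [integral_add a1 (h2.const_mul _), integral_sub (integrable_const _) a2,
      integral_const_mul, integral_const_mul, integral_const, integral_inner h1,
      real_inner_self_eq_norm_sq, smul_eq_mul]
    ring
  refine ⟨?_, ?_⟩
  · rw [← e3]
    exact integral_nonneg (fun x => integral_nonneg (fun y => by positivity))
  · rw [← e3, ofReal_integral_eq_lintegral_ofReal i2
      (Eventually.of_forall (fun x => integral_nonneg (fun y => by positivity)))]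
    refine lintegral_congr (fun x => ?_)
    rw [ofReal_integral_eq_lintegral_ofReal (i1 x)
      (Eventually.of_forall (fun y => by positivity))]
    refine lintegral_congr (fun y => ?_)
    rw [ENNReal.ofReal_pow (norm_nonneg _), ofReal_norm]

theorem cub_fin (h : ℝ) (k : Fin 3 → ℤ) : volume (cub h k) ≠ ⊤ := by
  rw [cub_vol]
  exact ENNReal.pow_ne_top ENNReal.ofReal_ne_top

/-- the main inequality for test fields -/
theorem main_test {Ω : Set E3} {φ : E3 → E3} (hφ : IsTest Ω φ)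
    {h : ℝ} (hh : 0 < h) (K : Finset (Fin 3 → ℤ)) (D : ℝ) (hD : 0 ≤ D)
    (hDe : ∫⁻ x, ‖fderiv ℝ φ x‖ₑ ^ 2 ≤ ENNReal.ofReal D) :
    h ^ 3 * ∑ k ∈ K, ∫ x in cub h k, ‖φ x‖ ^ 2 ≤
      ∑ k ∈ K, ‖∫ x in cub h k, φ x‖ ^ 2 + 68 * h ^ 5 * D := by
  have hc : Continuous φ := hφ.smooth.continuous
  have i1 : Integrable φ (volume : Measure E3) := hc.integrable_of_hasCompactSupport hφ.compact
  have i2 : Integrable (fun x => ‖φ x‖ ^ 2) (volume : Measure E3) := by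
    have hcs : HasCompactSupport (fun x => ‖φ x‖ ^ 2) := by
      refine hφ.compact.comp_left (g := fun v : E3 => ‖v‖ ^ 2) ?_
      simp
    exact Continuous.integrable_of_hasCompactSupport (by fun_prop) hcs
  have hfin : ∀ k, IsFiniteMeasure (volume.restrict (cub h k)) := fun k =>
    ⟨by rw [Measure.restrict_apply_univ]; exact (cub_fin h k).lt_top⟩
  have hreal : ∀ k, (volume.restrict (cub h k)).real univ = h ^ 3 := by
    intro k
    rw [measureReal_def, Measure.restrict_apply_univ, cub_vol, ENNReal.toReal_pow,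
      ENNReal.toReal_ofReal hh.le]
  have hv : ∀ k, 0 ≤ 2 * (h ^ 3 * ∫ x in cub h k, ‖φ x‖ ^ 2) - 2 * ‖∫ x in cub h k, φ x‖ ^ 2 ∧
      ∫⁻ x in cub h k, ∫⁻ y in cub h k, ‖φ y - φ x‖ₑ ^ 2 = ENNReal.ofReal
        (2 * (h ^ 3 * ∫ x in cub h k, ‖φ x‖ ^ 2) - 2 * ‖∫ x in cub h k, φ x‖ ^ 2) := by
    intro k
    have := hfin k
    have h3 := var_eq (ν := volume.restrict (cub h k)) (φ := φ) i1.restrict i2.restrict
    rw [hreal k] at h3
    exact h3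
  have hs := sum_dbl (hφ.smooth.of_le (by simp)) hh K (φ := φ)
  have e1 : ∑ k ∈ K, ∫⁻ x in cub h k, ∫⁻ y in cub h k, ‖φ y - φ x‖ₑ ^ 2 = ENNReal.ofReal
      (∑ k ∈ K, (2 * (h ^ 3 * ∫ x in cub h k, ‖φ x‖ ^ 2) - 2 * ‖∫ x in cub h k, φ x‖ ^ 2)) := by
    rw [ENNReal.ofReal_sum_of_nonneg (fun k _ => (hv k).1)]
    exact Finset.sum_congr rfl (fun k _ => (hv k).2)
  rw [e1] at hs
  have e2 : volume (Metric.closedBall (0 : E3) (2 * h)) * (ENNReal.ofReal (2 * h) ^ 2 *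
      ∫⁻ x, ‖fderiv ℝ φ x‖ₑ ^ 2) ≤
      ENNReal.ofReal ((2 * h) ^ 3 * (Real.pi * 4 / 3) * ((2 * h) ^ 2 * D)) := by
    have e3 : ENNReal.ofReal ((2 * h) ^ 3 * (Real.pi * 4 / 3) * ((2 * h) ^ 2 * D)) =
        ENNReal.ofReal (2 * h) ^ 3 * ENNReal.ofReal (Real.pi * 4 / 3) *
          (ENNReal.ofReal (2 * h) ^ 2 * ENNReal.ofReal D) := by
      rw [ENNReal.ofReal_mul (p := (2 * h) ^ 3 * (Real.pi * 4 / 3)) (by positivity),
        ENNReal.ofReal_mul (p := (2 * h) ^ 3) (by positivity),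
        ENNReal.ofReal_mul (p := (2 * h) ^ 2) (by positivity),
        ENNReal.ofReal_pow (by positivity), ENNReal.ofReal_pow (by positivity)]
    rw [EuclideanSpace.volume_closedBall_fin_three, e3]
    gcongr
  have h5 := (ENNReal.ofReal_le_ofReal_iff (by positivity)).mp (hs.trans e2)
  rw [Finset.sum_sub_distrib, ← Finset.mul_sum, ← Finset.mul_sum, ← Finset.mul_sum] at h5
  have hpi : Real.pi * 4 / 3 ≤ 17 / 4 := by
    have := Real.pi_lt_d2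
    linarith
  have h6 : (2 * h) ^ 3 * (Real.pi * 4 / 3) * ((2 * h) ^ 2 * D) ≤ 136 * h ^ 5 * D := by
    calc (2 * h) ^ 3 * (Real.pi * 4 / 3) * ((2 * h) ^ 2 * D)
        ≤ (2 * h) ^ 3 * (17 / 4) * ((2 * h) ^ 2 * D) := by gcongr
      _ = 136 * h ^ 5 * D := by ring
  linarith

/-- the functional of a cube and a direction -/
noncomputable def EE (Ω : Set E3) (h : ℝ) (k : Fin 3 → ℤ) (i : Fin 3) : L2V Ω :=
  indicatorConstLp 2 (cub_meas h k)
    (ne_top_of_le_ne_top (cub_fin h k) (Measure.restrict_apply_le _ _)) (ev i)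

theorem sum_inner {Ω : Set E3} {φ : E3 → E3} (hφ : IsTest Ω φ) {v : L2V Ω}
    (hv : v =ᵐ[volume.restrict Ω] φ) (h : ℝ) (k : Fin 3 → ℤ) :
    ∑ i, ⟪EE Ω h k i, v⟫_ℝ ^ 2 = ‖∫ x in cub h k, φ x‖ ^ 2 := by
  have e1 : ∫ x in cub h k, v x ∂(volume.restrict Ω) = ∫ x in cub h k, φ x := by
    have e2 : ∫ x in cub h k, v x ∂(volume.restrict Ω) =
        ∫ x in cub h k, φ x ∂(volume.restrict Ω) :=
      integral_congr_ae (ae_restrict_of_ae hv)
    rw [e2, Measure.restrict_restrict (cub_meas h k)]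
    refine (setIntegral_eq_of_subset_of_forall_sdiff_eq_zero (cub_meas h k) inter_subset_left
      (fun x hx => ?_)).symm
    apply image_eq_zero_of_notMem_tsupport
    intro hx2
    exact hx.2 ⟨hx.1, hφ.supp hx2⟩
  rw [norm_sq_E3]
  refine Finset.sum_congr rfl (fun i _ => ?_)
  unfold EE
  rw [L2.inner_indicatorConstLp_eq_inner_setIntegral ℝ, e1, EuclideanSpace.inner_single_left]
  simp

theorem norm_sq_L2 {Ω : Set E3} (v : L2V Ω) : ‖v‖ ^ 2 = ∫ x in Ω, ‖v x‖ ^ 2 := by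
  rw [← real_inner_self_eq_norm_sq, L2.inner_def]
  refine integral_congr_ae (Eventually.of_forall (fun x => ?_))
  simp only [real_inner_self_eq_norm_sq]

/-- the inequality for test pairs -/
theorem main_pre {Ω : Set E3} (hΩ : MeasurableSet Ω) {h : ℝ} (hh : 0 < h)
    (K : Finset (Fin 3 → ℤ)) (hK : Ω ⊆ ⋃ k ∈ K, cub h k) {p : L2V Ω × L2M Ω}
    (hp : p ∈ preW Ω) :
    h ^ 3 * ‖p.1‖ ^ 2 ≤ ∑ k ∈ K, ∑ i, ⟪EE Ω h k i, p.1⟫_ℝ ^ 2 + 68 * h ^ 5 * ‖p.2‖ ^ 2 := by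
  obtain ⟨φ, h1, h2, h3⟩ := hp
  have i2 : Integrable (fun x => ‖φ x‖ ^ 2) (volume : Measure E3) := by
    have hcs : HasCompactSupport (fun x => ‖φ x‖ ^ 2) := by
      refine h1.compact.comp_left (g := fun v : E3 => ‖v‖ ^ 2) ?_
      simp
    have hc : Continuous φ := h1.smooth.continuous
    exact Continuous.integrable_of_hasCompactSupport (by fun_prop) hcs
  have hn : ‖p.1‖ ^ 2 = ∑ k ∈ K, ∫ x in cub h k, ‖φ x‖ ^ 2 := by
    rw [norm_sq_L2]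
    have e1 : ∫ x in Ω, ‖p.1 x‖ ^ 2 = ∫ x in Ω, ‖φ x‖ ^ 2 := by
      refine integral_congr_ae ?_
      filter_upwards [h2] with x hx
      rw [hx]
    rw [e1, ← integral_biUnion_finset K (fun k _ => cub_meas h k)
      (fun k _ l _ hkl => cub_disj hh hkl) (fun k _ => i2.integrableOn)]
    refine (setIntegral_eq_of_subset_of_forall_sdiff_eq_zero ?_ hK (fun x hx => ?_)).symm
    · exact Finset.measurableSet_biUnion K (fun k _ => cub_meas h k)
    · have h0 : φ x = 0 := by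
        apply image_eq_zero_of_notMem_tsupport
        intro hx2
        exact hx.2 (h1.supp hx2)
      simp [h0]
  have hD : ∫⁻ x, ‖fderiv ℝ φ x‖ₑ ^ 2 ≤ ENNReal.ofReal (‖p.2‖ ^ 2) := by
    have e2 : ENNReal.ofReal (‖p.2‖ ^ 2) = ∫⁻ x, ‖jac φ x‖ₑ ^ 2 := by
      rw [ENNReal.ofReal_pow (norm_nonneg _), ofReal_norm, Lp.enorm_def, eLpNorm_congr_ae h3,
        h1.eLpNorm_jac_restrict hΩ, Pool.Agent.Helper793.Sob.eLpNorm_two_sq]
    rw [e2]
    refine lintegral_mono (fun x => ?_)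
    have := norm_fderiv_le_jac (φ := φ) x
    gcongr
    rw [← ofReal_norm, ← ofReal_norm]
    exact ENNReal.ofReal_le_ofReal this
  have h5 := main_test h1 hh K (‖p.2‖ ^ 2) (by positivity) hD
  rw [hn]
  refine h5.trans (le_of_eq ?_)
  congr 1
  refine Finset.sum_congr rfl (fun k _ => ?_)
  exact (sum_inner h1 h2 h k).symm

theorem main_graph {Ω : Set E3} (hΩ : MeasurableSet Ω) {h : ℝ} (hh : 0 < h)
    (K : Finset (Fin 3 → ℤ)) (hK : Ω ⊆ ⋃ k ∈ K, cub h k) {p : L2V Ω × L2M Ω}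
    (hp : p ∈ graphW Ω) :
    h ^ 3 * ‖p.1‖ ^ 2 ≤ ∑ k ∈ K, ∑ i, ⟪EE Ω h k i, p.1⟫_ℝ ^ 2 + 68 * h ^ 5 * ‖p.2‖ ^ 2 := by
  have hcl : IsClosed {p : L2V Ω × L2M Ω | h ^ 3 * ‖p.1‖ ^ 2 ≤
      ∑ k ∈ K, ∑ i, ⟪EE Ω h k i, p.1⟫_ℝ ^ 2 + 68 * h ^ 5 * ‖p.2‖ ^ 2} :=
    isClosed_le (by fun_prop) (by fun_prop)
  have hp' : p ∈ closure (preW Ω : Set (L2V Ω × L2M Ω)) := by
    have := hp
    unfold graphW at this
    rwa [← SetLike.mem_coe, Submodule.topologicalClosure_coe] at this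
  exact closure_minimal (fun q hq => main_pre hΩ hh K hK hq) hcl hp'

theorem cover {Ω : Set E3} {L h : ℝ} (hh : 0 < h) (hL : ∀ x ∈ Ω, ‖x‖ ≤ L) (N : ℕ)
    (hN : L / h ≤ N) :
    Ω ⊆ ⋃ k ∈ Fintype.piFinset (fun _ : Fin 3 => Finset.Icc (-(N : ℤ)) N), cub h k := by
  intro x hx
  rw [mem_iUnion₂]
  refine ⟨fun i => ⌊x i / h⌋, ?_, mem_cub hh x⟩
  rw [Fintype.mem_piFinset]
  intro i
  rw [Finset.mem_Icc]
  have h1 : |x i| ≤ L := by
    have := PiLp.norm_apply_le x i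
    rw [Real.norm_eq_abs] at this
    exact this.trans (hL x hx)
  have h2 : x i / h ≤ N := (div_le_div_of_nonneg_right (abs_le.mp h1).2 hh.le).trans hN
  have h3 : -(N : ℝ) ≤ x i / h := by
    have := div_le_div_of_nonneg_right (abs_le.mp h1).1 hh.le
    rw [neg_div] at this
    linarith
  constructor
  · rw [Int.le_floor]
    push_cast
    exact h3
  · have h4 := (Int.floor_le (x i / h)).trans h2
    change ⌊x i / h⌋ ≤ (N : ℤ)
    have h5 : ((⌊x i / h⌋ : ℤ) : ℝ) ≤ (((N : ℤ)) : ℝ) := by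
      rw [Int.cast_natCast]
      exact h4
    exact Int.cast_le.mp h5

end Pool.Agent.U401.DD.PWCaux

namespace Pool.Agent.U401.DD

open PWCaux H772R2.NSR H772R2.NS

theorem t_PWC : S_PWC := by
  intro Ω hΩ hb
  obtain ⟨L0, hL0⟩ := hb.exists_norm_le
  set L : ℝ := max L0 0 with hLdef
  have hL : ∀ x ∈ Ω, ‖x‖ ≤ L := fun x hx => (hL0 x hx).trans (le_max_left _ _)
  have hLn : 0 ≤ L := le_max_right _ _
  refine ⟨3 * (2 * L + 3) ^ 3 + 9, by positivity, fun h hh hh1 => ?_⟩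
  set N : ℕ := ⌈L / h⌉₊ with hN
  set K : Finset (Fin 3 → ℤ) :=
    Fintype.piFinset (fun _ : Fin 3 => Finset.Icc (-(N : ℤ)) N) with hK
  have hKc : K.card = (2 * N + 1) ^ 3 := by
    rw [hK, Fintype.card_piFinset]
    simp only [Int.card_Icc, Finset.prod_const, Finset.card_univ, Fintype.card_fin]
    congr 1
    omega
  have hcov : Ω ⊆ ⋃ k ∈ K, cub h k := cover hh hL N (Nat.le_ceil _)
  refine ⟨Fintype.card (K × Fin 3),
    fun j => EE Ω h ((Fintype.equivFin (K × Fin 3)).symm j).1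
      ((Fintype.equivFin (K × Fin 3)).symm j).2, ?_, ?_⟩
  · rw [Fintype.card_prod, Fintype.card_coe, Fintype.card_fin, hKc]
    push_cast
    have h1 : (N : ℝ) ≤ L / h + 1 := (Nat.ceil_lt_add_one (by positivity)).le
    have h2 : 2 * (N : ℝ) + 1 ≤ (2 * L + 3) * h⁻¹ := by
      have h3 : 1 ≤ h⁻¹ := (one_le_inv₀ hh).mpr hh1
      rw [div_eq_mul_inv] at h1
      nlinarith
    have h4 : (2 * (N : ℝ) + 1) ^ 3 ≤ ((2 * L + 3) * h⁻¹) ^ 3 := by gcongr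
    have h5 : ((2 * L + 3) * h⁻¹) ^ 3 = (2 * L + 3) ^ 3 * (h ^ 3)⁻¹ := by
      rw [mul_pow, inv_pow]
    have h6 : 0 < (h ^ 3)⁻¹ := by positivity
    nlinarith
  · intro p hp h0
    have h1 := main_graph hΩ.measurableSet hh K hcov hp
    have h2 : ∑ k ∈ K, ∑ i, ⟪EE Ω h k i, p.1⟫_ℝ ^ 2 = 0 := by
      refine Finset.sum_eq_zero (fun k hk => Finset.sum_eq_zero (fun i _ => ?_))
      have h3 := h0 (Fintype.equivFin (K × Fin 3) (⟨k, hk⟩, i))
      simp only [Equiv.symm_apply_apply] at h3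
      rw [h3]
      norm_num
    rw [h2, zero_add] at h1
    have h4 : ‖p.1‖ ^ 2 ≤ (9 * h * ‖p.2‖) ^ 2 := by
      have h5 : h ^ 3 * ‖p.1‖ ^ 2 ≤ h ^ 3 * (9 * h * ‖p.2‖) ^ 2 := by
        have h7 : 0 ≤ h ^ 5 * ‖p.2‖ ^ 2 := by positivity
        calc _ ≤ 68 * h ^ 5 * ‖p.2‖ ^ 2 := h1
          _ ≤ 81 * (h ^ 5 * ‖p.2‖ ^ 2) := by linarith
          _ = _ := by ring
      exact le_of_mul_le_mul_left h5 (by positivity)
    have h6 : ‖p.1‖ ≤ 9 * h * ‖p.2‖ :=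
      (pow_le_pow_iff_left₀ (norm_nonneg _) (by positivity) (by norm_num)).mp h4
    refine h6.trans ?_
    gcongr
    have : 0 ≤ 3 * (2 * L + 3) ^ 3 := by positivity
    linarith

end Pool.Agent.U401.DD
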