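import Mathlib
import Pool.Agent.U401.DD.Stm

/-! Project DD, package QUA (helper416): the tensor square on the concrete space is a quadratic map. -/

set_option autoImplicit false

open MeasureTheory Set Filter Topology
open scoped InnerProductSpace

namespace Pool.Agent.U401.DD

open H772R2.NS H772R2.NSR

theorem qua_bil {Ω : Set E3} (hΩ : MeasurableSet Ω) (s t : ℝ) {p q : L2V Ω × L2M Ω}
    (hp : p ∈ graphW Ω) (hq : q ∈ graphW Ω) :
    tensL (s • p.1 + t • q.1) = s ^ 2 • tensL p.1 + t ^ 2 • tensL q.1 +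
      (s * t) • (tensL (p.1 + q.1) - tensL p.1 - tensL q.1) := by
  have h1 := tensL_coe hΩ ((graphW Ω).add_mem ((graphW Ω).smul_mem s hp) ((graphW Ω).smul_mem t hq))
  have h2 := tensL_coe hΩ ((graphW Ω).add_mem hp hq)
  have h3 := tensL_coe hΩ hp
  have h4 := tensL_coe hΩ hq
  apply Lp.ext
  have k1 := Lp.coeFn_add (s ^ 2 • tensL p.1 + t ^ 2 • tensL q.1)
    ((s * t) • (tensL (p.1 + q.1) - tensL p.1 - tensL q.1))
  have k2 := Lp.coeFn_add (s ^ 2 • tensL p.1) (t ^ 2 • tensL q.1)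
  have k3 := Lp.coeFn_smul (s ^ 2) (tensL p.1)
  have k4 := Lp.coeFn_smul (t ^ 2) (tensL q.1)
  have k5 := Lp.coeFn_smul (s * t) (tensL (p.1 + q.1) - tensL p.1 - tensL q.1)
  have k6 := Lp.coeFn_sub (tensL (p.1 + q.1) - tensL p.1) (tensL q.1)
  have k7 := Lp.coeFn_sub (tensL (p.1 + q.1)) (tensL p.1)
  have k8 := Lp.coeFn_add (s • p.1) (t • q.1)
  have k9 := Lp.coeFn_smul s p.1
  have k10 := Lp.coeFn_smul t q.1
  have k11 := Lp.coeFn_add p.1 q.1
  filter_upwards [h1, h2, h3, h4, k1, k2, k3, k4, k5, k6, k7, k8, k9, k10, k11] with x a1 a2 a3 a4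
    b1 b2 b3 b4 b5 b6 b7 b8 b9 b10 b11
  have a1' : (tensL (s • p.1 + t • q.1)) x = tens ((s • p.1 + t • q.1) x) := a1
  have a2' : (tensL (p.1 + q.1)) x = tens ((p.1 + q.1) x) := a2
  rw [b1]
  simp only [Pi.add_apply]
  rw [b2, b5]
  simp only [Pi.add_apply, Pi.smul_apply]
  rw [b3, b4, b6]
  simp only [Pi.sub_apply, Pi.smul_apply]
  rw [b7]
  simp only [Pi.sub_apply]
  rw [a3, a4, a1', a2', b8, b11]
  simp only [Pi.add_apply]
  rw [b9, b10]
  ext r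
  simp only [PiLp.add_apply, PiLp.smul_apply, tens_apply, Pi.add_apply, Pi.smul_apply,
    PiLp.sub_apply, smul_eq_mul]
  ring

theorem qua_add {Ω : Set E3} (hΩ : MeasurableSet Ω) {p q r : L2V Ω × L2M Ω}
    (hp : p ∈ graphW Ω) (hq : q ∈ graphW Ω) (hr : r ∈ graphW Ω) :
    tensL (p.1 + q.1 + r.1) = tensL (p.1 + q.1) + tensL (q.1 + r.1) + tensL (p.1 + r.1) -
      tensL p.1 - tensL q.1 - tensL r.1 := by
  have h1 := tensL_coe hΩ ((graphW Ω).add_mem ((graphW Ω).add_mem hp hq) hr)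
  have h2 := tensL_coe hΩ ((graphW Ω).add_mem hp hq)
  have h3 := tensL_coe hΩ ((graphW Ω).add_mem hq hr)
  have h4 := tensL_coe hΩ ((graphW Ω).add_mem hp hr)
  have h5 := tensL_coe hΩ hp
  have h6 := tensL_coe hΩ hq
  have h7 := tensL_coe hΩ hr
  apply Lp.ext
  have k1 := Lp.coeFn_sub (tensL (p.1 + q.1) + tensL (q.1 + r.1) + tensL (p.1 + r.1) -
      tensL p.1 - tensL q.1) (tensL r.1)
  have k2 := Lp.coeFn_sub (tensL (p.1 + q.1) + tensL (q.1 + r.1) + tensL (p.1 + r.1) -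
      tensL p.1) (tensL q.1)
  have k3 := Lp.coeFn_sub (tensL (p.1 + q.1) + tensL (q.1 + r.1) + tensL (p.1 + r.1)) (tensL p.1)
  have k4 := Lp.coeFn_add (tensL (p.1 + q.1) + tensL (q.1 + r.1)) (tensL (p.1 + r.1))
  have k5 := Lp.coeFn_add (tensL (p.1 + q.1)) (tensL (q.1 + r.1))
  have k6 := Lp.coeFn_add (p.1 + q.1) r.1
  have k7 := Lp.coeFn_add p.1 q.1
  have k8 := Lp.coeFn_add q.1 r.1
  have k9 := Lp.coeFn_add p.1 r.1
  filter_upwards [h1, h2, h3, h4, h5, h6, h7, k1, k2, k3, k4, k5, k6, k7, k8, k9] with x a1 a2 a3 a4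
    a5 a6 a7 b1 b2 b3 b4 b5 b6 b7 b8 b9
  have a1' : (tensL (p.1 + q.1 + r.1)) x = tens ((p.1 + q.1 + r.1) x) := a1
  have a2' : (tensL (p.1 + q.1)) x = tens ((p.1 + q.1) x) := a2
  have a3' : (tensL (q.1 + r.1)) x = tens ((q.1 + r.1) x) := a3
  have a4' : (tensL (p.1 + r.1)) x = tens ((p.1 + r.1) x) := a4
  rw [b1]
  simp only [Pi.sub_apply]
  rw [b2]
  simp only [Pi.sub_apply]
  rw [b3]
  simp only [Pi.sub_apply]
  rw [b4]
  simp only [Pi.add_apply]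
  rw [b5]
  simp only [Pi.add_apply]
  rw [a1', a2', a3', a4', a5, a6, a7, b6, b8, b9]
  simp only [Pi.add_apply]
  rw [b7]
  ext i
  simp only [PiLp.add_apply, tens_apply, Pi.add_apply, PiLp.sub_apply]
  ring

theorem t_QUA : S_QUA := by
  intro Ω hΩ
  exact ⟨fun s t p hp q hq => qua_bil hΩ.measurableSet s t hp hq,
    fun p hp q hq r hr => qua_add hΩ.measurableSet hp hq hr⟩

end Pool.Agent.U401.DD
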