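import Mathlib
import Pool.Agent.U401.DD.Stm

/-!
Project DD (helper401), package SIG (helper600): the energy production in symmetric form.
-/

set_option autoImplicit false

open Finset

namespace Pool.Agent.U401.DD

theorem sum_cyc (s : Finset ℕ) (F : ℕ → ℕ → ℕ → ℝ) :
    ∑ k ∈ s, ∑ l ∈ s, ∑ n ∈ s, F l n k = ∑ k ∈ s, ∑ l ∈ s, ∑ n ∈ s, F k l n := by
  rw [Finset.sum_comm]
  refine Finset.sum_congr rfl fun l _ => ?_
  rw [Finset.sum_comm]

/-- **SIG** -/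
theorem t_SIG : S_SIG := by
  intro bet lam K _ N a
  set s := Finset.range (2 * N) with hs
  set F : ℕ → ℕ → ℕ → ℝ := fun k l n => gg lam (n / 2) * bet k l n * (a k * a l * a n) with hF
  have h1 : ∑ k ∈ s, ∑ l ∈ s, ∑ n ∈ s, F l n k = ∑ k ∈ s, ∑ l ∈ s, ∑ n ∈ s, F k l n := sum_cyc s F
  have h2 : ∑ k ∈ s, ∑ l ∈ s, ∑ n ∈ s, F n k l = ∑ k ∈ s, ∑ l ∈ s, ∑ n ∈ s, F k l n := by
    have := sum_cyc s (fun k l n => F n k l)
    exact this.symm
  have hR : ∑ k ∈ s, ∑ l ∈ s, ∑ n ∈ s, sig bet lam k l n * (a k * a l * a n) =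
      2 / 3 * (∑ k ∈ s, ∑ l ∈ s, ∑ n ∈ s, F k l n + ∑ k ∈ s, ∑ l ∈ s, ∑ n ∈ s, F l n k +
        ∑ k ∈ s, ∑ l ∈ s, ∑ n ∈ s, F n k l) := by
    simp only [← Finset.sum_add_distrib, Finset.mul_sum]
    refine Finset.sum_congr rfl fun k _ => Finset.sum_congr rfl fun l _ =>
      Finset.sum_congr rfl fun n _ => ?_
    simp only [hF, sig]
    ring
  have hL : ∑ n ∈ s, 2 * gg lam (n / 2) * a n * quad bet N a n =
      2 * ∑ k ∈ s, ∑ l ∈ s, ∑ n ∈ s, F k l n := by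
    rw [← sum_cyc s F, Finset.mul_sum]
    refine Finset.sum_congr rfl fun n _ => ?_
    simp only [quad, Finset.mul_sum]
    refine Finset.sum_congr rfl fun k _ => Finset.sum_congr rfl fun l _ => ?_
    simp only [hF]
    ring
  rw [hR, h1, h2, hL]
  ring

end Pool.Agent.U401.DD
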