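import Mathlib
import Pool.Agent.H772R2.NS.Space2

/-!
# Project DD, package TST, first part: a nonzero divergence free test field and its scalings
-/

set_option autoImplicit false

open MeasureTheory Set Filter Topology
open scoped InnerProductSpace ContDiff

namespace Pool.Agent.U401.DD.TST

open H772R2.NS

/-- scaled and translated field -/
noncomputable def sc (φ : E3 → E3) (c : E3) (s : ℝ) (x : E3) : E3 := φ (s⁻¹ • (x - c))

theorem jac_sc {φ : E3 → E3} (hφ : ContDiff ℝ ∞ φ) (c : E3) (s : ℝ) (x : E3) :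
    jac (sc φ c s) x = s⁻¹ • jac φ (s⁻¹ • (x - c)) := by
  have h1 : HasFDerivAt (fun x : E3 => s⁻¹ • (x - c)) (s⁻¹ • ContinuousLinearMap.id ℝ E3) x :=
    ((hasFDerivAt_id x).sub_const c).const_smul s⁻¹
  have h2 : HasFDerivAt φ (fderiv ℝ φ (s⁻¹ • (x - c))) (s⁻¹ • (x - c)) :=
    ((hφ.differentiable (by simp)) _).hasFDerivAt
  have h3 := (h2.comp x h1).fderiv
  have h4 : fderiv ℝ (sc φ c s) x =
      (fderiv ℝ φ (s⁻¹ • (x - c))).comp (s⁻¹ • ContinuousLinearMap.id ℝ E3) := h3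
  ext p
  rw [jac_apply, PiLp.smul_apply, jac_apply, h4]
  simp

theorem sc_support {φ : E3 → E3} (h : ∀ x, φ x ≠ 0 → ‖x‖ ≤ 1 / 2) {c : E3} {s : ℝ}
    (hs : 0 < s) : Function.support (sc φ c s) ⊆ Metric.closedBall c (s / 2) := by
  intro x hx
  have h1 := h _ hx
  rw [norm_smul, norm_inv, Real.norm_of_nonneg hs.le, inv_mul_le_iff₀ hs] at h1
  rw [Metric.mem_closedBall, dist_eq_norm]
  linarith

theorem isTest_sc {Ω0 Ω : Set E3} {φ : E3 → E3} (hφ : IsTest Ω0 φ)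
    (h : ∀ x, φ x ≠ 0 → ‖x‖ ≤ 1 / 2) {c : E3} {s : ℝ} (hs : 0 < s)
    (hc : Metric.closedBall c (s / 2) ⊆ Ω) : IsTest Ω (sc φ c s) where
  smooth := by
    have h1 : ContDiff ℝ ∞ (fun x : E3 => s⁻¹ • (x - c)) := by fun_prop
    exact hφ.smooth.comp h1
  compact := HasCompactSupport.of_support_subset_isCompact (isCompact_closedBall c (s / 2))
    (sc_support h hs)
  supp := (closure_minimal (sc_support h hs) Metric.isClosed_closedBall).trans hc
  divfree := fun x => by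
    simp only [jac_sc hφ.smooth, PiLp.smul_apply, smul_eq_mul]
    rw [← Finset.mul_sum, hφ.divfree, mul_zero]

theorem int_scale (F : E3 → ℝ) (c : E3) {s : ℝ} (hs : 0 < s) :
    ∫ x, F (s⁻¹ • (x - c)) = s ^ 3 * ∫ x, F x := by
  rw [integral_sub_right_eq_self (fun x => F (s⁻¹ • x)) c,
    Measure.integral_comp_inv_smul_of_nonneg _ _ hs.le]
  simp

theorem norm_sc {φ : E3 → E3} (c : E3) {s : ℝ} (hs : 0 < s) :
    ∫ x, ‖sc φ c s x‖ ^ 2 = s ^ 3 * ∫ x, ‖φ x‖ ^ 2 :=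
  int_scale (fun x => ‖φ x‖ ^ 2) c hs

theorem norm_jac_sc {φ : E3 → E3} (hφ : ContDiff ℝ ∞ φ) (c : E3) {s : ℝ} (hs : 0 < s) :
    ∫ x, ‖jac (sc φ c s) x‖ ^ 2 = (s⁻¹) ^ 2 * (s ^ 3 * ∫ x, ‖jac φ x‖ ^ 2) := by
  have h1 : (fun x => ‖jac (sc φ c s) x‖ ^ 2) =
      fun x => (s⁻¹) ^ 2 * ‖jac φ (s⁻¹ • (x - c))‖ ^ 2 := by
    funext x
    rw [jac_sc hφ, norm_smul, mul_pow, Real.norm_of_nonneg (inv_nonneg.2 hs.le)]
  rw [h1, integral_const_mul, int_scale (fun x => ‖jac φ x‖ ^ 2) c hs]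

/-- the bump function -/
noncomputable def bmp : ContDiffBump (0 : E3) := ⟨1 / 4, 1 / 2, by norm_num, by norm_num⟩

/-- the stream function field -/
noncomputable def phi0 (x : E3) : E3 :=
  WithLp.toLp 2 ![fderiv ℝ bmp x (ev 1), -(fderiv ℝ bmp x (ev 0)), 0]

theorem contDiff_bmp : ContDiff ℝ ∞ (bmp : E3 → ℝ) := bmp.contDiff

theorem contDiff_dbmp (v : E3) : ContDiff ℝ ∞ (fun x => fderiv ℝ bmp x v) := by
  have h1 : ContDiff ℝ ∞ (fderiv ℝ (bmp : E3 → ℝ)) :=
    contDiff_bmp.fderiv_right (m := ∞) (by simp)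
  exact h1.clm_apply contDiff_const

theorem contDiff_phi0 : ContDiff ℝ ∞ phi0 := by
  rw [contDiff_euclidean]
  intro i
  fin_cases i
  · exact contDiff_dbmp _
  · exact (contDiff_dbmp _).neg
  · exact contDiff_const

theorem phi0_supp {x : E3} (hx : phi0 x ≠ 0) : ‖x‖ ≤ 1 / 2 := by
  by_contra hcon
  push Not at hcon
  apply hx
  have h1 : x ∉ tsupport (bmp : E3 → ℝ) := by
    rw [bmp.tsupport_eq, Metric.mem_closedBall, dist_zero_right, not_le]
    exact hcon
  have h2 : fderiv ℝ bmp x = 0 := fderiv_of_notMem_tsupport ℝ h1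
  ext i
  fin_cases i <;> simp [phi0, h2]

theorem fderiv_phi0 (x v : E3) (i : Fin 3) :
    fderiv ℝ phi0 x v i = fderiv ℝ (fun y => phi0 y i) x v := by
  have h1 : DifferentiableAt ℝ phi0 x := (contDiff_phi0.differentiable (by simp)) x
  have h2 : HasFDerivAt (fun y => phi0 y i)
      ((EuclideanSpace.proj (𝕜 := ℝ) i : E3 →L[ℝ] ℝ).comp (fderiv ℝ phi0 x)) x :=
    (EuclideanSpace.proj (𝕜 := ℝ) i : E3 →L[ℝ] ℝ).hasFDerivAt.comp x h1.hasFDerivAt
  rw [h2.fderiv]
  rfl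

theorem second (x v w : E3) :
    fderiv ℝ (fun y => fderiv ℝ bmp y v) x w = fderiv ℝ (fderiv ℝ (bmp : E3 → ℝ)) x w v := by
  have h1 : DifferentiableAt ℝ (fderiv ℝ (bmp : E3 → ℝ)) x :=
    ((contDiff_bmp.fderiv_right (m := ∞) (by simp)).differentiable (by simp)) x
  have h2 : HasFDerivAt (fun y => fderiv ℝ bmp y v)
      ((ContinuousLinearMap.apply ℝ ℝ v).comp (fderiv ℝ (fderiv ℝ (bmp : E3 → ℝ)) x)) x :=
    (ContinuousLinearMap.apply ℝ ℝ v).hasFDerivAt.comp x h1.hasFDerivAt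
  rw [h2.fderiv]
  rfl

theorem second_symm (x v w : E3) :
    fderiv ℝ (fderiv ℝ (bmp : E3 → ℝ)) x w v = fderiv ℝ (fderiv ℝ (bmp : E3 → ℝ)) x v w := by
  have h : IsSymmSndFDerivAt ℝ (bmp : E3 → ℝ) x :=
    ((bmp.contDiff (n := 2)).contDiffAt).isSymmSndFDerivAt (by simp)
  exact h w v

theorem isTest_phi0 : IsTest univ phi0 where
  smooth := contDiff_phi0
  compact := HasCompactSupport.of_support_subset_isCompact (isCompact_closedBall 0 (1 / 2))
    (fun x hx => by rw [Metric.mem_closedBall, dist_zero_right]; exact phi0_supp hx)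
  supp := subset_univ _
  divfree := fun x => by
    have h0 : jac phi0 x (0, 0) = fderiv ℝ (fderiv ℝ (bmp : E3 → ℝ)) x (ev 0) (ev 1) := by
      rw [jac_apply, fderiv_phi0, ← second]
      rfl
    have h1 : jac phi0 x (1, 1) = -(fderiv ℝ (fderiv ℝ (bmp : E3 → ℝ)) x (ev 1) (ev 0)) := by
      have e : (fun y => phi0 y 1) = fun y => -(fderiv ℝ bmp y (ev 0)) := by
        funext y; simp [phi0]
      rw [jac_apply, fderiv_phi0]
      show fderiv ℝ (fun y => phi0 y 1) x (ev 1) = _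
      rw [e, fderiv_fun_neg, ← second]
      rfl
    have h2 : jac phi0 x (2, 2) = 0 := by
      rw [jac_apply, fderiv_phi0]
      have : (fun y => phi0 y 2) = fun _ => (0 : ℝ) := by
        funext y; simp [phi0]
      rw [this]; simp
    rw [Fin.sum_univ_three, h0, h1, h2, second_symm x (ev 1) (ev 0)]
    ring

theorem exists_ne : ∃ x, phi0 x ≠ 0 := by
  by_contra hcon
  push Not at hcon
  have h1 : ∀ x, fderiv ℝ bmp x (ev 0) = 0 := by
    intro x
    have h2 : phi0 x 1 = 0 := by rw [hcon x]; rfl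
    have h3 : phi0 x 1 = -(fderiv ℝ bmp x (ev 0)) := by simp [phi0]
    rw [h3] at h2
    linarith
  have h2 : ∀ t : ℝ, HasDerivAt (fun t : ℝ => bmp (t • (ev 0 : E3))) 0 t := by
    intro t
    have h3 : HasDerivAt (fun t : ℝ => t • (ev 0 : E3)) (ev 0) t := by
      simpa using (hasDerivAt_id t).smul_const (ev 0 : E3)
    have h4 : HasFDerivAt (bmp : E3 → ℝ) (fderiv ℝ bmp (t • (ev 0 : E3))) (t • (ev 0 : E3)) :=
      ((contDiff_bmp.differentiable (by simp)) _).hasFDerivAt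
    have h5 := h4.comp_hasDerivAt t h3
    rwa [h1] at h5
  have h3 : (fun t : ℝ => bmp (t • (ev 0 : E3))) 0 = (fun t : ℝ => bmp (t • (ev 0 : E3))) 1 :=
    is_const_of_deriv_eq_zero (fun t => (h2 t).differentiableAt) (fun t => (h2 t).deriv) 0 1
  have h4 : bmp (0 : E3) = 1 := by
    apply bmp.one_of_mem_closedBall
    rw [Metric.mem_closedBall, dist_self]
    exact bmp.rIn_pos.le
  have h5 : bmp (ev 0 : E3) = 0 := by
    apply bmp.zero_of_le_dist
    rw [dist_zero_right, EuclideanSpace.norm_single]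
    show (1 / 2 : ℝ) ≤ _
    norm_num
  simp only [zero_smul, one_smul] at h3
  rw [h4, h5] at h3
  exact one_ne_zero h3

theorem norm_pos : 0 < ∫ x, ‖phi0 x‖ ^ 2 := by
  obtain ⟨x, hx⟩ := exists_ne
  have hc : Continuous fun x => ‖phi0 x‖ ^ 2 := contDiff_phi0.continuous.norm.pow 2
  refine hc.integral_pos_of_hasCompactSupport_nonneg_nonzero (x := x) ?_ (fun y => by positivity) ?_
  · refine HasCompactSupport.of_support_subset_isCompact (isCompact_closedBall (0 : E3) (1 / 2)) ?_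
    intro y hy
    rw [Metric.mem_closedBall, dist_zero_right]
    refine phi0_supp fun h => hy ?_
    simp [h]
  · exact pow_ne_zero 2 (norm_ne_zero_iff.2 hx)

end Pool.Agent.U401.DD.TST
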