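import Mathlib
import Pool.Agent.U401.DD.Stm2
import Pool.Agent.U401.DD.TSTa

/-!
# Project DD, package TST: many test fields with disjoint supports
-/

set_option autoImplicit false

open MeasureTheory Set Filter Topology
open scoped InnerProductSpace ContDiff

namespace Pool.Agent.U401.DD

open H772R2.NSR H772R2.NS

namespace TST

/-- lattice points -/
noncomputable def lat (k i : ℕ) : E3 :=
  WithLp.toLp 2 ![((i % k : ℕ) : ℝ), (((i / k) % k : ℕ) : ℝ), ((i / (k * k) : ℕ) : ℝ)]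

theorem one_le_natdist {a b : ℕ} (h : a ≠ b) : (1 : ℝ) ≤ |(a : ℝ) - (b : ℝ)| := by
  have h1 : (1 : ℤ) ≤ |(a : ℤ) - (b : ℤ)| := by
    apply Int.one_le_abs
    omega
  exact_mod_cast h1

theorem lat_sep {k i j : ℕ} (hij : i ≠ j) : 1 ≤ ‖lat k i - lat k j‖ := by
  have hc : ∀ l : Fin 3, |(lat k i - lat k j) l| ≤ ‖lat k i - lat k j‖ := fun l => by
    have := PiLp.norm_apply_le (lat k i - lat k j) l
    rwa [Real.norm_eq_abs] at this
  by_cases h0 : i % k = j % k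
  · by_cases h1 : (i / k) % k = (j / k) % k
    · have h2 : i / (k * k) ≠ j / (k * k) := by
        intro h2
        apply hij
        have e1 := Nat.div_add_mod i k
        have e2 := Nat.div_add_mod j k
        have e3 := Nat.div_add_mod (i / k) k
        have e4 := Nat.div_add_mod (j / k) k
        rw [Nat.div_div_eq_div_mul] at e3 e4
        rw [h2, h1] at e3
        have e5 : i / k = j / k := e3.symm.trans e4
        rw [← e1, ← e2, h0, e5]
      refine le_trans ?_ (hc 2)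
      simpa [lat] using one_le_natdist h2
    · refine le_trans ?_ (hc 1)
      simpa [lat] using one_le_natdist h1
  · refine le_trans ?_ (hc 0)
    simpa [lat] using one_le_natdist h0

theorem lat_norm {k i : ℕ} (hk : 0 < k) (hi : i < k ^ 3) : ‖lat k i‖ ≤ 2 * k := by
  have hk' : (0 : ℝ) < k := by exact_mod_cast hk
  have h0 : ((i % k : ℕ) : ℝ) ≤ k := by exact_mod_cast (Nat.mod_lt i hk).le
  have h1 : (((i / k) % k : ℕ) : ℝ) ≤ k := by exact_mod_cast (Nat.mod_lt _ hk).le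
  have h2 : ((i / (k * k) : ℕ) : ℝ) ≤ k := by
    have : i / (k * k) < k := by
      rw [Nat.div_lt_iff_lt_mul (by positivity)]
      calc i < k ^ 3 := hi
        _ = k * (k * k) := by ring
    exact_mod_cast this.le
  have h3 : ‖lat k i‖ ^ 2 ≤ (2 * (k : ℝ)) ^ 2 := by
    rw [norm_sq_E3, Fin.sum_univ_three]
    have e0 : lat k i 0 = ((i % k : ℕ) : ℝ) := rfl
    have e1 : lat k i 1 = (((i / k) % k : ℕ) : ℝ) := rfl
    have e2 : lat k i 2 = ((i / (k * k) : ℕ) : ℝ) := rfl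
    rw [e0, e1, e2]
    have p0 : (0 : ℝ) ≤ ((i % k : ℕ) : ℝ) := Nat.cast_nonneg _
    have p1 : (0 : ℝ) ≤ (((i / k) % k : ℕ) : ℝ) := Nat.cast_nonneg _
    have p2 : (0 : ℝ) ≤ ((i / (k * k) : ℕ) : ℝ) := Nat.cast_nonneg _
    have q0 := pow_le_pow_left₀ p0 h0 2
    have q1 := pow_le_pow_left₀ p1 h1 2
    have q2 := pow_le_pow_left₀ p2 h2 2
    nlinarith
  exact (pow_le_pow_iff_left₀ (norm_nonneg _) (by positivity) (by norm_num)).mp h3

theorem exists_k (n : ℕ) : ∃ k : ℕ, 0 < k ∧ n + 1 ≤ k ^ 3 ∧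
    (k : ℝ) ^ 2 ≤ 4 * ((n : ℝ) + 1) ^ (2 / 3 : ℝ) := by
  set a : ℝ := ((n : ℝ) + 1) ^ (1 / 3 : ℝ) with ha
  have hn1 : (1 : ℝ) ≤ (n : ℝ) + 1 := by
    have : (0 : ℝ) ≤ n := Nat.cast_nonneg n
    linarith
  have ha1 : 1 ≤ a := Real.one_le_rpow hn1 (by norm_num)
  have ha3 : a ^ 3 = (n : ℝ) + 1 := by
    rw [ha, ← Real.rpow_natCast, ← Real.rpow_mul (by positivity)]
    norm_num
  have ha2 : a ^ 2 = ((n : ℝ) + 1) ^ (2 / 3 : ℝ) := by
    rw [ha, ← Real.rpow_natCast, ← Real.rpow_mul (by positivity)]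
    norm_num
  refine ⟨⌈a⌉₊, Nat.ceil_pos.2 (by linarith), ?_, ?_⟩
  · have h1 : a ≤ (⌈a⌉₊ : ℝ) := Nat.le_ceil a
    have h2 : (n : ℝ) + 1 ≤ (⌈a⌉₊ : ℝ) ^ 3 := by
      rw [← ha3]; exact pow_le_pow_left₀ (by linarith) h1 3
    exact_mod_cast h2
  · have h1 : (⌈a⌉₊ : ℝ) < a + 1 := Nat.ceil_lt_add_one (by linarith)
    have h2 : (⌈a⌉₊ : ℝ) ≤ 2 * a := by linarith
    have h3 : (0 : ℝ) ≤ (⌈a⌉₊ : ℝ) := Nat.cast_nonneg _
    have h4 := pow_le_pow_left₀ h3 h2 2
    rw [← ha2]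
    calc (⌈a⌉₊ : ℝ) ^ 2 ≤ (2 * a) ^ 2 := h4
      _ = 4 * a ^ 2 := by ring

/-- the pair of classes of a test field. -/
theorem pair {Ω : Set E3} {φ : E3 → E3} (h : IsTest Ω φ) :
    ∃ p ∈ graphW Ω, p.1 =ᵐ[volume.restrict Ω] φ ∧ p.2 =ᵐ[volume.restrict Ω] jac φ := by
  have h1 : MemLp φ 2 (volume.restrict Ω) := (h.memLp 2).restrict _
  have h2 : MemLp (jac φ) 2 (volume.restrict Ω) := (h.jac_memLp 2).restrict _
  refine ⟨(h1.toLp φ, h2.toLp _), Submodule.le_topologicalClosure _ ?_, h1.coeFn_toLp,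
    h2.coeFn_toLp⟩
  exact ⟨φ, h, h1.coeFn_toLp, h2.coeFn_toLp⟩

theorem inner_cls {Ω : Set E3} {E : Type*} [NormedAddCommGroup E] [InnerProductSpace ℝ E]
    {f g : Lp E 2 (volume.restrict Ω)} {F G : E3 → E} (hf : f =ᵐ[volume.restrict Ω] F)
    (hg : g =ᵐ[volume.restrict Ω] G) : ⟪f, g⟫_ℝ = ∫ x in Ω, ⟪F x, G x⟫_ℝ := by
  rw [L2.inner_def]
  refine integral_congr_ae ?_
  filter_upwards [hf, hg] with x h1 h2
  rw [h1, h2]

theorem normsq_cls {Ω : Set E3} {E : Type*} [NormedAddCommGroup E] [InnerProductSpace ℝ E]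
    {f : Lp E 2 (volume.restrict Ω)} {F : E3 → E} (hf : f =ᵐ[volume.restrict Ω] F)
    (hF : ∀ x, x ∉ Ω → F x = 0) : ‖f‖ ^ 2 = ∫ x, ‖F x‖ ^ 2 := by
  rw [← real_inner_self_eq_norm_sq, inner_cls hf hf]
  have h1 : (fun x => ⟪F x, F x⟫_ℝ) = fun x => ‖F x‖ ^ 2 := by
    funext x; rw [real_inner_self_eq_norm_sq]
  rw [h1]
  apply setIntegral_eq_integral_of_forall_compl_eq_zero
  intro x hx
  rw [hF x hx]; simp

end TST

open TST in
theorem t_TST : S_TST := by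
  intro Ω hΩ hne
  obtain ⟨x0, hx0⟩ := hne
  obtain ⟨r, hr, hball⟩ := Metric.isOpen_iff.1 hΩ x0 hx0
  set N0 : ℝ := ∫ x, ‖phi0 x‖ ^ 2 with hN0
  set J0 : ℝ := ∫ x, ‖jac phi0 x‖ ^ 2 with hJ0
  have hN0p : 0 < N0 := norm_pos
  have hJ0n : 0 ≤ J0 := integral_nonneg fun x => by positivity
  refine ⟨1024 / r ^ 2 * (J0 / N0) + 1, by positivity, fun n => ?_⟩
  obtain ⟨k, hk, hkn, hk2⟩ := exists_k n
  have hk' : (0 : ℝ) < k := by exact_mod_cast hk
  set s : ℝ := r / (16 * k) with hs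
  have hsp : 0 < s := by positivity
  set c : Fin (n + 1) → E3 := fun i => x0 + (r / (4 * k)) • lat k i with hc
  have hsep : ∀ i j, i ≠ j → 4 * s ≤ ‖c i - c j‖ := by
    intro i j hij
    have h1 : c i - c j = (r / (4 * k)) • (lat k i - lat k j) := by
      rw [hc]; simp only [smul_sub]; abel
    have h2 : (1 : ℝ) ≤ ‖lat k i - lat k j‖ := lat_sep fun h => hij (Fin.ext h)
    rw [h1, norm_smul, Real.norm_of_nonneg (by positivity)]
    have h3 : 4 * s = r / (4 * k) := by rw [hs]; field_simp; ring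
    rw [h3]
    exact le_mul_of_one_le_right (by positivity) h2
  have hin : ∀ i, Metric.closedBall (c i) (s / 2) ⊆ Ω := by
    intro i x hx
    apply hball
    rw [Metric.mem_ball, dist_eq_norm]
    rw [Metric.mem_closedBall, dist_eq_norm] at hx
    have h1 : x - x0 = (x - c i) + (r / (4 * k)) • lat k i := by
      rw [hc]; simp only; abel
    have hi : (i : ℕ) < k ^ 3 := lt_of_lt_of_le i.2 hkn
    have h2 : ‖(r / (4 * k)) • lat k (i : ℕ)‖ ≤ r / 2 := by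
      rw [norm_smul, Real.norm_of_nonneg (by positivity)]
      calc r / (4 * k) * ‖lat k (i : ℕ)‖ ≤ r / (4 * k) * (2 * k) := by
            gcongr; exact lat_norm hk hi
        _ = r / 2 := by field_simp; ring
    have h3 : s / 2 ≤ r / 32 := by
      have hk1 : (1 : ℝ) ≤ k := by exact_mod_cast hk
      rw [hs, div_div, div_le_div_iff₀ (by positivity) (by norm_num)]
      nlinarith
    calc ‖x - x0‖ ≤ ‖x - c i‖ + ‖(r / (4 * k)) • lat k (i : ℕ)‖ := by rw [h1]; exact norm_add_le _ _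
      _ ≤ r / 32 + r / 2 := add_le_add (hx.trans h3) h2
      _ < r := by linarith
  have htest : ∀ i, IsTest Ω (sc phi0 (c i) s) := fun i =>
    isTest_sc isTest_phi0 (fun x hx => phi0_supp hx) hsp (hin i)
  have hjs : ∀ i x, jac (sc phi0 (c i) s) x ≠ 0 → x ∈ Metric.closedBall (c i) (s / 2) := by
    intro i x hx
    have h1 : x ∈ tsupport (jac (sc phi0 (c i) s)) := subset_tsupport _ hx
    exact closure_minimal (sc_support (fun x hx => phi0_supp hx) hsp)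
      Metric.isClosed_closedBall (tsupport_jac_subset h1)
  have hvs : ∀ i x, sc phi0 (c i) s x ≠ 0 → x ∈ Metric.closedBall (c i) (s / 2) := fun i x hx =>
    sc_support (fun x hx => phi0_supp hx) hsp hx
  have hdisj : ∀ i j, i ≠ j → ∀ x, x ∈ Metric.closedBall (c i) (s / 2) →
      x ∈ Metric.closedBall (c j) (s / 2) → False := by
    intro i j hij x h1 h2
    rw [Metric.mem_closedBall, dist_eq_norm] at h1 h2
    have h3 := hsep i j hij
    have h4 : ‖c i - c j‖ ≤ ‖x - c j‖ + ‖x - c i‖ := by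
      have : c i - c j = (x - c j) - (x - c i) := by abel
      rw [this]; exact norm_sub_le _ _
    linarith
  choose p hp hp1 hp2 using fun i => pair (htest i)
  have hn1 : ∀ i, ‖(p i).1‖ ^ 2 = s ^ 3 * N0 := by
    intro i
    rw [normsq_cls (hp1 i) (fun x hx => by
      by_contra h; exact hx (hin i (hvs i x h))), norm_sc (c i) hsp]
  have hn2 : ∀ i, ‖(p i).2‖ ^ 2 = (s⁻¹) ^ 2 * (s ^ 3 * J0) := by
    intro i
    rw [normsq_cls (hp2 i) (fun x hx => by
      by_contra h; exact hx (hin i (hjs i x h))), norm_jac_sc isTest_phi0.smooth (c i) hsp]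
  refine ⟨p, hp, fun i h0 => ?_, fun i j hij => ⟨?_, ?_⟩, fun i => ?_⟩
  · have h1 := hn1 i
    rw [h0, norm_zero] at h1
    have h2 : 0 < s ^ 3 * N0 := by positivity
    rw [← h1] at h2
    norm_num at h2
  · rw [inner_cls (hp1 i) (hp1 j)]
    refine integral_eq_zero_of_ae (Eventually.of_forall fun x => ?_)
    by_cases h : sc phi0 (c i) s x = 0
    · simp [h]
    · by_cases h' : sc phi0 (c j) s x = 0
      · simp [h']
      · exact (hdisj i j hij x (hvs i x h) (hvs j x h')).elim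
  · rw [inner_cls (hp2 i) (hp2 j)]
    refine integral_eq_zero_of_ae (Eventually.of_forall fun x => ?_)
    by_cases h : jac (sc phi0 (c i) s) x = 0
    · simp [h]
    · by_cases h' : jac (sc phi0 (c j) s) x = 0
      · simp [h']
      · exact (hdisj i j hij x (hjs i x h) (hjs j x h')).elim
  · rw [hn1 i, hn2 i]
    have h1 : (s⁻¹) ^ 2 = 256 / r ^ 2 * (k : ℝ) ^ 2 := by
      rw [hs]; field_simp; ring
    have h2 : (s⁻¹) ^ 2 ≤ 1024 / r ^ 2 * ((n : ℝ) + 1) ^ (2 / 3 : ℝ) := by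
      rw [h1]
      calc 256 / r ^ 2 * (k : ℝ) ^ 2 ≤ 256 / r ^ 2 * (4 * ((n : ℝ) + 1) ^ (2 / 3 : ℝ)) := by
            gcongr
        _ = 1024 / r ^ 2 * ((n : ℝ) + 1) ^ (2 / 3 : ℝ) := by ring
    have h3 : (0 : ℝ) ≤ ((n : ℝ) + 1) ^ (2 / 3 : ℝ) := by positivity
    calc (s⁻¹) ^ 2 * (s ^ 3 * J0)
        ≤ (1024 / r ^ 2 * ((n : ℝ) + 1) ^ (2 / 3 : ℝ)) * (s ^ 3 * J0) := by gcongr
      _ = (1024 / r ^ 2 * (J0 / N0)) * ((n : ℝ) + 1) ^ (2 / 3 : ℝ) * (s ^ 3 * N0) := by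
          field_simp
      _ ≤ (1024 / r ^ 2 * (J0 / N0) + 1) * ((n : ℝ) + 1) ^ (2 / 3 : ℝ) * (s ^ 3 * N0) := by
          gcongr
          linarith

end Pool.Agent.U401.DD
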