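import Mathlib
import Pool.Agent.U401.DD.Stm

/-!
# Project DD, package CNV: strong convergence in the frame
-/

set_option autoImplicit false

open Set Filter Topology
open scoped InnerProductSpace

namespace Pool.Agent.U401.DD

open H772R2.NSR

namespace CNV

section series

variable {E : Type} [NormedAddCommGroup E] [InnerProductSpace ℝ E]

theorem norm_sum_sq (e : ℕ → E) (he : ∀ n k, n ≠ k → ⟪e n, e k⟫_ℝ = 0) (t : Finset ℕ) :
    ‖∑ n ∈ t, e n‖ ^ 2 = ∑ n ∈ t, ‖e n‖ ^ 2 := by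
  rw [← real_inner_self_eq_norm_sq, sum_inner]
  refine Finset.sum_congr rfl fun n hn => ?_
  rw [inner_sum, Finset.sum_eq_single_of_mem n hn, real_inner_self_eq_norm_sq]
  intro k _ hk
  exact he n k hk.symm

theorem summ [CompleteSpace E] (e : ℕ → E) (he : ∀ n k, n ≠ k → ⟪e n, e k⟫_ℝ = 0) (B : ℝ)
    (hb : ∀ s : Finset ℕ, ∑ n ∈ s, ‖e n‖ ^ 2 ≤ B) : Summable e := by
  have h1 : Summable (fun n => ‖e n‖ ^ 2) := summable_of_sum_le (fun n => by positivity) hb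
  rw [summable_iff_vanishing_norm] at h1 ⊢
  intro ε hε
  obtain ⟨s, hs⟩ := h1 (ε ^ 2) (by positivity)
  refine ⟨s, fun t ht => ?_⟩
  have h2 := hs t ht
  rw [Real.norm_of_nonneg (Finset.sum_nonneg fun _ _ => by positivity), ← norm_sum_sq e he t] at h2
  exact lt_of_pow_lt_pow_left₀ 2 hε.le h2

theorem norm_lim (e : ℕ → E) (he : ∀ n k, n ≠ k → ⟪e n, e k⟫_ℝ = 0) (B : ℝ)
    (hb : ∀ s : Finset ℕ, ∑ n ∈ s, ‖e n‖ ^ 2 ≤ B) (y : E) (hy : HasSum e y) : ‖y‖ ^ 2 ≤ B := by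
  refine le_of_tendsto (hy.norm.pow 2) (Eventually.of_forall fun s => ?_)
  rw [norm_sum_sq e he]
  exact hb s

theorem inner_hasSum (w : ℕ → E) (hw : Orthonormal ℝ w) (c : ℕ → ℝ) (y : E)
    (hy : HasSum (fun n => c n • w n) y) (k : ℕ) : ⟪w k, y⟫_ℝ = c k := by
  have h1 : HasSum (fun n => ⟪w k, c n • w n⟫_ℝ) ⟪w k, y⟫_ℝ := hy.mapL (innerSL ℝ (w k))
  have h2 : HasSum (fun n => ⟪w k, c n • w n⟫_ℝ) (⟪w k, c k • w k⟫_ℝ) := by
    refine hasSum_single k fun n hn => ?_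
    rw [inner_smul_right, hw.2 hn.symm, mul_zero]
  rw [h1.unique h2, inner_smul_right, real_inner_self_eq_norm_sq, hw.1]
  ring

theorem orth_smul (w : ℕ → E) (hw : Orthonormal ℝ w) (c : ℕ → ℝ) :
    ∀ n k, n ≠ k → ⟪c n • w n, c k • w k⟫_ℝ = 0 := by
  intro n k h
  rw [inner_smul_right, inner_smul_left, hw.2 h]
  simp

theorem parseval [CompleteSpace E] (w : ℕ → E) (hw : Orthonormal ℝ w) (v : E)
    (hv : v ∈ closure (Submodule.span ℝ (range w) : Set E)) :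
    HasSum (fun n => ⟪w n, v⟫_ℝ • w n) v := by
  have h0 := orth_smul w hw (fun n => ⟪w n, v⟫_ℝ)
  have h1 : Summable (fun n => ⟪w n, v⟫_ℝ • w n) := by
    refine summ _ h0 (‖v‖ ^ 2) fun s => ?_
    have h := hw.sum_inner_products_le v (s := s)
    refine le_trans (le_of_eq (Finset.sum_congr rfl fun n _ => ?_)) h
    rw [norm_smul, hw.1, mul_one]
  obtain ⟨y, hy⟩ := h1
  have h2 := inner_hasSum w hw _ y hy
  set S := Submodule.span ℝ (range w) with hS
  have h3 : v ∈ S.topologicalClosure := hv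
  have h4 : y ∈ S.topologicalClosure := by
    refine S.isClosed_topologicalClosure.mem_of_tendsto hy (Eventually.of_forall fun s => ?_)
    exact S.le_topologicalClosure (Submodule.sum_mem _ fun n _ =>
      Submodule.smul_mem _ _ (Submodule.subset_span ⟨n, rfl⟩))
  have h5 : v - y ∈ S.topologicalClosure := Submodule.sub_mem _ h3 h4
  have h6 : v - y ∈ Sᗮ := by
    rw [Submodule.mem_orthogonal]
    intro u hu
    induction hu using Submodule.span_induction with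
    | mem u hu =>
      obtain ⟨n, rfl⟩ := hu
      rw [inner_sub_right, h2]
      ring
    | zero => exact inner_zero_left _
    | add a b _ _ ha hb => rw [inner_add_left, ha, hb, add_zero]
    | smul c a _ ha => rw [inner_smul_left, ha, mul_zero]
  have h7 : ⟪v - y, v - y⟫_ℝ = 0 := by
    rw [← Submodule.orthogonal_closure] at h6
    exact Submodule.inner_right_of_mem_orthogonal h5 h6
  have h8 : v = y := sub_eq_zero.1 (inner_self_eq_zero.1 h7)
  rw [← h8] at hy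
  exact hy

end series

variable {H K : Type} [NormedAddCommGroup H] [InnerProductSpace ℝ H] [CompleteSpace H]
  [NormedAddCommGroup K] [InnerProductSpace ℝ K] [CompleteSpace K]
  {W : Submodule ℝ (H × K)} {m : H → K} {C : ℝ} {w : ℕ → H} {g : ℕ → K} {lam : ℕ → ℝ}

omit [CompleteSpace H] [CompleteSpace K] in
theorem g_inner (hB : Bas W w g lam) (n k : ℕ) :
    ⟪g n, g k⟫_ℝ = if n = k then lam n else 0 := by
  have h := hB.eig n _ (hB.mem k)
  simp only at h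
  rw [h, (orthonormal_iff_ite.1 hB.orth) n k]
  split_ifs <;> simp

omit [CompleteSpace H] [CompleteSpace K] in
theorem g_norm (hB : Bas W w g lam) (n : ℕ) : ‖g n‖ ^ 2 = lam n := by
  rw [← real_inner_self_eq_norm_sq, g_inner hB, if_pos rfl]

omit [CompleteSpace H] [CompleteSpace K] in
theorem lam_low (hF : Frame W m C) (hB : Bas W w g lam) (n : ℕ) : 1 ≤ C ^ 2 * lam n := by
  have h1 := hF.poinc _ (hB.mem n)
  simp only [hB.orth.1 n] at h1
  rw [← g_norm hB, ← mul_pow]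
  nlinarith

omit [CompleteSpace H] [CompleteSpace K] in
theorem orth_g (hB : Bas W w g lam) (c : ℕ → ℝ) :
    ∀ n k, n ≠ k → ⟪c n • g n, c k • g k⟫_ℝ = 0 := by
  intro n k h
  rw [inner_smul_right, inner_smul_left, g_inner hB, if_neg h]
  simp

omit [CompleteSpace H] [CompleteSpace K] in
theorem norm_smul_g (hB : Bas W w g lam) (c : ℕ → ℝ) (n : ℕ) :
    ‖c n • g n‖ ^ 2 = lam n * c n ^ 2 := by
  rw [norm_smul, mul_pow, g_norm hB, Real.norm_eq_abs, sq_abs]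
  ring

omit [CompleteSpace H] [CompleteSpace K] in
theorem bessel (hB : Bas W w g lam) (s : Finset ℕ) (p : H × K) (hp : p ∈ W) :
    ∑ n ∈ s, lam n * ⟪w n, p.1⟫_ℝ ^ 2 ≤ ‖p.2‖ ^ 2 := by
  have h1 : 0 ≤ ‖p.2 - ∑ n ∈ s, ⟪w n, p.1⟫_ℝ • g n‖ ^ 2 := by positivity
  rw [norm_sub_sq_real, norm_sum_sq _ (orth_g hB _), inner_sum] at h1
  have h2 : ∀ n ∈ s, ⟪p.2, ⟪w n, p.1⟫_ℝ • g n⟫_ℝ = lam n * ⟪w n, p.1⟫_ℝ ^ 2 := by
    intro n _
    rw [inner_smul_right, real_inner_comm (g n) p.2, hB.eig n p hp]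
    ring
  have h3 : ∀ n ∈ s, ‖⟪w n, p.1⟫_ℝ • g n‖ ^ 2 = lam n * ⟪w n, p.1⟫_ℝ ^ 2 :=
    fun n _ => norm_smul_g hB (fun n => ⟪w n, p.1⟫_ℝ) n
  rw [Finset.sum_congr rfl h2, Finset.sum_congr rfl h3] at h1
  linarith

omit [CompleteSpace K] in
/-- the norm in `H` is bounded by finitely many coordinates and the norm in `K` -/
theorem tail (hB : Bas W w g lam) (P : ℕ) (L : ℝ) (hL : 0 < L) (hP : ∀ n, P ≤ n → L ≤ lam n)
    (p : H × K) (hp : p ∈ W) :
    ‖p.1‖ ^ 2 ≤ ∑ n ∈ Finset.range P, ⟪w n, p.1⟫_ℝ ^ 2 + ‖p.2‖ ^ 2 / L := by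
  have h1 := parseval w hB.orth p.1 (hB.dens p hp)
  refine norm_lim _ (orth_smul w hB.orth _) _ (fun s => ?_) p.1 h1
  have h2 : ∀ n ∈ s, ‖⟪w n, p.1⟫_ℝ • w n‖ ^ 2 = ⟪w n, p.1⟫_ℝ ^ 2 := by
    intro n _
    rw [norm_smul, hB.orth.1, mul_one, Real.norm_eq_abs, sq_abs]
  rw [Finset.sum_congr rfl h2]
  rw [← Finset.sum_filter_add_sum_filter_not s (fun n => n < P)]
  refine add_le_add ?_ ?_
  · refine Finset.sum_le_sum_of_subset_of_nonneg ?_ fun _ _ _ => by positivity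
    intro n hn
    exact Finset.mem_range.2 (Finset.mem_filter.1 hn).2
  · rw [le_div_iff₀ hL, Finset.sum_mul]
    refine le_trans (Finset.sum_le_sum fun n hn => ?_)
      (bessel hB (s.filter fun n => ¬ n < P) p hp)
    have h3 := hP n (not_lt.1 (Finset.mem_filter.1 hn).2)
    rw [mul_comm]
    exact mul_le_mul_of_nonneg_right h3 (by positivity)

end CNV

open CNV

theorem t_CNV : S_CNV := by
  intro H K _ _ _ _ _ _ W m C w g lam hF hB hlam R X Z α hXZ hZ hα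
  have hR : 0 ≤ R := le_trans (norm_nonneg _) (hZ 0)
  have hC := hF.C0
  have hlow := lam_low hF hB
  have hpos : ∀ n, 0 < lam n := by
    intro n
    have h1 := hlow n
    by_contra h2
    have h3 : C ^ 2 * lam n ≤ 0 := mul_nonpos_of_nonneg_of_nonpos (by positivity) (not_lt.1 h2)
    linarith
  -- the limit of the coefficients
  have hs1 : ∀ s : Finset ℕ, ∑ n ∈ s, lam n * α n ^ 2 ≤ R ^ 2 := by
    intro s
    have h1 : Tendsto (fun N => ∑ n ∈ s, lam n * ⟪w n, X N⟫_ℝ ^ 2) atTop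
        (𝓝 (∑ n ∈ s, lam n * α n ^ 2)) :=
      tendsto_finsetSum _ fun n _ => ((hα n).pow 2).const_mul _
    refine le_of_tendsto h1 (Eventually.of_forall fun N => ?_)
    refine le_trans (bessel hB s (X N, Z N) (hXZ N)) ?_
    exact pow_le_pow_left₀ (norm_nonneg _) (hZ N) 2
  have hs2 : ∀ s : Finset ℕ, ∑ n ∈ s, ‖α n • g n‖ ^ 2 ≤ R ^ 2 := by
    intro s
    rw [Finset.sum_congr rfl fun n _ => norm_smul_g hB α n]
    exact hs1 s
  have hs3 : ∀ s : Finset ℕ, ∑ n ∈ s, ‖α n • w n‖ ^ 2 ≤ C ^ 2 * R ^ 2 := by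
    intro s
    refine le_trans ?_ (mul_le_mul_of_nonneg_left (hs1 s) (by positivity))
    rw [Finset.mul_sum]
    refine Finset.sum_le_sum fun n _ => ?_
    rw [norm_smul, hB.orth.1, mul_one, Real.norm_eq_abs, sq_abs, ← mul_assoc]
    exact le_mul_of_one_le_left (by positivity) (hlow n)
  obtain ⟨z, hz⟩ := summ _ (orth_g hB α) _ hs2
  obtain ⟨x, hx⟩ := summ _ (orth_smul w hB.orth α) _ hs3
  have hz2 := norm_lim _ (orth_g hB α) _ hs2 z hz
  have hzR : ‖z‖ ≤ R := le_of_sq_le_sq hz2 hR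
  have hxα := inner_hasSum w hB.orth α x hx
  have hW : (x, z) ∈ W := by
    have h1 : Tendsto (fun s : Finset ℕ => (∑ n ∈ s, α n • w n, ∑ n ∈ s, α n • g n)) atTop
        (𝓝 (x, z)) := Filter.Tendsto.prodMk_nhds hx hz
    refine hF.closedW.mem_of_tendsto h1 (Eventually.of_forall fun s => ?_)
    have h2 : (∑ n ∈ s, α n • w n, ∑ n ∈ s, α n • g n) = ∑ n ∈ s, α n • ((w n, g n) : H × K) := by
      refine Prod.ext ?_ ?_
      · rw [Prod.fst_sum]
        rfl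
      · rw [Prod.snd_sum]
        rfl
    rw [SetLike.mem_coe, h2]
    exact Submodule.sum_mem _ fun n _ => Submodule.smul_mem _ _ (hB.mem n)
  have hdiff : ∀ N, (X N - x, Z N - z) ∈ W := fun N => Submodule.sub_mem _ (hXZ N) hW
  have hZz : ∀ N, ‖Z N - z‖ ≤ 2 * R := by
    intro N
    have h1 := norm_sub_le (Z N) z
    have h2 := hZ N
    linarith
  -- strong convergence
  have hX : Tendsto X atTop (𝓝 x) := by
    rw [Metric.tendsto_atTop]
    intro ε hε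
    obtain ⟨P, hP⟩ := Filter.eventually_atTop.1 (hlam.eventually_ge_atTop (8 * R ^ 2 / ε ^ 2 + 1))
    have hL : 0 < 8 * R ^ 2 / ε ^ 2 + 1 := by positivity
    have h1 : Tendsto (fun N => ∑ n ∈ Finset.range P, ⟪w n, X N - x⟫_ℝ ^ 2) atTop (𝓝 0) := by
      have h2 : (0 : ℝ) = ∑ n ∈ Finset.range P, (α n - α n) ^ 2 := by simp
      rw [h2]
      refine tendsto_finsetSum _ fun n _ => ?_
      have h3 : (fun N => ⟪w n, X N - x⟫_ℝ ^ 2) = fun N => (⟪w n, X N⟫_ℝ - α n) ^ 2 := by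
        funext N
        rw [inner_sub_right, hxα]
      rw [h3]
      exact ((hα n).sub_const _).pow 2
    obtain ⟨N₀, hN₀⟩ := Filter.eventually_atTop.1 (h1.eventually (gt_mem_nhds
      (show (0 : ℝ) < ε ^ 2 / 2 by positivity)))
    refine ⟨N₀, fun N hN => ?_⟩
    have h4 := tail hB P _ hL hP _ (hdiff N)
    have h5 := hN₀ N hN
    simp only at h4
    have h6 : ‖Z N - z‖ ^ 2 / (8 * R ^ 2 / ε ^ 2 + 1) ≤ ε ^ 2 / 2 := by
      rw [div_le_iff₀ hL]
      have h7 : ‖Z N - z‖ ^ 2 ≤ (2 * R) ^ 2 := pow_le_pow_left₀ (norm_nonneg _) (hZz N) 2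
      have h8 : ε ^ 2 / 2 * (8 * R ^ 2 / ε ^ 2 + 1) = 4 * R ^ 2 + ε ^ 2 / 2 := by
        field_simp
        ring
      rw [h8]
      nlinarith [sq_nonneg ε]
    rw [dist_eq_norm]
    refine lt_of_pow_lt_pow_left₀ 2 hε.le ?_
    linarith
  refine ⟨x, z, hW, hzR, hxα, hX, ?_⟩
  have h1 : Tendsto (fun N => C * (‖X N - x‖ * (2 * R) ^ 3 * (2 * R) ^ 4)) atTop (𝓝 0) := by
    have h2 : Tendsto (fun N => ‖X N - x‖) atTop (𝓝 0) := tendsto_iff_norm_sub_tendsto_zero.1 hX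
    have h3 := (((h2.mul_const ((2 * R) ^ 3)).mul_const ((2 * R) ^ 4)).const_mul C)
    simpa using h3
  rw [Metric.tendsto_atTop]
  intro ε hε
  obtain ⟨N₀, hN₀⟩ := Filter.eventually_atTop.1 (h1.eventually (gt_mem_nhds
    (show (0 : ℝ) < ε ^ 4 by positivity)))
  refine ⟨N₀, fun N hN => ?_⟩
  have h4 := hF.lips _ (hXZ N) _ hW
  simp only at h4
  rw [dist_eq_norm]
  refine lt_of_pow_lt_pow_left₀ 4 hε.le (lt_of_le_of_lt h4 (lt_of_le_of_lt ?_ (hN₀ N hN)))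
  refine mul_le_mul_of_nonneg_left ?_ hC.le
  have h5 : ‖Z N - z‖ ^ 3 ≤ (2 * R) ^ 3 := pow_le_pow_left₀ (norm_nonneg _) (hZz N) 3
  have h6 : (‖Z N‖ + ‖z‖) ^ 4 ≤ (2 * R) ^ 4 :=
    pow_le_pow_left₀ (by positivity) (by have := hZ N; linarith) 4
  exact mul_le_mul (mul_le_mul_of_nonneg_left h5 (norm_nonneg _)) h6 (by positivity)
    (by positivity)

end Pool.Agent.U401.DD
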