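import Mathlib
import Pool.Agent.U401.DD.Stm5
import Pool.Agent.U401.DD.CNV

/-!
# Project EE, package WEQ: the energy equality from a small flux

Co-authors: helper401 (project, statement, plan of the proof), helper439 (this package); the lemmas
on the partial sums are adapted from TDA (helper312).
-/

set_option autoImplicit false
set_option linter.unusedSectionVars false

open MeasureTheory ProbabilityTheory Set Filter Topology
open scoped InnerProductSpace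

namespace Pool.Agent.U401.DD

open H772R2.NSR

namespace PWEQ

/-- the square of a primitive -/
theorem sq_prim {F c : ℝ → ℝ} {t : ℝ} (ht : 0 ≤ t) (hc : IntervalIntegrable c volume 0 t)
    (hF : ∀ s ∈ Icc 0 t, F s = F 0 + ∫ u in (0 : ℝ)..s, c u) :
    F t ^ 2 - F 0 ^ 2 = ∫ s in (0 : ℝ)..t, 2 * (F s * c s) := by
  have hI := hc.absolutelyContinuousOnInterval_intervalIntegral (c := 0) left_mem_uIcc
  have e1 := hI.integral_deriv_mul_eq_sub hI
  have e2 : ∫ x in (0 : ℝ)..t, (deriv (fun x => ∫ v in (0 : ℝ)..x, c v) x *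
      (∫ v in (0 : ℝ)..x, c v) +
      (∫ v in (0 : ℝ)..x, c v) * deriv (fun x => ∫ v in (0 : ℝ)..x, c v) x) =
      ∫ s in (0 : ℝ)..t, 2 * ((∫ v in (0 : ℝ)..s, c v) * c s) := by
    apply intervalIntegral.integral_congr_ae
    filter_upwards [hc.ae_hasDerivAt_integral] with s hs hs2
    have h1 := (hs (uIoc_subset_uIcc hs2) 0 left_mem_uIcc).deriv
    rw [h1]
    ring
  have e3 : ∫ s in (0 : ℝ)..t, 2 * (F s * c s) =
      ∫ s in (0 : ℝ)..t, (2 * F 0 * c s + 2 * ((∫ v in (0 : ℝ)..s, c v) * c s)) := by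
    apply intervalIntegral.integral_congr
    intro s hs
    rw [uIcc_of_le ht] at hs
    have h1 := hF s hs
    show 2 * (F s * c s) = 2 * F 0 * c s + 2 * ((∫ v in (0 : ℝ)..s, c v) * c s)
    rw [h1]
    ring
  have hIc : ContinuousOn (fun s => ∫ v in (0 : ℝ)..s, c v) (uIcc 0 t) := hI.continuousOn
  have i1 : IntervalIntegrable (fun s => 2 * F 0 * c s) volume 0 t := hc.const_mul _
  have i2 : IntervalIntegrable (fun s => 2 * ((∫ v in (0 : ℝ)..s, c v) * c s)) volume 0 t :=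
    (hc.continuousOn_mul hIc).const_mul 2
  have e4 := hF t ⟨ht, le_rfl⟩
  have e5 : (∫ v in (0 : ℝ)..(0 : ℝ), c v) = 0 := intervalIntegral.integral_same
  rw [e3, intervalIntegral.integral_add i1 i2, ← e2, e1, intervalIntegral.integral_const_mul, e5,
    e4]
  ring

theorem isum {t : ℝ} (S : Finset ℕ) (F : ℕ → ℝ → ℝ)
    (h : ∀ n ∈ S, IntervalIntegrable (F n) volume 0 t) :
    IntervalIntegrable (fun s => ∑ n ∈ S, F n s) volume 0 t := by
  classical
  induction S using Finset.induction_on with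
  | empty => simp
  | insert n S hn ih =>
    have h1 := ih fun k hk => h k (Finset.mem_insert_of_mem hk)
    have h2 := h n (Finset.mem_insert_self n S)
    simp only [Finset.sum_insert hn]
    exact h2.add h1

theorem rot_cancel (om a : ℕ → ℝ) (N : ℕ) :
    ∑ n ∈ Finset.range (2 * N), a n * rot om a n = 0 := by
  induction N with
  | zero => simp
  | succ N ih =>
    rw [show 2 * (N + 1) = 2 * N + 1 + 1 by ring, Finset.sum_range_succ, Finset.sum_range_succ, ih]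
    have h1 : rot om a (2 * N) = om N * a (2 * N + 1) := by
      unfold rot
      rw [if_pos (by omega), show 2 * N / 2 = N by omega]
    have h2 : rot om a (2 * N + 1) = -(om N * a (2 * N)) := by
      unfold rot
      rw [if_neg (by omega), show (2 * N + 1) / 2 = N by omega, Nat.add_sub_cancel]
    rw [h1, h2]
    ring

/-- partial sums of the expansion of `v` -/
noncomputable def PS {H E : Type} [NormedAddCommGroup H] [InnerProductSpace ℝ H]
    [NormedAddCommGroup E] [InnerProductSpace ℝ E] (w : ℕ → H) (e : ℕ → E) (v : H) (N : ℕ) : E :=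
  ∑ n ∈ Finset.range (2 * N), ⟪w n, v⟫_ℝ • e n

variable {H K : Type} [NormedAddCommGroup H] [InnerProductSpace ℝ H] [CompleteSpace H]
  [NormedAddCommGroup K] [InnerProductSpace ℝ K] [CompleteSpace K]
  {W : Submodule ℝ (H × K)} {m : H → K} {C : ℝ} {w : ℕ → H} {g : ℕ → K} {lam : ℕ → ℝ}

theorem two_tendsto : Tendsto (fun N : ℕ => 2 * N) atTop atTop :=
  tendsto_atTop_mono (fun N => by show N ≤ 2 * N; omega) tendsto_id

theorem PS_w_lim (hB : Bas W w g lam) (v : H)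
    (hv : v ∈ closure (Submodule.span ℝ (range w) : Set H)) :
    Tendsto (PS w w v) atTop (𝓝 v) := by
  have h1 := (CNV.parseval w hB.orth v hv).tendsto_sum_nat
  exact h1.comp two_tendsto

theorem PS_g_lim (hF : Frame W m C) (hB : Bas W w g lam) (p : H × K) (hp : p ∈ W) :
    Tendsto (PS w g p.1) atTop (𝓝 p.2) := by
  have h0 := CNV.parseval w hB.orth p.1 (hB.dens p hp)
  have hs : ∀ s : Finset ℕ, ∑ n ∈ s, ‖⟪w n, p.1⟫_ℝ • g n‖ ^ 2 ≤ ‖p.2‖ ^ 2 := by
    intro s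
    rw [Finset.sum_congr rfl fun n _ => CNV.norm_smul_g hB (fun n => ⟪w n, p.1⟫_ℝ) n]
    exact CNV.bessel hB s p hp
  obtain ⟨z', hz⟩ := CNV.summ _ (CNV.orth_g hB fun n => ⟪w n, p.1⟫_ℝ) _ hs
  have hW : (p.1, z') ∈ W := by
    have h1 : Tendsto (fun s : Finset ℕ => (∑ n ∈ s, ⟪w n, p.1⟫_ℝ • w n,
        ∑ n ∈ s, ⟪w n, p.1⟫_ℝ • g n)) atTop (𝓝 (p.1, z')) := Filter.Tendsto.prodMk_nhds h0 hz
    refine hF.closedW.mem_of_tendsto h1 (Eventually.of_forall fun s => ?_)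
    have h2 : (∑ n ∈ s, ⟪w n, p.1⟫_ℝ • w n, ∑ n ∈ s, ⟪w n, p.1⟫_ℝ • g n)
        = ∑ n ∈ s, ⟪w n, p.1⟫_ℝ • ((w n, g n) : H × K) := by
      refine Prod.ext ?_ ?_
      · rw [Prod.fst_sum]
        rfl
      · rw [Prod.snd_sum]
        rfl
    rw [SetLike.mem_coe, h2]
    exact Submodule.sum_mem _ fun n _ => Submodule.smul_mem _ _ (hB.mem n)
  have h3 : z' = p.2 := by
    have h4 : ((0 : H), z' - p.2) ∈ W := by
      have := W.sub_mem hW hp
      have e : ((p.1, z') : H × K) - p = (0, z' - p.2) := by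
        refine Prod.ext ?_ ?_
        · simp
        · simp
      rwa [e] at this
    exact sub_eq_zero.1 (hF.uniq _ h4 rfl)
  rw [← h3]
  exact hz.tendsto_sum_nat.comp two_tendsto

theorem PS_w_sq (hB : Bas W w g lam) (v : H) (N : ℕ) :
    ‖PS w w v N‖ ^ 2 = ∑ n ∈ Finset.range (2 * N), ⟪w n, v⟫_ℝ ^ 2 := by
  unfold PS
  rw [CNV.norm_sum_sq _ (CNV.orth_smul w hB.orth fun n => ⟪w n, v⟫_ℝ)]
  refine Finset.sum_congr rfl fun n _ => ?_
  rw [norm_smul, hB.orth.1, mul_one, Real.norm_eq_abs, sq_abs]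

theorem PS_g_sq (hB : Bas W w g lam) (v : H) (N : ℕ) :
    ‖PS w g v N‖ ^ 2 = ∑ n ∈ Finset.range (2 * N), lam n * ⟪w n, v⟫_ℝ ^ 2 := by
  unfold PS
  rw [CNV.norm_sum_sq _ (CNV.orth_g hB fun n => ⟪w n, v⟫_ℝ)]
  exact Finset.sum_congr rfl fun n _ => CNV.norm_smul_g hB (fun n => ⟪w n, v⟫_ℝ) n

theorem PS_g_sq_le (hB : Bas W w g lam) (p : H × K) (hp : p ∈ W) (N : ℕ) :
    ∑ n ∈ Finset.range (2 * N), lam n * ⟪w n, p.1⟫_ℝ ^ 2 ≤ ‖p.2‖ ^ 2 :=
  CNV.bessel hB _ p hp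

theorem PS_w_le (hB : Bas W w g lam) (v : H) (N : ℕ) : ‖PS w w v N‖ ≤ ‖v‖ := by
  refine (sq_le_sq₀ (norm_nonneg _) (norm_nonneg _)).1 ?_
  rw [PS_w_sq hB]
  have h := hB.orth.sum_inner_products_le v (s := Finset.range (2 * N))
  refine le_trans (le_of_eq (Finset.sum_congr rfl fun n _ => ?_)) h
  rw [Real.norm_eq_abs, sq_abs]

end PWEQ

open PWEQ in
theorem t_WEQ : S_WEQ := by
  intro hWFA hEXP H K _ _ _ _ _ _ W m C w g lam hF hQ hB om ν ε T f x z hT hf hx t ht hflux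
  obtain ⟨hPrim, -⟩ := hWFA hEXP W m C w g lam hF hQ hB om ν ε T f x z hT hf hx
  have ht0 : 0 ≤ t := ht.1
  have h0T : (0 : ℝ) ∈ Icc 0 T := ⟨le_rfl, hT⟩
  have hsub : Icc 0 t ⊆ Icc 0 T := Icc_subset_Icc_right ht.2
  have hac : ∀ n, ContinuousOn (fun s => ⟪w n, x s⟫_ℝ) (uIcc 0 t) := fun n => by
    rw [uIcc_of_le ht0]
    exact (hx.wcont (w n)).mono hsub
  have hbi : ∀ n, IntervalIntegrable (fun s => -ν * lam n * ⟪w n, x s⟫_ℝ + ⟪m (x s), g n⟫_ℝ +
      ⟪w n, f s⟫_ℝ) volume 0 t := by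
    intro n
    have h1 := ((hPrim (n + 1)) n (by omega)).1
    refine h1.mono_set ?_
    rw [uIcc_of_le ht0, uIcc_of_le hT]
    exact hsub
  have hrc : ∀ n, ContinuousOn (fun s => ε * rot om (fun k => ⟪w k, x s⟫_ℝ) n) (uIcc 0 t) := by
    intro n
    unfold rot
    by_cases hn : n % 2 = 0
    · simp only [if_pos hn]
      exact continuousOn_const.mul (continuousOn_const.mul (hac (n + 1)))
    · simp only [if_neg hn]
      exact continuousOn_const.mul ((continuousOn_const.mul (hac (n - 1))).neg)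
  have hci : ∀ n, IntervalIntegrable (fun s => (-ν * lam n * ⟪w n, x s⟫_ℝ + ⟪m (x s), g n⟫_ℝ +
      ⟪w n, f s⟫_ℝ) + ε * rot om (fun k => ⟪w k, x s⟫_ℝ) n) volume 0 t :=
    fun n => (hbi n).add (hrc n).intervalIntegrable
  have hsq : ∀ n, ⟪w n, x t⟫_ℝ ^ 2 - ⟪w n, x 0⟫_ℝ ^ 2 = ∫ s in (0 : ℝ)..t,
      2 * (⟪w n, x s⟫_ℝ * ((-ν * lam n * ⟪w n, x s⟫_ℝ + ⟪m (x s), g n⟫_ℝ +
      ⟪w n, f s⟫_ℝ) + ε * rot om (fun k => ⟪w k, x s⟫_ℝ) n)) := by
    intro n
    refine sq_prim (F := fun s => ⟪w n, x s⟫_ℝ) ht0 (hci n) ?_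
    intro s hs
    exact ((hPrim (n + 1)) n (by omega)).2 s (hsub hs)
  -- integrability
  have hfI : Integrable f (volume.restrict (Ioc 0 T)) := hf.integrable one_le_two
  have hfI' : Integrable f (volume.restrict (Ioc 0 t)) :=
    hfI.mono_measure (Measure.restrict_mono (Ioc_subset_Ioc_right ht.2) le_rfl)
  have hfn : ∀ n, IntervalIntegrable (fun s => ⟪w n, f s⟫_ℝ) volume 0 t := fun n =>
    (intervalIntegrable_iff_integrableOn_Ioc_of_le ht0).2 (hfI'.const_inner (w n))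
  have hmi : ∀ n, IntervalIntegrable (fun s => ⟪m (x s), g n⟫_ℝ) volume 0 t := by
    intro n
    have h1 := ((hbi n).sub (((hac n).intervalIntegrable).const_mul (-ν * lam n))).sub (hfn n)
    have e : (fun s => ⟪m (x s), g n⟫_ℝ) = fun s => ((-ν * lam n * ⟪w n, x s⟫_ℝ +
        ⟪m (x s), g n⟫_ℝ + ⟪w n, f s⟫_ℝ) - (-ν * lam n) * ⟪w n, x s⟫_ℝ) - ⟪w n, f s⟫_ℝ := by
      funext s
      ring
    rw [e]
    exact h1
  have hsum : ∀ N : ℕ, (∑ n ∈ Finset.range (2 * N), ⟪w n, x t⟫_ℝ ^ 2) -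
      ∑ n ∈ Finset.range (2 * N), ⟪w n, x 0⟫_ℝ ^ 2 =
      -2 * ν * (∫ s in (0 : ℝ)..t, ∑ n ∈ Finset.range (2 * N), lam n * ⟪w n, x s⟫_ℝ ^ 2) +
      2 * (∫ s in (0 : ℝ)..t, ∑ n ∈ Finset.range (2 * N), ⟪w n, x s⟫_ℝ * ⟪m (x s), g n⟫_ℝ) +
      2 * ∫ s in (0 : ℝ)..t, ∑ n ∈ Finset.range (2 * N), ⟪w n, x s⟫_ℝ * ⟪w n, f s⟫_ℝ := by
    intro N
    have i0 : ∀ n ∈ Finset.range (2 * N), IntervalIntegrable (fun s =>
        2 * (⟪w n, x s⟫_ℝ * ((-ν * lam n * ⟪w n, x s⟫_ℝ + ⟪m (x s), g n⟫_ℝ +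
        ⟪w n, f s⟫_ℝ) + ε * rot om (fun k => ⟪w k, x s⟫_ℝ) n))) volume 0 t := fun n _ =>
      ((hci n).continuousOn_mul (hac n)).const_mul 2
    rw [← Finset.sum_sub_distrib, Finset.sum_congr rfl fun n _ => hsq n,
      ← intervalIntegral.integral_finsetSum i0]
    have i1 : IntervalIntegrable (fun s => ∑ n ∈ Finset.range (2 * N),
        lam n * ⟪w n, x s⟫_ℝ ^ 2) volume 0 t :=
      (continuousOn_finsetSum _ fun n _ => continuousOn_const.mul
        ((hac n).pow 2)).intervalIntegrable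
    have i2' : ∀ n ∈ Finset.range (2 * N), IntervalIntegrable (fun s =>
        ⟪w n, x s⟫_ℝ * ⟪m (x s), g n⟫_ℝ) volume 0 t := fun n _ =>
      (hmi n).continuousOn_mul (hac n)
    have i3' : ∀ n ∈ Finset.range (2 * N), IntervalIntegrable (fun s =>
        ⟪w n, x s⟫_ℝ * ⟪w n, f s⟫_ℝ) volume 0 t := fun n _ =>
      (hfn n).continuousOn_mul (hac n)
    have i2 : IntervalIntegrable (fun s => ∑ n ∈ Finset.range (2 * N),
        ⟪w n, x s⟫_ℝ * ⟪m (x s), g n⟫_ℝ) volume 0 t := by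
      exact isum _ (fun n s => ⟪w n, x s⟫_ℝ * ⟪m (x s), g n⟫_ℝ) i2'
    have i3 : IntervalIntegrable (fun s => ∑ n ∈ Finset.range (2 * N),
        ⟪w n, x s⟫_ℝ * ⟪w n, f s⟫_ℝ) volume 0 t := by
      exact isum _ (fun n s => ⟪w n, x s⟫_ℝ * ⟪w n, f s⟫_ℝ) i3'
    rw [← intervalIntegral.integral_const_mul, ← intervalIntegral.integral_const_mul,
      ← intervalIntegral.integral_const_mul,
      ← intervalIntegral.integral_add (i1.const_mul _) (i2.const_mul _),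
      ← intervalIntegral.integral_add ((i1.const_mul _).add (i2.const_mul _)) (i3.const_mul _)]
    apply intervalIntegral.integral_congr
    intro s _
    have hr := rot_cancel om (fun k => ⟪w k, x s⟫_ℝ) N
    have e1 : ∑ n ∈ Finset.range (2 * N), 2 * (⟪w n, x s⟫_ℝ * ((-ν * lam n * ⟪w n, x s⟫_ℝ +
        ⟪m (x s), g n⟫_ℝ + ⟪w n, f s⟫_ℝ) + ε * rot om (fun k => ⟪w k, x s⟫_ℝ) n)) =
        -2 * ν * (∑ n ∈ Finset.range (2 * N), lam n * ⟪w n, x s⟫_ℝ ^ 2) +
        2 * (∑ n ∈ Finset.range (2 * N), ⟪w n, x s⟫_ℝ * ⟪m (x s), g n⟫_ℝ) +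
        2 * (∑ n ∈ Finset.range (2 * N), ⟪w n, x s⟫_ℝ * ⟪w n, f s⟫_ℝ) +
        2 * ε * ∑ n ∈ Finset.range (2 * N), ⟪w n, x s⟫_ℝ * rot om (fun k => ⟪w k, x s⟫_ℝ) n := by
      simp only [Finset.mul_sum, ← Finset.sum_add_distrib]
      refine Finset.sum_congr rfl fun n _ => ?_
      ring
    rw [hr, mul_zero, add_zero] at e1
    exact e1
  -- limits
  have hL : ∀ r ∈ Icc 0 T, Tendsto (fun N : ℕ => ∑ n ∈ Finset.range (2 * N), ⟪w n, x r⟫_ℝ ^ 2)
      atTop (𝓝 (‖x r‖ ^ 2)) := by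
    intro r hr
    have h1 := ((PS_w_lim hB (x r) (hx.cls r hr)).norm).pow 2
    refine h1.congr fun N => ?_
    exact PS_w_sq hB (x r) N
  have hgr : ∀ᵐ s, s ∈ Ioc 0 T → (x s, z s) ∈ W := (ae_restrict_iff' measurableSet_Ioc).1 hx.grad
  have hz2 : Integrable (fun s => ‖z s‖ ^ 2) (volume.restrict (Ioc 0 T)) :=
    (memLp_two_iff_integrable_sq_norm hx.gradL2.1).1 hx.gradL2
  have hz2' : IntervalIntegrable (fun s => ‖z s‖ ^ 2) volume 0 t :=
    (intervalIntegrable_iff_integrableOn_Ioc_of_le ht0).2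
      (hz2.mono_measure (Measure.restrict_mono (Ioc_subset_Ioc_right ht.2) le_rfl))
  have hlam : ∀ n, 0 ≤ lam n := fun n => by
    rw [← CNV.g_norm hB n]
    positivity
  have L3 : Tendsto (fun N : ℕ => ∫ s in (0 : ℝ)..t, ∑ n ∈ Finset.range (2 * N),
      lam n * ⟪w n, x s⟫_ℝ ^ 2) atTop (𝓝 (∫ s in (0 : ℝ)..t, ‖z s‖ ^ 2)) := by
    refine intervalIntegral.tendsto_integral_filter_of_dominated_convergence
      (fun s => ‖z s‖ ^ 2) (Eventually.of_forall fun N => ?_) (Eventually.of_forall fun N => ?_)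
      hz2' ?_
    · exact ((continuousOn_finsetSum _ fun n _ => continuousOn_const.mul
        ((hac n).pow 2)).mono uIoc_subset_uIcc).aestronglyMeasurable measurableSet_uIoc
    · filter_upwards [hgr] with s hs hs2
      rw [uIoc_of_le ht0] at hs2
      have hW := hs (Ioc_subset_Ioc_right ht.2 hs2)
      rw [Real.norm_eq_abs, abs_of_nonneg (Finset.sum_nonneg fun n _ =>
        mul_nonneg (hlam n) (sq_nonneg _))]
      exact PS_g_sq_le hB _ hW N
    · filter_upwards [hgr] with s hs hs2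
      rw [uIoc_of_le ht0] at hs2
      have hW := hs (Ioc_subset_Ioc_right ht.2 hs2)
      have h1 := ((PS_g_lim hF hB _ hW).norm).pow 2
      refine h1.congr fun N => ?_
      exact PS_g_sq hB (x s) N
  obtain ⟨B, hBd⟩ := hx.bdd
  have L5 : Tendsto (fun N : ℕ => ∫ s in (0 : ℝ)..t, ∑ n ∈ Finset.range (2 * N),
      ⟪w n, x s⟫_ℝ * ⟪w n, f s⟫_ℝ) atTop (𝓝 (∫ s in (0 : ℝ)..t, ⟪f s, x s⟫_ℝ)) := by
    have eP : ∀ (N : ℕ) (s : ℝ), ∑ n ∈ Finset.range (2 * N), ⟪w n, x s⟫_ℝ * ⟪w n, f s⟫_ℝ =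
        ⟪PS w w (x s) N, f s⟫_ℝ := by
      intro N s
      unfold PS
      rw [sum_inner]
      refine Finset.sum_congr rfl fun n _ => ?_
      rw [real_inner_smul_left]
    refine intervalIntegral.tendsto_integral_filter_of_dominated_convergence
      (fun s => B * ‖f s‖) (Eventually.of_forall fun N => ?_) (Eventually.of_forall fun N => ?_)
      ((intervalIntegrable_iff_integrableOn_Ioc_of_le ht0).2 (hfI'.norm.const_mul B)) ?_
    · have h1 : ∀ n ∈ Finset.range (2 * N), IntervalIntegrable (fun s =>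
          ⟪w n, x s⟫_ℝ * ⟪w n, f s⟫_ℝ) volume 0 t := fun n _ =>
        (hfn n).continuousOn_mul (hac n)
      have h2 : IntervalIntegrable (fun s => ∑ n ∈ Finset.range (2 * N),
          ⟪w n, x s⟫_ℝ * ⟪w n, f s⟫_ℝ) volume 0 t := by
        exact isum _ (fun n s => ⟪w n, x s⟫_ℝ * ⟪w n, f s⟫_ℝ) h1
      exact (intervalIntegrable_iff.1 h2).aestronglyMeasurable
    · refine Eventually.of_forall fun s hs => ?_
      rw [uIoc_of_le ht0] at hs
      have hsT : s ∈ Icc 0 T := hsub ⟨hs.1.le, hs.2⟩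
      rw [eP]
      refine (norm_inner_le_norm _ _).trans ?_
      exact mul_le_mul_of_nonneg_right ((PS_w_le hB (x s) N).trans (hBd s hsT)) (norm_nonneg _)
    · refine Eventually.of_forall fun s hs => ?_
      rw [uIoc_of_le ht0] at hs
      have hsT : s ∈ Icc 0 T := hsub ⟨hs.1.le, hs.2⟩
      have h1 : Tendsto (fun N => ⟪PS w w (x s) N, f s⟫_ℝ) atTop (𝓝 ⟪x s, f s⟫_ℝ) :=
        Filter.Tendsto.inner (𝕜 := ℝ) (PS_w_lim hB (x s) (hx.cls s hsT)) tendsto_const_nhds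
      rw [real_inner_comm]
      refine h1.congr fun N => ?_
      rw [eP]
  have hfin := tendsto_nhds_unique ((hL t ht).sub (hL 0 h0T))
    ((((L3.const_mul (-2 * ν)).add (hflux.const_mul 2)).add (L5.const_mul 2)).congr
      fun N => (hsum N).symm)
  linarith

end Pool.Agent.U401.DD
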