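import Mathlib
import Pool.Agent.U401.DD.Stm

/-!
# Project DD, package ENG: the energy inequality of the truncated system

Co-authors: helper401 (project, statement, plan of the proof), helper643 (this package).
-/

set_option autoImplicit false

open MeasureTheory Set Filter Topology

namespace Pool.Agent.U401.DD

namespace ENG

lemma rot_zero (om a : ℕ → ℝ) (N : ℕ) : ∑ n ∈ Finset.range (2 * N), a n * rot om a n = 0 := by
  induction N with
  | zero => simp
  | succ N ih =>
    rw [show 2 * (N + 1) = 2 * N + 1 + 1 by ring, Finset.sum_range_succ, Finset.sum_range_succ, ih]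
    have h1 : rot om a (2 * N) = om N * a (2 * N + 1) := by
      unfold rot
      rw [if_pos (by omega), show 2 * N / 2 = N by omega]
    have h2 : rot om a (2 * N + 1) = -(om N * a (2 * N)) := by
      unfold rot
      rw [if_neg (by omega), show (2 * N + 1) / 2 = N by omega, show 2 * N + 1 - 1 = 2 * N by omega]
    rw [h1, h2]
    ring

lemma cyc_sum (R : Finset ℕ) (G : ℕ → ℕ → ℕ → ℝ) :
    ∑ k ∈ R, ∑ l ∈ R, ∑ n ∈ R, G l n k = ∑ k ∈ R, ∑ l ∈ R, ∑ n ∈ R, G k l n := by
  rw [Finset.sum_comm]
  refine Finset.sum_congr rfl fun l _ => ?_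
  rw [Finset.sum_comm]

lemma cub_zero {bet : ℕ → ℕ → ℕ → ℝ} (h : ∀ k l n, bet k l n + bet l n k + bet n k l = 0) (N : ℕ)
    (a : ℕ → ℝ) : ∑ n ∈ Finset.range (2 * N), a n * quad bet N a n = 0 := by
  set R := Finset.range (2 * N) with hR
  set G : ℕ → ℕ → ℕ → ℝ := fun k l n => bet k l n * (a k * a l * a n) with hG
  have e0 : ∑ n ∈ R, a n * quad bet N a n = ∑ k ∈ R, ∑ l ∈ R, ∑ n ∈ R, G l n k := by
    refine Finset.sum_congr rfl fun n _ => ?_
    unfold quad
    rw [Finset.mul_sum]
    refine Finset.sum_congr rfl fun k _ => ?_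
    rw [Finset.mul_sum]
    refine Finset.sum_congr rfl fun l _ => ?_
    rw [hG]
    ring
  have e1 : ∑ k ∈ R, ∑ l ∈ R, ∑ n ∈ R, G l n k = ∑ k ∈ R, ∑ l ∈ R, ∑ n ∈ R, G k l n := cyc_sum R G
  have e2 : ∑ k ∈ R, ∑ l ∈ R, ∑ n ∈ R, G n k l = ∑ k ∈ R, ∑ l ∈ R, ∑ n ∈ R, G l n k :=
    cyc_sum R (fun k l n => G l n k)
  have e3 : (∑ k ∈ R, ∑ l ∈ R, ∑ n ∈ R, G k l n) + (∑ k ∈ R, ∑ l ∈ R, ∑ n ∈ R, G l n k) +
      ∑ k ∈ R, ∑ l ∈ R, ∑ n ∈ R, G n k l = 0 := by
    rw [← Finset.sum_add_distrib, ← Finset.sum_add_distrib]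
    refine Finset.sum_eq_zero fun k _ => ?_
    rw [← Finset.sum_add_distrib, ← Finset.sum_add_distrib]
    refine Finset.sum_eq_zero fun l _ => ?_
    rw [← Finset.sum_add_distrib, ← Finset.sum_add_distrib]
    refine Finset.sum_eq_zero fun n _ => ?_
    have := h k l n
    rw [hG]
    simp only
    have e : bet k l n * (a k * a l * a n) + bet l n k * (a l * a n * a k) +
        bet n k l * (a n * a k * a l) = (bet k l n + bet l n k + bet n k l) * (a k * a l * a n) := by
      ring
    rw [e, this, zero_mul]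
  rw [e0]
  linarith

/-- the derivative of `∑ a_n²` -/
lemma deriv_Mm {bet : ℕ → ℕ → ℕ → ℝ} {lam om : ℕ → ℝ} {K ν ε T : ℝ} {N : ℕ} {f a : ℕ → ℝ → ℝ}
    (hD : Dat bet lam K) (hG : Gal bet lam om ν ε N T f a) {t : ℝ} (ht : t ∈ Icc 0 T) :
    HasDerivWithinAt (fun s => Mm N (fun k => a k s))
      (-(2 * ν) * Dd lam N (fun k => a k t) + 2 * ∑ n ∈ Finset.range (2 * N), a n t * f n t)
      (Icc 0 T) t := by
  have h1 : HasDerivWithinAt (fun s => Mm N (fun k => a k s))
      (∑ n ∈ Finset.range (2 * N), 2 * a n t *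
        (Nn bet lam ν N (fun k => a k t) (fun k => f k t) n + ε * rot om (fun k => a k t) n))
      (Icc 0 T) t := by
    unfold Mm
    refine HasDerivWithinAt.fun_sum fun n hn => ?_
    have h2 := (hG n (Finset.mem_range.1 hn) t ht).fun_pow 2
    simpa using h2
  convert h1 using 1
  have c1 := cub_zero hD.cyc N (fun k => a k t)
  have c2 := rot_zero om (fun k => a k t) N
  have e : ∑ n ∈ Finset.range (2 * N), 2 * a n t *
        (Nn bet lam ν N (fun k => a k t) (fun k => f k t) n + ε * rot om (fun k => a k t) n) =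
      -(2 * ν) * Dd lam N (fun k => a k t) + 2 * (∑ n ∈ Finset.range (2 * N), a n t * f n t) +
        2 * (∑ n ∈ Finset.range (2 * N), a n t * quad bet N (fun k => a k t) n) +
        2 * ε * (∑ n ∈ Finset.range (2 * N), a n t * rot om (fun k => a k t) n) := by
    unfold Dd Nn
    rw [Finset.mul_sum, Finset.mul_sum, Finset.mul_sum, Finset.mul_sum, ← Finset.sum_add_distrib,
      ← Finset.sum_add_distrib, ← Finset.sum_add_distrib]
    refine Finset.sum_congr rfl fun n _ => ?_
    ring
  rw [e, c1, c2]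
  ring

lemma two_sum_le (N : ℕ) (a f : ℕ → ℝ) : 2 * ∑ n ∈ Finset.range (2 * N), a n * f n ≤ Mm N a + Mm N f := by
  unfold Mm
  rw [Finset.mul_sum, ← Finset.sum_add_distrib]
  exact Finset.sum_le_sum fun n _ => by nlinarith [sq_nonneg (a n - f n)]

lemma Mm_nonneg (N : ℕ) (a : ℕ → ℝ) : 0 ≤ Mm N a := Finset.sum_nonneg fun _ _ => sq_nonneg _

end ENG

open ENG

/-- Package ENG of project DD. -/
theorem t_ENG : S_ENG := by
  intro bet lam K hD ν T A F hν hT
  set A' : ℝ := max A 0 with hA'
  set F' : ℝ := max F 0 with hF'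
  have hA0 : 0 ≤ A' := le_max_right _ _
  have hF0 : 0 ≤ F' := le_max_right _ _
  have hK := hD.K1
  set R1 : ℝ := (A' + F' * T) * Real.exp T with hR1
  have hR10 : 0 ≤ R1 := by positivity
  set R2 : ℝ := K * ((A' + (R1 + F') * T) / (2 * ν)) with hR2
  have hR20 : 0 ≤ R2 := by positivity
  refine ⟨R1 + R2, by positivity, ?_⟩
  intro om ε N f a hf hG hA hF
  have hder : ∀ t ∈ Icc 0 T, HasDerivWithinAt (fun s => Mm N (fun k => a k s))
      (-(2 * ν) * Dd lam N (fun k => a k t) + 2 * ∑ n ∈ Finset.range (2 * N), a n t * f n t)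
      (Icc 0 T) t := fun t ht => deriv_Mm hD hG ht
  have hDd : ∀ t, 0 ≤ Dd lam N (fun k => a k t) := fun t =>
    Finset.sum_nonneg fun n _ => mul_nonneg (hD.pos n).le (sq_nonneg _)
  have hM0 : ∀ t, 0 ≤ Mm N (fun k => a k t) := fun t => Mm_nonneg _ _
  have hcM : ContinuousOn (fun s => Mm N (fun k => a k s)) (Icc 0 T) := fun t ht =>
    (hder t ht).continuousWithinAt
  have hac : ∀ n ∈ Finset.range (2 * N), ContinuousOn (a n) (Icc 0 T) := fun n hn t ht =>
    (hG n (Finset.mem_range.1 hn) t ht).continuousWithinAt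
  have hcD : ContinuousOn (fun s => Dd lam N (fun k => a k s)) (Icc 0 T) := by
    unfold Dd
    exact continuousOn_finsetSum _ fun n hn => continuousOn_const.mul ((hac n hn).pow 2)
  have hcE : ContinuousOn (fun s => En lam N (fun k => a k s)) (Icc 0 T) := by
    unfold En
    exact continuousOn_finsetSum _ fun n hn => continuousOn_const.mul ((hac n hn).pow 2)
  have hcF : ContinuousOn (fun s => ∑ n ∈ Finset.range (2 * N), a n s * f n s) (Icc 0 T) :=
    continuousOn_finsetSum _ fun n hn => (hac n hn).mul (hf n)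
  have hrhs : ∀ t ∈ Icc 0 T, 2 * ∑ n ∈ Finset.range (2 * N), a n t * f n t ≤
      Mm N (fun k => a k t) + F' := fun t ht => by
    have h1 := two_sum_le N (fun k => a k t) (fun k => f k t)
    have h2 := (hF t ht).trans (le_max_left F 0)
    linarith
  -- Gronwall
  have hanti : AntitoneOn (fun t => Real.exp (-t) * Mm N (fun k => a k t) - F' * t) (Icc 0 T) := by
    refine antitoneOn_of_hasDerivWithinAt_nonpos (f' := fun t =>
      Real.exp (-t) * (-1) * Mm N (fun k => a k t) + Real.exp (-t) *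
        (-(2 * ν) * Dd lam N (fun k => a k t) + 2 * ∑ n ∈ Finset.range (2 * N), a n t * f n t) -
        F' * 1) (convex_Icc 0 T) ?_ ?_ ?_
    · exact ((Real.continuous_exp.comp continuous_neg).continuousOn.mul hcM).sub
        (continuousOn_const.mul continuousOn_id)
    · intro t ht
      have ht' := interior_subset ht
      have h1 : HasDerivWithinAt (fun t : ℝ => Real.exp (-t)) (Real.exp (-t) * (-1)) (Icc 0 T) t :=
        ((hasDerivAt_neg t).exp).hasDerivWithinAt
      exact ((h1.mul (hder t ht')).sub ((hasDerivWithinAt_id t _).const_mul F')).mono interior_subset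
    · intro t ht
      have ht' := interior_subset ht
      have h1 := hrhs t ht'
      have h2 := hDd t
      have h3 : Real.exp (-t) ≤ 1 := Real.exp_le_one_iff.2 (by linarith [ht'.1])
      have h4 := Real.exp_pos (-t)
      have h5 : -(2 * ν) * Dd lam N (fun k => a k t) ≤ 0 := by nlinarith
      have h6 : Real.exp (-t) * (-1) * Mm N (fun k => a k t) + Real.exp (-t) *
        (-(2 * ν) * Dd lam N (fun k => a k t) + 2 * ∑ n ∈ Finset.range (2 * N), a n t * f n t) =
        Real.exp (-t) * (-(2 * ν) * Dd lam N (fun k => a k t) +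
          (2 * (∑ n ∈ Finset.range (2 * N), a n t * f n t) - Mm N (fun k => a k t))) := by ring
      have h7 : Real.exp (-t) * (-(2 * ν) * Dd lam N (fun k => a k t) +
          (2 * (∑ n ∈ Finset.range (2 * N), a n t * f n t) - Mm N (fun k => a k t))) ≤
          Real.exp (-t) * F' := mul_le_mul_of_nonneg_left (by linarith) h4.le
      have h8 : Real.exp (-t) * F' ≤ 1 * F' := mul_le_mul_of_nonneg_right h3 hF0
      show Real.exp (-t) * (-1) * Mm N (fun k => a k t) + Real.exp (-t) *
        (-(2 * ν) * Dd lam N (fun k => a k t) + 2 * ∑ n ∈ Finset.range (2 * N), a n t * f n t) -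
        F' * 1 ≤ 0
      rw [h6]
      linarith
  have hMb : ∀ t ∈ Icc 0 T, Mm N (fun k => a k t) ≤ R1 := by
    intro t ht
    have h1 := hanti (left_mem_Icc.2 hT) ht ht.1
    simp only [neg_zero, Real.exp_zero, one_mul, mul_zero, sub_zero] at h1
    have h2 : Real.exp (-t) * Mm N (fun k => a k t) ≤ A' + F' * T := by
      have : F' * t ≤ F' * T := mul_le_mul_of_nonneg_left ht.2 hF0
      have : A ≤ A' := le_max_left _ _
      linarith
    have h3 : Mm N (fun k => a k t) = Real.exp t * (Real.exp (-t) * Mm N (fun k => a k t)) := by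
      rw [← mul_assoc, ← Real.exp_add, add_neg_cancel, Real.exp_zero, one_mul]
    rw [h3, hR1, mul_comm (A' + F' * T)]
    exact mul_le_mul (Real.exp_le_exp.2 ht.2) h2 (mul_nonneg (Real.exp_pos _).le (hM0 t))
      (Real.exp_pos _).le
  refine ⟨fun t ht => (hMb t ht).trans (by linarith), ?_⟩
  -- the integral
  have huIcc : uIcc 0 T = Icc 0 T := uIcc_of_le hT
  have hiD : IntervalIntegrable (fun t => Dd lam N (fun k => a k t)) volume 0 T := by
    apply ContinuousOn.intervalIntegrable
    rwa [huIcc]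
  have hiE : IntervalIntegrable (fun t => En lam N (fun k => a k t)) volume 0 T := by
    apply ContinuousOn.intervalIntegrable
    rwa [huIcc]
  have hcM' : ContinuousOn (fun t => -(2 * ν) * Dd lam N (fun k => a k t) +
      2 * ∑ n ∈ Finset.range (2 * N), a n t * f n t) (Icc 0 T) :=
    (continuousOn_const.mul hcD).add (continuousOn_const.mul hcF)
  have hiM' : IntervalIntegrable (fun t => -(2 * ν) * Dd lam N (fun k => a k t) +
      2 * ∑ n ∈ Finset.range (2 * N), a n t * f n t) volume 0 T := by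
    apply ContinuousOn.intervalIntegrable
    rwa [huIcc]
  have hftc := intervalIntegral.integral_eq_sub_of_hasDerivAt_of_le hT hcM
    (fun t ht => (hder t (Ioo_subset_Icc_self ht)).hasDerivAt (Icc_mem_nhds ht.1 ht.2)) hiM'
  have h1 : ∫ t in (0 : ℝ)..T, (2 * ν) * Dd lam N (fun k => a k t) ≤
      ∫ t in (0 : ℝ)..T, ((R1 + F') - (-(2 * ν) * Dd lam N (fun k => a k t) +
        2 * ∑ n ∈ Finset.range (2 * N), a n t * f n t)) := by
    refine intervalIntegral.integral_mono_on hT (hiD.const_mul _)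
      (_root_.intervalIntegrable_const.sub hiM') fun t ht => ?_
    have := hrhs t ht
    have := hMb t ht
    linarith
  rw [intervalIntegral.integral_sub _root_.intervalIntegrable_const hiM', hftc,
    intervalIntegral.integral_const, intervalIntegral.integral_const_mul, smul_eq_mul, sub_zero] at h1
  have h2 : ∫ t in (0 : ℝ)..T, Dd lam N (fun k => a k t) ≤ (A' + (R1 + F') * T) / (2 * ν) := by
    rw [le_div_iff₀ (by positivity)]
    have h3 := hM0 T
    have h4 : A ≤ A' := le_max_left _ _
    linarith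
  have h3 : ∫ t in (0 : ℝ)..T, En lam N (fun k => a k t) ≤
      ∫ t in (0 : ℝ)..T, K * Dd lam N (fun k => a k t) := by
    refine intervalIntegral.integral_mono_on hT hiE (hiD.const_mul _) fun t _ => ?_
    unfold En Dd
    rw [Finset.mul_sum]
    refine Finset.sum_le_sum fun n _ => ?_
    rw [← mul_assoc]
    exact mul_le_mul_of_nonneg_right (hD.cmp n) (sq_nonneg _)
  rw [intervalIntegral.integral_const_mul] at h3
  have h4 : K * ∫ t in (0 : ℝ)..T, Dd lam N (fun k => a k t) ≤ R2 :=
    mul_le_mul_of_nonneg_left h2 (by linarith)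
  linarith

end Pool.Agent.U401.DD
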