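import Mathlib
import Pool.Agent.U401.DD.Stm3
import Pool.Agent.U401.DD.CNV
import Pool.Agent.U401.DD.ENG

/-!
# Project DD, package TDA: the solution is Lipschitz at time `0`

Co-authors: helper401 (project, statement, plan of the proof), helper312 (this package).
-/

set_option autoImplicit false
set_option linter.unusedSectionVars false

open MeasureTheory ProbabilityTheory Set Filter Topology
open scoped InnerProductSpace

namespace Pool.Agent.U401.DD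

open H772R2.NSR

namespace PTDA

/-- partial sums of the expansion of `v` -/
noncomputable def PS {H E : Type} [NormedAddCommGroup H] [InnerProductSpace ℝ H]
    [NormedAddCommGroup E] [InnerProductSpace ℝ E] (w : ℕ → H) (e : ℕ → E) (v : H) (N : ℕ) : E :=
  ∑ n ∈ Finset.range (2 * N), ⟪w n, v⟫_ℝ • e n

variable {H K : Type} [NormedAddCommGroup H] [InnerProductSpace ℝ H] [CompleteSpace H]
  [NormedAddCommGroup K] [InnerProductSpace ℝ K] [CompleteSpace K]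
  {W : Submodule ℝ (H × K)} {m : H → K} {C : ℝ} {w : ℕ → H} {g : ℕ → K} {lam : ℕ → ℝ}

theorem two_tendsto : Tendsto (fun N : ℕ => 2 * N) atTop atTop :=
  tendsto_atTop_mono (fun N => by show N ≤ 2 * N; omega) tendsto_id

theorem PS_w_lim (hB : Bas W w g lam) (p : H × K) (hp : p ∈ W) :
    Tendsto (PS w w p.1) atTop (𝓝 p.1) := by
  have h1 := (CNV.parseval w hB.orth p.1 (hB.dens p hp)).tendsto_sum_nat
  exact h1.comp two_tendsto

theorem PS_g_lim (hF : Frame W m C) (hB : Bas W w g lam) (p : H × K) (hp : p ∈ W) :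
    Tendsto (PS w g p.1) atTop (𝓝 p.2) := by
  have h0 := CNV.parseval w hB.orth p.1 (hB.dens p hp)
  have hs : ∀ s : Finset ℕ, ∑ n ∈ s, ‖⟪w n, p.1⟫_ℝ • g n‖ ^ 2 ≤ ‖p.2‖ ^ 2 := by
    intro s
    rw [Finset.sum_congr rfl fun n _ => CNV.norm_smul_g hB (fun n => ⟪w n, p.1⟫_ℝ) n]
    exact CNV.bessel hB s p hp
  obtain ⟨z', hz⟩ := CNV.summ _ (CNV.orth_g hB fun n => ⟪w n, p.1⟫_ℝ) _ hs
  have hW : (p.1, z') ∈ W := by
    have h1 : Tendsto (fun s : Finset ℕ => (∑ n ∈ s, ⟪w n, p.1⟫_ℝ • w n,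
        ∑ n ∈ s, ⟪w n, p.1⟫_ℝ • g n)) atTop (𝓝 (p.1, z')) := Filter.Tendsto.prodMk_nhds h0 hz
    refine hF.closedW.mem_of_tendsto h1 (Eventually.of_forall fun s => ?_)
    have h2 : (∑ n ∈ s, ⟪w n, p.1⟫_ℝ • w n, ∑ n ∈ s, ⟪w n, p.1⟫_ℝ • g n)
        = ∑ n ∈ s, ⟪w n, p.1⟫_ℝ • ((w n, g n) : H × K) := by
      refine Prod.ext ?_ ?_
      · rw [Prod.fst_sum]
        rfl
      · rw [Prod.snd_sum]
        rfl
    rw [SetLike.mem_coe, h2]
    exact Submodule.sum_mem _ fun n _ => Submodule.smul_mem _ _ (hB.mem n)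
  have h3 : z' = p.2 := by
    have h4 : ((0 : H), z' - p.2) ∈ W := by
      have := W.sub_mem hW hp
      have e : ((p.1, z') : H × K) - p = (0, z' - p.2) := by
        refine Prod.ext ?_ ?_
        · simp
        · simp
      rwa [e] at this
    exact sub_eq_zero.1 (hF.uniq _ h4 rfl)
  rw [← h3]
  exact hz.tendsto_sum_nat.comp two_tendsto

theorem PS_w_sq (hB : Bas W w g lam) (v : H) (N : ℕ) :
    ‖PS w w v N‖ ^ 2 = ∑ n ∈ Finset.range (2 * N), ⟪w n, v⟫_ℝ ^ 2 := by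
  unfold PS
  rw [CNV.norm_sum_sq _ (CNV.orth_smul w hB.orth fun n => ⟪w n, v⟫_ℝ)]
  refine Finset.sum_congr rfl fun n _ => ?_
  rw [norm_smul, hB.orth.1, mul_one, Real.norm_eq_abs, sq_abs]

theorem PS_g_sq (hB : Bas W w g lam) (v : H) (N : ℕ) :
    ‖PS w g v N‖ ^ 2 = ∑ n ∈ Finset.range (2 * N), lam n * ⟪w n, v⟫_ℝ ^ 2 := by
  unfold PS
  rw [CNV.norm_sum_sq _ (CNV.orth_g hB fun n => ⟪w n, v⟫_ℝ)]
  exact Finset.sum_congr rfl fun n _ => CNV.norm_smul_g hB (fun n => ⟪w n, v⟫_ℝ) n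

theorem PS_g_le (hB : Bas W w g lam) (p : H × K) (hp : p ∈ W) (N : ℕ) :
    ‖PS w g p.1 N‖ ≤ ‖p.2‖ := by
  refine le_of_sq_le_sq ?_ (norm_nonneg _)
  rw [PS_g_sq hB]
  exact CNV.bessel hB _ p hp

theorem PS_w_le (hB : Bas W w g lam) (v : H) (N : ℕ) : ‖PS w w v N‖ ≤ ‖v‖ := by
  refine le_of_sq_le_sq ?_ (norm_nonneg _)
  rw [PS_w_sq hB]
  have h := hB.orth.sum_inner_products_le v (s := Finset.range (2 * N))
  refine le_trans (le_of_eq (Finset.sum_congr rfl fun n _ => ?_)) h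
  rw [Real.norm_eq_abs, sq_abs]

theorem cont_m (hF : Frame W m C) {x : ℝ → H} {z : ℝ → K} {T R : ℝ}
    (hmem : ∀ t ∈ Icc 0 T, (x t, z t) ∈ W) (hR : ∀ t ∈ Icc 0 T, ‖z t‖ ≤ R)
    (hx : ContinuousOn x (Icc 0 T)) : ContinuousOn (fun t => m (x t)) (Icc 0 T) := by
  intro t ht
  have hC := hF.C0
  have h1 : Tendsto (fun s => C * (‖x s - x t‖ * (2 * R) ^ 3 * (2 * R) ^ 4)) (𝓝[Icc 0 T] t)
      (𝓝 0) := by
    have h2 : Tendsto (fun s => ‖x s - x t‖) (𝓝[Icc 0 T] t) (𝓝 0) :=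
      tendsto_iff_norm_sub_tendsto_zero.1 (hx t ht)
    have h3 := (((h2.mul_const ((2 * R) ^ 3)).mul_const ((2 * R) ^ 4)).const_mul C)
    simpa using h3
  refine tendsto_iff_norm_sub_tendsto_zero.2 ?_
  rw [Metric.tendsto_nhds]
  intro ε hε
  filter_upwards [h1.eventually (gt_mem_nhds (show (0 : ℝ) < ε ^ 4 by positivity)),
    self_mem_nhdsWithin] with s hs hsT
  rw [dist_zero_right, norm_norm]
  refine lt_of_pow_lt_pow_left₀ 4 hε.le (lt_of_le_of_lt ?_ hs)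
  refine (hF.lips _ (hmem s hsT) _ (hmem t ht)).trans ?_
  refine mul_le_mul_of_nonneg_left ?_ hC.le
  simp only
  have a1 := hR s hsT
  have a2 := hR t ht
  have h4 : ‖z s - z t‖ ≤ 2 * R := (norm_sub_le _ _).trans (by linarith)
  have h5 : ‖z s - z t‖ ^ 3 ≤ (2 * R) ^ 3 := pow_le_pow_left₀ (norm_nonneg _) h4 3
  have h6 : (‖z s‖ + ‖z t‖) ^ 4 ≤ (2 * R) ^ 4 :=
    pow_le_pow_left₀ (by positivity) (by linarith) 4
  exact mul_le_mul (mul_le_mul_of_nonneg_left h5 (norm_nonneg _)) h6 (by positivity)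
    (mul_nonneg (norm_nonneg _) (le_trans (by positivity) h5))

theorem rot_sub (om a b : ℕ → ℝ) (n : ℕ) :
    rot om (fun k => a k - b k) n = rot om a n - rot om b n := by
  unfold rot
  split_ifs <;> ring

/-- the elementary inequality for the nonlinear term -/
theorem young {ν C a b M ζ : ℝ} (hν : 0 < ν) (hC : 0 < C) (hM : M ^ 2 ≤ C * (a * b ^ 3)) :
    2 * M * ζ ≤ 2 * ν * b ^ 2 + ζ ^ 4 * C ^ 2 / (4 * ν ^ 3) * a ^ 2 := by
  set A := ζ ^ 4 * C ^ 2 / (4 * ν ^ 3) with hA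
  have hA0 : 0 ≤ A := by positivity
  have hAe : 4 * ν * A = (ζ ^ 2 * C / ν) ^ 2 := by
    rw [hA]
    field_simp
  set q := ζ ^ 2 * C / ν with hq
  have hqe : ν * q = ζ ^ 2 * C := by
    rw [hq]
    field_simp
  have h1 : (2 * M * ζ) ^ 2 ≤ (2 * ν * b ^ 2 + A * a ^ 2) ^ 2 := by
    have h2 : (2 * M * ζ) ^ 2 ≤ 4 * ζ ^ 2 * (C * (a * b ^ 3)) := by
      calc (2 * M * ζ) ^ 2 = 4 * ζ ^ 2 * M ^ 2 := by ring
        _ ≤ _ := mul_le_mul_of_nonneg_left hM (by positivity)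
    have h3 : 4 * ζ ^ 2 * (C * (a * b ^ 3)) = 4 * (ν * q) * (a * b ^ 3) := by
      rw [hqe]
      ring
    have h4 : 4 * (ν * q) * (a * b ^ 3) ≤ b ^ 2 * ((2 * ν * b) ^ 2 + (q * a) ^ 2) := by
      have h5 : 0 ≤ b ^ 2 * (2 * ν * b - q * a) ^ 2 := by positivity
      nlinarith [h5]
    have h6 : b ^ 2 * ((2 * ν * b) ^ 2 + (q * a) ^ 2)
        = 4 * ν ^ 2 * b ^ 4 + 4 * ν * A * a ^ 2 * b ^ 2 := by
      rw [hAe]
      ring
    have h7 : 0 ≤ (A * a ^ 2) ^ 2 := by positivity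
    calc (2 * M * ζ) ^ 2 ≤ 4 * ν ^ 2 * b ^ 4 + 4 * ν * A * a ^ 2 * b ^ 2 := by
          rw [← h6]
          exact h2.trans (h3.le.trans h4)
      _ ≤ (2 * ν * b ^ 2 + A * a ^ 2) ^ 2 := by nlinarith [h7]
  exact le_of_sq_le_sq h1 (by positivity)

/-- the time derivative of the energy of the partial sums -/
noncomputable def ph (m : H → K) (w : ℕ → H) (g : ℕ → K) (ν : ℝ) (F : ℝ → H) (u₀ : H) (x : ℝ → H)
    (N : ℕ) (t : ℝ) : ℝ :=
  -2 * ν * ‖PS w g (x t - u₀) N‖ ^ 2 + 2 * ⟪m (x t) - m u₀, PS w g (x t - u₀) N⟫_ℝ +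
    2 * ⟪PS w w (x t - u₀) N, F t⟫_ℝ

theorem deriv_PS (hB : Bas W w g lam) {om : ℕ → ℝ} {ν ε : ℝ} {f : ℝ → H} {u₀ h : H}
    {x : ℝ → H} {z : ℝ → K} (hS : IsSolA W m w g lam om ν ε f u₀ x z)
    (hh : ∀ n, -ν * lam n * ⟪w n, u₀⟫_ℝ + ⟪m u₀, g n⟫_ℝ + ⟪w n, f 0⟫_ℝ +
      ε * rot om (fun k => ⟪w k, u₀⟫_ℝ) n = ⟪w n, h⟫_ℝ) (N : ℕ) (t : ℝ) (ht : 0 ≤ t) :
    HasDerivWithinAt (fun s => ‖PS w w (x s - u₀) N‖ ^ 2)
      (ph m w g ν (fun s => f s - f 0 + h) u₀ x N t) (Ici 0) t := by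
  have hd : ∀ n, HasDerivWithinAt (fun s => ⟪w n, x s - u₀⟫_ℝ)
      (-ν * lam n * ⟪w n, x t - u₀⟫_ℝ + ⟪m (x t) - m u₀, g n⟫_ℝ + ⟪w n, f t - f 0 + h⟫_ℝ +
        ε * rot om (fun k => ⟪w k, x t - u₀⟫_ℝ) n) (Ici 0) t := by
    intro n
    have h1 := (hS.eqn n t ht).sub_const ⟪w n, u₀⟫_ℝ
    have h2 := hh n
    have e1 : (fun k => ⟪w k, x t - u₀⟫_ℝ) = fun k => ⟪w k, x t⟫_ℝ - ⟪w k, u₀⟫_ℝ := by
      funext k
      rw [inner_sub_right]
    have e2 : -ν * lam n * ⟪w n, x t - u₀⟫_ℝ + ⟪m (x t) - m u₀, g n⟫_ℝ + ⟪w n, f t - f 0 + h⟫_ℝ +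
        ε * rot om (fun k => ⟪w k, x t - u₀⟫_ℝ) n = -ν * lam n * ⟪w n, x t⟫_ℝ +
        ⟪m (x t), g n⟫_ℝ + ⟪w n, f t⟫_ℝ + ε * rot om (fun k => ⟪w k, x t⟫_ℝ) n := by
      rw [e1, rot_sub, inner_sub_right, inner_sub_left, inner_add_right, inner_sub_right, ← h2]
      ring
    rw [e2]
    refine h1.congr (fun s _ => ?_) ?_
    · rw [inner_sub_right]
    · rw [inner_sub_right]
  have h3 := HasDerivWithinAt.fun_sum (u := Finset.range (2 * N)) (fun n _ => (hd n).pow 2)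
  have e3 : (fun s => ‖PS w w (x s - u₀) N‖ ^ 2)
      = fun s => ∑ n ∈ Finset.range (2 * N), ⟪w n, x s - u₀⟫_ℝ ^ 2 := by
    funext s
    exact PS_w_sq hB _ _
  rw [e3]
  refine h3.congr_deriv ?_
  have e4 : ⟪m (x t) - m u₀, PS w g (x t - u₀) N⟫_ℝ
      = ∑ n ∈ Finset.range (2 * N), ⟪w n, x t - u₀⟫_ℝ * ⟪m (x t) - m u₀, g n⟫_ℝ := by
    unfold PS
    rw [inner_sum]
    refine Finset.sum_congr rfl fun n _ => ?_
    rw [real_inner_smul_right]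
  have e5 : ⟪PS w w (x t - u₀) N, f t - f 0 + h⟫_ℝ
      = ∑ n ∈ Finset.range (2 * N), ⟪w n, x t - u₀⟫_ℝ * ⟪w n, f t - f 0 + h⟫_ℝ := by
    unfold PS
    rw [sum_inner]
    refine Finset.sum_congr rfl fun n _ => ?_
    rw [real_inner_smul_left]
  have e6 := ENG.rot_zero om (fun k => ⟪w k, x t - u₀⟫_ℝ) N
  unfold ph
  rw [PS_g_sq hB, e4, e5]
  have e7 : ∑ n ∈ Finset.range (2 * N), (((2 : ℕ) : ℝ) * ⟪w n, x t - u₀⟫_ℝ ^ (2 - 1) *
      (-ν * lam n * ⟪w n, x t - u₀⟫_ℝ + ⟪m (x t) - m u₀, g n⟫_ℝ + ⟪w n, f t - f 0 + h⟫_ℝ +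
        ε * rot om (fun k => ⟪w k, x t - u₀⟫_ℝ) n))
      = -2 * ν * (∑ n ∈ Finset.range (2 * N), lam n * ⟪w n, x t - u₀⟫_ℝ ^ 2) +
        2 * (∑ n ∈ Finset.range (2 * N), ⟪w n, x t - u₀⟫_ℝ * ⟪m (x t) - m u₀, g n⟫_ℝ) +
        2 * (∑ n ∈ Finset.range (2 * N), ⟪w n, x t - u₀⟫_ℝ * ⟪w n, f t - f 0 + h⟫_ℝ) +
        2 * ε * (∑ n ∈ Finset.range (2 * N),
          ⟪w n, x t - u₀⟫_ℝ * rot om (fun k => ⟪w k, x t - u₀⟫_ℝ) n) := by
    rw [Finset.mul_sum, Finset.mul_sum, Finset.mul_sum, Finset.mul_sum,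
      ← Finset.sum_add_distrib, ← Finset.sum_add_distrib, ← Finset.sum_add_distrib]
    refine Finset.sum_congr rfl fun n _ => ?_
    push_cast
    ring
  rw [e7, e6]
  ring

/-- the integral inequality -/
theorem int_le (hF : Frame W m C) (hB : Bas W w g lam) {om : ℕ → ℝ} {ν ε : ℝ} {f : ℝ → H}
    {u₀ h : H} {x : ℝ → H} {z : ℝ → K} (hν : 0 < ν) (hf : ContinuousOn f (Ici 0))
    (hS : IsSolA W m w g lam om ν ε f u₀ x z)
    (hh : ∀ n, -ν * lam n * ⟪w n, u₀⟫_ℝ + ⟪m u₀, g n⟫_ℝ + ⟪w n, f 0⟫_ℝ +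
      ε * rot om (fun k => ⟪w k, u₀⟫_ℝ) n = ⟪w n, h⟫_ℝ) (T : ℝ) (hT : 0 ≤ T) :
    ∃ A c : ℝ, 0 ≤ A ∧ 0 ≤ c ∧ ∀ t ∈ Icc 0 T, ‖x t - u₀‖ ^ 2 ≤
      ∫ s in (0 : ℝ)..t, (A * ‖x s - u₀‖ ^ 2 + 2 * c * ‖x s - u₀‖) := by
  have hC := hF.C0
  set F : ℝ → H := fun s => f s - f 0 + h with hFdef
  have hsub : Icc (0 : ℝ) T ⊆ Ici 0 := fun t ht => ht.1
  have hFc : ContinuousOn F (Icc 0 T) := ((hf.mono hsub).sub continuousOn_const).add
    continuousOn_const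
  have hxc : ContinuousOn x (Icc 0 T) := hS.cont.mono hsub
  have hvc : ContinuousOn (fun s => x s - u₀) (Icc 0 T) := hxc.sub continuousOn_const
  obtain ⟨R, hR⟩ := hS.bdd T
  have hmc0 : ContinuousOn (fun s => m (x s)) (Icc 0 T) :=
    cont_m hF (fun t ht => hS.mem t ht.1) hR hxc
  have hmc : ContinuousOn (fun s => m (x s) - m u₀) (Icc 0 T) := hmc0.sub continuousOn_const
  obtain ⟨c, hc⟩ := isCompact_Icc.exists_bound_of_continuousOn hFc
  obtain ⟨M, hM⟩ := isCompact_Icc.exists_bound_of_continuousOn hmc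
  obtain ⟨Sb, hSb⟩ := isCompact_Icc.exists_bound_of_continuousOn hvc
  have h0T : (0 : ℝ) ∈ Icc 0 T := ⟨le_rfl, hT⟩
  have hc0 : 0 ≤ c := (norm_nonneg _).trans (hc 0 h0T)
  have hM0 : 0 ≤ M := (norm_nonneg _).trans (hM 0 h0T)
  have hSb0 : 0 ≤ Sb := (norm_nonneg _).trans (hSb 0 h0T)
  have hR0 : 0 ≤ R := (norm_nonneg _).trans (hR 0 h0T)
  have hu : (u₀, z 0) ∈ W := by
    have := hS.mem 0 le_rfl
    rwa [hS.init] at this
  have hp : ∀ t, 0 ≤ t → ((x t - u₀, z t - z 0) : H × K) ∈ W := fun t ht =>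
    W.sub_mem (hS.mem t ht) hu
  set A := ‖z 0‖ ^ 4 * C ^ 2 / (4 * ν ^ 3) with hA
  have hA0 : 0 ≤ A := by positivity
  refine ⟨A, c, hA0, hc0, fun t ht => ?_⟩
  set ψ : ℝ → ℝ := fun s => A * ‖x s - u₀‖ ^ 2 + 2 * c * ‖x s - u₀‖ with hψ
  have hψc : ContinuousOn ψ (Icc 0 T) :=
    ((hvc.norm.pow 2).const_mul A).add (hvc.norm.const_mul (2 * c))
  -- continuity of the coefficients
  have hcc : ∀ n, ContinuousOn (fun s => ⟪w n, x s - u₀⟫_ℝ) (Icc 0 T) := fun n =>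
    continuousOn_const.inner hvc
  have hGc : ∀ N, ContinuousOn (fun s => PS w g (x s - u₀) N) (Icc 0 T) := fun N =>
    continuousOn_finsetSum _ fun n _ => (hcc n).smul continuousOn_const
  have hVc : ∀ N, ContinuousOn (fun s => PS w w (x s - u₀) N) (Icc 0 T) := fun N =>
    continuousOn_finsetSum _ fun n _ => (hcc n).smul continuousOn_const
  have hphc : ∀ N, ContinuousOn (ph m w g ν F u₀ x N) (Icc 0 T) := fun N =>
    ((((hGc N).norm.pow 2).const_mul (-2 * ν)).add ((hmc.inner (hGc N)).const_mul 2)).add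
      (((hVc N).inner hFc).const_mul 2)
  have hsubt : Icc (0 : ℝ) t ⊆ Icc 0 T := Icc_subset_Icc le_rfl ht.2
  have hsubI : uIoc (0 : ℝ) t ⊆ Icc 0 T := by
    rw [uIoc_of_le ht.1]
    exact fun s hs => ⟨hs.1.le, hs.2.trans ht.2⟩
  -- the identity for the partial sums
  have hid : ∀ N, ‖PS w w (x t - u₀) N‖ ^ 2 = ∫ s in (0 : ℝ)..t, ph m w g ν F u₀ x N s := by
    intro N
    have h1 := intervalIntegral.integral_eq_sub_of_hasDerivAt_of_le ht.1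
      (f := fun s => ‖PS w w (x s - u₀) N‖ ^ 2) (f' := ph m w g ν F u₀ x N)
      (((hVc N).norm.pow 2).mono hsubt)
      (fun s hs => (deriv_PS hB hS hh N s hs.1.le).hasDerivAt (Ici_mem_nhds hs.1))
      (((hphc N).mono hsubt).intervalIntegrable_of_Icc ht.1)
    rw [h1]
    have h2 : PS w w (x 0 - u₀) N = 0 := by
      unfold PS
      rw [hS.init, sub_self]
      simp
    simp only [h2]
    simp
  -- the limit
  have hlim1 : Tendsto (fun N => ‖PS w w (x t - u₀) N‖ ^ 2) atTop (𝓝 (‖x t - u₀‖ ^ 2)) :=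
    ((PS_w_lim hB _ (hp t ht.1)).norm).pow 2
  set Bd : ℝ := 2 * ν * (2 * R) ^ 2 + 2 * (M * (2 * R)) + 2 * (Sb * c) + (A * Sb ^ 2 + 2 * c * Sb)
    with hBd
  have hzz : ∀ s ∈ Icc 0 T, ‖z s - z 0‖ ≤ 2 * R := fun s hs => by
    have h1 := hR s hs
    have h2 := hR 0 h0T
    exact (norm_sub_le _ _).trans (by linarith)
  have hψb : ∀ s ∈ Icc 0 T, 0 ≤ ψ s ∧ ψ s ≤ A * Sb ^ 2 + 2 * c * Sb := by
    intro s hs
    have h1 := hSb s hs
    have h0 := norm_nonneg (x s - u₀)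
    refine ⟨by positivity, ?_⟩
    simp only [hψ]
    gcongr
  have hphb : ∀ N, ∀ s ∈ Icc 0 T, |ph m w g ν F u₀ x N s| ≤
      2 * ν * (2 * R) ^ 2 + 2 * (M * (2 * R)) + 2 * (Sb * c) := by
    intro N s hs
    have h1 : ‖PS w g (x s - u₀) N‖ ≤ 2 * R :=
      (PS_g_le hB _ (hp s hs.1) N).trans (hzz s hs)
    have h2 : ‖PS w w (x s - u₀) N‖ ≤ Sb := (PS_w_le hB _ N).trans (hSb s hs)
    have h3 : |⟪m (x s) - m u₀, PS w g (x s - u₀) N⟫_ℝ| ≤ M * (2 * R) :=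
      (abs_real_inner_le_norm _ _).trans (mul_le_mul (hM s hs) h1 (norm_nonneg _) hM0)
    have h4 : |⟪PS w w (x s - u₀) N, F s⟫_ℝ| ≤ Sb * c :=
      (abs_real_inner_le_norm _ _).trans (mul_le_mul h2 (hc s hs) (norm_nonneg _) hSb0)
    have h5 : ‖PS w g (x s - u₀) N‖ ^ 2 ≤ (2 * R) ^ 2 := pow_le_pow_left₀ (norm_nonneg _) h1 2
    have h6 : |-2 * ν * ‖PS w g (x s - u₀) N‖ ^ 2| ≤ 2 * ν * (2 * R) ^ 2 := by
      rw [abs_mul, abs_of_nonneg (sq_nonneg ‖PS w g (x s - u₀) N‖),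
        show |-2 * ν| = 2 * ν by rw [show -2 * ν = -(2 * ν) by ring, abs_neg,
          abs_of_nonneg (by positivity)]]
      exact mul_le_mul_of_nonneg_left h5 (by positivity)
    unfold ph
    calc |-2 * ν * ‖PS w g (x s - u₀) N‖ ^ 2 + 2 * ⟪m (x s) - m u₀, PS w g (x s - u₀) N⟫_ℝ +
          2 * ⟪PS w w (x s - u₀) N, F s⟫_ℝ|
        ≤ |-2 * ν * ‖PS w g (x s - u₀) N‖ ^ 2| +
          |2 * ⟪m (x s) - m u₀, PS w g (x s - u₀) N⟫_ℝ| +
          |2 * ⟪PS w w (x s - u₀) N, F s⟫_ℝ| := abs_add_three _ _ _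
      _ ≤ _ := by
          rw [abs_mul 2, abs_mul 2, abs_of_pos (show (0 : ℝ) < 2 by norm_num)]
          linarith
  have hkey : ∀ s ∈ Icc 0 T, -2 * ν * ‖z s - z 0‖ ^ 2 + 2 * ⟪m (x s) - m u₀, z s - z 0⟫_ℝ +
      2 * ⟪x s - u₀, F s⟫_ℝ ≤ ψ s := by
    intro s hs
    have h1 := hF.anti _ (hS.mem s hs.1) _ hu
    simp only at h1
    have h2 : |⟪m (x s - u₀), z 0⟫_ℝ| ≤ ‖m (x s - u₀)‖ * ‖z 0‖ := abs_real_inner_le_norm _ _
    have h3 := young (ζ := ‖z 0‖) hν hC (hF.quart _ (hp s hs.1))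
    simp only at h3
    have h4 : ⟪x s - u₀, F s⟫_ℝ ≤ ‖x s - u₀‖ * c :=
      (real_inner_le_norm _ _).trans (mul_le_mul_of_nonneg_left (hc s hs) (norm_nonneg _))
    have h5 : -⟪m (x s - u₀), z 0⟫_ℝ ≤ ‖m (x s - u₀)‖ * ‖z 0‖ := (neg_le_abs _).trans h2
    rw [h1]
    simp only [hψ]
    rw [← hA] at h3
    nlinarith [h3, h4, h5]
  have hlim2 : Tendsto (fun N => ∫ s in (0 : ℝ)..t, max (ph m w g ν F u₀ x N s) (ψ s)) atTop
      (𝓝 (∫ s in (0 : ℝ)..t, ψ s)) := by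
    refine intervalIntegral.tendsto_integral_filter_of_dominated_convergence (fun _ => Bd) ?_ ?_
      intervalIntegrable_const ?_
    · refine Eventually.of_forall fun N => ?_
      have h1 : ContinuousOn (fun s => max (ph m w g ν F u₀ x N s) (ψ s)) (uIoc (0 : ℝ) t) :=
        ((hphc N).sup hψc).mono hsubI
      exact h1.aestronglyMeasurable measurableSet_uIoc
    · refine Eventually.of_forall fun N => Eventually.of_forall fun s hs => ?_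
      have h1 := hphb N s (hsubI hs)
      have h2 := hψb s (hsubI hs)
      have h3 := abs_le.1 h1
      rw [Real.norm_eq_abs, abs_le]
      constructor
      · refine le_trans ?_ (le_max_right _ _)
        have : 0 ≤ Bd := by positivity
        linarith [h2.1]
      · refine max_le ?_ ?_
        · have : 0 ≤ A * Sb ^ 2 + 2 * c * Sb := by positivity
          linarith [h3.2]
        · have : 0 ≤ 2 * ν * (2 * R) ^ 2 + 2 * (M * (2 * R)) + 2 * (Sb * c) := by positivity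
          linarith [h2.2]
    · refine Eventually.of_forall fun s hs => ?_
      have hs' := hsubI hs
      have hG := PS_g_lim hF hB _ (hp s hs'.1)
      have hV := PS_w_lim hB _ (hp s hs'.1)
      simp only at hG hV
      have h1 : Tendsto (fun N => ph m w g ν F u₀ x N s) atTop
          (𝓝 (-2 * ν * ‖z s - z 0‖ ^ 2 + 2 * ⟪m (x s) - m u₀, z s - z 0⟫_ℝ +
            2 * ⟪x s - u₀, F s⟫_ℝ)) :=
        (((hG.norm.pow 2).const_mul (-2 * ν)).add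
          ((tendsto_const_nhds.inner hG).const_mul 2)).add
          ((hV.inner tendsto_const_nhds).const_mul 2)
      have h2 := h1.max (tendsto_const_nhds (x := ψ s))
      rwa [max_eq_right (hkey s hs')] at h2
  refine le_of_tendsto_of_tendsto hlim1 hlim2 (Eventually.of_forall fun N => ?_)
  simp only [hid N]
  refine intervalIntegral.integral_mono_on ht.1
    (((hphc N).mono hsubt).intervalIntegrable_of_Icc ht.1)
    ((((hphc N).sup hψc).mono hsubt).intervalIntegrable_of_Icc ht.1)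
    fun s _ => le_max_left _ _

end PTDA

theorem t_TDA : S_TDA := by
  intro H K _ _ _ _ _ _ W m C w g lam hF hB om ν ε f u₀ x z hν hf hS hcomp T
  obtain ⟨h, hh⟩ := hcomp
  by_cases hT : 0 ≤ T
  swap
  · exact ⟨0, fun t ht => absurd (ht.1.trans ht.2) hT⟩
  obtain ⟨A, c, hA, hc, hI⟩ := PTDA.int_le hF hB hν hf hS hh T hT
  have hsub : Icc (0 : ℝ) T ⊆ Ici 0 := fun t ht => ht.1
  have hvc : ContinuousOn (fun s => x s - u₀) (Icc 0 T) := (hS.cont.mono hsub).sub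
    continuousOn_const
  obtain ⟨Sb, hSb⟩ := isCompact_Icc.exists_bound_of_continuousOn hvc
  have hSb0 : 0 ≤ Sb := (norm_nonneg _).trans (hSb 0 ⟨le_rfl, hT⟩)
  refine ⟨4 * c + 2 * A * Sb, fun t ht => ?_⟩
  have hsubt : Icc (0 : ℝ) t ⊆ Icc 0 T := Icc_subset_Icc le_rfl ht.2
  obtain ⟨r, hr, hmax⟩ := isCompact_Icc.exists_isMaxOn (nonempty_Icc.2 ht.1)
    ((hvc.mono hsubt).norm)
  have hmax' : ∀ s ∈ Icc 0 t, ‖x s - u₀‖ ≤ ‖x r - u₀‖ := fun s hs => hmax hs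
  set S := ‖x r - u₀‖ with hSdef
  have hS0 : 0 ≤ S := norm_nonneg _
  have hrT : r ∈ Icc 0 T := hsubt hr
  have hsubr : Icc (0 : ℝ) r ⊆ Icc 0 T := Icc_subset_Icc le_rfl hrT.2
  have h1 : S ^ 2 ≤ r * (A * S ^ 2 + 2 * c * S) := by
    refine (hI r hrT).trans ?_
    have h2 : ∫ s in (0 : ℝ)..r, (A * ‖x s - u₀‖ ^ 2 + 2 * c * ‖x s - u₀‖) ≤
        ∫ _s in (0 : ℝ)..r, (A * S ^ 2 + 2 * c * S) := by
      refine intervalIntegral.integral_mono_on hr.1 ?_ intervalIntegrable_const fun s hs => ?_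
      · exact ((((hvc.norm.pow 2).const_mul A).add (hvc.norm.const_mul (2 * c))).mono
          hsubr).intervalIntegrable_of_Icc hr.1
      · have h3 := hmax' s ⟨hs.1, hs.2.trans hr.2⟩
        have h4 := norm_nonneg (x s - u₀)
        gcongr
    refine h2.trans (le_of_eq ?_)
    rw [intervalIntegral.integral_const, smul_eq_mul, sub_zero]
  have h5 : S ^ 2 ≤ t * (A * S ^ 2 + 2 * c * S) :=
    h1.trans (mul_le_mul_of_nonneg_right hr.2 (by positivity))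
  have h6 : ‖x t - u₀‖ ≤ S := hmax' t ⟨ht.1, le_rfl⟩
  refine h6.trans ?_
  have ht0 := ht.1
  rcases hS0.lt_or_eq with hSpos | hSz
  · have h7 : S ≤ t * (A * S + 2 * c) := by
      have h8 : S * S ≤ S * (t * (A * S + 2 * c)) := by nlinarith [h5]
      exact le_of_mul_le_mul_left h8 hSpos
    rcases le_or_gt (t * A) (1 / 2) with h9 | h9
    · have h10 : t * A * S ≤ 1 / 2 * S := mul_le_mul_of_nonneg_right h9 hS0
      have h11 : 0 ≤ 2 * A * Sb * t := by positivity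
      nlinarith [h7, h10, h11]
    · have h12 : S ≤ Sb := hSb r hrT
      have h13 : Sb * (1 / 2) ≤ Sb * (t * A) := mul_le_mul_of_nonneg_left h9.le hSb0
      have h14 : 0 ≤ 4 * c * t := by positivity
      nlinarith [h12, h13, h14]
  · rw [← hSz]
    positivity

end Pool.Agent.U401.DD
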