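import Mathlib
import Pool.Agent.U401.DD.Stm5
import Pool.Agent.U401.DD.EXP
import Pool.Agent.U401.DD.TDA

/-!
# Project EE, package WFA: basic facts on weak solutions

Co-authors: helper401 (project, statement, plan of the proof), helper312 (the partial sums of the
package TDA), helper863 (this package).
-/

set_option autoImplicit false
set_option linter.unusedSectionVars false

open MeasureTheory ProbabilityTheory Set Filter Topology
open scoped InnerProductSpace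

namespace Pool.Agent.U401.DD

open H772R2.NSR

namespace PWFA

open PTDA

variable {H K : Type} [NormedAddCommGroup H] [InnerProductSpace ℝ H] [CompleteSpace H]
  [NormedAddCommGroup K] [InnerProductSpace ℝ K] [CompleteSpace K]
  {W : Submodule ℝ (H × K)} {m : H → K} {C : ℝ} {w : ℕ → H} {g : ℕ → K} {lam : ℕ → ℝ}

theorem PS_mem (hB : Bas W w g lam) (v : H) (N : ℕ) : (PS w w v N, PS w g v N) ∈ W :=
  exp_mem hB.mem (fun n => ⟪w n, v⟫_ℝ) (2 * N)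

theorem m_bd (hF : Frame W m C) (p : H × K) (hp : p ∈ W) : ‖m p.1‖ ≤ C * ‖p.2‖ ^ 2 := by
  have hC := hF.C0
  refine le_of_sq_le_sq ?_ (by positivity)
  have h1 := hF.quart p hp
  have h2 := hF.poinc p hp
  calc ‖m p.1‖ ^ 2 ≤ C * (‖p.1‖ * ‖p.2‖ ^ 3) := h1
    _ ≤ C * ((C * ‖p.2‖) * ‖p.2‖ ^ 3) := by gcongr
    _ = (C * ‖p.2‖ ^ 2) ^ 2 := by ring

theorem m_lim (hF : Frame W m C) (hB : Bas W w g lam) (p : H × K) (hp : p ∈ W) :
    Tendsto (fun M => m (PS w w p.1 M)) atTop (𝓝 (m p.1)) := by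
  have hC := hF.C0
  have h1 : Tendsto (fun N => C * (‖PS w w p.1 N - p.1‖ * (2 * ‖p.2‖) ^ 3 * (2 * ‖p.2‖) ^ 4))
      atTop (𝓝 0) := by
    have h2 : Tendsto (fun N => ‖PS w w p.1 N - p.1‖) atTop (𝓝 0) :=
      tendsto_iff_norm_sub_tendsto_zero.1 (PS_w_lim hB p hp)
    have h3 := (((h2.mul_const ((2 * ‖p.2‖) ^ 3)).mul_const ((2 * ‖p.2‖) ^ 4)).const_mul C)
    simpa using h3
  rw [Metric.tendsto_atTop]
  intro ε hε
  obtain ⟨N₀, hN₀⟩ := Filter.eventually_atTop.1 (h1.eventually (gt_mem_nhds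
    (show (0 : ℝ) < ε ^ 4 by positivity)))
  refine ⟨N₀, fun N hN => ?_⟩
  have h4 := hF.lips _ (PS_mem hB p.1 N) _ hp
  simp only at h4
  rw [dist_eq_norm]
  refine lt_of_pow_lt_pow_left₀ 4 hε.le (lt_of_le_of_lt h4 (lt_of_le_of_lt ?_ (hN₀ N hN)))
  refine mul_le_mul_of_nonneg_left ?_ hC.le
  have h6 := PS_g_le hB p hp N
  have h5 : ‖PS w g p.1 N - p.2‖ ^ 3 ≤ (2 * ‖p.2‖) ^ 3 :=
    pow_le_pow_left₀ (norm_nonneg _) ((norm_sub_le _ _).trans (by linarith)) 3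
  have h7 : (‖PS w g p.1 N‖ + ‖p.2‖) ^ 4 ≤ (2 * ‖p.2‖) ^ 4 :=
    pow_le_pow_left₀ (by positivity) (by linarith) 4
  exact mul_le_mul (mul_le_mul_of_nonneg_left h5 (norm_nonneg _)) h7 (by positivity)
    (by positivity)

theorem quad_eq (hE : S_EXP) (hF : Frame W m C) (hQ : Quad W m) (hB : Bas W w g lam) (v : H)
    (N n : ℕ) : quad (betf m w g) N (fun k => ⟪w k, v⟫_ℝ) n = ⟪m (PS w w v N), g n⟫_ℝ := by
  obtain ⟨h, -, -⟩ := hE W m C w g lam hF hQ hB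
  exact (h N (fun k => ⟪w k, v⟫_ℝ) n).symm

theorem quad_lim (hE : S_EXP) (hF : Frame W m C) (hQ : Quad W m) (hB : Bas W w g lam)
    (p : H × K) (hp : p ∈ W) (n : ℕ) :
    Tendsto (fun M => quad (betf m w g) M (fun k => ⟪w k, p.1⟫_ℝ) n) atTop
      (𝓝 ⟪m p.1, g n⟫_ℝ) := by
  simp only [quad_eq hE hF hQ hB]
  exact (m_lim hF hB p hp).inner tendsto_const_nhds

theorem quad_bd (hE : S_EXP) (hF : Frame W m C) (hQ : Quad W m) (hB : Bas W w g lam)
    (p : H × K) (hp : p ∈ W) (M n : ℕ) :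
    |quad (betf m w g) M (fun k => ⟪w k, p.1⟫_ℝ) n| ≤ C * ‖p.2‖ ^ 2 * ‖g n‖ := by
  have hC := hF.C0
  rw [quad_eq hE hF hQ hB]
  refine (abs_real_inner_le_norm _ _).trans (mul_le_mul_of_nonneg_right ?_ (norm_nonneg _))
  refine (m_bd hF _ (PS_mem hB p.1 M)).trans (mul_le_mul_of_nonneg_left ?_ hC.le)
  exact pow_le_pow_left₀ (norm_nonneg _) (PS_g_le hB p hp M) 2

theorem lam_pos (hF : Frame W m C) (hB : Bas W w g lam) (n : ℕ) : 0 < lam n := by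
  have h1 := CNV.lam_low hF hB n
  by_contra h2
  have h3 : C ^ 2 * lam n ≤ 0 := mul_nonpos_of_nonneg_of_nonpos (by positivity) (not_lt.1 h2)
  linarith

theorem bessel_g (hF : Frame W m C) (hB : Bas W w g lam) (s : Finset ℕ) (y : K) :
    ∑ n ∈ s, ⟪y, g n⟫_ℝ ^ 2 / lam n ≤ ‖y‖ ^ 2 := by
  have h1 : 0 ≤ ‖y - ∑ n ∈ s, (⟪y, g n⟫_ℝ / lam n) • g n‖ ^ 2 := by positivity
  rw [norm_sub_sq_real, CNV.norm_sum_sq _ (CNV.orth_g hB _), inner_sum] at h1
  have h2 : ∀ n ∈ s, ⟪y, (⟪y, g n⟫_ℝ / lam n) • g n⟫_ℝ = ⟪y, g n⟫_ℝ ^ 2 / lam n := by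
    intro n _
    rw [real_inner_smul_right]
    ring
  have h3 : ∀ n ∈ s, ‖(⟪y, g n⟫_ℝ / lam n) • g n‖ ^ 2 = ⟪y, g n⟫_ℝ ^ 2 / lam n := by
    intro n _
    rw [CNV.norm_smul_g hB (fun n => ⟪y, g n⟫_ℝ / lam n) n]
    have := (lam_pos hF hB n).ne'
    field_simp
  rw [Finset.sum_congr rfl h2, Finset.sum_congr rfl h3] at h1
  linarith

theorem bessel_w (hB : Bas W w g lam) (s : Finset ℕ) (v : H) :
    ∑ n ∈ s, ⟪w n, v⟫_ℝ ^ 2 ≤ ‖v‖ ^ 2 := by
  have h := hB.orth.sum_inner_products_le v (s := s)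
  refine le_trans (le_of_eq (Finset.sum_congr rfl fun n _ => ?_)) h
  rw [Real.norm_eq_abs, sq_abs]

theorem GG_ge (hF : Frame W m C) (hB : Bas W w g lam) (n : ℕ) :
    1 ≤ GG lam (n / 2) ∧ lam n ≤ GG lam (n / 2) := by
  unfold GG gg
  have h0 := lam_pos hF hB (2 * (n / 2))
  have h1 := lam_pos hF hB (2 * (n / 2) + 1)
  refine ⟨by linarith, ?_⟩
  rcases Nat.even_or_odd' n with ⟨k, rfl | rfl⟩
  · have e : 2 * (2 * k / 2) = 2 * k := by omega
    rw [e] at h0 h1 ⊢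
    linarith
  · have e : 2 * ((2 * k + 1) / 2) = 2 * k := by omega
    rw [e] at h0 h1 ⊢
    linarith

/-- comparison of the weights -/
theorem GG_le (hF : Frame W m C) (hB : Bas W w g lam) :
    ∃ D : ℝ, 0 ≤ D ∧ ∀ n, GG lam (n / 2) ≤ D * lam n := by
  obtain ⟨κ, hκ⟩ := hB.cmp
  refine ⟨C ^ 2 + 1 + |κ|, by positivity, fun n => ?_⟩
  have h1 := CNV.lam_low hF hB n
  have h2 := lam_pos hF hB n
  have h3 : gg lam (n / 2) ≤ (1 + |κ|) * lam n := by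
    unfold gg
    rcases Nat.even_or_odd' n with ⟨k, rfl | rfl⟩
    · have e : 2 * (2 * k / 2) = 2 * k := by omega
      rw [e]
      have h4 := (hκ k).1
      have h5 : κ * lam (2 * k) ≤ |κ| * lam (2 * k) :=
        mul_le_mul_of_nonneg_right (le_abs_self _) h2.le
      linarith
    · have e : 2 * ((2 * k + 1) / 2) = 2 * k := by omega
      rw [e]
      have h4 := (hκ k).2
      have h5 : κ * lam (2 * k + 1) ≤ |κ| * lam (2 * k + 1) :=
        mul_le_mul_of_nonneg_right (le_abs_self _) h2.le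
      linarith
  unfold GG
  calc 1 + gg lam (n / 2) ≤ C ^ 2 * lam n + (1 + |κ|) * lam n := add_le_add h1 h3
    _ = (C ^ 2 + 1 + |κ|) * lam n := by ring

theorem norm_uu_sq (b : ℕ → ℝ) (κ : Ix) :
    ‖uu b κ‖ ^ 2 = b (2 * κ.1) ^ 2 + b (2 * κ.1 + 1) ^ 2 := by
  have h : uu b κ = ((b (2 * κ.1) : ℝ) : ℂ) + ((sg κ.2 * b (2 * κ.1 + 1) : ℝ) : ℂ) * Complex.I := by
    unfold uu
    push_cast
    ring
  rw [h, ← Complex.normSq_eq_norm_sq, Complex.normSq_add_mul_I, mul_pow]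
  have h2 : sg κ.2 ^ 2 = 1 := by
    unfold sg
    split_ifs <;> norm_num
  rw [h2, one_mul]

theorem sum_IxN (b : ℕ → ℝ) (M : ℕ) :
    ∑ κ ∈ IxN M, (‖uu b κ‖ / GG lam κ.1) ^ 2 =
      2 * ∑ n ∈ Finset.range (2 * M), b n ^ 2 / GG lam (n / 2) ^ 2 := by
  unfold IxN
  rw [Finset.sum_product]
  have h1 : ∀ j ∈ Finset.range M, ∑ y : Bool, (‖uu b (j, y)‖ / GG lam j) ^ 2 =
      2 * (b (2 * j) ^ 2 / GG lam j ^ 2 + b (2 * j + 1) ^ 2 / GG lam j ^ 2) := by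
    intro j _
    rw [Fintype.sum_bool, div_pow, div_pow, norm_uu_sq, norm_uu_sq]
    ring
  rw [Finset.sum_congr rfl h1, ← Finset.mul_sum]
  congr 1
  induction M with
  | zero => simp
  | succ M ih =>
    have e : 2 * (M + 1) = 2 * M + 1 + 1 := by ring
    rw [Finset.sum_range_succ, ih (fun j hj => h1 j (Finset.mem_range.2
      ((Finset.mem_range.1 hj).trans (Nat.lt_succ_self M)))), e, Finset.sum_range_succ,
      Finset.sum_range_succ]
    have e1 : 2 * M / 2 = M := by omega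
    have e2 : (2 * M + 1) / 2 = M := by omega
    rw [e1, e2]
    ring

/-- the pointwise bound of the square sum -/
theorem sq_bd (hF : Frame W m C) (hB : Bas W w g lam) (ν : ℝ) (p : H × K) (hp : p ∈ W) (h : H)
    (M : ℕ) {B : ℝ} (hx : ‖p.1‖ ≤ B) :
    ∑ κ ∈ IxN M, (‖uu (fun n => -ν * lam n * ⟪w n, p.1⟫_ℝ + ⟪m p.1, g n⟫_ℝ + ⟪w n, h⟫_ℝ) κ‖ /
      GG lam κ.1) ^ 2 ≤ (3 * (|ν| * B + C * ‖p.2‖ ^ 2 + ‖h‖)) ^ 2 := by
  have hC := hF.C0
  have hB0 : 0 ≤ B := (norm_nonneg _).trans hx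
  rw [sum_IxN]
  have h1 : ∀ n ∈ Finset.range (2 * M),
      (-ν * lam n * ⟪w n, p.1⟫_ℝ + ⟪m p.1, g n⟫_ℝ + ⟪w n, h⟫_ℝ) ^ 2 / GG lam (n / 2) ^ 2 ≤
        3 * (ν ^ 2 * ⟪w n, p.1⟫_ℝ ^ 2 + ⟪m p.1, g n⟫_ℝ ^ 2 / lam n + ⟪w n, h⟫_ℝ ^ 2) := by
    intro n _
    obtain ⟨g1, g2⟩ := GG_ge hF hB n
    have hl := lam_pos hF hB n
    set G := GG lam (n / 2) with hG
    have hG2 : 0 < G ^ 2 := by positivity
    rw [div_le_iff₀ hG2]
    set a := ⟪w n, p.1⟫_ℝ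
    set q := ⟪m p.1, g n⟫_ℝ
    set r := ⟪w n, h⟫_ℝ
    have e1 : (-ν * lam n * a + q + r) ^ 2 ≤ 3 * (ν ^ 2 * a ^ 2 * lam n ^ 2 + q ^ 2 + r ^ 2) := by
      nlinarith [sq_nonneg (-ν * lam n * a - q), sq_nonneg (-ν * lam n * a - r), sq_nonneg (q - r)]
    have e2 : ν ^ 2 * a ^ 2 * lam n ^ 2 ≤ ν ^ 2 * a ^ 2 * G ^ 2 :=
      mul_le_mul_of_nonneg_left (pow_le_pow_left₀ hl.le g2 2) (by positivity)
    have e3 : q ^ 2 ≤ q ^ 2 / lam n * G ^ 2 := by
      rw [div_mul_eq_mul_div, le_div_iff₀ hl]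
      refine mul_le_mul_of_nonneg_left ?_ (sq_nonneg _)
      nlinarith
    have e4 : r ^ 2 ≤ r ^ 2 * G ^ 2 := le_mul_of_one_le_right (sq_nonneg _) (by nlinarith)
    nlinarith
  refine (mul_le_mul_of_nonneg_left (Finset.sum_le_sum h1) zero_le_two).trans ?_
  rw [← Finset.mul_sum, Finset.sum_add_distrib, Finset.sum_add_distrib, ← Finset.mul_sum]
  have f1 := bessel_w hB (Finset.range (2 * M)) p.1
  have f2 := bessel_g hF hB (Finset.range (2 * M)) (m p.1)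
  have f3 := bessel_w hB (Finset.range (2 * M)) h
  have f4 : ‖p.1‖ ^ 2 ≤ B ^ 2 := pow_le_pow_left₀ (norm_nonneg _) hx 2
  have f5 : ‖m p.1‖ ^ 2 ≤ (C * ‖p.2‖ ^ 2) ^ 2 := pow_le_pow_left₀ (norm_nonneg _) (m_bd hF p hp) 2
  have f6 : ν ^ 2 * ∑ n ∈ Finset.range (2 * M), ⟪w n, p.1⟫_ℝ ^ 2 ≤ ν ^ 2 * B ^ 2 :=
    mul_le_mul_of_nonneg_left (f1.trans f4) (sq_nonneg _)
  have f7 : (|ν| * B) ^ 2 = ν ^ 2 * B ^ 2 := by rw [mul_pow, sq_abs]
  have f8 : 0 ≤ |ν| * B := by positivity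
  have f9 : 0 ≤ C * ‖p.2‖ ^ 2 := by positivity
  have f10 := norm_nonneg h
  have f11 : 0 ≤ (|ν| * B) * (C * ‖p.2‖ ^ 2) := mul_nonneg f8 f9
  have f12 : 0 ≤ (|ν| * B) * ‖h‖ := mul_nonneg f8 f10
  have f13 : 0 ≤ (C * ‖p.2‖ ^ 2) * ‖h‖ := mul_nonneg f9 f10
  nlinarith [sq_nonneg (|ν| * B), sq_nonneg (C * ‖p.2‖ ^ 2), sq_nonneg ‖h‖]

section weak

variable {om : ℕ → ℝ} {ν ε T : ℝ} {f : ℝ → H} {x : ℝ → H} {z : ℝ → K}

theorem zint (hS : WeakA W m w g lam om ν ε T f x z) :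
    Integrable (fun s => ‖z s‖ ^ 2) (volume.restrict (Ioc 0 T)) :=
  (memLp_two_iff_integrable_sq_norm hS.gradL2.1).1 hS.gradL2

theorem quad_cont (hS : WeakA W m w g lam om ν ε T f x z) (bet : ℕ → ℕ → ℕ → ℝ) (M n : ℕ) :
    ContinuousOn (fun s => quad bet M (fun k => ⟪w k, x s⟫_ℝ) n) (Icc 0 T) := by
  unfold quad
  refine continuousOn_finsetSum _ fun k _ => continuousOn_finsetSum _ fun l _ => ?_
  exact ((hS.wcont (w k)).const_mul _).mul (hS.wcont (w l))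

theorem nl_meas (hE : S_EXP) (hF : Frame W m C) (hQ : Quad W m) (hB : Bas W w g lam)
    (hS : WeakA W m w g lam om ν ε T f x z) (n : ℕ) :
    AEStronglyMeasurable (fun s => ⟪m (x s), g n⟫_ℝ) (volume.restrict (Ioc 0 T)) := by
  refine aestronglyMeasurable_of_tendsto_ae atTop
    (f := fun M s => quad (betf m w g) M (fun k => ⟪w k, x s⟫_ℝ) n) (fun M => ?_) ?_
  · exact ((quad_cont hS _ M n).mono Ioc_subset_Icc_self).aestronglyMeasurable measurableSet_Ioc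
  · filter_upwards [hS.grad] with s hs
    exact quad_lim hE hF hQ hB (x s, z s) hs n

theorem nl_int (hE : S_EXP) (hF : Frame W m C) (hQ : Quad W m) (hB : Bas W w g lam)
    (hS : WeakA W m w g lam om ν ε T f x z) (n : ℕ) :
    Integrable (fun s => ⟪m (x s), g n⟫_ℝ) (volume.restrict (Ioc 0 T)) := by
  refine Integrable.mono' ((zint hS).const_mul (C * ‖g n‖)) (nl_meas hE hF hQ hB hS n) ?_
  filter_upwards [hS.grad] with s hs
  rw [Real.norm_eq_abs]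
  refine (abs_real_inner_le_norm _ _).trans ?_
  refine (mul_le_mul_of_nonneg_right (m_bd hF _ hs) (norm_nonneg _)).trans (le_of_eq ?_)
  ring

theorem f_int (hf : MemLp f 2 (volume.restrict (Ioc 0 T))) :
    Integrable f (volume.restrict (Ioc 0 T)) := by
  have : IsFiniteMeasure (volume.restrict (Ioc (0 : ℝ) T)) :=
    ⟨by rw [Measure.restrict_apply_univ]; exact measure_Ioc_lt_top⟩
  exact hf.integrable one_le_two

theorem rhs_int (hE : S_EXP) (hF : Frame W m C) (hQ : Quad W m) (hB : Bas W w g lam)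
    (hT : 0 ≤ T) (hf : MemLp f 2 (volume.restrict (Ioc 0 T)))
    (hS : WeakA W m w g lam om ν ε T f x z) (n : ℕ) :
    IntervalIntegrable (fun s => -ν * lam n * ⟪w n, x s⟫_ℝ + ⟪m (x s), g n⟫_ℝ + ⟪w n, f s⟫_ℝ)
      volume 0 T := by
  have h1 : IntervalIntegrable (fun s => -ν * lam n * ⟪w n, x s⟫_ℝ) volume 0 T :=
    ((hS.wcont (w n)).const_mul _).intervalIntegrable_of_Icc hT
  have h2 : IntervalIntegrable (fun s => ⟪m (x s), g n⟫_ℝ) volume 0 T :=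
    (intervalIntegrable_iff_integrableOn_Ioc_of_le hT).2 (nl_int hE hF hQ hB hS n)
  have h3 : IntervalIntegrable (fun s => ⟪w n, f s⟫_ℝ) volume 0 T :=
    (intervalIntegrable_iff_integrableOn_Ioc_of_le hT).2 ((f_int hf).const_inner (w n))
  exact (h1.add h2).add h3

/-- the energy -/
theorem energy (hF : Frame W m C) (hB : Bas W w g lam)
    (hS : WeakA W m w g lam om ν ε T f x z) :
    ∃ Y : ℝ, ∀ M : ℕ, ∀ t ∈ Icc 0 T,
      (∫ s in (0 : ℝ)..t, ∑ n ∈ Finset.range (2 * M), GG lam (n / 2) * ⟪w n, x s⟫_ℝ ^ 2) ≤ Y := by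
  obtain ⟨D, hD, hG⟩ := GG_le hF hB
  refine ⟨∫ s in Ioc 0 T, D * ‖z s‖ ^ 2, fun M t ht => ?_⟩
  rw [intervalIntegral.integral_of_le ht.1]
  have hsub : Ioc (0 : ℝ) t ⊆ Ioc 0 T := Ioc_subset_Ioc_right ht.2
  have hz := (zint hS).const_mul D
  have h1 : ∫ s in Ioc 0 t, ∑ n ∈ Finset.range (2 * M), GG lam (n / 2) * ⟪w n, x s⟫_ℝ ^ 2 ≤
      ∫ s in Ioc 0 t, D * ‖z s‖ ^ 2 := by
    refine integral_mono_ae ?_ (IntegrableOn.mono_set hz hsub) ?_
    · have hc : ContinuousOn (fun s => ∑ n ∈ Finset.range (2 * M),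
          GG lam (n / 2) * ⟪w n, x s⟫_ℝ ^ 2) (Icc 0 t) :=
        (continuousOn_finsetSum _ fun n _ => ((hS.wcont (w n)).pow 2).const_mul _).mono
          (Icc_subset_Icc_right ht.2)
      exact hc.integrableOn_Icc.mono_set Ioc_subset_Icc_self
    · have h2 : ∀ᵐ s ∂(volume.restrict (Ioc 0 t)), (x s, z s) ∈ W :=
        ae_restrict_of_ae_restrict_of_subset hsub hS.grad
      filter_upwards [h2] with s hs
      have h3 := CNV.bessel hB (Finset.range (2 * M)) (x s, z s) hs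
      simp only at h3
      refine le_trans ?_ (mul_le_mul_of_nonneg_left h3 hD)
      rw [Finset.mul_sum]
      refine Finset.sum_le_sum fun n _ => ?_
      rw [← mul_assoc]
      exact mul_le_mul_of_nonneg_right (hG n) (sq_nonneg _)
  refine h1.trans (setIntegral_mono_set hz ?_ (LE.le.eventuallyLE hsub))
  exact Eventually.of_forall fun s => by positivity

theorem conv (hE : S_EXP) (hF : Frame W m C) (hQ : Quad W m) (hB : Bas W w g lam)
    (hS : WeakA W m w g lam om ν ε T f x z) (N : ℕ) (t : ℝ) (ht : t ∈ Icc 0 T) :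
    Tendsto (fun M : ℕ => ∫ s in (0 : ℝ)..t,
      ∑ n ∈ Finset.range (2 * N), ⟪w n, x s⟫_ℝ * quad (betf m w g) M (fun k => ⟪w k, x s⟫_ℝ) n)
      atTop (𝓝 (∫ s in (0 : ℝ)..t,
        ∑ n ∈ Finset.range (2 * N), ⟪w n, x s⟫_ℝ * ⟪m (x s), g n⟫_ℝ)) := by
  have hC := hF.C0
  obtain ⟨B, hBd⟩ := hS.bdd
  have hB0 : 0 ≤ B := (norm_nonneg _).trans (hBd t ht)
  have hsub : Ioc (0 : ℝ) t ⊆ Ioc 0 T := Ioc_subset_Ioc_right ht.2
  have hu : uIoc (0 : ℝ) t = Ioc 0 t := uIoc_of_le ht.1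
  have hW : ∀ᵐ s ∂(volume.restrict (Ioc 0 t)), (x s, z s) ∈ W :=
    ae_restrict_of_ae_restrict_of_subset hsub hS.grad
  have hW' : ∀ᵐ s ∂volume, s ∈ Ioc 0 t → (x s, z s) ∈ W :=
    (ae_restrict_iff' measurableSet_Ioc).1 hW
  refine intervalIntegral.tendsto_integral_filter_of_dominated_convergence
    (fun s => ∑ n ∈ Finset.range (2 * N), B * (C * ‖z s‖ ^ 2 * ‖g n‖)) ?_ ?_ ?_ ?_
  · refine Eventually.of_forall fun M => ?_
    rw [hu]
    have hc : ContinuousOn (fun s => ∑ n ∈ Finset.range (2 * N),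
        ⟪w n, x s⟫_ℝ * quad (betf m w g) M (fun k => ⟪w k, x s⟫_ℝ) n) (Icc 0 T) :=
      continuousOn_finsetSum _ fun n _ => (hS.wcont (w n)).mul (quad_cont hS _ M n)
    exact (hc.mono (hsub.trans Ioc_subset_Icc_self)).aestronglyMeasurable measurableSet_Ioc
  · refine Eventually.of_forall fun M => ?_
    rw [hu]
    filter_upwards [hW'] with s hs hst
    have hs1 := hs hst
    refine (norm_sum_le _ _).trans (Finset.sum_le_sum fun n _ => ?_)
    rw [norm_mul, Real.norm_eq_abs, Real.norm_eq_abs]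
    refine mul_le_mul ?_ (quad_bd hE hF hQ hB (x s, z s) hs1 M n) (abs_nonneg _) hB0
    refine (abs_real_inner_le_norm _ _).trans ?_
    rw [hB.orth.1, one_mul]
    exact hBd s (Ioc_subset_Icc_self (hsub hst))
  · rw [intervalIntegrable_iff_integrableOn_Ioc_of_le ht.1]
    have hz : Integrable (fun s => ‖z s‖ ^ 2) (volume.restrict (Ioc 0 t)) :=
      IntegrableOn.mono_set (zint hS) hsub
    refine integrable_finsetSum _ fun n _ => ?_
    exact ((hz.const_mul C).mul_const ‖g n‖).const_mul B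
  · rw [hu]
    filter_upwards [hW'] with s hs hst
    refine tendsto_finsetSum _ fun n _ => ?_
    exact tendsto_const_nhds.mul (quad_lim hE hF hQ hB (x s, z s) (hs hst) n)

end weak

end PWFA

open PWFA in
theorem t_WFA : S_WFA := by
  intro hE H K _ _ _ _ _ _ W m C w g lam hF hQ hB om ν ε T f x z hT hf hS
  have hC := hF.C0
  refine ⟨fun M n hn => ⟨rhs_int hE hF hQ hB hT hf hS n, fun t ht => ?_⟩, ?_,
    energy hF hB hS, conv hE hF hQ hB hS⟩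
  · have h1 := hS.eqn n t ht
    show ⟪w n, x t⟫_ℝ = ⟪w n, x 0⟫_ℝ + _
    rw [← h1]
    ring
  · obtain ⟨B, hBd⟩ := hS.bdd
    have hB0 : 0 ≤ B := (norm_nonneg _).trans (hBd 0 ⟨le_rfl, hT⟩)
    refine ⟨fun s => 3 * (|ν| * B + C * ‖z s‖ ^ 2 + ‖f s‖), fun s => by positivity, ?_, ?_⟩
    · rw [intervalIntegrable_iff_integrableOn_Ioc_of_le hT]
      have : IsFiniteMeasure (volume.restrict (Ioc (0 : ℝ) T)) :=
        ⟨by rw [Measure.restrict_apply_univ]; exact measure_Ioc_lt_top⟩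
      exact (((integrable_const _).add ((zint hS).const_mul C)).add (f_int hf).norm).const_mul 3
    · filter_upwards [hS.grad, ae_restrict_mem measurableSet_Ioc] with s hs hsT M
      exact sq_bd hF hB ν (x s, z s) hs (f s) M (hBd s (Ioc_subset_Icc_self hsT))

end Pool.Agent.U401.DD
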