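import Mathlib
import Pool.Agent.U401.DD.Stm

set_option autoImplicit false

/-! Project DD, package BDC (helper571): bounds of the complex coefficients -/

namespace Pool.Agent.U401.DD

namespace BDCAux

theorem norm_qq (b : Bool) (i : ℕ) : ‖qq b i‖ = 1 := by
  unfold qq
  split_ifs <;> simp

theorem cx_le (s : ℕ → ℕ → ℕ → ℝ) (κ l m : Ix) (B : ℝ)
    (h : ∀ a < 2, ∀ b < 2, ∀ c < 2, |s (2 * κ.1 + a) (2 * l.1 + b) (2 * m.1 + c)| ≤ B) :
    ‖cx s κ l m‖ ≤ B := by
  unfold cx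
  have ht : ∀ a ∈ Finset.range 2, ∀ b ∈ Finset.range 2, ∀ c ∈ Finset.range 2,
      ‖(s (2 * κ.1 + a) (2 * l.1 + b) (2 * m.1 + c) : ℂ) * qq κ.2 a * qq l.2 b * qq m.2 c‖ ≤ B := by
    intro a ha b hb c hc
    rw [norm_mul, norm_mul, norm_mul, norm_qq, norm_qq, norm_qq, mul_one, mul_one, mul_one,
      Complex.norm_real]
    exact h a (Finset.mem_range.1 ha) b (Finset.mem_range.1 hb) c (Finset.mem_range.1 hc)
  have h1 : ‖∑ a ∈ Finset.range 2, ∑ b ∈ Finset.range 2, ∑ c ∈ Finset.range 2,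
      (s (2 * κ.1 + a) (2 * l.1 + b) (2 * m.1 + c) : ℂ) * qq κ.2 a * qq l.2 b * qq m.2 c‖ ≤
      ∑ a ∈ Finset.range 2, ∑ b ∈ Finset.range 2, ∑ c ∈ Finset.range 2, B :=
    norm_sum_le_of_le _ fun a ha => norm_sum_le_of_le _ fun b hb =>
      norm_sum_le_of_le _ fun c hc => ht a ha b hb c hc
  have h2 : ∑ a ∈ Finset.range 2, ∑ b ∈ Finset.range 2, ∑ c ∈ Finset.range 2, B = 8 * B := by
    simp only [Finset.sum_const, Finset.card_range, nsmul_eq_mul]
    push_cast
    ring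
  rw [h2] at h1
  rw [norm_mul]
  have h3 : ‖(1 / 8 : ℂ)‖ = 1 / 8 := by norm_num
  rw [h3]
  linarith

theorem cx_pow_le (s : ℕ → ℕ → ℕ → ℝ) (κ l m : Ix) (R : ℝ)
    (h : ∀ a < 2, ∀ b < 2, ∀ c < 2, s (2 * κ.1 + a) (2 * l.1 + b) (2 * m.1 + c) ^ 4 ≤ R) :
    ‖cx s κ l m‖ ^ 4 ≤ R := by
  have hR : 0 ≤ R := le_trans (by positivity) (h 0 (by norm_num) 0 (by norm_num) 0 (by norm_num))
  have h1 : ‖cx s κ l m‖ ≤ √(√R) := by
    apply cx_le
    intro a ha b hb c hc
    apply Real.abs_le_sqrt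
    have h2 := h a ha b hb c hc
    have h3 : |s (2 * κ.1 + a) (2 * l.1 + b) (2 * m.1 + c) ^ 2| ≤ √R := by
      apply Real.abs_le_sqrt
      calc (s (2 * κ.1 + a) (2 * l.1 + b) (2 * m.1 + c) ^ 2) ^ 2 =
          s (2 * κ.1 + a) (2 * l.1 + b) (2 * m.1 + c) ^ 4 := by ring
        _ ≤ R := h2
    exact (le_abs_self _).trans h3
  calc ‖cx s κ l m‖ ^ 4 ≤ √(√R) ^ 4 := pow_le_pow_left₀ (norm_nonneg _) h1 4
    _ = (√(√R) ^ 2) ^ 2 := by ring
    _ = R := by rw [Real.sq_sqrt (Real.sqrt_nonneg _), Real.sq_sqrt hR]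

theorem half (j a : ℕ) (ha : a < 2) : (2 * j + a) / 2 = j := by omega

variable {bet : ℕ → ℕ → ℕ → ℝ} {lam : ℕ → ℝ} {K : ℝ}

theorem gg_pos (h : Dat bet lam K) (j : ℕ) : 0 < gg lam j := add_pos (h.pos _) (h.pos _)

theorem sig_rot (k l n : ℕ) : sig bet lam l n k = sig bet lam k l n := by
  unfold sig
  ring

theorem sig_swap (h : Dat bet lam K) (k l n : ℕ) : sig bet lam l k n = sig bet lam k l n := by
  unfold sig
  rw [h.sym l k n, h.sym k n l, h.sym n l k]
  ring

theorem sig_bound (h : Dat bet lam K) (k l n : ℕ) :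
    |sig bet lam k l n| ≤ 2 * K * (GG lam (k / 2) * GG lam (l / 2) * GG lam (n / 2)) ^ 2 := by
  have gk := gg_pos h (k / 2)
  have gl := gg_pos h (l / 2)
  have gn := gg_pos h (n / 2)
  have b1 := h.bd k l n
  have b2 := h.bd l n k
  have b3 := h.bd n k l
  have K1 := h.K1
  set P := GG lam (k / 2) * GG lam (l / 2) * GG lam (n / 2) with hP
  have e2 : GG lam (l / 2) * GG lam (n / 2) * GG lam (k / 2) = P := by rw [hP]; ring
  have e3 : GG lam (n / 2) * GG lam (k / 2) * GG lam (l / 2) = P := by rw [hP]; ring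
  rw [e2] at b2
  rw [e3] at b3
  have Gk : 1 ≤ GG lam (k / 2) := by unfold GG; linarith
  have Gl : 1 ≤ GG lam (l / 2) := by unfold GG; linarith
  have Gn : 1 ≤ GG lam (n / 2) := by unfold GG; linarith
  have Pk : gg lam (k / 2) ≤ P := by
    have h1 : gg lam (k / 2) ≤ GG lam (k / 2) := by unfold GG; linarith
    have h2 : GG lam (k / 2) ≤ GG lam (k / 2) * GG lam (l / 2) :=
      le_mul_of_one_le_right (by linarith) Gl
    have h3 : GG lam (k / 2) * GG lam (l / 2) ≤ P := le_mul_of_one_le_right (by positivity) Gn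
    linarith
  have Pl : gg lam (l / 2) ≤ P := by
    have h1 : gg lam (l / 2) ≤ GG lam (l / 2) := by unfold GG; linarith
    have h2 : GG lam (l / 2) ≤ GG lam (k / 2) * GG lam (l / 2) :=
      le_mul_of_one_le_left (by linarith) Gk
    have h3 : GG lam (k / 2) * GG lam (l / 2) ≤ P := le_mul_of_one_le_right (by positivity) Gn
    linarith
  have Pn : gg lam (n / 2) ≤ P := by
    have h1 : gg lam (n / 2) ≤ GG lam (n / 2) := by unfold GG; linarith
    have h2 : 1 ≤ GG lam (k / 2) * GG lam (l / 2) := one_le_mul_of_one_le_of_one_le Gk Gl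
    have h3 : GG lam (n / 2) ≤ P := le_mul_of_one_le_left (by linarith) h2
    linarith
  have P0 : 0 ≤ P := gk.le.trans Pk
  have t1 : |gg lam (n / 2) * bet k l n| ≤ P * (K * P) := by
    rw [abs_mul, abs_of_pos gn]
    exact mul_le_mul Pn b1 (abs_nonneg _) P0
  have t2 : |gg lam (k / 2) * bet l n k| ≤ P * (K * P) := by
    rw [abs_mul, abs_of_pos gk]
    exact mul_le_mul Pk b2 (abs_nonneg _) P0
  have t3 : |gg lam (l / 2) * bet n k l| ≤ P * (K * P) := by
    rw [abs_mul, abs_of_pos gl]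
    exact mul_le_mul Pl b3 (abs_nonneg _) P0
  unfold sig
  rw [abs_mul, abs_of_pos (by norm_num : (0 : ℝ) < 2 / 3)]
  have t4 := abs_add_le (gg lam (n / 2) * bet k l n + gg lam (k / 2) * bet l n k)
    (gg lam (l / 2) * bet n k l)
  have t5 := abs_add_le (gg lam (n / 2) * bet k l n) (gg lam (k / 2) * bet l n k)
  nlinarith

theorem sig_plane (h : Dat bet lam K) {k l n j : ℕ} (hk : k / 2 = j) (hl : l / 2 = j) :
    sig bet lam k l n = 2 / 3 * (gg lam (n / 2) - gg lam j) * bet k l n := by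
  unfold sig
  have hc := h.cyc k l n
  rw [hk, hl]
  have : bet l n k + bet n k l = - bet k l n := by linarith
  linear_combination (2 / 3 * gg lam j) * this

theorem sig_pow (h : Dat bet lam K) {k l n j m : ℕ} (hk : k / 2 = j) (hl : l / 2 = j)
    (hn : n / 2 = m) : sig bet lam k l n ^ 4 ≤
      K * ((GG lam j + GG lam m) ^ 4 * (GG lam j ^ 3 * GG lam m ^ 2)) := by
  rw [sig_plane h hk hl, hn]
  have b := h.bd2 k l n (hk.trans hl.symm)
  rw [hk, hn] at b
  have gj := gg_pos h j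
  have gm := gg_pos h m
  have h1 : |2 / 3 * (gg lam m - gg lam j)| ≤ GG lam j + GG lam m := by
    rw [abs_le]
    unfold GG
    constructor <;> linarith
  have h2 : (2 / 3 * (gg lam m - gg lam j)) ^ 4 ≤ (GG lam j + GG lam m) ^ 4 := by
    have h3 := pow_le_pow_left₀ (abs_nonneg _) h1 4
    rwa [← abs_pow, abs_of_nonneg (by positivity)] at h3
  calc (2 / 3 * (gg lam m - gg lam j) * bet k l n) ^ 4 =
      (2 / 3 * (gg lam m - gg lam j)) ^ 4 * bet k l n ^ 4 := by ring
    _ ≤ (GG lam j + GG lam m) ^ 4 * (K * (GG lam j ^ 3 * GG lam m ^ 2)) :=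
      mul_le_mul h2 b (by positivity) (by positivity)
    _ = K * ((GG lam j + GG lam m) ^ 4 * (GG lam j ^ 3 * GG lam m ^ 2)) := by ring

end BDCAux

open BDCAux in
theorem t_BDC : S_BDC := by
  intro bet lam K h
  refine ⟨?_, ?_, K, by linarith [h.K1], ?_⟩
  · rintro κ l m ⟨h1, h2⟩
    have h3 : ‖cx (sig bet lam) κ l m‖ ≤ 0 := by
      apply cx_le
      intro a ha b hb c hc
      rw [sig_plane h (half _ a ha) ((half _ b hb).trans h1.symm), half _ c hc, ← h2, ← h1]
      simp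
    exact norm_le_zero_iff.1 h3
  · intro κ l m
    apply cx_le
    intro a ha b hb c hc
    have h1 := sig_bound h (2 * κ.1 + a) (2 * l.1 + b) (2 * m.1 + c)
    rwa [half _ a ha, half _ b hb, half _ c hc] at h1
  · intro κ m
    refine ⟨?_, ?_, ?_⟩
    · apply cx_pow_le
      intro a ha b hb c hc
      exact sig_pow h (half _ a ha) (half _ b hb) (half _ c hc)
    · apply cx_pow_le
      intro a ha b hb c hc
      rw [sig_rot]
      exact sig_pow h (half _ c hc) (half _ a ha) (half _ b hb)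
    · apply cx_pow_le
      intro a ha b hb c hc
      rw [← sig_rot]
      exact sig_pow h (half _ b hb) (half _ c hc) (half _ a ha)

end Pool.Agent.U401.DD
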