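import Mathlib
import Pool.Agent.U401.DD.Stm4
import Pool.Agent.U401.DD.BDC

set_option autoImplicit false

/-! Project DD, package BDC2 (helper894): bounds of all the complex coefficients -/

namespace Pool.Agent.U401.DD

namespace BDC2Aux

theorem abs_le_of_pow (x R : ℝ) (h : x ^ 4 ≤ R) : |x| ≤ √(√R) := by
  apply Real.abs_le_sqrt
  have h3 : |x ^ 2| ≤ √R := by
    apply Real.abs_le_sqrt
    calc (x ^ 2) ^ 2 = x ^ 4 := by ring
      _ ≤ R := h
  exact (le_abs_self _).trans h3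

theorem three (g1 g2 g3 x y z M R : ℝ) (hM : 0 ≤ M) (hR : 0 ≤ R) (a1 : 0 ≤ g1) (a2 : 0 ≤ g2)
    (a3 : 0 ≤ g3) (b1 : g1 ≤ M) (b2 : g2 ≤ M) (b3 : g3 ≤ M) (hx : x ^ 4 ≤ R) (hy : y ^ 4 ≤ R)
    (hz : z ^ 4 ≤ R) : (2 / 3 * (g1 * x + g2 * y + g3 * z)) ^ 4 ≤ 16 * (M ^ 4 * R) := by
  have cx := abs_le_of_pow x R hx
  have cy := abs_le_of_pow y R hy
  have cz := abs_le_of_pow z R hz
  set b := √(√R) with hb
  have b0 : 0 ≤ b := Real.sqrt_nonneg _
  have b4 : b ^ 4 = R := by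
    calc b ^ 4 = (√(√R) ^ 2) ^ 2 := by rw [hb]; ring
      _ = R := by rw [Real.sq_sqrt (Real.sqrt_nonneg _), Real.sq_sqrt hR]
  have t1 : |g1 * x| ≤ M * b := by
    rw [abs_mul, abs_of_nonneg a1]
    exact mul_le_mul b1 cx (abs_nonneg _) hM
  have t2 : |g2 * y| ≤ M * b := by
    rw [abs_mul, abs_of_nonneg a2]
    exact mul_le_mul b2 cy (abs_nonneg _) hM
  have t3 : |g3 * z| ≤ M * b := by
    rw [abs_mul, abs_of_nonneg a3]
    exact mul_le_mul b3 cz (abs_nonneg _) hM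
  have t4 := abs_add_le (g1 * x + g2 * y) (g3 * z)
  have t5 := abs_add_le (g1 * x) (g2 * y)
  have h1 : |2 / 3 * (g1 * x + g2 * y + g3 * z)| ≤ 2 * (M * b) := by
    rw [abs_mul, abs_of_pos (by norm_num : (0 : ℝ) < 2 / 3)]
    linarith
  have h2 := pow_le_pow_left₀ (abs_nonneg _) h1 4
  have h3 : |2 / 3 * (g1 * x + g2 * y + g3 * z)| ^ 4 =
      (2 / 3 * (g1 * x + g2 * y + g3 * z)) ^ 4 := by
    rw [← abs_pow, abs_of_nonneg (by positivity)]
  rw [h3] at h2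
  calc (2 / 3 * (g1 * x + g2 * y + g3 * z)) ^ 4 ≤ (2 * (M * b)) ^ 4 := h2
    _ = 16 * (M ^ 4 * b ^ 4) := by ring
    _ = 16 * (M ^ 4 * R) := by rw [b4]

end BDC2Aux

open BDCAux BDC2Aux in
theorem t_BDC2 : S_BDC2 := by
  intro _ bet lam K h
  have K1 := h.dat.K1
  refine ⟨16 * K, by linarith, ?_⟩
  intro κ l m
  apply cx_pow_le
  intro a ha b hb c hc
  have ea := half κ.1 a ha
  have eb := half l.1 b hb
  have ec := half m.1 c hc
  have q1 := h.bd4 (2 * κ.1 + a) (2 * l.1 + b) (2 * m.1 + c)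
  have q2 := h.bd4 (2 * l.1 + b) (2 * m.1 + c) (2 * κ.1 + a)
  have q3 := h.bd4 (2 * m.1 + c) (2 * κ.1 + a) (2 * l.1 + b)
  rw [ea, eb, ec] at q1 q2 q3
  have gk := gg_pos h.dat κ.1
  have gl := gg_pos h.dat l.1
  have gm := gg_pos h.dat m.1
  obtain ⟨M, hM⟩ : ∃ M, M = mxG lam κ l m := ⟨_, rfl⟩
  have Mk : GG lam κ.1 ≤ M := by rw [hM]; exact le_max_left _ _
  have Ml : GG lam l.1 ≤ M := by rw [hM]; exact (le_max_left _ _).trans (le_max_right _ _)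
  have Mm : GG lam m.1 ≤ M := by rw [hM]; exact (le_max_right _ _).trans (le_max_right _ _)
  have Gk : gg lam κ.1 ≤ GG lam κ.1 := by unfold GG; linarith
  have Gl : gg lam l.1 ≤ GG lam l.1 := by unfold GG; linarith
  have Gm : gg lam m.1 ≤ GG lam m.1 := by unfold GG; linarith
  have M0 : 0 ≤ M := by linarith
  have key : ∀ x : ℝ, 0 ≤ x → x ≤ M → K * x ^ 5 ≤ K * M ^ 5 := fun x hx hxM =>
    mul_le_mul_of_nonneg_left (pow_le_pow_left₀ hx hxM 5) (by linarith)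
  have r1 := q1.trans (key _ ((by linarith : 0 ≤ GG lam κ.1).trans (le_max_left _ _))
    (max_le Mk (max_le Ml Mm)))
  have r2 := q2.trans (key _ ((by linarith : 0 ≤ GG lam l.1).trans (le_max_left _ _))
    (max_le Ml (max_le Mm Mk)))
  have r3 := q3.trans (key _ ((by linarith : 0 ≤ GG lam m.1).trans (le_max_left _ _))
    (max_le Mm (max_le Mk Ml)))
  have R0 : 0 ≤ K * M ^ 5 := mul_nonneg (by linarith) (pow_nonneg M0 5)
  have fin := three (gg lam m.1) (gg lam κ.1) (gg lam l.1) _ _ _ M (K * M ^ 5) M0 R0 gm.le gk.le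
    gl.le (by linarith) (by linarith) (by linarith) r1 r2 r3
  unfold sig
  rw [ea, eb, ec, ← hM]
  calc _ ≤ 16 * (M ^ 4 * (K * M ^ 5)) := fin
    _ = 16 * K * M ^ 9 := by ring

end Pool.Agent.U401.DD
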