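import Mathlib
import Pool.Agent.U401.DD.Stm4

set_option autoImplicit false

/-! Project DD, package ETA2 (helper94, after package ETA of helper402): sums with the weights `wt2`. -/

open Pool.Agent.U401.DD

namespace Pool.Agent.U401.DD.ETA94

/-- the weight of one mode -/
noncomputable def q (lam : ℕ → ℝ) (κ : Ix) : ℝ := GG lam κ.1 ^ (-(11 / 12) : ℝ)

/-- the weight of the diagonal parts -/
noncomputable def p (lam : ℕ → ℝ) (κ : Ix) : ℝ := GG lam κ.1 ^ (-(9 / 4) : ℝ)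

lemma bar_mem {N : ℕ} {κ : Ix} (h : κ ∈ IxN N) : bar κ ∈ IxN N := by
  simp only [IxN, Finset.mem_product, Finset.mem_univ, and_true, bar] at h ⊢
  exact h

lemma bar_bar (κ : Ix) : bar (bar κ) = κ := by
  simp [bar]

lemma GG_ge {lam : ℕ → ℝ} (h : ∀ n, 0 < lam n) (j : ℕ) : 1 ≤ GG lam j := by
  have h1 := h (2 * j)
  have h2 := h (2 * j + 1)
  unfold GG gg
  linarith

lemma q_nonneg {lam : ℕ → ℝ} (h : ∀ n, 0 < lam n) (κ : Ix) : 0 ≤ q lam κ :=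
  Real.rpow_nonneg (by linarith [GG_ge h κ.1]) _

lemma p_nonneg {lam : ℕ → ℝ} (h : ∀ n, 0 < lam n) (κ : Ix) : 0 ≤ p lam κ :=
  Real.rpow_nonneg (by linarith [GG_ge h κ.1]) _

lemma p_le_q {lam : ℕ → ℝ} (h : ∀ n, 0 < lam n) (κ : Ix) : p lam κ ≤ q lam κ :=
  Real.rpow_le_rpow_of_exponent_le (GG_ge h κ.1) (by norm_num)

lemma pG_le_q {lam : ℕ → ℝ} (h : ∀ n, 0 < lam n) (κ : Ix) : p lam κ * GG lam κ.1 ≤ q lam κ := by
  have h1 := GG_ge h κ.1
  unfold p q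
  have e : GG lam κ.1 ^ (-(9 / 4) : ℝ) * GG lam κ.1 = GG lam κ.1 ^ (-(5 / 4) : ℝ) := by
    conv_lhs => rw [← Real.rpow_one (GG lam κ.1), ← Real.rpow_mul (by linarith),
      ← Real.rpow_add (by linarith)]
    congr 1
    norm_num
  rw [e]
  exact Real.rpow_le_rpow_of_exponent_le h1 (by norm_num)

lemma mx_mul {lam : ℕ → ℝ} (h : ∀ n, 0 < lam n) (κ l m : Ix) (t : ℝ) (ht : t ≤ mxG lam κ l m) :
    mxG lam κ l m ^ (-(15 / 4) : ℝ) * t ≤ q lam κ * q lam l * q lam m := by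
  have h1 := GG_ge h κ.1
  have h2 := GG_ge h l.1
  have h3 := GG_ge h m.1
  have a1 : GG lam κ.1 ≤ mxG lam κ l m := le_max_left _ _
  have a2 : GG lam l.1 ≤ mxG lam κ l m := (le_max_left _ _).trans (le_max_right _ _)
  have a3 : GG lam m.1 ≤ mxG lam κ l m := (le_max_right _ _).trans (le_max_right _ _)
  set M := mxG lam κ l m with hM
  have hM1 : 1 ≤ M := h1.trans a1
  have hM0 : 0 < M := by linarith
  have e : M ^ (-(15 / 4) : ℝ) * M =
      M ^ (-(11 / 12) : ℝ) * M ^ (-(11 / 12) : ℝ) * M ^ (-(11 / 12) : ℝ) := by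
    rw [← Real.rpow_add hM0, ← Real.rpow_add hM0]
    nth_rewrite 2 [← Real.rpow_one M]
    rw [← Real.rpow_add hM0]
    congr 1
    norm_num
  have b1 : M ^ (-(11 / 12) : ℝ) ≤ q lam κ := Real.rpow_le_rpow_of_nonpos (by linarith) a1 (by norm_num)
  have b2 : M ^ (-(11 / 12) : ℝ) ≤ q lam l := Real.rpow_le_rpow_of_nonpos (by linarith) a2 (by norm_num)
  have b3 : M ^ (-(11 / 12) : ℝ) ≤ q lam m := Real.rpow_le_rpow_of_nonpos (by linarith) a3 (by norm_num)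
  have b0 : 0 ≤ M ^ (-(11 / 12) : ℝ) := Real.rpow_nonneg hM0.le _
  calc M ^ (-(15 / 4) : ℝ) * t ≤ M ^ (-(15 / 4) : ℝ) * M :=
        mul_le_mul_of_nonneg_left ht (Real.rpow_nonneg hM0.le _)
    _ = M ^ (-(11 / 12) : ℝ) * M ^ (-(11 / 12) : ℝ) * M ^ (-(11 / 12) : ℝ) := e
    _ ≤ q lam κ * q lam l * q lam m := by
        refine mul_le_mul (mul_le_mul b1 b2 b0 (q_nonneg h _)) b3 b0
          (mul_nonneg (q_nonneg h _) (q_nonneg h _))

lemma T_eq (lam : ℕ → ℝ) (N : ℕ) (a b c : Ix → ℝ) :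
    ∑ κ ∈ IxN N, ∑ l ∈ IxN N, ∑ m ∈ IxN N, wt2 lam κ l m * (a κ * b l * c m) =
      (∑ κ ∈ IxN N, ∑ l ∈ IxN N, ∑ m ∈ IxN N,
        mxG lam κ l m ^ (-(15 / 4) : ℝ) * (a κ * b l * c m)) +
      (∑ κ ∈ IxN N, a κ * b (bar κ)) * (∑ κ ∈ IxN N, p lam κ * c κ) +
      (∑ κ ∈ IxN N, a κ * c (bar κ)) * (∑ κ ∈ IxN N, p lam κ * b κ) +
      (∑ κ ∈ IxN N, p lam κ * a κ) * (∑ κ ∈ IxN N, b κ * c (bar κ)) := by
  simp only [wt2, add_mul, Finset.sum_add_distrib]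
  congr 1
  · congr 1
    · congr 1
      rw [Finset.sum_mul_sum]
      refine Finset.sum_congr rfl fun κ hκ => ?_
      rw [Finset.sum_eq_single (bar κ)]
      · refine Finset.sum_congr rfl fun m _ => ?_
        rw [if_pos rfl]
        simp only [p]
        ring
      · intro l _ hl
        refine Finset.sum_eq_zero fun m _ => ?_
        rw [if_neg hl, zero_mul]
      · intro h
        exact absurd (bar_mem hκ) h
    · rw [Finset.sum_mul_sum]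
      refine Finset.sum_congr rfl fun κ hκ => Finset.sum_congr rfl fun l _ => ?_
      rw [Finset.sum_eq_single (bar κ)]
      · rw [if_pos rfl]
        simp only [p]
        ring
      · intro m _ hm
        rw [if_neg hm, zero_mul]
      · intro h
        exact absurd (bar_mem hκ) h
  · rw [Finset.sum_mul_sum]
    refine Finset.sum_congr rfl fun κ _ => Finset.sum_congr rfl fun l hl => ?_
    rw [Finset.sum_eq_single (bar l)]
    · rw [if_pos rfl]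
      simp only [p]
      ring
    · intro m _ hm
      rw [if_neg hm, zero_mul]
    · intro h
      exact absurd (bar_mem hl) h

lemma G_le (lam : ℕ → ℝ) (N : ℕ) (a b c a' b' c' : Ix → ℝ)
    (h : ∀ κ ∈ IxN N, ∀ l ∈ IxN N, ∀ m ∈ IxN N,
      mxG lam κ l m ^ (-(15 / 4) : ℝ) * (a κ * b l * c m) ≤
        (q lam κ * q lam l * q lam m) * (a' κ * b' l * c' m)) :
    ∑ κ ∈ IxN N, ∑ l ∈ IxN N, ∑ m ∈ IxN N, mxG lam κ l m ^ (-(15 / 4) : ℝ) * (a κ * b l * c m) ≤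
      (∑ κ ∈ IxN N, q lam κ * a' κ) * (∑ κ ∈ IxN N, q lam κ * b' κ) *
        (∑ κ ∈ IxN N, q lam κ * c' κ) := by
  rw [Finset.sum_mul_sum, Finset.sum_mul]
  refine Finset.sum_le_sum fun κ hκ => ?_
  rw [Finset.sum_mul]
  refine Finset.sum_le_sum fun l hl => ?_
  rw [Finset.mul_sum]
  refine Finset.sum_le_sum fun m hm => (h κ hκ l hl m hm).trans (le_of_eq ?_)
  ring

lemma sum_ix (N : ℕ) (f : ℕ → ℝ) : ∑ κ ∈ IxN N, f κ.1 = 2 * ∑ j ∈ Finset.range N, f j := by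
  unfold IxN
  rw [Finset.sum_product, Finset.mul_sum]
  refine Finset.sum_congr rfl fun j _ => ?_
  simp [two_mul]

/-- the constant -/
noncomputable def C0 (K : ℝ) : ℝ := 2 * ∑' j : ℕ, K ^ (11 / 9 : ℝ) * (1 / (((j + 1 : ℕ) : ℝ)) ^ (11 / 9 : ℝ))

lemma sum_q2 (lam : ℕ → ℝ) (K : ℝ) (h : ∀ n, 0 < lam n)
    (hK : ∀ j : ℕ, (j : ℝ) + 1 ≤ K * GG lam j ^ (3 / 2 : ℝ)) (N : ℕ) :
    ∑ κ ∈ IxN N, q lam κ ^ 2 ≤ C0 K := by
  have h0 := hK 0
  have g0 : 0 < GG lam 0 ^ (3 / 2 : ℝ) := Real.rpow_pos_of_pos (by linarith [GG_ge h 0]) _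
  have hKpos : 0 < K := by
    by_contra hneg
    push Not at hneg
    have : K * GG lam 0 ^ (3 / 2 : ℝ) ≤ 0 := mul_nonpos_of_nonpos_of_nonneg hneg g0.le
    push_cast at h0
    linarith
  have e1 : ∑ κ ∈ IxN N, q lam κ ^ 2 = 2 * ∑ j ∈ Finset.range N, (GG lam j ^ (-(11 / 12) : ℝ)) ^ 2 :=
    sum_ix N fun j => (GG lam j ^ (-(11 / 12) : ℝ)) ^ 2
  rw [e1]
  unfold C0
  refine mul_le_mul_of_nonneg_left ?_ zero_le_two
  have hb : ∀ j : ℕ, (GG lam j ^ (-(11 / 12) : ℝ)) ^ 2 ≤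
      K ^ (11 / 9 : ℝ) * (1 / (((j + 1 : ℕ) : ℝ)) ^ (11 / 9 : ℝ)) := by
    intro j
    have g1 := GG_ge h j
    have g2 : 0 < GG lam j := by linarith
    have e2 : (GG lam j ^ (-(11 / 12) : ℝ)) ^ 2 = (GG lam j ^ (11 / 6 : ℝ))⁻¹ := by
      rw [← Real.rpow_natCast, ← Real.rpow_mul g2.le, ← Real.rpow_neg g2.le]
      congr 1
      norm_num
    have j1 : (0 : ℝ) < ((j + 1 : ℕ) : ℝ) := by positivity
    have h1 : (((j + 1 : ℕ) : ℝ)) ^ (11 / 9 : ℝ) ≤ K ^ (11 / 9 : ℝ) * GG lam j ^ (11 / 6 : ℝ) := by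
      have h2 := Real.rpow_le_rpow (z := (11 / 9 : ℝ)) (by positivity) (hK j) (by norm_num)
      rw [Real.mul_rpow hKpos.le (Real.rpow_nonneg g2.le _), ← Real.rpow_mul g2.le] at h2
      have e3 : (3 / 2 : ℝ) * (11 / 9) = 11 / 6 := by norm_num
      rw [e3] at h2
      push_cast
      exact h2
    have p1 : 0 < GG lam j ^ (11 / 6 : ℝ) := Real.rpow_pos_of_pos g2 _
    have p2 : 0 < (((j + 1 : ℕ) : ℝ)) ^ (11 / 9 : ℝ) := Real.rpow_pos_of_pos j1 _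
    rw [e2, mul_one_div, inv_eq_one_div, div_le_div_iff₀ p1 p2]
    linarith
  have hs : Summable fun j : ℕ => K ^ (11 / 9 : ℝ) * (1 / (((j + 1 : ℕ) : ℝ)) ^ (11 / 9 : ℝ)) := by
    refine Summable.mul_left _ ?_
    exact (summable_nat_add_iff (f := fun n : ℕ => 1 / (n : ℝ) ^ (11 / 9 : ℝ)) 1).mpr
      (Real.summable_one_div_nat_rpow.mpr (by norm_num))
  refine (Finset.sum_le_sum fun j _ => hb j).trans ?_
  exact Summable.sum_le_tsum _ (fun j _ => mul_nonneg (Real.rpow_nonneg hKpos.le _)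
    (by positivity)) hs

theorem eta_main : S_ETA2 := by
  intro lam K hlam hK
  set C := Real.sqrt (C0 K) with hCd
  have hC : 0 ≤ C := Real.sqrt_nonneg _
  refine ⟨3 * C ^ 3 + 6 * C, by positivity, ?_⟩
  intro N x r y X Y Z hx hr hy hbar hZ hX hY hrG hyZ
  have hq := q_nonneg hlam
  have hp := p_nonneg hlam
  have hX0 : 0 ≤ X := le_trans (Finset.sum_nonneg fun κ _ => sq_nonneg _) hX
  have hY0 : 0 ≤ Y := le_trans (Finset.sum_nonneg fun κ _ => mul_nonneg (hx κ) (hr κ)) hY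
  set s := Real.sqrt X with hs
  have hs0 : 0 ≤ s := Real.sqrt_nonneg X
  have hss : s * s = X := Real.mul_self_sqrt hX0
  have hS2 := sum_q2 lam K hlam hK N
  have hC0 : 0 ≤ C0 K := le_trans (Finset.sum_nonneg fun κ _ => sq_nonneg _) hS2
  -- the single sums
  have hSx : ∑ κ ∈ IxN N, q lam κ * x κ ≤ C * s := by
    rw [hCd, hs, ← Real.sqrt_mul hC0]
    refine Real.le_sqrt_of_sq_le ?_
    refine (Finset.sum_mul_sq_le_sq_mul_sq _ _ _).trans ?_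
    exact mul_le_mul hS2 hX (Finset.sum_nonneg fun κ _ => sq_nonneg _) hC0
  have hSy : ∑ κ ∈ IxN N, q lam κ * y κ ≤ C * Z := by
    have h1 : C * Z = Real.sqrt (C0 K * Z ^ 2) := by
      rw [Real.sqrt_mul hC0, Real.sqrt_sq hZ]
    rw [h1]
    refine Real.le_sqrt_of_sq_le ?_
    refine (Finset.sum_mul_sq_le_sq_mul_sq _ _ _).trans ?_
    exact mul_le_mul hS2 hyZ (Finset.sum_nonneg fun κ _ => sq_nonneg _) hC0
  have hSx0 : 0 ≤ ∑ κ ∈ IxN N, q lam κ * x κ :=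
    Finset.sum_nonneg fun κ _ => mul_nonneg (hq κ) (hx κ)
  have hSy0 : 0 ≤ ∑ κ ∈ IxN N, q lam κ * y κ :=
    Finset.sum_nonneg fun κ _ => mul_nonneg (hq κ) (hy κ)
  have hPx : ∑ κ ∈ IxN N, p lam κ * x κ ≤ ∑ κ ∈ IxN N, q lam κ * x κ :=
    Finset.sum_le_sum fun κ _ => mul_le_mul_of_nonneg_right (p_le_q hlam κ) (hx κ)
  have hPx0 : 0 ≤ ∑ κ ∈ IxN N, p lam κ * x κ :=
    Finset.sum_nonneg fun κ _ => mul_nonneg (hp κ) (hx κ)
  have hPr : ∑ κ ∈ IxN N, p lam κ * r κ ≤ ∑ κ ∈ IxN N, q lam κ * y κ := by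
    refine Finset.sum_le_sum fun κ hκ => ?_
    calc p lam κ * r κ ≤ p lam κ * (GG lam κ.1 * y κ) := mul_le_mul_of_nonneg_left (hrG κ hκ) (hp κ)
      _ = p lam κ * GG lam κ.1 * y κ := by ring
      _ ≤ q lam κ * y κ := mul_le_mul_of_nonneg_right (pG_le_q hlam κ) (hy κ)
  have hPr0 : 0 ≤ ∑ κ ∈ IxN N, p lam κ * r κ :=
    Finset.sum_nonneg fun κ _ => mul_nonneg (hp κ) (hr κ)
  have hDxx : ∑ κ ∈ IxN N, x κ * x (bar κ) ≤ X := by
    refine le_trans (le_of_eq ?_) hX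
    refine Finset.sum_congr rfl fun κ _ => ?_
    rw [hbar]; ring
  have hDxx0 : 0 ≤ ∑ κ ∈ IxN N, x κ * x (bar κ) :=
    Finset.sum_nonneg fun κ _ => mul_nonneg (hx κ) (hx _)
  have hDrx : ∑ κ ∈ IxN N, r κ * x (bar κ) ≤ Y := by
    refine le_trans (le_of_eq ?_) hY
    refine Finset.sum_congr rfl fun κ _ => ?_
    rw [hbar]; ring
  have hDrx0 : 0 ≤ ∑ κ ∈ IxN N, r κ * x (bar κ) :=
    Finset.sum_nonneg fun κ _ => mul_nonneg (hr κ) (hx _)
  have hDxr : ∑ κ ∈ IxN N, x κ * r (bar κ) ≤ Y := by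
    refine le_trans (le_of_eq ?_) hY
    refine Finset.sum_nbij' bar bar (fun κ h => bar_mem h) (fun κ h => bar_mem h)
      (fun κ _ => bar_bar κ) (fun κ _ => bar_bar κ) fun κ _ => ?_
    rw [hbar]
  have hDxr0 : 0 ≤ ∑ κ ∈ IxN N, x κ * r (bar κ) :=
    Finset.sum_nonneg fun κ _ => mul_nonneg (hx κ) (hr _)
  -- the generic parts
  have h1G : ∀ κ l m : Ix, 1 ≤ mxG lam κ l m := fun κ l m => (GG_ge hlam κ.1).trans (le_max_left _ _)
  have hG0 : ∀ κ l m : Ix, 0 ≤ mxG lam κ l m ^ (-(15 / 4) : ℝ) := fun κ l m =>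
    Real.rpow_nonneg (by linarith [h1G κ l m]) _
  have g1 := G_le lam N x x x x x x (fun κ _ l _ m _ => by
    have h1 := mx_mul hlam κ l m 1 (h1G κ l m)
    rw [mul_one] at h1
    exact mul_le_mul_of_nonneg_right h1 (mul_nonneg (mul_nonneg (hx κ) (hx l)) (hx m)))
  have g2 := G_le lam N r x x y x x (fun κ hκ l _ m _ => by
    have h1 := mx_mul hlam κ l m (GG lam κ.1) (le_max_left _ _)
    have h2 : 0 ≤ y κ * x l * x m := mul_nonneg (mul_nonneg (hy κ) (hx l)) (hx m)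
    have h3 : r κ * x l * x m ≤ GG lam κ.1 * (y κ * x l * x m) := by
      have := mul_le_mul_of_nonneg_right (hrG κ hκ) (mul_nonneg (hx l) (hx m))
      linarith
    calc mxG lam κ l m ^ (-(15 / 4) : ℝ) * (r κ * x l * x m)
        ≤ mxG lam κ l m ^ (-(15 / 4) : ℝ) * (GG lam κ.1 * (y κ * x l * x m)) :=
          mul_le_mul_of_nonneg_left h3 (hG0 κ l m)
      _ = mxG lam κ l m ^ (-(15 / 4) : ℝ) * GG lam κ.1 * (y κ * x l * x m) := by ring
      _ ≤ _ := mul_le_mul_of_nonneg_right h1 h2)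
  have g3 := G_le lam N x r x x y x (fun κ _ l hl m _ => by
    have h1 := mx_mul hlam κ l m (GG lam l.1) ((le_max_left _ _).trans (le_max_right _ _))
    have h2 : 0 ≤ x κ * y l * x m := mul_nonneg (mul_nonneg (hx κ) (hy l)) (hx m)
    have h3 : x κ * r l * x m ≤ GG lam l.1 * (x κ * y l * x m) := by
      have := mul_le_mul_of_nonneg_right (hrG l hl) (mul_nonneg (hx κ) (hx m))
      linarith
    calc mxG lam κ l m ^ (-(15 / 4) : ℝ) * (x κ * r l * x m)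
        ≤ mxG lam κ l m ^ (-(15 / 4) : ℝ) * (GG lam l.1 * (x κ * y l * x m)) :=
          mul_le_mul_of_nonneg_left h3 (hG0 κ l m)
      _ = mxG lam κ l m ^ (-(15 / 4) : ℝ) * GG lam l.1 * (x κ * y l * x m) := by ring
      _ ≤ _ := mul_le_mul_of_nonneg_right h1 h2)
  have g4 := G_le lam N x x r x x y (fun κ _ l _ m hm => by
    have h1 := mx_mul hlam κ l m (GG lam m.1) ((le_max_right _ _).trans (le_max_right _ _))
    have h2 : 0 ≤ x κ * x l * y m := mul_nonneg (mul_nonneg (hx κ) (hx l)) (hy m)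
    have h3 : x κ * x l * r m ≤ GG lam m.1 * (x κ * x l * y m) := by
      have := mul_le_mul_of_nonneg_right (hrG m hm) (mul_nonneg (hx κ) (hx l))
      linarith
    calc mxG lam κ l m ^ (-(15 / 4) : ℝ) * (x κ * x l * r m)
        ≤ mxG lam κ l m ^ (-(15 / 4) : ℝ) * (GG lam m.1 * (x κ * x l * y m)) :=
          mul_le_mul_of_nonneg_left h3 (hG0 κ l m)
      _ = mxG lam κ l m ^ (-(15 / 4) : ℝ) * GG lam m.1 * (x κ * x l * y m) := by ring
      _ ≤ _ := mul_le_mul_of_nonneg_right h1 h2)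
  set Sx := ∑ κ ∈ IxN N, q lam κ * x κ with hSxd
  set Sy := ∑ κ ∈ IxN N, q lam κ * y κ with hSyd
  set Px := ∑ κ ∈ IxN N, p lam κ * x κ with hPxd
  set Pr := ∑ κ ∈ IxN N, p lam κ * r κ with hPrd
  set Dxx := ∑ κ ∈ IxN N, x κ * x (bar κ) with hDxxd
  set Drx := ∑ κ ∈ IxN N, r κ * x (bar κ) with hDrxd
  set Dxr := ∑ κ ∈ IxN N, x κ * r (bar κ) with hDxrd
  have hCs : 0 ≤ C * s := mul_nonneg hC hs0
  have hCZ : 0 ≤ C * Z := mul_nonneg hC hZ
  -- products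
  have p1 : Sx * Sx ≤ C ^ 2 * X := by
    calc Sx * Sx ≤ (C * s) * (C * s) := mul_le_mul hSx hSx hSx0 hCs
      _ = C ^ 2 * X := by rw [← hss]; ring
  have p2 : Sx * Sx * Sx ≤ C ^ 3 * (X * s) := by
    calc Sx * Sx * Sx ≤ (C ^ 2 * X) * (C * s) := mul_le_mul p1 hSx hSx0 (by positivity)
      _ = C ^ 3 * (X * s) := by ring
  have p3 : Dxx * Px ≤ C * (X * s) := by
    calc Dxx * Px ≤ X * (C * s) := mul_le_mul hDxx (hPx.trans hSx) hPx0 hX0
      _ = C * (X * s) := by ring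
  have p4 : Sy * (Sx * Sx) ≤ C ^ 3 * (X * Z) := by
    calc Sy * (Sx * Sx) ≤ (C * Z) * (C ^ 2 * X) :=
          mul_le_mul hSy p1 (mul_nonneg hSx0 hSx0) hCZ
      _ = C ^ 3 * (X * Z) := by ring
  have p5 : Drx * Px ≤ C * (s * Y) := by
    calc Drx * Px ≤ Y * (C * s) := mul_le_mul hDrx (hPx.trans hSx) hPx0 hY0
      _ = C * (s * Y) := by ring
  have p6 : Dxr * Px ≤ C * (s * Y) := by
    calc Dxr * Px ≤ Y * (C * s) := mul_le_mul hDxr (hPx.trans hSx) hPx0 hY0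
      _ = C * (s * Y) := by ring
  have p7 : Dxx * Pr ≤ C * (X * Z) := by
    calc Dxx * Pr ≤ X * (C * Z) := mul_le_mul hDxx (hPr.trans hSy) hPr0 hX0
      _ = C * (X * Z) := by ring
  have hXs : 0 ≤ X * s := mul_nonneg hX0 hs0
  have hXZ : 0 ≤ X * Z := mul_nonneg hX0 hZ
  have hsY : 0 ≤ s * Y := mul_nonneg hs0 hY0
  have hC3 : 0 ≤ C ^ 3 := pow_nonneg hC 3
  constructor
  · rw [T_eq, ← hPxd, ← hDxxd]
    have k1 : 0 ≤ C ^ 3 * (X * s) := mul_nonneg hC3 hXs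
    have k2 : 0 ≤ C * (X * s) := mul_nonneg hC hXs
    calc _ ≤ Sx * Sx * Sx + Dxx * Px + Dxx * Px + Px * Dxx := by linarith
      _ = Sx * Sx * Sx + 3 * (Dxx * Px) := by ring
      _ ≤ (3 * C ^ 3 + 6 * C) * (X * s) := by nlinarith
  · have e : ∀ κ l m : Ix, wt2 lam κ l m * (r κ * x l * x m + x κ * r l * x m + x κ * x l * r m) =
        wt2 lam κ l m * (r κ * x l * x m) + wt2 lam κ l m * (x κ * r l * x m) +
          wt2 lam κ l m * (x κ * x l * r m) := fun κ l m => by ring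
    simp only [e, Finset.sum_add_distrib]
    rw [T_eq, T_eq, T_eq, ← hPxd, ← hPrd, ← hDxxd, ← hDrxd, ← hDxrd]
    have k1 : 0 ≤ C ^ 3 * (s * Y) := mul_nonneg hC3 hsY
    have k2 : 0 ≤ C * (X * Z) := mul_nonneg hC hXZ
    calc _ ≤ Sy * Sx * Sx + Drx * Px + Drx * Px + Pr * Dxx +
          (Sx * Sy * Sx + Dxr * Px + Dxx * Pr + Px * Drx) +
          (Sx * Sx * Sy + Dxx * Pr + Dxr * Px + Px * Dxr) := by linarith
      _ = 3 * (Sy * (Sx * Sx)) + 3 * (Drx * Px) + 3 * (Dxr * Px) + 3 * (Dxx * Pr) := by ring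
      _ ≤ (3 * C ^ 3 + 6 * C) * (X * Z + s * Y) := by nlinarith

end Pool.Agent.U401.DD.ETA94

namespace Pool.Agent.U401.DD

theorem t_ETA2 : S_ETA2 := ETA94.eta_main

end Pool.Agent.U401.DD
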