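import Mathlib
import Pool.Agent.U401.DD.Stm

set_option autoImplicit false

open MeasureTheory ProbabilityTheory Set Filter Topology
open scoped InnerProductSpace

namespace Pool.Agent.U401.DD

theorem t_GRW : S_GRW := by
  intro T B A hT hB
  refine ⟨(A + 2 * B + 1) * Real.exp (B * (T + B)), ?_⟩
  intro e p y' hec he0 heA hp hint hder hy' t ht
  have h0 : (0 : ℝ) ∈ Icc 0 T := ⟨le_refl _, hT⟩
  -- extension of e
  let g : ℝ → ℝ := Set.IccExtend hT ((Icc 0 T).domRestrict e)
  have hgc : Continuous g := (continuousOn_iff_continuous_domRestrict.mp hec).Icc_extend'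
  have hge : ∀ s ∈ Icc 0 T, g s = e s := fun s hs => Set.IccExtend_of_mem hT _ hs
  have hg0 : ∀ s, 0 ≤ g s := fun s => he0 _ (Set.projIcc 0 T hT s).2
  let φ : ℝ → ℝ := fun s => ∫ r in (0 : ℝ)..s, (1 + g r)
  have hcont : Continuous fun r => 1 + g r := continuous_const.add hgc
  have hφ : ∀ s, HasDerivAt φ (1 + g s) s := fun s =>
    intervalIntegral.integral_hasDerivAt_right (hcont.intervalIntegrable _ _)
      (hcont.stronglyMeasurableAtFilter _ _) hcont.continuousAt
  have hφ0 : φ 0 = 0 := by simp [φ]
  have hφt : φ t ≤ T + B := by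
    have h1 : φ t ≤ φ T := by
      apply intervalIntegral.integral_mono_interval le_rfl ht.1 ht.2
      · exact Filter.Eventually.of_forall fun r => by
          have := hg0 r
          show (0 : ℝ) ≤ 1 + g r
          linarith
      · exact hcont.intervalIntegrable _ _
    have h2 : φ T = T + ∫ r in (0 : ℝ)..T, e r := by
      show ∫ r in (0 : ℝ)..T, (1 + g r) = _
      rw [intervalIntegral.integral_add intervalIntegrable_const (hgc.intervalIntegrable _ _),
        intervalIntegral.integral_const, sub_zero, smul_eq_mul, mul_one]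
      congr 1
      apply intervalIntegral.integral_congr
      intro r hr
      rw [uIcc_of_le hT] at hr
      exact hge r hr
    linarith
  let Z : ℝ → ℝ := fun s => (e s - p s + (B + 1)) * Real.exp (-(B * φ s))
  have hZ : ∀ s ∈ Icc 0 T, HasDerivWithinAt Z
      (y' s * Real.exp (-(B * φ s)) + (e s - p s + (B + 1)) *
        (Real.exp (-(B * φ s)) * (-(B * (1 + g s))))) (Icc 0 T) s := by
    intro s hs
    have h1 := (hder s hs).add_const (B + 1)
    have h2 : HasDerivWithinAt (fun s => Real.exp (-(B * φ s)))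
        (Real.exp (-(B * φ s)) * (-(B * (1 + g s)))) (Icc 0 T) s :=
      (((hφ s).const_mul B).neg.exp).hasDerivWithinAt
    exact h1.mul h2
  have hanti : AntitoneOn Z (Icc 0 T) := by
    apply antitoneOn_of_deriv_nonpos (convex_Icc 0 T)
    · intro s hs
      exact (hZ s hs).continuousWithinAt
    · intro s hs
      rw [interior_Icc] at hs
      have := (hZ s (Ioo_subset_Icc_self hs)).hasDerivAt (Icc_mem_nhds hs.1 hs.2)
      exact this.differentiableAt.differentiableWithinAt
    · intro s hs
      rw [interior_Icc] at hs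
      have hs' := Ioo_subset_Icc_self hs
      have h1 := (hZ s hs').hasDerivAt (Icc_mem_nhds hs.1 hs.2)
      rw [h1.deriv, hge s hs']
      have h2 := hy' s hs'
      have h3 := abs_le.mp (hp s hs')
      have h4 := he0 s hs'
      have h5 : 0 < Real.exp (-(B * φ s)) := Real.exp_pos _
      have h6 : B * (1 + e s) ^ 2 ≤ (e s - p s + (B + 1)) * (B * (1 + e s)) := by
        have h7 : 1 + e s ≤ e s - p s + (B + 1) := by linarith [h3.2]
        have h8 : 0 ≤ B * (1 + e s) := by positivity
        nlinarith [mul_le_mul_of_nonneg_right h7 h8]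
      have h9 : y' s * Real.exp (-(B * φ s)) + (e s - p s + (B + 1)) *
          (Real.exp (-(B * φ s)) * (-(B * (1 + e s))))
          = (y' s - (e s - p s + (B + 1)) * (B * (1 + e s))) * Real.exp (-(B * φ s)) := by ring
      rw [h9]
      apply mul_nonpos_of_nonpos_of_nonneg _ h5.le
      linarith
  have hZt : Z t ≤ Z 0 := hanti h0 ht ht.1
  have hZ0 : Z 0 ≤ A + 2 * B + 1 := by
    show (e 0 - p 0 + (B + 1)) * Real.exp (-(B * φ 0)) ≤ _
    rw [hφ0, mul_zero, neg_zero, Real.exp_zero, mul_one]
    have := abs_le.mp (hp 0 h0)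
    linarith [this.1]
  have hYt : 1 + e t ≤ e t - p t + (B + 1) := by
    have := abs_le.mp (hp t ht)
    linarith [this.2]
  have hA : 0 ≤ A + 2 * B + 1 := by
    have := he0 0 h0
    linarith
  have h1 : (e t - p t + (B + 1)) ≤ (A + 2 * B + 1) * Real.exp (B * φ t) := by
    have h2 : (e t - p t + (B + 1)) * Real.exp (-(B * φ t)) ≤ A + 2 * B + 1 := hZt.trans hZ0
    rw [Real.exp_neg, ← div_eq_mul_inv, div_le_iff₀ (Real.exp_pos _)] at h2
    exact h2
  have h2 : Real.exp (B * φ t) ≤ Real.exp (B * (T + B)) :=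
    Real.exp_le_exp.mpr (mul_le_mul_of_nonneg_left hφt hB)
  have h3 := mul_le_mul_of_nonneg_left h2 hA
  linarith

end Pool.Agent.U401.DD
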