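import Mathlib
import Pool.Agent.U401.DD.Stm

/-!
# Project DD, package LIM: passage to the limit in the truncated systems (by helper251)
-/

set_option autoImplicit false
set_option linter.unusedSectionVars false

open MeasureTheory ProbabilityTheory Set Filter Topology
open scoped InnerProductSpace

namespace Pool.Agent.U401.DD.PLIM

open H772R2.NSR

variable {H K : Type} [NormedAddCommGroup H] [InnerProductSpace ℝ H] [CompleteSpace H]
  [NormedAddCommGroup K] [InnerProductSpace ℝ K] [CompleteSpace K]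

/-- the combination of the first vectors -/
noncomputable def XN {H : Type} [NormedAddCommGroup H] [InnerProductSpace ℝ H] (w : ℕ → H) (N : ℕ)
    (a : ℕ → ℝ) : H := ∑ k ∈ Finset.range (2 * N), a k • w k

section basic

variable {W : Submodule ℝ (H × K)} {m : H → K} {C : ℝ} {w : ℕ → H} {g : ℕ → K} {lam : ℕ → ℝ}

theorem XZ_mem (hB : Bas W w g lam) (N : ℕ) (a : ℕ → ℝ) : (XN w N a, XN g N a) ∈ W := by
  have h : (XN w N a, XN g N a) = ∑ k ∈ Finset.range (2 * N), a k • (w k, g k) := by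
    ext
    · simp [XN, Prod.fst_sum]
    · simp [XN, Prod.snd_sum]
  rw [h]
  exact W.sum_mem fun k _ => W.smul_mem _ (hB.mem k)

theorem w_XN (hB : Bas W w g lam) {N n : ℕ} (a : ℕ → ℝ) (hn : n < 2 * N) :
    ⟪w n, XN w N a⟫_ℝ = a n := by
  unfold XN
  exact hB.orth.inner_right_sum a (Finset.mem_range.2 hn)

theorem ZN_sq (hB : Bas W w g lam) (N : ℕ) (a : ℕ → ℝ) : ‖XN g N a‖ ^ 2 = Dd lam N a := by
  rw [← real_inner_self_eq_norm_sq]
  have h : ∀ n ∈ Finset.range (2 * N), ⟪g n, XN g N a⟫_ℝ = lam n * a n := by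
    intro n hn
    have h1 := hB.eig n (XN w N a, XN g N a) (XZ_mem hB N a)
    rw [w_XN hB a (Finset.mem_range.1 hn)] at h1
    exact h1
  conv_lhs => rw [show XN g N a = ∑ k ∈ Finset.range (2 * N), a k • g k from rfl]
  rw [sum_inner]
  unfold Dd
  refine Finset.sum_congr rfl fun n hn => ?_
  rw [real_inner_smul_left]
  have := h n hn
  unfold XN at this
  rw [this]
  ring

theorem lam_pos (hF : Frame W m C) (hB : Bas W w g lam) (n : ℕ) : 0 < lam n := by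
  have h1 := hB.eig n (w n, g n) (hB.mem n)
  simp only [real_inner_self_eq_norm_sq] at h1
  rw [hB.orth.1 n] at h1
  have h2 := hF.poinc (w n, g n) (hB.mem n)
  simp only at h2
  rw [hB.orth.1 n] at h2
  have h3 : ‖g n‖ ≠ 0 := by
    intro h
    rw [h] at h2
    linarith
  have h4 : 0 < ‖g n‖ := lt_of_le_of_ne (norm_nonneg _) (Ne.symm h3)
  have h5 : lam n = ‖g n‖ ^ 2 := by linarith
  rw [h5]
  positivity

theorem m_le (hF : Frame W m C) {p : H × K} (hp : p ∈ W) {R : ℝ} (hR : ‖p.2‖ ^ 2 ≤ R) :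
    ‖m p.1‖ ≤ C * R := by
  have hC := hF.C0
  have h1 := hF.quart p hp
  have h2 := hF.poinc p hp
  have h3 : ‖p.1‖ * ‖p.2‖ ^ 3 ≤ C * ‖p.2‖ * ‖p.2‖ ^ 3 :=
    mul_le_mul_of_nonneg_right h2 (by positivity)
  have hR0 : 0 ≤ R := (sq_nonneg _).trans hR
  have h4 : (‖p.2‖ ^ 2) ^ 2 ≤ R ^ 2 := pow_le_pow_left₀ (sq_nonneg _) hR 2
  have h5 : ‖m p.1‖ ^ 2 ≤ (C * R) ^ 2 := by
    calc ‖m p.1‖ ^ 2 ≤ C * (‖p.1‖ * ‖p.2‖ ^ 3) := h1
      _ ≤ C * (C * ‖p.2‖ * ‖p.2‖ ^ 3) := mul_le_mul_of_nonneg_left h3 hC.le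
      _ = C ^ 2 * (‖p.2‖ ^ 2) ^ 2 := by ring
      _ ≤ C ^ 2 * R ^ 2 := mul_le_mul_of_nonneg_left h4 (by positivity)
      _ = (C * R) ^ 2 := by ring
  exact le_of_sq_le_sq h5 (by positivity)

theorem coord_le {N : ℕ} {a : ℕ → ℝ} {R : ℝ} (hl : ∀ n, 0 < lam n) (h : Dd lam N a ≤ R) {k : ℕ}
    (hk : k < 2 * N) : |a k| ≤ Real.sqrt (R / lam k) := by
  apply Real.abs_le_sqrt
  rw [le_div_iff₀ (hl k)]
  have h1 : lam k * a k ^ 2 ≤ Dd lam N a := by
    unfold Dd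
    exact Finset.single_le_sum (f := fun n => lam n * a n ^ 2)
      (fun n _ => mul_nonneg (hl n).le (sq_nonneg _)) (Finset.mem_range.2 hk)
  linarith

/-- elements of `W` are determined by their coordinates -/
theorem eq_of_coord (hB : Bas W w g lam) {x y : H} {z z' : K} (hx : (x, z) ∈ W) (hy : (y, z') ∈ W)
    (h : ∀ n, ⟪w n, x⟫_ℝ = ⟪w n, y⟫_ℝ) : x = y := by
  have h1 : (x - y, z - z') ∈ W := W.sub_mem hx hy
  have h2 := hB.dens _ h1
  have h3 : (Submodule.span ℝ (range w) : Set H) ⊆ {v | ⟪v, x - y⟫_ℝ = 0} := by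
    intro v hv
    refine Submodule.span_induction (p := fun v _ => ⟪v, x - y⟫_ℝ = 0) ?_ ?_ ?_ ?_ hv
    · rintro _ ⟨n, rfl⟩
      rw [inner_sub_right, h n, sub_self]
    · exact inner_zero_left _
    · intro a b _ _ ha hb
      rw [inner_add_left, ha, hb, add_zero]
    · intro c a _ ha
      rw [real_inner_smul_left, ha, mul_zero]
  have h4 : IsClosed {v : H | ⟪v, x - y⟫_ℝ = 0} :=
    isClosed_eq (continuous_id.inner continuous_const) continuous_const
  have h5 : x - y ∈ {v : H | ⟪v, x - y⟫_ℝ = 0} := closure_minimal h3 h4 h2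
  have h6 : ⟪x - y, x - y⟫_ℝ = 0 := h5
  rw [inner_self_eq_zero] at h6
  exact sub_eq_zero.1 h6

end basic

/-- the right hand side of the truncated system -/
noncomputable def rN (bet : ℕ → ℕ → ℕ → ℝ) (lam om : ℕ → ℝ) (ν ε : ℝ) (fc : ℕ → ℝ → ℝ)
    (A : ℕ → ℕ → ℝ → ℝ) (N n : ℕ) (s : ℝ) : ℝ :=
  Nn bet lam ν N (fun k => A N k s) (fun k => fc k s) n + ε * rot om (fun k => A N k s) n

theorem rot_le {om a : ℕ → ℝ} {n : ℕ} {B B' : ℝ} (h : |a (n + 1)| ≤ B) (h' : |a (n - 1)| ≤ B') :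
    |rot om a n| ≤ |om (n / 2)| * (B + B') := by
  have hB : 0 ≤ B := (abs_nonneg _).trans h
  have hB' : 0 ≤ B' := (abs_nonneg _).trans h'
  unfold rot
  split_ifs
  · rw [abs_mul]
    exact mul_le_mul_of_nonneg_left (by linarith) (abs_nonneg _)
  · rw [abs_neg, abs_mul]
    exact mul_le_mul_of_nonneg_left (by linarith) (abs_nonneg _)

theorem rot_cont {om : ℕ → ℝ} {a : ℕ → ℝ → ℝ} {s : Set ℝ} {n : ℕ} (h : ContinuousOn (a (n + 1)) s)
    (h' : ContinuousOn (a (n - 1)) s) : ContinuousOn (fun t => rot om (fun k => a k t) n) s := by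
  unfold rot
  split_ifs
  · exact continuousOn_const.mul h
  · exact (continuousOn_const.mul h').neg

theorem rot_lim {ι : Type*} {l : Filter ι} {om : ℕ → ℝ} {a : ι → ℕ → ℝ} {b : ℕ → ℝ}
    (h : ∀ k, Tendsto (fun i => a i k) l (𝓝 (b k))) (n : ℕ) :
    Tendsto (fun i => rot om (a i) n) l (𝓝 (rot om b n)) := by
  unfold rot
  split_ifs
  · exact (h (n + 1)).const_mul _
  · exact ((h (n - 1)).const_mul _).neg

section main

variable {W : Submodule ℝ (H × K)} {m : H → K} {C : ℝ} {w : ℕ → H} {g : ℕ → K} {lam : ℕ → ℝ}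
  {om : ℕ → ℝ} {ν ε : ℝ} {f : ℝ → H} {A : ℕ → ℕ → ℝ → ℝ}

theorem bounds (hEXP : S_EXP) (hF : Frame W m C) (hQ : Quad W m) (hB : Bas W w g lam)
    (hf : ContinuousOn f (Ici 0))
    (hbd : ∀ T : ℝ, ∃ R : ℝ, ∀ N : ℕ, T ≤ (N : ℝ) → ∀ t ∈ Icc 0 T,
      Dd lam N (fun k => A N k t) ≤ R) (n : ℕ) (T : ℝ) :
    ∃ L : ℝ, 0 ≤ L ∧ ∀ N : ℕ, T ≤ N → n + 1 < 2 * N → ∀ t ∈ Icc 0 T, |A N n t| ≤ L ∧
      |rN (betf m w g) lam om ν ε (fun n t => ⟪w n, f t⟫_ℝ) A N n t| ≤ L := by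
  obtain ⟨R, hR⟩ := hbd T
  have hC := hF.C0
  have hl := lam_pos hF hB
  obtain ⟨Fm, hFm⟩ := isCompact_Icc.exists_bound_of_continuousOn
    (hf.mono (Icc_subset_Ici_self : Icc (0 : ℝ) T ⊆ Ici 0))
  have hln := hl n
  refine ⟨Real.sqrt (R / lam n) + (|ν| * lam n * Real.sqrt (R / lam n) + C * |R| * ‖g n‖ + |Fm| +
    |ε| * (|om (n / 2)| * (Real.sqrt (R / lam (n + 1)) + Real.sqrt (R / lam (n - 1))))),
    by positivity, ?_⟩
  intro N hN hn t ht
  have hD := hR N hN t ht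
  have a0 : |A N n t| ≤ Real.sqrt (R / lam n) := coord_le hl hD (by omega)
  have a1 : |A N (n + 1) t| ≤ Real.sqrt (R / lam (n + 1)) := coord_le hl hD (by omega)
  have a2 : |A N (n - 1) t| ≤ Real.sqrt (R / lam (n - 1)) := coord_le hl hD (by omega)
  have p1 : 0 ≤ |ν| * lam n * Real.sqrt (R / lam n) + C * |R| * ‖g n‖ + |Fm| +
    |ε| * (|om (n / 2)| * (Real.sqrt (R / lam (n + 1)) + Real.sqrt (R / lam (n - 1)))) := by
    positivity
  refine ⟨by linarith, ?_⟩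
  have b1 : |-ν * lam n * A N n t| ≤ |ν| * lam n * Real.sqrt (R / lam n) := by
    rw [abs_mul, abs_mul, abs_neg, abs_of_pos hln]
    exact mul_le_mul_of_nonneg_left a0 (by positivity)
  have b2 : |quad (betf m w g) N (fun k => A N k t) n| ≤ C * |R| * ‖g n‖ := by
    rw [← (hEXP W m C w g lam hF hQ hB).1 N (fun k => A N k t) n]
    refine (abs_real_inner_le_norm _ _).trans ?_
    refine mul_le_mul_of_nonneg_right ?_ (norm_nonneg _)
    have h1 := m_le hF (XZ_mem hB N fun k => A N k t) (R := |R|) (by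
      rw [ZN_sq hB]
      exact hD.trans (le_abs_self R))
    exact h1
  have b3 : |⟪w n, f t⟫_ℝ| ≤ |Fm| := by
    refine (abs_real_inner_le_norm _ _).trans ?_
    rw [hB.orth.1 n, one_mul]
    exact (hFm t ht).trans (le_abs_self _)
  have b4 : |ε * rot om (fun k => A N k t) n| ≤
      |ε| * (|om (n / 2)| * (Real.sqrt (R / lam (n + 1)) + Real.sqrt (R / lam (n - 1)))) := by
    rw [abs_mul]
    exact mul_le_mul_of_nonneg_left (rot_le a1 a2) (abs_nonneg _)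
  unfold rN Nn
  have c1 := abs_add_le (-ν * lam n * A N n t + quad (betf m w g) N (fun k => A N k t) n +
    ⟪w n, f t⟫_ℝ) (ε * rot om (fun k => A N k t) n)
  have c2 := abs_add_le (-ν * lam n * A N n t + quad (betf m w g) N (fun k => A N k t) n)
    (⟪w n, f t⟫_ℝ)
  have c3 := abs_add_le (-ν * lam n * A N n t) (quad (betf m w g) N (fun k => A N k t) n)
  have c4 : 0 ≤ Real.sqrt (R / lam n) := Real.sqrt_nonneg _
  linarith

theorem A_deriv (hGal : ∀ N, Gal (betf m w g) lam om ν ε N (N : ℝ) (fun n t => ⟪w n, f t⟫_ℝ) (A N))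
    {N n : ℕ} (hn : n < 2 * N) {t : ℝ} (ht : t ∈ Icc (0 : ℝ) N) : HasDerivWithinAt (A N n)
      (rN (betf m w g) lam om ν ε (fun n t => ⟪w n, f t⟫_ℝ) A N n t) (Icc 0 (N : ℝ)) t :=
  hGal N n hn t ht

theorem A_cont (hGal : ∀ N, Gal (betf m w g) lam om ν ε N (N : ℝ) (fun n t => ⟪w n, f t⟫_ℝ) (A N))
    {N n : ℕ} (hn : n < 2 * N) : ContinuousOn (A N n) (Icc 0 (N : ℝ)) :=
  fun _ ht => (A_deriv hGal hn ht).continuousWithinAt

theorem rN_cont (hf : ContinuousOn f (Ici 0))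
    (hGal : ∀ N, Gal (betf m w g) lam om ν ε N (N : ℝ) (fun n t => ⟪w n, f t⟫_ℝ) (A N))
    {N n : ℕ} (hn : n + 1 < 2 * N) :
    ContinuousOn (rN (betf m w g) lam om ν ε (fun n t => ⟪w n, f t⟫_ℝ) A N n) (Icc 0 (N : ℝ)) := by
  have hA : ∀ k < 2 * N, ContinuousOn (A N k) (Icc 0 (N : ℝ)) := fun k hk => A_cont hGal hk
  unfold rN Nn quad
  refine ContinuousOn.add (ContinuousOn.add (ContinuousOn.add ?_ ?_) ?_) ?_
  · exact continuousOn_const.mul (hA n (by omega))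
  · refine continuousOn_finsetSum _ fun k hk => continuousOn_finsetSum _ fun l hl => ?_
    exact (continuousOn_const.mul (hA k (Finset.mem_range.1 hk))).mul (hA l (Finset.mem_range.1 hl))
  · exact continuousOn_const.inner (𝕜 := ℝ) (hf.mono Icc_subset_Ici_self)
  · exact continuousOn_const.mul (rot_cont (hA (n + 1) (by omega)) (hA (n - 1) (by omega)))

theorem A_int (hf : ContinuousOn f (Ici 0))
    (hGal : ∀ N, Gal (betf m w g) lam om ν ε N (N : ℝ) (fun n t => ⟪w n, f t⟫_ℝ) (A N))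
    {N n : ℕ} (hn : n + 1 < 2 * N) {t : ℝ} (h0 : 0 ≤ t) (ht : t ≤ N) :
    ∫ s in (0 : ℝ)..t, rN (betf m w g) lam om ν ε (fun n t => ⟪w n, f t⟫_ℝ) A N n s =
      A N n t - A N n 0 := by
  have hsub : Icc 0 t ⊆ Icc 0 (N : ℝ) := Icc_subset_Icc_right ht
  refine intervalIntegral.integral_eq_sub_of_hasDerivAt_of_le h0
    ((A_cont hGal (by omega)).mono hsub) (fun s hs => ?_) ?_
  · exact (A_deriv hGal (by omega) ⟨hs.1.le, hs.2.le.trans ht⟩).hasDerivAt
      (Icc_mem_nhds hs.1 (hs.2.trans_le ht))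
  · apply ContinuousOn.intervalIntegrable
    rw [uIcc_of_le h0]
    exact (rN_cont hf hGal hn).mono hsub

theorem lipsA (hEXP : S_EXP) (hF : Frame W m C) (hQ : Quad W m) (hB : Bas W w g lam)
    (hf : ContinuousOn f (Ici 0))
    (hGal : ∀ N, Gal (betf m w g) lam om ν ε N (N : ℝ) (fun n t => ⟪w n, f t⟫_ℝ) (A N))
    (hbd : ∀ T : ℝ, ∃ R : ℝ, ∀ N : ℕ, T ≤ (N : ℝ) → ∀ t ∈ Icc 0 T,
      Dd lam N (fun k => A N k t) ≤ R) (n : ℕ) (T : ℝ) :
    ∃ L : ℝ, ∃ N₀ : ℕ, ∀ N, N₀ ≤ N → (∀ t ∈ Icc 0 T, |A N n t| ≤ L) ∧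
      ∀ s ∈ Icc 0 T, ∀ t ∈ Icc 0 T, |A N n s - A N n t| ≤ L * |s - t| := by
  obtain ⟨L, hL0, hL⟩ := bounds (ν := ν) (ε := ε) (om := om) hEXP hF hQ hB hf hbd n T
  refine ⟨L, max ⌈T⌉₊ (n + 1), fun N hN => ?_⟩
  have h1 : T ≤ N := (Nat.le_ceil T).trans (by exact_mod_cast (le_max_left _ _).trans hN)
  have h2 : n + 1 ≤ N := (le_max_right _ _).trans hN
  have h3 := hL N h1 (by omega)
  refine ⟨fun t ht => (h3 t ht).1, fun s hs t ht => ?_⟩
  have hsub : Icc 0 T ⊆ Icc 0 (N : ℝ) := Icc_subset_Icc_right h1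
  have h4 := (convex_Icc (0 : ℝ) T).norm_image_sub_le_of_norm_hasDerivWithin_le (f := A N n)
    (f' := fun s => rN (betf m w g) lam om ν ε (fun n t => ⟪w n, f t⟫_ℝ) A N n s) (C := L)
    (fun x hx => (A_deriv hGal (by omega) (hsub hx)).mono hsub) (fun x hx => (h3 x hx).2) ht hs
  simpa [Real.norm_eq_abs] using h4

/-- the strong limits -/
theorem strong (hCNV : S_CNV) (hF : Frame W m C) (hB : Bas W w g lam)
    (hlam : Tendsto lam atTop atTop) {Rf : ℝ → ℝ}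
    (hbd : ∀ (T : ℝ) (N : ℕ), T ≤ (N : ℝ) → ∀ t ∈ Icc 0 T, Dd lam N (fun k => A N k t) ≤ Rf T)
    {φ : ℕ → ℕ} (hφ : StrictMono φ) {α : ℕ → ℝ → ℝ}
    (hα : ∀ n t, 0 ≤ t → Tendsto (fun N => A (φ N) n t) atTop (𝓝 (α n t))) (t : ℝ) (ht : 0 ≤ t) :
    ∃ x z, (x, z) ∈ W ∧ ‖z‖ ≤ Real.sqrt (Rf (⌈t⌉₊ : ℕ)) ∧ (∀ n, ⟪w n, x⟫_ℝ = α n t) ∧
      Tendsto (fun N => XN w (φ N) fun k => A (φ N) k t) atTop (𝓝 x) ∧
      Tendsto (fun N => m (XN w (φ N) fun k => A (φ N) k t)) atTop (𝓝 (m x)) := by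
  set k : ℕ := ⌈t⌉₊ with hk
  have hφk : ∀ N, (k : ℝ) ≤ (φ (N + k) : ℕ) := fun N => by
    have : N + k ≤ φ (N + k) := hφ.id_le (N + k)
    have : k ≤ φ (N + k) := by omega
    exact_mod_cast this
  have htk : t ∈ Icc 0 (k : ℝ) := ⟨ht, Nat.le_ceil t⟩
  obtain ⟨x, z, h1, h2, h3, h4, h5⟩ := hCNV W m C w g lam hF hB hlam (Real.sqrt (Rf (k : ℕ)))
    (fun N => XN w (φ (N + k)) fun j => A (φ (N + k)) j t)
    (fun N => XN g (φ (N + k)) fun j => A (φ (N + k)) j t) (fun n => α n t)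
    (fun N => XZ_mem hB _ _) (fun N => by
      refine (le_abs_self _).trans (Real.abs_le_sqrt ?_)
      rw [ZN_sq hB]
      exact hbd k _ (hφk N) t htk) (fun n => by
      refine ((hα n t ht).comp (tendsto_add_atTop_nat k)).congr' ?_
      filter_upwards [eventually_gt_atTop n] with N hN
      have : N + k ≤ φ (N + k) := hφ.id_le (N + k)
      rw [w_XN hB _ (by omega)]
      rfl)
  exact ⟨x, z, h1, h2, h3, (tendsto_add_atTop_iff_nat k).1 h4, (tendsto_add_atTop_iff_nat k).1 h5⟩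

/-- continuity of limits -/
theorem cont_of_bdd (hCNV : S_CNV) (hF : Frame W m C) (hB : Bas W w g lam)
    (hlam : Tendsto lam atTop atTop) {x : ℝ → H} {z : ℝ → K} {α : ℕ → ℝ → ℝ}
    (hmem : ∀ t, 0 ≤ t → (x t, z t) ∈ W) (hb : ∀ T : ℝ, ∃ R : ℝ, ∀ t ∈ Icc 0 T, ‖z t‖ ≤ R)
    (hco : ∀ t, 0 ≤ t → ∀ n, ⟪w n, x t⟫_ℝ = α n t) (hα : ∀ n, ContinuousOn (α n) (Ici 0)) :
    ContinuousOn x (Ici 0) ∧ ContinuousOn (fun t => m (x t)) (Ici 0) := by
  have key : ∀ t, 0 ≤ t → ∀ τ : ℕ → ℝ, Tendsto τ atTop (𝓝[Ici 0] t) →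
      Tendsto (fun N => x (τ N)) atTop (𝓝 (x t)) ∧
      Tendsto (fun N => m (x (τ N))) atTop (𝓝 (m (x t))) := by
    intro t ht τ hτ
    have hτ2 := tendsto_nhdsWithin_iff.1 hτ
    obtain ⟨R, hR⟩ := hb (t + 1)
    have e1 : ∀ᶠ N in atTop, τ N ∈ Icc 0 (t + 1) := by
      filter_upwards [hτ2.2, hτ2.1.eventually_lt_const (show t < t + 1 by linarith)] with N h1 h2
      exact ⟨h1, h2.le⟩
    obtain ⟨k, hk⟩ := eventually_atTop.1 e1
    have hk' : ∀ N, τ (N + k) ∈ Icc 0 (t + 1) := fun N => hk (N + k) (by omega)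
    obtain ⟨x', z', h1, h2, h3, h4, h5⟩ := hCNV W m C w g lam hF hB hlam R
      (fun N => x (τ (N + k))) (fun N => z (τ (N + k))) (fun n => α n t)
      (fun N => hmem _ (hk' N).1) (fun N => hR _ (hk' N)) (fun n => by
        have q1 : Tendsto (fun N => α n (τ N)) atTop (𝓝 (α n t)) := (hα n t ht).tendsto.comp hτ
        have q2 := q1.comp (tendsto_add_atTop_nat k)
        refine q2.congr fun N => ?_
        rw [hco _ (hk' N).1]
        rfl)
    have e2 : x' = x t := eq_of_coord hB h1 (hmem t ht) fun n => by rw [h3, hco t ht]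
    rw [e2] at h4 h5
    exact ⟨(tendsto_add_atTop_iff_nat k).1 h4, (tendsto_add_atTop_iff_nat k).1 h5⟩
  constructor
  · intro t ht
    exact tendsto_iff_seq_tendsto.2 fun τ hτ => (key t ht τ hτ).1
  · intro t ht
    exact tendsto_iff_seq_tendsto.2 fun τ hτ => (key t ht τ hτ).2

theorem lips_cont {a : ℝ → ℝ} (h : ∀ T : ℝ, ∃ L : ℝ, ∀ s ∈ Icc 0 T, ∀ t ∈ Icc 0 T,
    |a s - a t| ≤ L * |s - t|) : ContinuousOn a (Ici 0) := by
  intro t ht
  obtain ⟨L, hL⟩ := h (t + 1)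
  have h1 : LipschitzOnWith (Real.toNNReal L) a (Icc 0 (t + 1)) := by
    refine LipschitzOnWith.of_dist_le_mul fun s hs r hr => ?_
    rw [Real.dist_eq, Real.dist_eq]
    refine (hL s hs r hr).trans (mul_le_mul_of_nonneg_right ?_ (abs_nonneg _))
    exact Real.le_coe_toNNReal L
  have h2 : ContinuousWithinAt a (Icc 0 (t + 1)) t :=
    h1.continuousOn t ⟨ht, by linarith⟩
  refine h2.mono_of_mem_nhdsWithin ?_
  refine mem_nhdsWithin.2 ⟨Iio (t + 1), isOpen_Iio, ?_, fun s hs => ⟨hs.2, hs.1.le⟩⟩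
  show t < t + 1
  linarith

/-- the right hand side of the limit system -/
noncomputable def rI (m : H → K) (w : ℕ → H) (g : ℕ → K) (lam om : ℕ → ℝ) (ν ε : ℝ) (f x : ℝ → H)
    (n : ℕ) (t : ℝ) : ℝ :=
  -ν * lam n * ⟪w n, x t⟫_ℝ + ⟪m (x t), g n⟫_ℝ + ⟪w n, f t⟫_ℝ +
      ε * rot om (fun k => ⟪w k, x t⟫_ℝ) n

theorem deriv_of_int {a r : ℝ → ℝ} (hr : ContinuousOn r (Ici 0))
    (h : ∀ t, 0 ≤ t → a t = a 0 + ∫ s in (0 : ℝ)..t, r s) {t : ℝ} (ht : 0 ≤ t) :
    HasDerivWithinAt a (r t) (Ici 0) t := by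
  have hc : Continuous fun s : ℝ => r (max s 0) :=
    hr.comp_continuous (continuous_id.max continuous_const) fun s =>
      mem_Ici.2 (le_max_right (id s) (0 : ℝ))
  have h1 : HasDerivAt (fun u => ∫ s in (0 : ℝ)..u, r (max s 0)) (r (max t 0)) t :=
    intervalIntegral.integral_hasDerivAt_right (hc.intervalIntegrable _ _)
      (hc.stronglyMeasurableAtFilter _ _) hc.continuousAt
  rw [max_eq_left ht] at h1
  have h2 := (h1.const_add (a 0)).hasDerivWithinAt (s := Ici 0)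
  refine h2.congr_of_mem (fun u hu => ?_) ht
  rw [h u hu]
  congr 1
  apply intervalIntegral.integral_congr
  intro s hs
  have hu' : (0 : ℝ) ≤ u := hu
  rw [uIcc_of_le hu'] at hs
  simp only [max_eq_left hs.1]

end main

end Pool.Agent.U401.DD.PLIM

namespace Pool.Agent.U401.DD

open H772R2.NSR PLIM

/-- **package LIM** -/
theorem t_LIM : S_LIM := by
  intro hSEQ hCNV hEXP H K _ _ _ _ _ _ W m C w g lam hF hQ hB hlam om ν ε f hf u₀ z₀ hu A hGal
    hinit hbd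
  obtain ⟨φ, α, hφ, hα⟩ := hSEQ A (lipsA (ν := ν) (ε := ε) (om := om) hEXP hF hQ hB hf hGal hbd)
  have hφN : ∀ N, N ≤ φ N := hφ.id_le
  -- the limits of the coordinates
  have hαL : ∀ n, ContinuousOn (α n) (Ici 0) := by
    intro n
    apply lips_cont
    intro T
    obtain ⟨L, N₀, hL⟩ := lipsA (ν := ν) (ε := ε) (om := om) hEXP hF hQ hB hf hGal hbd n T
    refine ⟨L, fun s hs t ht => ?_⟩
    refine le_of_tendsto ((hα n s hs.1).sub (hα n t ht.1)).abs ?_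
    filter_upwards [eventually_ge_atTop N₀] with N hN
    exact (hL (φ N) (hN.trans (hφN N))).2 s hs t ht
  choose Rf hRf using hbd
  have key : ∀ t : ℝ, ∃ x z, 0 ≤ t → ((x, z) ∈ W ∧ ‖z‖ ≤ Real.sqrt (Rf (⌈t⌉₊ : ℕ)) ∧
      (∀ n, ⟪w n, x⟫_ℝ = α n t) ∧
      Tendsto (fun N => XN w (φ N) fun k => A (φ N) k t) atTop (𝓝 x) ∧
      Tendsto (fun N => m (XN w (φ N) fun k => A (φ N) k t)) atTop (𝓝 (m x))) := by
    intro t
    by_cases ht : 0 ≤ t
    · obtain ⟨x, z, h⟩ := strong hCNV hF hB hlam hRf hφ hα t ht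
      exact ⟨x, z, fun _ => h⟩
    · exact ⟨0, 0, fun h => absurd h ht⟩
  choose x z hxz using key
  have hmem : ∀ t, 0 ≤ t → (x t, z t) ∈ W := fun t ht => (hxz t ht).1
  have hco : ∀ t, 0 ≤ t → ∀ n, ⟪w n, x t⟫_ℝ = α n t := fun t ht => (hxz t ht).2.2.1
  have hb : ∀ T : ℝ, ∃ R : ℝ, ∀ t ∈ Icc 0 T, ‖z t‖ ≤ R := by
    intro T
    refine ⟨∑ j ∈ Finset.range (⌈T⌉₊ + 1), Real.sqrt (Rf (j : ℕ)), fun t ht => ?_⟩
    refine (hxz t ht.1).2.1.trans ?_
    exact Finset.single_le_sum (f := fun j : ℕ => Real.sqrt (Rf (j : ℕ)))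
      (fun _ _ => Real.sqrt_nonneg _)
      (Finset.mem_range.2 (Nat.lt_succ_of_le (Nat.ceil_mono ht.2)))
  obtain ⟨hxc, hmc⟩ := cont_of_bdd hCNV hF hB hlam hmem hb hco hαL
  have hbd' : ∀ T : ℝ, ∃ R : ℝ, ∀ N : ℕ, T ≤ (N : ℝ) → ∀ t ∈ Icc 0 T,
      Dd lam N (fun k => A N k t) ≤ R := fun T => ⟨Rf T, hRf T⟩
  refine ⟨x, z, hmem, ?_, hxc, hb, ?_⟩
  · refine eq_of_coord hB (hmem 0 le_rfl) hu fun n => ?_
    rw [hco 0 le_rfl]
    refine tendsto_nhds_unique (hα n 0 le_rfl) ?_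
    refine tendsto_const_nhds.congr' ?_
    filter_upwards [eventually_gt_atTop n] with N hN
    have := hφN N
    rw [hinit (φ N) n (by omega)]
  · intro n t ht
    have hrc : ContinuousOn (rI m w g lam om ν ε f x n) (Ici 0) := by
      unfold rI
      have hw : ∀ k, ContinuousOn (fun s => ⟪w k, x s⟫_ℝ) (Ici 0) := fun k =>
        continuousOn_const.inner (𝕜 := ℝ) hxc
      refine ContinuousOn.add (ContinuousOn.add (ContinuousOn.add ?_ ?_) ?_) ?_
      · exact continuousOn_const.mul (hw n)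
      · exact hmc.inner (𝕜 := ℝ) continuousOn_const
      · exact continuousOn_const.inner (𝕜 := ℝ) hf
      · exact continuousOn_const.mul (rot_cont (hw (n + 1)) (hw (n - 1)))
    have hint : ∀ t, 0 ≤ t → ⟪w n, x t⟫_ℝ = ⟪w n, x 0⟫_ℝ +
        ∫ s in (0 : ℝ)..t, rI m w g lam om ν ε f x n s := by
      intro t ht
      obtain ⟨L, hL0, hL⟩ := bounds (ν := ν) (ε := ε) (om := om) hEXP hF hQ hB hf hbd' n t
      have hlim : Tendsto (fun N => ∫ s in (0 : ℝ)..t,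
          rN (betf m w g) lam om ν ε (fun n t => ⟪w n, f t⟫_ℝ) A (φ N) n s) atTop
          (𝓝 (∫ s in (0 : ℝ)..t, rI m w g lam om ν ε f x n s)) := by
        apply intervalIntegral.tendsto_integral_filter_of_dominated_convergence (fun _ => L)
        · filter_upwards [eventually_gt_atTop n, eventually_ge_atTop ⌈t⌉₊] with N hN hN2
          have := hφN N
          have h1 : t ≤ (φ N : ℕ) := (Nat.le_ceil t).trans (by exact_mod_cast hN2.trans this)
          have h2 := (rN_cont hf hGal (N := φ N) (n := n) (by omega)).mono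
            (Icc_subset_Icc_right h1)
          rw [uIoc_of_le ht]
          exact (h2.mono Ioc_subset_Icc_self).aestronglyMeasurable measurableSet_Ioc
        · filter_upwards [eventually_gt_atTop n, eventually_ge_atTop ⌈t⌉₊] with N hN hN2
          have := hφN N
          have h1 : t ≤ (φ N : ℕ) := (Nat.le_ceil t).trans (by exact_mod_cast hN2.trans this)
          refine Eventually.of_forall fun s hs => ?_
          rw [uIoc_of_le ht] at hs
          exact (hL (φ N) h1 (by omega) s ⟨hs.1.le, hs.2⟩).2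
        · exact intervalIntegrable_const
        · refine Eventually.of_forall fun s hs => ?_
          rw [uIoc_of_le ht] at hs
          have hs0 : 0 ≤ s := hs.1.le
          have hA : ∀ k, Tendsto (fun N => A (φ N) k s) atTop (𝓝 ⟪w k, x s⟫_ℝ) := fun k => by
            rw [hco s hs0 k]
            exact hα k s hs0
          unfold rN Nn rI
          refine Tendsto.add (Tendsto.add (Tendsto.add ?_ ?_) ?_) ?_
          · exact (hA n).const_mul _
          · have h1 := (hxz s hs0).2.2.2.2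
            have h2 : Tendsto (fun N => ⟪m (XN w (φ N) fun k => A (φ N) k s), g n⟫_ℝ) atTop
                (𝓝 ⟪m (x s), g n⟫_ℝ) := h1.inner tendsto_const_nhds
            refine h2.congr fun N => ?_
            exact (hEXP W m C w g lam hF hQ hB).1 (φ N) (fun k => A (φ N) k s) n
          · exact tendsto_const_nhds
          · exact (rot_lim hA n).const_mul _
      have hlim2 : Tendsto (fun N => A (φ N) n t - A (φ N) n 0) atTop
          (𝓝 (⟪w n, x t⟫_ℝ - ⟪w n, x 0⟫_ℝ)) := by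
        rw [hco t ht, hco 0 le_rfl]
        exact (hα n t ht).sub (hα n 0 le_rfl)
      have h3 : Tendsto (fun N => ∫ s in (0 : ℝ)..t,
          rN (betf m w g) lam om ν ε (fun n t => ⟪w n, f t⟫_ℝ) A (φ N) n s) atTop
          (𝓝 (⟪w n, x t⟫_ℝ - ⟪w n, x 0⟫_ℝ)) := by
        refine hlim2.congr' ?_
        filter_upwards [eventually_gt_atTop n, eventually_ge_atTop ⌈t⌉₊] with N hN hN2
        have := hφN N
        have h1 : t ≤ (φ N : ℕ) := (Nat.le_ceil t).trans (by exact_mod_cast hN2.trans this)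
        exact (A_int hf hGal (by omega) ht h1).symm
      have h4 := tendsto_nhds_unique hlim h3
      rw [h4]
      ring
    exact deriv_of_int (a := fun s => ⟪w n, x s⟫_ℝ) hrc hint ht

end Pool.Agent.U401.DD
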