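import Mathlib
import Pool.Agent.U401.DD.Stm

set_option autoImplicit false

/-!
Project DD, package ODE: solvability of the truncated systems.
-/

open MeasureTheory Set Filter Topology Metric
open scoped InnerProductSpace NNReal

namespace Pool.Agent.U401.DD

open H772R2.NSR

/-- extension by zero -/
noncomputable def extZ (N : ℕ) (x : EuclideanSpace ℝ (Fin (2 * N))) (n : ℕ) : ℝ :=
  if h : n < 2 * N then x ⟨n, h⟩ else 0

theorem extZ_lt {N : ℕ} (x : EuclideanSpace ℝ (Fin (2 * N))) {n : ℕ} (h : n < 2 * N) :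
    extZ N x n = x ⟨n, h⟩ := by
  simp [extZ, h]

theorem contDiff_extZ (N n : ℕ) : ContDiff ℝ 1 (fun x => extZ N x n) := by
  unfold extZ
  split_ifs with h
  · exact (EuclideanSpace.proj (⟨n, h⟩ : Fin (2 * N)) :
      EuclideanSpace ℝ (Fin (2 * N)) →L[ℝ] ℝ).contDiff
  · exact contDiff_const

/-- the time independent part of the vector field -/
noncomputable def vfA (bet : ℕ → ℕ → ℕ → ℝ) (lam om : ℕ → ℝ) (ν ε : ℝ) (N : ℕ)
    (x : EuclideanSpace ℝ (Fin (2 * N))) : EuclideanSpace ℝ (Fin (2 * N)) :=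
  WithLp.toLp 2 (fun i : Fin (2 * N) => -ν * lam i * extZ N x i + quad bet N (extZ N x) i +
    ε * rot om (extZ N x) i)

/-- the force -/
noncomputable def vfF (N : ℕ) (f : ℕ → ℝ → ℝ) (t : ℝ) : EuclideanSpace ℝ (Fin (2 * N)) :=
  WithLp.toLp 2 (fun i : Fin (2 * N) => f i t)

theorem contDiff_vfA (bet : ℕ → ℕ → ℕ → ℝ) (lam om : ℕ → ℝ) (ν ε : ℝ) (N : ℕ) :
    ContDiff ℝ 1 (vfA bet lam om ν ε N) := by
  rw [contDiff_euclidean]
  intro i
  show ContDiff ℝ 1 (fun x => -ν * lam i * extZ N x i + quad bet N (extZ N x) i +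
    ε * rot om (extZ N x) i)
  refine ((contDiff_const.mul (contDiff_extZ N i)).add ?_).add (contDiff_const.mul ?_)
  · unfold quad
    exact ContDiff.sum fun k _ => ContDiff.sum fun l _ =>
      (contDiff_const.mul (contDiff_extZ N k)).mul (contDiff_extZ N l)
  · unfold rot
    split_ifs
    · exact contDiff_const.mul (contDiff_extZ N _)
    · exact (contDiff_const.mul (contDiff_extZ N _)).neg

theorem sum_quad {bet : ℕ → ℕ → ℕ → ℝ}
    (cyc : ∀ k l n, bet k l n + bet l n k + bet n k l = 0) (N : ℕ) (a : ℕ → ℝ) :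
    ∑ n ∈ Finset.range (2 * N), quad bet N a n * a n = 0 := by
  set R := Finset.range (2 * N)
  set S : ℝ := ∑ n ∈ R, ∑ k ∈ R, ∑ l ∈ R, bet k l n * a k * a l * a n with hS
  have h0 : ∑ n ∈ R, quad bet N a n * a n = S := by
    refine Finset.sum_congr rfl fun n _ => ?_
    unfold quad
    rw [Finset.sum_mul]
    refine Finset.sum_congr rfl fun k _ => ?_
    rw [Finset.sum_mul]
  have h1 : S = ∑ n ∈ R, ∑ k ∈ R, ∑ l ∈ R, bet l n k * a k * a l * a n := by
    rw [hS]
    -- rename: n → k, k → l, l → n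
    have e1 : (∑ n ∈ R, ∑ k ∈ R, ∑ l ∈ R, bet l n k * a k * a l * a n)
        = ∑ k ∈ R, ∑ n ∈ R, ∑ l ∈ R, bet l n k * a k * a l * a n := Finset.sum_comm
    rw [e1]
    refine Finset.sum_congr rfl fun k _ => ?_
    rw [Finset.sum_comm]
    refine Finset.sum_congr rfl fun l _ => Finset.sum_congr rfl fun n _ => ?_
    ring
  have h2 : S = ∑ n ∈ R, ∑ k ∈ R, ∑ l ∈ R, bet n k l * a k * a l * a n := by
    rw [hS]
    have e1 : (∑ n ∈ R, ∑ k ∈ R, ∑ l ∈ R, bet n k l * a k * a l * a n)
        = ∑ n ∈ R, ∑ l ∈ R, ∑ k ∈ R, bet n k l * a k * a l * a n :=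
      Finset.sum_congr rfl fun n _ => Finset.sum_comm
    rw [e1, Finset.sum_comm]
    refine Finset.sum_congr rfl fun l _ => Finset.sum_congr rfl fun n _ =>
      Finset.sum_congr rfl fun k _ => ?_
    ring
  have h3 : S + S + S = 0 := by
    have h4 : S + S + S = (∑ n ∈ R, ∑ k ∈ R, ∑ l ∈ R, bet k l n * a k * a l * a n) +
        (∑ n ∈ R, ∑ k ∈ R, ∑ l ∈ R, bet l n k * a k * a l * a n) +
        (∑ n ∈ R, ∑ k ∈ R, ∑ l ∈ R, bet n k l * a k * a l * a n) := by
      rw [← h1, ← h2]
    rw [h4, ← Finset.sum_add_distrib, ← Finset.sum_add_distrib]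
    refine Finset.sum_eq_zero fun n _ => ?_
    rw [← Finset.sum_add_distrib, ← Finset.sum_add_distrib]
    refine Finset.sum_eq_zero fun k _ => ?_
    rw [← Finset.sum_add_distrib, ← Finset.sum_add_distrib]
    refine Finset.sum_eq_zero fun l _ => ?_
    have := cyc k l n
    linear_combination (a k * a l * a n) * this
  rw [h0]
  linarith

theorem sum_rot (om : ℕ → ℝ) (N : ℕ) (a : ℕ → ℝ) :
    ∑ n ∈ Finset.range (2 * N), rot om a n * a n = 0 := by
  induction N with
  | zero => simp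
  | succ N ih =>
    rw [show 2 * (N + 1) = 2 * N + 1 + 1 by ring, Finset.sum_range_succ, Finset.sum_range_succ, ih]
    have h1 : rot om a (2 * N) = om N * a (2 * N + 1) := by
      unfold rot
      rw [if_pos (by omega), show 2 * N / 2 = N by omega]
    have h2 : rot om a (2 * N + 1) = -(om N * a (2 * N)) := by
      unfold rot
      rw [if_neg (by omega), show (2 * N + 1) / 2 = N by omega, show 2 * N + 1 - 1 = 2 * N by omega]
    rw [h1, h2]
    ring

theorem t_ODE : S_ODE := by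
  intro bet lam om K ε ν D hν N T f a₀ hT hf
  have hA := contDiff_vfA bet lam om ν ε N
  have hlip : ∀ R : ℝ, ∃ C : ℝ≥0, ∀ t ∈ Icc 0 T,
      LipschitzOnWith C (fun x => vfA bet lam om ν ε N x + vfF N f t) (closedBall 0 R) := by
    intro R
    have hcd : Continuous (fun x => fderiv ℝ (vfA bet lam om ν ε N) x) :=
      hA.continuous_fderiv (by norm_num)
    obtain ⟨B, hB⟩ := ((isCompact_closedBall (0 : EuclideanSpace ℝ (Fin (2 * N))) R).image
      hcd).isBounded.exists_norm_le
    refine ⟨Real.toNNReal B, fun t _ => ?_⟩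
    have h1 : LipschitzOnWith (Real.toNNReal B) (vfA bet lam om ν ε N) (closedBall 0 R) := by
      refine Convex.lipschitzOnWith_of_nnnorm_fderiv_le (𝕜 := ℝ)
        (fun x _ => (hA.differentiable (by norm_num)) x) (fun x hx => ?_) (convex_closedBall _ _)
      rw [← NNReal.coe_le_coe, coe_nnnorm]
      exact (hB _ ⟨x, hx, rfl⟩).trans (Real.le_coe_toNNReal B)
    refine LipschitzOnWith.of_dist_le_mul fun x hx y hy => ?_
    rw [dist_add_right]
    exact h1.dist_le_mul x hx y hy
  have hcF : ContinuousOn (fun t => vfF N f t) (Icc 0 T) := by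
    unfold vfF
    refine (PiLp.continuous_toLp 2 _).comp_continuousOn ?_
    exact continuousOn_pi.mpr fun i => hf i
  have hcont : ∀ x, ContinuousOn (fun t => vfA bet lam om ν ε N x + vfF N f t) (Icc 0 T) :=
    fun x => continuousOn_const.add hcF
  obtain ⟨c, hc⟩ : ∃ c : ℝ, ∀ t ∈ Icc 0 T,
      ∑ n ∈ Finset.range (2 * N), f n t ^ 2 / (4 * ν * lam n) ≤ c := by
    have hg : ContinuousOn (fun t => ∑ n ∈ Finset.range (2 * N), f n t ^ 2 / (4 * ν * lam n))
        (Icc 0 T) :=
      continuousOn_finsetSum _ fun n _ => ((hf n).pow 2).div_const _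
    obtain ⟨B0, h⟩ := (isCompact_Icc.image_of_continuousOn hg).isBounded.exists_norm_le
    exact ⟨B0, fun t ht => (le_abs_self _).trans (h _ ⟨t, ht, rfl⟩)⟩
  have hc0 : 0 ≤ c := by
    refine le_trans ?_ (hc 0 ⟨le_rfl, hT⟩)
    refine Finset.sum_nonneg fun n _ => ?_
    have := D.pos n
    positivity
  have hen : ∀ t ∈ Icc 0 T, ∀ x : EuclideanSpace ℝ (Fin (2 * N)),
      ⟪vfA bet lam om ν ε N x + vfF N f t, x⟫_ℝ ≤ c := by
    intro t ht x
    refine le_trans ?_ (hc t ht)
    have e1 : ⟪vfA bet lam om ν ε N x + vfF N f t, x⟫_ℝ =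
        ∑ n ∈ Finset.range (2 * N), (-ν * lam n * extZ N x n + quad bet N (extZ N x) n +
          ε * rot om (extZ N x) n + f n t) * extZ N x n := by
      rw [Finset.sum_range, PiLp.inner_apply]
      refine Finset.sum_congr rfl fun i _ => ?_
      have e3 : (vfA bet lam om ν ε N x + vfF N f t) i = (-ν * lam i * extZ N x i +
          quad bet N (extZ N x) i + ε * rot om (extZ N x) i) + f i t := rfl
      have e4 : x i = extZ N x i := (extZ_lt x i.2).symm
      rw [e3, e4, real_inner_eq_re_inner]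
      simp [mul_comm]
    have e2 : ∑ n ∈ Finset.range (2 * N), (-ν * lam n * extZ N x n + quad bet N (extZ N x) n +
          ε * rot om (extZ N x) n + f n t) * extZ N x n
        = ∑ n ∈ Finset.range (2 * N), (-ν * lam n * extZ N x n ^ 2 + f n t * extZ N x n) +
          ∑ n ∈ Finset.range (2 * N), quad bet N (extZ N x) n * extZ N x n +
          ε * ∑ n ∈ Finset.range (2 * N), rot om (extZ N x) n * extZ N x n := by
      rw [Finset.mul_sum, ← Finset.sum_add_distrib, ← Finset.sum_add_distrib]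
      refine Finset.sum_congr rfl fun n _ => ?_
      ring
    rw [e1, e2, sum_quad D.cyc, sum_rot, mul_zero, add_zero, add_zero]
    refine Finset.sum_le_sum fun n _ => ?_
    have hp := D.pos n
    rw [le_div_iff₀ (by positivity)]
    nlinarith [sq_nonneg (2 * ν * lam n * extZ N x n - f n t)]
  obtain ⟨x, hx0, hx, -⟩ := exists_global
    (fun t (x : EuclideanSpace ℝ (Fin (2 * N))) => vfA bet lam om ν ε N x + vfF N f t)
    hT hlip hcont (WithLp.toLp 2 (fun i : Fin (2 * N) => a₀ i)) hc0 hen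
  refine ⟨fun n t => extZ N (x t) n, ?_, ?_⟩
  · intro n hn t ht
    have h1 := (EuclideanSpace.proj (⟨n, hn⟩ : Fin (2 * N)) :
      EuclideanSpace ℝ (Fin (2 * N)) →L[ℝ] ℝ).hasFDerivAt.comp_hasDerivWithinAt t (hx t ht)
    have e1 : (fun s => extZ N (x s) n) = ⇑(EuclideanSpace.proj (⟨n, hn⟩ : Fin (2 * N)) :
      EuclideanSpace ℝ (Fin (2 * N)) →L[ℝ] ℝ) ∘ x := by
      funext s
      simp [extZ_lt _ hn]
    show HasDerivWithinAt (fun s => extZ N (x s) n) _ _ _
    rw [e1]
    refine h1.congr_deriv ?_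
    change (-ν * lam n * extZ N (x t) n + quad bet N (extZ N (x t)) n +
      ε * rot om (extZ N (x t)) n) + f n t =
      (-ν * lam n * extZ N (x t) n + quad bet N (extZ N (x t)) n + f n t) +
      ε * rot om (extZ N (x t)) n
    ring
  · intro n hn
    show extZ N (x 0) n = a₀ n
    rw [hx0, extZ_lt _ hn]

end Pool.Agent.U401.DD
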