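import Mathlib
import Pool.Agent.U401.DD.Stm4
import Pool.Agent.U261.DD.Prn1

/-!
Project DD, part PRN2: almost surely there are finitely many near-resonant triples, for frequencies of low
order.  The proof is the one of the part PRN (helper261).
-/

set_option autoImplicit false

open MeasureTheory ProbabilityTheory Set Filter Topology

namespace Pool.Agent.U401.DD

open PRNaux in
theorem t_PRN2 : S_PRN2 := by
  classical
  intro lam K hlam hK σ D hσ hD0 Ω _ μ _ Z hZ hI hDens
  set b := σ - 6 with hb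
  have hb3 : 9 / 2 < b := by rw [hb]; linarith
  have hGG1 : ∀ j, 1 ≤ GG lam j := fun j => by
    unfold GG gg
    have h1 := hlam (2 * j)
    have h2 := hlam (2 * j + 1)
    linarith
  have hGG0 : ∀ j, 0 < GG lam j := fun j => lt_of_lt_of_le one_pos (hGG1 j)
  have hK0 : 0 < K := by
    have h1 := hK 0
    have h2 : 0 < GG lam 0 ^ (3 / 2 : ℝ) := Real.rpow_pos_of_pos (hGG0 0) _
    by_contra h3
    rw [not_lt] at h3
    have h4 := mul_nonpos_of_nonpos_of_nonneg h3 h2.le
    push_cast at h1
    linarith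
  -- the bound
  let r : ℕ → ℝ := fun n => (((n : ℝ) + 1) / K) ^ (-(2 * b / 9))
  have hr0 : ∀ n, 0 ≤ r n := fun n => by positivity
  let q : Ix → ℝ := fun κ => r κ.1 * 1
  have hrs : Summable r := by
    have h1 : Summable fun n : ℕ => ((n : ℝ)) ^ (-(2 * b / 9)) := by
      rw [Real.summable_nat_rpow]; linarith
    have h2 := ((summable_nat_add_iff 1).2 h1).mul_right ((K ^ (-(2 * b / 9)))⁻¹)
    refine h2.congr fun n => ?_
    show ((n + 1 : ℕ) : ℝ) ^ (-(2 * b / 9)) * (K ^ (-(2 * b / 9)))⁻¹ =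
      (((n : ℝ) + 1) / K) ^ (-(2 * b / 9))
    rw [Real.div_rpow (by positivity) hK0.le]
    push_cast
    rfl
  have hqs : Summable q :=
    hrs.mul_of_nonneg (g := fun _ : Bool => (1 : ℝ)) (Summable.of_finite) hr0 (fun _ => zero_le_one)
  have hq0 : ∀ κ, 0 ≤ q κ := fun κ => mul_nonneg (hr0 _) zero_le_one
  have hF : Summable fun t : Ix × Ix × Ix => 2 * D * (q t.1 * (q t.2.1 * q t.2.2)) := by
    refine Summable.mul_left _ ?_
    exact hqs.mul_of_nonneg (hqs.mul_of_nonneg hqs hq0 hq0) hq0
      (fun x => mul_nonneg (hq0 _) (hq0 _))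
  have key : ∀ t : Ix × Ix × Ix,
      μ {ω | near2 lam (fun j => GG lam j ^ σ * Z j ω) t.1 t.2.1 t.2.2} ≤
        ENNReal.ofReal (2 * D * (q t.1 * (q t.2.1 * q t.2.2))) := by
    rintro ⟨κ, l, m⟩
    simp only
    by_cases hs : same κ l m
    · have : {ω | near2 lam (fun j => GG lam j ^ σ * Z j ω) κ l m} = ∅ := by
        ext ω; simp [near2, hs]
      rw [this, measure_empty]; exact bot_le
    by_cases hre : res κ l m
    · have : {ω | near2 lam (fun j => GG lam j ^ σ * Z j ω) κ l m} = ∅ := by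
        ext ω; simp [near2, hre]
      rw [this, measure_empty]; exact bot_le
    -- the largest plane
    obtain ⟨p, hp, hpm⟩ : ∃ p ∈ PP κ l m, GG lam p = mxG lam κ l m := by
      unfold mxG
      rcases max_choice (GG lam κ.1) (max (GG lam l.1) (GG lam m.1)) with h | h
      · exact ⟨κ.1, by simp [PP], h.symm⟩
      · rcases max_choice (GG lam l.1) (GG lam m.1) with h' | h'
        · exact ⟨l.1, by simp [PP], by rw [h, h']⟩
        · exact ⟨m.1, by simp [PP], by rw [h, h']⟩
    set M := mxG lam κ l m with hM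
    have hMk : GG lam κ.1 ≤ M := le_max_left _ _
    have hMl : GG lam l.1 ≤ M := (le_max_left _ _).trans (le_max_right _ _)
    have hMm : GG lam m.1 ≤ M := (le_max_right _ _).trans (le_max_right _ _)
    have hM1 : 1 ≤ M := (hGG1 κ.1).trans hMk
    have hM0 : 0 < M := by linarith
    set c : ℕ → ℝ := fun j => ee κ l m j * GG lam j ^ σ with hc
    let f : ℕ → Ω → ℝ := fun j => (fun x => c j * x) ∘ Z j
    have hfI : iIndepFun f μ := hI.comp (fun j x => c j * x) (fun j => measurable_const_mul _)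
    have hfm : ∀ j, Measurable (f j) := fun j => (hZ j).const_mul (c j)
    have hind := hfI.indepFun_finsetSum_of_notMem hfm (Finset.notMem_erase p (PP κ l m))
    have hcp : 1 ≤ |ee κ l m p| := ee_ge κ l m hre p hp
    have hcabs : M ^ σ ≤ |c p| := by
      rw [hc]
      simp only
      rw [abs_mul, hpm, abs_of_pos (Real.rpow_pos_of_pos hM0 σ)]
      have h5 := Real.rpow_pos_of_pos hM0 σ
      nlinarith
    have hc0 : 0 < |c p| := lt_of_lt_of_le (Real.rpow_pos_of_pos hM0 σ) hcabs
    have hcne : c p ≠ 0 := abs_pos.mp hc0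
    -- density of `c_p Z_p`
    have hdens : ∀ r s, r ≤ s → μ {ω | f p ω ∈ Icc r s} ≤ ENNReal.ofReal (D / |c p| * (s - r)) := by
      intro r s hrs'
      rcases lt_or_gt_of_ne hcne with hneg | hpos
      · have h1 := hDens p (s / c p) (r / c p) (div_le_div_of_nonpos_of_le hneg.le hrs')
        have h2 : {ω | f p ω ∈ Icc r s} ⊆ {ω | Z p ω ∈ Icc (s / c p) (r / c p)} := by
          intro ω hω
          have h3 : r ≤ c p * Z p ω ∧ c p * Z p ω ≤ s := hω
          refine ⟨?_, ?_⟩
          · rw [div_le_iff_of_neg hneg, mul_comm]; exact h3.2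
          · rw [le_div_iff_of_neg hneg, mul_comm]; exact h3.1
        refine (measure_mono h2).trans (h1.trans (le_of_eq ?_))
        congr 1
        rw [abs_of_neg hneg]
        field_simp
        ring
      · have h1 := hDens p (r / c p) (s / c p) (div_le_div_of_nonneg_right hrs' hpos.le)
        have h2 : {ω | f p ω ∈ Icc r s} ⊆ {ω | Z p ω ∈ Icc (r / c p) (s / c p)} := by
          intro ω hω
          have h3 : r ≤ c p * Z p ω ∧ c p * Z p ω ≤ s := hω
          refine ⟨?_, ?_⟩
          · rw [div_le_iff₀ hpos, mul_comm]; exact h3.1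
          · rw [le_div_iff₀ hpos, mul_comm]; exact h3.2
        refine (measure_mono h2).trans (h1.trans (le_of_eq ?_))
        congr 1
        rw [abs_of_pos hpos]
        ring
    have hsumm : Measurable (∑ j ∈ (PP κ l m).erase p, f j) := by
      have h9 : Measurable fun ω => ∑ j ∈ (PP κ l m).erase p, f j ω :=
        Finset.measurable_sum _ fun j _ => hfm j
      convert h9 using 1
      ext ω
      rw [Finset.sum_apply]
    have hconc := conc μ (∑ j ∈ (PP κ l m).erase p, f j) (f p)
      hsumm (hfm p) hind (D / |c p|) hdens (M ^ 6)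
      (by positivity)
    have hsub : {ω | near2 lam (fun j => GG lam j ^ σ * Z j ω) κ l m} ⊆
        {ω | |f p ω + (∑ j ∈ (PP κ l m).erase p, f j) ω| < M ^ 6} := by
      intro ω hω
      have h1 := hω.2.2
      rw [Lm_eq] at h1
      show |f p ω + (∑ j ∈ (PP κ l m).erase p, f j) ω| < M ^ 6
      rw [Finset.sum_apply, Finset.add_sum_erase _ (fun j => f j ω) hp]
      refine lt_of_eq_of_lt ?_ h1
      congr 1
      refine Finset.sum_congr rfl fun j _ => ?_
      show c j * Z j ω = _
      rw [hc]; ring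
    refine (measure_mono hsub).trans (hconc.trans (ENNReal.ofReal_le_ofReal ?_))
    -- the numerical bound
    have h1 : D / |c p| * (2 * M ^ 6) ≤ 2 * D * M ^ (-b) := by
      have h2 : D / |c p| ≤ D / M ^ σ := div_le_div_of_nonneg_left hD0 (Real.rpow_pos_of_pos hM0 σ) hcabs
      have h3 : D / M ^ σ * (2 * M ^ 6) = 2 * D * M ^ (-b) := by
        rw [hb, show -(σ - 6) = (6 : ℝ) - σ by ring, Real.rpow_sub hM0,
          show (6 : ℝ) = ((6 : ℕ) : ℝ) by norm_num, Real.rpow_natCast]
        ring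
      rw [← h3]
      exact mul_le_mul_of_nonneg_right h2 (by positivity)
    refine h1.trans (mul_le_mul_of_nonneg_left ?_ (by linarith))
    have hone : ∀ j : ℕ, GG lam j ≤ M → M ^ (-(b / 3)) ≤ r j := by
      intro j hj
      have h5 : M ^ (-(b / 3)) = (M ^ (3 / 2 : ℝ)) ^ (-(2 * b / 9)) := by
        rw [← Real.rpow_mul hM0.le]
        congr 1; ring
      rw [h5]
      refine Real.rpow_le_rpow_of_nonpos (by positivity) ?_ (by linarith)
      rw [div_le_iff₀ hK0, mul_comm]
      exact (hK j).trans (mul_le_mul_of_nonneg_left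
        (Real.rpow_le_rpow (hGG0 j).le hj (by norm_num)) hK0.le)
    have h4 : M ^ (-b) = M ^ (-(b / 3)) * (M ^ (-(b / 3)) * M ^ (-(b / 3))) := by
      rw [← Real.rpow_add hM0, ← Real.rpow_add hM0]
      congr 1; ring
    rw [h4]
    have h0 : 0 ≤ M ^ (-(b / 3)) := by positivity
    show _ ≤ (r κ.1 * 1) * ((r l.1 * 1) * (r m.1 * 1))
    rw [mul_one, mul_one, mul_one]
    exact mul_le_mul (hone _ hMk) (mul_le_mul (hone _ hMl) (hone _ hMm) h0 (hr0 _))
      (mul_nonneg h0 h0) (hr0 _)
  have hfin : ∑' t : Ix × Ix × Ix,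
      μ {ω | near2 lam (fun j => GG lam j ^ σ * Z j ω) t.1 t.2.1 t.2.2} ≠ ⊤ :=
    ne_top_of_le_ne_top hF.tsum_ofReal_ne_top (ENNReal.tsum_le_tsum key)
  exact ae_finite_setOfPred_mem hfin

end Pool.Agent.U401.DD
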