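import Mathlib
import Pool.Agent.U401.DD.Stm

/-!
Project DD, package RHS (helper61): bounds of the right hand side of the truncated system.
-/

set_option autoImplicit false

namespace Pool.Agent.U401.DD

theorem rhs_sum2 (h : ℕ → ℝ) (N : ℕ) :
    ∑ n ∈ Finset.range (2 * N), h n = ∑ j ∈ Finset.range N, (h (2 * j) + h (2 * j + 1)) := by
  induction N with
  | zero => simp
  | succ N ih =>
    rw [show 2 * (N + 1) = 2 * N + 1 + 1 by ring, Finset.sum_range_succ, Finset.sum_range_succ, ih,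
      Finset.sum_range_succ]
    ring

theorem rhs_sumIx (h : ℕ → ℝ) (N : ℕ) :
    ∑ κ ∈ IxN N, h κ.1 = 2 * ∑ j ∈ Finset.range N, h j := by
  unfold IxN
  rw [Finset.sum_product, Finset.mul_sum]
  refine Finset.sum_congr rfl fun j _ => ?_
  simp [two_mul]

theorem rhs_lam_le {lam : ℕ → ℝ} (hp : ∀ n, 0 < lam n) (n : ℕ) : lam n ≤ gg lam (n / 2) := by
  unfold gg
  rcases Nat.even_or_odd' n with ⟨c, rfl | rfl⟩
  · rw [Nat.mul_div_cancel_left _ two_pos]
    linarith [hp (2 * c + 1)]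
  · rw [show (2 * c + 1) / 2 = c by omega]
    linarith [hp (2 * c)]

theorem rhs_uu (b : ℕ → ℝ) (κ : Ix) : ‖uu b κ‖ ≤ |b (2 * κ.1)| + |b (2 * κ.1 + 1)| := by
  unfold uu
  refine (norm_add_le _ _).trans ?_
  have h : |sg κ.2| = 1 := by
    unfold sg
    split <;> simp
  rw [norm_mul, norm_mul, Complex.norm_I, mul_one, Complex.norm_real, Complex.norm_real,
    Complex.norm_real, Real.norm_eq_abs, Real.norm_eq_abs, Real.norm_eq_abs, h, one_mul]

/-- the estimate for one plane -/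
theorem rhs_one {ν l0 l1 a0 a1 q0 q1 f0 f1 : ℝ} (hν : 0 ≤ ν) (h0 : 0 < l0) (h1 : 0 < l1) :
    (|a0| + |a1|) * (|-ν * l0 * a0 + q0 + f0| + |-ν * l1 * a1 + q1 + f1|) ≤
      (2 * ν + 1) * ((l0 + l1) * (a0 ^ 2 + a1 ^ 2)) + (q0 ^ 2 / l0 + q1 ^ 2 / l1) +
        ((a0 ^ 2 + a1 ^ 2) + (f0 ^ 2 + f1 ^ 2)) := by
  have hg : 0 < l0 + l1 := by linarith
  have hb : ∀ l a q f : ℝ, 0 < l → l ≤ l0 + l1 →
      |-ν * l * a + q + f| ≤ ν * (l0 + l1) * |a| + |q| + |f| := by
    intro l a q f hl hl'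
    refine (abs_add_le _ _).trans (add_le_add_left ((abs_add_le _ _).trans
      (add_le_add_left ?_ _)) _)
    rw [abs_mul, abs_mul, abs_neg, abs_of_nonneg hν, abs_of_pos hl]
    exact mul_le_mul_of_nonneg_right (mul_le_mul_of_nonneg_left hl' hν) (abs_nonneg _)
  have b0 := hb l0 a0 q0 f0 h0 (by linarith)
  have b1 := hb l1 a1 q1 f1 h1 (by linarith)
  set x := |a0| + |a1| with hx
  set y := |q0| + |q1| with hy
  set z := |f0| + |f1| with hz
  have hx0 : 0 ≤ x := add_nonneg (abs_nonneg _) (abs_nonneg _)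
  have sq2 : ∀ u v : ℝ, (|u| + |v|) ^ 2 ≤ 2 * (u ^ 2 + v ^ 2) := by
    intro u v
    nlinarith [sq_nonneg (|u| - |v|), sq_abs u, sq_abs v]
  have hx2 : x ^ 2 ≤ 2 * (a0 ^ 2 + a1 ^ 2) := sq2 _ _
  have hy2 : y ^ 2 ≤ 2 * (q0 ^ 2 + q1 ^ 2) := sq2 _ _
  have hz2 : z ^ 2 ≤ 2 * (f0 ^ 2 + f1 ^ 2) := sq2 _ _
  have e1 : x * (|-ν * l0 * a0 + q0 + f0| + |-ν * l1 * a1 + q1 + f1|) ≤
      ν * (l0 + l1) * x ^ 2 + x * y + x * z := by
    calc x * (|-ν * l0 * a0 + q0 + f0| + |-ν * l1 * a1 + q1 + f1|)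
        ≤ x * ((ν * (l0 + l1) * |a0| + |q0| + |f0|) + (ν * (l0 + l1) * |a1| + |q1| + |f1|)) :=
          mul_le_mul_of_nonneg_left (add_le_add b0 b1) hx0
      _ = ν * (l0 + l1) * x ^ 2 + x * y + x * z := by rw [hx, hy, hz]; ring
  have e2 : ν * (l0 + l1) * x ^ 2 ≤ ν * (l0 + l1) * (2 * (a0 ^ 2 + a1 ^ 2)) :=
    mul_le_mul_of_nonneg_left hx2 (mul_nonneg hν hg.le)
  have e3 : x * y ≤ ((l0 + l1) * x ^ 2 + y ^ 2 / (l0 + l1)) / 2 := by
    rw [le_div_iff₀ (by norm_num), ← sub_nonneg]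
    have : (l0 + l1) * x ^ 2 + y ^ 2 / (l0 + l1) - x * y * 2 =
        ((l0 + l1) * x - y) ^ 2 / (l0 + l1) := by
      field_simp
      ring
    rw [this]
    positivity
  have e4 : y ^ 2 / (l0 + l1) ≤ 2 * (q0 ^ 2 / l0 + q1 ^ 2 / l1) := by
    have k0 : q0 ^ 2 / (l0 + l1) ≤ q0 ^ 2 / l0 :=
      div_le_div_of_nonneg_left (sq_nonneg _) h0 (by linarith)
    have k1 : q1 ^ 2 / (l0 + l1) ≤ q1 ^ 2 / l1 :=
      div_le_div_of_nonneg_left (sq_nonneg _) h1 (by linarith)
    have k2 : y ^ 2 / (l0 + l1) ≤ 2 * (q0 ^ 2 + q1 ^ 2) / (l0 + l1) :=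
      div_le_div_of_nonneg_right hy2 hg.le
    have k3 : 2 * (q0 ^ 2 + q1 ^ 2) / (l0 + l1) = 2 * (q0 ^ 2 / (l0 + l1) + q1 ^ 2 / (l0 + l1)) := by
      ring
    linarith
  have e5 : x * z ≤ (x ^ 2 + z ^ 2) / 2 := by nlinarith [sq_nonneg (x - z)]
  have e6 : (l0 + l1) * x ^ 2 ≤ (l0 + l1) * (2 * (a0 ^ 2 + a1 ^ 2)) :=
    mul_le_mul_of_nonneg_left hx2 hg.le
  nlinarith [e1, e2, e3, e4, e5, e6]

/-- **RHS** -/
theorem t_RHS : S_RHS := by
  intro bet lam K hD ν X F hν
  have hp := hD.pos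
  have hK : 0 ≤ K := zero_le_one.trans hD.K1
  refine ⟨2 * (ν * (1 + |X|) + (1 + K * |X|) + (1 + |F|)) +
    2 * ((2 * ν + 1) + (1 + K * |X|) + (|X| + |F|)), by positivity, fun N a f hX hF => ?_⟩
  have hX' : Mm N a ≤ |X| := hX.trans (le_abs_self _)
  have hF' : Mm N f ≤ |F| := hF.trans (le_abs_self _)
  have hM0 : 0 ≤ Mm N a := Finset.sum_nonneg fun n _ => sq_nonneg _
  have hD0 : 0 ≤ Dd lam N a := Finset.sum_nonneg fun n _ => mul_nonneg (hp n).le (sq_nonneg _)
  have hDE : Dd lam N a ≤ En lam N a := Finset.sum_le_sum fun n _ =>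
    mul_le_mul_of_nonneg_right (rhs_lam_le hp n) (sq_nonneg _)
  have hE0 : 0 ≤ En lam N a := hD0.trans hDE
  have hgg : ∀ j, 0 ≤ gg lam j := fun j => add_nonneg (hp _).le (hp _).le
  -- the sum of the squares of the quadratic terms
  set S := ∑ n ∈ Finset.range (2 * N), quad bet N a n ^ 2 / lam n with hS
  have hS0 : 0 ≤ S := Finset.sum_nonneg fun n _ => div_nonneg (sq_nonneg _) (hp n).le
  have hSb : S ≤ (1 + K * |X|) * (1 + En lam N a) ^ 2 := by
    have h1 : S ^ 2 ≤ K * (Mm N a * Dd lam N a ^ 3) := hD.bes N a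
    have h2 : K * (Mm N a * Dd lam N a ^ 3) ≤ K * (|X| * En lam N a ^ 3) :=
      mul_le_mul_of_nonneg_left (mul_le_mul hX' (pow_le_pow_left₀ hD0 hDE 3)
        (pow_nonneg hD0 3) (abs_nonneg _)) hK
    have h3 : K * (|X| * En lam N a ^ 3) ≤ ((1 + K * |X|) * (1 + En lam N a) ^ 2) ^ 2 := by
      have k1 : 0 ≤ K * |X| := by positivity
      have k2 : K * |X| ≤ (1 + K * |X|) ^ 2 := by nlinarith
      have k3 : En lam N a ^ 3 ≤ ((1 + En lam N a) ^ 2) ^ 2 := by
        have : En lam N a ^ 3 ≤ (1 + En lam N a) ^ 3 := pow_le_pow_left₀ hE0 (by linarith) 3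
        have h4 : (1 + En lam N a) ^ 3 ≤ (1 + En lam N a) ^ 4 :=
          pow_le_pow_right₀ (by linarith) (by norm_num)
        calc En lam N a ^ 3 ≤ (1 + En lam N a) ^ 4 := this.trans h4
          _ = ((1 + En lam N a) ^ 2) ^ 2 := by ring
      calc K * (|X| * En lam N a ^ 3) = (K * |X|) * En lam N a ^ 3 := by ring
        _ ≤ (1 + K * |X|) ^ 2 * ((1 + En lam N a) ^ 2) ^ 2 :=
          mul_le_mul k2 k3 (pow_nonneg hE0 3) (by positivity)
        _ = ((1 + K * |X|) * (1 + En lam N a) ^ 2) ^ 2 := by ring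
    exact (sq_le_sq₀ hS0 (by positivity)).mp ((h1.trans h2).trans h3)
  -- bound of one coefficient
  have hco : ∀ n < 2 * N, |Nn bet lam ν N a f n| ≤
      (ν * (1 + |X|) + (1 + K * |X|) + (1 + |F|)) * ((1 + gg lam (n / 2)) * (1 + En lam N a)) := by
    intro n hn
    have hn' : n ∈ Finset.range (2 * N) := Finset.mem_range.mpr hn
    have ha2 : a n ^ 2 ≤ |X| :=
      (Finset.single_le_sum (f := fun n => a n ^ 2) (fun _ _ => sq_nonneg _) hn').trans hX'
    have hf2 : f n ^ 2 ≤ |F| :=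
      (Finset.single_le_sum (f := fun n => f n ^ 2) (fun _ _ => sq_nonneg _) hn').trans hF'
    have ha : |a n| ≤ 1 + |X| := by nlinarith [sq_abs (a n), sq_nonneg (|a n| - 1), abs_nonneg (a n)]
    have hf : |f n| ≤ 1 + |F| := by nlinarith [sq_abs (f n), sq_nonneg (|f n| - 1), abs_nonneg (f n)]
    have hl := rhs_lam_le hp n
    have hg := hgg (n / 2)
    have hq2 : quad bet N a n ^ 2 ≤ lam n * S := by
      have := Finset.single_le_sum (f := fun n => quad bet N a n ^ 2 / lam n)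
        (fun n _ => div_nonneg (sq_nonneg _) (hp n).le) hn'
      rw [← hS, div_le_iff₀ (hp n)] at this
      linarith
    have hq : |quad bet N a n| ≤ (1 + K * |X|) * ((1 + gg lam (n / 2)) * (1 + En lam N a)) := by
      apply abs_le_of_sq_le_sq _ (by positivity)
      have k1 : lam n * S ≤ (1 + gg lam (n / 2)) ^ 2 * ((1 + K * |X|) * (1 + En lam N a) ^ 2) :=
        mul_le_mul (by nlinarith) hSb hS0 (by positivity)
      have k2 : (1 + K * |X|) ≤ (1 + K * |X|) ^ 2 := by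
        have : 0 ≤ K * |X| := by positivity
        nlinarith
      have k3 : (1 + gg lam (n / 2)) ^ 2 * ((1 + K * |X|) * (1 + En lam N a) ^ 2) ≤
          (1 + gg lam (n / 2)) ^ 2 * ((1 + K * |X|) ^ 2 * (1 + En lam N a) ^ 2) := by
        apply mul_le_mul_of_nonneg_left _ (by positivity)
        exact mul_le_mul_of_nonneg_right k2 (by positivity)
      calc quad bet N a n ^ 2 ≤ _ := hq2.trans (k1.trans k3)
        _ = _ := by ring
    have t1 : |ν * lam n * a n| ≤ ν * (1 + |X|) * ((1 + gg lam (n / 2)) * (1 + En lam N a)) := by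
      rw [abs_mul, abs_mul, abs_of_nonneg hν, abs_of_pos (hp n)]
      have k1 : lam n * |a n| ≤ (1 + gg lam (n / 2)) * (1 + |X|) :=
        mul_le_mul (by linarith) ha (abs_nonneg _) (by positivity)
      have k2 : (1 + gg lam (n / 2)) * (1 + |X|) ≤
          (1 + gg lam (n / 2)) * (1 + |X|) * (1 + En lam N a) :=
        le_mul_of_one_le_right (by positivity) (by linarith)
      calc ν * lam n * |a n| = ν * (lam n * |a n|) := by ring
        _ ≤ ν * ((1 + gg lam (n / 2)) * (1 + |X|) * (1 + En lam N a)) :=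
          mul_le_mul_of_nonneg_left (k1.trans k2) hν
        _ = _ := by ring
    have t3 : |f n| ≤ (1 + |F|) * ((1 + gg lam (n / 2)) * (1 + En lam N a)) := by
      refine hf.trans (le_mul_of_one_le_right (by positivity) ?_)
      nlinarith
    have t0 : |Nn bet lam ν N a f n| ≤ |ν * lam n * a n| + |quad bet N a n| + |f n| := by
      unfold Nn
      refine (abs_add_le _ _).trans (add_le_add_left ((abs_add_le _ _).trans
        (add_le_add_left (le_of_eq ?_) _)) _)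
      rw [neg_mul, neg_mul, abs_neg]
    calc |Nn bet lam ν N a f n| ≤ _ := t0
      _ ≤ _ := add_le_add (add_le_add t1 hq) t3
      _ = _ := by ring
  refine ⟨fun κ hκ => ?_, ?_⟩
  · -- the first claim
    have hκ1 : κ.1 < N := by
      simp only [IxN, Finset.mem_product, Finset.mem_range] at hκ
      exact hκ.1
    have h0 := hco (2 * κ.1) (by omega)
    have h1 := hco (2 * κ.1 + 1) (by omega)
    rw [Nat.mul_div_cancel_left _ two_pos] at h0
    rw [show (2 * κ.1 + 1) / 2 = κ.1 by omega] at h1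
    have hmu : 1 + gg lam κ.1 ≤ mu lam κ.1 := by
      unfold mu
      have : 0 ≤ gg lam κ.1 := hgg _
      have h2 : (0:ℝ) ≤ κ.1 := Nat.cast_nonneg _
      nlinarith
    refine ((rhs_uu _ _).trans (add_le_add h0 h1)).trans ?_
    have hgk := hgg κ.1
    set B0 := ν * (1 + |X|) + (1 + K * |X|) + (1 + |F|) with hB0
    have hB0' : 0 ≤ B0 := by positivity
    have hB1 : 0 ≤ 2 * ((2 * ν + 1) + (1 + K * |X|) + (|X| + |F|)) := by positivity
    have k1 : (1 + gg lam κ.1) * (1 + En lam N a) ≤ (1 + En lam N a) * mu lam κ.1 := by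
      rw [mul_comm]
      exact mul_le_mul_of_nonneg_left hmu (by linarith)
    have k0 : 0 ≤ (1 + En lam N a) * mu lam κ.1 := le_trans (by positivity) k1
    calc B0 * ((1 + gg lam κ.1) * (1 + En lam N a)) + B0 * ((1 + gg lam κ.1) * (1 + En lam N a))
        = (2 * B0) * ((1 + gg lam κ.1) * (1 + En lam N a)) := by ring
      _ ≤ (2 * B0) * ((1 + En lam N a) * mu lam κ.1) :=
        mul_le_mul_of_nonneg_left k1 (by positivity)
      _ ≤ (2 * B0 + 2 * ((2 * ν + 1) + (1 + K * |X|) + (|X| + |F|))) *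
          ((1 + En lam N a) * mu lam κ.1) :=
        mul_le_mul_of_nonneg_right (by linarith) k0
      _ = _ := by ring
  · -- the second claim
    have hE : En lam N a = ∑ j ∈ Finset.range N,
        (lam (2 * j) + lam (2 * j + 1)) * (a (2 * j) ^ 2 + a (2 * j + 1) ^ 2) := by
      unfold En
      rw [rhs_sum2 (fun n => gg lam (n / 2) * a n ^ 2)]
      refine Finset.sum_congr rfl fun j _ => ?_
      rw [Nat.mul_div_cancel_left _ two_pos, show (2 * j + 1) / 2 = j by omega]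
      unfold gg
      ring
    have hS' : S = ∑ j ∈ Finset.range N, (quad bet N a (2 * j) ^ 2 / lam (2 * j) +
        quad bet N a (2 * j + 1) ^ 2 / lam (2 * j + 1)) := by
      rw [hS, rhs_sum2 (fun n => quad bet N a n ^ 2 / lam n)]
    have hMa : Mm N a = ∑ j ∈ Finset.range N, (a (2 * j) ^ 2 + a (2 * j + 1) ^ 2) := by
      unfold Mm
      rw [rhs_sum2 (fun n => a n ^ 2)]
    have hMf : Mm N f = ∑ j ∈ Finset.range N, (f (2 * j) ^ 2 + f (2 * j + 1) ^ 2) := by
      unfold Mm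
      rw [rhs_sum2 (fun n => f n ^ 2)]
    have g1 : ∑ κ ∈ IxN N, ‖uu a κ‖ * ‖uu (Nn bet lam ν N a f) κ‖ ≤
        2 * ∑ j ∈ Finset.range N, (|a (2 * j)| + |a (2 * j + 1)|) *
          (|Nn bet lam ν N a f (2 * j)| + |Nn bet lam ν N a f (2 * j + 1)|) := by
      refine le_trans (Finset.sum_le_sum fun κ _ => ?_) (le_of_eq (rhs_sumIx
        (fun j => (|a (2 * j)| + |a (2 * j + 1)|) *
          (|Nn bet lam ν N a f (2 * j)| + |Nn bet lam ν N a f (2 * j + 1)|)) N))
      exact mul_le_mul (rhs_uu _ _) (rhs_uu _ _) (norm_nonneg _)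
        (add_nonneg (abs_nonneg _) (abs_nonneg _))
    have g2 : ∑ j ∈ Finset.range N, (|a (2 * j)| + |a (2 * j + 1)|) *
          (|Nn bet lam ν N a f (2 * j)| + |Nn bet lam ν N a f (2 * j + 1)|) ≤
        (2 * ν + 1) * En lam N a + S + (Mm N a + Mm N f) := by
      rw [hE, hS', hMa, hMf, Finset.mul_sum, ← Finset.sum_add_distrib, ← Finset.sum_add_distrib,
        ← Finset.sum_add_distrib]
      refine Finset.sum_le_sum fun j _ => ?_
      exact rhs_one hν (hp _) (hp _)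
    have g3 : (2 * ν + 1) * En lam N a + S + (Mm N a + Mm N f) ≤
        ((2 * ν + 1) + (1 + K * |X|) + (|X| + |F|)) * (1 + En lam N a) ^ 2 := by
      have k1 : En lam N a ≤ (1 + En lam N a) ^ 2 := by nlinarith
      have k2 : (2 * ν + 1) * En lam N a ≤ (2 * ν + 1) * (1 + En lam N a) ^ 2 :=
        mul_le_mul_of_nonneg_left k1 (by positivity)
      have k3 : Mm N a + Mm N f ≤ (|X| + |F|) * (1 + En lam N a) ^ 2 := by
        refine (add_le_add hX' hF').trans (le_mul_of_one_le_right (by positivity) ?_)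
        nlinarith
      calc _ ≤ (2 * ν + 1) * (1 + En lam N a) ^ 2 + (1 + K * |X|) * (1 + En lam N a) ^ 2 +
          (|X| + |F|) * (1 + En lam N a) ^ 2 := add_le_add (add_le_add k2 hSb) k3
        _ = _ := by ring
    refine g1.trans ?_
    have hB0 : 0 ≤ 2 * (ν * (1 + |X|) + (1 + K * |X|) + (1 + |F|)) := by positivity
    calc 2 * ∑ j ∈ Finset.range N, (|a (2 * j)| + |a (2 * j + 1)|) *
          (|Nn bet lam ν N a f (2 * j)| + |Nn bet lam ν N a f (2 * j + 1)|)
        ≤ 2 * (((2 * ν + 1) + (1 + K * |X|) + (|X| + |F|)) * (1 + En lam N a) ^ 2) :=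
          mul_le_mul_of_nonneg_left (g2.trans g3) (by norm_num)
      _ ≤ _ := by
          rw [← mul_assoc]
          exact mul_le_mul_of_nonneg_right (by linarith) (sq_nonneg _)

end Pool.Agent.U401.DD
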