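import Mathlib
import Pool.Agent.U401.DD.Stm4

/-!
Project DD, package RHS2 (helper467): square sums of the right hand side of the truncated system
(after the package RHS of helper61).
-/

set_option autoImplicit false

namespace Pool.Agent.U401.DD

theorem rhs2_sum2 (h : ℕ → ℝ) (N : ℕ) :
    ∑ n ∈ Finset.range (2 * N), h n = ∑ j ∈ Finset.range N, (h (2 * j) + h (2 * j + 1)) := by
  induction N with
  | zero => simp
  | succ N ih =>
    rw [show 2 * (N + 1) = 2 * N + 1 + 1 by ring, Finset.sum_range_succ, Finset.sum_range_succ, ih,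
      Finset.sum_range_succ]
    ring

theorem rhs2_sumIx (h : ℕ → ℝ) (N : ℕ) :
    ∑ κ ∈ IxN N, h κ.1 = 2 * ∑ j ∈ Finset.range N, h j := by
  unfold IxN
  rw [Finset.sum_product, Finset.mul_sum]
  refine Finset.sum_congr rfl fun j _ => ?_
  simp [two_mul]

theorem rhs2_uu (b : ℕ → ℝ) (κ : Ix) : ‖uu b κ‖ ≤ |b (2 * κ.1)| + |b (2 * κ.1 + 1)| := by
  unfold uu
  refine (norm_add_le _ _).trans ?_
  have h : |sg κ.2| = 1 := by
    unfold sg
    split <;> simp
  rw [norm_mul, norm_mul, Complex.norm_I, mul_one, Complex.norm_real, Complex.norm_real,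
    Complex.norm_real, Real.norm_eq_abs, Real.norm_eq_abs, Real.norm_eq_abs, h, one_mul]

/-- the estimate for one coefficient -/
theorem rhs2_one {ν l a q f G : ℝ} (hl : 0 < l) (hG : 1 ≤ G) (hlG : l ≤ G) :
    (-ν * l * a + q + f) ^ 2 / G ^ 2 ≤ 3 * (ν ^ 2 * a ^ 2 + q ^ 2 / l + f ^ 2) := by
  have hG0 : 0 < G ^ 2 := by positivity
  rw [div_le_iff₀ hG0]
  have h1 : (-ν * l * a + q + f) ^ 2 ≤ 3 * ((ν * l * a) ^ 2 + q ^ 2 + f ^ 2) := by
    nlinarith [sq_nonneg (-ν * l * a - q), sq_nonneg (-ν * l * a - f), sq_nonneg (q - f)]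
  have h2 : (ν * l * a) ^ 2 ≤ ν ^ 2 * a ^ 2 * G ^ 2 := by
    have : l ^ 2 ≤ G ^ 2 := pow_le_pow_left₀ hl.le hlG 2
    calc (ν * l * a) ^ 2 = ν ^ 2 * a ^ 2 * l ^ 2 := by ring
      _ ≤ _ := mul_le_mul_of_nonneg_left this (by positivity)
  have h3 : q ^ 2 ≤ q ^ 2 / l * G ^ 2 := by
    have h4 : l ≤ G ^ 2 := hlG.trans (by nlinarith)
    have h5 : q ^ 2 = q ^ 2 / l * l := by field_simp
    calc q ^ 2 = q ^ 2 / l * l := h5
      _ ≤ _ := mul_le_mul_of_nonneg_left h4 (by positivity)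
  have h4 : f ^ 2 ≤ f ^ 2 * G ^ 2 := le_mul_of_one_le_right (sq_nonneg _) (by nlinarith)
  nlinarith

/-- **RHS2** -/
theorem t_RHS2 : S_RHS2 := by
  intro bet lam K hD ν X F hν
  have hp := hD.pos
  have hK : 0 ≤ K := zero_le_one.trans hD.K1
  set C := ν ^ 2 * |X| + (1 + K * |X|) + |F| with hC
  have hC1 : 1 ≤ C := by
    have h1 : 0 ≤ ν ^ 2 * |X| := by positivity
    have h2 : 0 ≤ K * |X| := by positivity
    have h3 := abs_nonneg F
    rw [hC]
    linarith
  refine ⟨12 * C, by positivity, fun N a f hX hF => ?_⟩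
  have hX' : Mm N a ≤ |X| := hX.trans (le_abs_self _)
  have hF' : Mm N f ≤ |F| := hF.trans (le_abs_self _)
  have hlg : ∀ n, lam n ≤ gg lam (n / 2) := by
    intro n
    unfold gg
    rcases Nat.even_or_odd' n with ⟨c, rfl | rfl⟩
    · rw [Nat.mul_div_cancel_left _ two_pos]
      linarith [hp (2 * c + 1)]
    · rw [show (2 * c + 1) / 2 = c by omega]
      linarith [hp (2 * c)]
  have hD0 : 0 ≤ Dd lam N a := Finset.sum_nonneg fun n _ => mul_nonneg (hp n).le (sq_nonneg _)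
  have hDE : Dd lam N a ≤ En lam N a := Finset.sum_le_sum fun n _ =>
    mul_le_mul_of_nonneg_right (hlg n) (sq_nonneg _)
  have hE0 : 0 ≤ En lam N a := hD0.trans hDE
  have hgg : ∀ j, 0 ≤ gg lam j := fun j => add_nonneg (hp _).le (hp _).le
  have hGG : ∀ j, 1 ≤ GG lam j := fun j => by
    unfold GG
    linarith [hgg j]
  -- the sum of the squares of the quadratic terms
  set S := ∑ n ∈ Finset.range (2 * N), quad bet N a n ^ 2 / lam n with hS
  have hS0 : 0 ≤ S := Finset.sum_nonneg fun n _ => div_nonneg (sq_nonneg _) (hp n).le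
  have hSb : S ≤ (1 + K * |X|) * (1 + En lam N a) ^ 2 := by
    have h1 : S ^ 2 ≤ K * (Mm N a * Dd lam N a ^ 3) := hD.bes N a
    have h2 : K * (Mm N a * Dd lam N a ^ 3) ≤ K * (|X| * En lam N a ^ 3) :=
      mul_le_mul_of_nonneg_left (mul_le_mul hX' (pow_le_pow_left₀ hD0 hDE 3)
        (pow_nonneg hD0 3) (abs_nonneg _)) hK
    have h3 : K * (|X| * En lam N a ^ 3) ≤ ((1 + K * |X|) * (1 + En lam N a) ^ 2) ^ 2 := by
      have k1 : 0 ≤ K * |X| := by positivity
      have k2 : K * |X| ≤ (1 + K * |X|) ^ 2 := by nlinarith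
      have k3 : En lam N a ^ 3 ≤ ((1 + En lam N a) ^ 2) ^ 2 := by
        have : En lam N a ^ 3 ≤ (1 + En lam N a) ^ 3 := pow_le_pow_left₀ hE0 (by linarith) 3
        have h4 : (1 + En lam N a) ^ 3 ≤ (1 + En lam N a) ^ 4 :=
          pow_le_pow_right₀ (by linarith) (by norm_num)
        calc En lam N a ^ 3 ≤ (1 + En lam N a) ^ 4 := this.trans h4
          _ = ((1 + En lam N a) ^ 2) ^ 2 := by ring
      calc K * (|X| * En lam N a ^ 3) = (K * |X|) * En lam N a ^ 3 := by ring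
        _ ≤ (1 + K * |X|) ^ 2 * ((1 + En lam N a) ^ 2) ^ 2 :=
          mul_le_mul k2 k3 (pow_nonneg hE0 3) (by positivity)
        _ = ((1 + K * |X|) * (1 + En lam N a) ^ 2) ^ 2 := by ring
    exact (sq_le_sq₀ hS0 (by positivity)).mp ((h1.trans h2).trans h3)
  let b := Nn bet lam ν N a f
  have hb : ∀ n, b n ^ 2 / GG lam (n / 2) ^ 2 ≤
      3 * (ν ^ 2 * a n ^ 2 + quad bet N a n ^ 2 / lam n + f n ^ 2) := by
    intro n
    refine rhs2_one (hp n) (hGG _) ?_
    have := hlg n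
    unfold GG
    linarith
  refine ⟨fun κ => (|b (2 * κ.1)| + |b (2 * κ.1 + 1)|) / GG lam κ.1, fun κ => ?_, fun κ _ => ?_, ?_⟩
  · have := hGG κ.1
    positivity
  · have h0 : GG lam κ.1 ≠ 0 := by
      have := hGG κ.1
      positivity
    refine (rhs2_uu _ _).trans (le_of_eq ?_)
    show |b (2 * κ.1)| + |b (2 * κ.1 + 1)| = _
    rw [mul_div_cancel₀ _ h0]
  · have g1 := rhs2_sumIx (fun j => ((|b (2 * j)| + |b (2 * j + 1)|) / GG lam j) ^ 2) N
    refine (le_of_eq g1).trans ?_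
    have g2 : ∑ j ∈ Finset.range N, ((|b (2 * j)| + |b (2 * j + 1)|) / GG lam j) ^ 2 ≤
        ∑ n ∈ Finset.range (2 * N), 2 * (b n ^ 2 / GG lam (n / 2) ^ 2) := by
      rw [rhs2_sum2 (fun n => 2 * (b n ^ 2 / GG lam (n / 2) ^ 2))]
      refine Finset.sum_le_sum fun j _ => ?_
      rw [Nat.mul_div_cancel_left _ two_pos, show (2 * j + 1) / 2 = j by omega, div_pow]
      have h0 : 0 < GG lam j ^ 2 := by
        have := hGG j
        positivity
      rw [div_le_iff₀ h0]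
      have h1 : 2 * (b (2 * j) ^ 2 / GG lam j ^ 2) + 2 * (b (2 * j + 1) ^ 2 / GG lam j ^ 2) =
          2 * (b (2 * j) ^ 2 + b (2 * j + 1) ^ 2) / GG lam j ^ 2 := by ring
      rw [h1, div_mul_cancel₀ _ h0.ne']
      nlinarith [sq_nonneg (|b (2 * j)| - |b (2 * j + 1)|), sq_abs (b (2 * j)),
        sq_abs (b (2 * j + 1))]
    have g3 : ∑ n ∈ Finset.range (2 * N), 2 * (b n ^ 2 / GG lam (n / 2) ^ 2) ≤
        6 * (ν ^ 2 * Mm N a + S + Mm N f) := by
      have h1 : 6 * (ν ^ 2 * Mm N a + S + Mm N f) = ∑ n ∈ Finset.range (2 * N),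
          6 * (ν ^ 2 * a n ^ 2 + quad bet N a n ^ 2 / lam n + f n ^ 2) := by
        rw [← Finset.mul_sum, Finset.sum_add_distrib, Finset.sum_add_distrib, ← Finset.mul_sum]
        rfl
      rw [h1]
      refine Finset.sum_le_sum fun n _ => ?_
      linarith [hb n]
    have g4 : ν ^ 2 * Mm N a + S + Mm N f ≤ C * (1 + En lam N a) ^ 2 := by
      have k0 : 1 ≤ (1 + En lam N a) ^ 2 := by nlinarith
      have k1 : ν ^ 2 * Mm N a ≤ ν ^ 2 * |X| * (1 + En lam N a) ^ 2 :=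
        (mul_le_mul_of_nonneg_left hX' (sq_nonneg _)).trans
          (le_mul_of_one_le_right (by positivity) k0)
      have k2 : Mm N f ≤ |F| * (1 + En lam N a) ^ 2 :=
        hF'.trans (le_mul_of_one_le_right (abs_nonneg _) k0)
      rw [hC]
      calc _ ≤ ν ^ 2 * |X| * (1 + En lam N a) ^ 2 + (1 + K * |X|) * (1 + En lam N a) ^ 2 +
          |F| * (1 + En lam N a) ^ 2 := add_le_add (add_le_add k1 hSb) k2
        _ = _ := by ring
    have g5 : 12 * C ≤ (12 * C) ^ 2 := by nlinarith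
    calc 2 * ∑ j ∈ Finset.range N, ((|b (2 * j)| + |b (2 * j + 1)|) / GG lam j) ^ 2
        ≤ 2 * (6 * (C * (1 + En lam N a) ^ 2)) := by
          refine mul_le_mul_of_nonneg_left (g2.trans (g3.trans ?_)) (by norm_num)
          exact mul_le_mul_of_nonneg_left g4 (by norm_num)
      _ = 12 * C * (1 + En lam N a) ^ 2 := by ring
      _ ≤ (12 * C) ^ 2 * (1 + En lam N a) ^ 2 := mul_le_mul_of_nonneg_right g5 (sq_nonneg _)
      _ = _ := by ring

end Pool.Agent.U401.DD
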