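import Pool.Agent.U401.DD.Stm

set_option autoImplicit false

/-!
Package SEQ of project DD (helper689): diagonal sequences of equicontinuous functions.
-/

open Set Filter Topology

namespace Pool.Agent.U401.DD

/-- (SEQ) diagonal sequences of equicontinuous functions -/
theorem t_SEQ : S_SEQ := by
  intro A h
  choose L N₀ hL using h
  obtain ⟨B, hBd⟩ : ∃ B : ℕ × ℚ → ℝ, B = fun i => L i.1 |(i.2 : ℝ)| := ⟨_, rfl⟩
  have hB : ∀ i : ℕ × ℚ, ∀ N, N₀ i.1 |(i.2 : ℝ)| ≤ N → |A N i.1 (|(i.2 : ℝ)|)| ≤ B i := by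
    intro i N hN
    rw [hBd]
    exact (hL i.1 _ N hN).1 _ ⟨abs_nonneg _, le_rfl⟩
  have hB0 : ∀ i, 0 ≤ B i := fun i => (abs_nonneg _).trans (hB i _ le_rfl)
  obtain ⟨F, hFd⟩ : ∃ F : ℕ → ℕ × ℚ → ℝ,
    F = fun N i => max (-B i) (min (B i) (A N i.1 |(i.2 : ℝ)|)) := ⟨_, rfl⟩
  have hF : ∀ N, F N ∈ Set.pi univ (fun i => Icc (-B i) (B i)) := by
    intro N i _
    rw [hFd]
    exact ⟨le_max_left _ _, max_le (by linarith [hB0 i]) (min_le_left _ _)⟩
  obtain ⟨a, -, φ, hφ, hlim⟩ := (isCompact_univ_pi fun i => isCompact_Icc).tendsto_subseq hF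
  have h1 : ∀ i : ℕ × ℚ, Tendsto (fun N => A (φ N) i.1 |(i.2 : ℝ)|) atTop (𝓝 (a i)) := by
    intro i
    have h2 := (tendsto_pi_nhds.1 hlim) i
    refine h2.congr' ?_
    filter_upwards [eventually_ge_atTop (N₀ i.1 |(i.2 : ℝ)|)] with N hN
    have h3 := abs_le.1 (hB i (φ N) (hN.trans (hφ.le_apply)))
    show F (φ N) i = _
    rw [hFd]
    show max (-B i) (min (B i) (A (φ N) i.1 |(i.2 : ℝ)|)) = _
    rw [min_eq_right h3.2, max_eq_right h3.1]
  have h2 : ∀ n t, 0 ≤ t → ∃ b, Tendsto (fun N => A (φ N) n t) atTop (𝓝 b) := by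
    intro n t ht
    apply cauchySeq_tendsto_of_complete
    rw [Metric.cauchySeq_iff']
    intro ε hε
    obtain ⟨l, hl⟩ : ∃ l : ℝ, l = |L n (t + 1)| + 1 := ⟨_, rfl⟩
    have hl0 : 0 < l := by rw [hl]; positivity
    have hl1 : L n (t + 1) ≤ l := by rw [hl]; linarith [le_abs_self (L n (t + 1))]
    have hd : 0 < min 1 (ε / (3 * l)) := by positivity
    obtain ⟨q, hq1, hq2⟩ := exists_rat_btwn (show t < t + min 1 (ε / (3 * l)) by linarith)
    have hq0 : 0 ≤ (q : ℝ) := by linarith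
    have hq3 : (q : ℝ) ≤ t + 1 := by linarith [min_le_left 1 (ε / (3 * l))]
    have hq4 : |t - q| * (3 * l) ≤ ε := by
      rw [abs_sub_comm, abs_of_pos (by linarith), ← le_div_iff₀ (by positivity)]
      linarith [min_le_right 1 (ε / (3 * l))]
    have h3 := h1 (n, q)
    simp only [abs_of_nonneg hq0] at h3
    obtain ⟨N1, hN1⟩ := (Metric.tendsto_atTop.1 h3) (ε / 6) (by positivity)
    refine ⟨max N1 (N₀ n (t + 1)), fun N hN => ?_⟩
    have g1 : ∀ k, max N1 (N₀ n (t + 1)) ≤ k → |A (φ k) n t - a (n, q)| < ε / 2 := by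
      intro k hk
      have g2 := hN1 k ((le_max_left _ _).trans hk)
      rw [Real.dist_eq] at g2
      have g3 := (hL n (t + 1) (φ k) (((le_max_right _ _).trans hk).trans hφ.le_apply)).2
        t ⟨ht, by linarith⟩ q ⟨hq0, hq3⟩
      have g4 : L n (t + 1) * |t - q| ≤ ε / 3 := by
        have := mul_le_mul_of_nonneg_right hl1 (abs_nonneg (t - (q : ℝ)))
        nlinarith
      have g5 := abs_sub_le (A (φ k) n t) (A (φ k) n q) (a (n, q))
      linarith
    have g2 := g1 N hN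
    have g3 := g1 _ le_rfl
    rw [Real.dist_eq]
    have g4 := abs_sub_le (A (φ N) n t) (a (n, q)) (A (φ (max N1 (N₀ n (t + 1)))) n t)
    rw [abs_sub_comm] at g3
    linarith
  choose! α hα using h2
  exact ⟨φ, α, hφ, fun n t ht => hα n t ht⟩

end Pool.Agent.U401.DD
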