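import Mathlib
import Pool.Agent.U401.DD.Stm3
import Pool.Agent.U401.DD.CNV

/-!
# Project DD, package TDB: two solutions with different data
-/

set_option autoImplicit false

open MeasureTheory Set Filter Topology
open scoped InnerProductSpace

namespace Pool.Agent.U401.DD

open H772R2.NSR

namespace TDB

theorem rot_zero (om a : ℕ → ℝ) (N : ℕ) :
    ∑ n ∈ Finset.range (2 * N), a n * rot om a n = 0 := by
  induction N with
  | zero => simp
  | succ N ih =>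
    rw [show 2 * (N + 1) = 2 * N + 1 + 1 by ring, Finset.sum_range_succ, Finset.sum_range_succ, ih]
    have h1 : rot om a (2 * N) = om N * a (2 * N + 1) := by
      unfold rot
      rw [if_pos (by omega), show 2 * N / 2 = N by omega]
    have h2 : rot om a (2 * N + 1) = -(om N * a (2 * N)) := by
      unfold rot
      rw [if_neg (by omega), show (2 * N + 1) / 2 = N by omega, show 2 * N + 1 - 1 = 2 * N by omega]
    rw [h1, h2]
    ring

theorem rot_sub (om a b : ℕ → ℝ) (n : ℕ) :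
    rot om a n - rot om b n = rot om (fun k => a k - b k) n := by
  unfold rot
  split_ifs <;> ring

/-- the inequality of Gronwall -/
theorem gron (v : ℝ → ℝ) (hv : Continuous v) (A D T : ℝ) (hA : 1 ≤ A) (hD : 0 ≤ D)
    (h : ∀ t ∈ Icc 0 T, v t ≤ D + ∫ s in (0 : ℝ)..t, (A * v s + D)) :
    ∀ t ∈ Icc 0 T, D + ∫ s in (0 : ℝ)..t, (A * v s + D) ≤ 2 * Real.exp (A * t) * D := by
  set Y : ℝ → ℝ := fun t => D + ∫ s in (0 : ℝ)..t, (A * v s + D) with hY
  have hc : Continuous fun s => A * v s + D := by fun_prop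
  have hd : ∀ t, HasDerivAt Y (A * v t + D) t := by
    intro t
    have h1 : HasDerivAt (fun t => ∫ s in (0 : ℝ)..t, (A * v s + D)) (A * v t + D) t :=
      intervalIntegral.integral_hasDerivAt_right (hc.intervalIntegrable _ _)
        (hc.stronglyMeasurableAtFilter _ _) hc.continuousAt
    exact h1.const_add D
  set Z : ℝ → ℝ := fun t => Real.exp (-A * t) * (Y t + D) with hZ
  have hz : ∀ t, HasDerivAt Z (Real.exp (-A * t) * (-A) * (Y t + D) +
      Real.exp (-A * t) * (A * v t + D)) t := by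
    intro t
    have h1 : HasDerivAt (fun t => Real.exp (-A * t)) (Real.exp (-A * t) * (-A)) t := by
      have := ((hasDerivAt_id t).const_mul (-A)).exp
      simpa using this
    exact h1.mul ((hd t).add_const D)
  have hanti : AntitoneOn Z (Icc 0 T) := by
    refine antitoneOn_of_deriv_nonpos (convex_Icc 0 T)
      (fun t _ => (hz t).continuousAt.continuousWithinAt)
      (fun t _ => (hz t).differentiableAt.differentiableWithinAt) ?_
    intro t ht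
    rw [interior_Icc] at ht
    rw [(hz t).deriv]
    have h1 := h t ⟨ht.1.le, ht.2.le⟩
    have h2 : v t ≤ Y t := h1
    have h3 : 0 < Real.exp (-A * t) := Real.exp_pos _
    have h4 : -A * (Y t + D) + (A * v t + D) ≤ 0 := by nlinarith
    nlinarith
  intro t ht
  have h1 := hanti ⟨le_rfl, ht.1.trans ht.2⟩ ht ht.1
  have h2 : Z 0 = 2 * D := by
    simp only [hZ, hY]
    rw [intervalIntegral.integral_same, mul_zero, Real.exp_zero]
    ring
  rw [h2] at h1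
  have h3 : Real.exp (A * t) * Z t = Y t + D := by
    simp only [hZ]
    rw [← mul_assoc, ← Real.exp_add]
    have : A * t + -A * t = 0 := by ring
    rw [this, Real.exp_zero, one_mul]
  have h4 : Real.exp (A * t) * Z t ≤ Real.exp (A * t) * (2 * D) :=
    mul_le_mul_of_nonneg_left h1 (Real.exp_pos _).le
  rw [h3] at h4
  have h5 : Y t ≤ 2 * Real.exp (A * t) * D := by linarith
  exact h5

section

variable {H K : Type} [NormedAddCommGroup H] [InnerProductSpace ℝ H] [CompleteSpace H]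
  [NormedAddCommGroup K] [InnerProductSpace ℝ K] [CompleteSpace K]
  {W : Submodule ℝ (H × K)} {m : H → K} {C : ℝ} {w : ℕ → H} {g : ℕ → K} {lam : ℕ → ℝ}

theorem hasSum_g (hF : Frame W m C) (hB : Bas W w g lam) (p : H × K) (hp : p ∈ W) :
    HasSum (fun n => ⟪w n, p.1⟫_ℝ • g n) p.2 := by
  have h1 : Summable (fun n => ⟪w n, p.1⟫_ℝ • g n) := by
    refine CNV.summ _ (CNV.orth_g hB _) (‖p.2‖ ^ 2) fun s => ?_
    refine le_trans (le_of_eq (Finset.sum_congr rfl fun n _ => ?_)) (CNV.bessel hB s p hp)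
    exact CNV.norm_smul_g hB (fun n => ⟪w n, p.1⟫_ℝ) n
  obtain ⟨y, hy⟩ := h1
  have h2 := CNV.parseval w hB.orth p.1 (hB.dens p hp)
  have h3 : HasSum (fun n => (⟪w n, p.1⟫_ℝ • w n, ⟪w n, p.1⟫_ℝ • g n)) (p.1, y) := h2.prodMk hy
  have h4 : (p.1, y) ∈ W := by
    have hc : IsClosed (W : Set (H × K)) := hF.closedW
    refine hc.mem_of_tendsto h3 (Eventually.of_forall fun s => ?_)
    exact W.sum_mem fun n _ => W.smul_mem (⟪w n, p.1⟫_ℝ) (hB.mem n)
  have h5 : y = p.2 := grad_unique hF h4 hp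
  rwa [h5] at hy

theorem two_tendsto : Tendsto (fun N : ℕ => 2 * N) atTop atTop :=
  tendsto_atTop_mono (fun n => by omega : ∀ n : ℕ, n ≤ 2 * n) tendsto_id

theorem G_tendsto (hF : Frame W m C) (hB : Bas W w g lam) (p : H × K) (hp : p ∈ W) :
    Tendsto (fun N => ∑ n ∈ Finset.range (2 * N), ⟪w n, p.1⟫_ℝ • g n) atTop (𝓝 p.2) :=
  (hasSum_g hF hB p hp).tendsto_sum_nat.comp two_tendsto

theorem S_tendsto (hB : Bas W w g lam) (p : H × K) (hp : p ∈ W) :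
    Tendsto (fun N => ∑ n ∈ Finset.range (2 * N), ⟪w n, p.1⟫_ℝ • w n) atTop (𝓝 p.1) :=
  (CNV.parseval w hB.orth p.1 (hB.dens p hp)).tendsto_sum_nat.comp two_tendsto

theorem G_sq (hB : Bas W w g lam) (N : ℕ) (a : ℕ → ℝ) :
    ‖∑ n ∈ Finset.range (2 * N), a n • g n‖ ^ 2 = ∑ n ∈ Finset.range (2 * N), lam n * a n ^ 2 := by
  rw [CNV.norm_sum_sq _ (CNV.orth_g hB a)]
  exact Finset.sum_congr rfl fun n _ => CNV.norm_smul_g hB a n

theorem S_sq (hB : Bas W w g lam) (N : ℕ) (a : ℕ → ℝ) :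
    ‖∑ n ∈ Finset.range (2 * N), a n • w n‖ ^ 2 = ∑ n ∈ Finset.range (2 * N), a n ^ 2 := by
  rw [CNV.norm_sum_sq _ (CNV.orth_smul w hB.orth a)]
  refine Finset.sum_congr rfl fun n _ => ?_
  rw [norm_smul, hB.orth.1, mul_one, Real.norm_eq_abs, sq_abs]

theorem G_le (hB : Bas W w g lam) (p : H × K) (hp : p ∈ W) (N : ℕ) :
    ‖∑ n ∈ Finset.range (2 * N), ⟪w n, p.1⟫_ℝ • g n‖ ≤ ‖p.2‖ := by
  have h1 := CNV.bessel hB (Finset.range (2 * N)) p hp
  rw [← G_sq hB N fun n => ⟪w n, p.1⟫_ℝ] at h1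
  exact le_of_sq_le_sq h1 (norm_nonneg _)

theorem S_le (hB : Bas W w g lam) (v : H) (N : ℕ) :
    ‖∑ n ∈ Finset.range (2 * N), ⟪w n, v⟫_ℝ • w n‖ ≤ ‖v‖ := by
  have h1 := hB.orth.sum_inner_products_le v (s := Finset.range (2 * N))
  refine le_of_sq_le_sq ?_ (norm_nonneg _)
  rw [S_sq hB N fun n => ⟪w n, v⟫_ℝ]
  refine le_trans (le_of_eq (Finset.sum_congr rfl fun n _ => ?_)) h1
  rw [Real.norm_eq_abs, sq_abs]

theorem m_cont (hF : Frame W m C) {x : ℝ → H} {z : ℝ → K} {T R : ℝ}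
    (hx : ContinuousOn x (Icc 0 T)) (hm : ∀ t ∈ Icc 0 T, (x t, z t) ∈ W)
    (hz : ∀ t ∈ Icc 0 T, ‖z t‖ ≤ R) : ContinuousOn (fun t => m (x t)) (Icc 0 T) := by
  intro t ht
  have hR : 0 ≤ R := (norm_nonneg _).trans (hz t ht)
  have hC := hF.C0
  rw [ContinuousWithinAt, tendsto_iff_norm_sub_tendsto_zero]
  have hb : ∀ s ∈ Icc 0 T, ‖m (x s) - m (x t)‖ ≤
      Real.sqrt (Real.sqrt (C * (2 * R) ^ 7 * ‖x s - x t‖)) := by
    intro s hs
    have h1 := hF.lips _ (hm s hs) _ (hm t ht)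
    simp only at h1
    have h2 : ‖z s - z t‖ ≤ 2 * R := (norm_sub_le _ _).trans (by linarith [hz s hs, hz t ht])
    have h3 : ‖z s‖ + ‖z t‖ ≤ 2 * R := by linarith [hz s hs, hz t ht]
    have h4 : ‖m (x s) - m (x t)‖ ^ 4 ≤ C * (2 * R) ^ 7 * ‖x s - x t‖ := by
      calc ‖m (x s) - m (x t)‖ ^ 4
          ≤ C * (‖x s - x t‖ * ‖z s - z t‖ ^ 3 * (‖z s‖ + ‖z t‖) ^ 4) := h1
        _ ≤ C * (‖x s - x t‖ * (2 * R) ^ 3 * (2 * R) ^ 4) := by gcongr
        _ = C * (2 * R) ^ 7 * ‖x s - x t‖ := by ring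
    refine Real.le_sqrt_of_sq_le (Real.le_sqrt_of_sq_le ?_)
    calc (‖m (x s) - m (x t)‖ ^ 2) ^ 2 = ‖m (x s) - m (x t)‖ ^ 4 := by ring
      _ ≤ _ := h4
  refine squeeze_zero' (Eventually.of_forall fun _ => norm_nonneg _)
    (eventually_nhdsWithin_of_forall fun s hs => hb s hs) ?_
  have h5 : ContinuousWithinAt (fun s => Real.sqrt (Real.sqrt (C * (2 * R) ^ 7 * ‖x s - x t‖)))
      (Icc 0 T) t := by
    have h6 : ContinuousWithinAt (fun s => C * (2 * R) ^ 7 * ‖x s - x t‖) (Icc 0 T) t :=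
      continuousWithinAt_const.mul ((hx t ht).sub continuousWithinAt_const).norm
    exact (Real.continuous_sqrt.comp Real.continuous_sqrt).continuousAt.comp_continuousWithinAt h6
  have h7 := h5.tendsto
  simpa using h7

/-- the quartic bound and Young's inequality -/
theorem young (hF : Frame W m C) {ν R : ℝ} (hν : 0 < ν) {p : H × K} (hp : p ∈ W) {z : K}
    (hz : ‖z‖ ≤ R) :
    |2 * ⟪m p.1, z⟫_ℝ| ≤ ν * ‖p.2‖ ^ 2 + 2 * R ^ 4 * C ^ 2 / ν ^ 3 * ‖p.1‖ ^ 2 := by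
  have hC := hF.C0
  have hR : 0 ≤ R := (norm_nonneg _).trans hz
  set a := ‖p.1‖ with ha
  set D := ‖p.2‖ with hD
  have ha0 : 0 ≤ a := norm_nonneg _
  have hD0 : 0 ≤ D := norm_nonneg _
  set c := 2 * R ^ 2 * C / ν with hc
  have hcν : c * ν = 2 * R ^ 2 * C := by rw [hc]; field_simp
  have hc' : 2 * R ^ 4 * C ^ 2 / ν ^ 3 = c ^ 2 / (2 * ν) := by
    rw [hc]; field_simp
  rw [hc']
  have h1 : |⟪m p.1, z⟫_ℝ| ≤ ‖m p.1‖ * ‖z‖ := abs_real_inner_le_norm _ _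
  have h2 : |⟪m p.1, z⟫_ℝ| ^ 2 ≤ C * (a * D ^ 3) * R ^ 2 := by
    calc |⟪m p.1, z⟫_ℝ| ^ 2 ≤ (‖m p.1‖ * ‖z‖) ^ 2 := by gcongr
      _ = ‖m p.1‖ ^ 2 * ‖z‖ ^ 2 := by ring
      _ ≤ C * (a * D ^ 3) * R ^ 2 := by
        have h3 := hF.quart p hp
        gcongr
  refine abs_le_of_sq_le_sq ?_ (by positivity)
  have h4 : (2 * ⟪m p.1, z⟫_ℝ) ^ 2 ≤ 4 * (C * (a * D ^ 3) * R ^ 2) := by
    rw [mul_pow, ← sq_abs ⟪m p.1, z⟫_ℝ]
    nlinarith [h2]
  refine h4.trans ?_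
  have h5 : 4 * (C * (a * D ^ 3) * R ^ 2) = 2 * (c * ν) * a * D ^ 3 := by rw [hcν]; ring
  rw [h5]
  have h6 : (ν * D ^ 2 + c ^ 2 / (2 * ν) * a ^ 2) ^ 2 - 2 * (c * ν) * a * D ^ 3 =
      D ^ 2 * (ν * D - c * a) ^ 2 + (c ^ 2 / (2 * ν) * a ^ 2) ^ 2 := by
    field_simp
    ring
  have h7 : 0 ≤ D ^ 2 * (ν * D - c * a) ^ 2 + (c ^ 2 / (2 * ν) * a ^ 2) ^ 2 := by positivity
  linarith

theorem energy (hF : Frame W m C) (hB : Bas W w g lam) {om : ℕ → ℝ} {ν ε : ℝ} (hν : 0 < ν)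
    {f f' : ℝ → H} {u₀ u₀' : H} {x x' : ℝ → H} {z z' : ℝ → K} {T' δ R : ℝ} (hT' : 0 ≤ T')
    (hδ : 0 ≤ δ) (hf : ContinuousOn f (Ici 0)) (hf' : ContinuousOn f' (Ici 0))
    (hs : IsSolA W m w g lam om ν ε f u₀ x z) (hs' : IsSolA W m w g lam om ν ε f' u₀' x' z')
    (hb : ∀ t ∈ Icc 0 T', ‖z t‖ ≤ R ∧ ‖z' t‖ ≤ R ∧ ‖f t - f' t‖ ≤ δ) :
    IntervalIntegrable (fun t => ‖z t - z' t‖ ^ 2) volume 0 T' ∧
    ∀ t ∈ Icc 0 T', ‖x t - x' t‖ ^ 2 + ν * ∫ s in (0 : ℝ)..t, ‖z s - z' s‖ ^ 2 ≤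
      ‖u₀ - u₀'‖ ^ 2 +
        ∫ s in (0 : ℝ)..t, ((2 * R ^ 4 * C ^ 2 / ν ^ 3 + 1) * ‖x s - x' s‖ ^ 2 + δ ^ 2) := by
  have hR : 0 ≤ R := (norm_nonneg _).trans (hb 0 ⟨le_rfl, hT'⟩).1
  have hC := hF.C0
  have hsub : Icc 0 T' ⊆ Ici (0 : ℝ) := fun t ht => ht.1
  have hxc : ContinuousOn x (Icc 0 T') := hs.cont.mono hsub
  have hxc' : ContinuousOn x' (Icc 0 T') := hs'.cont.mono hsub
  have hmc : ContinuousOn (fun t => m (x t)) (Icc 0 T') :=
    m_cont hF hxc (fun t ht => hs.mem t ht.1) fun t ht => (hb t ht).1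
  have hmc' : ContinuousOn (fun t => m (x' t)) (Icc 0 T') :=
    m_cont hF hxc' (fun t ht => hs'.mem t ht.1) fun t ht => (hb t ht).2.1
  have hmem : ∀ t, 0 ≤ t → (x t - x' t, z t - z' t) ∈ W := fun t ht =>
    W.sub_mem (hs.mem t ht) (hs'.mem t ht)
  set a : ℕ → ℝ → ℝ := fun n s => ⟪w n, x s - x' s⟫_ℝ with ha
  set G : ℕ → ℝ → K := fun N s => ∑ n ∈ Finset.range (2 * N), a n s • g n with hG
  set S : ℕ → ℝ → H := fun N s => ∑ n ∈ Finset.range (2 * N), a n s • w n with hS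
  set M : ℝ → K := fun s => m (x s) - m (x' s) with hM
  set F : ℝ → H := fun s => f s - f' s with hFd
  set Φ : ℕ → ℝ → ℝ := fun N s =>
    -2 * ν * ‖G N s‖ ^ 2 + 2 * ⟪M s, G N s⟫_ℝ + 2 * ⟪S N s, F s⟫_ℝ with hΦ
  set y : ℕ → ℝ → ℝ := fun N s => ∑ n ∈ Finset.range (2 * N), a n s ^ 2 with hy
  -- the derivative
  have hder1 : ∀ n s, 0 ≤ s → HasDerivWithinAt (a n) (-ν * lam n * a n s + ⟪M s, g n⟫_ℝ +
      ⟪w n, F s⟫_ℝ + ε * rot om (fun k => a k s) n) (Ici 0) s := by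
    intro n s h0
    have h := (hs.eqn n s h0).sub (hs'.eqn n s h0)
    have e : a n = (fun s => ⟪w n, x s⟫_ℝ) - (fun s => ⟪w n, x' s⟫_ℝ) := by
      funext r
      simp only [ha, Pi.sub_apply, inner_sub_right]
    have e2 : rot om (fun k => a k s) n =
        rot om (fun k => ⟪w k, x s⟫_ℝ) n - rot om (fun k => ⟪w k, x' s⟫_ℝ) n := by
      rw [rot_sub]
      congr 1
      funext k
      simp only [ha, inner_sub_right]
    rw [e]
    refine h.congr_deriv ?_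
    rw [e2]
    simp only [hM, hFd, Pi.sub_apply, inner_sub_left, inner_sub_right]
    ring
  have hder : ∀ N s, 0 ≤ s → HasDerivWithinAt (y N) (Φ N s) (Ici 0) s := by
    intro N s h0
    have h1 := HasDerivWithinAt.fun_sum (u := Finset.range (2 * N))
      (fun n (_ : n ∈ Finset.range (2 * N)) => (hder1 n s h0).fun_pow 2)
    refine h1.congr_deriv ?_
    simp only [hΦ, hG, hS]
    rw [G_sq hB N fun n => a n s, inner_sum, sum_inner]
    have h2 := rot_zero om (fun k => a k s) N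
    have h3 : ∀ n ∈ Finset.range (2 * N), ((2 : ℕ) : ℝ) * a n s ^ (2 - 1) *
        (-ν * lam n * a n s + ⟪M s, g n⟫_ℝ + ⟪w n, F s⟫_ℝ + ε * rot om (fun k => a k s) n) =
        -2 * ν * (lam n * a n s ^ 2) + 2 * ⟪M s, a n s • g n⟫_ℝ + 2 * ⟪a n s • w n, F s⟫_ℝ +
          2 * ε * (a n s * rot om (fun k => a k s) n) := by
      intro n _
      rw [inner_smul_right, real_inner_smul_left]
      push_cast
      ring
    rw [Finset.sum_congr rfl h3]
    rw [Finset.sum_add_distrib, Finset.sum_add_distrib, Finset.sum_add_distrib, ← Finset.mul_sum,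
      ← Finset.mul_sum, ← Finset.mul_sum, ← Finset.mul_sum, h2]
    ring
  -- continuity
  have hac : ∀ n, ContinuousOn (a n) (Icc 0 T') := fun n =>
    continuousOn_const.inner (hxc.sub hxc')
  have hMc : ContinuousOn M (Icc 0 T') := hmc.sub hmc'
  have hFc : ContinuousOn F (Icc 0 T') := (hf.mono hsub).sub (hf'.mono hsub)
  have hGc : ∀ N, ContinuousOn (G N) (Icc 0 T') := fun N =>
    continuousOn_finset_sum _ fun n _ => (hac n).smul continuousOn_const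
  have hSc : ∀ N, ContinuousOn (S N) (Icc 0 T') := fun N =>
    continuousOn_finset_sum _ fun n _ => (hac n).smul continuousOn_const
  have hΦc : ∀ N, ContinuousOn (Φ N) (Icc 0 T') := fun N =>
    ((continuousOn_const.mul ((hGc N).norm.pow 2)).add
      (continuousOn_const.mul (hMc.inner (hGc N)))).add
      (continuousOn_const.mul ((hSc N).inner hFc))
  have hyc : ∀ N, ContinuousOn (y N) (Icc 0 T') := fun N =>
    continuousOn_finset_sum _ fun n _ => (hac n).pow 2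
  have hftc : ∀ N, ∀ t ∈ Icc 0 T', ∫ s in (0 : ℝ)..t, Φ N s = y N t - y N 0 := by
    intro N t ht
    have hst : Icc 0 t ⊆ Icc 0 T' := Icc_subset_Icc le_rfl ht.2
    refine intervalIntegral.integral_eq_sub_of_hasDeriv_right_of_le ht.1 ((hyc N).mono hst)
      (fun s hs1 => (hder N s hs1.1.le).mono fun r hr => ?_) ?_
    · exact hs1.1.le.trans (le_of_lt hr)
    · rw [intervalIntegrable_iff_integrableOn_Icc_of_le ht.1]
      exact ((hΦc N).mono hst).integrableOn_Icc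
  -- bounds
  obtain ⟨b, hbM⟩ : ∃ b : ℝ, ∀ t ∈ Icc 0 T', ‖M t‖ ≤ b := by
    obtain ⟨B0, h⟩ := (isCompact_Icc.image_of_continuousOn hMc).isBounded.exists_norm_le
    exact ⟨B0, fun t ht => h _ ⟨t, ht, rfl⟩⟩
  have hb0 : 0 ≤ b := (norm_nonneg _).trans (hbM 0 ⟨le_rfl, hT'⟩)
  have hq : ∀ t ∈ Icc 0 T', ‖z t - z' t‖ ≤ 2 * R := fun t ht =>
    (norm_sub_le _ _).trans (by linarith [(hb t ht).1, (hb t ht).2.1])
  have hv : ∀ t ∈ Icc 0 T', ‖x t - x' t‖ ≤ C * (2 * R) := fun t ht =>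
    (hF.poinc _ (hmem t ht.1)).trans (by
      have := hq t ht
      gcongr)
  have hGle : ∀ N, ∀ t ∈ Icc 0 T', ‖G N t‖ ≤ ‖z t - z' t‖ := fun N t ht =>
    G_le hB _ (hmem t ht.1) N
  have hSle : ∀ N t, ‖S N t‖ ≤ ‖x t - x' t‖ := fun N t => S_le hB _ N
  have hΦb : ∀ N, ∀ t ∈ Icc 0 T', ‖Φ N t‖ ≤
      2 * ν * (2 * R) ^ 2 + 2 * (b * (2 * R)) + 2 * (C * (2 * R) * δ) := by
    intro N t ht
    have h1 : ‖G N t‖ ≤ 2 * R := (hGle N t ht).trans (hq t ht)
    have h2 : ‖S N t‖ ≤ C * (2 * R) := (hSle N t).trans (hv t ht)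
    have h3 : |⟪M t, G N t⟫_ℝ| ≤ b * (2 * R) := (abs_real_inner_le_norm _ _).trans (by
      have := hbM t ht
      gcongr)
    have h4 : |⟪S N t, F t⟫_ℝ| ≤ C * (2 * R) * δ := (abs_real_inner_le_norm _ _).trans (by
      have : ‖F t‖ ≤ δ := (hb t ht).2.2
      gcongr)
    have h5 : ‖G N t‖ ^ 2 ≤ (2 * R) ^ 2 := by gcongr
    have h6 : 0 ≤ ‖G N t‖ ^ 2 := by positivity
    have h3' := abs_le.1 h3
    have h4' := abs_le.1 h4
    rw [Real.norm_eq_abs, abs_le]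
    simp only [hΦ]
    constructor
    · nlinarith [h3'.1, h4'.1, mul_le_mul_of_nonneg_left h5 hν.le]
    · nlinarith [h3'.2, h4'.2, mul_nonneg hν.le h6, mul_nonneg hν.le (sq_nonneg (2 * R))]
  -- limits
  set Ψ : ℝ → ℝ := fun s => -2 * ν * ‖z s - z' s‖ ^ 2 + 2 * ⟪M s, z s - z' s⟫_ℝ +
    2 * ⟪x s - x' s, F s⟫_ℝ with hΨ
  have hGt : ∀ t, 0 ≤ t → Tendsto (fun N => G N t) atTop (𝓝 (z t - z' t)) := fun t ht =>
    G_tendsto hF hB _ (hmem t ht)
  have hSt : ∀ t, 0 ≤ t → Tendsto (fun N => S N t) atTop (𝓝 (x t - x' t)) := fun t ht =>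
    S_tendsto hB _ (hmem t ht)
  have hΦt : ∀ t, 0 ≤ t → Tendsto (fun N => Φ N t) atTop (𝓝 (Ψ t)) := by
    intro t ht
    exact ((((hGt t ht).norm.pow 2).const_mul _).add ((tendsto_const_nhds.inner (hGt t ht)).const_mul _)).add
      (((hSt t ht).inner tendsto_const_nhds).const_mul _)
  have hyt : ∀ t, 0 ≤ t → Tendsto (fun N => y N t) atTop (𝓝 (‖x t - x' t‖ ^ 2)) := by
    intro t ht
    refine ((hSt t ht).norm.pow 2).congr fun N => ?_
    exact S_sq hB N fun n => a n t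
  have hmeas : ∀ {h : ℝ → ℝ}, ContinuousOn h (Icc 0 T') → ∀ t ∈ Icc 0 T',
      AEStronglyMeasurable h (volume.restrict (Ioc 0 t)) := by
    intro h hh t ht
    exact (hh.mono (Ioc_subset_Icc_self.trans (Icc_subset_Icc le_rfl ht.2))).aestronglyMeasurable
      measurableSet_Ioc
  have hqm : ∀ t ∈ Icc 0 T', AEStronglyMeasurable (fun s => ‖z s - z' s‖ ^ 2)
      (volume.restrict (Ioc 0 t)) := by
    intro t ht
    refine aestronglyMeasurable_of_tendsto_ae atTop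
      (fun N => hmeas (h := fun s => ‖G N s‖ ^ 2) ((hGc N).norm.pow 2) t ht) ?_
    exact (ae_restrict_mem measurableSet_Ioc).mono fun s hs1 => (hGt s hs1.1.le).norm.pow 2
  have hqi : ∀ t ∈ Icc 0 T', IntervalIntegrable (fun s => ‖z s - z' s‖ ^ 2) volume 0 t := by
    intro t ht
    rw [intervalIntegrable_iff_integrableOn_Ioc_of_le ht.1]
    refine Integrable.of_bound (hqm t ht) ((2 * R) ^ 2) ?_
    refine (ae_restrict_mem measurableSet_Ioc).mono fun s hs1 => ?_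
    rw [norm_pow, norm_norm]
    have := hq s ⟨hs1.1.le, hs1.2.trans ht.2⟩
    gcongr
  refine ⟨hqi T' ⟨hT', le_rfl⟩, fun t ht => ?_⟩
  have hst : Icc 0 t ⊆ Icc 0 T' := Icc_subset_Icc le_rfl ht.2
  have hlim : Tendsto (fun N => ∫ s in (0 : ℝ)..t, Φ N s) atTop (𝓝 (∫ s in (0 : ℝ)..t, Ψ s)) := by
    refine intervalIntegral.tendsto_integral_filter_of_dominated_convergence
      (fun _ => 2 * ν * (2 * R) ^ 2 + 2 * (b * (2 * R)) + 2 * (C * (2 * R) * δ)) ?_ ?_ ?_ ?_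
    · refine Eventually.of_forall fun N => ?_
      rw [uIoc_of_le ht.1]
      exact hmeas (hΦc N) t ht
    · refine Eventually.of_forall fun N => Eventually.of_forall fun s hs1 => ?_
      rw [uIoc_of_le ht.1] at hs1
      exact hΦb N s ⟨hs1.1.le, hs1.2.trans ht.2⟩
    · exact intervalIntegrable_const
    · refine Eventually.of_forall fun s hs1 => ?_
      rw [uIoc_of_le ht.1] at hs1
      exact hΦt s hs1.1.le
  have hlim2 : Tendsto (fun N => ∫ s in (0 : ℝ)..t, Φ N s) atTop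
      (𝓝 (‖x t - x' t‖ ^ 2 - ‖x 0 - x' 0‖ ^ 2)) := by
    refine ((hyt t ht.1).sub (hyt 0 le_rfl)).congr fun N => ?_
    rw [hftc N t ht]
  have hid := tendsto_nhds_unique hlim hlim2
  have hΨi : IntervalIntegrable Ψ volume 0 t := by
    rw [intervalIntegrable_iff_integrableOn_Ioc_of_le ht.1]
    have hm : AEStronglyMeasurable Ψ (volume.restrict (Ioc 0 t)) :=
      aestronglyMeasurable_of_tendsto_ae atTop (fun N => hmeas (hΦc N) t ht)
        ((ae_restrict_mem measurableSet_Ioc).mono fun s hs1 => hΦt s hs1.1.le)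
    refine Integrable.of_bound hm
      (2 * ν * (2 * R) ^ 2 + 2 * (b * (2 * R)) + 2 * (C * (2 * R) * δ)) ?_
    refine (ae_restrict_mem measurableSet_Ioc).mono fun s hs1 => ?_
    exact le_of_tendsto (hΦt s hs1.1.le).norm
      (Eventually.of_forall fun N => hΦb N s ⟨hs1.1.le, hs1.2.trans ht.2⟩)
  have hvc : ContinuousOn (fun s => (2 * R ^ 4 * C ^ 2 / ν ^ 3 + 1) * ‖x s - x' s‖ ^ 2 + δ ^ 2)
      (Icc 0 T') :=
    (continuousOn_const.mul ((hxc.sub hxc').norm.pow 2)).add continuousOn_const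
  have hvi : IntervalIntegrable (fun s => (2 * R ^ 4 * C ^ 2 / ν ^ 3 + 1) * ‖x s - x' s‖ ^ 2 + δ ^ 2)
      volume 0 t := by
    refine ContinuousOn.intervalIntegrable ?_
    rw [uIcc_of_le ht.1]
    exact hvc.mono hst
  have hle : ∫ s in (0 : ℝ)..t, Ψ s ≤ ∫ s in (0 : ℝ)..t, (((2 * R ^ 4 * C ^ 2 / ν ^ 3 + 1) *
      ‖x s - x' s‖ ^ 2 + δ ^ 2) - ν * ‖z s - z' s‖ ^ 2) := by
    refine intervalIntegral.integral_mono_on ht.1 hΨi (hvi.sub ((hqi t ht).const_mul ν)) ?_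
    intro s hs1
    have hs2 : s ∈ Icc 0 T' := hst hs1
    have h1 := young hF hν (hmem s hs1.1) (hb s hs2).2.1
    have h2 := hF.anti _ (hs.mem s hs1.1) _ (hs'.mem s hs1.1)
    simp only at h1 h2
    have h3 := abs_real_inner_le_norm (x s - x' s) (F s)
    have h4 : ‖F s‖ ≤ δ := (hb s hs2).2.2
    have h5 : 2 * (‖x s - x' s‖ * ‖F s‖) ≤ ‖x s - x' s‖ ^ 2 + δ ^ 2 := by
      nlinarith [sq_nonneg (‖x s - x' s‖ - ‖F s‖), norm_nonneg (F s)]
    have h6 := abs_le.1 h1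
    have h7 := abs_le.1 h3
    simp only [hΨ, hM]
    rw [h2]
    nlinarith [h6.1, h6.2, h7.2, h5]
  rw [intervalIntegral.integral_sub hvi ((hqi t ht).const_mul ν),
    intervalIntegral.integral_const_mul, hid, hs.init, hs'.init] at hle
  linarith

end

end TDB

open TDB in
theorem t_TDB : S_TDB := by
  intro H K _ _ _ _ _ _ W m C w g lam hF hB om ν ε hν T R
  set A : ℝ := 2 * R ^ 4 * C ^ 2 / ν ^ 3 + 1 with hA
  have hA1 : 1 ≤ A := by
    have : 0 ≤ 2 * R ^ 4 * C ^ 2 / ν ^ 3 := by positivity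
    linarith
  set B0 : ℝ := 2 * Real.exp (A * |T|) with hB0
  have hB01 : 1 ≤ B0 := by
    have : 1 ≤ Real.exp (A * |T|) := Real.one_le_exp (by positivity)
    linarith
  refine ⟨B0 * (1 + 1 / ν), by positivity, ?_⟩
  intro f f' u₀ u₀' x x' z z' T' δ hT' hTT hδ hf hf' hs hs' hb hu
  obtain ⟨hi, he⟩ := energy hF hB hν hT' hδ hf hf' hs hs' hb
  set v : ℝ → ℝ := fun s => ‖x (max s 0) - x' (max s 0)‖ ^ 2 with hv
  have hvc : Continuous v := by
    have h1 : Continuous fun s : ℝ => x (max s 0) :=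
      hs.cont.comp_continuous (by fun_prop) fun s => Set.mem_Ici.2 (le_max_right s 0)
    have h2 : Continuous fun s : ℝ => x' (max s 0) :=
      hs'.cont.comp_continuous (by fun_prop) fun s => Set.mem_Ici.2 (le_max_right s 0)
    exact (h1.sub h2).norm.pow 2
  have hv0 : ∀ s, 0 ≤ s → v s = ‖x s - x' s‖ ^ 2 := by
    intro s h0
    simp only [hv]
    rw [max_eq_left h0]
  have hint : ∀ t, 0 ≤ t → ∫ s in (0 : ℝ)..t, (A * ‖x s - x' s‖ ^ 2 + δ ^ 2) =
      ∫ s in (0 : ℝ)..t, (A * v s + δ ^ 2) := by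
    intro t h0
    refine intervalIntegral.integral_congr fun s hs1 => ?_
    rw [uIcc_of_le h0] at hs1
    simp only [hv0 s hs1.1]
  have hud : ‖u₀ - u₀'‖ ^ 2 ≤ δ ^ 2 := by gcongr
  have hq0 : ∀ t ∈ Icc 0 T', 0 ≤ ∫ s in (0 : ℝ)..t, ‖z s - z' s‖ ^ 2 := fun t ht =>
    intervalIntegral.integral_nonneg ht.1 fun s _ => by positivity
  have hY : ∀ t ∈ Icc 0 T', v t ≤ δ ^ 2 + ∫ s in (0 : ℝ)..t, (A * v s + δ ^ 2) := by
    intro t ht
    have h1 := he t ht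
    rw [hint t ht.1] at h1
    rw [hv0 t ht.1]
    nlinarith [hq0 t ht]
  have hgr := gron v hvc A (δ ^ 2) T' hA1 (by positivity) hY
  have hexp : ∀ t ∈ Icc 0 T', 2 * Real.exp (A * t) * δ ^ 2 ≤ B0 * δ ^ 2 := by
    intro t ht
    have h1 : A * t ≤ A * |T| := by
      have : t ≤ |T| := (ht.2.trans hTT).trans (le_abs_self T)
      have : 0 ≤ A := by linarith
      gcongr
    rw [hB0]
    have := Real.exp_le_exp.2 h1
    gcongr
  have hν1 : 0 < 1 / ν := by positivity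
  have hBB : B0 ≤ B0 * (1 + 1 / ν) := by nlinarith
  refine ⟨fun t ht => ?_, hi, ?_⟩
  · have h1 := (hY t ht).trans ((hgr t ht).trans (hexp t ht))
    rw [hv0 t ht.1] at h1
    have h2 : B0 * δ ^ 2 ≤ (B0 * (1 + 1 / ν) * δ) ^ 2 := by
      have h3 : B0 ≤ (B0 * (1 + 1 / ν)) ^ 2 := by nlinarith
      calc B0 * δ ^ 2 ≤ (B0 * (1 + 1 / ν)) ^ 2 * δ ^ 2 := by gcongr
        _ = _ := by ring
    exact le_of_sq_le_sq (h1.trans h2) (by positivity)
  · have ht : T' ∈ Icc 0 T' := ⟨hT', le_rfl⟩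
    have h1 := he T' ht
    rw [hint T' hT'] at h1
    have h2 := (hgr T' ht).trans (hexp T' ht)
    have h3 : 0 ≤ ‖x T' - x' T'‖ ^ 2 := by positivity
    have h4 : ν * ∫ s in (0 : ℝ)..T', ‖z s - z' s‖ ^ 2 ≤ B0 * δ ^ 2 := by linarith
    have h5 : ∫ s in (0 : ℝ)..T', ‖z s - z' s‖ ^ 2 ≤ B0 * δ ^ 2 / ν := by
      rw [le_div_iff₀ hν]
      linarith
    refine h5.trans ?_
    have h6 : B0 * δ ^ 2 / ν = B0 * (1 / ν) * δ ^ 2 := by ring
    rw [h6]
    have h7 : B0 * (1 / ν) ≤ B0 * (1 + 1 / ν) := by nlinarith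
    gcongr

end Pool.Agent.U401.DD
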