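import Mathlib
import Pool.Agent.U401.DD.Stm3

set_option autoImplicit false

/-!
Project DD, package TDC: difference quotients of a solution.
-/

open MeasureTheory ProbabilityTheory Set Filter Topology
open scoped InnerProductSpace

namespace Pool.Agent.U401.DD

open H772R2.NSR H772R2.NS

section

variable {H K : Type} [NormedAddCommGroup H] [InnerProductSpace ℝ H] [CompleteSpace H]
  [NormedAddCommGroup K] [InnerProductSpace ℝ K] [CompleteSpace K]

/-- the shift of a solution is a solution -/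
theorem IsSolA.shift {W : Submodule ℝ (H × K)} {m : H → K} {w : ℕ → H} {g : ℕ → K}
    {lam om : ℕ → ℝ} {ν ε : ℝ} {f : ℝ → H} {u₀ : H} {x : ℝ → H} {z : ℝ → K}
    (hS : IsSolA W m w g lam om ν ε f u₀ x z) {h : ℝ} (h0 : 0 ≤ h) :
    IsSolA W m w g lam om ν ε (fun t => f (t + h)) (x h) (fun t => x (t + h))
      (fun t => z (t + h)) := by
  have hmaps : MapsTo (fun s : ℝ => s + h) (Ici 0) (Ici 0) := fun s hs => by
    have : (0 : ℝ) ≤ s := hs
    show (0 : ℝ) ≤ s + h
    linarith
  constructor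
  · intro t ht
    exact hS.mem (t + h) (by linarith)
  · simp
  · exact hS.cont.comp (Continuous.continuousOn (by fun_prop)) hmaps
  · intro T
    obtain ⟨R, hR⟩ := hS.bdd (T + h)
    exact ⟨R, fun t ht => hR (t + h) ⟨by linarith [ht.1], by linarith [ht.2]⟩⟩
  · intro n t ht
    have h1 := hS.eqn n (t + h) (by linarith)
    have h2 : HasDerivWithinAt (fun s : ℝ => s + h) 1 (Ici 0) t :=
      (hasDerivWithinAt_id t (Ici 0)).add_const h
    have h3 := h1.comp t h2 hmaps
    rw [mul_one] at h3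
    exact h3

end

/-- Package TDC of project DD. -/
theorem t_TDC : S_TDC := by
  intro hA hB H K _ _ _ _ _ _ W m C w g lam hF hW om ν ε f u₀ x z hν hf hL hS hC T hT
  obtain ⟨R, hR⟩ := hS.bdd T
  obtain ⟨L, hLT⟩ := hL T
  obtain ⟨A, hAT⟩ := hA W m C w g lam hF hW om ν ε f u₀ x z hν hf hS hC T
  obtain ⟨B, hB0, hBT⟩ := hB W m C w g lam hF hW om ν ε hν T R
  obtain ⟨M, hM⟩ : ∃ M : ℝ, M = max (max A L) 0 := ⟨_, rfl⟩
  have hM0 : 0 ≤ M := by rw [hM]; exact le_max_right _ _
  have hMA : A ≤ M := by rw [hM]; exact (le_max_left _ _).trans (le_max_left _ _)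
  have hML : L ≤ M := by rw [hM]; exact (le_max_right _ _).trans (le_max_left _ _)
  refine ⟨max (B * M) (B * M ^ 2), ?_⟩
  intro h h0 hhT
  have hmaps : MapsTo (fun s : ℝ => s + h) (Ici 0) (Ici 0) := fun s hs => by
    have : (0 : ℝ) ≤ s := hs
    show (0 : ℝ) ≤ s + h
    linarith
  have hs := hS.shift h0.le
  have hfs : ContinuousOn (fun t => f (t + h)) (Ici 0) :=
    hf.comp (Continuous.continuousOn (by fun_prop)) hmaps
  obtain ⟨r1, r2, r3⟩ := hBT (fun t => f (t + h)) f (x h) u₀ (fun t => x (t + h)) x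
    (fun t => z (t + h)) z (T - h) (M * h) (by linarith) (by linarith) (by positivity) hfs hf hs hS
    (by
      intro t ht
      have ht1 : t + h ∈ Icc 0 T := ⟨by linarith [ht.1], by linarith [ht.2]⟩
      have ht2 : t ∈ Icc 0 T := ⟨ht.1, by linarith [ht.2]⟩
      refine ⟨hR _ ht1, hR _ ht2, ?_⟩
      refine (hLT _ ht1 _ ht2).trans ?_
      rw [show t + h - t = h by ring, abs_of_pos h0]
      exact mul_le_mul_of_nonneg_right hML h0.le)
    ((hAT h ⟨h0.le, hhT.le⟩).trans (mul_le_mul_of_nonneg_right hMA h0.le))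
  refine ⟨fun t ht => ?_, r2, ?_⟩
  · refine (r1 t ht).trans ?_
    calc B * (M * h) = (B * M) * h := by ring
      _ ≤ max (B * M) (B * M ^ 2) * h := mul_le_mul_of_nonneg_right (le_max_left _ _) h0.le
  · refine r3.trans ?_
    calc B * (M * h) ^ 2 = (B * M ^ 2) * h ^ 2 := by ring
      _ ≤ max (B * M) (B * M ^ 2) * h ^ 2 :=
          mul_le_mul_of_nonneg_right (le_max_right _ _) (by positivity)

end Pool.Agent.U401.DD
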