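import Mathlib
import Pool.Agent.U401.DD.Stm3

set_option autoImplicit false

/-!
Project DD, package TDF: time regularity (helper187).
-/

open MeasureTheory Set Filter Topology
open scoped InnerProductSpace

namespace Pool.Agent.U401.DD

open H772R2.NSR H772R2.NS

namespace TDFp

variable {H K : Type} [NormedAddCommGroup H] [InnerProductSpace ℝ H] [CompleteSpace H]
  [NormedAddCommGroup K] [InnerProductSpace ℝ K] [CompleteSpace K]

/-- the domain of the adjoint of the closed operator with graph `W` -/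
def adj (W : Submodule ℝ (H × K)) : Submodule ℝ K where
  carrier := {k | ∃ h : H, ∀ p ∈ W, ⟪p.1, h⟫_ℝ + ⟪p.2, k⟫_ℝ = 0}
  add_mem' := fun {a b} ⟨h, hh⟩ ⟨h', hh'⟩ => ⟨h + h', fun p hp => by
    rw [inner_add_right, inner_add_right]
    linarith [hh p hp, hh' p hp]⟩
  zero_mem' := ⟨0, fun p _ => by simp⟩
  smul_mem' := fun c a ⟨h, hh⟩ => ⟨c • h, fun p hp => by
    rw [inner_smul_right, inner_smul_right, ← mul_add, hh p hp, mul_zero]⟩

theorem adj_orth {W : Submodule ℝ (H × K)} (hW : IsClosed (W : Set (H × K)))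
    (huniq : ∀ p ∈ W, p.1 = 0 → p.2 = 0) : (adj W)ᗮ = ⊥ := by
  let W' : Submodule ℝ (WithLp 2 (H × K)) :=
    W.comap (WithLp.linearEquiv 2 ℝ (H × K)).toLinearMap
  have hmemW' : ∀ q : WithLp 2 (H × K), q ∈ W' ↔ q.ofLp ∈ W := fun q => Iff.rfl
  have hW' : IsClosed (W' : Set (WithLp 2 (H × K))) :=
    hW.preimage (WithLp.prod_continuous_ofLp 2 H K)
  rw [Submodule.eq_bot_iff]
  intro k0 hk0
  rw [Submodule.mem_orthogonal] at hk0
  have h1 : WithLp.toLp 2 ((0 : H), k0) ∈ W'ᗮᗮ := by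
    rw [Submodule.mem_orthogonal]
    intro q hq
    rw [Submodule.mem_orthogonal] at hq
    have hqS : q.ofLp.2 ∈ adj W := ⟨q.ofLp.1, fun p hp => by
      have := hq (WithLp.toLp 2 p) hp
      rwa [WithLp.prod_inner_apply] at this⟩
    have h2 := hk0 _ hqS
    rw [WithLp.prod_inner_apply]
    simpa using h2
  rw [Submodule.orthogonal_orthogonal_eq_closure, IsClosed.submodule_topologicalClosure_eq hW'] at h1
  exact huniq _ ((hmemW' _).1 h1) rfl

/-- weak continuity -/
theorem weak_cont {W : Submodule ℝ (H × K)} (hW : IsClosed (W : Set (H × K)))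
    (huniq : ∀ p ∈ W, p.1 = 0 → p.2 = 0) {s : Set ℝ} {x : ℝ → H} {z : ℝ → K}
    (hmem : ∀ t ∈ s, (x t, z t) ∈ W) (hx : ContinuousOn x s) {R : ℝ} (hR : ∀ t ∈ s, ‖z t‖ ≤ R)
    (k : K) : ContinuousOn (fun t => ⟪z t, k⟫_ℝ) s := by
  have hd : Dense (adj W : Set K) := by
    rw [Submodule.dense_iff_topologicalClosure_eq_top, Submodule.topologicalClosure_eq_top_iff]
    exact adj_orth hW huniq
  refine continuousOn_of_uniform_approx_of_continuousOn fun u hu => ?_
  obtain ⟨ε, hε, hεu⟩ := Metric.mem_uniformity_dist.1 hu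
  have hR0 : 0 < |R| + 1 := by positivity
  obtain ⟨k', ⟨h, hh⟩, hkk⟩ := hd.exists_dist_lt k (div_pos hε hR0)
  refine ⟨fun t => -⟪x t, h⟫_ℝ, (hx.inner continuousOn_const).neg, fun t ht => hεu ?_⟩
  have e : -⟪x t, h⟫_ℝ = ⟪z t, k'⟫_ℝ := by
    have := hh _ (hmem t ht)
    simp only at this
    linarith
  simp only [e]
  rw [Real.dist_eq, ← inner_sub_right]
  rw [dist_eq_norm, lt_div_iff₀ hR0] at hkk
  calc |⟪z t, k - k'⟫_ℝ| ≤ ‖z t‖ * ‖k - k'‖ := abs_real_inner_le_norm _ _
    _ ≤ (|R| + 1) * ‖k - k'‖ := by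
        have := hR t ht
        have := le_abs_self R
        gcongr
        linarith
    _ < ε := by linarith

end TDFp

open TDFp

/-- (TDF) time regularity -/
theorem t_TDF : S_TDF := by
  intro hA hB hC hW H K _ _ _ _ _ _ W m C w g lam hF hBas om ν ε f u₀ x z hν hf hL hsol hcomp T hT
  obtain ⟨B, hBB⟩ := hC hA hB W m C w g lam hF hBas om ν ε f u₀ x z hν hf hL hsol hcomp T hT
  obtain ⟨R, hR⟩ := hsol.bdd T
  have hx : ContinuousOn x (Icc 0 T) := hsol.cont.mono Icc_subset_Ici_self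
  have hmem : ∀ t ∈ Icc 0 T, (x t, z t) ∈ W := fun t ht => hsol.mem t ht.1
  have hlip : ∀ a ∈ Icc 0 T, ∀ b ∈ Icc 0 T, a < b → b - a < T → ‖x b - x a‖ ≤ B * (b - a) := by
    intro a ha b hb hab hbT
    have h1 := (hBB (b - a) (by linarith) hbT).1 a ⟨ha.1, by linarith [hb.2]⟩
    rwa [add_sub_cancel] at h1
  -- the derivative of x
  obtain ⟨x', hx', hx''⟩ := exists_weak_deriv' hT hx (c := B ^ 2 * T) (by
    intro h hh hhT
    have hTh : 0 ≤ T - h := by linarith
    have hs0 : Icc 0 (T - h) ⊆ Icc 0 T := Icc_subset_Icc_right (by linarith)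
    have hs1 : MapsTo (fun s => s + h) (Icc 0 (T - h)) (Icc 0 T) :=
      fun s hs => ⟨by linarith [hs.1], by linarith [hs.2]⟩
    have hus : ContinuousOn (fun s => x (s + h)) (Icc 0 (T - h)) :=
      hx.comp (by fun_prop) hs1
    have hi : IntervalIntegrable (fun s => ‖x (s + h) - x s‖ ^ 2) volume 0 (T - h) := by
      refine ContinuousOn.intervalIntegrable ?_
      rw [uIcc_of_le hTh]
      exact ((hus.sub (hx.mono hs0)).norm).pow 2
    calc ∫ s in (0 : ℝ)..(T - h), ‖x (s + h) - x s‖ ^ 2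
        ≤ ∫ s in (0 : ℝ)..(T - h), (B * h) ^ 2 := by
          refine intervalIntegral.integral_mono_on hTh hi intervalIntegrable_const ?_
          intro s hs
          have k1 := (hBB h hh hhT).1 s hs
          gcongr
      _ = (T - h) * (B * h) ^ 2 := by
          rw [intervalIntegral.integral_const, smul_eq_mul, sub_zero]
      _ ≤ T * (B * h) ^ 2 := by gcongr; linarith
      _ = B ^ 2 * T * h ^ 2 := by ring)
  -- the derivative of z
  obtain ⟨z', hz', hz''⟩ := hW T B z hT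
    (fun k => weak_cont hF.closedW hF.uniq hmem hx hR k)
    (fun h hh hhT => (hBB h hh hhT).2)
  refine ⟨x', z', B, hx', hz', hx'', hz'', ?_⟩
  have k1 := ae_deriv_of_prim hT (memLp_ii hT.le hx') hx''
  have k2 := ae_deriv_of_prim hT (memLp_ii hT.le hz') hz''
  have hne : ∀ᵐ s ∂(volume.restrict (Ioc 0 T)), s ≠ T := by
    refine ae_restrict_of_ae ?_
    simp [ae_iff, measure_singleton]
  filter_upwards [k1, k2, ae_restrict_mem measurableSet_Ioc, hne] with s h1 h2 h3 h4
  have hs : s ∈ Ioo 0 T := ⟨h3.1, lt_of_le_of_ne h3.2 h4⟩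
  have hcl : IsClosed {p : H × K | p ∈ W ∧ ‖p.1‖ ≤ B} :=
    hF.closedW.inter (isClosed_le (continuous_fst.norm : Continuous fun p : H × K => ‖p.1‖)
      continuous_const)
  have h5 : HasDerivAt (fun t => (x t, z t)) (x' s, z' s) s := h1.prodMk h2
  have h6 := (hasDerivAt_iff_tendsto_slope.mp h5)
  refine hcl.mem_of_tendsto h6 ?_
  have h7 : ∀ᶠ t in 𝓝[≠] s, t ∈ Icc 0 T := mem_nhdsWithin_of_mem_nhds (Icc_mem_nhds hs.1 hs.2)
  filter_upwards [h7, self_mem_nhdsWithin] with t ht hts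
  have hts' : t ≠ s := hts
  have hsI : s ∈ Icc 0 T := Ioo_subset_Icc_self hs
  refine ⟨?_, ?_⟩
  · rw [slope_def_module]
    exact W.smul_mem _ (W.sub_mem (hmem t ht) (hmem s hsI))
  · rw [slope_def_module]
    have k3 : ‖x t - x s‖ ≤ B * |t - s| := by
      rcases lt_or_gt_of_ne hts' with h | h
      · have := hlip t ht s hsI h (by linarith [ht.1, hs.2])
        rw [norm_sub_rev, abs_sub_comm, abs_of_pos (by linarith : 0 < s - t)]
        exact this
      · have := hlip s hsI t ht h (by linarith [ht.2, hs.1])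
        rw [abs_of_pos (by linarith : 0 < t - s)]
        exact this
    have hpos : 0 < |t - s| := abs_pos.mpr (sub_ne_zero.mpr hts')
    show ‖(t - s)⁻¹ • (x t - x s)‖ ≤ B
    rw [norm_smul, norm_inv, Real.norm_eq_abs, inv_mul_le_iff₀ hpos]
    linarith

end Pool.Agent.U401.DD
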