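import Mathlib
import Pool.Agent.U401.DD.Stm3

set_option autoImplicit false

/-!
Project DD, package TDW (helper901): weakly continuous functions with bounded difference quotients
are in `H¹(0, T)`.
-/

open MeasureTheory ProbabilityTheory Set Filter Topology
open scoped InnerProductSpace

namespace Pool.Agent.U401.DD

open H772R2.NSR H772R2.NS

namespace TDWaux

variable {Y : Type} [NormedAddCommGroup Y] [InnerProductSpace ℝ Y] [CompleteSpace Y]

omit [CompleteSpace Y] in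
theorem weak_bound {T B : ℝ} {z : ℝ → Y} (hT : 0 < T)
    (hc : ∀ k : Y, ContinuousOn (fun t => ⟪z t, k⟫_ℝ) (Icc 0 T))
    (H : ∀ h, 0 < h → h < T →
      IntervalIntegrable (fun t => ‖z (t + h) - z t‖ ^ 2) volume 0 (T - h) ∧
      ∫ t in (0 : ℝ)..(T - h), ‖z (t + h) - z t‖ ^ 2 ≤ B * h ^ 2) {C : ℝ} (hC : 0 < C)
    (hBC : B ≤ C) (k : Y) {a b : ℝ} (ha : 0 ≤ a) (hab : a ≤ b) (hb : b < T) :
    ⟪z b, k⟫_ℝ - ⟪z a, k⟫_ℝ ≤ ‖k‖ ^ 2 / 2 + C * (b - a) / 2 := by
  obtain ⟨ψ, hψ⟩ : ∃ ψ : ℝ → ℝ, ψ = fun t => ⟪z (clip T t), k⟫_ℝ := ⟨_, rfl⟩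
  have hψc : Continuous ψ := by
    rw [hψ]
    exact clip_cont hT.le (hc k)
  have hψe : ∀ t, 0 ≤ t → t ≤ T → ψ t = ⟪z t, k⟫_ℝ := by
    intro t h1 h2
    rw [hψ]
    simp only
    rw [clip_of_mem ⟨h1, h2⟩]
  have hii : ∀ p q : ℝ, IntervalIntegrable ψ volume p q := fun p q => hψc.intervalIntegrable p q
  have hder : ∀ p : ℝ, Tendsto (fun t : ℝ => t⁻¹ • ((∫ s in (0 : ℝ)..(p + t), ψ s) -
      ∫ s in (0 : ℝ)..p, ψ s)) (𝓝[≠] 0) (𝓝 (ψ p)) := by
    intro p
    have h1 : HasDerivAt (fun u => ∫ s in (0 : ℝ)..u, ψ s) (ψ p) p :=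
      intervalIntegral.integral_hasDerivAt_right (hii 0 p)
        (hψc.stronglyMeasurableAtFilter _ _) hψc.continuousAt
    exact hasDerivAt_iff_tendsto_slope_zero.mp h1
  have hlim := ((hder b).sub (hder a)).mono_left (nhdsWithin_mono (0 : ℝ)
    (fun x (hx : x ∈ Ioi (0 : ℝ)) => (ne_of_gt hx : x ≠ 0)))
  rw [← hψe b (ha.trans hab) hb.le, ← hψe a ha (hab.trans hb.le)]
  refine le_of_tendsto hlim ?_
  have hev : ∀ᶠ h : ℝ in 𝓝[>] 0, h < T - b := by
    refine (eventually_lt_nhds (by linarith : (0 : ℝ) < T - b)).filter_mono nhdsWithin_le_nhds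
  filter_upwards [hev, self_mem_nhdsWithin] with h hhb hh0
  have hh : 0 < h := hh0
  have hhT : h < T := by linarith
  obtain ⟨hI, hB⟩ := H h hh hhT
  have e1 : (∫ s in (0 : ℝ)..(b + h), ψ s) - (∫ s in (0 : ℝ)..b, ψ s) -
      ((∫ s in (0 : ℝ)..(a + h), ψ s) - ∫ s in (0 : ℝ)..a, ψ s) =
      ∫ t in a..b, (ψ (t + h) - ψ t) := by
    have g1 : IntervalIntegrable (fun t => ψ (t + h)) volume a b :=
      (hψc.comp (by fun_prop)).intervalIntegrable a b
    rw [intervalIntegral.integral_sub g1 (hii a b),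
      intervalIntegral.integral_comp_add_right (fun t => ψ t) h,
      intervalIntegral.integral_interval_sub_left (hii _ _) (hii _ _),
      intervalIntegral.integral_interval_sub_left (hii _ _) (hii _ _)]
    have k1 := intervalIntegral.integral_add_adjacent_intervals (hii a b) (hii b (b + h))
    have k2 := intervalIntegral.integral_add_adjacent_intervals (hii a (a + h)) (hii (a + h) (b + h))
    linarith
  have hsub : uIcc a b ⊆ uIcc 0 (T - h) := by
    rw [uIcc_of_le hab, uIcc_of_le (by linarith)]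
    exact Icc_subset_Icc ha (by linarith)
  have hI2 : IntervalIntegrable (fun t => ‖z (t + h) - z t‖ ^ 2) volume a b := hI.mono_set hsub
  have e2 : ∫ t in a..b, (ψ (t + h) - ψ t) ≤
      ∫ t in a..b, (‖k‖ ^ 2 / (2 * C * h) * ‖z (t + h) - z t‖ ^ 2 + C * h / 2) := by
    refine intervalIntegral.integral_mono_on hab ?_ ?_ ?_
    · exact ((hψc.comp (by fun_prop)).sub hψc).intervalIntegrable a b
    · exact (hI2.const_mul _).add intervalIntegrable_const
    · intro t ht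
      rw [hψe (t + h) (by linarith [ht.1]) (by linarith [ht.2]),
        hψe t (by linarith [ht.1]) (by linarith [ht.2]), ← inner_sub_left]
      have i1 := real_inner_le_norm (z (t + h) - z t) k
      obtain ⟨p, hp⟩ : ∃ p, p = ‖z (t + h) - z t‖ := ⟨_, rfl⟩
      rw [← hp] at i1 ⊢
      have hCh : 0 < 2 * C * h := by positivity
      have i2 : p * ‖k‖ ≤ ‖k‖ ^ 2 / (2 * C * h) * p ^ 2 + C * h / 2 := by
        have : ‖k‖ ^ 2 / (2 * C * h) * p ^ 2 + C * h / 2 - p * ‖k‖ =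
            (p * ‖k‖ - C * h) ^ 2 / (2 * C * h) := by
          field_simp
          ring
        have h0 : 0 ≤ (p * ‖k‖ - C * h) ^ 2 / (2 * C * h) := by positivity
        linarith
      exact i1.trans i2
  have e3 : ∫ t in a..b, (‖k‖ ^ 2 / (2 * C * h) * ‖z (t + h) - z t‖ ^ 2 + C * h / 2) =
      ‖k‖ ^ 2 / (2 * C * h) * (∫ t in a..b, ‖z (t + h) - z t‖ ^ 2) + (b - a) * (C * h / 2) := by
    rw [intervalIntegral.integral_add (hI2.const_mul _) intervalIntegrable_const,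
      intervalIntegral.integral_const_mul, intervalIntegral.integral_const, smul_eq_mul]
  have e4 : ∫ t in a..b, ‖z (t + h) - z t‖ ^ 2 ≤ C * h ^ 2 := by
    have j1 : ∫ t in a..b, ‖z (t + h) - z t‖ ^ 2 ≤
        ∫ t in (0 : ℝ)..(T - h), ‖z (t + h) - z t‖ ^ 2 := by
      refine intervalIntegral.integral_mono_interval ha hab (by linarith) ?_ hI
      exact Eventually.of_forall fun t => by positivity
    exact (j1.trans hB).trans (mul_le_mul_of_nonneg_right hBC (by positivity))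
  rw [← smul_sub, smul_eq_mul, e1, inv_mul_le_iff₀ hh]
  refine e2.trans ?_
  rw [e3]
  have e5 : ‖k‖ ^ 2 / (2 * C * h) * (∫ t in a..b, ‖z (t + h) - z t‖ ^ 2) ≤
      ‖k‖ ^ 2 / (2 * C * h) * (C * h ^ 2) := mul_le_mul_of_nonneg_left e4 (by positivity)
  have e6 : ‖k‖ ^ 2 / (2 * C * h) * (C * h ^ 2) = h * (‖k‖ ^ 2 / 2) := by
    field_simp
  rw [e6] at e5
  linarith

end TDWaux

open TDWaux in
theorem t_TDW : S_TDW := by
  intro Y _ _ _ T B z hT hc H
  obtain ⟨C, hC⟩ : ∃ C, C = |B| + 1 := ⟨_, rfl⟩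
  have hC0 : 0 < C := by rw [hC]; positivity
  have hBC : B ≤ C := by rw [hC]; linarith [le_abs_self B]
  have key : ∀ k : Y, ∀ a b, 0 ≤ a → a < b → b ≤ T →
      ⟪z b, k⟫_ℝ - ⟪z a, k⟫_ℝ ≤ ‖k‖ ^ 2 / 2 + C * (b - a) / 2 := by
    intro k a b ha hab hbT
    rcases hbT.lt_or_eq with hlt | heq
    · exact weak_bound hT hc H hC0 hBC k ha hab.le hlt
    · subst heq
      have h1 : Tendsto (fun t => ⟪z t, k⟫_ℝ) (𝓝[<] b) (𝓝 ⟪z b, k⟫_ℝ) := by
        have h2 := (hc k) b ⟨hT.le, le_rfl⟩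
        refine h2.tendsto.mono_left ?_
        rw [nhdsWithin_le_iff]
        filter_upwards [self_mem_nhdsWithin, (eventually_gt_nhds hT).filter_mono nhdsWithin_le_nhds]
          with t ht1 ht2
        exact ⟨ht2.le, (show t < b from ht1).le⟩
      have h3 : Tendsto (fun t : ℝ => ‖k‖ ^ 2 / 2 + C * (t - a) / 2) (𝓝[<] b)
          (𝓝 (‖k‖ ^ 2 / 2 + C * (b - a) / 2)) := by
        have : Continuous fun t : ℝ => ‖k‖ ^ 2 / 2 + C * (t - a) / 2 := by fun_prop
        exact this.continuousAt.tendsto.mono_left nhdsWithin_le_nhds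
      refine le_of_tendsto_of_tendsto (h1.sub_const _) h3 ?_
      filter_upwards [self_mem_nhdsWithin, (eventually_gt_nhds hab).filter_mono nhdsWithin_le_nhds]
        with t ht1 ht2
      exact weak_bound hT hc H hC0 hBC k ha ht2.le ht1
  have hlt : ∀ a b, 0 ≤ a → a < b → b ≤ T → ‖z b - z a‖ ^ 2 ≤ C * (b - a) := by
    intro a b ha hab hb
    have h1 := key (z b - z a) a b ha hab hb
    rw [← inner_sub_left, real_inner_self_eq_norm_sq] at h1
    linarith
  have hall : ∀ a ∈ Icc 0 T, ∀ b ∈ Icc 0 T, ‖z b - z a‖ ^ 2 ≤ C * |b - a| := by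
    intro a ha b hb
    rcases lt_trichotomy a b with h | h | h
    · rw [abs_of_pos (by linarith)]
      exact hlt a b ha.1 h hb.2
    · rw [h]
      simp
    · rw [abs_of_neg (by linarith), norm_sub_rev, neg_sub]
      exact hlt b a hb.1 h ha.2
  have hcont : ContinuousOn z (Icc 0 T) := by
    rw [Metric.continuousOn_iff]
    intro a ha ε hε
    refine ⟨ε ^ 2 / C, by positivity, fun b hb hd => ?_⟩
    have h1 := hall a ha b hb
    rw [Real.dist_eq, lt_div_iff₀ hC0] at hd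
    rw [dist_eq_norm]
    have h2 : ‖z b - z a‖ ^ 2 < ε ^ 2 := by linarith
    exact lt_of_pow_lt_pow_left₀ 2 hε.le h2
  exact exists_weak_deriv' hT hcont (c := B) fun h hh hhT => (H h hh hhT).2

end Pool.Agent.U401.DD
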