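import Mathlib
import Pool.Agent.U401.DD.Stm

/-!
# Project DD, package APA: assembly of the a priori bound
-/

set_option autoImplicit false

open MeasureTheory ProbabilityTheory Set Filter Topology

namespace Pool.Agent.U401.DD

section apa

variable {bet : ℕ → ℕ → ℕ → ℝ} {lam : ℕ → ℝ} {K : ℝ}

theorem apa_gg_nonneg (hd : Dat bet lam K) (j : ℕ) : 0 ≤ gg lam j := by
  unfold gg
  exact add_nonneg (hd.pos _).le (hd.pos _).le

theorem apa_lam_le (hd : Dat bet lam K) (n : ℕ) : lam n ≤ gg lam (n / 2) := by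
  unfold gg
  rcases Nat.even_or_odd' n with ⟨k, rfl | rfl⟩
  · have h : 2 * k / 2 = k := by omega
    rw [h]
    have := hd.pos (2 * k + 1)
    linarith
  · have h : (2 * k + 1) / 2 = k := by omega
    rw [h]
    have := hd.pos (2 * k)
    linarith

theorem apa_Dd_le (hd : Dat bet lam K) (N : ℕ) (a : ℕ → ℝ) : Dd lam N a ≤ En lam N a := by
  unfold Dd En
  exact Finset.sum_le_sum fun n _ => mul_le_mul_of_nonneg_right (apa_lam_le hd n) (sq_nonneg _)

theorem apa_En_nonneg (hd : Dat bet lam K) (N : ℕ) (a : ℕ → ℝ) : 0 ≤ En lam N a := by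
  unfold En
  exact Finset.sum_nonneg fun n _ => mul_nonneg (apa_gg_nonneg hd _) (sq_nonneg _)

theorem apa_En_le (hd : Dat bet lam K) (N : ℕ) (a : ℕ → ℝ) : En lam N a ≤ K * Dd lam N a := by
  unfold Dd En
  rw [Finset.mul_sum]
  refine Finset.sum_le_sum fun n _ => ?_
  rw [← mul_assoc]
  exact mul_le_mul_of_nonneg_right (hd.cmp n) (sq_nonneg _)

theorem apa_Mm_le (hd : Dat bet lam K) (N : ℕ) (a : ℕ → ℝ) : Mm N a ≤ K * Dd lam N a := by
  unfold Dd Mm
  rw [Finset.mul_sum]
  refine Finset.sum_le_sum fun n _ => ?_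
  rw [← mul_assoc]
  exact le_mul_of_one_le_left (sq_nonneg _) (hd.low n)

end apa

theorem t_APA : S_APA := by
  intro hDRV hENG hGRW bet lam om K c ε ν hd hg hε hν T A F hT
  have hK : 0 ≤ K := zero_le_one.trans hd.K1
  obtain ⟨R1, hR1, h1⟩ := hENG bet lam K hd ν T (K * A) F hν hT
  obtain ⟨B1, hB1, h2⟩ := hDRV bet lam om K c ε ν hd hg hε hν R1 F
  obtain ⟨R2, h3⟩ := hGRW T (max B1 R1) (K * A) hT (le_max_of_le_left hB1)
  refine ⟨R2, fun N f a hf hG hA hF t ht => ?_⟩
  have hA1 : Mm N (fun k => a k 0) ≤ K * A :=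
    (apa_Mm_le hd N _).trans (mul_le_mul_of_nonneg_left hA hK)
  obtain ⟨h4, h5⟩ := h1 om ε N f a hf hG hA1 hF
  have h6 := h2 N T f a hG
  have h7 : ∀ s : ℝ, ∃ y' : ℝ, s ∈ Icc 0 T →
      HasDerivWithinAt (fun s => En lam N (fun k => a k s) -
        (form N (hnf bet lam om ε) (uu fun k => a k s)).re) y' (Icc 0 T) s ∧
        y' ≤ B1 * (1 + En lam N (fun k => a k s)) ^ 2 := by
    intro s
    by_cases hs : s ∈ Icc 0 T
    · obtain ⟨y', hy⟩ := (h6 s hs (h4 s hs) (hF s hs)).2
      exact ⟨y', fun _ => hy⟩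
    · exact ⟨0, fun h => absurd h hs⟩
  choose y' hy' using h7
  have hcont : ContinuousOn (fun s => En lam N (fun k => a k s)) (Icc 0 T) := by
    unfold En
    refine continuousOn_finsetSum _ fun n hn => ?_
    have hc : ContinuousOn (a n) (Icc 0 T) := fun s hs =>
      (hG n (Finset.mem_range.1 hn) s hs).continuousWithinAt
    exact continuousOn_const.mul (hc.pow 2)
  refine (apa_Dd_le hd N _).trans (h3 (fun s => En lam N (fun k => a k s))
    (fun s => (form N (hnf bet lam om ε) (uu fun k => a k s)).re) y' hcont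
    (fun s _ => apa_En_nonneg hd N _) ((apa_En_le hd N _).trans (mul_le_mul_of_nonneg_left hA hK))
    (fun s hs => ((h6 s hs (h4 s hs) (hF s hs)).1).trans (le_max_left _ _))
    (h5.trans (le_max_right _ _)) (fun s hs => (hy' s hs).1) (fun s hs => ?_) t ht)
  exact (hy' s hs).2.trans (mul_le_mul_of_nonneg_right (le_max_left _ _) (sq_nonneg _))

end Pool.Agent.U401.DD
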