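import Mathlib
import Pool.Agent.U401.DD.Stm

/-!
# Project DD, package DRA (helper94): assembly of the derivative inequality for the corrected energy
-/

set_option autoImplicit false

open MeasureTheory Set Filter Topology

namespace Pool.Agent.U401.DD.DRA94

open Pool.Agent.U401.DD

lemma sum_two (g : ℕ → ℝ) (N : ℕ) :
    ∑ n ∈ Finset.range (2 * N), g n = ∑ j ∈ Finset.range N, (g (2 * j) + g (2 * j + 1)) := by
  induction N with
  | zero => simp
  | succ N ih =>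
    rw [show 2 * (N + 1) = 2 * N + 1 + 1 by ring, Finset.sum_range_succ, Finset.sum_range_succ,
      Finset.sum_range_succ, ih]
    ring

lemma rot_cancel (lam om a : ℕ → ℝ) (N : ℕ) :
    ∑ n ∈ Finset.range (2 * N), gg lam (n / 2) * (2 * a n * rot om a n) = 0 := by
  rw [sum_two]
  refine Finset.sum_eq_zero fun j _ => ?_
  have e1 : 2 * j / 2 = j := by omega
  have e2 : (2 * j + 1) / 2 = j := by omega
  have e3 : 2 * j % 2 = 0 := by omega
  have e4 : ¬ (2 * j + 1) % 2 = 0 := by omega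
  rw [rot, rot, if_pos e3, if_neg e4, e1, e2, Nat.add_sub_cancel]
  ring

lemma sq_norm_uu (a : ℕ → ℝ) (κ : Ix) : ‖uu a κ‖ ^ 2 = a (2 * κ.1) ^ 2 + a (2 * κ.1 + 1) ^ 2 := by
  rw [Complex.sq_norm, Complex.normSq_apply]
  have h1 : (uu a κ).re = a (2 * κ.1) := by
    simp [uu, sg]
  have h2 : (uu a κ).im = sg κ.2 * a (2 * κ.1 + 1) := by
    simp [uu, sg]
  rw [h1, h2]
  have h3 : sg κ.2 * sg κ.2 = 1 := by
    unfold sg
    split_ifs <;> norm_num
  linear_combination (a (2 * κ.1 + 1) ^ 2) * h3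

lemma norm_uu_bar (a : ℕ → ℝ) (κ : Ix) : ‖uu a (bar κ)‖ = ‖uu a κ‖ := by
  have h : ‖uu a (bar κ)‖ ^ 2 = ‖uu a κ‖ ^ 2 := by
    rw [sq_norm_uu, sq_norm_uu]
    rfl
  exact (pow_left_inj₀ (norm_nonneg _) (norm_nonneg _) two_ne_zero).1 h

lemma sum_sq_uu (a : ℕ → ℝ) (N : ℕ) : ∑ κ ∈ IxN N, ‖uu a κ‖ ^ 2 = 2 * Mm N a := by
  rw [Mm, sum_two, IxN, Finset.sum_product, Finset.mul_sum]
  refine Finset.sum_congr rfl fun j _ => ?_
  rw [Fintype.sum_bool, sq_norm_uu, sq_norm_uu]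
  ring

lemma norm_form_le (N : ℕ) (h : Ix → Ix → Ix → ℂ) (u : Ix → ℂ) :
    ‖form N h u‖ ≤ ∑ κ ∈ IxN N, ∑ l ∈ IxN N, ∑ m ∈ IxN N, ‖h κ l m‖ * (‖u κ‖ * ‖u l‖ * ‖u m‖) := by
  refine (norm_sum_le _ _).trans (Finset.sum_le_sum fun κ _ => ?_)
  refine (norm_sum_le _ _).trans (Finset.sum_le_sum fun l _ => ?_)
  refine (norm_sum_le _ _).trans (Finset.sum_le_sum fun m _ => ?_)
  rw [norm_mul, norm_mul, norm_mul]

lemma norm_dform_le (N : ℕ) (h : Ix → Ix → Ix → ℂ) (u r : Ix → ℂ) :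
    ‖dform N h u r‖ ≤ ∑ κ ∈ IxN N, ∑ l ∈ IxN N, ∑ m ∈ IxN N, ‖h κ l m‖ *
      (‖r κ‖ * ‖u l‖ * ‖u m‖ + ‖u κ‖ * ‖r l‖ * ‖u m‖ + ‖u κ‖ * ‖u l‖ * ‖r m‖) := by
  refine (norm_sum_le _ _).trans (Finset.sum_le_sum fun κ _ => ?_)
  refine (norm_sum_le _ _).trans (Finset.sum_le_sum fun l _ => ?_)
  refine (norm_sum_le _ _).trans (Finset.sum_le_sum fun m _ => ?_)
  rw [norm_mul]
  refine mul_le_mul_of_nonneg_left ?_ (norm_nonneg _)
  refine (norm_add₃_le).trans ?_
  rw [norm_mul, norm_mul, norm_mul, norm_mul, norm_mul, norm_mul]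

lemma form_add (N : ℕ) (h₁ h₂ : Ix → Ix → Ix → ℂ) (u : Ix → ℂ) :
    form N h₁ u + form N h₂ u = form N (fun κ l m => h₁ κ l m + h₂ κ l m) u := by
  simp only [form, ← Finset.sum_add_distrib]
  refine Finset.sum_congr rfl fun κ _ => Finset.sum_congr rfl fun l _ => Finset.sum_congr rfl fun m _ => ?_
  ring

/-- splitting of the energy production -/
lemma split (bet : ℕ → ℕ → ℕ → ℝ) (lam om : ℕ → ℝ) (ε : ℝ) (hε : ε ≠ 0)
    (hL : ∀ κ l m : Ix, far lam om κ l m → Lm om κ l m ≠ 0) (N : ℕ) (u : Ix → ℂ) :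
    form N (cx (sig bet lam)) u =
      form N (fun κ l m => hnf bet lam om ε κ l m * (-Complex.I * (ε * Lm om κ l m))) u +
        form N (rest bet lam om) u := by
  rw [form_add]
  congr 1
  funext κ l m
  by_cases hf : far lam om κ l m
  · rw [hnf, rest, if_pos hf, if_pos hf, add_zero]
    have h1 : (ε : ℂ) ≠ 0 := by exact_mod_cast hε
    have h2 : (Lm om κ l m : ℂ) ≠ 0 := by exact_mod_cast hL κ l m hf
    field_simp
    rw [Complex.I_sq]
    ring
  · rw [hnf, rest, if_neg hf, if_neg hf, zero_mul, zero_add]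

lemma En_nonneg {bet : ℕ → ℕ → ℕ → ℝ} {lam : ℕ → ℝ} {K : ℝ} (hD : Dat bet lam K) (N : ℕ) (a : ℕ → ℝ) :
    0 ≤ En lam N a := by
  refine Finset.sum_nonneg fun n _ => mul_nonneg ?_ (sq_nonneg _)
  unfold gg
  linarith [hD.pos (2 * (n / 2)), hD.pos (2 * (n / 2) + 1)]

/-- the real estimate -/
lemma energy_est {bet : ℕ → ℕ → ℕ → ℝ} {lam : ℕ → ℝ} {K ν : ℝ} (hD : Dat bet lam K) (hν : 0 < ν)
    (N : ℕ) (a f : ℕ → ℝ) :
    -2 * ν * (∑ n ∈ Finset.range (2 * N), gg lam (n / 2) * lam n * a n ^ 2) +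
      2 * (∑ n ∈ Finset.range (2 * N), gg lam (n / 2) * a n * f n) ≤
      -(ν / K) * (∑ n ∈ Finset.range (2 * N), gg lam (n / 2) ^ 2 * a n ^ 2) + K / ν * Mm N f := by
  have hK : 0 < K := lt_of_lt_of_le one_pos hD.K1
  rw [Mm, Finset.mul_sum, Finset.mul_sum, Finset.mul_sum, Finset.mul_sum, ← Finset.sum_add_distrib,
    ← Finset.sum_add_distrib]
  refine Finset.sum_le_sum fun n _ => ?_
  set g := gg lam (n / 2) with hg
  have hg0 : 0 < g := by
    rw [hg, gg]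
    linarith [hD.pos (2 * (n / 2)), hD.pos (2 * (n / 2) + 1)]
  have h1 : g ≤ K * lam n := hD.cmp n
  have h2 : ν / K * (g ^ 2 * a n ^ 2) ≤ ν * (g * lam n * a n ^ 2) := by
    have h3 : g ^ 2 * a n ^ 2 ≤ K * (g * lam n * a n ^ 2) := by
      have h4 : g * (g * a n ^ 2) ≤ K * lam n * (g * a n ^ 2) :=
        mul_le_mul_of_nonneg_right h1 (by positivity)
      linarith
    calc ν / K * (g ^ 2 * a n ^ 2) ≤ ν / K * (K * (g * lam n * a n ^ 2)) :=
          mul_le_mul_of_nonneg_left h3 (by positivity)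
      _ = ν * (g * lam n * a n ^ 2) := by field_simp
  have h5 : 2 * (g * a n * f n) ≤ ν / K * (g ^ 2 * a n ^ 2) + K / ν * f n ^ 2 := by
    have h6 : 0 ≤ ν / K * (g * a n - K / ν * f n) ^ 2 := by positivity
    have h7 : ν / K * (g * a n - K / ν * f n) ^ 2 =
        ν / K * (g ^ 2 * a n ^ 2) - 2 * (g * a n * f n) + K / ν * f n ^ 2 := by
      field_simp
      ring
    linarith
  linarith

theorem main : S_DRA := by
  intro hCPX hSIG hBDC hHB hETA hKEP hRHS hDER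
  intro bet lam om K c ε ν hD hG hε hν X F
  obtain ⟨hL, B1, hB1, hh⟩ := hHB hBDC bet lam om K c ε hD hG hε
  obtain ⟨B2, hB2, hEta⟩ := hETA lam hD.pos
  have hK : 0 < K := lt_of_lt_of_le one_pos hD.K1
  obtain ⟨B3, hKep⟩ := hKEP hBDC bet lam om K c hD hG (ν / K) X (by positivity)
  obtain ⟨B4, hB4, hRhs⟩ := hRHS bet lam K hD ν X F hν.le
  set X₁ : ℝ := 2 * |X| with hX₁
  have hX₁0 : 0 ≤ X₁ := by positivity
  refine ⟨B1 * (B2 * (X₁ * Real.sqrt X₁)) + (K / ν * |F| + |B3| + B1 * (B2 * (B4 * (X₁ + Real.sqrt X₁)))),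
    by positivity, ?_⟩
  intro N T f a hGal t ht hMa hMf
  set av : ℕ → ℝ := fun k => a k t with hav
  set fv : ℕ → ℝ := fun k => f k t with hfv
  set b : ℕ → ℝ := Nn bet lam ν N av fv with hb
  have hE0 : 0 ≤ En lam N av := En_nonneg hD N av
  set e1 : ℝ := 1 + En lam N av with he1
  have he11 : 1 ≤ e1 := by linarith
  obtain ⟨hr1, hr2⟩ := hRhs N av fv hMa hMf
  have hS : ∑ κ ∈ IxN N, ‖uu av κ‖ ^ 2 ≤ X₁ := by
    rw [sum_sq_uu, hX₁]
    have := le_abs_self X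
    linarith
  obtain ⟨hEt1, hEt2⟩ := hEta N (fun κ => ‖uu av κ‖) (fun κ => ‖uu b κ‖) X₁ (B4 * e1 ^ 2) (B4 * e1)
    (fun κ => norm_nonneg _) (fun κ => norm_nonneg _) (norm_uu_bar av) (by positivity) hS hr2 hr1
  have hform : ‖form N (hnf bet lam om ε) (uu av)‖ ≤ B1 * (B2 * (X₁ * Real.sqrt X₁)) := by
    refine (norm_form_le _ _ _).trans ?_
    refine le_trans ?_ (mul_le_mul_of_nonneg_left hEt1 hB1)
    rw [Finset.mul_sum]
    refine Finset.sum_le_sum fun κ _ => ?_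
    rw [Finset.mul_sum]
    refine Finset.sum_le_sum fun l _ => ?_
    rw [Finset.mul_sum]
    refine Finset.sum_le_sum fun m _ => ?_
    have h0 : 0 ≤ ‖uu av κ‖ * ‖uu av l‖ * ‖uu av m‖ := by positivity
    have h1 := mul_le_mul_of_nonneg_right (hh κ l m) h0
    linarith
  have hdform : ‖dform N (hnf bet lam om ε) (uu av) (uu b)‖ ≤
      B1 * (B2 * (B4 * (X₁ + Real.sqrt X₁))) * e1 ^ 2 := by
    have h1 : ‖dform N (hnf bet lam om ε) (uu av) (uu b)‖ ≤
        B1 * (B2 * (X₁ * (B4 * e1) + Real.sqrt X₁ * (B4 * e1 ^ 2))) := by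
      refine (norm_dform_le _ _ _ _).trans ?_
      refine le_trans ?_ (mul_le_mul_of_nonneg_left hEt2 hB1)
      rw [Finset.mul_sum]
      refine Finset.sum_le_sum fun κ _ => ?_
      rw [Finset.mul_sum]
      refine Finset.sum_le_sum fun l _ => ?_
      rw [Finset.mul_sum]
      refine Finset.sum_le_sum fun m _ => ?_
      rw [← mul_assoc]
      exact mul_le_mul_of_nonneg_right (hh κ l m) (by positivity)
    refine h1.trans ?_
    have h2 : e1 ≤ e1 ^ 2 := by nlinarith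
    have h3 : X₁ * (B4 * e1) ≤ X₁ * (B4 * e1 ^ 2) := by gcongr
    calc B1 * (B2 * (X₁ * (B4 * e1) + Real.sqrt X₁ * (B4 * e1 ^ 2))) ≤
          B1 * (B2 * (X₁ * (B4 * e1 ^ 2) + Real.sqrt X₁ * (B4 * e1 ^ 2))) := by gcongr
      _ = B1 * (B2 * (B4 * (X₁ + Real.sqrt X₁))) * e1 ^ 2 := by ring
  have hpos2 : 0 ≤ K / ν * |F| + |B3| + B1 * (B2 * (B4 * (X₁ + Real.sqrt X₁))) := by positivity
  have hpos1 : 0 ≤ B1 * (B2 * (X₁ * Real.sqrt X₁)) := by positivity
  refine ⟨((Complex.abs_re_le_norm _).trans hform).trans (by linarith), ?_⟩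
  -- the derivative
  have hder : ∀ n < 2 * N, HasDerivWithinAt (a n) (b n + ε * rot om av n) (Icc 0 T) t :=
    fun n hn => hGal n hn t ht
  have hE : HasDerivWithinAt (fun s => En lam N (fun k => a k s))
      (∑ n ∈ Finset.range (2 * N), gg lam (n / 2) * (2 * av n * (b n + ε * rot om av n))) (Icc 0 T) t := by
    unfold En
    refine HasDerivWithinAt.fun_sum fun n hn => ?_
    have h1 := (hder n (Finset.mem_range.1 hn)).fun_pow 2
    have h2 := h1.const_mul (gg lam (n / 2))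
    refine h2.congr_deriv ?_
    simp only [hav]
    push_cast
    ring
  have hF := hDER (hnf bet lam om ε) om ε N T t a b hder
  have hFr := Complex.reCLM.hasFDerivAt.comp_hasDerivWithinAt t hF
  have hall := hE.sub hFr
  refine ⟨_, hall, ?_⟩
  have hsplit := split bet lam om ε hε hL N (uu av)
  have hsig : ∑ n ∈ Finset.range (2 * N), 2 * gg lam (n / 2) * av n * quad bet N av n =
      (form N (cx (sig bet lam)) (uu av)).re := by
    rw [hSIG bet lam K hD N av, ← hCPX (sig bet lam) N av, Complex.ofReal_re]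
  have hsum : ∑ n ∈ Finset.range (2 * N), gg lam (n / 2) * (2 * av n * (b n + ε * rot om av n)) =
      -2 * ν * (∑ n ∈ Finset.range (2 * N), gg lam (n / 2) * lam n * av n ^ 2) +
      2 * (∑ n ∈ Finset.range (2 * N), gg lam (n / 2) * av n * fv n) +
      ∑ n ∈ Finset.range (2 * N), 2 * gg lam (n / 2) * av n * quad bet N av n := by
    have hrot := rot_cancel lam om av N
    have h1 : ∑ n ∈ Finset.range (2 * N), gg lam (n / 2) * (2 * av n * (b n + ε * rot om av n)) =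
        ∑ n ∈ Finset.range (2 * N), gg lam (n / 2) * (2 * av n * b n) +
          ε * ∑ n ∈ Finset.range (2 * N), gg lam (n / 2) * (2 * av n * rot om av n) := by
      rw [Finset.mul_sum, ← Finset.sum_add_distrib]
      refine Finset.sum_congr rfl fun n _ => ?_
      ring
    rw [h1, hrot, mul_zero, add_zero, Finset.mul_sum, Finset.mul_sum, ← Finset.sum_add_distrib,
      ← Finset.sum_add_distrib]
    refine Finset.sum_congr rfl fun n _ => ?_
    rw [hb, Nn]
    ring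
  rw [hsum, hsig, hsplit]
  have hest := energy_est hD hν N av fv
  have hkep := hKep N av hMa
  have hre : (form N (rest bet lam om) (uu av)).re ≤ ‖form N (rest bet lam om) (uu av)‖ :=
    Complex.re_le_norm _
  have hred : -(dform N (hnf bet lam om ε) (uu av) (uu b)).re ≤
      ‖dform N (hnf bet lam om ε) (uu av) (uu b)‖ :=
    (neg_le_abs _).trans (Complex.abs_re_le_norm _)
  have hMf' : K / ν * Mm N fv ≤ K / ν * |F| :=
    mul_le_mul_of_nonneg_left (hMf.trans (le_abs_self F)) (by positivity)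
  have hB3 := le_abs_self B3
  have hsq : 1 ≤ e1 ^ 2 := by nlinarith
  have hfin : K / ν * |F| + |B3| ≤ (K / ν * |F| + |B3|) * e1 ^ 2 :=
    le_mul_of_one_le_right (by positivity) hsq
  have hfin1 : 0 ≤ B1 * (B2 * (X₁ * Real.sqrt X₁)) * e1 ^ 2 := by positivity
  simp only [Complex.reCLM_apply, Complex.add_re]
  nlinarith

end Pool.Agent.U401.DD.DRA94

theorem Pool.Agent.U401.DD.t_DRA : Pool.Agent.U401.DD.S_DRA := Pool.Agent.U401.DD.DRA94.main
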