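import Mathlib
import Pool.Agent.U401.DD.Stm

set_option autoImplicit false

/-! Project DD, package ETA (helper402): sums with the weights `wt`. -/

open Pool.Agent.U401.DD

namespace Pool.Agent.U401.DD.ETA402

/-- the weight of one mode -/
noncomputable def q (lam : ℕ → ℝ) (κ : Ix) : ℝ := (mu lam κ.1 ^ 3)⁻¹

lemma bar_mem {N : ℕ} {κ : Ix} (h : κ ∈ IxN N) : bar κ ∈ IxN N := by
  simp only [IxN, Finset.mem_product, Finset.mem_univ, and_true, bar] at h ⊢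
  exact h

lemma bar_bar (κ : Ix) : bar (bar κ) = κ := by
  simp [bar]

lemma T_eq (lam : ℕ → ℝ) (N : ℕ) (a b c : Ix → ℝ) :
    ∑ κ ∈ IxN N, ∑ l ∈ IxN N, ∑ m ∈ IxN N, wt lam κ l m * (a κ * b l * c m) =
      (∑ κ ∈ IxN N, q lam κ * a κ) * (∑ κ ∈ IxN N, q lam κ * b κ) * (∑ κ ∈ IxN N, q lam κ * c κ) +
      (∑ κ ∈ IxN N, a κ * b (bar κ)) * (∑ κ ∈ IxN N, q lam κ * c κ) +
      (∑ κ ∈ IxN N, a κ * c (bar κ)) * (∑ κ ∈ IxN N, q lam κ * b κ) +
      (∑ κ ∈ IxN N, q lam κ * a κ) * (∑ κ ∈ IxN N, b κ * c (bar κ)) := by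
  simp only [wt, add_mul, Finset.sum_add_distrib]
  congr 1
  · congr 1
    · congr 1
      · rw [Finset.sum_mul_sum, Finset.sum_mul]
        refine Finset.sum_congr rfl fun κ _ => ?_
        rw [Finset.sum_mul]
        refine Finset.sum_congr rfl fun l _ => ?_
        rw [Finset.mul_sum]
        refine Finset.sum_congr rfl fun m _ => ?_
        simp only [q]
        ring
      · rw [Finset.sum_mul_sum]
        refine Finset.sum_congr rfl fun κ hκ => ?_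
        rw [Finset.sum_eq_single (bar κ)]
        · refine Finset.sum_congr rfl fun m _ => ?_
          rw [if_pos rfl]
          simp only [q]
          ring
        · intro l _ hl
          refine Finset.sum_eq_zero fun m _ => ?_
          rw [if_neg hl, zero_mul]
        · intro h
          exact absurd (bar_mem hκ) h
    · rw [Finset.sum_mul_sum]
      refine Finset.sum_congr rfl fun κ hκ => Finset.sum_congr rfl fun l _ => ?_
      rw [Finset.sum_eq_single (bar κ)]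
      · rw [if_pos rfl]
        simp only [q]
        ring
      · intro m _ hm
        rw [if_neg hm, zero_mul]
      · intro h
        exact absurd (bar_mem hκ) h
  · rw [Finset.sum_mul_sum]
    refine Finset.sum_congr rfl fun κ _ => Finset.sum_congr rfl fun l hl => ?_
    rw [Finset.sum_eq_single (bar l)]
    · rw [if_pos rfl]
      simp only [q]
      ring
    · intro m _ hm
      rw [if_neg hm, zero_mul]
    · intro h
      exact absurd (bar_mem hl) h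

lemma mu_ge (lam : ℕ → ℝ) (h : ∀ n, 0 < lam n) (j : ℕ) : (j : ℝ) + 1 ≤ mu lam j := by
  have h1 := h (2 * j)
  have h2 := h (2 * j + 1)
  unfold mu gg
  have h3 : (0 : ℝ) ≤ (j : ℝ) + 1 := by positivity
  nlinarith

lemma sum_ix (N : ℕ) (f : ℕ → ℝ) : ∑ κ ∈ IxN N, f κ.1 = 2 * ∑ j ∈ Finset.range N, f j := by
  unfold IxN
  rw [Finset.sum_product, Finset.mul_sum]
  refine Finset.sum_congr rfl fun j _ => ?_
  simp [two_mul]

/-- the constant -/
noncomputable def C0 : ℝ := 2 * ∑' j : ℕ, 1 / (((j + 1 : ℕ) : ℝ)) ^ 2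

lemma C0_nonneg : 0 ≤ C0 := mul_nonneg zero_le_two (tsum_nonneg fun j => by positivity)

lemma sum_le (N : ℕ) (f : ℕ → ℝ) (h : ∀ j, f j ≤ 1 / (((j + 1 : ℕ) : ℝ)) ^ 2) :
    ∑ κ ∈ IxN N, f κ.1 ≤ C0 := by
  rw [sum_ix]
  unfold C0
  refine mul_le_mul_of_nonneg_left ?_ zero_le_two
  refine (Finset.sum_le_sum fun j _ => h j).trans ?_
  refine Summable.sum_le_tsum _ (fun j _ => by positivity) ?_
  exact (summable_nat_add_iff (f := fun n : ℕ => 1 / (n : ℝ) ^ 2) 1).mpr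
    (Real.summable_one_div_nat_pow.mpr one_lt_two)

lemma sum_q (lam : ℕ → ℝ) (h : ∀ n, 0 < lam n) (N : ℕ) : ∑ κ ∈ IxN N, q lam κ ≤ C0 := by
  refine sum_le N (fun j => (mu lam j ^ 3)⁻¹) fun j => ?_
  have h1 := mu_ge lam h j
  have h2 : (0 : ℝ) < (j : ℝ) + 1 := by positivity
  rw [one_div]
  push_cast
  refine inv_anti₀ (by positivity) ?_
  have h3 : 1 ≤ mu lam j := by linarith [(Nat.cast_nonneg j : (0 : ℝ) ≤ j)]
  calc ((j : ℝ) + 1) ^ 2 ≤ mu lam j ^ 2 := pow_le_pow_left₀ h2.le h1 2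
    _ ≤ mu lam j ^ 3 := pow_le_pow_right₀ h3 (by norm_num)

lemma sum_qmu (lam : ℕ → ℝ) (h : ∀ n, 0 < lam n) (N : ℕ) :
    ∑ κ ∈ IxN N, q lam κ * mu lam κ.1 ≤ C0 := by
  refine sum_le N (fun j => (mu lam j ^ 3)⁻¹ * mu lam j) fun j => ?_
  have h1 := mu_ge lam h j
  have h2 : (0 : ℝ) < (j : ℝ) + 1 := by positivity
  have h3 : 0 < mu lam j := by linarith
  have e : (mu lam j ^ 3)⁻¹ * mu lam j = (mu lam j ^ 2)⁻¹ := by
    field_simp
  rw [one_div]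
  push_cast
  rw [e]
  exact inv_anti₀ (by positivity) (pow_le_pow_left₀ h2.le h1 2)

theorem eta_main : S_ETA := by
  intro lam hlam
  have hC := C0_nonneg
  refine ⟨3 * (C0 ^ 3 + 2 * C0), by positivity, ?_⟩
  intro N x r X Y Z hx hr hbar hZ hX hY hrZ
  have hq : ∀ κ, 0 ≤ q lam κ := fun κ => by
    have := mu_ge lam hlam κ.1
    have h2 : (0 : ℝ) ≤ (κ.1 : ℝ) := by positivity
    have h3 : 0 ≤ mu lam κ.1 := by linarith
    unfold q
    positivity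
  have hX0 : 0 ≤ X := le_trans (Finset.sum_nonneg fun κ _ => sq_nonneg _) hX
  have hY0 : 0 ≤ Y := le_trans (Finset.sum_nonneg fun κ _ => mul_nonneg (hx κ) (hr κ)) hY
  set s := Real.sqrt X with hs
  have hs0 : 0 ≤ s := Real.sqrt_nonneg X
  have hss : s * s = X := Real.mul_self_sqrt hX0
  have hxs : ∀ κ ∈ IxN N, x κ ≤ s := by
    intro κ hκ
    refine Real.le_sqrt_of_sq_le (le_trans ?_ hX)
    exact Finset.single_le_sum (f := fun κ => x κ ^ 2) (fun κ _ => sq_nonneg _) hκ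
  -- the single sums
  have hSx : ∑ κ ∈ IxN N, q lam κ * x κ ≤ C0 * s := by
    calc ∑ κ ∈ IxN N, q lam κ * x κ ≤ ∑ κ ∈ IxN N, q lam κ * s :=
          Finset.sum_le_sum fun κ hκ => mul_le_mul_of_nonneg_left (hxs κ hκ) (hq κ)
      _ = (∑ κ ∈ IxN N, q lam κ) * s := by rw [Finset.sum_mul]
      _ ≤ C0 * s := mul_le_mul_of_nonneg_right (sum_q lam hlam N) hs0
  have hSr : ∑ κ ∈ IxN N, q lam κ * r κ ≤ C0 * Z := by
    calc ∑ κ ∈ IxN N, q lam κ * r κ ≤ ∑ κ ∈ IxN N, q lam κ * (Z * mu lam κ.1) :=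
          Finset.sum_le_sum fun κ hκ => mul_le_mul_of_nonneg_left (hrZ κ hκ) (hq κ)
      _ = (∑ κ ∈ IxN N, q lam κ * mu lam κ.1) * Z := by
          rw [Finset.sum_mul]
          refine Finset.sum_congr rfl fun κ _ => by ring
      _ ≤ C0 * Z := mul_le_mul_of_nonneg_right (sum_qmu lam hlam N) hZ
  have hSx0 : 0 ≤ ∑ κ ∈ IxN N, q lam κ * x κ :=
    Finset.sum_nonneg fun κ _ => mul_nonneg (hq κ) (hx κ)
  have hSr0 : 0 ≤ ∑ κ ∈ IxN N, q lam κ * r κ :=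
    Finset.sum_nonneg fun κ _ => mul_nonneg (hq κ) (hr κ)
  have hDxx : ∑ κ ∈ IxN N, x κ * x (bar κ) ≤ X := by
    refine le_trans (le_of_eq ?_) hX
    refine Finset.sum_congr rfl fun κ _ => ?_
    rw [hbar]; ring
  have hDxx0 : 0 ≤ ∑ κ ∈ IxN N, x κ * x (bar κ) :=
    Finset.sum_nonneg fun κ _ => mul_nonneg (hx κ) (hx _)
  have hDrx : ∑ κ ∈ IxN N, r κ * x (bar κ) ≤ Y := by
    refine le_trans (le_of_eq ?_) hY
    refine Finset.sum_congr rfl fun κ _ => ?_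
    rw [hbar]; ring
  have hDrx0 : 0 ≤ ∑ κ ∈ IxN N, r κ * x (bar κ) :=
    Finset.sum_nonneg fun κ _ => mul_nonneg (hr κ) (hx _)
  have hDxr : ∑ κ ∈ IxN N, x κ * r (bar κ) ≤ Y := by
    refine le_trans (le_of_eq ?_) hY
    refine Finset.sum_nbij' bar bar (fun κ h => bar_mem h) (fun κ h => bar_mem h)
      (fun κ _ => bar_bar κ) (fun κ _ => bar_bar κ) fun κ _ => ?_
    rw [hbar]
  have hDxr0 : 0 ≤ ∑ κ ∈ IxN N, x κ * r (bar κ) :=
    Finset.sum_nonneg fun κ _ => mul_nonneg (hx κ) (hr _)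
  set Sx := ∑ κ ∈ IxN N, q lam κ * x κ with hSxd
  set Sr := ∑ κ ∈ IxN N, q lam κ * r κ with hSrd
  set Dxx := ∑ κ ∈ IxN N, x κ * x (bar κ) with hDxxd
  set Drx := ∑ κ ∈ IxN N, r κ * x (bar κ) with hDrxd
  set Dxr := ∑ κ ∈ IxN N, x κ * r (bar κ) with hDxrd
  have hCs : 0 ≤ C0 * s := mul_nonneg hC hs0
  have hCZ : 0 ≤ C0 * Z := mul_nonneg hC hZ
  -- products
  have p1 : Sx * Sx ≤ C0 ^ 2 * X := by
    calc Sx * Sx ≤ (C0 * s) * (C0 * s) := mul_le_mul hSx hSx hSx0 hCs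
      _ = C0 ^ 2 * X := by rw [← hss]; ring
  have p2 : Sx * Sx * Sx ≤ C0 ^ 3 * (X * s) := by
    calc Sx * Sx * Sx ≤ (C0 ^ 2 * X) * (C0 * s) := mul_le_mul p1 hSx hSx0 (by positivity)
      _ = C0 ^ 3 * (X * s) := by ring
  have p3 : Dxx * Sx ≤ C0 * (X * s) := by
    calc Dxx * Sx ≤ X * (C0 * s) := mul_le_mul hDxx hSx hSx0 hX0
      _ = C0 * (X * s) := by ring
  have p4 : Sr * (Sx * Sx) ≤ C0 ^ 3 * (X * Z) := by
    calc Sr * (Sx * Sx) ≤ (C0 * Z) * (C0 ^ 2 * X) :=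
          mul_le_mul hSr p1 (mul_nonneg hSx0 hSx0) hCZ
      _ = C0 ^ 3 * (X * Z) := by ring
  have p5 : Drx * Sx ≤ C0 * (s * Y) := by
    calc Drx * Sx ≤ Y * (C0 * s) := mul_le_mul hDrx hSx hSx0 hY0
      _ = C0 * (s * Y) := by ring
  have p6 : Dxr * Sx ≤ C0 * (s * Y) := by
    calc Dxr * Sx ≤ Y * (C0 * s) := mul_le_mul hDxr hSx hSx0 hY0
      _ = C0 * (s * Y) := by ring
  have p7 : Dxx * Sr ≤ C0 * (X * Z) := by
    calc Dxx * Sr ≤ X * (C0 * Z) := mul_le_mul hDxx hSr hSr0 hX0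
      _ = C0 * (X * Z) := by ring
  have hXs : 0 ≤ X * s := mul_nonneg hX0 hs0
  have hXZ : 0 ≤ X * Z := mul_nonneg hX0 hZ
  have hsY : 0 ≤ s * Y := mul_nonneg hs0 hY0
  have hC3 : 0 ≤ C0 ^ 3 := pow_nonneg hC 3
  constructor
  · rw [T_eq, ← hSxd, ← hDxxd]
    have g1 : 0 ≤ C0 ^ 3 * (X * s) := mul_nonneg hC3 hXs
    have g2 : 0 ≤ C0 * (X * s) := mul_nonneg hC hXs
    calc Sx * Sx * Sx + Dxx * Sx + Dxx * Sx + Sx * Dxx
        = Sx * Sx * Sx + 3 * (Dxx * Sx) := by ring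
      _ ≤ 3 * (C0 ^ 3 + 2 * C0) * (X * s) := by nlinarith
  · have e : ∀ κ l m : Ix, wt lam κ l m * (r κ * x l * x m + x κ * r l * x m + x κ * x l * r m) =
        wt lam κ l m * (r κ * x l * x m) + wt lam κ l m * (x κ * r l * x m) +
          wt lam κ l m * (x κ * x l * r m) := fun κ l m => by ring
    simp only [e, Finset.sum_add_distrib]
    rw [T_eq, T_eq, T_eq, ← hSxd, ← hSrd, ← hDxxd, ← hDrxd, ← hDxrd]
    have g1 : 0 ≤ C0 ^ 3 * (s * Y) := mul_nonneg hC3 hsY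
    have g2 : 0 ≤ C0 * (X * Z) := mul_nonneg hC hXZ
    calc Sr * Sx * Sx + Drx * Sx + Drx * Sx + Sr * Dxx +
          (Sx * Sr * Sx + Dxr * Sx + Dxx * Sr + Sx * Drx) +
          (Sx * Sx * Sr + Dxx * Sr + Dxr * Sx + Sx * Dxr)
        = 3 * (Sr * (Sx * Sx)) + 3 * (Drx * Sx) + 3 * (Dxr * Sx) + 3 * (Dxx * Sr) := by ring
      _ ≤ 3 * (C0 ^ 3 + 2 * C0) * (X * Z + s * Y) := by nlinarith

end Pool.Agent.U401.DD.ETA402

namespace Pool.Agent.U401.DD

theorem t_ETA : S_ETA := ETA402.eta_main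

end Pool.Agent.U401.DD
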