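import Mathlib
import Pool.Agent.U401.DD.Stm

set_option autoImplicit false

/-!
Project DD, package HB: the coefficients of the normal form.
-/

namespace Pool.Agent.U401.DD

open Set

namespace HB

lemma triv {K' c e y x g n L : ℝ} (hK : 0 ≤ K') (hc : 0 < c) (he : 0 < e) (hy : 1 ≤ y)
    (hx0 : 0 ≤ x) (hx : x ≤ y ^ 8) (hg0 : 0 ≤ g) (hg : g ≤ y)
    (hn : n ^ 4 ≤ K' * ((x + g) ^ 4 * (x ^ 3 * g ^ 2))) (hL : c * y ^ 20 ≤ L) :
    n * (1 / (e * L)) ≤ 2 * (K' + 1) / (e * c) * (y ^ 3)⁻¹ := by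
  have hy0 : 0 < y := by linarith
  have hy8 : y ≤ y ^ 8 := by
    calc y = y ^ 1 := (pow_one y).symm
      _ ≤ y ^ 8 := pow_le_pow_right₀ hy (by norm_num)
  have h1 : (x + g) ^ 4 ≤ (2 * y ^ 8) ^ 4 := pow_le_pow_left₀ (by positivity) (by linarith) 4
  have h2 : x ^ 3 ≤ (y ^ 8) ^ 3 := pow_le_pow_left₀ hx0 hx 3
  have h3 : g ^ 2 ≤ y ^ 2 := pow_le_pow_left₀ hg0 hg 2
  have h4 : (x + g) ^ 4 * (x ^ 3 * g ^ 2) ≤ (2 * y ^ 8) ^ 4 * ((y ^ 8) ^ 3 * y ^ 2) :=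
    mul_le_mul h1 (mul_le_mul h2 h3 (by positivity) (by positivity)) (by positivity)
      (by positivity)
  have h5 : n ^ 4 ≤ (2 * (K' + 1) * y ^ 17) ^ 4 := by
    have e1 : (2 * y ^ 8) ^ 4 * ((y ^ 8) ^ 3 * y ^ 2) = 16 * y ^ 58 := by ring
    have e3 : y ^ 58 ≤ y ^ 68 := pow_le_pow_right₀ hy (by norm_num)
    have e4 : K' ≤ (K' + 1) ^ 4 := by
      calc K' ≤ K' + 1 := by linarith
        _ = (K' + 1) ^ 1 := (pow_one _).symm
        _ ≤ (K' + 1) ^ 4 := pow_le_pow_right₀ (by linarith) (by norm_num)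
    calc n ^ 4 ≤ K' * (16 * y ^ 58) := by
          rw [← e1]; exact hn.trans (mul_le_mul_of_nonneg_left h4 hK)
      _ ≤ (K' + 1) ^ 4 * (16 * y ^ 68) :=
          mul_le_mul e4 (mul_le_mul_of_nonneg_left e3 (by norm_num)) (by positivity)
            (by positivity)
      _ = (2 * (K' + 1) * y ^ 17) ^ 4 := by ring
  have h6 : n ≤ 2 * (K' + 1) * y ^ 17 :=
    le_of_pow_le_pow_left₀ (by norm_num) (by positivity) h5
  have hL0 : 0 < c * y ^ 20 := by positivity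
  have h7 : 1 / (e * L) ≤ 1 / (e * (c * y ^ 20)) :=
    one_div_le_one_div_of_le (by positivity) (mul_le_mul_of_nonneg_left hL he.le)
  have hLe : 0 ≤ 1 / (e * L) := by
    have : 0 < L := lt_of_lt_of_le hL0 hL
    positivity
  calc n * (1 / (e * L)) ≤ (2 * (K' + 1) * y ^ 17) * (1 / (e * (c * y ^ 20))) :=
        mul_le_mul h6 h7 hLe (by positivity)
    _ = 2 * (K' + 1) / (e * c) * (y ^ 3)⁻¹ := by
        field_simp

lemma gen {K e a b d x y z M n L : ℝ} (hK : 1 ≤ K) (he : 0 < e) (ha : 1 ≤ a) (hb : 1 ≤ b)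
    (hd : 1 ≤ d) (hx0 : 0 ≤ x) (hy0 : 0 ≤ y) (hz0 : 0 ≤ z) (hx : x ≤ a) (hy : y ≤ b) (hz : z ≤ d)
    (haM : a ≤ M) (hbM : b ≤ M) (hdM : d ≤ M) (hn : n ≤ 2 * K * (x * y * z) ^ 2)
    (hL : M ^ 20 ≤ L) :
    n * (1 / (e * L)) ≤ 2 * K / e * ((a ^ 3)⁻¹ * (b ^ 3)⁻¹ * (d ^ 3)⁻¹) := by
  have ha0 : 0 < a := by linarith
  have hb0 : 0 < b := by linarith
  have hd0 : 0 < d := by linarith
  have hM1 : 1 ≤ M := ha.trans haM
  have hM0 : 0 < M := by linarith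
  have h1 : x * y * z ≤ a * b * d :=
    mul_le_mul (mul_le_mul hx hy hy0 ha0.le) hz hz0 (by positivity)
  have h2 : (x * y * z) ^ 2 ≤ (a * b * d) ^ 2 := pow_le_pow_left₀ (by positivity) h1 2
  have h3 : (a * b * d) ^ 5 ≤ M ^ 20 := by
    have e1 : a * b * d ≤ M * M * M :=
      mul_le_mul (mul_le_mul haM hbM hb0.le hM0.le) hdM hd0.le (by positivity)
    calc (a * b * d) ^ 5 ≤ (M * M * M) ^ 5 := pow_le_pow_left₀ (by positivity) e1 5
      _ = M ^ 15 := by ring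
      _ ≤ M ^ 20 := pow_le_pow_right₀ hM1 (by norm_num)
  have hP : 0 < (a * b * d) ^ 5 := by positivity
  have hL0 : 0 < L := lt_of_lt_of_le (by positivity) hL
  have h4 : 1 / (e * L) ≤ 1 / (e * (a * b * d) ^ 5) :=
    one_div_le_one_div_of_le (by positivity) (mul_le_mul_of_nonneg_left (h3.trans hL) he.le)
  calc n * (1 / (e * L)) ≤ (2 * K * (a * b * d) ^ 2) * (1 / (e * L)) := by
        refine mul_le_mul_of_nonneg_right (hn.trans ?_) (by positivity)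
        exact mul_le_mul_of_nonneg_left h2 (by linarith)
    _ ≤ (2 * K * (a * b * d) ^ 2) * (1 / (e * (a * b * d) ^ 5)) :=
        mul_le_mul_of_nonneg_left h4 (by positivity)
    _ = 2 * K / e * ((a ^ 3)⁻¹ * (b ^ 3)⁻¹ * (d ^ 3)⁻¹) := by
        field_simp

lemma fr_bar (om : ℕ → ℝ) (κ : Ix) : fr om κ + fr om (bar κ) = 0 := by
  obtain ⟨j, b⟩ := κ
  cases b <;> simp [fr, bar, sg]

lemma abs_fr (om : ℕ → ℝ) (κ : Ix) : |fr om κ| = |om κ.1| := by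
  obtain ⟨j, b⟩ := κ
  cases b <;> simp [fr, sg]

lemma Lm_1 (om : ℕ → ℝ) (κ m : Ix) : |Lm om κ (bar κ) m| = |om m.1| := by
  rw [← abs_fr]
  congr 1
  have := fr_bar om κ
  unfold Lm
  linarith

lemma Lm_2 (om : ℕ → ℝ) (κ m : Ix) : |Lm om κ m (bar κ)| = |om m.1| := by
  rw [← abs_fr]
  congr 1
  have := fr_bar om κ
  unfold Lm
  linarith

lemma Lm_3 (om : ℕ → ℝ) (κ m : Ix) : |Lm om m κ (bar κ)| = |om m.1| := by
  rw [← abs_fr]
  congr 1
  have := fr_bar om κ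
  unfold Lm
  linarith

end HB

theorem t_HB : S_HB := by
  intro hB bet lam om K c ε hD hG hε
  obtain ⟨-, hb1, K', hK', hb2⟩ := hB bet lam K hD
  have hgg : ∀ j, 0 < gg lam j := fun j => add_pos (hD.pos _) (hD.pos _)
  have hGG1 : ∀ j, 1 ≤ GG lam j := fun j => by
    have := hgg j
    unfold GG
    linarith
  have hGG0 : ∀ j, 0 ≤ GG lam j := fun j => zero_le_one.trans (hGG1 j)
  have hGGmu : ∀ j, GG lam j ≤ mu lam j := fun j => by
    have h1 := hgg j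
    have h2 : (0 : ℝ) ≤ (j : ℝ) := Nat.cast_nonneg j
    unfold GG mu
    nlinarith
  have hmu1 : ∀ j, 1 ≤ mu lam j := fun j => (hGG1 j).trans (hGGmu j)
  have hmu0 : ∀ j, 0 < mu lam j := fun j => lt_of_lt_of_le zero_lt_one (hmu1 j)
  have hom : ∀ j, 0 < |om j| := fun j =>
    lt_of_lt_of_le (mul_pos hG.pos (pow_pos (hmu0 j) 20)) (hG.low j)
  have hmx : ∀ κ l m : Ix, mu lam κ.1 ≤ mx lam κ l m ∧ mu lam l.1 ≤ mx lam κ l m ∧
      mu lam m.1 ≤ mx lam κ l m := fun κ l m =>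
    ⟨le_max_left _ _, (le_max_left _ _).trans (le_max_right _ _),
      (le_max_right _ _).trans (le_max_right _ _)⟩
  have he : 0 < |ε| := abs_pos.mpr hε
  have hc := hG.pos
  have hwt : ∀ κ l m : Ix, 0 ≤ (mu lam κ.1 ^ 3)⁻¹ * (mu lam l.1 ^ 3)⁻¹ * (mu lam m.1 ^ 3)⁻¹ :=
    fun κ l m => by
      have h1 := hmu0 κ.1
      have h2 := hmu0 l.1
      have h3 := hmu0 m.1
      positivity
  have hi0 : ∀ j, 0 ≤ (mu lam j ^ 3)⁻¹ := fun j => by
    have h1 := hmu0 j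
    positivity
  refine ⟨?_, ?_⟩
  · rintro κ l m ⟨-, ⟨-, h⟩ | ⟨rfl, -⟩ | ⟨rfl, -⟩ | ⟨rfl, -⟩⟩
    · have h1 : 1 ≤ mx lam κ l m ^ 20 := one_le_pow₀ ((hmu1 κ.1).trans (hmx κ l m).1)
      exact abs_pos.mp (lt_of_lt_of_le zero_lt_one (h1.trans h))
    · exact abs_pos.mp (by rw [HB.Lm_1]; exact hom _)
    · exact abs_pos.mp (by rw [HB.Lm_2]; exact hom _)
    · exact abs_pos.mp (by rw [HB.Lm_3]; exact hom _)
  · refine ⟨2 * K / |ε| + 2 * (K' + 1) / (|ε| * c), ?_, ?_⟩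
    · have := hD.K1
      positivity
    intro κ l m
    have hKe : 0 ≤ 2 * K / |ε| := by
      have := hD.K1
      positivity
    have hKc : 0 ≤ 2 * (K' + 1) / (|ε| * c) := by positivity
    have hs1 : 0 ≤ (if l = bar κ then (mu lam m.1 ^ 3)⁻¹ else 0) := by
      split_ifs
      · exact hi0 _
      · exact le_refl _
    have hs2 : 0 ≤ (if m = bar κ then (mu lam l.1 ^ 3)⁻¹ else 0) := by
      split_ifs
      · exact hi0 _
      · exact le_refl _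
    have hs3 : 0 ≤ (if m = bar l then (mu lam κ.1 ^ 3)⁻¹ else 0) := by
      split_ifs
      · exact hi0 _
      · exact le_refl _
    have hw0 : 0 ≤ wt lam κ l m := by
      unfold wt
      have := hwt κ l m
      convert add_nonneg (add_nonneg (add_nonneg this hs1) hs2) hs3
    have hBig : ∀ w q : ℝ, 0 ≤ q → q ≤ 2 * K / |ε| + 2 * (K' + 1) / (|ε| * c) →
        w ≤ wt lam κ l m → q * w ≤ (2 * K / |ε| + 2 * (K' + 1) / (|ε| * c)) * wt lam κ l m := by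
      intro w q hq hq2 hw
      exact (mul_le_mul_of_nonneg_left hw hq).trans (mul_le_mul_of_nonneg_right hq2 hw0)
    unfold hnf
    split_ifs with hfar
    · have hnorm : ‖cx (sig bet lam) κ l m * (Complex.I / (ε * Lm om κ l m))‖ =
          ‖cx (sig bet lam) κ l m‖ * (1 / (|ε| * |Lm om κ l m|)) := by
        rw [norm_mul, norm_div, Complex.norm_I, norm_mul, Complex.norm_real, Complex.norm_real,
          Real.norm_eq_abs, Real.norm_eq_abs]
      rw [hnorm]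
      obtain ⟨-, ⟨-, h⟩ | ⟨rfl, h⟩ | ⟨rfl, h⟩ | ⟨rfl, h⟩⟩ := hfar
      · refine (HB.gen hD.K1 he (hmu1 κ.1) (hmu1 l.1) (hmu1 m.1) (hGG0 _) (hGG0 _) (hGG0 _)
          (hGGmu _) (hGGmu _) (hGGmu _) (hmx κ l m).1 (hmx κ l m).2.1 (hmx κ l m).2.2
          (hb1 κ l m) h).trans ?_
        apply hBig _ _ hKe (by linarith)
        unfold wt
        have e1 := hs1
        have e2 := hs2
        have e3 := hs3
        convert (show (mu lam κ.1 ^ 3)⁻¹ * (mu lam l.1 ^ 3)⁻¹ * (mu lam m.1 ^ 3)⁻¹ ≤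
          (mu lam κ.1 ^ 3)⁻¹ * (mu lam l.1 ^ 3)⁻¹ * (mu lam m.1 ^ 3)⁻¹ +
          (if l = bar κ then (mu lam m.1 ^ 3)⁻¹ else 0) +
          (if m = bar κ then (mu lam l.1 ^ 3)⁻¹ else 0) +
          (if m = bar l then (mu lam κ.1 ^ 3)⁻¹ else 0) by linarith)
      · refine (HB.triv hK' hc he (hmu1 m.1) (hGG0 κ.1) h (hGG0 m.1) (hGGmu m.1)
          (hb2 κ m).1 (by rw [HB.Lm_1]; exact hG.low m.1)).trans ?_
        apply hBig _ _ hKc (by linarith)
        have e0 := hwt κ (bar κ) m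
        have e2 := hs2
        have e3 := hs3
        unfold wt
        rw [if_pos rfl]
        convert (show (mu lam m.1 ^ 3)⁻¹ ≤
          (mu lam κ.1 ^ 3)⁻¹ * (mu lam (bar κ).1 ^ 3)⁻¹ * (mu lam m.1 ^ 3)⁻¹ +
          (mu lam m.1 ^ 3)⁻¹ +
          (if m = bar κ then (mu lam (bar κ).1 ^ 3)⁻¹ else 0) +
          (if m = bar (bar κ) then (mu lam κ.1 ^ 3)⁻¹ else 0) by linarith)
      · refine (HB.triv hK' hc he (hmu1 l.1) (hGG0 κ.1) h (hGG0 l.1) (hGGmu l.1)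
          (hb2 κ l).2.1 (by rw [HB.Lm_2]; exact hG.low l.1)).trans ?_
        apply hBig _ _ hKc (by linarith)
        have e0 := hwt κ l (bar κ)
        have e1 := hs1
        have e3 := hs3
        unfold wt
        rw [if_pos (rfl : bar κ = bar κ)]
        convert (show (mu lam l.1 ^ 3)⁻¹ ≤
          (mu lam κ.1 ^ 3)⁻¹ * (mu lam l.1 ^ 3)⁻¹ * (mu lam (bar κ).1 ^ 3)⁻¹ +
          (if l = bar κ then (mu lam (bar κ).1 ^ 3)⁻¹ else 0) +
          (mu lam l.1 ^ 3)⁻¹ +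
          (if bar κ = bar l then (mu lam κ.1 ^ 3)⁻¹ else 0) by linarith)
      · refine (HB.triv hK' hc he (hmu1 κ.1) (hGG0 l.1) h (hGG0 κ.1) (hGGmu κ.1)
          (hb2 l κ).2.2 (by rw [HB.Lm_3]; exact hG.low κ.1)).trans ?_
        apply hBig _ _ hKc (by linarith)
        have e0 := hwt κ l (bar l)
        have e1 := hs1
        have e2 := hs2
        unfold wt
        rw [if_pos (rfl : bar l = bar l)]
        convert (show (mu lam κ.1 ^ 3)⁻¹ ≤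
          (mu lam κ.1 ^ 3)⁻¹ * (mu lam l.1 ^ 3)⁻¹ * (mu lam (bar l).1 ^ 3)⁻¹ +
          (if l = bar κ then (mu lam (bar l).1 ^ 3)⁻¹ else 0) +
          (if bar l = bar κ then (mu lam l.1 ^ 3)⁻¹ else 0) +
          (mu lam κ.1 ^ 3)⁻¹ by linarith)
    · rw [norm_zero]
      exact mul_nonneg (by positivity) hw0

end Pool.Agent.U401.DD
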