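import Mathlib
import Pool.Agent.U401.DD.Stm

/-!
Project DD (helper401), package PRL (helper88): almost surely a lower bound of the frequencies.
-/

set_option autoImplicit false

open MeasureTheory ProbabilityTheory Set Filter Topology

namespace Pool.Agent.U401.DD

namespace PRL

lemma mu_ge {lam : ℕ → ℝ} (hl : ∀ n, 0 < lam n) (j : ℕ) : (j : ℝ) + 1 ≤ mu lam j := by
  unfold mu gg
  have h1 : 0 ≤ lam (2 * j) + lam (2 * j + 1) := (add_pos (hl _) (hl _)).le
  have h2 : (0 : ℝ) ≤ (j : ℝ) + 1 := by positivity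
  nlinarith [mul_nonneg h2 h1]

lemma mu_pos {lam : ℕ → ℝ} (hl : ∀ n, 0 < lam n) (j : ℕ) : 0 < mu lam j :=
  lt_of_lt_of_le (by positivity) (mu_ge hl j)

end PRL

open PRL in
theorem t_PRL : S_PRL := by
  intro lam hl σ D hσ hD Ω _ μ _ Z hZ hdens
  -- the exceptional events
  set r : ℕ → ℝ := fun j => mu lam j ^ (20 - σ) with hr
  have hrpos : ∀ j, 0 < r j := fun j => Real.rpow_pos_of_pos (mu_pos hl j) _
  have hrle : ∀ j : ℕ, r j ≤ ((j : ℝ) + 1) ^ (20 - σ) := by
    intro j
    exact Real.rpow_le_rpow_of_nonpos (by positivity) (mu_ge hl j) (by linarith)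
  have hsum : Summable (fun j : ℕ => D * (2 * ((j : ℝ) + 1) ^ (20 - σ))) := by
    apply Summable.mul_left
    apply Summable.mul_left
    have h1 : Summable (fun j : ℕ => ((j : ℕ) : ℝ) ^ (20 - σ)) :=
      Real.summable_nat_rpow.2 (by linarith)
    have h2 := (summable_nat_add_iff 1).2 h1
    refine h2.congr ?_
    intro j
    push_cast
    rfl
  have hfin : ∑' j, μ {ω | Z j ω ∈ Icc (-(r j)) (r j)} ≠ ⊤ := by
    refine ne_top_of_le_ne_top hsum.tsum_ofReal_ne_top ?_
    refine ENNReal.tsum_le_tsum fun j => ?_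
    refine (hdens j (-(r j)) (r j) (by linarith [hrpos j])).trans ?_
    apply ENNReal.ofReal_le_ofReal
    have := hrle j
    apply mul_le_mul_of_nonneg_left _ hD
    linarith
  have h1 := ae_finite_setOf_mem hfin
  have h2 : ∀ᵐ ω ∂μ, ∀ j, Z j ω ≠ 0 := by
    rw [ae_all_iff]
    intro j
    have h3 := hdens j 0 0 le_rfl
    simp only [sub_self, mul_zero, ENNReal.ofReal_zero, nonpos_iff_eq_zero, Icc_self,
      mem_singleton_iff] at h3
    rw [ae_iff]
    simpa using h3
  filter_upwards [h1, h2] with ω hω1 hω2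
  set F : Set ℕ := {i | ω ∈ {ω | Z i ω ∈ Icc (-(r i)) (r i)}} with hF
  have hpos : ∀ j, 0 < |mu lam j ^ σ * Z j ω| := by
    intro j
    rw [abs_pos]
    exact mul_ne_zero (Real.rpow_pos_of_pos (mu_pos hl j) _).ne' (hω2 j)
  set S : ℝ := ∑ j ∈ hω1.toFinset, mu lam j ^ 20 / |mu lam j ^ σ * Z j ω| with hS
  have hS0 : 0 ≤ S := Finset.sum_nonneg fun j _ =>
    div_nonneg (pow_nonneg (mu_pos hl j).le _) (abs_nonneg _)
  refine ⟨(1 + S)⁻¹, by positivity, fun j => ?_⟩
  by_cases hj : j ∈ F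
  · have h3 : mu lam j ^ 20 / |mu lam j ^ σ * Z j ω| ≤ S := by
      apply Finset.single_le_sum (f := fun j => mu lam j ^ 20 / |mu lam j ^ σ * Z j ω|)
        (fun j _ => div_nonneg (pow_nonneg (mu_pos hl j).le _) (abs_nonneg _))
      exact hω1.mem_toFinset.2 hj
    rw [div_le_iff₀ (hpos j)] at h3
    rw [inv_mul_le_iff₀ (by positivity)]
    nlinarith [hpos j]
  · have h3 : r j < |Z j ω| := by
      by_contra hcon
      exact hj (abs_le.1 (not_lt.1 hcon))
    have h4 : mu lam j ^ 20 ≤ |mu lam j ^ σ * Z j ω| := by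
      rw [abs_mul, abs_of_pos (Real.rpow_pos_of_pos (mu_pos hl j) σ)]
      have h5 : mu lam j ^ 20 = mu lam j ^ σ * r j := by
        rw [hr]
        simp only
        rw [← Real.rpow_add (mu_pos hl j), ← Real.rpow_natCast]
        congr 1
        push_cast
        ring
      rw [h5]
      exact mul_le_mul_of_nonneg_left h3.le (Real.rpow_pos_of_pos (mu_pos hl j) σ).le
    refine le_trans ?_ h4
    have h6 : (1 + S)⁻¹ ≤ 1 := inv_le_one_of_one_le₀ (by linarith)
    have h7 : 0 ≤ mu lam j ^ 20 := pow_nonneg (mu_pos hl j).le _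
    nlinarith

end Pool.Agent.U401.DD
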