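import Mathlib
import Pool.Agent.U401.DD.Stm

/-! # Project DD (helper401), package UNQ (helper445): uniqueness -/

set_option autoImplicit false

open MeasureTheory Set Filter Topology
open scoped InnerProductSpace

namespace Pool.Agent.U401.DD.UNQ

open H772R2.NSR

section one
variable {E : Type} [NormedAddCommGroup E] [InnerProductSpace ℝ E]

theorem orth_in (e : ℕ → E) (ho : ∀ i j, i ≠ j → ⟪e i, e j⟫_ℝ = 0) (a : ℕ → ℝ) (N M : ℕ)
    (hNM : N ≤ M) : ⟪∑ n ∈ Finset.range N, a n • e n, e M⟫_ℝ = 0 := by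
  rw [sum_inner]
  refine Finset.sum_eq_zero fun n hn => ?_
  rw [Finset.mem_range] at hn
  rw [real_inner_smul_left, ho n M (by omega), mul_zero]

theorem dsq (e : ℕ → E) (ho : ∀ i j, i ≠ j → ⟪e i, e j⟫_ℝ = 0) (a : ℕ → ℝ) (N M : ℕ)
    (hNM : N ≤ M) :
    ‖(∑ n ∈ Finset.range M, a n • e n) - ∑ n ∈ Finset.range N, a n • e n‖ ^ 2 =
      (∑ n ∈ Finset.range M, ‖a n • e n‖ ^ 2) - ∑ n ∈ Finset.range N, ‖a n • e n‖ ^ 2 := by
  induction M, hNM using Nat.le_induction with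
  | base => simp
  | succ M hM ih =>
    have e1 : (∑ n ∈ Finset.range (M + 1), a n • e n) - ∑ n ∈ Finset.range N, a n • e n =
        ((∑ n ∈ Finset.range M, a n • e n) - ∑ n ∈ Finset.range N, a n • e n) + a M • e M := by
      rw [Finset.sum_range_succ]; abel
    rw [e1, norm_add_sq_real, ih, Finset.sum_range_succ, real_inner_smul_right, inner_sub_left,
      orth_in e ho a M M le_rfl, orth_in e ho a N M hM]
    ring

theorem nsq (e : ℕ → E) (ho : ∀ i j, i ≠ j → ⟪e i, e j⟫_ℝ = 0) (a : ℕ → ℝ) (N : ℕ) :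
    ‖∑ n ∈ Finset.range N, a n • e n‖ ^ 2 = ∑ n ∈ Finset.range N, ‖a n • e n‖ ^ 2 := by
  have := dsq e ho a 0 N (Nat.zero_le _)
  simpa using this

theorem ins (e : ℕ → E) (a : ℕ → ℝ) (ζ : E) (h : ∀ n, ⟪e n, ζ⟫_ℝ * a n = ‖a n • e n‖ ^ 2) (N : ℕ) :
    ⟪∑ n ∈ Finset.range N, a n • e n, ζ⟫_ℝ = ∑ n ∈ Finset.range N, ‖a n • e n‖ ^ 2 := by
  rw [sum_inner]
  refine Finset.sum_congr rfl fun n _ => ?_
  rw [real_inner_smul_left, ← h n]
  ring

theorem bess (e : ℕ → E) (ho : ∀ i j, i ≠ j → ⟪e i, e j⟫_ℝ = 0) (a : ℕ → ℝ) (ζ : E)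
    (h : ∀ n, ⟪e n, ζ⟫_ℝ * a n = ‖a n • e n‖ ^ 2) (N : ℕ) :
    ∑ n ∈ Finset.range N, ‖a n • e n‖ ^ 2 ≤ ‖ζ‖ ^ 2 := by
  have h1 := nsq e ho a N
  have h2 := ins e a ζ h N
  have h3 : 0 ≤ ‖(∑ n ∈ Finset.range N, a n • e n) - ζ‖ ^ 2 := sq_nonneg _
  rw [norm_sub_sq_real, h1, h2] at h3
  linarith

theorem conv [CompleteSpace E] (e : ℕ → E) (ho : ∀ i j, i ≠ j → ⟪e i, e j⟫_ℝ = 0) (a : ℕ → ℝ)
    (B : ℝ) (hB : ∀ N, ∑ n ∈ Finset.range N, ‖a n • e n‖ ^ 2 ≤ B) :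
    ∃ L, Tendsto (fun N => ∑ n ∈ Finset.range N, a n • e n) atTop (𝓝 L) := by
  set q : ℕ → ℝ := fun N => ∑ n ∈ Finset.range N, ‖a n • e n‖ ^ 2 with hq
  have hmono : Monotone q := by
    refine monotone_nat_of_le_succ fun N => ?_
    simp only [hq, Finset.sum_range_succ]
    have := sq_nonneg ‖a N • e N‖
    linarith
  have hbdd : BddAbove (range q) := ⟨B, by rintro _ ⟨N, rfl⟩; exact hB N⟩
  have hlim := tendsto_atTop_ciSup hmono hbdd
  apply cauchySeq_tendsto_of_complete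
  rw [Metric.cauchySeq_iff']
  intro ε hε
  have hε2 : 0 < ε ^ 2 := by positivity
  obtain ⟨N, hN⟩ := ((tendsto_order.1 hlim).1 ((⨆ i, q i) - ε ^ 2) (by linarith)).exists
  refine ⟨N, fun n hn => ?_⟩
  rw [dist_eq_norm]
  have h1 := dsq e ho a N n hn
  have h2 := le_ciSup hbdd n
  have h3 : ‖(∑ n ∈ Finset.range n, a n • e n) - ∑ n ∈ Finset.range N, a n • e n‖ ^ 2 < ε ^ 2 := by
    rw [h1]
    simp only [hq] at h2 hN ⊢
    linarith
  exact lt_of_pow_lt_pow_left₀ 2 hε.le h3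

end one

variable {H K : Type} [NormedAddCommGroup H] [InnerProductSpace ℝ H] [CompleteSpace H]
  [NormedAddCommGroup K] [InnerProductSpace ℝ K] [CompleteSpace K]
  {W : Submodule ℝ (H × K)} {m : H → K} {C : ℝ} {w : ℕ → H} {g : ℕ → K} {lam : ℕ → ℝ}

theorem ow (hB : Bas W w g lam) (i j : ℕ) (h : i ≠ j) : ⟪w i, w j⟫_ℝ = 0 := hB.orth.2 h

theorem og (hB : Bas W w g lam) (i j : ℕ) (h : i ≠ j) : ⟪g i, g j⟫_ℝ = 0 := by
  have := hB.eig i (w j, g j) (hB.mem j)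
  simp only at this
  rw [this, ow hB i j h, mul_zero]

theorem ng (hB : Bas W w g lam) (i : ℕ) : ‖g i‖ ^ 2 = lam i := by
  have := hB.eig i (w i, g i) (hB.mem i)
  simp only at this
  rw [real_inner_self_eq_norm_sq, real_inner_self_eq_norm_sq, hB.orth.1 i] at this
  rw [this]
  ring

theorem cw (hB : Bas W w g lam) (v : H) (n : ℕ) :
    ⟪w n, v⟫_ℝ * ⟪w n, v⟫_ℝ = ‖⟪w n, v⟫_ℝ • w n‖ ^ 2 := by
  rw [norm_smul, hB.orth.1 n, mul_one, Real.norm_eq_abs, sq_abs]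
  ring

theorem cg (hB : Bas W w g lam) {v : H} {ζ : K} (h : (v, ζ) ∈ W) (n : ℕ) :
    ⟪g n, ζ⟫_ℝ * ⟪w n, v⟫_ℝ = ‖⟪w n, v⟫_ℝ • g n‖ ^ 2 := by
  have := hB.eig n (v, ζ) h
  simp only at this
  rw [norm_smul, mul_pow, ng hB n, this, Real.norm_eq_abs, sq_abs]
  ring

theorem expand (Fr : Frame W m C) (hB : Bas W w g lam) {v : H} {ζ : K} (h : (v, ζ) ∈ W) :
    Tendsto (fun N : ℕ => ∑ n ∈ Finset.range (2 * N), ⟪w n, v⟫_ℝ • g n) atTop (𝓝 ζ) ∧
      Tendsto (fun N : ℕ => ∑ n ∈ Finset.range (2 * N), ⟪w n, v⟫_ℝ ^ 2) atTop (𝓝 (‖v‖ ^ 2)) := by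
  obtain ⟨V, hV⟩ := conv w (ow hB) (fun n => ⟪w n, v⟫_ℝ) (‖v‖ ^ 2)
    (bess w (ow hB) _ v (cw hB v))
  obtain ⟨G, hG⟩ := conv g (og hB) (fun n => ⟪w n, v⟫_ℝ) (‖ζ‖ ^ 2)
    (bess g (og hB) _ ζ (cg hB h))
  have hVG : (V, G) ∈ W := by
    refine Fr.closedW.mem_of_tendsto (hV.prodMk_nhds hG) (Eventually.of_forall fun N => ?_)
    have : ((∑ n ∈ Finset.range N, ⟪w n, v⟫_ℝ • w n, ∑ n ∈ Finset.range N, ⟪w n, v⟫_ℝ • g n) : H × K) =
        ∑ n ∈ Finset.range N, ⟪w n, v⟫_ℝ • (w n, g n) := by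
      rw [Prod.ext_iff, Prod.fst_sum, Prod.snd_sum]
      exact ⟨rfl, rfl⟩
    rw [this]
    exact W.sum_mem fun n _ => W.smul_mem _ (hB.mem n)
  have hp : (V - v, G - ζ) ∈ W := W.sub_mem hVG h
  have hk : ∀ k, ⟪w k, V - v⟫_ℝ = 0 := by
    intro k
    have h1 : Tendsto (fun N => ⟪w k, ∑ n ∈ Finset.range N, ⟪w n, v⟫_ℝ • w n⟫_ℝ) atTop
        (𝓝 ⟪w k, V⟫_ℝ) := tendsto_const_nhds.inner hV
    have h2 : Tendsto (fun N => ⟪w k, ∑ n ∈ Finset.range N, ⟪w n, v⟫_ℝ • w n⟫_ℝ) atTop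
        (𝓝 ⟪w k, v⟫_ℝ) := by
      refine tendsto_const_nhds.congr' ?_
      filter_upwards [eventually_gt_atTop k] with N hN
      exact (hB.orth.inner_right_sum (fun n => ⟪w n, v⟫_ℝ) (Finset.mem_range.mpr hN)).symm
    rw [inner_sub_right, tendsto_nhds_unique h1 h2, sub_self]
  have hVv : V - v = 0 := by
    have h1 : (V - v) ∈ closure (Submodule.span ℝ (range w) : Set H) := hB.dens _ hp
    have h2 : (Submodule.span ℝ (range w) : Set H) ⊆ {u | ⟪u, V - v⟫_ℝ = 0} := by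
      intro u hu
      refine Submodule.span_induction (p := fun u _ => ⟪u, V - v⟫_ℝ = 0) ?_ ?_ ?_ ?_ hu
      · rintro _ ⟨k, rfl⟩
        exact hk k
      · exact inner_zero_left _
      · intro a b _ _ ha hb
        rw [inner_add_left, ha, hb, add_zero]
      · intro c a _ ha
        rw [real_inner_smul_left, ha, mul_zero]
    have h3 : IsClosed {u : H | ⟪u, V - v⟫_ℝ = 0} :=
      isClosed_eq (continuous_id.inner continuous_const) continuous_const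
    have h4 : ⟪V - v, V - v⟫_ℝ = 0 := closure_minimal h2 h3 h1
    exact inner_self_eq_zero.mp h4
  have hGz : G - ζ = 0 := Fr.uniq _ hp hVv
  rw [sub_eq_zero] at hVv hGz
  subst hVv hGz
  have h2N : Tendsto (fun N : ℕ => 2 * N) atTop atTop :=
    tendsto_id.const_mul_atTop' (by norm_num)
  refine ⟨hG.comp h2N, ?_⟩
  have h5 : Tendsto (fun N => ⟪∑ n ∈ Finset.range N, ⟪w n, V⟫_ℝ • w n, V⟫_ℝ) atTop
      (𝓝 ⟪V, V⟫_ℝ) := hV.inner tendsto_const_nhds
  rw [real_inner_self_eq_norm_sq] at h5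
  refine (h5.comp h2N).congr fun N => ?_
  simp only [Function.comp]
  rw [sum_inner]
  refine Finset.sum_congr rfl fun n _ => ?_
  rw [real_inner_smul_left]
  ring

theorem rot_cancel (om : ℕ → ℝ) (a : ℕ → ℝ) (N : ℕ) :
    ∑ n ∈ Finset.range (2 * N), a n * rot om a n = 0 := by
  induction N with
  | zero => simp
  | succ N ih =>
    have e : 2 * (N + 1) = 2 * N + 1 + 1 := by ring
    rw [e, Finset.sum_range_succ, Finset.sum_range_succ, ih]
    unfold rot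
    have h1 : (2 * N) % 2 = 0 := by omega
    have h2 : ¬ (2 * N + 1) % 2 = 0 := by omega
    have h3 : (2 * N) / 2 = N := by omega
    have h4 : (2 * N + 1) / 2 = N := by omega
    rw [if_pos h1, if_neg h2, h3, h4, Nat.add_sub_cancel]
    ring

theorem young {C ν R : ℝ} (hC : 0 < C) (hν : 0 < ν) (hR : 0 ≤ R) {s a b : ℝ} (hs : 0 ≤ s)
    (ha : 0 ≤ a) (hb : 0 ≤ b) (h : s ^ 2 ≤ C * (a * b ^ 3)) :
    2 * (s * R) ≤ 2 * ν * b ^ 2 + R ^ 4 * C ^ 2 / (4 * ν ^ 3) * a ^ 2 := by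
  have h0 : 0 ≤ 2 * ν * b ^ 2 + R ^ 4 * C ^ 2 / (4 * ν ^ 3) * a ^ 2 := by positivity
  have h0' : 0 ≤ 2 * (s * R) := by positivity
  refine (pow_le_pow_iff_left₀ h0' h0 two_ne_zero).mp ?_
  have h1 : (2 * (s * R)) ^ 2 ≤ 4 * R ^ 2 * (C * (a * b ^ 3)) := by
    have : (2 * (s * R)) ^ 2 = 4 * R ^ 2 * s ^ 2 := by ring
    rw [this]
    exact mul_le_mul_of_nonneg_left h (by positivity)
  have h2 : R ^ 2 * C * (a * b) ≤ ν ^ 2 * b ^ 2 + R ^ 4 * C ^ 2 / (4 * ν ^ 2) * a ^ 2 := by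
    have : ν ^ 2 * b ^ 2 + R ^ 4 * C ^ 2 / (4 * ν ^ 2) * a ^ 2 - R ^ 2 * C * (a * b) =
        (ν * b - R ^ 2 * C / (2 * ν) * a) ^ 2 := by
      field_simp
      ring
    nlinarith [sq_nonneg (ν * b - R ^ 2 * C / (2 * ν) * a)]
  calc (2 * (s * R)) ^ 2 ≤ 4 * R ^ 2 * (C * (a * b ^ 3)) := h1
    _ = 4 * b ^ 2 * (R ^ 2 * C * (a * b)) := by ring
    _ ≤ 4 * b ^ 2 * (ν ^ 2 * b ^ 2 + R ^ 4 * C ^ 2 / (4 * ν ^ 2) * a ^ 2) :=
        mul_le_mul_of_nonneg_left h2 (by positivity)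
    _ = (2 * ν * b ^ 2) ^ 2 + 2 * (2 * ν * b ^ 2) * (R ^ 4 * C ^ 2 / (4 * ν ^ 3) * a ^ 2) := by
        field_simp
        ring
    _ ≤ (2 * ν * b ^ 2 + R ^ 4 * C ^ 2 / (4 * ν ^ 3) * a ^ 2) ^ 2 := by
        have : 0 ≤ (R ^ 4 * C ^ 2 / (4 * ν ^ 3) * a ^ 2) ^ 2 := sq_nonneg _
        nlinarith

/-- `m` is continuous along solutions -/
theorem cont_m (Fr : Frame W m C) {x : ℝ → H} {z : ℝ → K} {T R : ℝ} (hm : ∀ t, 0 ≤ t → (x t, z t) ∈ W)
    (hc : ContinuousOn x (Ici 0)) (hR : ∀ t ∈ Icc 0 T, ‖z t‖ ≤ R) :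
    ContinuousOn (fun s => m (x s)) (Icc 0 T) := by
  intro t ht
  have hR0 : 0 ≤ R := (norm_nonneg _).trans (hR t ht)
  have hC := Fr.C0
  have key : ∀ s ∈ Icc 0 T, ‖m (x s) - m (x t)‖ ≤
      Real.sqrt (Real.sqrt (C * (‖x s - x t‖ * (2 * R) ^ 3 * (2 * R) ^ 4))) := by
    intro s hs
    have h1 := Fr.lips _ (hm s hs.1) _ (hm t ht.1)
    simp only at h1
    have hzs := hR s hs
    have hzt := hR t ht
    have h2 : ‖z s - z t‖ ≤ 2 * R := (norm_sub_le _ _).trans (by linarith)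
    have h3 : ‖z s‖ + ‖z t‖ ≤ 2 * R := by linarith
    have h4 : ‖m (x s) - m (x t)‖ ^ 4 ≤ C * (‖x s - x t‖ * (2 * R) ^ 3 * (2 * R) ^ 4) := by
      refine h1.trans ?_
      gcongr
    rw [Real.le_sqrt (norm_nonneg _) (Real.sqrt_nonneg _), Real.le_sqrt (by positivity) (by positivity)]
    calc (‖m (x s) - m (x t)‖ ^ 2) ^ 2 = ‖m (x s) - m (x t)‖ ^ 4 := by ring
      _ ≤ _ := h4
  have hxt : Tendsto (fun s => ‖x s - x t‖) (𝓝[Icc 0 T] t) (𝓝 0) := by
    have h1 : ContinuousWithinAt x (Icc 0 T) t := (hc t ht.1).mono fun s hs => hs.1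
    exact tendsto_iff_norm_sub_tendsto_zero.mp h1
  have hlim : Tendsto (fun s => Real.sqrt (Real.sqrt
      (C * (‖x s - x t‖ * (2 * R) ^ 3 * (2 * R) ^ 4)))) (𝓝[Icc 0 T] t) (𝓝 0) := by
    have h1 : Tendsto (fun s => C * (‖x s - x t‖ * (2 * R) ^ 3 * (2 * R) ^ 4)) (𝓝[Icc 0 T] t) (𝓝 0) := by
      have := ((hxt.mul_const ((2 * R) ^ 3)).mul_const ((2 * R) ^ 4)).const_mul C
      simpa using this
    have h2 := (Real.continuous_sqrt.tendsto _).comp ((Real.continuous_sqrt.tendsto _).comp h1)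
    simpa [Function.comp_def] using h2
  refine tendsto_iff_norm_sub_tendsto_zero.mpr ?_
  refine squeeze_zero' (Eventually.of_forall fun _ => norm_nonneg _) ?_ hlim
  filter_upwards [self_mem_nhdsWithin] with s hs
  exact key s hs

theorem norm_m (Fr : Frame W m C) {v : H} {ζ : K} (h : (v, ζ) ∈ W) {R : ℝ} (hR : ‖ζ‖ ≤ R) :
    ‖m v‖ ≤ C * R ^ 2 := by
  have hC := Fr.C0
  have hR0 : 0 ≤ R := (norm_nonneg _).trans hR
  have h1 := Fr.quart _ h
  have h2 := Fr.poinc _ h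
  simp only at h1 h2
  refine (pow_le_pow_iff_left₀ (norm_nonneg _) (by positivity) two_ne_zero).mp ?_
  calc ‖m v‖ ^ 2 ≤ C * (‖v‖ * ‖ζ‖ ^ 3) := h1
    _ ≤ C * ((C * R) * R ^ 3) := by
        have h3 : ‖v‖ ≤ C * R := h2.trans (mul_le_mul_of_nonneg_left hR hC.le)
        gcongr
    _ = (C * R ^ 2) ^ 2 := by ring

/-- the energy identity of the difference -/
theorem ident (Fr : Frame W m C) (hB : Bas W w g lam) {om : ℕ → ℝ} {ν ε : ℝ} {f : ℝ → H} {u₀ : H}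
    {x x' : ℝ → H} {z z' : ℝ → K} (hx : IsSolA W m w g lam om ν ε f u₀ x z)
    (hx' : IsSolA W m w g lam om ν ε f u₀ x' z') {T R : ℝ} (hν : 0 < ν)
    (hR : ∀ t ∈ Icc 0 T, ‖z t‖ ≤ R) (hR' : ∀ t ∈ Icc 0 T, ‖z' t‖ ≤ R) {t : ℝ} (ht : t ∈ Icc 0 T) :
    ‖x t - x' t‖ ^ 2 = ∫ s in (0 : ℝ)..t, (-2 * ν * ‖z s - z' s‖ ^ 2 +
      2 * ⟪m (x s) - m (x' s), z s - z' s⟫_ℝ) := by
  have hmem : ∀ s, 0 ≤ s → (x s - x' s, z s - z' s) ∈ W :=
    fun s hs => W.sub_mem (hx.mem s hs) (hx'.mem s hs)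
  have hR0 : 0 ≤ R := (norm_nonneg _).trans (hR t ht)
  have hC := Fr.C0
  set a : ℕ → ℝ → ℝ := fun n s => ⟪w n, x s - x' s⟫_ℝ with ha
  set h : ℕ → ℝ → ℝ := fun N s =>
    -2 * ν * (∑ n ∈ Finset.range (2 * N), ‖a n s • g n‖ ^ 2) +
      2 * ⟪m (x s) - m (x' s), ∑ n ∈ Finset.range (2 * N), a n s • g n⟫_ℝ with hh
  have hda : ∀ n s, 0 ≤ s → HasDerivWithinAt (a n)
      (-ν * lam n * a n s + ⟪m (x s) - m (x' s), g n⟫_ℝ + ε * rot om (fun k => a k s) n)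
      (Ici 0) s := by
    intro n s hs
    have h1 := (hx.eqn n s hs).fun_sub (hx'.eqn n s hs)
    have e1 : (fun s => ⟪w n, x s⟫_ℝ - ⟪w n, x' s⟫_ℝ) = a n := by
      funext s
      simp only [ha, inner_sub_right]
    rw [e1] at h1
    refine h1.congr_deriv ?_
    have e2 : rot om (fun k => a k s) n =
        rot om (fun k => ⟪w k, x s⟫_ℝ) n - rot om (fun k => ⟪w k, x' s⟫_ℝ) n := by
      unfold rot
      split_ifs <;> simp only [ha, inner_sub_right] <;> ring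
    rw [e2, inner_sub_left]
    simp only [ha, inner_sub_right]
    ring
  have hdy : ∀ N s, 0 ≤ s → HasDerivWithinAt
      (fun s => ∑ n ∈ Finset.range (2 * N), a n s ^ 2) (h N s) (Ici 0) s := by
    intro N s hs
    have h1 := HasDerivWithinAt.fun_sum (u := Finset.range (2 * N)) (A := fun n s => a n s ^ 2)
      (A' := fun n => 2 * a n s * (-ν * lam n * a n s + ⟪m (x s) - m (x' s), g n⟫_ℝ +
        ε * rot om (fun k => a k s) n)) (s := Ici 0) (x := s) (fun n _ => by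
          have := (hda n s hs).fun_pow 2
          simpa using this)
    refine h1.congr_deriv ?_
    have e3 : ∑ n ∈ Finset.range (2 * N), 2 * a n s * (-ν * lam n * a n s +
        ⟪m (x s) - m (x' s), g n⟫_ℝ + ε * rot om (fun k => a k s) n) =
        -2 * ν * (∑ n ∈ Finset.range (2 * N), a n s ^ 2 * lam n) +
          2 * (∑ n ∈ Finset.range (2 * N), a n s * ⟪m (x s) - m (x' s), g n⟫_ℝ) +
          2 * ε * ∑ n ∈ Finset.range (2 * N), a n s * rot om (fun k => a k s) n := by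
      rw [Finset.mul_sum, Finset.mul_sum, Finset.mul_sum, ← Finset.sum_add_distrib,
        ← Finset.sum_add_distrib]
      refine Finset.sum_congr rfl fun n _ => by ring
    rw [e3, rot_cancel om (fun k => a k s) N, mul_zero, add_zero, hh]
    simp only
    rw [inner_sum]
    congr 2
    · refine Finset.sum_congr rfl fun n _ => ?_
      rw [norm_smul, mul_pow, ng hB n, Real.norm_eq_abs, sq_abs]
    · refine Finset.sum_congr rfl fun n _ => ?_
      rw [real_inner_smul_right]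
  have hca : ∀ n, ContinuousOn (a n) (Icc 0 T) := fun n s hs =>
    (hda n s hs.1).continuousWithinAt.mono fun u hu => hu.1
  have hcm := cont_m Fr hx.mem hx.cont hR
  have hcm' := cont_m Fr hx'.mem hx'.cont hR'
  have hch : ∀ N, ContinuousOn (h N) (Icc 0 T) := by
    intro N
    refine ContinuousOn.add (continuousOn_const.mul (continuousOn_finsetSum _ fun n _ => ?_))
      (continuousOn_const.mul ((hcm.sub hcm').inner (continuousOn_finsetSum _ fun n _ =>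
        (hca n).smul continuousOn_const)))
    exact ((hca n).smul continuousOn_const).norm.pow 2
  have hsub : Icc 0 t ⊆ Icc 0 T := Icc_subset_Icc_right ht.2
  have hint : ∀ N, ∑ n ∈ Finset.range (2 * N), a n t ^ 2 = ∫ s in (0 : ℝ)..t, h N s := by
    intro N
    have h1 := intervalIntegral.integral_eq_sub_of_hasDeriv_right_of_le ht.1
      (f := fun s => ∑ n ∈ Finset.range (2 * N), a n s ^ 2) (f' := h N)
      (continuousOn_finsetSum _ fun n _ => ((hca n).mono hsub).pow 2)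
      (fun s hs => ((hdy N s hs.1.le).hasDerivAt (Ici_mem_nhds hs.1)).hasDerivWithinAt)
      (((hch N).mono hsub).intervalIntegrable_of_Icc ht.1)
    have h0 : ∀ n, a n 0 = 0 := by
      intro n
      simp only [ha]
      rw [hx.init, hx'.init, sub_self, inner_zero_right]
    rw [h1]
    simp [h0]
  obtain ⟨Bd, hBd⟩ : ∃ Bd : ℝ, Bd = 2 * ν * (2 * R) ^ 2 + 2 * ((2 * (C * R ^ 2)) * (2 * R)) :=
    ⟨_, rfl⟩
  have hbound : ∀ N, ∀ s ∈ Icc 0 T, ‖h N s‖ ≤ Bd := by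
    intro N s hs
    have hz : ‖z s - z' s‖ ≤ 2 * R := (norm_sub_le _ _).trans (by linarith [hR s hs, hR' s hs])
    have h1 : ∑ n ∈ Finset.range (2 * N), ‖a n s • g n‖ ^ 2 ≤ (2 * R) ^ 2 :=
      (bess g (og hB) _ _ (cg hB (hmem s hs.1)) (2 * N)).trans
        (pow_le_pow_left₀ (norm_nonneg _) hz 2)
    have h2 : ‖∑ n ∈ Finset.range (2 * N), a n s • g n‖ ≤ 2 * R := by
      refine (pow_le_pow_iff_left₀ (norm_nonneg _) (by positivity) two_ne_zero).mp ?_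
      rw [nsq g (og hB)]
      exact h1
    have h3 : ‖m (x s) - m (x' s)‖ ≤ 2 * (C * R ^ 2) :=
      (norm_sub_le _ _).trans (by
        linarith [norm_m Fr (hx.mem s hs.1) (hR s hs), norm_m Fr (hx'.mem s hs.1) (hR' s hs)])
    have h4 : 0 ≤ ∑ n ∈ Finset.range (2 * N), ‖a n s • g n‖ ^ 2 :=
      Finset.sum_nonneg fun n _ => sq_nonneg _
    have h5 : |⟪m (x s) - m (x' s), ∑ n ∈ Finset.range (2 * N), a n s • g n⟫_ℝ| ≤
        (2 * (C * R ^ 2)) * (2 * R) :=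
      (abs_real_inner_le_norm _ _).trans (mul_le_mul h3 h2 (norm_nonneg _) (by positivity))
    rw [hh, hBd]
    simp only
    refine (norm_add_le _ _).trans (add_le_add ?_ ?_)
    · rw [Real.norm_eq_abs, abs_mul, abs_of_nonneg h4]
      have : |(-2 * ν : ℝ)| = 2 * ν := by
        rw [abs_of_nonpos (by linarith)]
        ring
      rw [this]
      exact mul_le_mul_of_nonneg_left h1 (by positivity)
    · rw [Real.norm_eq_abs, abs_mul, abs_of_nonneg (by norm_num : (0 : ℝ) ≤ 2)]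
      exact mul_le_mul_of_nonneg_left h5 (by norm_num)
  have hlim := intervalIntegral.tendsto_integral_filter_of_dominated_convergence (μ := volume)
    (a := 0) (b := t) (l := atTop) (F := h) (f := fun s => -2 * ν * ‖z s - z' s‖ ^ 2 +
      2 * ⟪m (x s) - m (x' s), z s - z' s⟫_ℝ) (fun _ => Bd)
    (Eventually.of_forall fun N => by
      rw [uIoc_of_le ht.1]
      exact (((hch N).mono hsub).mono Ioc_subset_Icc_self).aestronglyMeasurable measurableSet_Ioc)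
    (Eventually.of_forall fun N => Eventually.of_forall fun s hs => by
      rw [uIoc_of_le ht.1] at hs
      exact hbound N s (hsub (Ioc_subset_Icc_self hs)))
    intervalIntegrable_const
    (Eventually.of_forall fun s hs => by
      rw [uIoc_of_le ht.1] at hs
      have hG := (expand Fr hB (hmem s hs.1.le)).1
      have h1 : Tendsto (fun N : ℕ => ∑ n ∈ Finset.range (2 * N), ‖a n s • g n‖ ^ 2) atTop
          (𝓝 (‖z s - z' s‖ ^ 2)) := by
        refine (hG.norm.pow 2).congr fun N => ?_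
        exact nsq g (og hB) (fun n => a n s) (2 * N)
      exact (h1.const_mul (-2 * ν)).add ((tendsto_const_nhds.inner hG).const_mul 2))
  have h6 := (expand Fr hB (hmem t ht.1)).2
  refine tendsto_nhds_unique h6 (hlim.congr fun N => (hint N).symm)

end Pool.Agent.U401.DD.UNQ

namespace Pool.Agent.U401.DD

open H772R2.NSR UNQ

theorem t_UNQ : S_UNQ := by
  intro H K _ _ _ _ _ _ W m C w g lam Fr hB om ν ε f u₀ hν x z x' z' hx hx' T hT
  obtain ⟨R1, hR1⟩ := hx.bdd T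
  obtain ⟨R2, hR2⟩ := hx'.bdd T
  obtain ⟨R, hRdef⟩ : ∃ R : ℝ, R = max R1 R2 := ⟨_, rfl⟩
  have hR : ∀ t ∈ Icc 0 T, ‖z t‖ ≤ R := fun t ht => (hR1 t ht).trans (hRdef ▸ le_max_left _ _)
  have hR' : ∀ t ∈ Icc 0 T, ‖z' t‖ ≤ R := fun t ht => (hR2 t ht).trans (hRdef ▸ le_max_right _ _)
  have hR0 : 0 ≤ R := (norm_nonneg _).trans (hR 0 ⟨le_rfl, hT⟩)
  have hC := Fr.C0
  obtain ⟨C', hC'⟩ : ∃ C' : ℝ, C' = R ^ 4 * C ^ 2 / (4 * ν ^ 3) := ⟨_, rfl⟩
  have hC'0 : 0 ≤ C' := by rw [hC']; positivity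
  set V : ℝ → ℝ := fun s => ‖x (max s 0) - x' (max s 0)‖ ^ 2 with hV
  have hmax : Continuous fun s : ℝ => max s 0 := continuous_id.max continuous_const
  have hVc : Continuous V :=
    (((hx.cont.comp_continuous hmax fun s => mem_Ici.mpr (le_max_right _ _)).sub
      (hx'.cont.comp_continuous hmax fun s => mem_Ici.mpr (le_max_right _ _))).norm).pow 2
  have hV0 : ∀ s, 0 ≤ V s := fun s => sq_nonneg _
  have hVt : ∀ t, 0 ≤ t → V t = ‖x t - x' t‖ ^ 2 := by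
    intro t ht
    simp only [hV]
    rw [max_eq_left ht]
  have key : ∀ t ∈ Icc 0 T, V t ≤ C' * ∫ s in (0 : ℝ)..t, V s := by
    intro t ht
    rw [hVt t ht.1, ident Fr hB hx hx' hν hR hR' ht, ← intervalIntegral.integral_const_mul]
    have hle : ∀ s ∈ Icc 0 t, (-2 * ν * ‖z s - z' s‖ ^ 2 +
        2 * ⟪m (x s) - m (x' s), z s - z' s⟫_ℝ) ≤ C' * V s := by
      intro s hs
      have hsT : s ∈ Icc 0 T := ⟨hs.1, hs.2.trans ht.2⟩
      have h1 := Fr.anti _ (hx.mem s hs.1) _ (hx'.mem s hs.1)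
      have h2 := Fr.quart _ (W.sub_mem (hx.mem s hs.1) (hx'.mem s hs.1))
      simp only [Prod.mk_sub_mk] at h1 h2
      have h3 := young hC hν hR0 (norm_nonneg (m (x s - x' s))) (norm_nonneg (x s - x' s))
        (norm_nonneg (z s - z' s)) h2
      rw [← hC'] at h3
      have h4 : -⟪m (x s - x' s), z' s⟫_ℝ ≤ ‖m (x s - x' s)‖ * R := by
        have h5 := abs_real_inner_le_norm (m (x s - x' s)) (z' s)
        have h6 : ‖m (x s - x' s)‖ * ‖z' s‖ ≤ ‖m (x s - x' s)‖ * R :=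
          mul_le_mul_of_nonneg_left (hR' s hsT) (norm_nonneg _)
        have h7 := neg_abs_le ⟪m (x s - x' s), z' s⟫_ℝ
        linarith
      rw [h1, hVt s hs.1]
      linarith
    by_cases hi : IntervalIntegrable (fun s => -2 * ν * ‖z s - z' s‖ ^ 2 +
        2 * ⟪m (x s) - m (x' s), z s - z' s⟫_ℝ) volume 0 t
    · exact intervalIntegral.integral_mono_on ht.1 hi
        ((continuous_const.mul hVc).intervalIntegrable _ _) hle
    · rw [intervalIntegral.integral_undef hi]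
      exact intervalIntegral.integral_nonneg ht.1 fun s _ => mul_nonneg hC'0 (hV0 s)
  set Y : ℝ → ℝ := fun t => ∫ s in (0 : ℝ)..t, V s with hY
  have hYd : ∀ t, HasDerivAt Y (V t) t := fun t =>
    intervalIntegral.integral_hasDerivAt_right (hVc.intervalIntegrable _ _)
      (hVc.stronglyMeasurableAtFilter _ _) hVc.continuousAt
  have hY0 : ∀ t, 0 ≤ t → 0 ≤ Y t := fun t ht =>
    intervalIntegral.integral_nonneg ht fun s _ => hV0 s
  have hgr := norm_le_gronwallBound_of_norm_deriv_right_le (f := Y) (f' := V) (δ := 0) (K := C')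
    (ε := 0) (a := 0) (b := T) (fun t _ => (hYd t).continuousAt.continuousWithinAt)
    (fun t _ => (hYd t).hasDerivWithinAt) (by simp [hY])
    (fun t ht => by
      rw [Real.norm_of_nonneg (hV0 t), Real.norm_of_nonneg (hY0 t ht.1), add_zero]
      exact key t ⟨ht.1, ht.2.le⟩) T ⟨hT, le_rfl⟩
  rw [gronwallBound_ε0_δ0] at hgr
  have h8 : Y T = 0 := norm_le_zero_iff.mp hgr
  have h9 := key T ⟨hT, le_rfl⟩
  have h10 : ∫ s in (0 : ℝ)..T, V s = 0 := h8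
  rw [h10, mul_zero, hVt T hT] at h9
  have h11 : ‖x T - x' T‖ = 0 := by
    have := sq_nonneg ‖x T - x' T‖
    exact pow_eq_zero_iff two_ne_zero |>.mp (le_antisymm h9 this)
  exact sub_eq_zero.mp (norm_eq_zero.mp h11)

end Pool.Agent.U401.DD
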